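import Pool.Agent.Lib.Complexity.Bridge

set_option autoImplicit false

namespace Pool.Agent.Lib.MP_3cc314_lc
open Finset Pool.Agent.Lib.Complexity

abbrev Mx := List (List Bool)

def adj (M : Mx) (i j : ℕ) : Bool := (M.getD i []).getD j false

/-- the number of walks of length `j` from `z` to `x` -/
def wk (M : Mx) (x : ℕ) : ℕ → ℕ → ℕ
  | 0, z => if z = x then 1 else 0
  | j + 1, z => ∑ k ∈ range M.length, if adj M z k then wk M x j k else 0

def stp (M : Mx) (v : List ℤ) : List ℤ := (List.range M.length).map fun z =>
  ((List.range M.length).map fun k => if adj M z k then v.getD k 0 else 0).sum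

def W (M : Mx) (x j : ℕ) : List ℤ :=
  (stp M)^[j] ((List.range M.length).map fun z => if z = x then 1 else 0)

theorem getD_range (n k : ℕ) (f : ℕ → ℤ) (h : k < n) : ((List.range n).map f).getD k 0 = f k := by
  rw [List.getD_eq_getElem _ _ (by simpa using h)]
  simp

theorem W_eq (M : Mx) (x j : ℕ) : W M x j = (List.range M.length).map fun z => (wk M x j z : ℤ) := by
  induction j with
  | zero => simp [W, wk]
  | succ j ih =>
    rw [W, Function.iterate_succ_apply', ← W, ih, stp]
    refine List.map_congr_left fun z _ => ?_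
    rw [wk, Nat.cast_sum, ← List.sum_toFinset _ List.nodup_range, List.toFinset_range]
    refine sum_congr rfl fun k hk => ?_
    rw [getD_range _ _ _ (mem_range.1 hk)]
    simp

theorem wk_le (M : Mx) (x j z : ℕ) : wk M x j z ≤ 2 ^ (M.length * j) := by
  induction j generalizing z with
  | zero => rw [wk]; split_ifs <;> simp
  | succ j ih =>
    rw [wk, mul_add_one, pow_add, mul_comm]
    refine (sum_le_card_nsmul _ _ (2 ^ (M.length * j)) fun k _ => ?_).trans ?_
    · split_ifs
      exacts [ih k, Nat.zero_le _]
    · rw [card_range]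
      exact Nat.mul_le_mul_right _ Nat.lt_two_pow_self.le

@[fun_prop] theorem pt_adj {α : Type} [Enc α] {M : α → Mx} {i j : α → ℕ} (hM : PT M) (hi : PT i)
    (hj : PT j) : PT fun a => adj (M a) (i a) (j a) := by
  unfold adj
  fun_prop

@[fun_prop] theorem pt_W {α : Type} [Enc α] {M : α → Mx} {x j : α → ℕ} (hM : PT M) (hx : PT x)
    (hj : PT j) : PT fun a => W (M a) (x a) (j a) :=
  PT.iterate (step := fun a => stp (M a)) hj (by fun_prop) (by unfold stp; fun_prop)
    (B := fun a => (M a).length * (4 * ((M a).length * j a + 1) + 1 + 1)) (PT.pb_nat (by fun_prop))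
    fun a i hi => by
      rw [← W, W_eq]
      refine (sz_list_le (B := 4 * ((M a).length * j a + 1) + 1) fun b hb => ?_).trans (by simp)
      obtain ⟨z, -, rfl⟩ := List.mem_map.1 hb
      refine sz_int_le ((wk_le _ _ _ _).trans_lt (Nat.pow_lt_pow_right one_lt_two ?_))
      exact Nat.lt_succ_of_le (Nat.mul_le_mul_left _ hi.le)

def sg (M : Mx) (x z : ℕ) : List ℤ := (List.range M.length).map fun j => (W M x j).getD z 0

def cl (M : Mx) (y x z : ℕ) : Bool := decide (sg M x z = sg M 0 y)

def nx (M : Mx) (y : ℕ) (a : ℕ × ℕ) : ℕ × ℕ :=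
  (a.2, ((List.range M.length).find? fun z => decide (z ≠ a.1) && cl M y a.2 z).getD 0)

def sq (M : Mx) (y k : ℕ) : ℕ := ((nx M y)^[k] (0, y)).1

theorem nx_lt (M : Mx) (y k n : ℕ) (h : y < n) (hn : M.length ≤ n) :
    ((nx M y)^[k] (0, y)).1 < n ∧ ((nx M y)^[k] (0, y)).2 < n := by
  induction k with
  | zero => exact ⟨by simp; omega, h⟩
  | succ k ih =>
    rw [Function.iterate_succ_apply', nx]
    refine ⟨ih.2, ?_⟩
    rcases e : List.find? _ _ with _ | z
    · simp; omega
    · exact (List.mem_range.1 (List.mem_of_find?_eq_some e)).trans_le hn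

@[fun_prop] theorem pt_cl {α : Type} [Enc α] {M : α → Mx} {y x z : α → ℕ} (hM : PT M) (hy : PT y)
    (hx : PT x) (hz : PT z) : PT fun a => cl (M a) (y a) (x a) (z a) := by
  unfold cl sg
  fun_prop

@[fun_prop] theorem pt_sq {α : Type} [Enc α] {M : α → Mx} {y k : α → ℕ} (hM : PT M) (hy : PT y)
    (hk : PT k) : PT fun a => sq (M a) (y a) (k a) :=
  (PT.iterate (step := fun a => nx (M a) (y a)) hk (by fun_prop) (by unfold nx; fun_prop)
    (B := fun a => 2 * ((M a).length + y a + 1)) (PT.pb_nat (by fun_prop)) fun a i _ => by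
      have := nx_lt (M a) (y a) i ((M a).length + y a + 1) (by omega) (by omega)
      rw [sz_prod, sz_nat, sz_nat]
      omega).fst

def alg (M : Mx) : Bool :=
  ((List.range M.length).all fun i => (List.range M.length).all fun j => !adj M i j) ||
  ((List.range M.length).all fun i => (List.range M.length).all fun j =>
    decide (i = j) || adj M i j) ||
  (List.range M.length).any fun y => decide (y ≠ 0) &&
    decide ((List.range M.length).countP (fun z => cl M y 0 z) ≤ 2) &&
    ((List.range M.length).all fun d => decide (d < 2) || decide (M.length % d ≠ 0)) &&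
    ((List.range M.length).all fun i => (List.range M.length).any fun k => decide (sq M y k = i)) &&
    (List.range M.length).all fun i => (List.range M.length).all fun j =>
      decide (adj M (sq M y ((i + 1) % M.length)) (sq M y ((j + 1) % M.length)) =
        adj M (sq M y i) (sq M y j))

theorem alg_poly : N68a2faeb.IsPolyTime alg :=
  isPolyTime_of_rep (f' := alg) (by unfold alg; fun_prop) fun a => by
    rw [up_list, List.map_congr_left fun l _ => up_str l, List.map_id', down_bool]

end Pool.Agent.Lib.MP_3cc314_lc
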