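import Pool.Agent.Lib.MP_3cc314_lc.CgTr1

set_option autoImplicit false

namespace Pool.Agent.Lib.MP_3cc314_lc.Cg
open scoped Classical

theorem gr4_two : ∀ M : V4 × V4, ∃ p, gr4 M p ∧ ∃ q, gr4 M q ∧ p ≠ 0 ∧ q ≠ 0 ∧ p ≠ q := by
  decide +kernel

variable {G : Type} [Group G]

namespace Fam
variable {F : Fam G} {L : Subgroup G} {T : Set G} {t z : G} {σ : G → Prop}

theorem Sg.end1 (h : F.Sg L T z σ) (d : F.DT L T) (r : F.Rd) (ht : t ∈ T) (zL : z ∉ L) {p : G}
    (pL : p ∈ L) (p1 : σ p) (p2 : σ (p * t)) : ∃ a ∈ rot T, a ≠ 1 ∧ σ (p * a) := by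
  by_contra n
  push Not at n
  have z1 : p⁻¹ * z ≠ 1 := fun c => zL (inv_mul_eq_one.1 c ▸ pL)
  have n2 : ∀ s ∈ T, ∀ u ∈ T, s ≠ u → ¬σ (p * s * u) := fun s hs u hu c => by
    rw [mul_assoc]
    exact n _ (d.mul_rot hs hu) fun q => c (by rw [← d.can hu s, q, one_mul])
  by_cases c : ∀ s ∈ T, σ (p * s)
  · obtain ⟨m, mL, m1, m2⟩ := h.ex t ht p pL p1 p2
    obtain ⟨m, mL, m1, m2⟩ : ∃ m ∈ L, ¬σ m ∧ ∀ s ∈ T, ¬σ (m * s) := by
      by_contra k
      push Not at k
      obtain ⟨s, hs, a⟩ := k m mL m1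
      obtain ⟨u, hu, b⟩ := k _ (L.mul_mem mL (d.le ht)) m2
      have hr := d.tri s hs t ht u hu
      rcases h.pu _ hr p pL _ (L.mul_mem mL (d.le hs)) p1 (c _ hr) a
        (by rwa [← mul_assoc, ← mul_assoc, d.can hs]) with e | e
      · exact m1 (by rw [← d.can hs m, e]; exact c s hs)
      · exact m2 (by
          rw [← d.can hs m, e, mul_assoc, mul_assoc, ← mul_assoc (s * t * u)]
          exact c _ (d.tri _ hr s hs t ht))
    refine (r (p⁻¹ * z) (p⁻¹ * m) fun U u => ?_).elim z1 fun e => m1 (inv_mul_eq_one.1 e ▸ p1)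
    obtain ⟨s, hs, sU⟩ := d.cov U u
    exact h.eq s hs U u sU p pL p1 (c s hs) m mL m1 (m2 s hs)
  · push Not at c
    obtain ⟨v, hv, c⟩ := c
    have vt : ∀ s ∈ T, ¬σ (p * s) → s ≠ t := fun s _ a e => a (e ▸ p2)
    refine (r (p⁻¹ * z) v fun U u => ?_).elim z1 (d.ne hv)
    obtain ⟨s, hs, sU⟩ := d.cov U u
    by_cases e : v = s
    · exact .inr (e ▸ sU)
    · have : σ (p * s) := by
        by_contra a
        rcases h.mu t ht _ (L.mul_mem pL (d.le hv)) _ (L.mul_mem pL (d.le hs)) c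
          (n2 v hv t ht (vt v hv c)) a (n2 s hs t ht (vt s hs a)) with k | k
        · exact e (mul_left_cancel k).symm
        · rw [mul_assoc] at k
          exact d.rot_not (d.mul_rot hv ht) (mul_left_cancel k ▸ hs)
      simpa using h.eq s hs U u sU p pL p1 this _ (L.mul_mem pL (d.le hv)) c (n2 v hv s hs e)

/-- the exceptional case -/
theorem Sg.end2 [Finite G] (h : F.Sg L T z σ) (d : F.DT L T) (r : F.Rd) (ht : t ∈ T) (zL : z ∉ L)
    (s1 : σ 1) (st : σ t) : ∃ u ∈ rot T, ∃ b ∈ rot T, u ≠ 1 ∧ b ≠ 1 ∧ u ≠ b ∧ u * b ≠ 1 ∧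
      (∀ x ∈ rot T, x = 1 ∨ x = u ∨ x = b ∨ x = u * b) ∧
      ∀ s ∈ T, ∃ p ∈ rot T, ∃ c ∈ rot T, c ≠ 1 ∧ (u * u = 1 → c ≠ u) ∧ (b * b = 1 → c ≠ b) ∧
        ∀ U ∈ F.s, s ∈ U → p⁻¹ * z ∈ U ∨ c ∈ U := by
  obtain ⟨x, xr, x1, xs⟩ := h.end1 d r ht zL L.one_mem s1 (by rwa [one_mul])
  obtain ⟨b, br, b1, bs⟩ := h.end1 d r ht zL (d.le ht) st (by rwa [d.sq ht])
  rw [one_mul] at xs
  rw [d.conj ht br] at bs
  replace br := (rot T).inv_mem br
  replace b1 := inv_ne_one.2 b1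
  generalize b⁻¹ = b at br b1 bs
  have := Fintype.ofFinite G
  let A : Finset G := Finset.univ.filter (· ∈ rot T)
  let A1 := A.filter σ
  let B1 := A.filter fun x => σ (x * t)
  have mA : ∀ x, x ∈ A ↔ x ∈ rot T := fun x => by simp [A]
  have mA1 : ∀ x, x ∈ A1 ↔ x ∈ rot T ∧ σ x := fun x => by simp [A1, mA]
  have mB1 : ∀ x, x ∈ B1 ↔ x ∈ rot T ∧ σ (x * t) := fun x => by simp [B1, mA]
  have nr : ∀ x ∈ rot T, ∀ y ∈ rot T, ∀ s ∈ T, y ≠ x * s := fun x a y b s c e =>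
    d.rot_not b (e ▸ (rot_mul a).2 c)
  have inj : Set.InjOn (fun p : G × G => p.1⁻¹ * p.2) (A1 ×ˢ B1 : Finset (G × G)) := by
    rintro ⟨p, q⟩ a ⟨p', q'⟩ a' (e : p⁻¹ * q = p'⁻¹ * q')
    simp only [Finset.coe_product, Set.mem_prod, Finset.mem_coe, mA1, mB1] at a a'
    have hs := (rot_mul ((rot T).mul_mem ((rot T).inv_mem a.1.1) a.2.1)).2 ht
    obtain rfl := (h.pu _ hs p (d.rot_le a.1.1) p' (d.rot_le a'.1.1) a.1.2
      (by simpa [← mul_assoc] using a.2.2) a'.1.2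
      (by rw [e]; simpa [← mul_assoc] using a'.2.2)).resolve_right (nr _ a.1.1 _ a'.1.1 _ hs)
    rw [mul_left_cancel e]
  have sub : (A1 ×ˢ B1).image (fun p : G × G => p.1⁻¹ * p.2) ⊆ A := fun y hy => by
    obtain ⟨p, a, rfl⟩ := Finset.mem_image.1 hy
    rw [Finset.mem_product, mA1, mB1] at a
    exact (mA _).2 ((rot T).mul_mem ((rot T).inv_mem a.1.1) a.2.1)
  have c1 := Finset.card_le_card sub
  have c0 := Finset.card_image_of_injOn inj
  rw [Finset.card_product] at c0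
  have c2 : (A \ (A1 ∪ B1)).card ≤ 1 := Finset.card_le_one.2 fun p a q a' => by
    simp only [Finset.mem_sdiff, Finset.mem_union, mA, mA1, mB1, not_or, not_and] at a a'
    exact (h.mu t ht q (d.rot_le a'.1) p (d.rot_le a.1) (a'.2.1 a'.1) (a'.2.2 a'.1) (a.2.1 a.1)
      (a.2.2 a.1)).resolve_right (nr _ a'.1 _ a.1 _ ht)
  have c3 := Finset.le_card_sdiff (A1 ∪ B1) A
  have c4 := Finset.card_union_add_card_inter A1 B1
  have o1 : 1 ∈ A1 := (mA1 _).2 ⟨one_mem _, s1⟩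
  have o2 : 1 ∈ B1 := (mB1 _).2 ⟨one_mem _, by rwa [one_mul]⟩
  have c5 := Finset.card_pos.2 ⟨1, Finset.mem_inter.2 ⟨o1, o2⟩⟩
  have t1 : ({1, x} : Finset G) ⊆ A1 := by simp [Finset.insert_subset_iff, o1, mA1, xr, xs]
  have t2 : ({1, b} : Finset G) ⊆ B1 := by simp [Finset.insert_subset_iff, o2, mB1, br, bs]
  have c6 := Finset.card_le_card t1
  have c7 := Finset.card_le_card t2
  rw [Finset.card_pair x1.symm] at c6
  rw [Finset.card_pair b1.symm] at c7
  have c8 : A1.card * B1.card ≤ A1.card + B1.card := by omega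
  have c9 : A1.card = 2 := by nlinarith
  have c10 : B1.card = 2 := by nlinarith
  have e1 := Finset.eq_of_subset_of_card_le t1 (by rw [Finset.card_pair x1.symm, c9])
  have e2 := Finset.eq_of_subset_of_card_le t2 (by rw [Finset.card_pair b1.symm, c10])
  have e3 := Finset.eq_of_subset_of_card_le sub (by rw [c0, c9, c10]; omega)
  have k1 : ∀ y ∈ rot T, σ y ↔ y = 1 ∨ y = x := fun y a => by
    have := mA1 y
    rw [← e1] at this
    simpa [a] using this.symm
  have k2 : ∀ y ∈ rot T, σ (y * t) ↔ y = 1 ∨ y = b := fun y a => by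
    have := mB1 y
    rw [← e2] at this
    simpa [a] using this.symm
  have k3 : ∀ y ∈ rot T, ∃ p ∈ rot T, ∃ q ∈ rot T, σ p ∧ σ (q * t) ∧ p⁻¹ * q = y := fun y a => by
    have := (mA y).2 a
    rw [← e3] at this
    obtain ⟨p, a, e⟩ := Finset.mem_image.1 this
    rw [Finset.mem_product, mA1, mB1] at a
    exact ⟨p.1, a.1.1, p.2, a.2.1, a.1.2, a.2.2, e⟩
  have xA := (mA1 x).2 ⟨xr, xs⟩
  have bB := (mB1 b).2 ⟨br, bs⟩
  have mp : ∀ {p q : G}, p ∈ A1 → q ∈ B1 → (p, q) ∈ ((A1 ×ˢ B1 : Finset (G × G)) : Set (G × G)) :=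
    fun a b => Finset.mem_coe.2 (Finset.mem_product.2 ⟨a, b⟩)
  refine ⟨x⁻¹, (rot T).inv_mem xr, b, br, inv_ne_one.2 x1, b1,
    fun e => x1 (congrArg Prod.fst (inj (mp xA o2) (mp o1 bB) (by simpa using e))),
    fun e => x1 (congrArg Prod.fst (inj (mp xA bB) (mp o1 o2) (by simpa using e))),
    fun y a => ?_, fun s hs => ?_⟩
  · obtain ⟨p, a', q, b', c, e, rfl⟩ := k3 y a
    rcases (k1 p a').1 c with rfl | rfl <;> rcases (k2 q b').1 e with rfl | rfl <;> simp
  · have sr := d.mul_rot hs ht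
    obtain ⟨p, pr, q, qr, p1, q1, e⟩ := k3 _ sr
    have p2 : p * s = q * t := by rw [← d.can ht s, ← e]; group
    obtain ⟨m, mr, m1, m2⟩ : ∃ m ∈ rot T, ¬σ m ∧ ¬σ (m * s) := by
      by_contra n
      push Not at n
      have : (A \ A1 ∪ {p}).image (· * (s * t)) ⊆ B1 := fun y hy => by
        obtain ⟨m, a, rfl⟩ := Finset.mem_image.1 hy
        simp only [Finset.mem_union, Finset.mem_sdiff, mA, mA1, Finset.mem_singleton] at a
        rw [mB1, ← mul_assoc, d.can ht, mul_assoc]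
        rcases a with a | rfl
        · exact ⟨(rot T).mul_mem a.1 sr, n m a.1 fun c => a.2 ⟨a.1, c⟩⟩
        · exact ⟨(rot T).mul_mem pr sr, p2 ▸ q1⟩
      have := Finset.card_le_card this
      rw [Finset.card_image_of_injective _ (mul_left_injective _), Finset.card_union_of_disjoint
        (by simp [mA1, pr, p1]), Finset.card_singleton] at this
      have := Finset.le_card_sdiff A1 A
      rw [c9, c10] at c0
      omega
    refine ⟨p, pr, p⁻¹ * m, (rot T).mul_mem ((rot T).inv_mem pr) mr,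
      fun c => m1 (inv_mul_eq_one.1 c ▸ p1), fun u c => m1 ?_, fun u c => m2 ?_, fun U u sU =>
      h.eq s hs U u sU p (d.rot_le pr) p1 (p2 ▸ q1) m (d.rot_le mr) m1 m2⟩
    · rw [inv_mul_eq_iff_eq_mul] at c
      rw [k1 m mr, c]
      rcases (k1 p pr).1 p1 with rfl | rfl
      · exact .inr (by rw [one_mul, ← inv_eq_of_mul_eq_one_right u, inv_inv])
      · exact .inl (by simp)
    · rw [inv_mul_eq_iff_eq_mul] at c
      have : m * s = b * q * t := by rw [c, d.comm pr br, mul_assoc, p2, mul_assoc]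
      rw [this, k2 _ ((rot T).mul_mem br qr)]
      rcases (k2 q qr).1 q1 with rfl | rfl
      · exact .inr (mul_one _)
      · exact .inl u

/-- a member with a trace of order two is of dihedral type -/
theorem Big.dt [Finite G] (b : F.Big) (hA : ∀ H M, ¬F.Reg H M) (hL : L ∈ F.s) {K : Subgroup G}
    (mK : F.Mem K) (eK : ∀ x ∈ K, x ∈ L → x = 1 ∨ x = t) : ∃ T', F.DT K T' ∧ t ∈ T' := by
  rcases b.typ hA mK (b.ne_top mK) with ⟨T', d⟩ | ⟨e, E, h1, -, h2⟩
  · exact ⟨T', d, (d.mem_of hL fun x a c => eK x c a).1⟩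
  · obtain ⟨M, -, l⟩ := h2 L hL
    obtain ⟨p, a, q, c, p0, q0, pq⟩ := gr4_two M
    have k := fun p a p0 => (eK _ (h1 p) (E.pl_le.1 l p a)).resolve_left (mt E.eq_one.1 p0)
    exact (pq (E.inj ((k p a p0).trans (k q c q0).symm))).elim

/-- the fixer of the members with trace of order two -/
theorem Big.delta [Finite G] (B : F.Big) (hA : ∀ H M, ¬F.Reg H M) (hL : L ∈ F.s) (d : F.DT L T)
    (nB : ∀ L', F.Cl L' → L' ≠ ⊤ → T ⊆ L' → ¬F.B4T L') (ht : t ∈ T)
    (hz : ∀ P, F.Mem P → (∀ x ∈ P, x ∈ L → x = 1 ∨ x = t) → z ∈ P) : z = 1 ∨ z = t := by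
  obtain ⟨K, mK, -, eK⟩ := d.exm ht
  refine eK z (hz K mK eK) (by_contra fun zL => ?_)
  obtain ⟨σ, h, s1, st⟩ := d.dec B.sf hL ht zL hz
  obtain ⟨u, ur, b, br, u1, b1, ub, ub1, hr, h⟩ := h.end2 d B.rd ht zL s1 st
  choose! p pr c cr c1 cu cb h using h
  by_cases v : u * u = 1 ∧ b * b = 1
  · have cc : ∀ s ∈ T, c s = u * b := fun s hs =>
      (((hr _ (cr s hs)).resolve_left (c1 s hs)).resolve_left (cu s hs v.1)).resolve_left (cb s hs v.2)
    have sq : ∀ x ∈ rot T, x * x = 1 := fun x a => by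
      rcases hr x a with rfl | rfl | rfl | rfl
      exacts [mul_one _, v.1, v.2, by
        rw [mul_assoc, ← mul_assoc b, d.comm br ur, mul_assoc, v.2, mul_one, v.1]]
    let D := Subgroup.closure T
    have sq' : ∀ x ∈ D, x * x = 1 := fun x a => (d.mem_clos.1 a).elim (sq x) d.sq
    have iv : ∀ x ∈ D, x⁻¹ = x := fun x a => inv_eq_of_mul_eq_one_right (sq' x a)
    have cm : ∀ x ∈ D, ∀ y ∈ D, x * y = y * x := fun x a y a' => by
      rw [← iv _ (D.mul_mem a a'), mul_inv_rev, iv x a, iv y a']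
    have TD : ∀ {s}, s ∈ T → s ∈ D := fun a => Subgroup.subset_closure a
    have rD : ∀ {s}, s ∈ rot T → s ∈ D := fun a => d.mem_clos.2 (.inl a)
    have cD := D.mul_mem (rD ur) (rD br)
    have key : ∀ U ∈ F.s, u * b ∉ U → ∀ s ∈ T, s ∈ U → p s * z ∈ U := fun U m n s hs sU =>
      iv _ (rD (pr s hs)) ▸ (h s hs U m sU).resolve_right (cc s hs ▸ n)
    have cz : ∀ r ∈ D, z * r = r * z := fun r a => by
      refine ((B.rd (u * b) (z⁻¹ * r⁻¹ * z * r) fun U m => or_iff_not_imp_left.2 fun n => ?_).resolve_left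
        ub1 |> fun e => by rw [← mul_one (r * z), ← e]; group)
      obtain ⟨s, hs, sU⟩ := d.cov U m
      have fx : ∀ x ∈ D, r⁻¹ * x * r = x := fun x b => by rw [mul_assoc, cm x b r a]; group
      have k := mem_cj.1 (key _ (F.conj r m) (by rwa [mem_cj, fx _ cD]) s hs (by rwa [mem_cj, fx _ (TD hs)]))
      have := U.mul_mem (U.inv_mem (key U m n s hs sU)) k
      rwa [← mul_assoc r⁻¹, cm _ (D.inv_mem a) _ (rD (pr s hs)), show (p s * z)⁻¹ * (p s * r⁻¹ * z * r) =
        z⁻¹ * r⁻¹ * z * r by group] at this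
    have zz : z * z = 1 := (B.rd (u * b) (z * z) fun U m => or_iff_not_imp_left.2 fun n => by
      obtain ⟨s, hs, sU⟩ := d.cov U m
      have k := key U m n s hs sU
      have := U.mul_mem k k
      rwa [mul_assoc, ← mul_assoc z, cz _ (rD (pr s hs)), ← mul_assoc, ← mul_assoc,
        sq _ (pr s hs), one_mul] at this).resolve_left ub1
    let X : Subgroup G := finSub {x | x ∈ D ∨ z * x ∈ D} (.inl D.one_mem) (by
      have k : ∀ x, z * x ∈ D → x = z * (z * x) := fun x _ => by rw [← mul_assoc, zz, one_mul]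
      rintro x (a | a) y (a' | a')
      · exact .inl (D.mul_mem a a')
      · exact .inr (by rw [← mul_assoc, cz x a, mul_assoc]; exact D.mul_mem a a')
      · exact .inr (by rw [← mul_assoc]; exact D.mul_mem a a')
      · exact .inl (by rw [k x a, cz _ a, mul_assoc]; exact D.mul_mem a a'))
    have DX : D ≤ F.clo X := fun x a => le_clo X (.inl a)
    have zX : z ∈ F.clo X := le_clo X (.inr (zz ▸ D.one_mem))
    by_cases e : F.clo X = ⊤
    · have k : ∀ g, g ∉ L → z * g ∈ L := fun g n => by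
        obtain ⟨l, a | a, c⟩ := mem_clo.1 (e ▸ Subgroup.mem_top g) L hL
        · exact (n ((L.mul_mem_cancel_left (L.inv_mem (d.clos_le a))).1 c)).elim
        · have := L.mul_mem (d.clos_le a) c
          rwa [show z * l * (l⁻¹ * g) = z * g by group] at this
      obtain ⟨T', d', t'⟩ := B.dt hA hL mK eK
      obtain ⟨x, hx, xt, -⟩ := d'.three B.rd (d.ne ht) (d.ne ht)
      obtain ⟨y, hy, yt, yx⟩ := d'.three B.rd (d.ne ht) (d'.ne hx)
      have o : ∀ x ∈ T', x ≠ t → z * x ∈ L := fun x a n => k x fun c =>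
        (eK x (d'.le a) c).elim (d'.ne a) n
      have := L.mul_mem (L.inv_mem (o x hx xt)) (o y hy yt)
      rw [show (z * x)⁻¹ * (z * y) = x⁻¹ * y by group, d'.inv hx] at this
      rcases eK _ (K.mul_mem (d'.le hx) (d'.le hy)) this with k | k
      · exact yx (by rw [← d'.can' hx y, k, mul_one])
      · exact d'.rot_not (d'.mul_rot hx hy) (k ▸ t')
    · have TX : T ⊆ F.clo X := fun s a => DX (TD a)
      obtain ⟨W, m, tW, k⟩ := ((B.cl d (cl_clo X) e TX).resolve_right (nB _ (cl_clo X) e TX)).exm ht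
      have := key W m.1 (fun c => (k _ c (DX cD)).elim ub1 fun c =>
        d.rot_not ((rot T).mul_mem ur br) (c ▸ ht)) t ht tW
      refine zL ((L.mul_mem_cancel_left (d.rot_le (pr t ht))).1 ?_)
      rcases k _ this ((F.clo X).mul_mem (DX (rD (pr t ht))) zX) with k | k
      · rw [k]; exact L.one_mem
      · rw [k]; exact d.le ht
  · have gen : ∀ s ∈ T, ∀ U : Subgroup G, c s ∈ U → rot T ≤ U := fun s hs U cU => by
      have fin : u ∈ U → b ∈ U → rot T ≤ U := fun a a' x hx => by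
        rcases hr x hx with rfl | rfl | rfl | rfl
        exacts [U.one_mem, a, a', U.mul_mem a a']
      have hu : u * u = 1 ∨ u * u = b := by
        rcases hr _ ((rot T).mul_mem ur ur) with k | k | k | k
        exacts [.inl k, (u1 (by simpa using k)).elim, .inr k, (ub (mul_left_cancel k)).elim]
      have hb : b * b = 1 ∨ b * b = u := by
        rcases hr _ ((rot T).mul_mem br br) with k | k | k | k
        exacts [.inl k, .inr k, (b1 (by simpa using k)).elim, (ub (mul_right_cancel k).symm).elim]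
      have cl : u * (u * b) = b ∨ u * (u * b) = 1 := by
        rcases hr _ ((rot T).mul_mem ur ((rot T).mul_mem ur br)) with k | k | k | k
        exacts [.inr k, (ub1 (by simpa using k)).elim, .inl k, (u1 (by simpa using k)).elim]
      have sq : u * b * (u * b) = u * u * (b * b) := by
        rw [mul_assoc, ← mul_assoc b, d.comm br ur]; group
      rcases hu with hu | hu
      · have hb := hb.resolve_left fun k => v ⟨hu, k⟩
        rcases (hr _ (cr s hs)).resolve_left (c1 s hs) with k | k | k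
        · exact (cu s hs hu k).elim
        · exact fin (hb ▸ U.mul_mem (k ▸ cU) (k ▸ cU)) (k ▸ cU)
        · rw [k] at cU
          have : u ∈ U := by simpa [sq, hu, hb] using U.mul_mem cU cU
          exact fin this ((U.mul_mem_cancel_left this).1 cU)
      · have hb : b * b = 1 := by
          rw [← mul_assoc, hu] at cl
          exact cl.resolve_left fun k => b1 (by simpa using k)
        rcases (hr _ (cr s hs)).resolve_left (c1 s hs) with k | k | k
        · exact fin (k ▸ cU) (hu ▸ U.mul_mem (k ▸ cU) (k ▸ cU))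
        · exact (cb s hs hb k).elim
        · rw [k] at cU
          have : b ∈ U := by simpa [sq, hu, hb] using U.mul_mem cU cU
          exact fin ((U.mul_mem_cancel_right this).1 cU) this
    obtain ⟨g, hg⟩ := B.sf.split (rot T) z fun U m n => by
      obtain ⟨s, hs, sU⟩ := d.cov U m
      exact ⟨p s, pr s hs, (h s hs U m sU).resolve_right fun c => n (gen s hs U c)⟩
    obtain rfl := (B.rd g u fun U m => or_iff_not_imp_right.2 fun n =>
      (hg U m).2 fun l => n (l ur)).resolve_right u1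
    exact zL (by simpa using (hg L hL).1 d.rot_le)

/-- the traces on `K` of the members over `L ⊓ K` are closed under meets -/
theorem SF.meet [Finite G] (hS : F.SF) (hL : L ∈ F.s) {K P Q : Subgroup G} (hK : K ∈ F.s)
    (hP : P ∈ F.s) (hQ : Q ∈ F.s) (e : ∀ x ∈ L, x ∈ K → x ∈ P ∧ x ∈ Q)
    (e' : ∀ x ∈ L, x ∈ P ∨ x ∈ Q → x ∈ K) :
    ∃ Z, F.Mem Z ∧ (∀ x ∈ Z, x ∈ L → x ∈ K) ∧ ∀ x ∈ Z, x ∈ K → x ∈ P ∧ x ∈ Q := by
  let f : G → ℤ := fun x => iz 1 P x + iz 1 Q x + cz L K (fun m => m ∉ P ∧ m ∉ Q) x - iz 1 K x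
  have hf : F.Sp f := (((Sp.iz hP 1).add (Sp.iz hQ 1)).add (Sp.cz hL _)).sub (Sp.iz hK 1)
  have c0 : ∀ x, 0 ≤ cz L K (fun m => m ∉ P ∧ m ∉ Q) x := fun x => by
    unfold cz; split_ifs <;> simp
  obtain ⟨Z, a, b, -⟩ := hS.cos hf (fun x => by
    have := iz_nonneg 1 P x
    have := iz_nonneg 1 Q x
    have := c0 x
    simp only [f]
    by_cases c : x ∈ K
    · have := iz_le 1 K x
      by_cases p : x ∈ P
      · rw [iz_pos (H := P) (by simpa using p)]; omega
      · by_cases q : x ∈ Q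
        · rw [iz_pos (H := Q) (by simpa using q)]; omega
        · rw [cz, if_pos ⟨x, c, ⟨p, q⟩, by simp⟩]; omega
    · rw [iz_neg (H := K) (by simpa using c)]; omega) (x := 1) (by
    have := c0 1
    simp only [f, iz_one, one_mem, if_pos]; omega)
  simp only [one_mul] at b
  refine ⟨Z, a, fun x p q => by_contra fun n => ?_, fun x p q => by_contra fun n => ?_⟩
  · have := b x p
    simp only [f, iz_one, if_neg n, if_neg (fun c => n (e' x q (.inl c))),
      if_neg (fun c => n (e' x q (.inr c)))] at this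
    rw [cz, if_neg fun ⟨m, c, r, k⟩ => r.1 (e m (by simpa using L.mul_mem (L.inv_mem k) q) c).1] at this
    omega
  · have := b x p
    have k : x ∈ P ∨ x ∈ Q → cz L K (fun m => m ∉ P ∧ m ∉ Q) x = 0 := fun o =>
      if_neg fun ⟨m, c, r, k⟩ => by
        have := e _ k (K.mul_mem q (K.inv_mem c))
        exact o.elim (fun o => r.1 (P.inv_mem_iff.1 ((P.mul_mem_cancel_left o).1 this.1)))
          fun o => r.2 (Q.inv_mem_iff.1 ((Q.mul_mem_cancel_left o).1 this.2))
    have : cz L K (fun m => m ∉ P ∧ m ∉ Q) x ≤ 1 := by unfold cz; split_ifs <;> simp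
    simp only [f, iz_one, if_pos q] at *
    by_cases p : x ∈ P <;> by_cases p' : x ∈ Q
    · exact n ⟨p, p'⟩
    · rw [if_pos p, if_neg p', k (.inl p)] at *; omega
    · rw [if_neg p, if_pos p', k (.inr p')] at *; omega
    · rw [if_neg p, if_neg p'] at *; omega

/-- every edge lies in a triple -/
theorem Big.triple [Finite G] (B : F.Big) (hA : ∀ H M, ¬F.Reg H M) (hL : L ∈ F.s) (d : F.DT L T)
    (nB : ∀ L', F.Cl L' → L' ≠ ⊤ → T ⊆ L' → ¬F.B4T L') (ht : t ∈ T) {K : Subgroup G}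
    (hK : K ∈ F.s) (eK : ∀ x ∈ K, x ∈ L → x = 1 ∨ x = t) :
    ∃ N, F.Mem N ∧ (∀ x ∈ N, x ∈ L → x = 1 ∨ x = t) ∧ ∀ x ∈ N, x ∈ K → x = 1 ∨ x = t := by
  obtain ⟨N, ⟨m, eN⟩, mn⟩ := ex_least (fun N : Subgroup G => F.Mem N ∧ ∀ x ∈ N, x ∈ L → x = 1 ∨ x = t)
    (fun N => Nat.card (N ⊓ K : Subgroup G)) (d.ex t ht).2.2.2
  refine ⟨N, m, eN, fun x a b => B.delta hA hL d nB ht fun P mP eP => ?_⟩
  have i : ∀ {W : Subgroup G}, W ∈ F.s → (∀ x ∈ W, x ∈ L → x = 1 ∨ x = t) → ∀ {x}, x = 1 ∨ x = t →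
      x ∈ W := fun m e x c => c.elim (· ▸ one_mem _) (· ▸ (d.mem_of m e).2)
  obtain ⟨Z, mZ, z1, z2⟩ := B.sf.meet hL hK m.1 mP.1
    (fun x p q => ⟨i m.1 eN (eK x q p), i mP.1 eP (eK x q p)⟩)
    fun x p q => i hK eK (q.elim (eN x · p) (eP x · p))
  have := Subgroup.eq_of_le_of_card_ge (H := Z ⊓ K) (K := N ⊓ K) (fun y c => ⟨(z2 y c.1 c.2).1, c.2⟩)
    (mn Z ⟨mZ, fun y p q => eK y (z1 y p q) q⟩)
  exact (z2 x (this.ge ⟨a, b⟩).1 b).2

end Fam

end Pool.Agent.Lib.MP_3cc314_lc.Cg
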