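import Pool.Agent.Lib.MP_3cc314_lc.CgAS
import Pool.Agent.Lib.MP_3cc314_lc.CgTr

set_option autoImplicit false

namespace Pool.Agent.Lib.MP_3cc314_lc.Cg

/-- the tangent hyperplane at the cell `q` -/
def hp4 (q p : V4 × V4) : Prop := (p.1 = 0 ∨ p.1 = q.1) ↔ (p.2 = 0 ∨ p.2 = q.2)

/-- the two by two subgrid opposite to the cell `q` -/
def sg4 (q p : V4 × V4) : Prop := p.1 ≠ 0 ∧ p.1 ≠ q.1 ∧ p.2 ≠ 0 ∧ p.2 ≠ q.2

instance (q p : V4 × V4) : Decidable (hp4 q p) := inferInstanceAs (Decidable (_ ↔ _))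

instance (q p : V4 × V4) : Decidable (sg4 q p) := inferInstanceAs (Decidable (_ ∧ _))

theorem hp4_zero : ∀ q, hp4 q 0 := by decide +kernel

theorem hp4_add : ∀ q : V4 × V4, q.1 ≠ 0 → q.2 ≠ 0 → ∀ p, hp4 q p → ∀ r, hp4 q r → hp4 q (p + r) := by
  decide +kernel

theorem hp4_ex : ∀ M, gd4 M → ∀ p, ¬gr4 M p → ∃ q : V4 × V4, q.1 ≠ 0 ∧ q.2 ≠ 0 ∧
    ∀ r, hp4 q r → gr4 M r ∨ gr4 M (r + p) := by decide +kernel

theorem hp4_out : ∀ q : V4 × V4, q.1 ≠ 0 → q.2 ≠ 0 → ∀ r, ¬hp4 q r → ∀ s, hp4 q s ∨ hp4 q (s + r) := by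
  decide +kernel

theorem hp4_two : ∀ q : V4 × V4, q.1 ≠ 0 → q.2 ≠ 0 → ∀ q' : V4 × V4, q'.1 ≠ 0 → q'.2 ≠ 0 →
    ∃ p, hp4 q p ∧ hp4 q' p ∧ p ≠ 0 ∧ ∃ r, hp4 q r ∧ hp4 q' r ∧ r ≠ 0 ∧ p ≠ r := by decide +kernel

theorem sg4_hp : ∀ q p, sg4 q p → hp4 q p ∧ p ≠ 0 := by decide +kernel

theorem sg4_cov : ∀ q : V4 × V4, q.1 ≠ 0 → q.2 ≠ 0 → ∀ M, gd4 M → ∃ r, gr4 M r ∧ sg4 q r := by
  decide +kernel

theorem sg4_prv : ∀ q : V4 × V4, q.1 ≠ 0 → q.2 ≠ 0 → ∀ r, sg4 q r → ∃ M, gd4 M ∧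
    ∀ s, gr4 M s → hp4 q s → s = 0 ∨ s = r := by decide +kernel

theorem gd4_dis : ∀ M, gd4 M → ∃ N, gd4 N ∧ ∀ p, gr4 M p → gr4 N p → p = 0 := by decide +kernel

theorem gd4_two : ∀ M, ∃ p, gr4 M p ∧ p ≠ 0 ∧ ∃ r, gr4 M r ∧ r ≠ 0 ∧ p ≠ r := by decide +kernel

theorem gd4_le : ∀ p : V4 × V4, p ≠ 0 → ∀ a, gd4 a → gr4 a p → ∀ b, gd4 b → gr4 b p → ∀ c, gd4 c →
    gr4 c p → a = b ∨ a = c ∨ b = c := by decide +kernel

/-- two planes through the cell `q`, and three planes that meet the hyperplane in different cells -/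
theorem cen4 : ∃ q a b : V4 × V4, q.1 ≠ 0 ∧ q.2 ≠ 0 ∧ gd4 a ∧ gd4 b ∧ (∀ p, gr4 a p → hp4 q p) ∧
    (∀ p, gr4 b p → hp4 q p) ∧ (∀ p, gr4 a p → gr4 b p → p = 0 ∨ p = q) ∧ (∃ p, ¬hp4 q p) ∧
    ∃ c r : Fin 3 → V4 × V4, Function.Injective r ∧ ∀ i, r i ≠ 0 ∧ gd4 (c i) ∧
      ∀ p, gr4 (c i) p → hp4 q p → p = 0 ∨ p = r i :=
  ⟨((1, 0), (1, 0)), ((1, 0), (0, 1)), ((1, 0), (1, 1)), by decide, by decide, by decide, by decide,
    by decide, by decide, by decide, by decide, ![((0, 1), (1, 0)), ((0, 1), (1, 1)), ((1, 1), (0, 1))],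
    ![((1, 1), (1, 1)), ((0, 1), (1, 1)), ((0, 1), (0, 1))], by decide, by decide⟩

open scoped Classical

variable {G : Type} [Group G]

namespace Fam
variable {F : Fam G} {H K N L L' P U : Subgroup G} {T T' : Set G} {s t u : G}

theorem Cl.inf (h : F.Cl L) (h' : F.Cl L') : F.Cl (L ⊓ L') := fun g hg =>
  ⟨h g fun H m => (hg H m).imp fun _ a => ⟨a.1.1, a.2⟩,
    h' g fun H m => (hg H m).imp fun _ a => ⟨a.1.2, a.2⟩⟩

theorem Cl.cj (h : F.Cl L) (g : G) : F.Cl (cj g L) := fun x hx => mem_cj.2 (h _ fun H m => by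
  obtain ⟨l, a, b⟩ := hx _ (F.conj g m)
  exact ⟨_, mem_cj.1 a, by simpa [mul_assoc] using mem_cj.1 b⟩)

theorem DT.ix2 (d : F.DT L T) : Ix2 (rot T) (Subgroup.closure T) := by
  obtain ⟨t, a⟩ := d.some
  refine ⟨fun x hx => d.mem_clos.2 (.inl hx), fun c => d.rot_not (c (Subgroup.subset_closure a)) a,
    fun x hx x' y hy y' => ?_⟩
  have b := (d.mem_clos.1 hx).resolve_left x'
  rw [d.inv b]
  exact d.mul_rot b ((d.mem_clos.1 hy).resolve_left y')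

theorem DT.more [Finite G] (d : F.DT L T) (r : F.Rd) (t1 : t ≠ 1) :
    ∃ u ∈ T, ∃ v ∈ T, u ≠ t ∧ v ≠ t ∧ v ≠ u := by
  obtain ⟨u, a, b, -⟩ := d.three r t1 t1
  obtain ⟨v, c, e, f⟩ := d.three r t1 (d.ne a)
  exact ⟨u, a, v, c, b, e, f⟩

theorem DT.card_rot [Finite G] (d : F.DT L T) (r : F.Rd) : 3 ≤ Nat.card (rot T) := by
  obtain ⟨t, a⟩ := d.some
  obtain ⟨u, b, v, c, n1, n2, n3⟩ := d.more r (d.ne a)
  have := Fintype.ofFinite (rot T)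
  rw [Nat.card_eq_fintype_card]
  exact Fintype.two_lt_card_iff.2 ⟨⟨_, d.mul_rot a a⟩, ⟨_, d.mul_rot a b⟩, ⟨_, d.mul_rot a c⟩,
    by simpa using n1.symm, by simpa using n2.symm, by simpa using n3.symm⟩

theorem DT.six [Finite G] (d : F.DT L T) (r : F.Rd) : 6 ≤ Nat.card (Subgroup.closure T) := by
  have := d.ix2.card
  have := d.card_rot r
  omega

/-- the reflections do not collapse to a group of order two modulo an involution -/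
theorem DT.no4 [Finite G] (d : F.DT L T) (r : F.Rd) {Q : Type} [Group Q] (φ : G →* Q)
    (hk : ∀ x, φ x = 1 → x = 1 ∨ x = t) {z : Q} : ¬∀ x ∈ T, φ x = 1 ∨ φ x = z := fun h => by
  have k : ∀ x ∈ T, ∀ y ∈ T, x ≠ t → y ≠ t → x ≠ y → x * y = t := fun x a y b c e n => by
    have p := (h x a).resolve_left fun q => (hk x q).elim (d.ne a) c
    have p' := (h y b).resolve_left fun q => (hk y q).elim (d.ne b) e
    rw [← d.inv a]
    exact (hk _ (by rw [map_mul, map_inv, p, p', inv_mul_cancel])).resolve_left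
      fun q => n (inv_mul_eq_one.1 q)
  by_cases c : t ∈ T
  · obtain ⟨u, a, v, b, n1, n2, n3⟩ := d.more r (d.ne c)
    exact d.rot_not (d.mul_rot a b) (k u a v b n1 n2 n3.symm ▸ c)
  · obtain ⟨s, e⟩ := d.some
    obtain ⟨u, a, v, b, n1, n2, n3⟩ := d.more r (d.ne e)
    have n : ∀ x ∈ T, x ≠ t := fun x a q => c (q ▸ a)
    exact n3 (mul_left_cancel ((k s e v b (n s e) (n v b) n2.symm).trans
      (k s e u a (n s e) (n u a) n1.symm).symm))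

theorem B4T.two (h : F.B4T L) (m : U ∈ F.s) :
    ∃ x ∈ U, ∃ y ∈ U, x ∈ L ∧ y ∈ L ∧ x ≠ 1 ∧ y ≠ 1 ∧ x ≠ y := by
  obtain ⟨e, E, l, -, h6⟩ := h
  obtain ⟨M, -, k⟩ := h6 U m
  obtain ⟨p, a, b, r, c, d, n⟩ := gd4_two M
  exact ⟨_, E.pl_le.1 k p a, _, E.pl_le.1 k r c, l p, l r, mt E.eq_one.1 b, mt E.eq_one.1 d, E.inj.ne n⟩

theorem B4T.not_le (h : F.B4T L) (m : U ∈ F.s) : ¬∀ x ∈ U, x ∈ L → x = 1 ∨ x = t := fun k => by
  obtain ⟨x, a, y, b, c, d, e, f, n⟩ := h.two m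
  exact n (((k x a c).resolve_left e).trans ((k y b d).resolve_left f).symm)

theorem DT.not_b4 (d : F.DT L T) : ¬F.B4T L := fun b => by
  obtain ⟨t, a⟩ := d.some
  obtain ⟨W, m, -, k⟩ := d.exm a
  exact b.not_le m.1 k

theorem B4T.cj (h : F.B4T L) (g : G) : F.B4T (cj g L) := by
  obtain ⟨e, E, l, h5, h6⟩ := h
  have E' : E4 fun p => g * e p * g⁻¹ := ⟨fun p q => by rw [E.mul]; group,
    fun p q k => E.inj (by simpa using k)⟩
  refine ⟨_, E', fun p => (conj_mem_cj g).2 (l p), fun M a => ?_, fun U m => ?_⟩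
  · obtain ⟨W, w, k⟩ := h5 M a
    refine ⟨_, w.cj g, fun x hx => ?_⟩
    obtain ⟨p, b, c⟩ := k ⟨mem_cj.1 hx.1, mem_cj.1 hx.2⟩
    exact ⟨p, b, by simp [c, mul_assoc]⟩
  · obtain ⟨M, a, k⟩ := h6 _ (F.conj g⁻¹ m)
    exact ⟨M, a, E'.pl_le.2 fun p b => by simpa using mem_cj.1 (E.pl_le.1 k p b)⟩

/-- the structure of (B'): a tangent hyperplane, the reflections are the cells of a subgrid -/
theorem DT.bp (d : F.DT H T) (m : H ∈ F.s) {e : V4 × V4 → G} (E : E4 e) (l : T ⊆ L)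
    (h5 : ∀ M, gd4 M → ∃ W, F.Mem W ∧ W ⊓ L ≤ E.pl M) (h6 : ∀ U ∈ F.s, ∃ M, gd4 M ∧ E.pl M ≤ U) :
    ∃ q : V4 × V4, q.1 ≠ 0 ∧ q.2 ≠ 0 ∧ (∀ p, e p ∈ H ↔ hp4 q p) ∧
      ∀ t, t ∈ T ↔ ∃ p, sg4 q p ∧ e p = t := by
  have cov : ∀ M, gd4 M → ∃ p, gr4 M p ∧ e p ∈ T := fun M g => by
    obtain ⟨W, w, k⟩ := h5 M g
    obtain ⟨t, a, b⟩ := d.cov W w.1
    obtain ⟨p, c, rfl⟩ := k ⟨b, l a⟩
    exact ⟨p, c, a⟩
  obtain ⟨M, g, k⟩ := h6 H m
  obtain ⟨N, g', ds⟩ := gd4_dis M g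
  obtain ⟨p, c, a⟩ := cov N g'
  obtain ⟨q, q1, q2, hq⟩ := hp4_ex M g p fun b => d.ne a (E.eq_one.2 (ds p b c))
  have ad : ∀ r s, e s ∈ H → e (r + s) ∈ H → e r ∈ H := fun r s b c =>
    (H.mul_mem_cancel_right b).1 (E.mul r s ▸ c)
  have i : ∀ r, hp4 q r → e r ∈ H := fun r b =>
    (hq r b).elim (E.pl_le.1 k r) fun c => ad r p (d.le a) (E.pl_le.1 k _ c)
  have nb : ∀ t ∈ T, ∃ M, gd4 M ∧ ∀ r, gr4 M r → e r ∈ H → r = 0 ∨ e r = t := fun t b => by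
    obtain ⟨W, w, -, k⟩ := d.exm b
    obtain ⟨M, g, k'⟩ := h6 W w.1
    exact ⟨M, g, fun r c d => (k _ (E.pl_le.1 k' r c) d).imp_left E.eq_one.1⟩
  have i' : ∀ r, e r ∈ H → hp4 q r := fun r b => by_contra fun n => by
    obtain ⟨M, -, k⟩ := nb _ a
    have al : ∀ s, e s ∈ H := fun s => (hp4_out q q1 q2 r n s).elim (i s) fun c => ad s r b (i _ c)
    obtain ⟨x, c, d, y, c', d', n⟩ := gd4_two M
    exact n (E.inj (((k x c (al x)).resolve_left d).trans ((k y c' (al y)).resolve_left d').symm))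
  refine ⟨q, q1, q2, fun r => ⟨i' r, i r⟩, fun t => ⟨fun b => ?_, ?_⟩⟩
  · obtain ⟨M, g, k⟩ := nb t b
    obtain ⟨r, c, d⟩ := sg4_cov q q1 q2 M g
    exact ⟨r, d, (k r c (i r (sg4_hp q r d).1)).resolve_left (sg4_hp q r d).2⟩
  · rintro ⟨r, b, rfl⟩
    obtain ⟨M, g, k⟩ := sg4_prv q q1 q2 r b
    obtain ⟨s, c, f⟩ := cov M g
    exact (k s c (i' s (d.le f))).resolve_left (mt E.eq_one.2 (d.ne f)) ▸ f

variable [Finite G]

theorem meet (hA : ∀ H M, ¬F.Reg H M) (m : U ∈ F.s) (m' : P ∈ F.s) : ∃ x ∈ U, x ∈ P ∧ x ≠ 1 := by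
  obtain ⟨W, w, l⟩ := exists_mem m
  obtain ⟨W', w', l'⟩ := exists_mem m'
  obtain ⟨x, hx⟩ := Subgroup.ne_bot_iff_exists_ne_one.1 fun e => hA W W' ⟨w, w', e⟩
  exact ⟨x, l x.2.1, l' x.2.2, fun q => hx (Subtype.ext q)⟩

/-- every proper element of the family is of dihedral or of sporadic type -/
theorem Big.typ' (b : F.Big) (hA : ∀ H M, ¬F.Reg H M) (m : U ∈ F.s) (ne : U ≠ ⊤) :
    (∃ T, F.DT U T) ∨ F.B4T U :=
  ((b.sub (cl_of_mem m) ne).resolve_left fun ⟨_, w, e⟩ => by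
    obtain ⟨x, c, d, n⟩ := meet hA w.1 m
    exact n (bot_eq e c d)).imp_left dihT_iff.1

theorem Big.edge' (b : F.Big) (hA : ∀ H M, ¬F.Reg H M) (mH : H ∈ F.s) (ne : H ≠ ⊤) (mK : K ∈ F.s)
    (k : ∀ x ∈ K, x ∈ H → x = 1 ∨ x = t) : ∃ T, F.DT H T ∧ t ∈ T ∧ t ∈ K := by
  obtain ⟨T, d⟩ := (b.typ' hA mH ne).resolve_right fun c => c.not_le mK k
  exact ⟨T, d, d.mem_of mK k⟩

theorem Big.edge (b : F.Big) (hA : ∀ H M, ¬F.Reg H M) (mH : F.Mem H) (mK : F.Mem K)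
    (k : ∀ x ∈ K, x ∈ H → x = 1 ∨ x = t) :
    t ≠ 1 ∧ t * t = 1 ∧ t ∈ H ∧ t ∈ K ∧ ∃ T, F.DT H T ∧ t ∈ T := by
  obtain ⟨T, d, a, c⟩ := b.edge' hA mH.1 (b.ne_top mH) mK.1 k
  exact ⟨d.ne a, d.sq a, d.le a, c, T, d, a⟩

theorem DT.edge_ne (d : F.DT H T) (d' : F.DT K T') (r : F.Rd)
    (k : ∀ x ∈ K, x ∈ H → x = 1 ∨ x = t) : T ≠ T' := fun e => by
  obtain ⟨s, c⟩ := d.some
  obtain ⟨u, a, n, -⟩ := d.three r (d.ne c) (d.ne c)
  exact n (((k u (d'.le (e ▸ a)) (d.le a)).resolve_left (d.ne a)).trans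
    ((k s (d'.le (e ▸ c)) (d.le c)).resolve_left (d.ne c)).symm)

/-- an edge generates the group -/
theorem Big.edge_sup (b : F.Big) (hA : ∀ H M, ¬F.Reg H M) (mH : F.Mem H) (mK : F.Mem K)
    (k : ∀ x ∈ K, x ∈ H → x = 1 ∨ x = t) : H ⊔ K = ⊤ := by
  by_contra ne
  obtain ⟨-, -, -, -, T, d, -⟩ := b.edge hA mH mK k
  obtain ⟨-, -, -, -, T', d', -⟩ := b.edge hA mK mH fun x a c => k x c a
  have c := cl_of_mem (F.up mH.1 (le_sup_left (b := K)))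
  have l : T ⊆ (H ⊔ K : Subgroup G) := fun _ a => Subgroup.mem_sup_left (d.le a)
  have l' : T' ⊆ (H ⊔ K : Subgroup G) := fun _ a => Subgroup.mem_sup_right (d'.le a)
  rcases b.cl d c ne l with g | ⟨e, E, -, h5, h6⟩
  · exact d.edge_ne d' b.rd k (d'.uniq g l')
  · obtain ⟨q, q1, q2, j, -⟩ := d.bp mH.1 E l h5 h6
    obtain ⟨q', q1', q2', j', -⟩ := d'.bp mK.1 E l' h5 h6
    obtain ⟨p, a, c, f, r, a', c', f', n⟩ := hp4_two q q1 q2 q' q1' q2'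
    exact n (E.inj (((k _ ((j' p).2 c) ((j p).2 a)).resolve_left (mt E.eq_one.1 f)).trans
      ((k _ ((j' r).2 c') ((j r).2 a')).resolve_left (mt E.eq_one.1 f')).symm))

theorem DT.sub_clo (d : F.DT H T) (l : rot T ≤ L) : T ⊆ F.clo L := fun t a U m => by
  obtain ⟨s, b, c⟩ := d.cov U m
  exact ⟨t * s, l (d.mul_rot a b), by simpa [d.inv b] using c⟩

/-- the rotations of two different faces are transitive on every orbit -/
theorem DT.trans (d : F.DT H T) (d' : F.DT K T') (b : F.Big)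
    (nB : ∀ L, F.Cl L → L ≠ ⊤ → T ⊆ L → ¬F.B4T L) (n : T ≠ T') (l : rot T ≤ L) (l' : rot T' ≤ L)
    (m : P ∈ F.s) (g : G) : ∃ l ∈ L, l⁻¹ * g ∈ P := by
  have : F.clo L = ⊤ := by_contra fun ne => n (d'.uniq ((b.cl d (cl_clo L) ne (d.sub_clo l)).resolve_right
    (nB _ (cl_clo L) ne (d.sub_clo l))) (d'.sub_clo l'))
  exact (this ▸ Subgroup.mem_top g : g ∈ F.clo L) P m

/-- lemma INT -/
theorem DT.int (d : F.DT H T) (d' : F.DT K T') (b : F.Big)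
    (nB : ∀ L, F.Cl L → L ≠ ⊤ → T ⊆ L → ¬F.B4T L) (n : T ≠ T') {z : G}
    (c : ∀ x ∈ rot T, x * z = z * x) (c' : ∀ x ∈ rot T', x * z = z * x) (m : P ∈ F.s) (hz : z ∈ P)
    (g : G) : g⁻¹ * z * g ∈ P := by
  obtain ⟨l, a, k⟩ := d.trans d' b nB n (L := Subgroup.centralizer {z})
    (fun x hx => Subgroup.mem_centralizer_singleton_iff.2 (c x hx))
    (fun x hx => Subgroup.mem_centralizer_singleton_iff.2 (c' x hx)) m g
  have : g⁻¹ * z * g = (l⁻¹ * g)⁻¹ * z * (l⁻¹ * g) := by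
    calc _ = (l⁻¹ * g)⁻¹ * (l⁻¹ * (z * l)) * (l⁻¹ * g) := by group
      _ = _ := by rw [← Subgroup.mem_centralizer_singleton_iff.1 a, inv_mul_cancel_left]
  rw [this]
  exact P.mul_mem (P.mul_mem (P.inv_mem k) hz) k

/-- the reflection of a triple is not central -/
theorem Big.central (b : F.Big) (hA : ∀ H M, ¬F.Reg H M) (mH : F.Mem H) (mK : F.Mem K)
    (mN : F.Mem N) (kh : ∀ x ∈ K, x ∈ H → x = 1 ∨ x = t) (nh : ∀ x ∈ N, x ∈ H → x = 1 ∨ x = t)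
    (nk : ∀ x ∈ N, x ∈ K → x = 1 ∨ x = t) (cen : ∀ g, g * t = t * g) : False := by
  obtain ⟨t1, tt, tH, tK, T, d, tT⟩ := b.edge hA mH mK kh
  have tN := (b.edge hA mH mN nh).2.2.2.1
  have nZ : (Subgroup.zpowers t).Normal := ⟨fun x hx g => by
    rcases (zp_iff tt).1 hx with rfl | rfl
    · simp
    · rw [cen, mul_inv_cancel_right]; exact hx⟩
  let φ := QuotientGroup.mk' (Subgroup.zpowers t)
  have sφ : Function.Surjective φ := QuotientGroup.mk'_surjective _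
  have hk : ∀ x, φ x = 1 → x = 1 ∨ x = t := fun x e => (zp_iff tt).1 ((QuotientGroup.eq_one_iff x).1 e)
  have φt : φ t = 1 := (QuotientGroup.eq_one_iff t).2 (Subgroup.mem_zpowers t)
  have cm : ∀ U : Subgroup G, t ∈ U → ∀ x, φ x ∈ U.map φ → x ∈ U := fun U a x ⟨y, c, e⟩ => by
    rcases hk (y⁻¹ * x) (by rw [map_mul, map_inv, e, inv_mul_cancel]) with q | q
    · exact inv_mul_eq_one.1 q ▸ c
    · exact (U.mul_mem_cancel_left (U.inv_mem c)).1 (q ▸ a)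
  have up : ∀ U ∈ F.s, U.map φ ∈ (F.push φ sφ).s := fun U m => F.up m (Subgroup.le_comap_map _ _)
  have cl : F.Cl (Subgroup.zpowers t) := by
    rw [show Subgroup.zpowers t = K ⊓ H from le_antisymm (Subgroup.zpowers_le.2 ⟨tK, tH⟩)
      fun x hx => (zp_iff tt).2 (kh x hx.1 hx.2)]
    exact (cl_of_mem mK.1).inf (cl_of_mem mH.1)
  have lt : Nat.card (G ⧸ Subgroup.zpowers t) < Nat.card G := by
    rw [Subgroup.card_eq_card_quotient_mul_card_subgroup (Subgroup.zpowers t)]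
    exact lt_mul_of_one_lt_right Nat.card_pos ((Subgroup.one_lt_card_iff_ne_bot _).2 (by simpa using t1))
  have two : ∀ A B : Subgroup G, t ∈ A → t ∈ B → (∀ x ∈ A, x ∈ B → x = 1 ∨ x = t) →
      ∀ x ∈ A.map φ, x ∈ B.map φ → x = 1 := fun A B a c k x e f => by
    obtain ⟨x, rfl⟩ := sφ x
    rcases k x (cm A a x e) (cm B c x f) with rfl | rfl
    exacts [map_one φ, φt]
  rcases round_cases b.ih lt cl.fa (b.sf.push φ sφ) (fun x y e => by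
    have e1 := e _ (up H mH.1)
    have e2 := e _ (up K mK.1)
    have e3 := e _ (up N mN.1)
    have k1 := two K H tK tH kh
    have k2 := two N H tN tH nh
    have k3 := two N K tN tK nk
    rcases e1 with e1 | e1 <;> rcases e2 with e2 | e2 <;> rcases e3 with e3 | e3
    exacts [.inl (k1 _ e2 e1), .inl (k1 _ e2 e1), .inl (k2 _ e3 e1), .inr (k3 _ e3 e2),
      .inl (k3 _ e3 e2), .inr (k2 _ e3 e1), .inr (k1 _ e2 e1), .inr (k1 _ e2 e1)]) with a | ⟨-, S, -, h1, h2, -⟩ | a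
  · exact b.nr t ⟨t1, tt, F.up a fun x hx => (zp_iff tt).2 (hk x hx)⟩
  · obtain ⟨z, a, c⟩ := h2 _ (up H mH.1)
    obtain ⟨-, zz, m⟩ := h1 z a
    have e := mH.eq m fun x hx => cm H tH x (Subgroup.zpowers_le.2 c hx)
    exact d.no4 b.rd φ hk fun x hx => (zp_iff zz).1 (e.ge (d.le hx))
  obtain ⟨e, E, h5, -⟩ := a.e4
  obtain ⟨q, x, y, q1, q2, gx, gy, hx, hy, xy, ⟨o, ho⟩, c, r, ri, hc⟩ := cen4
  let X := (E.sb (hp4 q) (hp4_zero q) (hp4_add q q1 q2)).comap φ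
  have ne : X ≠ ⊤ := fun k => by
    obtain ⟨g, e'⟩ := sφ (e o)
    have : g ∈ X := k ▸ Subgroup.mem_top g
    rw [Subgroup.mem_comap, e'] at this
    exact ho (E.mem_sb.1 this)
  have le : ∀ M, (∀ p, gr4 M p → hp4 q p) → (E.pl M).comap φ ≤ X := fun M h =>
    Subgroup.comap_mono (E.pl_le.2 fun p a => E.mem_sb.2 (h p a))
  have dt : ∀ M, gd4 M → (∀ p, gr4 M p → hp4 q p) → ∃ T, F.DT ((E.pl M).comap φ) T := fun M g h => by
    obtain ⟨M', g', ds⟩ := gd4_dis M g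
    refine (b.edge' hA (h5 M g) (fun k => ne (top_unique (k ▸ le M h))) (h5 M' g') (t := t) ?_).imp
      fun _ a => a.1
    rintro z ⟨p, a, k⟩ ⟨p', a', k'⟩
    obtain rfl := E.inj (k.trans k'.symm)
    exact hk z (k ▸ E.eq_one.2 (ds p a' a))
  obtain ⟨T1, d1⟩ := dt x gx hx
  obtain ⟨T2, d2⟩ := dt y gy hy
  have mX := F.up (h5 x gx) (le x hx)
  rcases b.cl d1 (cl_of_mem mX) ne fun z a => le x hx (d1.le a) with k | ⟨f, E', l, -, h6⟩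
  · obtain rfl := d2.uniq k fun z a => le y hy (d2.le a)
    refine d1.no4 b.rd φ hk (z := e q) fun z a => ?_
    obtain ⟨p, a1, k1⟩ := d1.le a
    obtain ⟨p', a2, k2⟩ := d2.le a
    obtain rfl := E.inj (k1.trans k2.symm)
    exact (xy p a1 a2).imp (fun k => k1 ▸ E.eq_one.2 k) fun k => by rw [← k1, k]
  choose M gM hM using fun i => h6 _ (h5 _ (hc i).2.1)
  have v : ∀ i p, gr4 (M i) p → φ (f p) = 1 ∨ φ (f p) = e (r i) := fun i p a => by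
    obtain ⟨s, a1, k1⟩ := E'.pl_le.1 (hM i) p a
    have := l p
    rw [Subgroup.mem_comap, ← k1, E.mem_sb] at this
    exact ((hc i).2.2 s a1 this).imp (fun k => k1 ▸ E.eq_one.2 k) fun k => by rw [← k1, k]
  have w : ∀ i, (∃ p, gr4 (M i) p ∧ f p = t) ∧ ∃ p, gr4 (M i) p ∧ φ (f p) = e (r i) := fun i => by
    obtain ⟨p, a, n, p', a', n', k⟩ := gd4_two (M i)
    have u : ∀ p, p ≠ 0 → φ (f p) = 1 → f p = t := fun p n a =>
      (hk _ a).resolve_left (mt E'.eq_one.1 n)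
    rcases v i p a with j | j <;> rcases v i p' a' with j' | j'
    · exact (k (E'.inj ((u p n j).trans (u p' n' j').symm))).elim
    · exact ⟨⟨p, a, u p n j⟩, p', a', j'⟩
    · exact ⟨⟨p', a', u p' n' j'⟩, p, a, j⟩
    · refine ⟨⟨p + p', gr4_add _ _ a _ a', u _ (fun z => k ?_) ?_⟩, p, a, j⟩
      · rw [← add_zero p, ← v4_add p', ← add_assoc, z, zero_add]
      · rw [E'.mul, map_mul, j, j', E.sq]
  have inj : Function.Injective M := fun i j k => by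
    obtain ⟨p, a, z⟩ := (w i).2
    exact ri (E.inj (z.symm.trans ((v j p (k ▸ a)).resolve_left fun y =>
      (hc i).1 (E.eq_one.1 (z.symm.trans y)))))
  obtain ⟨p, a, z⟩ := (w 0).1
  have al : ∀ i, gr4 (M i) p := fun i => by
    obtain ⟨p', a', z'⟩ := (w i).1
    exact E'.inj (z'.trans z.symm) ▸ a'
  rcases gd4_le p (fun k => t1 (z ▸ E'.eq_one.2 k)) _ (gM 0) (al 0) _ (gM 1) (al 1) _ (gM 2) (al 2)
    with k | k | k <;> exact absurd (inj k) (by decide)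

/-- the reflection of a triple does not lie in the core of a member -/
theorem Big.not_core (b : F.Big) (hA : ∀ H M, ¬F.Reg H M) (mH : F.Mem H) (mK : F.Mem K)
    (mN : F.Mem N) (kh : ∀ x ∈ K, x ∈ H → x = 1 ∨ x = t) (nh : ∀ x ∈ N, x ∈ H → x = 1 ∨ x = t)
    (nk : ∀ x ∈ N, x ∈ K → x = 1 ∨ x = t) (co : ∀ g, g * t * g⁻¹ ∈ H) : False := by
  have c : ∀ P, F.Mem P → (∀ x ∈ P, x ∈ H → x = 1 ∨ x = t) → P ≤ Subgroup.centralizer {t} :=
    fun P m k g a => by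
      obtain ⟨t1, -, -, tP, -⟩ := b.edge hA mH m k
      exact Subgroup.mem_centralizer_singleton_iff.2 (mul_inv_eq_iff_eq_mul.1
        ((k _ (P.mul_mem (P.mul_mem a tP) (P.inv_mem a)) (co g)).resolve_left fun e =>
          t1 (by simpa using e)))
  refine b.central hA mH mK mN kh nh nk fun g => Subgroup.mem_centralizer_singleton_iff.1 ?_
  exact sup_le (c K mK kh) (c N mN nh) (b.edge_sup hA mK mN nk ▸ Subgroup.mem_top g)

/-- every reflection of a member lies in a triple -/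
theorem Big.tri (b : F.Big) (hA : ∀ H M, ¬F.Reg H M) (mH : F.Mem H) (d : F.DT H T)
    (nB : ∀ L, F.Cl L → L ≠ ⊤ → T ⊆ L → ¬F.B4T L) (a : t ∈ T) :
    ∃ K N, F.Mem K ∧ F.Mem N ∧ Tr K H t ∧ Tr N H t ∧ Tr N K t := by
  obtain ⟨K, mK, -, k⟩ := d.exm a
  obtain ⟨N, mN, n, n'⟩ := b.triple hA mH.1 d nB a mK.1 k
  exact ⟨K, N, mK, mN, k, n, n'⟩

/-- no reflection lies in the core of its member -/
theorem Big.core (b : F.Big) (hA : ∀ H M, ¬F.Reg H M) (mH : F.Mem H) (d : F.DT H T)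
    (nB : ∀ L, F.Cl L → L ≠ ⊤ → T ⊆ L → ¬F.B4T L) (a : t ∈ T) : ∃ g, g * t * g⁻¹ ∉ H := by
  obtain ⟨K, N, mK, mN, k, n, n'⟩ := b.tri hA mH d nB a
  exact not_forall.1 (b.not_core hA mH mK mN k n n')

/-- no reflection is central -/
theorem Big.nc (b : F.Big) (hA : ∀ H M, ¬F.Reg H M) (mH : F.Mem H) (d : F.DT H T)
    (nB : ∀ L, F.Cl L → L ≠ ⊤ → T ⊆ L → ¬F.B4T L) (a : t ∈ T) : ∃ g, g * t ≠ t * g :=
  (b.core hA mH d nB a).imp fun g n e => n (by rw [e, mul_inv_cancel_right]; exact d.le a)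

/-- the set of reflections is not normal -/
theorem Big.norm_ne (b : F.Big) (hA : ∀ H M, ¬F.Reg H M) (mH : F.Mem H) (d : F.DT H T)
    (nB : ∀ L, F.Cl L → L ≠ ⊤ → T ⊆ L → ¬F.B4T L) : Subgroup.normalizer T ≠ ⊤ := fun e => by
  obtain ⟨t, a⟩ := d.some
  obtain ⟨g, n⟩ := b.core hA mH d nB a
  exact n (d.le ((Subgroup.mem_set_normalizer_iff.1 (e ▸ Subgroup.mem_top g) t).1 a))

theorem Big.norm_ne' (b : F.Big) (hA : ∀ H M, ¬F.Reg H M) (mH : F.Mem H) (d : F.DT H T)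
    (nB : ∀ L, F.Cl L → L ≠ ⊤ → T ⊆ L → ¬F.B4T L) :
    Subgroup.normalizer (Subgroup.closure T : Set G) ≠ ⊤ := fun e => by
  obtain ⟨t, a⟩ := d.some
  obtain ⟨g, n⟩ := b.core hA mH d nB a
  exact n (d.clos_le ((Subgroup.mem_normalizer_iff.1 (e ▸ Subgroup.mem_top g) t).1
    (Subgroup.subset_closure a)))

/-- the standing hypotheses follow from the absence of (B') -/
theorem Big.stA (b : F.Big) (hA : ∀ H M, ¬F.Reg H M)
    (nB : ∀ H T L, F.Mem H → F.DT H T → F.Cl L → L ≠ ⊤ → T ⊆ L → ¬F.B4T L) : F.StA :=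
  ⟨b, hA, nB, fun H T m d _ a => b.nc hA m d (fun L => nB H T L m d) a⟩

end Fam

end Pool.Agent.Lib.MP_3cc314_lc.Cg
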