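import Pool.Agent.Lib.MP_3cc314_lc.CgDT

set_option autoImplicit false

namespace Pool.Agent.Lib.MP_3cc314_lc.Cg

variable {G : Type} [Group G]

/-- the central elements of order at most two -/
def z2 (G : Type) [Group G] : Subgroup G where
  carrier := {z | (∀ g, g * z = z * g) ∧ z * z = 1}
  one_mem' := ⟨fun g => by rw [mul_one, one_mul], mul_one 1⟩
  mul_mem' := fun {a b} ha hb => ⟨fun g => by rw [← mul_assoc, ha.1, mul_assoc, hb.1, mul_assoc], by
    rw [mul_assoc, ← mul_assoc b, ha.1 b, ← mul_assoc, ← mul_assoc, ha.2, one_mul, hb.2]⟩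
  inv_mem' := fun {a} ha => by rwa [inv_eq_of_mul_eq_one_right ha.2]

theorem mem_z2 {z : G} : z ∈ z2 G ↔ (∀ g, g * z = z * g) ∧ z * z = 1 := Iff.rfl

namespace Fam
variable {F : Fam G}

/-- EXP2 -/
theorem exp2e [Finite G] (fa : F.Fa) (h : F.clo (z2 G) = ⊤) (g : G) : g * g = 1 :=
  fa _ fun U m => by
    obtain ⟨z, a, b⟩ := (h ▸ Subgroup.mem_top g : g ∈ F.clo (z2 G)) U m
    have := U.mul_mem b b
    rwa [inv_eq_of_mul_eq_one_right a.2, mul_assoc, ← mul_assoc g, a.1 g, ← mul_assoc, ← mul_assoc,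
      a.2, one_mul] at this

/-- the centraliser of the involution in a trace of order two of closed subgroups is closed -/
theorem cl_cene {H K : Subgroup G} {t : G} (mH : H ∈ F.s) (mK : K ∈ F.s) (t1 : t ≠ 1) (tH : t ∈ H)
    (tK : t ∈ K) (k : ∀ x ∈ K, x ∈ H → x = 1 ∨ x = t) : F.Cl (Subgroup.centralizer {t}) :=
  fun g hg => by
    have c : ∀ U ∈ F.s, t ∈ U → g⁻¹ * t * g ∈ U := fun U m a => by
      obtain ⟨l, hl, b⟩ := hg U m
      have : g⁻¹ * t * g = (l⁻¹ * g)⁻¹ * t * (l⁻¹ * g) := by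
        calc _ = (l⁻¹ * g)⁻¹ * (l⁻¹ * (t * l)) * (l⁻¹ * g) := by group
          _ = _ := by rw [← Subgroup.mem_centralizer_singleton_iff.1 hl, inv_mul_cancel_left]
      rw [this]
      exact U.mul_mem (U.mul_mem (U.inv_mem b) a) b
    rcases k _ (c K mK tK) (c H mH tH) with d | d
    · refine (t1 ?_).elim
      have : t = g * (g⁻¹ * t * g) * g⁻¹ := by group
      rw [this, d]; group
    · refine Subgroup.mem_centralizer_singleton_iff.2 ?_
      nth_rw 1 [← d]; group

end Fam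

end Pool.Agent.Lib.MP_3cc314_lc.Cg
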