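import Pool.Agent.Lib.MP_3cc314_lc.CgA1
import Pool.Agent.Lib.MP_3cc314_lc.CgTr
import Pool.Agent.Lib.MP_3cc314_lc.CgA3e

set_option autoImplicit false

namespace Pool.Agent.Lib.MP_3cc314_lc.Cg

set_option synthInstance.maxSize 2000 in
theorem sg4_one : ∀ q r : V4 × V4, q.1 ≠ 0 → q.2 ≠ 0 → sg4 q r → ∀ b, gd4 b →
    (∀ p, gr4 b p → hp4 q p → p = 0 ∨ p = r) → ∀ c, gd4 c →
    (∀ p, gr4 c p → hp4 q p → p = 0 ∨ p = r) → b = c := by decide +kernel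

variable {G : Type} [Group G] [Finite G]

namespace Fam
variable {F : Fam G} {H K X : Subgroup G} {T T' : Set G} {t : G}

/-- the reflections at the two ends of an edge lie in no proper closed subgroup -/
theorem Big.edge_cl (b : F.Big) (mH : H ∈ F.s) (mK : K ∈ F.s) (d : F.DT H T) (d' : F.DT K T')
    (k : ∀ x ∈ K, x ∈ H → x = 1 ∨ x = t) (c : F.Cl X) (l : T ⊆ X) (l' : T' ⊆ X) : X = ⊤ := by
  by_contra ne
  rcases b.cl d c ne l with g | ⟨e, E, -, h5, h6⟩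
  · exact d.edge_ne d' b.rd k (d'.uniq g l')
  · obtain ⟨q, q1, q2, j, -⟩ := d.bp mH E l h5 h6
    obtain ⟨q', q1', q2', j', -⟩ := d'.bp mK E l' h5 h6
    obtain ⟨p, a, c, f, r, a', c', f', n⟩ := hp4_two q q1 q2 q' q1' q2'
    exact n (E.inj (((k _ ((j' p).2 c) ((j p).2 a)).resolve_left (mt E.eq_one.1 f)).trans
      ((k _ ((j' r).2 c') ((j r).2 a')).resolve_left (mt E.eq_one.1 f')).symm))

/-- the reflections lie in a face of the sporadic type -/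
def Bpr (F : Fam G) (T : Set G) : Prop := ∃ L, F.Cl L ∧ L ≠ ⊤ ∧ T ⊆ L ∧ F.B4T L

omit [Finite G] in
theorem Bpr.comm (h : F.Bpr T) (mH : H ∈ F.s) (d : F.DT H T) (ht : t ∈ T) :
    T ⊆ Subgroup.centralizer {t} := fun s hs => by
  obtain ⟨L, -, -, l, e, E, -, h5, h6⟩ := h
  obtain ⟨q, -, -, -, j⟩ := d.bp mH E l h5 h6
  obtain ⟨p, -, rfl⟩ := (j s).1 hs
  obtain ⟨r, -, rfl⟩ := (j t).1 ht
  exact Subgroup.mem_centralizer_singleton_iff.2 (by rw [← E.mul, ← E.mul, add_comm])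

theorem Bpr.nb (h : F.Bpr T) (b : F.Big) (hA : ∀ H M, ¬F.Reg H M) (mH : F.Mem H) (d : F.DT H T)
    (ht : t ∈ T) : ∃ K T', F.Mem K ∧ F.DT K T' ∧ t ∈ T' ∧ (∀ x ∈ K, x ∈ H → x = 1 ∨ x = t) ∧
      F.Bpr T' := by
  obtain ⟨K, mK, -, k⟩ := d.exm ht
  obtain ⟨-, -, -, -, T', d', ht'⟩ := b.edge hA mK mH fun x a c => k x c a
  refine ⟨K, T', mK, d', ht', k, by_contra fun n => ?_⟩
  obtain ⟨N, mN, k1, k2⟩ := b.triple hA mK.1 d' (fun L a c l f => n ⟨L, a, c, l, f⟩) ht' mH.1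
    fun x a c => k x c a
  obtain ⟨L, -, -, l, e, E, -, h5, h6⟩ := h
  obtain ⟨q, q1, q2, i, j⟩ := d.bp mH.1 E l h5 h6
  obtain ⟨r, s, rfl⟩ := (j t).1 ht
  have w : ∀ U ∈ F.s, (∀ x ∈ U, x ∈ H → x = 1 ∨ x = e r) → ∃ M, gd4 M ∧ E.pl M ≤ U ∧
      ∀ p, gr4 M p → hp4 q p → p = 0 ∨ p = r := fun U m k => by
    obtain ⟨M, g, l⟩ := h6 U m
    exact ⟨M, g, l, fun p a c => (k _ (E.pl_le.1 l p a) ((i p).2 c)).imp E.eq_one.1 fun z => E.inj z⟩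
  obtain ⟨M, g, l1, w1⟩ := w K mK.1 k
  obtain ⟨M', g', l2, w2⟩ := w N mN.1 k2
  obtain rfl := sg4_one q r q1 q2 s M g w1 M' g' w2
  obtain ⟨x, c, f, y, c', f', n⟩ := gd4_two M
  exact n (E.inj (((k1 _ (E.pl_le.1 l2 x c) (E.pl_le.1 l1 x c)).resolve_left (mt E.eq_one.1 f)).trans
    ((k1 _ (E.pl_le.1 l2 y c') (E.pl_le.1 l1 y c')).resolve_left (mt E.eq_one.1 f')).symm))

theorem Bpr.cen (h : F.Bpr T) (b : F.Big) (hA : ∀ H M, ¬F.Reg H M) (mH : F.Mem H) (d : F.DT H T) :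
    T ⊆ F.clo (z2 G) := fun t ht => by
  obtain ⟨K, T', mK, d', ht', k, h'⟩ := h.nb b hA mH d ht
  have := b.edge_cl mH.1 mK.1 d d' k (cl_cene mH.1 mK.1 (d.ne ht) (d.le ht) (d'.le ht') k)
    (h.comm mH.1 d ht) (h'.comm mK.1 d' ht')
  exact le_clo _ ⟨fun g => Subgroup.mem_centralizer_singleton_iff.1 (this ▸ Subgroup.mem_top g),
    d.sq ht⟩

/-- the case (B') is impossible unless the group has exponent two -/
theorem Big.nB (b : F.Big) (hA : ∀ H M, ¬F.Reg H M) (h2 : ¬∀ g : G, g * g = 1) :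
    ∀ H T L, F.Mem H → F.DT H T → F.Cl L → L ≠ ⊤ → T ⊆ L → ¬F.B4T L := fun H T L mH d c ne l f => by
  have h : F.Bpr T := ⟨L, c, ne, l, f⟩
  obtain ⟨t, ht⟩ := d.some
  obtain ⟨K, T', mK, d', -, k, h'⟩ := h.nb b hA mH d ht
  exact h2 (exp2e b.fa (b.edge_cl mH.1 mK.1 d d' k (cl_clo _) (h.cen b hA mH d) (h'.cen b hA mK d')))

end Fam

end Pool.Agent.Lib.MP_3cc314_lc.Cg
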