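import Pool.Agent.Lib.MP_3cc314_lc.CgAJ

set_option autoImplicit false

namespace Pool.Agent.Lib.MP_3cc314_lc.Cg

theorem c3_pt : ∀ M, gd4 M → ∀ p, gr4 M p → p = 0 ∨ ∃ M', gd4 M' ∧ gr4 M' p ∧
    ∀ q, gr4 M q → gr4 M' q → q = 0 ∨ q = p := by decide +kernel

theorem c3_gd : gd4 ((1, 0), (0, 1)) := by decide +kernel

open scoped Classical

variable {G : Type} [Group G]

/-- the central elements of order at most two -/
def cen2 (G : Type) [Group G] : Subgroup G where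
  carrier := {z | (∀ g, g * z = z * g) ∧ z * z = 1}
  one_mem' := ⟨fun g => by simp, mul_one _⟩
  mul_mem' := fun {a b} ha hb => ⟨fun g => by rw [← mul_assoc, ha.1 g, mul_assoc, hb.1 g, mul_assoc], by
    calc a * b * (a * b) = a * (b * a) * b := by group
      _ = a * a * (b * b) := by rw [ha.1 b]; group
      _ = 1 := by rw [ha.2, hb.2, mul_one]⟩
  inv_mem' := fun {a} ha => by rwa [inv_eq_of_mul_eq_one_right ha.2]

namespace Fam
variable {F : Fam G}

theorem Fa.exp2c [Finite G] (fa : F.Fa) (h : F.clo (cen2 G) = ⊤) (g : G) : g * g = 1 :=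
  fa _ fun H m => by
    obtain ⟨l, a, b⟩ := mem_clo.1 (h ▸ Subgroup.mem_top g : g ∈ F.clo (cen2 G)) H m
    have : g * g = l⁻¹ * g * (l⁻¹ * g) := by
      rw [inv_eq_of_mul_eq_one_right a.2]
      calc g * g = l * l * (g * g) := by rw [a.2, one_mul]
        _ = l * (l * g) * g := by group
        _ = l * g * (l * g) := by rw [← a.1 g]; rw [show l * (g * l) * g = l * g * (l * g) by group, ← a.1 g]
    rw [this]
    exact H.mul_mem b b

/-- the centraliser of an involution that is cut out by the family is closed -/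
theorem cl_cen {t : G} (h : ∀ x, (∀ H ∈ F.s, t ∈ H → x ∈ H) → x = 1 ∨ x = t) :
    F.Cl (Subgroup.centralizer {t}) := fun g hg => by
  rw [Subgroup.mem_centralizer_singleton_iff]
  rcases h (g⁻¹ * t * g) (fun H m c => by
    obtain ⟨l, a, b⟩ := hg H m
    have : g⁻¹ * t * g = (l⁻¹ * g)⁻¹ * t * (l⁻¹ * g) := by
      calc _ = (l⁻¹ * g)⁻¹ * (l⁻¹ * (t * l)) * (l⁻¹ * g) := by group
        _ = _ := by rw [← Subgroup.mem_centralizer_singleton_iff.1 a, inv_mul_cancel_left]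
    rw [this]
    exact H.mul_mem (H.mul_mem (H.inv_mem b) c) b) with q | q
  · have : t = 1 := by rw [show t = g * (g⁻¹ * t * g) * g⁻¹ by group, q]; group
    rw [this, mul_one, one_mul]
  · calc g * t = g * (g⁻¹ * t * g) := by rw [q]
      _ = t * g := by group

/-- two sporadic faces that meet inside a plane lie in no proper closed subgroup -/
theorem Big.b4two [Finite G] (b : F.Big) {P Q X : Subgroup G} (p : F.B4T P) (q : F.B4T Q)
    (lP : P ≤ X) (lQ : Q ≤ X) (c : F.Cl X) {e : V4 × V4 → G} (E : E4 e) {M : V4 × V4}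
    (l : P ⊓ Q ≤ E.pl M) : X = ⊤ := by
  by_contra ne
  have no : ∀ W ∈ F.s, ∀ t, ¬∀ x ∈ W, x ∈ X → x = 1 ∨ x = t := fun W m t k => by
    obtain ⟨e', E', h4, -, h6⟩ := p
    obtain ⟨M', -, a⟩ := h6 W m
    exact pl_not_two E' M' fun x hx => k x (a hx) (lP (E'.pl_le.2 (fun p _ => h4 p) hx))
  rcases b.sub c ne with ⟨W, m, k⟩ | ⟨T, h1, h2, -⟩ | ⟨e', E', -, h5, h6⟩
  · exact no W m.1 1 fun x a b => .inl (bot_eq k a b)
  · obtain ⟨t, ht, -⟩ := h2 ⊤ F.top
    obtain ⟨W, m, k⟩ := (h1 t ht).2.2.2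
    exact no W m.1 t k
  · refine pl_not_two E M (t := 1) fun x hx => .inl (b.fa x fun U u => ?_)
    obtain ⟨M', g, a⟩ := h6 U u
    obtain ⟨W, m, k⟩ := h5 M' g
    have : E'.pl M' = E.pl M := Subgroup.eq_of_le_of_card_ge
      ((le_inf (p.pl_le lP E' m.1 k) (q.pl_le lQ E' m.1 k)).trans l) (by rw [E.card_pl, E'.card_pl])
    exact a (this ▸ hx)

/-- some member is of dihedral type -/
theorem Big.exDT [Finite G] (b : F.Big) (hA : ∀ H M, ¬F.Reg H M) (h2 : ¬∀ g : G, g * g = 1) :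
    ∃ H T, F.Mem H ∧ F.DT H T := by
  by_contra n
  have all : ∀ H, F.Mem H → ∃ (e : V4 × V4 → G) (E : E4 e), (∀ p, e p ∈ H) ∧
      (∀ M, gd4 M → ∃ W, F.Mem W ∧ W ⊓ H ≤ E.pl M) ∧
      (∀ U ∈ F.s, ∃ M, gd4 M ∧ E.pl M ≤ U) ∧
      ∀ X : Subgroup G, (∀ p, e p ∈ X) → F.B4T (H ⊓ X) := fun H m => by
    obtain ⟨e, E, h4, h5, h6⟩ := (b.typ hA m (b.ne_top m)).resolve_left fun ⟨T, d⟩ => n ⟨H, T, m, d⟩
    exact ⟨e, E, h4, h5, h6, fun X k => ⟨e, E, fun p => ⟨h4 p, k p⟩, fun M g =>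
      (h5 M g).imp fun W a => ⟨a.1, (inf_le_inf_left W inf_le_left).trans a.2⟩, h6⟩⟩
  have cen : ∀ H, F.Mem H → F.B4T (H ⊓ cen2 G) := fun H m => by
    obtain ⟨e, E, h4, h5, h6, h7⟩ := all H m
    have k : ∀ M, gd4 M → ∀ p, gr4 M p → e p ∈ cen2 G := fun M g p a => by
      rcases c3_pt M g p a with rfl | ⟨M', g', a', z⟩
      · rw [E.zero]; exact one_mem _
      obtain ⟨W, w, k⟩ := h5 M g
      obtain ⟨W', w', k'⟩ := h5 M' g'
      obtain ⟨e1, E1, i4, -, i6, i7⟩ := all W w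
      have up : ∀ {M W}, F.Mem W → W ⊓ H ≤ E.pl M → E.pl M ≤ W := fun {M W} w k => by
        obtain ⟨M2, -, c⟩ := h6 W w.1
        exact E.pl_inj ((le_inf c (E.pl_le.2 fun p _ => h4 p)).trans k) ▸ c
      obtain ⟨M1, -, c⟩ := i6 H m.1
      have : E1.pl M1 = E.pl M := Subgroup.eq_of_le_of_card_ge
        ((le_inf (E1.pl_le.2 fun p _ => i4 p) c).trans k) (by rw [E.card_pl, E1.card_pl])
      obtain ⟨p1, -, q1⟩ : e p ∈ E1.pl M1 := this ▸ E.mem_pl.2 a
      have c1 : ∀ r, e r ∈ Subgroup.centralizer {e p} := fun r =>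
        Subgroup.mem_centralizer_singleton_iff.2 (by rw [← E.mul, ← E.mul, add_comm])
      have c2 : ∀ r, e1 r ∈ Subgroup.centralizer {e p} := fun r =>
        Subgroup.mem_centralizer_singleton_iff.2 (by rw [← q1, ← E1.mul, ← E1.mul, add_comm])
      have t := b.b4two (i7 _ c2) (h7 _ c1) inf_le_right inf_le_right (cl_cen fun x hx => by
        have xH := hx H m.1 (h4 p)
        obtain ⟨r, u, rfl⟩ := k ⟨hx W w.1 (up w k (E.mem_pl.2 a)), xH⟩
        exact (z r u (E.mem_pl.1 (k' ⟨hx W' w'.1 (up w' k' (E.mem_pl.2 a')), xH⟩))).imp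
          E.eq_one.2 (congrArg e)) E ((inf_le_inf inf_le_left inf_le_left).trans k)
      exact ⟨fun g => Subgroup.mem_centralizer_singleton_iff.1 (t ▸ Subgroup.mem_top g), E.sq p⟩
    refine h7 _ fun p => ?_
    obtain ⟨x, ⟨M, g, a⟩, y, ⟨M', g', a'⟩, q⟩ := b4_gen p
    rw [q, E.mul]
    exact mul_mem (k M g x a) (k M' g' y a')
  obtain ⟨H, m, -⟩ := exists_mem F.top
  obtain ⟨e, E, -, h5, -⟩ := all H m
  obtain ⟨W, w, k⟩ := h5 _ c3_gd
  exact h2 (b.fa.exp2c (b.b4two (cen W w) (cen H m) (inf_le_right.trans (le_clo _))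
    (inf_le_right.trans (le_clo _)) (cl_clo _) E ((inf_le_inf inf_le_left inf_le_left).trans k)))

end Fam

end Pool.Agent.Lib.MP_3cc314_lc.Cg
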