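import Pool.Agent.Lib.MP_3cc314_lc.CgAS

set_option autoImplicit false

namespace Pool.Agent.Lib.MP_3cc314_lc.Cg
open scoped Classical

variable {G : Type} [Group G]

namespace Fam
variable {F : Fam G} {L X U : Subgroup G} {e e' : V4 × V4 → G} {M : V4 × V4}

/-- the traces on `L` form the sporadic atom with coordinates `e` -/
structure BT (F : Fam G) (L : Subgroup G) {e : V4 × V4 → G} (E : E4 e) : Prop where
  le : ∀ p, e p ∈ L
  ex : ∀ M, gd4 M → ∃ W, F.Mem W ∧ W ⊓ L ≤ E.pl M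
  cov : ∀ U ∈ F.s, ∃ M, gd4 M ∧ E.pl M ≤ U

theorem B4T.bt (h : F.B4T L) : ∃ (e : V4 × V4 → G) (E : E4 e), F.BT L E :=
  let ⟨e, E, a, b, c⟩ := h
  ⟨e, E, a, b, c⟩

namespace BT
variable {E : E4 e} {E' : E4 e'} (d : F.BT L E)
include d

theorem b4 : F.B4T L := ⟨e, E, d.le, d.ex, d.cov⟩

theorem pl_le (M : V4 × V4) : E.pl M ≤ L := E.pl_le.2 fun p _ => d.le p

theorem mono (l : X ≤ L) (h : ∀ p, e p ∈ X) : F.BT X E :=
  ⟨h, fun M g => (d.ex M g).imp fun _ k => ⟨k.1, (inf_le_inf_left _ l).trans k.2⟩, d.cov⟩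

/-- an exact member contains its plane -/
theorem le_of (u : U ∈ F.s) (k : U ⊓ L ≤ E.pl M) : E.pl M ≤ U := by
  obtain ⟨M', -, l⟩ := d.cov U u
  exact E.pl_inj ((le_inf l (d.pl_le M')).trans k) ▸ l

theorem exm (g : gd4 M) : ∃ W, F.Mem W ∧ W ⊓ L ≤ E.pl M ∧ E.pl M ≤ W :=
  (d.ex M g).imp fun _ h => ⟨h.1, h.2, d.le_of h.1.1 h.2⟩

/-- two systems of planes inside one group agree -/
theorem same [Finite G] (d' : F.BT X E') (h : ∀ p, e p ∈ X) {M' : V4 × V4} (g : gd4 M') :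
    ∃ M, gd4 M ∧ E.pl M = E'.pl M' := by
  obtain ⟨V, m, k⟩ := d'.ex M' g
  obtain ⟨M, g, l⟩ := d.cov V m.1
  exact ⟨M, g, Subgroup.eq_of_le_of_card_ge ((le_inf l (E.pl_le.2 fun p _ => h p)).trans k)
    (by rw [E.card_pl, E'.card_pl])⟩

/-- a proper closed subgroup over the atom has the same atom -/
theorem up [Finite G] (b : F.Big) (hX : F.Cl X) (ne : X ≠ ⊤) (h : ∀ p, e p ∈ X) : F.BT X E := by
  have nt : ∀ W ∈ F.s, ∀ t, ¬Tr W X t := fun W m t k =>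
    (d.mono inf_le_left fun p => ⟨d.le p, h p⟩).b4.not_tr m (k.mono inf_le_right)
  rcases b.sub hX ne with ⟨W, m, k⟩ | ⟨T, k, c, -⟩ | a
  · exact (nt W m.1 1 fun x a c => .inl (bot_eq k a c)).elim
  · obtain ⟨t, ht, -⟩ := c ⊤ F.top
    obtain ⟨W, m, q⟩ := (k t ht).2.2.2
    exact (nt W m.1 t q).elim
  · obtain ⟨e', E', d'⟩ := a.bt
    refine ⟨h, fun M g => ?_, d.cov⟩
    obtain ⟨W, m, k⟩ := d.ex M g
    obtain ⟨M', g', l⟩ := d'.cov W m.1
    obtain ⟨M1, -, q⟩ := d.same d' h g'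
    obtain ⟨V, m', k'⟩ := d'.ex M' g'
    exact ⟨V, m', E.pl_inj ((le_inf (q ▸ l) (d.pl_le M1)).trans k) ▸ q ▸ k'⟩

/-- two atoms in one proper closed subgroup: all planes of the first lie in the second group -/
theorem two [Finite G] {K : Subgroup G} (d' : F.BT K E') (b : F.Big) (hX : F.Cl X) (ne : X ≠ ⊤)
    (h : ∀ p, e p ∈ X) (h' : ∀ p, e' p ∈ X) (g : gd4 M) : E.pl M ≤ K := by
  obtain ⟨M', -, q⟩ := d'.same (d.up b hX ne h) h' g
  exact q ▸ d'.pl_le M'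

end BT

/-- the central elements of order at most two -/
def zz (G : Type) [Group G] : Subgroup G where
  carrier := {z | z * z = 1 ∧ ∀ g, g * z = z * g}
  one_mem' := ⟨mul_one _, fun g => by simp⟩
  mul_mem' := fun {a b} ha hb => ⟨by rw [mul_assoc, ← mul_assoc b, ha.2 b, mul_assoc, hb.1, mul_one, ha.1],
    fun g => by rw [← mul_assoc, ha.2, mul_assoc, hb.2, mul_assoc]⟩
  inv_mem' := fun {a} ha => by rwa [inv_eq_of_mul_eq_one_right ha.1]

theorem exp2 [Finite G] (fa : F.Fa) (h : F.clo (zz G) = ⊤) (g : G) : g * g = 1 := fa _ fun H m => by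
  obtain ⟨z, hz, k⟩ := (h ▸ Subgroup.mem_top g : g ∈ F.clo (zz G)) H m
  have : g * g = z⁻¹ * g * (z⁻¹ * g) := by
    rw [inv_eq_of_mul_eq_one_right hz.1, mul_assoc, ← mul_assoc g z, hz.2 g, ← mul_assoc, ← mul_assoc,
      hz.1, one_mul]
  exact this ▸ H.mul_mem k k

end Fam

end Pool.Agent.Lib.MP_3cc314_lc.Cg
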