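import Pool.Agent.Lib.MP_3cc314_lc.CgA1
import Pool.Agent.Lib.MP_3cc314_lc.CgA3u

set_option autoImplicit false

namespace Pool.Agent.Lib.MP_3cc314_lc.Cg

/-- the plane meets the hyperplane only in the cell `r` -/
abbrev cd4 (q r M : V4 × V4) : Prop := gd4 M ∧ ∀ p, gr4 M p → hp4 q p → p = 0 ∨ p = r

/-- two planes meet -/
abbrev mt4 (a b : V4 × V4) : Prop := ∃ p, p ≠ 0 ∧ gr4 a p ∧ gr4 b p

set_option synthInstance.maxSize 4000 in
theorem two4 : ∀ q : V4 × V4, q.1 ≠ 0 → q.2 ≠ 0 → ∀ r, sg4 q r → ∀ s, sg4 q s → s ≠ r → ∀ u,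
    sg4 q u → u ≠ r → u ≠ s → ∀ a, cd4 q r a → ∀ b, cd4 q s b → ∀ c, cd4 q u c → ∀ d,
    cd4 q (r + s + u) d → (mt4 a b ∧ mt4 a c ∧ ¬mt4 a d) ∨ (mt4 a b ∧ ¬mt4 a c ∧ mt4 a d) ∨
      (¬mt4 a b ∧ mt4 a c ∧ mt4 a d) := by decide +kernel

set_option synthInstance.maxSize 4000 in
theorem cd4_out : ∀ q : V4 × V4, q.1 ≠ 0 → q.2 ≠ 0 → ∀ r, sg4 q r → ∀ a, cd4 q r a →
    gr4 a r ∧ ∃ p, gr4 a p ∧ ¬hp4 q p := by decide +kernel

variable {G : Type} [Group G]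

theorem inv2 (h : ∀ g : G, g * g = 1) (a : G) : a⁻¹ = a := inv_eq_of_mul_eq_one_right (h a)

theorem comm2 (h : ∀ g : G, g * g = 1) (a b : G) : a * b = b * a := by
  rw [← inv2 h (a * b), mul_inv_rev, inv2 h, inv2 h]

theorem prod2 (h : ∀ g : G, g * g = 1) (g x y : G) : g * x * (g * y) = x * y := by
  rw [comm2 h g x, mul_assoc, ← mul_assoc g, h, one_mul]

/-- a subgroup together with one coset -/
def ext2 (h : ∀ g : G, g * g = 1) (H : Subgroup G) (g : G) : Subgroup G where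
  carrier := {x | x ∈ H ∨ g * x ∈ H}
  one_mem' := .inl H.one_mem
  mul_mem' := by
    rintro x y (a | a) (b | b)
    · exact .inl (H.mul_mem a b)
    · exact .inr (by rw [← mul_assoc, comm2 h g x, mul_assoc]; exact H.mul_mem a b)
    · exact .inr (by rw [← mul_assoc]; exact H.mul_mem a b)
    · exact .inl (prod2 h g x y ▸ H.mul_mem a b)
  inv_mem' := fun {x} a => by rwa [inv2 h]

theorem sup2 (h : ∀ g : G, g * g = 1) {A B : Subgroup G} (e : A ⊔ B = ⊤) (g : G) :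
    ∃ b ∈ B, g * b ∈ A := by
  have : B.Normal := ⟨fun x hx y => by rwa [comm2 h y x, mul_inv_cancel_right]⟩
  obtain ⟨a, ha, b, hb, rfl⟩ := Subgroup.mem_sup_of_normal_right.1 (e ▸ Subgroup.mem_top g)
  exact ⟨b, hb, by rwa [mul_assoc, h, mul_one]⟩

theorem tri3 (h : ∀ g : G, g * g = 1) {H : Subgroup G} {P Q R : G → Prop}
    (mP : ∀ a b, P a → (P (a * b) ↔ P b)) (mQ : ∀ a b, Q a → (Q (a * b) ↔ Q b))
    (mR : ∀ a b, R a → (R (a * b) ↔ R b)) (z : ∀ a ∈ H, P a ∧ Q a ∧ R a)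
    (key : ∀ a, a ∉ H → (P a ∧ Q a ∧ ¬R a) ∨ (P a ∧ ¬Q a ∧ R a) ∨ (¬P a ∧ Q a ∧ R a))
    {a b c : G} (ha : a ∉ H) (hb : b ∉ H) (hc : c ∉ H) (pa : P a) (qb : Q b) (rc : R c) : False := by
  have pr : ∀ x y, x ∉ H → y ∉ H → (P x → P y) ∧ (Q x → Q y) ∧ (R x → R y) := fun x y hx hy => by
    have a1 := mP x y
    have a2 := mQ x y
    have a3 := mR x y
    have b1 := comm2 h y x ▸ mP y x
    have b2 := comm2 h y x ▸ mQ y x
    have b3 := comm2 h y x ▸ mR y x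
    have k1 := key x hx
    have k2 := key y hy
    have k3 := (em (x * y ∈ H)).imp (z _) (key _)
    clear mP mQ mR z key
    generalize P (x * y) = p3, Q (x * y) = q3, R (x * y) = r3, P x = p1, Q x = q1, R x = r1,
      P y = p2, Q y = q2, R y = r2 at *
    by_cases p1 <;> by_cases q1 <;> by_cases r1 <;> by_cases p2 <;> by_cases q2 <;> by_cases r2 <;>
      simp_all
  rcases key a ha with k | k | k
  exacts [k.2.2 ((pr c a hc ha).2.2 rc), k.2.1 ((pr b a hb ha).2.1 qb), k.1 pa]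

variable [Finite G]

namespace Fam
variable {F : Fam G} {H : Subgroup G} {T : Set G}

theorem Big.two_dt (b : F.Big) (hA : ∀ H M, ¬F.Reg H M) (h : ∀ g : G, g * g = 1) (mH : F.Mem H)
    (d : F.DT H T) : False := by
  obtain ⟨t, ht⟩ := d.some
  obtain ⟨u, hu, v, hv, ut, vt, vu⟩ := d.more b.rd (d.ne ht)
  have hw := d.tri t ht u hu v hv
  have wt : t * u * v ≠ t := fun e => vu (by
    rw [mul_assoc, mul_eq_left] at e
    exact mul_left_cancel (e.trans (h u).symm))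
  obtain ⟨K, mK, -, k⟩ := d.exm ht
  obtain ⟨K1, m1, -, k1⟩ := d.exm hu
  obtain ⟨K2, m2, -, k2⟩ := d.exm hv
  obtain ⟨K3, m3, -, k3⟩ := d.exm hw
  have mul : ∀ (U : Subgroup G) (a c : G), (∃ x ∈ K, x ∈ U ∧ a * x ∈ H) →
      ((∃ x ∈ K, x ∈ U ∧ a * c * x ∈ H) ↔ ∃ x ∈ K, x ∈ U ∧ c * x ∈ H) := by
    rintro U a c ⟨x, x1, x2, x3⟩
    have e : ∀ y, a * x * (a * c * y) = c * (x * y) := fun y => by
      rw [mul_assoc a c, prod2 h, ← mul_assoc, comm2 h x c, mul_assoc]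
    have e' : ∀ y, a * x * (c * y) = a * c * (x * y) := fun y => by
      rw [mul_assoc, mul_assoc, ← mul_assoc x, comm2 h x c, mul_assoc]
    exact ⟨fun ⟨y, y1, y2, y3⟩ => ⟨x * y, K.mul_mem x1 y1, U.mul_mem x2 y2, e y ▸ H.mul_mem x3 y3⟩,
      fun ⟨y, y1, y2, y3⟩ => ⟨x * y, K.mul_mem x1 y1, U.mul_mem x2 y2, e' y ▸ H.mul_mem x3 y3⟩⟩
  have out : ∀ (U : Subgroup G) (s : G), s ≠ t → (∀ x ∈ U, x ∈ H → x = 1 ∨ x = s) →
      ∀ x ∈ K, x ∈ U → x ≠ 1 → x ∉ H := fun U s n e x a c x1 f =>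
    n (((e x c f).resolve_left x1).symm.trans ((k x a f).resolve_left x1))
  have nz : ∀ U s, F.Mem U → s ≠ t → (∀ x ∈ U, x ∈ H → x = 1 ∨ x = s) →
      ∃ a, a ∉ H ∧ ∃ x ∈ K, x ∈ U ∧ a * x ∈ H := fun U s m n e => by
    obtain ⟨x, a, c, x1⟩ := meet hA mK.1 m.1
    exact ⟨x, out U s n e x a c x1, x, a, c, h x ▸ H.one_mem⟩
  obtain ⟨a1, n1, p1⟩ := nz K1 _ m1 ut k1
  obtain ⟨a2, n2, p2⟩ := nz K2 _ m2 vt k2
  obtain ⟨a3, n3, p3⟩ := nz K3 _ m3 wt k3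
  refine tri3 h (mul K1) (mul K2) (mul K3) (fun a ha => ⟨⟨1, K.one_mem, K1.one_mem, by simpa⟩,
    ⟨1, K.one_mem, K2.one_mem, by simpa⟩, 1, K.one_mem, K3.one_mem, by simpa⟩) (fun g hg => ?_)
    n1 n2 n3 p1 p2 p3
  have lH : H ≤ ext2 h H g := fun x hx => .inl hx
  have l : T ⊆ ext2 h H g := fun x hx => lH (d.le hx)
  have ne : ext2 h H g ≠ ⊤ := fun e => by
    obtain ⟨-, -, -, -, T', d', ht'⟩ := b.edge hA mK mH fun x a c => k x c a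
    obtain ⟨s, hs, s', hs', st, st', ss⟩ := d'.more b.rd (d.ne ht)
    have o : ∀ x ∈ T', x ≠ t → g * x ∈ H := fun x hx n =>
      (e ▸ Subgroup.mem_top x : x ∈ ext2 h H g).resolve_left fun c =>
        (k x (d'.le hx) c).elim (d'.ne hx) n
    rcases k _ (K.mul_mem (d'.le hs) (d'.le hs')) (prod2 h g s s' ▸ H.mul_mem (o s hs st) (o s' hs' st'))
      with q | q
    · exact ss (mul_left_cancel (q.trans (h s).symm))
    · exact d'.rot_not (d'.mul_rot hs hs') (q ▸ ht')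
  rcases b.cl d (cl_of_mem (F.up mH.1 lH)) ne l with d1 | ⟨e, E, le, h5, h6⟩
  · obtain ⟨W, mW, -, kW⟩ := d1.exm ht
    obtain ⟨w, a, c⟩ := sup2 h (b.edge_sup hA mH mW fun x a c => kW x a (lH c)) g
    refine (hg ((H.mul_mem_cancel_right ?_).1 c)).elim
    exact (kW w a (.inr c)).elim (fun q => q ▸ H.one_mem) fun q => q ▸ d.le ht
  obtain ⟨q, q1, q2, i, j⟩ := d.bp mH.1 E l h5 h6
  have w : ∀ U r, F.Mem U → sg4 q r → (∀ x ∈ U, x ∈ H → x = 1 ∨ x = e r) → ∃ M, cd4 q r M ∧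
      E.pl M ≤ U ∧ ∀ x ∈ U, g * x ∈ H → x ∈ E.pl M := fun U r m s kU => by
    obtain ⟨M, gM, lM⟩ := h6 U m.1
    have c : cd4 q r M := ⟨gM, fun p a c =>
      (kU _ (E.pl_le.1 lM p a) ((i p).2 c)).imp E.eq_one.1 fun z => E.inj z⟩
    obtain ⟨c1, p, c2, c3⟩ := cd4_out q q1 q2 r s M c
    refine ⟨M, c, lM, fun x a f => ?_⟩
    have f' : g * e p ∈ H := (le p).resolve_left fun z => c3 ((i p).1 z)
    rw [← (E.pl M).mul_mem_cancel_right (E.mem_pl.2 c2)]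
    exact (kU _ (U.mul_mem a (E.pl_le.1 lM p c2)) (prod2 h g x _ ▸ H.mul_mem f f')).elim
      (fun z => z ▸ (E.pl M).one_mem) fun z => z ▸ E.mem_pl.2 c1
  obtain ⟨r, sr, rfl⟩ := (j t).1 ht
  obtain ⟨s, ss, rfl⟩ := (j u).1 hu
  obtain ⟨o, so, rfl⟩ := (j v).1 hv
  rw [← E.mul, ← E.mul] at hw wt k3
  obtain ⟨o', so', eo⟩ := (j _).1 hw
  obtain rfl := E.inj eo
  obtain ⟨M, c0, l0, f0⟩ := w K r mK sr k
  have eq : ∀ (U : Subgroup G) r' M', e r' ≠ e r → (∀ x ∈ U, x ∈ H → x = 1 ∨ x = e r') →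
      E.pl M' ≤ U → (∀ x ∈ U, g * x ∈ H → x ∈ E.pl M') →
      ((∃ x ∈ K, x ∈ U ∧ g * x ∈ H) ↔ mt4 M M') := fun U r' M' n kU l1 f1 => by
    constructor
    · rintro ⟨x, a, c, f⟩
      obtain ⟨p, z, rfl⟩ := f0 x a f
      exact ⟨p, fun y => hg (by rwa [y, E.zero, mul_one] at f), z, E.mem_pl.1 (f1 _ c f)⟩
    · rintro ⟨p, a, c, f⟩
      have a1 := E.pl_le.1 l0 p c
      have a2 := E.pl_le.1 l1 p f
      exact ⟨_, a1, a2, (le p).resolve_left (out U _ n kU _ a1 a2 (mt E.eq_one.1 a))⟩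
  obtain ⟨M1, c1, l1, f1⟩ := w K1 s m1 ss k1
  obtain ⟨M2, c2, l2, f2⟩ := w K2 o m2 so k2
  obtain ⟨M3, c3, l3, f3⟩ := w K3 _ m3 so' k3
  rw [eq K1 s M1 ut k1 l1 f1, eq K2 o M2 vt k2 l2 f2, eq K3 _ M3 wt k3 l3 f3]
  exact two4 q q1 q2 r sr s ss (fun z => ut (z ▸ rfl)) o so (fun z => vt (z ▸ rfl))
    (fun z => vu (z ▸ rfl)) M c0 M1 c1 M2 c2 M3 c3

/-- the group does not have exponent two -/
theorem Big.twoB (b : F.Big) (hA : ∀ H M, ¬F.Reg H M) : ¬∀ g : G, g * g = 1 := fun h => by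
  have ty : ∀ H, F.Mem H → ∃ (e : V4 × V4 → G) (E : E4 e), F.BT H E := fun H m =>
    ((b.typ hA m (b.ne_top m)).resolve_left fun ⟨_, d⟩ => b.two_dt hA h m d).bt
  obtain ⟨H, mH, -⟩ := exists_mem F.top
  obtain ⟨e, E, d⟩ := ty H mH
  have sup : ∀ W M, F.Mem W → W ⊓ H ≤ E.pl M → H ⊔ W = ⊤ := fun W M m k => by
    by_contra ne
    obtain ⟨e', E', d'⟩ := ty W m
    have c : ∀ M', gd4 M' → M' = M := fun M' g => E.pl_inj ((le_inf
      (d.two d' b (cl_of_mem (F.up mH.1 le_sup_left)) ne (fun p => Subgroup.mem_sup_left (d.le p))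
        (fun p => Subgroup.mem_sup_right (d'.le p)) g) (d.pl_le M')).trans k)
    exact absurd ((c ((1, 0), (0, 1)) (by decide)).trans (c ((0, 1), (1, 0)) (by decide)).symm)
      (by decide)
  obtain ⟨W, mW, k⟩ := d.ex ((1, 0), (0, 1)) (by decide)
  obtain ⟨e', E', d'⟩ := ty W mW
  obtain ⟨M', g', l'⟩ := d'.cov H mH.1
  have eq : E'.pl M' = E.pl ((1, 0), (0, 1)) := Subgroup.eq_of_le_of_card_ge
    ((le_inf (d'.pl_le M') l').trans k) (by rw [E.card_pl, E'.card_pl])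
  obtain ⟨N, -, ds⟩ := gd4_dis M' g'
  have out : ∀ p, gr4 N p → p ≠ 0 → e' p ∉ H := fun p a n c =>
    n (ds p (E'.mem_pl.1 (eq ▸ k ⟨d'.le p, c⟩)) a)
  obtain ⟨x, x1, x2, y, y1, y2, xy⟩ := gd4_two N
  have lH : H ≤ ext2 h H (e' x) := fun x hx => .inl hx
  have ne : ext2 h H (e' x) ≠ ⊤ := fun q => by
    rcases (q ▸ Subgroup.mem_top _ : e' y ∈ ext2 h H (e' x)) with c | c
    · exact out y y1 y2 c
    · refine out (x + y) (gr4_add N x x1 y y1) (fun z => xy ?_) (E'.mul x y ▸ c)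
      rw [← add_zero x, ← v4_add y, ← add_assoc, z, zero_add]
  obtain ⟨W1, m1, k1⟩ := (d.up b (cl_of_mem (F.up mH.1 lH)) ne fun p => lH (d.le p)).ex
    ((1, 0), (0, 1)) (by decide)
  obtain ⟨w, a, c⟩ := sup2 h (sup W1 _ m1 ((inf_le_inf_left _ lH).trans k1)) (e' x)
  exact out x x1 x2 ((H.mul_mem_cancel_right (d.pl_le _ (k1 ⟨a, .inr c⟩))).1 c)

end Fam

end Pool.Agent.Lib.MP_3cc314_lc.Cg
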