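import Pool.Agent.Lib.MP_3cc314_lc.CgAE1

set_option autoImplicit false

namespace Pool.Agent.Lib.MP_3cc314_lc.Cg
open scoped Classical

variable {G : Type} [Group G]

namespace Fam
variable {F : Fam G} {H K N M A B : Subgroup G} {T T' : Set G} {t : G}
variable [Finite G] (s : F.StE)
include s

/-- the other conjugates form one orbit -/
theorem StE.tw (mH : F.Mem H) (d : F.DT H T) (mK : F.Mem K) (e : Tr K H t) {g : G}
    (n : cj g H ≠ H) : ∃ h ∈ H, cj h K = cj g H := by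
  obtain ⟨⟨x, q⟩, -⟩ := s.sc mH mK d e (s.nf mH d mK e)
  rcases s.ne H K T t mH mK d e (g * x) with ⟨h, a, k, b, w⟩ | w
  · exact ⟨h, a, by rw [← q, ← cj_mul, w, cj_mul, cj_of_mem b]⟩
  · exact (n (by rwa [cj_mul, q] at w)).elim

theorem StE.tw2 (mH : F.Mem H) (d : F.DT H T) {g g' : G} (n : cj g H ≠ H) (n' : cj g' H ≠ H) :
    ∃ h ∈ H, cj h (cj g H) = cj g' H := by
  obtain ⟨t, ht⟩ := d.some
  obtain ⟨K, mK, -, e⟩ := d.exm ht
  obtain ⟨h, a, q⟩ := s.tw mH d mK e n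
  obtain ⟨h', a', q'⟩ := s.tw mH d mK e n'
  exact ⟨h' * h⁻¹, H.mul_mem a' (H.inv_mem a), by rw [← q, ← q', cj_mul, cj_inv_cj]⟩

/-- different conjugates meet in a reflection -/
theorem StE.pair (mH : F.Mem H) (d : F.DT H T) {g : G} (n : cj g H ≠ H) :
    ∃ u ∈ T, Tr (cj g H) H u := by
  obtain ⟨t, ht⟩ := d.some
  obtain ⟨K, mK, -, e⟩ := d.exm ht
  obtain ⟨h, a, q⟩ := s.tw mH d mK e n
  have := Tr.cj e h
  rw [q, cj_of_mem a] at this
  exact ⟨_, d.cjm a ht, this⟩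

/-- neighbours are conjugate -/
theorem StE.nbr (mH : F.Mem H) (d : F.DT H T) (mK : F.Mem K) (e : Tr K H t) : ∃ g, cj g H = K := by
  obtain ⟨⟨x, q⟩, -⟩ := s.sc mH mK d e (s.nf mH d mK e)
  exact ⟨x⁻¹, by rw [← q, cj_inv_cj]⟩

/-- the reflections form one class -/
theorem StE.cls (mH : F.Mem H) (d : F.DT H T) {u : G} (ht : t ∈ T) (hu : u ∈ T) :
    ∃ h, u = h * t * h⁻¹ := by
  obtain ⟨K, mK, -, e⟩ := d.exm ht
  obtain ⟨P, mP, c, e'⟩ := d.exm hu
  obtain ⟨g, rfl⟩ := s.nbr mH d mP e'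
  obtain ⟨h, a, q⟩ := s.tw mH d mK e (s.neq d e')
  have := Tr.cj e h
  rw [q, cj_of_mem a] at this
  exact ⟨h, (this u c (d.le hu)).resolve_left (d.ne hu)⟩

/-- a coset of a conjugate that misses `H` -/
theorem StE.miss (mH : F.Mem H) (d : F.DT H T) {g x : G} (n : ∀ m ∈ cj x H, g * m ∉ H) :
    cj x H = H ∨ cj g (cj x H) = H := by
  by_contra c
  rw [not_or, ← cj_mul] at c
  obtain ⟨h, a, q⟩ := s.tw2 mH d c.1 c.2
  rw [cj_mul] at q
  exact n _ (s.nrm' (mH.cj x) (d.cj x) q.symm) (by rwa [mul_inv_cancel_left])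

/-- there is a second class of members -/
theorem StE.second (mH : F.Mem H) (d : F.DT H T) : ∃ M, F.Mem M ∧ ∀ g, cj g M ≠ H := by
  obtain ⟨t, ht⟩ := d.some
  obtain ⟨K, mK, tK, e⟩ := d.exm ht
  obtain ⟨N, mN, e1, e2⟩ := s.tr H H T t K mH d mH.1 d ht mK e
  obtain ⟨u, hu, ut, -⟩ := d.three s.big.rd (d.ne ht) (d.ne ht)
  obtain ⟨Q, mQ, uQ, e3⟩ := d.exm hu
  obtain ⟨TK, dK, -⟩ := s.toStA.nb mK mH.1 (Tr.symm e)
  obtain ⟨TN, dN, -⟩ := s.toStA.nb mN mH.1 e1.symm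
  have k : ∀ P, Tr P H t → Q ≠ P := fun P r q =>
    (r u (q ▸ uQ) (d.le hu)).elim (d.ne hu) ut
  obtain ⟨a, ha⟩ := s.nbr mH d mK e
  obtain ⟨b, hb⟩ := s.nbr mH d mN e1
  obtain ⟨c, hc⟩ := s.nbr mH d mQ e3
  have q1 : cj (b * a * b⁻¹) N = cj b K := by rw [← hb, ← ha, cj_mul, cj_mul, cj_inv_cj]
  have q2 : cj (c * b⁻¹) N = Q := by rw [← hb, ← hc, cj_mul, cj_inv_cj]
  obtain ⟨n, hn, q⟩ := s.tw2 mN dN (g := b * a * b⁻¹) (g' := c * b⁻¹)
    (by rw [q1, ← hb]; exact fun w => s.neq d e (cj_inj b w)) (by rw [q2]; exact k N e1)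
  rw [q1, q2, ← cj_mul] at q
  have p : cj (n * b) H = N := by rw [cj_mul, hb, cj_of_mem hn]
  generalize n * b = g at p q
  have gH : g ∉ H := fun w => s.neq d e1 (by rw [← p, cj_of_mem w])
  have gK : g ∉ K := fun w => k K e (by rw [← q, cj_of_mem w])
  let f : G → ℤ := fun x => iz 1 ⊤ x - iz 1 H x - iz 1 K x + iz 1 N x
  have tN := (d.mem_of mN.1 e1).2
  have E : ∀ x, x = 1 ∨ x = t → x ∈ H ∧ x ∈ K ∧ x ∈ N := by
    rintro _ (rfl | rfl)
    exacts [⟨one_mem _, one_mem _, one_mem _⟩, ⟨d.le ht, tK, tN⟩]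
  have f0 : ∀ x, x ∈ H ∨ x ∈ K → f x = 0 := fun x w => by
    have h1 : x ∈ K → x ∈ H → x ∈ N := fun a b => (E x (e x a b)).2.2
    have h2 : x ∈ N → x ∈ H → x ∈ K := fun a b => (E x (e1 x a b)).2.1
    have h3 : x ∈ N → x ∈ K → x ∈ H := fun a b => (E x (e2 x a b)).1
    simp only [f, iz_one]
    split_ifs <;> simp_all
  have f1 : ∀ x, x ∉ H → x ∉ K → 0 < f x := fun x a b => by
    simp only [f, iz_one]
    split_ifs <;> simp_all
  obtain ⟨M, mM, z, -⟩ := s.big.sf.cos (f := f)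
    ((((Sp.iz F.top 1).sub (Sp.iz mH.1 1)).sub (Sp.iz mK.1 1)).add (Sp.iz mN.1 1))
    (fun x => by
      by_cases w : x ∈ H ∨ x ∈ K
      exacts [(f0 x w).ge, (f1 x (fun a => w (.inl a)) fun a => w (.inr a)).le]) (f1 g gH gK)
  refine ⟨M, mM, fun x hx => ?_⟩
  have m1 : cj x⁻¹ H = M := by rw [← hx, cj_inv_cj]
  have m2 : cj (x⁻¹ * a⁻¹) K = M := by rw [← ha, cj_mul, cj_inv_cj, m1]
  have r1 := s.miss mH d (g := g) (x := x⁻¹) fun m hm w => (z m (m1 ▸ hm)).ne' (f0 _ (.inl w))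
  have r2 := s.miss mK dK (g := g) (x := x⁻¹ * a⁻¹) fun m hm w => (z m (m2 ▸ hm)).ne' (f0 _ (.inr w))
  rw [m1] at r1
  rw [m2] at r2
  rcases r1 with r1 | r1 <;> rcases r2 with r2 | r2
  · exact s.neq d e (r2.symm.trans r1)
  · exact s.neq dK e2 (by rw [← p, ← r1, r2])
  · exact s.neq d e3 (by rw [← q, ← r2, r1])
  · exact s.neq d e (r2.symm.trans r1)

/-- nothing is of sporadic type -/
theorem StE.nb4 (mH : F.Mem H) (d : F.DT H T) : ¬F.B4T M := by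
  rintro ⟨e, E, -, -, h⟩
  obtain ⟨a, -, l⟩ := h H mH.1
  have k : ∀ p, e p ∈ H := fun p => s.nrm mH d (by
    by_contra n
    obtain ⟨u, -, r⟩ := s.pair mH d n
    refine E.not_tr (fun x hx => mem_cj.2 ?_) l r
    obtain ⟨q, c, rfl⟩ := id hx
    rw [E.inv, ← E.mul, add_comm, E.mul, mul_assoc, E.sq, mul_one]
    exact l hx)
  obtain ⟨t, ht⟩ := d.some
  obtain ⟨K, mK, -, r⟩ := d.exm ht
  obtain ⟨b, -, l'⟩ := h K mK.1
  exact E.not_tr l' (E.pl_le.2 fun p _ => k p) r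

theorem StE.idx (mH : F.Mem H) (d : F.DT H T) : 2 * H.index = Nat.card H + 2 := by
  obtain ⟨t, ht⟩ := d.some
  obtain ⟨K, mK, -, e⟩ := d.exm ht
  exact (s.sc mH mK d e (s.nf mH d mK e)).2.1

/-- step (4) -/
theorem StE.four (mH : F.Mem H) (d : F.DT H T) : False := by
  obtain ⟨M, mM, nM⟩ := s.second mH d
  obtain ⟨T', d'⟩ := (s.big.typ s.na mM (s.big.ne_top mM)).resolve_right (s.nb4 mH d)
  have c1 := s.idx mH d
  have c2 := s.idx mM d'
  have c3 := H.card_mul_index.trans M.card_mul_index.symm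
  have c4 : 0 < Nat.card H := Nat.card_pos
  have c5 : 0 < Nat.card M := Nat.card_pos
  have c6 : M.index = H.index := by
    rcases lt_trichotomy M.index H.index with w | w | w
    · exact absurd c3 (Nat.mul_lt_mul'' (by omega) w).ne'
    · exact w
    · exact absurd c3 (Nat.mul_lt_mul'' (by omega) w).ne
  obtain ⟨c, hc⟩ := dvd_pred d.rot_le fun a ha g n w => by
    obtain ⟨u, hu, r⟩ := s.pair mH d fun q => n (s.nrm mH d q)
    exact (r a w (d.rot_le ha)).resolve_right fun q => d.rot_not ha (q ▸ hu)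
  have c7 := d.three_rot s.big.rd
  by_cases w : ∃ u ∈ T, ∃ x y, cj x M ≠ cj y M ∧ u ∈ cj x M ∧ u ∈ cj y M
  · obtain ⟨u, hu, x, y, n, ux, uy⟩ := w
    have k : ∀ g, ∀ v ∈ T, v ∈ cj g M → g⁻¹ * v * g ∈ T' := fun g v hv vg => by
      obtain ⟨h, rfl⟩ := s.cls mH d hu hv
      have : ∀ z, u ∈ cj z M → cj (h * z) M ≠ cj g M → g⁻¹ * (h * u * h⁻¹) * g ∈ T' := fun z a b => by
        obtain ⟨r, hr, e⟩ := s.pair mM d' (g := g⁻¹ * (h * z)) fun q =>
          b (by rw [← cj_cj_inv g (cj (h * z) M), ← cj_mul g⁻¹, q])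
        refine (e _ ?_ (mem_cj.1 vg)).elim (fun q => (d.ne hv ?_).elim) fun q => q ▸ hr
        · rw [mem_cj, show (g⁻¹ * (h * z))⁻¹ * (g⁻¹ * (h * u * h⁻¹) * g) * (g⁻¹ * (h * z)) =
            z⁻¹ * u * z by group]
          exact mem_cj.1 a
        · rw [show h * u * h⁻¹ = g * (g⁻¹ * (h * u * h⁻¹) * g) * g⁻¹ by group, q]; group
      by_cases q : cj (h * x) M = cj g M
      · exact this y uy fun q' => n (cj_inj h (by rw [← cj_mul, ← cj_mul, q, q']))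
      · exact this x ux q
    obtain ⟨b, hb⟩ : Nat.card (rot T) ∣ M.index := dvd_index fun a ha g w => by
      obtain ⟨v, hv, vg⟩ := d.cov _ (mM.cj g).1
      refine s.ti H _ T _ mH (mM.cj g) d (d'.cj g) (nM g).symm a ha ?_
      rw [← d.can hv a]
      exact (d'.cj g).mul_rot (k g _ ((rot_mul ha).2 hv) (mul_mem w vg)) (k g v hv vg)
    have : Nat.card (rot T) ∣ 1 := (Nat.dvd_add_right (Dvd.intro c rfl)).1 (Dvd.intro b (by omega))
    have := Nat.le_of_dvd one_pos this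
    omega
  · choose r hr hr' using fun g => d.cov _ (mM.cj g).1
    obtain ⟨t, ht⟩ := d.some
    have : M.index ≤ Nat.card (rot T) := Nat.card_le_card_of_injective
      (fun x : G ⧸ M => (⟨_, d.mul_rot (hr x.out) ht⟩ : rot T)) fun x y q => by
        have q : r x.out = r y.out := mul_right_cancel (congrArg Subtype.val q)
        rw [← x.out_eq', ← y.out_eq']
        refine QuotientGroup.eq.2 (s.nrm' mM d' ?_)
        by_contra n
        exact w ⟨_, hr _, _, _, n, hr' _, q ▸ hr' _⟩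
    rcases c with _ | c
    · omega
    · rw [Nat.mul_succ] at hc
      omega

omit s in
/-- the last step -/
theorem endA (s : F.StA) (tr : F.PTr) (ti : F.PTI) (ne : F.PNE) (mH : F.Mem H) (d : F.DT H T) :
    False := StE.four ⟨s, tr, ti, ne⟩ mH d

end Fam

end Pool.Agent.Lib.MP_3cc314_lc.Cg
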