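import Pool.Agent.Lib.MP_3cc314_lc.CgAS

set_option autoImplicit false

namespace Pool.Agent.Lib.MP_3cc314_lc.Cg
open scoped Classical

variable {G : Type} [Group G]

/-- the group is the product of the two subgroups -/
def FE (H K : Subgroup G) : Prop := ∀ g, ∃ h ∈ H, ∃ k ∈ K, g = h * k

theorem FE.symm {H K : Subgroup G} (f : FE H K) : FE K H := fun g => by
  obtain ⟨h, a, k, b, e⟩ := f g⁻¹
  exact ⟨k⁻¹, K.inv_mem b, h⁻¹, H.inv_mem a, by rw [← mul_inv_rev, ← e, inv_inv]⟩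

theorem smul_fix {K : Subgroup G} {a g : G} : a • (g : G ⧸ K) = g ↔ a ∈ cj g K := by
  change ((a * g : G) : G ⧸ K) = g ↔ _
  rw [eq_comm, QuotientGroup.eq, mem_cj, mul_assoc]

/-- a group acting freely on an invariant set divides its size -/
theorem free_dvd {K : Subgroup G} (A : Subgroup G) (S : Set (G ⧸ K))
    (i : ∀ a ∈ A, ∀ x ∈ S, a • x ∈ S) (f : ∀ a ∈ A, ∀ g : G, (g : G ⧸ K) ∈ S → a ∈ cj g K → a = 1) :
    Nat.card A ∣ S.ncard := by
  let S' : SubMulAction A (G ⧸ K) := ⟨S, fun a x hx => i a.1 a.2 x hx⟩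
  have := Nat.card_congr (MulAction.selfEquivOrbitsQuotientProd (G := A) (X := S') fun x =>
    eq_bot_iff.2 fun a ha => by
      obtain ⟨x, hx⟩ := x
      obtain ⟨g, rfl⟩ := QuotientGroup.mk_surjective x
      exact Subtype.ext (f a.1 a.2 g hx (smul_fix.1 (congrArg Subtype.val ha))))
  rw [Nat.card_prod] at this
  exact Dvd.intro_left _ this.symm

theorem dvd_index {K A : Subgroup G} (f : ∀ a ∈ A, ∀ g : G, a ∈ cj g K → a = 1) :
    Nat.card A ∣ K.index := by
  have := free_dvd (K := K) A Set.univ (fun _ _ _ _ => trivial) fun a h g _ => f a h g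
  rwa [Set.ncard_univ] at this

theorem ncard_ne [Finite G] {K : Subgroup G} (x : G ⧸ K) : {y | y ≠ x}.ncard + 1 = K.index := by
  have := Set.ncard_add_ncard_compl ({x} : Set (G ⧸ K))
  rw [Set.ncard_singleton, add_comm] at this
  exact this

theorem dvd_pred [Finite G] {K A : Subgroup G} (l : A ≤ K)
    (f : ∀ a ∈ A, ∀ g : G, g ∉ K → a ∈ cj g K → a = 1) : ∃ c, Nat.card A * c + 1 = K.index := by
  obtain ⟨c, e⟩ := free_dvd (K := K) A {y | y ≠ ((1 : G) : G ⧸ K)} (fun a h x n q => n (by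
    have : a • ((1 : G) : G ⧸ K) = (1 : G) := smul_fix.2 (by rw [cj_one]; exact l h)
    exact smul_left_cancel a (q.trans this.symm))) fun a h g n =>
      f a h g fun c => n (QuotientGroup.eq.2 (by simpa using c))
  exact ⟨c, e ▸ ncard_ne _⟩

/-- the orbit of the base point has half the order -/
theorem card_orb [Finite G] {H K : Subgroup G} {t : G} (e : Tr K H t) (a : t ∈ H) (b : t ∈ K)
    (n : t ≠ 1) {S : Set (G ⧸ K)} (hS : ∀ g : G, (g : G ⧸ K) ∈ S ↔ ∃ h ∈ H, ∃ k ∈ K, g = h * k) :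
    Nat.card H = 2 * S.ncard := by
  have o : MulAction.orbit H ((1 : G) : G ⧸ K) = S := Set.ext fun x => by
    obtain ⟨g, rfl⟩ := QuotientGroup.mk_surjective x
    rw [hS]
    refine ⟨fun ⟨h, q⟩ => ⟨h.1, h.2, _, QuotientGroup.eq.1 q, by simp⟩, fun ⟨h, c, k, d, q⟩ =>
      ⟨⟨h, c⟩, QuotientGroup.eq.2 (by simpa [q] using d)⟩⟩
  have s : Nat.card (MulAction.stabilizer H ((1 : G) : G ⧸ K)) = 2 := by
    refine Nat.card_eq_two_iff.2 ⟨1, ⟨⟨t, a⟩, smul_fix.2 (by rwa [cj_one])⟩, fun q =>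
      n (congrArg (fun x => x.1.1) q).symm, Set.eq_univ_of_forall fun x => ?_⟩
    have := smul_fix.1 x.2
    rw [cj_one] at this
    exact (e _ this x.1.2).imp (fun q => Subtype.ext (Subtype.ext q)) fun q =>
      Subtype.ext (Subtype.ext q)
  rw [← o, ← MulAction.index_stabilizer, ← s, Subgroup.card_mul_index]

theorem E4.not_tr {e : V4 × V4 → G} (E : E4 e) {M : V4 × V4} {K L : Subgroup G} {t : G}
    (a : E.pl M ≤ K) (b : E.pl M ≤ L) : ¬Tr K L t := fun r => by
  have k : ∀ i : V4, i ≠ 0 → e (i, lin4 M i) = t := fun i n =>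
    have := E.mem_pl.2 (show gr4 M (i, lin4 M i) from rfl)
    (r _ (a this) (b this)).resolve_left fun q => n (congrArg Prod.fst (E.eq_one.1 q))
  have : ((1, 0) : V4) = (0, 1) :=
    congrArg Prod.fst (E.inj ((k (1, 0) (by decide)).trans (k (0, 1) (by decide)).symm))
  revert this
  decide

namespace Fam
variable {F : Fam G} {H K N P : Subgroup G} {T T' : Set G} {t : G}

theorem DT.three_rot [Finite G] (d : F.DT H T) (r : F.Rd) : 3 ≤ Nat.card (rot T) := by
  obtain ⟨a, ha⟩ := d.some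
  obtain ⟨b, hb, n, -⟩ := d.three r (d.ne ha) (d.ne ha)
  obtain ⟨c, hc, n1, n2⟩ := d.three r (d.ne ha) (d.ne hb)
  have := Fintype.ofFinite (rot T)
  rw [Nat.card_eq_fintype_card]
  exact Fintype.two_lt_card_iff.2 ⟨⟨_, d.mul_rot ha ha⟩, ⟨_, d.mul_rot hb ha⟩, ⟨_, d.mul_rot hc ha⟩,
    fun q => n (mul_right_cancel (congrArg Subtype.val q)).symm,
    fun q => n1 (mul_right_cancel (congrArg Subtype.val q)).symm,
    fun q => n2 (mul_right_cancel (congrArg Subtype.val q)).symm⟩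

/-- rotations act freely across a factorising edge -/
theorem DT.fe_dvd (d : F.DT H T) (m : K ∈ F.s) (e : Tr K H t) (f : FE H K) :
    Nat.card (rot T) ∣ K.index := dvd_index fun a ha g c => by
  obtain ⟨h, u, k, v, rfl⟩ := f g
  rw [cj_mul, cj_of_mem v, mem_cj] at c
  rcases e _ c (H.mul_mem (H.mul_mem (H.inv_mem u) (d.rot_le ha)) u) with q | q
  · rw [show a = h * (h⁻¹ * a * h) * h⁻¹ by group, q]; group
  · have := d.cjm u (d.mem_of m e).1
    rw [← q, show h * (h⁻¹ * a * h) * h⁻¹ = a by group] at this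
    exact (d.rot_not ha this).elim

theorem DT.fe_card [Finite G] (d : F.DT H T) (m : K ∈ F.s) (e : Tr K H t) (f : FE H K) :
    Nat.card H = 2 * K.index := by
  have k := d.mem_of m e
  rw [card_orb e (d.le k.1) k.2 (d.ne k.1) (S := Set.univ) fun g => iff_of_true trivial (f g),
    Set.ncard_univ]
  rfl

/-- all the facts used in the last step -/
structure StE (F : Fam G) : Prop extends F.StA where
  tr : F.PTr
  ti : F.PTI
  ne : F.PNE

variable [Finite G] (s : F.StE)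
include s

theorem StE.neq (d : F.DT H T) (e : Tr K H t) : K ≠ H := fun q =>
  d.not_tr s.big.rd (fun _ c => q ▸ d.le c) e

/-- members are self-normalising -/
theorem StE.nrm (m : F.Mem H) (d : F.DT H T) {g : G} (hg : cj g H = H) : g ∈ H := by
  obtain ⟨t, ht⟩ := d.some
  have ne : Subgroup.normalizer (H : Set G) ≠ ⊤ := fun q => by
    have c : ∀ K, t ∈ K → Tr K H t → K ≤ Subgroup.centralizer {t} := fun K a e k b => by
      have : k * t * k⁻¹ ∈ H := by
        have w : cj k H = H := cj_eq_iff.2 (q ▸ Subgroup.mem_top k)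
        exact w ▸ (conj_mem_cj k).2 (d.le ht)
      rcases e _ (K.mul_mem (K.mul_mem b a) (K.inv_mem b)) this with w | w
      · exact (d.ne ht (by simpa using w)).elim
      · rintro _ rfl
        exact (mul_inv_eq_iff_eq_mul.1 w).symm
    obtain ⟨K, mK, a, e⟩ := d.exm ht
    obtain ⟨N, mN, e1, e2⟩ := s.tr H H T t K m d m.1 d ht mK e
    obtain ⟨T', d', -⟩ := s.toStA.nb mK m.1 (Tr.symm e)
    have := s.toStA.sup mK mN d' e2 (c K a e) (c N (d.mem_of mN.1 e1).2 e1)
    obtain ⟨x, hx⟩ := s.nc H T m d t ht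
    exact hx ((this ▸ Subgroup.mem_top x : x ∈ Subgroup.centralizer {t}) t rfl).symm
  obtain ⟨P, mP, -, e⟩ := (s.toStA.over m d Subgroup.le_normalizer ne).exm ht
  have e' : Tr P H t := Tr.mono e Subgroup.le_normalizer
  rcases s.ne H P T t m mP d e' g with ⟨h, a, p, b, rfl⟩ | q
  · rcases e p b ((Subgroup.mul_mem_cancel_left _ (Subgroup.le_normalizer a)).1 (cj_eq_iff.1 hg))
      with rfl | rfl
    exacts [H.mul_mem a H.one_mem, H.mul_mem a (d.le ht)]
  · exact (s.neq d e' (cj_inj g (q.trans hg.symm))).elim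

theorem StE.nrm' (m : F.Mem H) (d : F.DT H T) {g g' : G} (hg : cj g H = cj g' H) : g⁻¹ * g' ∈ H :=
  s.nrm m d (by rw [cj_mul, ← hg, cj_inv_cj])

/-- an edge that is not a factorisation -/
theorem StE.sc (mH : F.Mem H) (mK : F.Mem K) (d : F.DT H T) (e : Tr K H t) (f : ¬FE H K) :
    (∃ g, cj g K = H) ∧ 2 * H.index = Nat.card H + 2 ∧ 2 * K.index = Nat.card K + 2 := by
  obtain ⟨g, hg⟩ := not_forall.1 f
  have q := (s.ne H K T t mH mK d e g).resolve_left hg
  obtain ⟨T', d', -⟩ := s.toStA.nb mK mH.1 e.symm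
  have k := d.mem_of mK.1 e
  have c1 := card_orb e (d.le k.1) k.2 (d.ne k.1) (S := {y | y ≠ (g : G ⧸ K)}) fun x =>
    ⟨fun n => (s.ne H K T t mH mK d e x).resolve_right fun w =>
      n (QuotientGroup.eq.2 (s.nrm' mK d' (w.trans q.symm))), fun ⟨h, a, k, b, w⟩ n =>
      hg ⟨h, a, k * (x⁻¹ * g), K.mul_mem b (QuotientGroup.eq.1 n), by
        rw [← mul_assoc, ← w, mul_inv_cancel_left]⟩⟩
  have c2 := ncard_ne (g : G ⧸ K)
  have c3 : Nat.card H = Nat.card K := by rw [← q, card_cj]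
  have c4 : H.index = K.index := Nat.eq_of_mul_eq_mul_left (Nat.card_pos (α := K)) (by
    rw [K.card_mul_index, ← c3, H.card_mul_index])
  exact ⟨⟨g, q⟩, by omega, by omega⟩

/-- step (1) -/
theorem StE.one (m : F.Mem H) (d : F.DT H T) (o : ∀ K t, F.Mem K → Tr K H t → FE H K) :
    ∃ c, Nat.card (rot T) * c + 1 = H.index := dvd_pred d.rot_le fun a ha g n c => by
  have k : ∀ x ∈ T, x ∈ cj g H → g⁻¹ * x * g ∈ T := fun x u v => by
    obtain ⟨K, mK, w, e⟩ := d.exm u
    obtain ⟨k, a, h, b, rfl⟩ := (o K x mK e).symm g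
    rw [cj_mul, cj_of_mem b, mem_cj] at v
    have q : k⁻¹ * x * k = x := (e _ (K.mul_mem (K.mul_mem (K.inv_mem a) w) a) v).resolve_left
      fun q => d.ne u (by rw [show x = k * (k⁻¹ * x * k) * k⁻¹ by group, q]; group)
    rw [show (k * h)⁻¹ * x * (k * h) = h⁻¹ * (k⁻¹ * x * k) * h⁻¹⁻¹ by group, q]
    exact d.cjm (H.inv_mem b) u
  obtain ⟨x, u, v⟩ := d.cov _ (m.cj g).1
  refine s.ti H _ T _ m (m.cj g) d (d.cj g) (fun q => n (s.nrm m d q.symm)) a ha ?_
  rw [← d.can u a]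
  exact (d.cj g).mul_rot (k _ ((rot_mul ha).2 u) (mul_mem c v)) (k x u v)

/-- step (3) -/
theorem StE.three (mH : F.Mem H) (mP : F.Mem P) (d : F.DT H T) (e : Tr P H t) (f : FE H P)
    (c : 2 * H.index = Nat.card H + 2) : False := by
  obtain ⟨T', d', -⟩ := s.toStA.nb mP mH.1 e.symm
  have c1 := d.fe_card mP.1 e f
  have c2 := d'.fe_card mH.1 e.symm f.symm
  obtain ⟨a, ha⟩ := s.one mP d' fun K t mK e => by
    by_contra n
    have := (s.sc mP mK d' e n).2.1
    omega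
  obtain ⟨b, hb⟩ := d'.fe_dvd mH.1 e.symm f.symm
  have := d'.three_rot s.big.rd
  have : Nat.card (rot T') ∣ 2 := (Nat.dvd_add_right (Dvd.intro a rfl)).1 (Dvd.intro b (by omega))
  have := Nat.le_of_dvd two_pos this
  omega

/-- steps (2) and (3): no edge is a factorisation -/
theorem StE.nf (mH : F.Mem H) (d : F.DT H T) (mP : F.Mem P) (e : Tr P H t) : ¬FE H P := fun f => by
  have o : ∀ K t, F.Mem K → Tr K H t → FE H K := fun K t mK e' => by
    by_contra n
    exact s.three mH mP d e f (s.sc mH mK d e' n).2.1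
  obtain ⟨N, mN, e1, e2⟩ := s.tr H H T t P mH d mH.1 d (d.mem_of mP.1 e).1 mP e
  obtain ⟨T', d', -⟩ := s.toStA.nb mP mH.1 e.symm
  have f' : FE P N := by
    by_contra n
    exact s.three mP mH d' e.symm f.symm (s.sc mP mN d' e2 n).2.1
  have c1 := d.fe_card mP.1 e f
  have c2 := d.fe_card mN.1 e1 (o N t mN e1)
  have c3 := d'.fe_card mH.1 e.symm f.symm
  have c4 := d'.fe_card mN.1 e2 f'
  obtain ⟨a, ha⟩ := s.one mH d o
  obtain ⟨b, hb⟩ := d.fe_dvd mP.1 e f
  have := d.three_rot s.big.rd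
  have : Nat.card (rot T) ∣ 1 := (Nat.dvd_add_right (Dvd.intro a rfl)).1 (Dvd.intro b (by omega))
  have := Nat.le_of_dvd one_pos this
  omega

end Fam

end Pool.Agent.Lib.MP_3cc314_lc.Cg
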