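import Pool.Agent.Lib.MP_3cc314_lc.CgDT

set_option autoImplicit false

namespace Pool.Agent.Lib.MP_3cc314_lc.Cg
open scoped Classical

variable {G : Type} [Group G]

namespace Fam
variable {F : Fam G}

/-- a plane is not contained in a group of order two -/
theorem pl_not_two [Finite G] {e : V4 × V4 → G} (E : E4 e) (M : V4 × V4) {t : G}
    (k : ∀ x ∈ E.pl M, x = 1 ∨ x = t) : False := by
  have c := E.card_pl M
  have : Nat.card (E.pl M) ≤ Nat.card ({1, t} : Set G) :=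
    Nat.card_mono (Set.toFinite _) fun x hx => k x hx
  have h2 : Nat.card ({1, t} : Set G) ≤ 2 := by
    rw [Nat.card_coe_set_eq]
    exact (Set.ncard_insert_le _ _).trans (by simp)
  omega

/-- the reflections of an overgroup lie in every member below it -/
theorem DT.sub_mem {J P : Subgroup G} {T : Set G} (d : F.DT J T) (hA : ∀ H M, ¬F.Reg H M)
    (mP : F.Mem P) (l : P ≤ J) : T ⊆ P := fun t ht => by
  obtain ⟨W, m, -, k⟩ := d.exm ht
  by_contra n
  refine hA W P ⟨m, mP, eq_bot_iff.2 fun x hx => ?_⟩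
  exact (k x hx.1 (l hx.2)).resolve_right fun q => n (q ▸ hx.2)

/-- the planes of an overgroup lie in every sporadic subgroup -/
theorem B4T.pl_le [Finite G] {J P : Subgroup G} (p : F.B4T P) (l : P ≤ J) {e : V4 × V4 → G}
    (E : E4 e) {M : V4 × V4} {W : Subgroup G} (m : W ∈ F.s) (k : W ⊓ J ≤ E.pl M) : E.pl M ≤ P := by
  obtain ⟨e', E', h4, -, h6⟩ := p
  obtain ⟨M', -, a⟩ := h6 W m
  have c : E'.pl M' ≤ P := E'.pl_le.2 fun p _ => h4 p
  have : E'.pl M' = E.pl M := Subgroup.eq_of_le_of_card_ge ((le_inf a (c.trans l)).trans k)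
    (by rw [E.card_pl, E'.card_pl])
  exact this ▸ c

/-- two members below a proper subgroup whose intersection lies in a dihedral face -/
theorem Big.inter [Finite G] (b : F.Big) (hA : ∀ H M, ¬F.Reg H M)
    (nB : ∀ H T L, F.Mem H → F.DT H T → F.Cl L → L ≠ ⊤ → T ⊆ L → ¬F.B4T L)
    {P Q J H : Subgroup G} {T : Set G} (mP : F.Mem P) (mQ : F.Mem Q) (lP : P ≤ J) (lQ : Q ≤ J)
    (ne : J ≠ ⊤) (d : F.DT H T) (l : P ⊓ Q ≤ H) : F.DT J T := by
  have cJ : F.Cl J := cl_of_mem (F.up mP.1 lP)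
  rcases b.sub cJ ne with ⟨W, m, e⟩ | a | a
  · exact (hA W P ⟨m, mP, eq_bot_iff.2 (e ▸ inf_le_inf_left W lP)⟩).elim
  · obtain ⟨T', d'⟩ := dihT_iff.1 a
    exact d'.uniq d (fun t ht => l ⟨d'.sub_mem hA mP lP ht, d'.sub_mem hA mQ lQ ht⟩) ▸ d'
  · have k : ∀ R, F.Mem R → R ≤ J → F.B4T R := fun R m lR =>
      (b.typ hA m (b.ne_top m)).resolve_left fun ⟨T', d'⟩ =>
        nB R T' J m d' cJ ne (fun _ h => lR (d'.le h)) a
    obtain ⟨e, E, -, h5, h6⟩ := a
    obtain ⟨t, ht⟩ := d.some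
    obtain ⟨W, m, -, q⟩ := d.exm ht
    obtain ⟨M, g, lM⟩ := h6 W m.1
    obtain ⟨W', m', c⟩ := h5 M g
    exact (pl_not_two E M fun x hx => q x (lM hx)
      (l ⟨(k P mP lP).pl_le lP E m'.1 c hx, (k Q mQ lQ).pl_le lQ E m'.1 c hx⟩)).elim

end Fam

end Pool.Agent.Lib.MP_3cc314_lc.Cg
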