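import Pool.Agent.Lib.MP_3cc314_lc.CgDT

set_option autoImplicit false

namespace Pool.Agent.Lib.MP_3cc314_lc.Cg
open scoped Classical

variable {G : Type} [Group G]

namespace Fam
variable {F : Fam G} {H K N : Subgroup G} {t : G}

/-- two members that meet in a group of order two -/
structure Ed (F : Fam G) (H K : Subgroup G) (t : G) : Prop where
  mh : F.Mem H
  mk1 : F.Mem K
  ne : t ≠ 1
  th : t ∈ H
  tk : t ∈ K
  tr : ∀ x ∈ K, x ∈ H → x = 1 ∨ x = t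

/-- the generic situation of case (A) -/
structure Gen (F : Fam G) : Prop where
  sf : F.SF
  typ : ∀ {H K t}, F.Ed H K t → ∃ T, F.DT H T
  gen : ∀ {H K t}, F.Ed H K t → H ⊔ K = ⊤
  tri : ∀ {H K t}, F.Ed H K t → ∃ N, F.Ed H N t ∧ F.Ed K N t
  nc : ∀ {H K t}, F.Ed H K t → ∃ g, g * t ≠ t * g
  ti : ∀ {P Q T T' s s'}, F.Mem P → F.Mem Q → F.DT P T → F.DT Q T' → s ∈ T → s' ∈ T → s ∈ T' →
    s' ∈ T' → s ≠ s' → P = Q

namespace Ed
variable (e : F.Ed H K t)
include e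

theorem symm : F.Ed K H t := ⟨e.mk1, e.mh, e.ne, e.tk, e.th, fun x a b => e.tr x b a⟩

theorem sq : t * t = 1 :=
  (e.tr _ (K.mul_mem e.tk e.tk) (H.mul_mem e.th e.th)).resolve_right fun d => e.ne (mul_eq_left.1 d)

theorem cj (g : G) : F.Ed (cj g H) (cj g K) (g * t * g⁻¹) :=
  ⟨e.mh.cj g, e.mk1.cj g, fun d => e.ne (by simpa using d), (conj_mem_cj g).2 e.th,
    (conj_mem_cj g).2 e.tk, fun x a b => (e.tr _ (mem_cj.1 a) (mem_cj.1 b)).imp
      (fun d => by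
        have : x = g * (g⁻¹ * x * g) * g⁻¹ := by group
        rw [this, d]; group)
      fun d => by rw [← d]; group⟩

theorem mem {T : Set G} (d : F.DT H T) : t ∈ T := (d.mem_of e.mk1.1 e.tr).1

theorem both {x : G} (a : x ∈ H) (b : x ∈ K) {U : Subgroup G} (u : t ∈ U) : x ∈ U :=
  (e.tr x b a).elim (fun d => d ▸ U.one_mem) fun d => d ▸ u

/-- a conjugate of `t` in the intersection -/
theorem comm {x : G} (a : x⁻¹ * t * x ∈ H) (b : x⁻¹ * t * x ∈ K) : x * t = t * x := by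
  rcases e.tr _ b a with d | d
  · refine (e.ne ?_).elim
    have : t = x * (x⁻¹ * t * x) * x⁻¹ := by group
    rw [this, d]; group
  · nth_rw 1 [← d]; group

theorem typ_of [Finite G] (b : F.Big) (hA : ∀ H M, ¬F.Reg H M) : ∃ T, F.DT H T := by
  refine (b.typ hA e.mh (b.ne_top e.mh)).resolve_right fun ⟨c, E, h1, _, h2⟩ => ?_
  obtain ⟨M, -, l⟩ := h2 K e.mk1.1
  have k : ∀ i : V4, c (i, lin4 M i) = 1 ∨ c (i, lin4 M i) = t := fun i =>
    e.tr _ (l (E.mem_pl.2 rfl)) (h1 _)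
  have j : ∀ i i' : V4, c (i, lin4 M i) = c (i', lin4 M i') → i = i' := fun i i' d =>
    congrArg Prod.fst (E.inj d)
  rcases k (0, 0) with a | a <;> rcases k (1, 0) with a' | a' <;> rcases k (0, 1) with a'' | a''
  all_goals first
    | exact absurd (j _ _ (a.trans a'.symm)) (by decide)
    | exact absurd (j _ _ (a.trans a''.symm)) (by decide)
    | exact absurd (j _ _ (a'.trans a''.symm)) (by decide)

theorem gen_of [Finite G] (b : F.Big) (hA : ∀ H M, ¬F.Reg H M)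
    (nB : ∀ H T, F.Mem H → F.DT H T → ∀ L, F.Cl L → L ≠ ⊤ → T ⊆ L → ¬F.B4T L) : H ⊔ K = ⊤ := by
  by_contra n
  obtain ⟨T, d⟩ := e.typ_of b hA
  obtain ⟨T', d'⟩ := e.symm.typ_of b hA
  have c : F.Cl (H ⊔ K) := cl_of_mem (F.up e.mh.1 le_sup_left)
  have l : T ⊆ (H ⊔ K : Subgroup G) := fun s hs => Subgroup.mem_sup_left (d.le hs)
  have d1 := (b.cl d c n l).resolve_right (nB H T e.mh d _ c n l)
  have q : T = T' := d'.uniq d1 fun s hs => Subgroup.mem_sup_right (d'.le hs)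
  obtain ⟨v, hv, a, -⟩ := d.three b.rd e.ne e.ne
  exact (e.tr v (d'.le (q ▸ hv)) (d.le hv)).elim (d.ne hv) a

end Ed

variable [Finite G]

/-- the thin coset through a point outside the product set -/
theorem Gen.thin (g : F.Gen) (e : F.Ed H K t) (e1 : F.Ed H N t) (e2 : F.Ed K N t) {n : G}
    (hn : n ∈ N) (nX : n ∉ gX H K) : ∃ M, F.Ed K M t ∧ F.Ed H (Cg.cj n M) t ∧ M ≠ N ∧
      ∀ m ∈ M, m ∈ N ∨ n * m ∈ gX H K := by
  let f : G → ℤ := fun y => iz 1 N y + (if y ∈ gX H K then 1 else 0) - iz 1 H y - iz 1 K y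
  have hf : F.Sp f := (((Sp.iz e1.mk1.1 1).add (Sp.of_inv e.mk1.1
    (f := fun y => if y ∈ gX H K then 1 else 0) fun x u hu => by rw [gX_r hu])).sub
    (Sp.iz e.mh.1 1)).sub (Sp.iz e.mk1.1 1)
  have k : ∀ y, 0 ≤ f y ∧ (0 < f y → y ∈ N ∨ y ∈ gX H K) ∧ (y ∈ N → y ∉ gX H K → 0 < f y) ∧
      (y ∈ H → y ∈ K → f y = 0) := fun y => by
    have a1 : y ∈ H → y ∈ gX H K := gX_left
    have a2 : y ∈ K → y ∈ gX H K := gX_right
    have a3 : y ∈ H → y ∈ K → y ∈ N := fun a b => e.both a b e1.tk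
    simp only [f, iz_one]
    by_cases y ∈ N <;> by_cases y ∈ gX H K <;> by_cases y ∈ H <;> by_cases y ∈ K <;> simp_all
  obtain ⟨M, m, s, -⟩ := g.sf.cos hf (fun y => (k y).1) ((k n).2.2.1 hn nX)
  have s1 : ∀ x ∈ M, x ∈ N ∨ n * x ∈ gX H K := fun x hx =>
    ((k _).2.1 (s x hx)).imp_left (N.mul_mem_cancel_left hn).1
  have t1 : ∀ x ∈ M, x ∈ K → x = 1 ∨ x = t := fun x hx xK =>
    e2.tr x ((s1 x hx).resolve_right fun d => nX ((gX_r xK).1 d)) xK
  have t2 : ∀ x ∈ Cg.cj n M, x ∈ H → x = 1 ∨ x = t := fun x hx xH => by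
    have := s1 _ (mem_cj.1 hx)
    rw [N.mul_mem_cancel_right hn, N.mul_mem_cancel_left (N.inv_mem hn), ← mul_assoc,
      mul_inv_cancel_left, gX_l xH] at this
    exact e1.tr x (this.resolve_right nX) xH
  obtain ⟨T, d⟩ := g.typ e
  obtain ⟨T', d'⟩ := g.typ e.symm
  refine ⟨M, ⟨e.mk1, m, e.ne, e.tk, (d'.mem_of m.1 t1).2, t1⟩,
    ⟨e.mh, m.cj n, e.ne, e.th, (d.mem_of (m.cj n).1 t2).2, t2⟩, fun q => ?_, s1⟩
  have := s n⁻¹ (q ▸ N.inv_mem hn)
  rw [mul_inv_cancel, (k 1).2.2.2 H.one_mem K.one_mem] at this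
  exact this.false

omit [Finite G] in
/-- two reflections in common -/
theorem Gen.same (g : F.Gen) {P P' Q Q' R R' : Subgroup G} {s : G} (a : F.Ed P Q t)
    (a' : F.Ed P' Q' t) (b : F.Ed P R s) (b' : F.Ed P' R' s) (n : P ≠ P') : s = t := by
  obtain ⟨T, d⟩ := g.typ a
  obtain ⟨T', d'⟩ := g.typ a'
  by_contra c
  exact n (g.ti a.mh a'.mh d d' (b.mem d) (a.mem d) (b'.mem d') (a'.mem d') c)

omit [Finite G] in
theorem Ed.cjl (e : F.Ed H K t) {x : G} (hx : x ∈ H) : F.Ed H (Cg.cj x⁻¹ K) (x⁻¹ * t * x) := by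
  have := e.cj x⁻¹
  rwa [cj_of_mem (H.inv_mem hx), inv_inv] at this

/-- near equality -/
theorem Gen.near (g : F.Gen) (e : F.Ed H K t) (e1 : F.Ed H N t) (e2 : F.Ed K N t) {n : G}
    (hn : n ∈ N) (nX : n ∉ gX H K) : n * t = t * n := by
  obtain ⟨M, a, b, c, -⟩ := g.thin e e1 e2 hn nX
  have b' := b.symm.cj n⁻¹
  rw [cj_inv_cj, inv_inv] at b'
  have := g.same a.symm e1.symm b' (e1.symm.cjl hn) c
  nth_rw 1 [← this]; group

theorem Gen.in2 (g : F.Gen) (e : F.Ed H K t) (e1 : F.Ed H N t) (e2 : F.Ed K N t) {n : G}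
    (hn : n ∈ N) : n ∈ gX H K ∨ Cg.cj n K = H := by
  by_contra c
  push Not at c
  obtain ⟨nX, nH⟩ := c
  have cn := g.near e e1 e2 hn nX
  have cn' : n⁻¹ * t * n = t := by rw [mul_assoc, ← cn, inv_mul_cancel_left]
  obtain ⟨M, a, b, c, s⟩ := g.thin e e1 e2 hn nX
  have b' := b.cj n⁻¹
  rw [cj_inv_cj, inv_inv, cn'] at b'
  have nH' : Cg.cj n⁻¹ H ≠ K := fun d => nH (by rw [← d, cj_cj_inv])
  have mN : ∀ m ∈ M, ∀ x ∈ N, m⁻¹ * t * m = x⁻¹ * t * x → m * t = t * m := fun m hm x hx d => by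
    have := g.same a.symm e1.symm (a.symm.cjl hm) (d ▸ e1.symm.cjl hx) c
    nth_rw 1 [← this]; group
  have h1 : ∀ m ∈ M, m * t ≠ t * m → ∃ h ∈ H, ∃ k ∈ K, h * k = n * m := fun m hm d =>
    (s m hm).resolve_left fun q => d (mN m hm m q rfl)
  have ci : ∀ m : G, m⁻¹ * t = t * m⁻¹ → m * t = t * m := fun m d => by
    rw [← mul_inv_cancel_left m (t * m), ← mul_assoc m⁻¹, d, inv_mul_cancel_right]
  have h2 : ∀ m ∈ M, m * t ≠ t * m → m ∈ gX N K := fun m hm d => by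
    obtain ⟨h, hH, k, kK, q⟩ := h1 m hm d
    have q1 : m = n⁻¹ * h * k := by rw [mul_assoc, q, inv_mul_cancel_left]
    have : h ∈ gX N K := by
      by_contra r
      have r' := g.near e2.symm e1.symm e.symm hH r
      refine d (a.comm ?_ (M.mul_mem (M.mul_mem (M.inv_mem hm) a.tk) hm))
      have : m⁻¹ * t * m = k⁻¹ * t * k := by
        calc _ = k⁻¹ * h⁻¹ * (n * t) * n⁻¹ * h * k := by rw [q1]; group
          _ = k⁻¹ * h⁻¹ * (t * h) * k := by rw [cn]; group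
          _ = _ := by rw [← r']; group
      rw [this]
      exact K.mul_mem (K.mul_mem (K.inv_mem kK) e.tk) kK
    rw [q1]
    exact (gX_tr (N.inv_mem hn) kK).2 this
  have h3 : ∀ m ∈ M, m * t ≠ t * m → ∃ h ∈ H, ∃ x ∈ N, n * m = h * n * x := fun m hm d => by
    obtain ⟨h, hH, k, kK, q⟩ := h1 m hm d
    have q1 : m = n⁻¹ * h * k := by rw [mul_assoc, q, inv_mul_cancel_left]
    have : k ∈ gX H N := by
      by_contra r
      have r' := g.near e1 e e2.symm kK r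
      refine d (ci m (b'.comm ?_ ?_))
      · have : m⁻¹⁻¹ * t * m⁻¹ = n⁻¹ * (h * t * h⁻¹) * n⁻¹⁻¹ := by
          calc _ = n⁻¹ * h * (k * t) * k⁻¹ * h⁻¹ * n := by rw [q1]; group
            _ = _ := by rw [r']; group
        rw [this]
        exact (conj_mem_cj _).2 (H.mul_mem (H.mul_mem hH e.th) (H.inv_mem hH))
      · exact M.mul_mem (M.mul_mem (M.inv_mem (M.inv_mem hm)) a.tk) (M.inv_mem hm)
    obtain ⟨h', hH', x, xN, r⟩ := this
    exact ⟨h * h', H.mul_mem hH hH', n⁻¹ * x, N.mul_mem (N.inv_mem hn) xN, by rw [← q, ← r]; group⟩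
  have h4 : ∀ m ∈ M, m * t = t * m := fun m hm => by
    by_contra d
    obtain ⟨k, kK, x, xN, q⟩ := gX_inv.1 (h2 m⁻¹ (M.inv_mem hm) fun r => d (ci m r))
    obtain ⟨h, hH, y, yN, r⟩ := h3 m hm d
    have r1 : h * (n * y * x⁻¹ * n⁻¹) = n * k * n⁻¹ := by
      calc _ = h * n * y * x⁻¹ * n⁻¹ := by group
        _ = _ := by rw [← r, ← q]; group
    have zN : y * x⁻¹ ∈ N := N.mul_mem yN (N.inv_mem xN)
    by_cases z : y * x⁻¹ * t = t * (y * x⁻¹)
    · have u : k * t * k⁻¹ = n⁻¹ * h * n * t * (n⁻¹ * h * n)⁻¹ := by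
        have : k = n⁻¹ * h * n * (y * x⁻¹) := by
          calc k = n⁻¹ * (n * k * n⁻¹) * n := by group
            _ = _ := by rw [← r1]; group
        calc _ = n⁻¹ * h * n * (y * x⁻¹ * t) * (y * x⁻¹)⁻¹ * (n⁻¹ * h * n)⁻¹ := by rw [this]; group
          _ = _ := by rw [z]; group
      have w1 := b'.cjl (x := (n⁻¹ * h * n)⁻¹) (Subgroup.inv_mem _ (by
        simpa using (conj_mem_cj n⁻¹).2 hH))
      have w2 := e.symm.cjl (K.inv_mem kK)
      rw [inv_inv] at w1 w2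
      have := g.same b' e.symm (u ▸ w1) w2 nH'
      refine d (mN m hm x xN ?_)
      calc _ = x⁻¹ * k⁻¹ * t * k * x := by rw [← q]; group
        _ = x⁻¹ * k⁻¹ * (k * t * k⁻¹) * k * x := by rw [this]
        _ = _ := by group
    · have w : n * (y * x⁻¹) ∈ gX H K := by
        by_contra w
        have := g.near e e1 e2 (N.mul_mem hn zN) w
        refine z (mul_left_cancel (a := n) ?_)
        rw [← mul_assoc, this, ← mul_assoc, ← mul_assoc, ← cn]; group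
      refine nX ((gX_r kK).1 ?_)
      have : n * k = h * (n * (y * x⁻¹)) := by
        calc _ = n * k * n⁻¹ * n := by group
          _ = _ := by rw [← r1]; group
      rw [this]
      exact (gX_l hH).2 w
  obtain ⟨N', a1, a2⟩ := g.tri a
  have h5 : ∀ k ∈ K, k * t = t * k := fun k kK => by
    by_contra d
    obtain ⟨m, hm, x, xN, q⟩ : k ∈ gX M N' := by
      by_contra r
      exact d (g.near a2 a.symm a1.symm kK r)
    refine d (a1.comm (K.mul_mem (K.mul_mem (K.inv_mem kK) e.tk) kK) ?_)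
    have : k⁻¹ * t * k = x⁻¹ * t * x := by
      calc _ = x⁻¹ * m⁻¹ * (t * m) * x := by rw [← q]; group
        _ = _ := by rw [← h4 m hm]; group
    rw [this]
    exact N'.mul_mem (N'.mul_mem (N'.inv_mem xN) a1.tk) xN
  obtain ⟨y, hy⟩ := g.nc e
  have : K ⊔ M ≤ Subgroup.centralizer {t} := sup_le
    (fun k hk => Subgroup.mem_centralizer_singleton_iff.2 (h5 k hk))
    fun m hm => Subgroup.mem_centralizer_singleton_iff.2 (h4 m hm)
  rw [g.gen a] at this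
  exact hy (Subgroup.mem_centralizer_singleton_iff.1 (this (Subgroup.mem_top y)))

/-- every edge is of type F or of type S -/
theorem Gen.fs (g : F.Gen) (e : F.Ed H K t) (x : G) : x ∈ gX H K ∨ Cg.cj x K = H := by
  obtain ⟨N, e1, e2⟩ := g.tri e
  have key : ∀ {A B : Subgroup G}, (∀ n ∈ B, n ∈ gX A K ∨ Cg.cj n K = A) → ∀ a ∈ A, ∀ y,
      y ∈ gX A K ∨ y ∈ gX B K → a * y ∈ gX A K ∨ a * y ∈ gX B K := fun {A B} h a ha y hy => by
    rcases hy with c | ⟨n, hn, k, hk, rfl⟩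
    · exact .inl ((gX_l ha).2 c)
    · rcases h n hn with c | c
      · exact .inl ((gX_l ha).2 ((gX_r hk).2 c))
      · exact .inr ⟨n, hn, n⁻¹ * a * n * k, K.mul_mem (mem_cj.1 (c ▸ ha)) hk, by group⟩
  have i1 := fun n => g.in2 e e1 e2 (n := n)
  have i2 := fun n => g.in2 e2.symm e1.symm e.symm (n := n)
  let V : Subgroup G := finSub {a | ∀ y, y ∈ gX H K ∨ y ∈ gX N K → a * y ∈ gX H K ∨ a * y ∈ gX N K}
    (fun y hy => by rwa [one_mul]) fun a ha b hb y hy => by rw [mul_assoc]; exact ha _ (hb y hy)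
  have l : H ⊔ N ≤ V := sup_le (fun a ha => key i1 a ha)
    fun a ha y hy => (key i2 a ha y hy.symm).symm
  rw [g.gen e1] at l
  rcases l (Subgroup.mem_top x) 1 (.inl (gX_left H.one_mem)) with c | ⟨n, hn, k, hk, c⟩
  · exact .inl (by rwa [mul_one] at c)
  · rw [mul_one] at c
    rw [← c, cj_mul, cj_of_mem hk, gX_r hk]
    exact i1 n hn

end Fam

end Pool.Agent.Lib.MP_3cc314_lc.Cg
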