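import Pool.Agent.Lib.MP_3cc314_lc.CgDT

set_option autoImplicit false

namespace Pool.Agent.Lib.MP_3cc314_lc.Cg
open scoped Classical

variable {G : Type} [Group G]

/-- the trace of `W` on `L` lies in the group generated by the involution `t` -/
def Tr (W L : Subgroup G) (t : G) : Prop := ∀ x ∈ W, x ∈ L → x = 1 ∨ x = t

theorem Tr.symm {W L : Subgroup G} {t : G} (h : Tr W L t) : Tr L W t := fun x a b => h x b a

theorem Tr.mono {W L L' : Subgroup G} {t : G} (h : Tr W L t) (l : L' ≤ L) : Tr W L' t :=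
  fun x a b => h x a (l b)

theorem Tr.cj {W L : Subgroup G} {t : G} (h : Tr W L t) (g : G) :
    Tr (cj g W) (cj g L) (g * t * g⁻¹) := fun x a b =>
  (h _ (mem_cj.1 a) (mem_cj.1 b)).imp
    (fun q => by rw [show x = g * (g⁻¹ * x * g) * g⁻¹ by group, q]; group) fun q => by rw [← q]; group

namespace Fam
variable (F : Fam G)

/-- the standing hypotheses in the case without regular pairs -/
structure StA : Prop where
  big : F.Big
  na : ∀ H M, ¬F.Reg H M
  nB : ∀ H T L, F.Mem H → F.DT H T → F.Cl L → L ≠ ⊤ → T ⊆ L → ¬F.B4T L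
  nc : ∀ H T, F.Mem H → F.DT H T → ∀ t ∈ T, ∃ g, g * t ≠ t * g

/-- every edge lies in a triple -/
def PTr : Prop := ∀ H L T t K, F.Mem H → F.DT H T → L ∈ F.s → F.DT L T → t ∈ T → F.Mem K →
  Tr K L t → ∃ N, F.Mem N ∧ Tr N L t ∧ Tr N K t

/-- one member over each set of reflections -/
def PU : Prop := ∀ H K T, F.Mem H → F.Mem K → F.DT H T → T ⊆ K → K = H

/-- different members have no common rotation -/
def PTI : Prop := ∀ H K T T', F.Mem H → F.Mem K → F.DT H T → F.DT K T' → H ≠ K →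
  ∀ a, a ∈ rot T → a ∈ rot T' → a = 1

/-- every edge is a factorisation up to the elements that carry `K` to `H` -/
def PNE : Prop := ∀ H K T t, F.Mem H → F.Mem K → F.DT H T → Tr K H t →
  ∀ g, (∃ h ∈ H, ∃ k ∈ K, g = h * k) ∨ cj g K = H

variable {F} {H K L : Subgroup G} {T : Set G} {t : G}

/-- the conjugate set of reflections -/
theorem DT.cj (d : F.DT L T) (g : G) : F.DT (cj g L) {x | g⁻¹ * x * g ∈ T} := by
  refine ⟨fun t ht => ⟨mem_cj.2 (d.le ht), fun q => d.ne ht (by rw [q]; group), ?_, ?_⟩,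
    fun U m => ?_, fun s a t b u c => ?_⟩
  · calc t * t = g * (g⁻¹ * t * g * (g⁻¹ * t * g)) * g⁻¹ := by group
      _ = 1 := by rw [d.sq ht]; group
  · obtain ⟨W, m, -, e⟩ := d.exm ht
    have := Tr.cj e g
    rw [show g * (g⁻¹ * t * g) * g⁻¹ = t by group] at this
    exact ⟨_, m.cj g, this⟩
  · obtain ⟨t, a, b⟩ := d.cov _ (F.conj g⁻¹ m)
    refine ⟨g * t * g⁻¹, ?_, by simpa using mem_cj.1 b⟩
    change g⁻¹ * (g * t * g⁻¹) * g ∈ T
    rwa [show g⁻¹ * (g * t * g⁻¹) * g = t by group]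
  · change g⁻¹ * (s * t * u) * g ∈ T
    rw [show g⁻¹ * (s * t * u) * g = g⁻¹ * s * g * (g⁻¹ * t * g) * (g⁻¹ * u * g) by group]
    exact d.tri _ a _ b _ c

/-- a trace of order two contains no plane -/
theorem B4T.not_tr (b : F.B4T L) (m : K ∈ F.s) : ¬Tr K L t := fun e => by
  obtain ⟨f, E, l, -, h⟩ := b
  obtain ⟨M, -, p⟩ := h K m
  have k : ∀ i : V4, i ≠ 0 → f (i, lin4 M i) = t := fun i n =>
    (e _ (p (E.mem_pl.2 (show gr4 M (i, lin4 M i) from rfl))) (l _)).resolve_left fun q =>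
      n (congrArg Prod.fst (E.eq_one.1 q))
  have : ((1, 0) : V4) = (0, 1) :=
    congrArg Prod.fst (E.inj ((k (1, 0) (by decide)).trans (k (0, 1) (by decide)).symm))
  revert this
  decide

/-- neighbours are of dihedral type -/
theorem StA.nb [Finite G] (s : F.StA) (m : F.Mem K) (u : H ∈ F.s) (e : Tr H K t) :
    ∃ T, F.DT K T ∧ t ∈ T := by
  obtain ⟨T, d⟩ := (s.big.typ s.na m (s.big.ne_top m)).resolve_right fun b => b.not_tr u e
  exact ⟨T, d, (d.mem_of u e).1⟩

/-- a proper subgroup over a member of dihedral type -/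
theorem StA.over [Finite G] (s : F.StA) (m : F.Mem H) (d : F.DT H T) (l : H ≤ L) (ne : L ≠ ⊤) :
    F.DT L T :=
  have c := cl_of_mem (F.up m.1 l)
  have h : T ⊆ L := fun _ a => l (d.le a)
  (s.big.cl d c ne h).resolve_right (s.nB H T L m d c ne h)

/-- the reflections do not fit into a trace of order two -/
theorem DT.not_tr [Finite G] (d : F.DT L T) (r : F.Rd) (h : T ⊆ K) : ¬Tr K L t := fun e => by
  obtain ⟨a, ha⟩ := d.some
  obtain ⟨b, hb, n, -⟩ := d.three r (d.ne ha) (d.ne ha)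
  exact n (((e b (h hb) (d.le hb)).resolve_left (d.ne hb)).trans
    ((e a (h ha) (d.le ha)).resolve_left (d.ne ha)).symm)

/-- the two ends of an edge generate the group -/
theorem StA.sup [Finite G] (s : F.StA) (mH : F.Mem H) (mK : F.Mem K) (d : F.DT H T)
    (e : Tr K H t) (a : H ≤ L) (b : K ≤ L) : L = ⊤ := by
  by_contra ne
  obtain ⟨T', d', -⟩ := s.nb mK mH.1 e.symm
  obtain rfl : T' = T := d.uniq (s.over mK d' b ne) fun _ c => a (d.le c)
  exact d.not_tr s.big.rd (fun _ c => d'.le c) e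

end Fam

end Pool.Agent.Lib.MP_3cc314_lc.Cg
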