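import Pool.Agent.Lib.MP_3cc314_lc.CgAN
import Pool.Agent.Lib.MP_3cc314_lc.CgAS

set_option autoImplicit false

namespace Pool.Agent.Lib.MP_3cc314_lc.Cg

variable {G : Type} [Group G] [Finite G]

namespace Fam
variable {F : Fam G}

theorem StA.gen (s : F.StA) (tr : F.PTr) (ti : F.PTI) : F.Gen where
  sf := s.big.sf
  typ e := e.typ_of s.big s.na
  gen e := e.gen_of s.big s.na fun H T m d L => s.nB H T L m d
  tri {H K t} e := by
    obtain ⟨T, d⟩ := e.typ_of s.big s.na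
    obtain ⟨N, m, a, b⟩ := tr H H T t K e.mh d e.mh.1 d (e.mem d) e.mk1 e.tr
    have c := (d.mem_of m.1 a).2
    exact ⟨N, ⟨e.mh, m, e.ne, e.th, c, a⟩, e.mk1, m, e.ne, e.tk, c, b⟩
  nc e := by
    obtain ⟨T, d⟩ := e.typ_of s.big s.na
    exact s.nc _ T e.mh d _ (e.mem d)
  ti {P Q T T' a b} mP mQ d d' h1 h2 h3 h4 n := by
    by_contra c
    exact n (mul_left_cancel ((d.sq h1).trans
      (ti P Q T T' mP mQ d d' c _ (d.mul_rot h1 h2) (d'.mul_rot h3 h4)).symm))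

/-- near equality in the form of the interface -/
theorem StA.pne (s : F.StA) (tr : F.PTr) (ti : F.PTI) : F.PNE := fun H K T t mH mK d e g => by
  obtain ⟨a, b⟩ := d.mem_of mK.1 e
  exact ((s.gen tr ti).fs ⟨mH, mK, d.ne a, d.le a, b, e⟩ g).imp_left
    fun ⟨h, c, k, c', q⟩ => ⟨h, c, k, c', q.symm⟩

end Fam

end Pool.Agent.Lib.MP_3cc314_lc.Cg
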