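import Pool.Agent.Lib.MP_3cc314_lc.CgAS
import Pool.Agent.Lib.MP_3cc314_lc.CgAJ

set_option autoImplicit false

namespace Pool.Agent.Lib.MP_3cc314_lc.Cg
open scoped Classical

variable {G : Type} [Group G]

theorem ncard_lmul (p : G) (S : Set G) : {y | p⁻¹ * y ∈ S}.ncard = S.ncard :=
  Set.ncard_congr (fun y _ => p⁻¹ * y) (fun _ c => c) (fun _ _ _ _ e => mul_left_cancel e)
    fun q c => ⟨p * q, by simpa using c, by group⟩

theorem ite_five {h k e p q : Prop} (a : h → q) (b : k → q) (c : e → p) (d : p → q → e)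
    (f : e ↔ h ∧ k) : (if (p ∧ ¬e) ∨ (q ∧ ¬h ∧ ¬k) then 1 else 0 : ℤ) = (if p then 1 else 0) +
      (if q then 1 else 0) - (if h then 1 else 0) - if k then 1 else 0 := by
  by_cases h <;> by_cases k <;> by_cases p <;> by_cases q <;> simp_all

theorem Ix2.nm {E H : Subgroup G} (a : Ix2 E H) {h x : G} (p : h ∈ H) (q : x ∈ E) :
    h⁻¹ * x * h ∈ E := by
  by_cases c : h ∈ E
  · exact E.mul_mem (E.mul_mem (E.inv_mem c) q) c
  · rw [mul_assoc]
    exact a.two h p c _ (H.mul_mem (a.le q) p) (mt (E.mul_mem_cancel_left q).1 c)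

/-- a subgroup over `E` and `h * k` that misses `h` -/
theorem ex_cyc [Finite G] {E H K : Subgroup G} (a : Ix2 E H) (b : Ix2 E K) {h k c : G}
    (hH : h ∈ H) (hE : h ∉ E) (kK : k ∈ K) (kE : k ∉ E) (e : h * k = c) :
    ∃ Y : Subgroup G, E ≤ Y ∧ Y ≤ H ⊔ K ∧ c ∈ Y ∧ h ∉ Y := by
  have nc : ∀ {x : G}, x ∈ E → c⁻¹ * x * c ∈ E := fun {x} q => by
    simpa [← e, mul_assoc] using b.nm kK (a.nm hH q)
  have nc' : ∀ {x : G}, x ∈ E → c * x * c⁻¹ ∈ E := fun {x} q => by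
    simpa [← e, mul_assoc] using a.nm (H.inv_mem hH) (b.nm (K.inv_mem kK) q)
  have np : ∀ (n : ℕ) {x : G}, x ∈ E → (c ^ n)⁻¹ * x * c ^ n ∈ E := fun n => by
    induction n with
    | zero => intro x q; simpa using q
    | succ n ih => intro x q; simpa [pow_succ, mul_assoc] using nc (ih q)
  refine ⟨finSub {y | ∃ n : ℕ, (c ^ n)⁻¹ * y ∈ E} ⟨0, by simp⟩ ?_, fun x q => ⟨0, by simpa using q⟩,
    ?_, ⟨1, by simp⟩, ?_⟩
  · rintro x ⟨n, p⟩ y ⟨m, q⟩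
    exact ⟨n + m, by simpa [pow_add, mul_assoc] using E.mul_mem (np m p) q⟩
  · rintro x ⟨n, p⟩
    exact ((H ⊔ K).mul_mem_cancel_left ((H ⊔ K).inv_mem ((H ⊔ K).pow_mem
      (e ▸ Subgroup.mul_mem_sup hH kK) n))).1 (Subgroup.mem_sup_left (a.le p))
  · rintro ⟨n, p⟩
    have u : h⁻¹ * c * h * c⁻¹ ∈ E := by
      obtain ⟨x, hx⟩ : ∃ x, h = c ^ n * x := ⟨(c ^ n)⁻¹ * h, by group⟩
      rw [hx, inv_mul_cancel_left] at p
      have v := E.mul_mem (E.inv_mem p) (nc' p)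
      rwa [show h⁻¹ * c * h * c⁻¹ = x⁻¹ * (c * x * c⁻¹) by rw [hx]; group]
    have c2 : c * c ∈ E := by
      simpa [← e, mul_assoc] using E.mul_mem (E.mul_mem (a.nm (H.inv_mem hH) u) (a.mul hH hE hH hE))
        (b.mul kK kE kK kE)
    have pw : ∀ n : ℕ, c ^ n ∈ E ∨ c⁻¹ * c ^ n ∈ E := fun n => by
      induction n with
      | zero => exact .inl (by simp)
      | succ n ih =>
        refine ih.symm.imp (fun q => ?_) fun q => by rwa [pow_succ', inv_mul_cancel_left]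
        simpa [pow_succ', mul_assoc] using E.mul_mem c2 q
    rcases pw n with q | q
    · exact hE (by simpa using E.mul_mem q p)
    · exact kE (by simpa [← e, mul_assoc] using E.mul_mem q p)

namespace Fam
variable {F : Fam G}

theorem DT.le_norm {L : Subgroup G} {T : Set G} (d : F.DT L T) :
    L ≤ Subgroup.normalizer T := fun g hg => Subgroup.mem_set_normalizer_iff.2 fun t =>
  ⟨d.cjm hg, fun h => by simpa [mul_assoc] using d.cjm (L.inv_mem hg) h⟩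

/-- the reflections are permuted by the normaliser of `L` -/
theorem DT.cjn {L : Subgroup G} {T : Set G} (d : F.DT L T) {g t : G} (hg : Cg.cj g L = L)
    (ht : t ∈ T) :
    g * t * g⁻¹ ∈ T := by
  obtain ⟨W, m, -, e⟩ := d.exm ht
  refine (d.mem_of (m.cj g).1 fun x a b => ?_).1
  refine (e _ (mem_cj.1 a) (mem_cj.1 (hg.symm ▸ b))).imp (fun q => ?_) fun q => ?_
  · calc x = g * (g⁻¹ * x * g) * g⁻¹ := by group
      _ = 1 := by rw [q]; group
  · rw [← q]; group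

theorem Sp.gX [Finite G] {P : Subgroup G} (m : P ∈ F.s) (E : Subgroup G) (p : G) :
    F.Sp fun x => if p⁻¹ * x ∈ gX P E then 1 else 0 :=
  Sp.of_linv (F.conj p m) fun x u hu => by
    refine if_congr ?_ rfl rfl
    rw [show p⁻¹ * (u * x) = p⁻¹ * u * p * (p⁻¹ * x) by group, gX_l (mem_cj.1 hu)]

/-- one member over each set of reflections -/
theorem Big.one [Finite G] (b : F.Big) (hA : ∀ H M, ¬F.Reg H M)
    (nB : ∀ H T L, F.Mem H → F.DT H T → F.Cl L → L ≠ ⊤ → T ⊆ L → ¬F.B4T L) {H K : Subgroup G}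
    {T : Set G} (mH : F.Mem H) (mK : F.Mem K) (d : F.DT H T) (hK : T ⊆ K)
    (nn : Subgroup.normalizer T ≠ ⊤) : H = K := by
  by_contra ne
  have cl : ∀ {L}, L ∈ F.s → L ≠ ⊤ → T ⊆ L → F.DT L T := fun m n l =>
    (b.cl d (cl_of_mem m) n l).resolve_right (nB _ _ _ mH d (cl_of_mem m) n l)
  have dΓ : F.DT (Subgroup.normalizer T) T :=
    cl (F.up mH.1 d.le_norm) nn fun t h => d.le_norm (d.le h)
  have lΓ : ∀ {M}, F.DT M T → M ≤ Subgroup.normalizer T := DT.le_norm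
  generalize Subgroup.normalizer T = Γ at *
  have ov : ∀ {M}, F.Mem M → M ≤ Γ → T ⊆ M := dΓ.sub_mem hA
  obtain ⟨⟨H, K⟩, ⟨mH, mK, ne, tH, tK⟩, mn⟩ := ex_least (fun p : Subgroup G × Subgroup G =>
    F.Mem p.1 ∧ F.Mem p.2 ∧ p.1 ≠ p.2 ∧ T ⊆ p.1 ∧ T ⊆ p.2) (fun p => (gX p.1 p.2).ncard)
    ⟨(H, K), mH, mK, ne, fun t h => d.le h, hK⟩
  dsimp only at mH mK ne tH tK mn
  have dH := cl mH.1 (b.ne_top mH) tH
  have hΓ := lΓ dH
  have kΓ := lΓ (cl mK.1 (b.ne_top mK) tK)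
  have xΓ : ∀ {x}, x ∈ gX H K → x ∈ Γ := by
    rintro _ ⟨h, p, k, q, rfl⟩
    exact Γ.mul_mem (hΓ p) (kΓ q)
  -- no coset inside
  have A : ∀ M x, F.Mem M → ¬∀ m ∈ M, x * m ∈ gX H K ∧ x * m ∉ H ∧ x * m ∉ K := fun M x m a => by
    obtain ⟨h, p, k, q, rfl⟩ : x ∈ gX H K := by simpa using (a 1 M.one_mem).1
    have a' : ∀ y ∈ cj k M, y ∈ gX H K ∧ y * k ∉ H ∧ h * y ∉ K := fun y u => by
      have := a _ (mem_cj.1 u)
      rw [show h * k * (k⁻¹ * y * k) = h * y * k by group, gX_tr p q, K.mul_mem_cancel_right q,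
        mul_assoc, H.mul_mem_cancel_left p] at this
      exact this
    have l : gX (cj k M) K ⊆ gX H K := by
      rintro _ ⟨y, u, z, v, rfl⟩
      exact (gX_r v).2 (a' y u).1
    obtain ⟨y, u, z, v, e⟩ : h⁻¹ ∈ gX (cj k M) K := by
      rw [Set.eq_of_subset_of_ncard_le l (mn (cj k M, K) ⟨m.cj k, mK, fun e =>
        (a' k⁻¹ ((show cj k M = K from e).symm ▸ K.inv_mem q)).2.1 (by simp),
        ov (m.cj k) fun y u => xΓ (a' y u).1, tK⟩)]
      exact gX_left (H.inv_mem p)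
    exact (a' y u).2.2 (by rw [show h * y = z⁻¹ by rw [← inv_inv h, ← e]; group]; exact K.inv_mem v)
  obtain ⟨E, hE⟩ : ∃ E, E = H ⊓ K := ⟨_, rfl⟩
  have mE : ∀ {x}, x ∈ E ↔ x ∈ H ∧ x ∈ K := by rw [hE]; exact Iff.rfl
  have eΓ : E ≤ Γ := fun x u => hΓ (mE.1 u).1
  obtain ⟨P, ⟨mP, nP, eP⟩, mq⟩ := ex_least (fun P : Subgroup G => F.Mem P ∧ ¬P ≤ Γ ∧
    ∀ x ∈ P, x ∈ Γ → x ∈ E) (fun P => (gX P E).ncard) (by
      obtain ⟨t, ht⟩ := dΓ.some
      obtain ⟨W, m, -, k⟩ := dΓ.exm ht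
      refine ⟨W, m, fun l => ?_, fun x u v => (k x u v).elim (fun e => e ▸ E.one_mem)
        fun e => e ▸ mE.2 ⟨tH ht, tK ht⟩⟩
      obtain ⟨x, u, y, v, p, q, n⟩ := three_le b.nb b.nr m.1
      exact n (((k x u (l u)).resolve_left p).trans ((k y v (l v)).resolve_left q).symm))
  have pe : ∀ {x}, x ∈ gX P E → x ∈ Γ → x ∈ E := by
    rintro _ ⟨p, u, e, v, rfl⟩ w
    exact E.mul_mem (eP p u ((Γ.mul_mem_cancel_right (eΓ v)).1 w)) v
  let S : Set G := {x | (x ∈ gX P E ∧ x ∉ E) ∨ (x ∈ gX H K ∧ x ∉ H ∧ x ∉ K)}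
  have sE : ∀ {x e}, e ∈ E → x ∈ S → x * e ∈ S := fun {x e} u v => by
    simpa only [S, Set.mem_ofPred_eq, gX_r u, gX_r (mE.1 u).2, E.mul_mem_cancel_right u,
      H.mul_mem_cancel_right (mE.1 u).1, K.mul_mem_cancel_right (mE.1 u).2] using v
  have hf : F.Sp fun x => if x ∈ S then 1 else 0 := by
    refine ((((Sp.gX mP.1 E 1).add (Sp.gX mH.1 K 1)).sub (Sp.iz mH.1 1)).sub (Sp.iz mK.1 1)).congr
      fun x => ?_
    simp only [iz_one, inv_one, one_mul]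
    convert ite_five (h := x ∈ H) (k := x ∈ K) (e := x ∈ E) (p := x ∈ gX P E) (q := x ∈ gX H K)
      gX_left gX_right gX_right (fun u v => pe u (xΓ v)) mE
    exact Iff.rfl
  obtain ⟨h, hH, hK⟩ := SetLike.not_le_iff_exists.1 (mH.not_le mK ne)
  obtain ⟨k, kK, kH⟩ := SetLike.not_le_iff_exists.1 (mK.not_le mH ne.symm)
  have ins : ∀ {h k}, h ∈ H → h ∉ K → k ∈ K → k ∉ H → h * k ∈ gX H K ∧ h * k ∉ H ∧ h * k ∉ K :=
    fun u u' v v' => ⟨gX_mk u v, mt (H.mul_mem_cancel_left u).1 v', mt (K.mul_mem_cancel_right v).1 u'⟩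
  obtain ⟨c, hc⟩ : ∃ c, h * k = c := ⟨_, rfl⟩
  have cX := hc ▸ ins hH hK kK kH
  obtain ⟨M0, m0, s0, -⟩ := b.sf.cos hf (fun x => by positivity) (x := c)
    (by rw [if_pos (.inr cX)]; norm_num)
  have s0 : ∀ m ∈ M0, c * m ∈ S := fun m u => by_contra fun n => by simpa [n] using s0 m u
  obtain ⟨p, pP, pΓ, M, m, sM, w, wM, wc⟩ : ∃ p ∈ P, p ∉ Γ ∧ ∃ M, F.Mem M ∧ (∀ y ∈ M, p * y ∈ S) ∧
      ∃ w ∈ gX M E, p * w = c := by
    obtain ⟨y, u, v⟩ : ∃ y ∈ M0, ¬(c * y ∈ gX H K ∧ c * y ∉ H ∧ c * y ∉ K) := by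
      simpa only [not_forall, exists_prop] using A M0 c m0
    obtain ⟨⟨p, r, e, s, q⟩, n⟩ := (s0 y u).resolve_right v
    refine ⟨p, r, fun l => n (q ▸ E.mul_mem (eP p r l) s), cj e M0, m0.cj e, fun z l => ?_,
      e * y⁻¹, ⟨e * y⁻¹ * e⁻¹, (conj_mem_cj e).2 (M0.inv_mem u), e, s, by group⟩,
      by rw [← mul_assoc, q]; group⟩
    have := sE (E.inv_mem s) (s0 _ (M0.mul_mem u (mem_cj.1 l)))
    rwa [← mul_assoc c, ← q, show p * e * (e⁻¹ * z * e) * e⁻¹ = p * z by group] at this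
  have eM : ∀ x ∈ M, x ∈ Γ → x ∈ E := fun x u v => (sM x u).elim
    (fun l => pe ((gX_l pP).1 l.1) v) fun l => (pΓ ((Γ.mul_mem_cancel_right v).1 (xΓ l.1))).elim
  have me : ∀ {x}, x ∈ gX M E → x ∈ Γ → x ∈ E := by
    rintro _ ⟨p, u, e, v, rfl⟩ w
    exact E.mul_mem (eM p u ((Γ.mul_mem_cancel_right (eΓ v)).1 w)) v
  have sM' : ∀ {y}, p⁻¹ * y ∈ gX M E → y ∈ S := by
    rintro y ⟨z, u, e, v, q⟩
    have := sE v (sM z u)
    rwa [mul_assoc, q, mul_inv_cancel_left] at this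
  have fl : ∀ {y}, p⁻¹ * y ∈ gX M E → y ∈ Γ → c⁻¹ * y ∈ E := by
    obtain ⟨z, u, e, v, rfl⟩ := wM
    intro y q r
    have := me ((gX_l (M.inv_mem u)).2 q) (by
      have := Γ.mul_mem (Γ.mul_mem (eΓ v) (Γ.inv_mem (xΓ cX.1))) r
      rwa [← wc, show e * (p * (z * e))⁻¹ * y = z⁻¹ * (p⁻¹ * y) by group] at this)
    simpa [← wc, mul_assoc] using E.mul_mem (E.inv_mem v) this
  have key : {y | p⁻¹ * y ∈ gX M E} = (gX P E \ E) ∪ {y | c⁻¹ * y ∈ (E : Set G)} := by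
    refine Set.eq_of_subset_of_ncard_le (fun y u => (sM' u).imp id fun v => fl u (xΓ v.1)) ?_
    refine (Set.ncard_union_le _ _).trans ?_
    rw [ncard_lmul, ncard_lmul, Set.ncard_sdiff_add_ncard_of_subset fun x u => gX_right u]
    refine mq M ⟨m, fun l => pΓ ?_, eM⟩
    obtain ⟨z, u, e, v, rfl⟩ := wM
    exact (Γ.mul_mem_cancel_right (Γ.mul_mem (l u) (eΓ v))).1 (wc ▸ xΓ cX.1)
  have key' : ∀ y, p⁻¹ * y ∈ gX M E ↔ (y ∈ gX P E ∧ y ∉ E) ∨ c⁻¹ * y ∈ E := Set.ext_iff.1 key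
  have one : ∀ y, y ∈ gX H K ∧ y ∉ H ∧ y ∉ K → c⁻¹ * y ∈ E := fun y u => by
    by_contra n
    have f0 : ∀ x, (0 : ℤ) ≤ (if x ∈ S then 1 else 0) - if p⁻¹ * x ∈ gX M E then 1 else 0 := fun x => by
      by_cases v : p⁻¹ * x ∈ gX M E
      · simp [v, sM' v]
      · rw [if_neg v, sub_zero]; positivity
    obtain ⟨Q, mQ, sQ, -⟩ := b.sf.cos (hf.sub (Sp.gX m.1 E p)) f0 (x := y) (by
      rw [if_pos (.inr u), if_neg fun v => n (fl v (xΓ u.1))]; norm_num)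
    refine A Q y mQ fun z v => ?_
    have := sQ z v
    by_cases r : p⁻¹ * (y * z) ∈ gX M E
    · rw [if_pos r, if_pos (sM' r)] at this
      exact this.false.elim
    · by_cases s : y * z ∈ S
      · exact s.resolve_left fun l => r ((key' _).2 (.inl l))
      · simp [r, s] at this
  have iH : Ix2 E H := ⟨fun x u => (mE.1 u).1, fun l => hK (mE.1 (l hH)).2, fun x u u' y v v' => by
    have := E.mul_mem (E.inv_mem (one _ (ins u (fun l => u' (mE.2 ⟨u, l⟩)) kK kH)))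
      (one _ (ins v (fun l => v' (mE.2 ⟨v, l⟩)) kK kH))
    refine mE.2 ⟨H.mul_mem (H.inv_mem u) v, ?_⟩
    simpa [mul_assoc] using K.mul_mem (K.mul_mem kK (mE.1 this).2) (K.inv_mem kK)⟩
  have iK : Ix2 E K := ⟨fun x u => (mE.1 u).2, fun l => kH (mE.1 (l kK)).1, fun x u u' y v v' => by
    simpa [mul_assoc] using E.mul_mem (E.inv_mem (one _ (ins hH hK u fun l => u' (mE.2 ⟨l, u⟩))))
      (one _ (ins hH hK v fun l => v' (mE.2 ⟨l, v⟩)))⟩
  obtain ⟨Y, eY, yΓ, cY, hY⟩ := ex_cyc iH iK hH (fun l => hK (mE.1 l).2) kK (fun l => kH (mE.1 l).1) hc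
  have yΓ : Y ≤ Γ := yΓ.trans (sup_le hΓ kΓ)
  have pJ : P ≤ rot (gX P Y) := fun x u y => gX_l u
  have eq : ∀ y, p⁻¹ * y ∈ gX M Y ↔ y ∈ gX P Y := fun y => by
    constructor
    · rintro ⟨z, u, e, v, q⟩
      have q' : y = p * z * e := by rw [mul_assoc, q]; group
      rw [q', gX_r v]
      rcases (key' (p * z)).1 (by simpa using gX_left u) with ⟨⟨r, s, t, a, l⟩, -⟩ | l
      · exact ⟨r, s, t, eY a, l⟩
      · exact gX_right ((Y.mul_mem_cancel_left (Y.inv_mem cY)).1 (eY l))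
    · rintro ⟨z, u, e, v, rfl⟩
      have up : ∀ {x}, x ∈ gX M E → x ∈ gX M Y := fun ⟨r, s, t, a, l⟩ => ⟨r, s, t, eY a, l⟩
      rw [← mul_assoc, gX_r v]
      by_cases l : z ∈ E
      · have := up ((key' c).2 (.inr (by simp)))
        rwa [← gX_r (Y.mul_mem (Y.inv_mem cY) (eY l)), mul_assoc, mul_inv_cancel_left] at this
      · exact up ((key' z).2 (.inl ⟨gX_left u, l⟩))
  have mJ : cj p M ≤ rot (gX P Y) := fun x u y => by
    rw [← eq, ← eq, show p⁻¹ * (x * y) = p⁻¹ * x * p * (p⁻¹ * y) by group, gX_l (mem_cj.1 u)]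
  by_cases J : rot (gX P Y) = ⊤
  · obtain ⟨r, s, t, a, l⟩ : h * 1 ∈ gX P Y :=
      (rot_mul (J ▸ Subgroup.mem_top h)).2 (gX_left P.one_mem)
    rw [mul_one] at l
    exact hY (l ▸ Y.mul_mem (eY (eP r s ((Γ.mul_mem_cancel_right (yΓ a)).1 (l ▸ hΓ hH)))) a)
  refine nP (pJ.trans (lΓ (b.inter hA nB mP (m.cj p) pJ mJ J dH fun s u => by_contra fun n => ?_)))
  have := (gX_l (mem_cj.1 ((cj p M).inv_mem u.2))).2
    ((key' s).2 (.inl ⟨gX_left u.1, fun l => n (mE.1 l).1⟩))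
  rw [show p⁻¹ * s⁻¹ * p * (p⁻¹ * s) = p⁻¹ * 1 by group, key'] at this
  exact this.elim (fun l => l.2 E.one_mem) fun l => cX.2.1 (mE.1 (by simpa using l)).1

/-- the normaliser of the set of reflections is the normaliser of the member -/
theorem Big.norm_iff [Finite G] (b : F.Big) (hA : ∀ H M, ¬F.Reg H M)
    (nB : ∀ H T L, F.Mem H → F.DT H T → F.Cl L → L ≠ ⊤ → T ⊆ L → ¬F.B4T L) {H : Subgroup G}
    {T : Set G} (mH : F.Mem H) (d : F.DT H T)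
    (nn : Subgroup.normalizer T ≠ ⊤) {g : G} : g ∈ Subgroup.normalizer T ↔ cj g H = H := by
  refine ⟨fun h => (b.one hA nB mH (mH.cj g) d (fun t u => mem_cj.2 (d.le
    ((Subgroup.mem_set_normalizer_iff''.1 h t).1 u))) nn).symm, fun h =>
    Subgroup.mem_set_normalizer_iff.2 fun t => ⟨d.cjn h, fun u => ?_⟩⟩
  simpa [mul_assoc] using d.cjn (g := g⁻¹) (by rw [← h, cj_inv_cj, h]) u

/-- the set of reflections is not normal -/
theorem StA.nn [Finite G] (s : F.StA) (tr : F.PTr) {H : Subgroup G} {T : Set G} (m : F.Mem H)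
    (d : F.DT H T) : Subgroup.normalizer T ≠ ⊤ := fun e => by
  obtain ⟨t, ht⟩ := d.some
  obtain ⟨K, mK, -, a⟩ := d.exm ht
  obtain ⟨N, mN, b, c⟩ := tr H H T t K m d m.1 d ht mK a
  obtain ⟨T', d', -⟩ := s.nb mK m.1 (Tr.symm a)
  have k : ∀ {W}, F.Mem W → Tr W H t → W ≤ Subgroup.centralizer {t} := fun {W} u v w x =>
    Subgroup.mem_centralizer_singleton_iff.2 (by
      have := (Subgroup.mem_set_normalizer_iff.1 (e ▸ Subgroup.mem_top w) t).1 ht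
      exact mul_inv_eq_iff_eq_mul.1 ((v _ (W.mul_mem (W.mul_mem x (d.mem_of u.1 v).2) (W.inv_mem x))
        (d.le this)).resolve_left (d.ne this)))
  obtain ⟨g, n⟩ := s.nc H T m d t ht
  exact n (Subgroup.mem_centralizer_singleton_iff.1
    (s.sup mK mN d' c (k mK a) (k mN b) ▸ Subgroup.mem_top g))

theorem StA.pu [Finite G] (s : F.StA) (tr : F.PTr) : F.PU := fun _ _ _ mH mK d l =>
  (s.big.one s.na s.nB mH mK d l (s.nn tr mH d)).symm

end Fam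

end Pool.Agent.Lib.MP_3cc314_lc.Cg
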