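import Pool.Agent.Lib.MP_3cc314_lc.Class
import Pool.Agent.Lib.MP_3cc314_lc.Alg

set_option autoImplicit false

namespace Pool.Agent.Lib.MP_3cc314_lc
open Finset Matrix Polynomial MulAction

variable {n : ℕ} (G : SimpleGraph (Fin n)) [DecidableRel G.Adj]

def rows : Mx := List.ofFn fun i => List.ofFn fun j => decide (G.Adj i j)

@[simp] theorem rows_length : (rows G).length = n := by simp [rows]

@[simp] theorem adj_rows (i j : Fin n) : adj (rows G) i j = decide (G.Adj i j) := by
  simp [adj, rows]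

theorem wk_rows (x : Fin n) (j : ℕ) (z : Fin n) :
    (wk (rows G) x j z : ℝ) = (G.adjMatrix ℝ ^ j) z x := by
  induction j generalizing z with
  | zero => simp [wk, one_apply, Fin.ext_iff]
  | succ j ih =>
    rw [wk, pow_succ', mul_apply, rows_length, sum_range, Nat.cast_sum]
    exact sum_congr rfl fun k _ => by simp [ih, apply_ite Nat.cast]

def Cl (v y x z : Fin n) : Prop := ∀ j < n, (G.adjMatrix ℝ ^ j) z x = (G.adjMatrix ℝ ^ j) y v

theorem cl_rows (v : Fin n) (hv : v.1 = 0) (y x z : Fin n) :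
    cl (rows G) y x z = true ↔ Cl G v y x z := by
  simp only [cl, sg, decide_eq_true_eq, List.map_inj_left, List.mem_range, rows_length, W_eq,
    getD_range _ _ _ z.2, getD_range _ _ _ y.2, Cl, ← wk_rows, ← hv, Nat.cast_inj]

theorem pow_smul_smul (g : G ≃g G) (j : ℕ) (x z : Fin n) :
    (G.adjMatrix ℝ ^ j) (g • x) (g • z) = (G.adjMatrix ℝ ^ j) x z :=
  (comm_pm g.toEquiv _).1 (Commute.pow_left (pm_mem g).2 j) x z

theorem pow_symm (j : ℕ) (x z : Fin n) : (G.adjMatrix ℝ ^ j) x z = (G.adjMatrix ℝ ^ j) z x :=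
  (G.isSymm_adjMatrix.pow j).apply z x

variable {G}

theorem Cl.poly {v y x z : Fin n} (h : Cl G v y x z) (P : ℚ[X]) :
    aeval (G.adjMatrix ℝ) P z x = aeval (G.adjMatrix ℝ) P y v := by
  have h1 := (G.adjMatrix ℝ).charpoly_natDegree_eq_dim
  rw [Fintype.card_fin] at h1
  rw [← aeval_map_algebraMap ℝ, aeval_eq_aeval_mod_charpoly, aeval_eq_sum_range' (n := n)
    ((natDegree_modByMonic_lt _ (charpoly_monic _) fun e => v.pos.ne (by
      rw [← h1, e, natDegree_one])).trans_eq h1), Matrix.sum_apply, Matrix.sum_apply]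
  exact sum_congr rfl fun j hj => by simp [h j (mem_range.1 hj)]

theorem count_rows (v : Fin n) (hv : v.1 = 0) (y : Fin n) [DecidableRel (Cl G v y)] :
    (List.range n).countP (fun z => cl (rows G) y 0 z) = #(univ.filter (Cl G v y v)) := by
  rw [List.countP_eq_length_filter, ← List.toFinset_card_of_nodup (List.nodup_range.filter _),
    List.toFinset_filter, List.toFinset_range, card_filter, card_filter, sum_range]
  simp only [← cl_rows G v hv, hv]

theorem prim_triv (h : Triv G) : IsPreprimitive (G ≃g G) (Fin n) := by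
  let f : Equiv.Perm (Fin n) → G ≃g G := fun σ => ⟨σ, fun {i j} =>
    ⟨fun a => h _ _ _ _ a.ne (fun e => a.ne (congrArg σ e)) a,
      fun a => h _ _ _ _ a.ne (σ.injective.ne a.ne) a⟩⟩
  haveI : IsPretransitive (G ≃g G) (Fin n) := ⟨fun x y => ⟨f (.swap x y), Equiv.swap_apply_left x y⟩⟩
  refine ⟨fun {B} hB => or_iff_not_imp_left.2 fun a => Set.eq_univ_of_forall fun z => ?_⟩
  obtain ⟨x, hx, y, hy, a⟩ := Set.not_subsingleton_iff.1 a
  by_cases b : x = z
  · exact b ▸ hx
  rw [← hB.smul_eq_of_mem (g := f (.swap y z)) hx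
    (by rwa [show f (.swap y z) • x = x from Equiv.swap_apply_of_ne_of_ne a b])]
  exact ⟨y, hy, Equiv.swap_apply_left y z⟩

theorem alg_rows : alg (rows G) = true ↔ IsPreprimitive (G ≃g G) (Fin n) ∧ Compact G := by
  classical
  have ht : alg (rows G) = true ↔ Triv G ∨ ∃ y < n, y ≠ 0 ∧
      (List.range n).countP (fun z => cl (rows G) y 0 z) ≤ 2 ∧ (∀ d < n, d < 2 ∨ n % d ≠ 0) ∧
      (∀ i < n, ∃ k < n, sq (rows G) y k = i) ∧ ∀ i < n, ∀ j < n,
        adj (rows G) (sq (rows G) y ((i + 1) % n)) (sq (rows G) y ((j + 1) % n)) =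
          adj (rows G) (sq (rows G) y i) (sq (rows G) y j) := by
    simp only [alg, rows_length, Bool.or_eq_true, Bool.and_eq_true, List.all_eq_true,
      List.any_eq_true, List.mem_range, decide_eq_true_eq, and_assoc, triv_iff]
    refine or_congr (or_congr ?_ ?_) .rfl <;>
      simp only [Nat.forall_lt_iff_fin, adj_rows, SimpleGraph.ext_iff, funext_iff]
    · simp
    · refine forall₂_congr fun i j => ?_
      by_cases h : i = j <;> simp [h, Fin.val_inj]
  rw [ht]
  refine ⟨fun h => h.elim (fun h => ⟨prim_triv h, compact_triv h⟩) ?_,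
    fun ⟨_, hG⟩ => or_iff_not_imp_left.2 fun nt => ?_⟩
  · rintro ⟨y, y1, y0, h1, h2, h3, h4⟩
    haveI : Fact n.Prime := ⟨Nat.prime_def_lt'.2 ⟨by omega, fun d a b c =>
      (h2 d b).elim a.not_gt fun e => e (Nat.mod_eq_zero_of_dvd c)⟩⟩
    let σ : ZMod n ≃ Fin n := .ofBijective
      (fun k => ⟨sq (rows G) y k.val, (nx_lt _ y _ n y1 (by simp)).1⟩)
      ((Fintype.bijective_iff_surjective_and_card _).2 ⟨fun i => by
        obtain ⟨k, a, b⟩ := h3 i i.2
        exact ⟨k, Fin.ext (by simp [ZMod.val_cast_of_lt a, b])⟩, by simp⟩)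
    let r : G ≃g G := ⟨σ.symm.trans ((Equiv.addRight 1).trans σ), fun {a b} => by
      obtain ⟨a, rfl⟩ := σ.surjective a
      obtain ⟨b, rfl⟩ := σ.surjective b
      have := h4 _ a.val_lt _ b.val_lt
      rw [← ZMod.val_one n, ← ZMod.val_add, ← ZMod.val_add] at this
      simpa using (adj_rows G (σ (a + 1)) (σ (b + 1))).symm.trans
        (this.trans (adj_rows G (σ a) (σ b)))⟩
    haveI : IsPretransitive (G ≃g G) (Fin n) := (isPretransitive_iff_base (σ 0)).2 fun x => by
      obtain ⟨x, rfl⟩ := σ.surjective x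
      obtain ⟨k, rfl⟩ := ZMod.natCast_zmod_surjective x
      induction k with
      | zero => exact ⟨1, by simp⟩
      | succ k ih =>
        obtain ⟨g, e⟩ := ih
        exact ⟨r * g, by rw [mul_smul, e]; simp [r]⟩
    haveI : IsPreprimitive (G ≃g G) (Fin n) := .of_prime_card (by simpa using Fact.out)
    let v : Fin n := ⟨0, by omega⟩
    refine ⟨this, (dih_of_rel (Cl G v ⟨y, y1⟩) (fun a b h j hj => (pow_symm G j _ _).trans (h j hj))
      (fun a h => ?_) (fun g a b h j hj => (pow_smul_smul G g j _ _).trans (h j hj)) v ⟨y, y1⟩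
      (fun _ _ => rfl) ((count_rows v rfl _).symm.trans_le h1) v).compact⟩
    simpa [one_apply, Fin.ext_iff, v, y0] using h 0 (by omega)
  · obtain ⟨v, -⟩ := not_forall.1 nt
    obtain ⟨v, hv⟩ : ∃ v : Fin n, v.1 = 0 := ⟨⟨0, v.pos⟩, rfl⟩
    obtain ⟨p, hp, e, h3, h0, h1, -, P, c, hP⟩ := (hG.dih nt v).data nt
    obtain rfl : n = p := by simpa using (Fintype.card_congr e).symm
    have key : ∀ i j, Cl G v (e 1) (e i) (e j) ↔ j = i + 1 ∨ j = i - 1 := fun i j => by
      refine ⟨fun h => ?_, ?_⟩
      · have := h.poly P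
        rw [hP, ← h0] at this
        simp only [circ, of_apply, Equiv.symm_apply_apply, Rat.cast_inj, zero_sub, add_left_inj,
          if_true] at this
        by_contra a
        push Not at a
        rw [if_neg fun b => a.2 (by linear_combination -b),
          if_neg fun b => a.1 (by linear_combination -b)] at this
        split_ifs at this <;> norm_num at this
      · rintro (rfl | rfl) k - <;> rw [← h0]
        · rw [← pow_smul_smul G (dT e h1 (.inl (-i)))]
          simp [dT]
        · rw [← pow_smul_smul G (dT e h1 (.inr i))]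
          simp [dT]
    have hs : ∀ k : ℕ, (nx (rows G) (e 1))^[k] (0, e 1) = ((e k).1, (e (k + 1)).1) := fun k => by
      induction k with
      | zero => simp [h0, hv]
      | succ k ih =>
        rw [Function.iterate_succ_apply', ih, nx, Nat.cast_succ, rows_length]
        have : ∀ z, (decide ((e z).1 ≠ e k) && cl (rows G) (e 1) (e (k + 1)) (e z)) = true ↔
            z = k + 1 + 1 := fun z => by
          rw [Bool.and_eq_true, cl_rows G v hv, key, decide_eq_true_eq, Fin.val_ne_iff,
            e.injective.ne_iff, add_sub_cancel_right]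
          exact ⟨fun a => a.2.resolve_right a.1, fun a => ⟨fun b => h3 (by
            linear_combination b - a), .inl a⟩⟩
        rcases a : List.find? _ _ with _ | z
        · exact absurd ((this _).2 rfl) (List.find?_eq_none.1 a _ (List.mem_range.2 (e _).2))
        · obtain ⟨z, rfl⟩ : ∃ w, (e w).1 = z :=
            ⟨e.symm ⟨z, List.mem_range.1 (List.mem_of_find?_eq_some a)⟩, by simp⟩
          have b := List.find?_some a
          rw [(this z).1 b, Option.getD_some]
    refine ⟨e 1, (e 1).2, ?_, ?_, fun d a => ?_, fun i a => ⟨(e.symm ⟨i, a⟩).val, ZMod.val_lt _, ?_⟩,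
      fun i _ j _ => ?_⟩
    · rw [← hv, ← h0]
      simp [Fin.val_inj]
    · rw [count_rows v hv]
      refine (card_le_card (t := {e 1, e (-1)}) fun z hz => ?_).trans card_le_two
      obtain ⟨z, rfl⟩ := e.surjective z
      have := (key 0 z).1 (h0.symm ▸ (mem_filter.1 hz).2)
      simpa using this
    · exact or_iff_not_imp_left.2 fun b c =>
        (Nat.prime_def_lt'.1 hp.1).2 d (by omega) a (Nat.dvd_of_mod_eq_zero c)
    · simp [sq, hs]
    · simp only [sq, hs, adj_rows, ZMod.natCast_mod, decide_eq_decide]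
      exact h1 _ _ _ _ (.inl (by push_cast; ring))

end Pool.Agent.Lib.MP_3cc314_lc
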