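import Pool.Agent.Lib.MP_3cc314_lc.CgSpec
import Pool.Agent.Lib.MP_3cc314_lc.Main

set_option autoImplicit false

namespace Pool.Agent.Lib.MP_3cc314_lc.Cg
open Pool.Agent.Lib.Complexity

/-- `l` lists the values of the automorphism `g` -/
def Rep {n : ℕ} {G : SimpleGraph (Fin n)} (l : List ℕ) (g : G ≃g G) : Prop :=
  ∀ x : Fin n, l.getD x 0 = (g x).1

/-- an automorphism maps the parts of the entries of `B` to the parts of the entries of `B'` -/
def Tm {n : ℕ} {G : SimpleGraph (Fin n)} (p : List ℕ) (g : G ≃g G) (B B' : List ℕ) : Prop :=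
  List.Forall₂ (fun b b' => ∃ x : Fin n, x.1 = b ∧ b' < n ∧ p.getD (g x).1 0 = p.getD b' 0) B B'

/-- the partition with labels `p` is invariant under all automorphisms -/
def Inv {n : ℕ} (G : SimpleGraph (Fin n)) (p : List ℕ) : Prop :=
  ∀ (g : G ≃g G) (x y : Fin n), p.getD x 0 = p.getD y 0 → p.getD (g x).1 0 = p.getD (g y).1 0

/-- the oracle: `fd` finds automorphisms, `no` refutes them; both are exact on compact graphs -/
def S_orc : Prop := ∃ (fd : Mx → List ℕ → List ℕ → List ℕ → Option (List ℕ))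
  (no : Mx → List ℕ → List ℕ → List ℕ → Bool),
  (PT fun a : Mx × List ℕ × List ℕ × List ℕ => fd a.1 a.2.1 a.2.2.1 a.2.2.2) ∧
  (PT fun a : Mx × List ℕ × List ℕ × List ℕ => no a.1 a.2.1 a.2.2.1 a.2.2.2) ∧
  ∀ (n : ℕ) (G : SimpleGraph (Fin n)) [DecidableRel G.Adj] (p B B' : List ℕ), Inv G p →
    B.length = B'.length → (∀ b ∈ B, b < n) → (∀ b ∈ B', b < n) →
    (∀ l, fd (rows G) p B B' = some l → ∃ g : G ≃g G, Rep l g ∧ Tm p g B B') ∧
    (no (rows G) p B B' = true → ¬∃ g : G ≃g G, Tm p g B B') ∧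
    (Compact G → (fd (rows G) p B B').isSome = true ∨ no (rows G) p B B' = true)

/-- colour refinement: the classes carry all fractional automorphisms, and one of them is positive
on the classes -/
def S_cls : Prop := ∃ cls : Mx → ℕ → ℕ → Bool,
  (PT fun a : Mx × ℕ × ℕ => cls a.1 a.2.1 a.2.2) ∧
  ∀ (n : ℕ) (G : SimpleGraph (Fin n)) [DecidableRel G.Adj],
    (∀ X ∈ fracAut G, ∀ i j : Fin n, X i j ≠ 0 → cls (rows G) i j = true) ∧
    ∃ E ∈ fracAut G, ∀ i j : Fin n, cls (rows G) i j = true → 0 < E i j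

/-- the set of parts -/
def Qt {n : ℕ} {G : SimpleGraph (Fin n)} {p : List ℕ} (_ : Inv G p) : Type :=
  Quotient (Setoid.ker fun x : Fin n => p.getD x 0)

/-- the part of a vertex -/
def qt {n : ℕ} {G : SimpleGraph (Fin n)} {p : List ℕ} (h : Inv G p) (x : Fin n) : Qt h :=
  Quotient.mk _ x

section
variable {n : ℕ} {G : SimpleGraph (Fin n)} {p : List ℕ} (h : Inv G p)

instance : Finite (Qt h) := inferInstanceAs (Finite (Quotient _))

instance : MulAction (G ≃g G) (Qt h) where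
  smul g := Quotient.map (fun x => g x) fun x y e => h g x y e
  one_smul a := Quotient.inductionOn a fun _ => rfl
  mul_smul _ _ a := Quotient.inductionOn a fun _ => rfl

theorem smul_qt (g : G ≃g G) (x : Fin n) : g • qt h x = qt h (g x) := rfl

theorem qt_eq {x y : Fin n} : qt h x = qt h y ↔ p.getD x 0 = p.getD y 0 := Quotient.eq

theorem qt_surj : Function.Surjective (qt h) := Quotient.mk_surjective

end

/-- one stage of the peeling -/
def S_stage : Prop := ∃ (st : Mx → List ℕ → Option (List ℕ)) (tr : Mx → List ℕ → Bool),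
  (PT fun a : Mx × List ℕ => st a.1 a.2) ∧ (PT fun a : Mx × List ℕ => tr a.1 a.2) ∧
  (∀ M p p', st M p = some p' → p'.length ≤ M.length ∧ ∀ x ∈ p', x ≤ M.length) ∧
  ∀ (n : ℕ) (G : SimpleGraph (Fin n)) [DecidableRel G.Adj] (p : List ℕ) (h : Inv G p),
    (∀ p', st (rows G) p = some p' → ∃ S : Set (Qt h), Lf (G ≃g G) S ∧
      ∀ x y : Fin n, p'.getD x 0 = p'.getD y 0 ↔ rel (G ≃g G) S (qt h x) (qt h y)) ∧
    (tr (rows G) p = true → ∀ (g : G ≃g G) (a : Qt h), g • a = a) ∧
    (Compact G → (St (G ≃g G) (Qt h)).SF → tr (rows G) p = true ∨ (st (rows G) p).isSome = true) ∧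
    (Compact G → (∀ (g : G ≃g G) (a : Qt h), g • a = a) → tr (rows G) p = true)

/-- every fractional automorphism commutes with all invariant matrices -/
def Cm {n : ℕ} (G : SimpleGraph (Fin n)) [DecidableRel G.Adj] : Prop :=
  ∀ X ∈ fracAut G, ∀ B : Matrix (Fin n) (Fin n) ℝ, (∀ (g : G ≃g G) i j, B (g i) (g j) = B i j) →
    B * X = X * B

/-- a polynomial time test: the integer vectors `L'` vanish on the common kernel of `L` -/
def S_rank : Prop := ∃ kr : ℕ → List (List ℤ) → List (List ℤ) → Bool,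
  (PT fun a : ℕ × List (List ℤ) × List (List ℤ) => kr a.1 a.2.1 a.2.2) ∧
  ∀ (N : ℕ) (L L' : List (List ℤ)), kr N L L' = true ↔ ∀ x : ℕ → ℝ,
    (∀ v ∈ L, ∑ i ∈ Finset.range N, (v.getD i 0 : ℝ) * x i = 0) →
    ∀ v ∈ L', ∑ i ∈ Finset.range N, (v.getD i 0 : ℝ) * x i = 0

/-- the linear test -/
def S_lin : Prop := ∃ lin : Mx → Bool, PT lin ∧
  ∀ (n : ℕ) (G : SimpleGraph (Fin n)) [DecidableRel G.Adj],
    (lin (rows G) = true → Cm G) ∧ (Compact G → lin (rows G) = true)

/-- compactness of a graph in terms of its group -/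
def S_grp : Prop := ∀ (n : ℕ) (G : SimpleGraph (Fin n)) [DecidableRel G.Adj],
  (Compact G → (St (G ≃g G) (Fin n)).SF) ∧ (Cm G → (St (G ≃g G) (Fin n)).SF → Compact G)

/-- the group test -/
def S_peelAlg : Prop := ∃ pa : Mx → Bool, PT pa ∧
  ∀ (n : ℕ) (G : SimpleGraph (Fin n)) [DecidableRel G.Adj],
    (pa (rows G) = true → (St (G ≃g G) (Fin n)).SF) ∧ (Compact G → pa (rows G) = true)

theorem final (h1 : S_lin) (h2 : S_grp) (h3 : S_peelAlg) :
    ∃ A : List (List Bool) → Bool, N68a2faeb.IsPolyTime A ∧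
      ∀ (n : ℕ) (G : SimpleGraph (Fin n)) [DecidableRel G.Adj],
        A (List.ofFn fun i => List.ofFn fun j => decide (G.Adj i j)) = true ↔ Compact G := by
  obtain ⟨lin, p1, s1⟩ := h1
  obtain ⟨pa, p3, s3⟩ := h3
  refine ⟨fun M => lin M && pa M, isPolyTime_of_rep (f' := fun M : Mx => lin M && pa M)
    (PT.and p1 p3) fun a => ?_, fun n G _ => ?_⟩
  · rw [up_list, List.map_congr_left fun l _ => up_str l, List.map_id', down_bool]
  · change (lin (rows G) && pa (rows G)) = true ↔ _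
    rw [Bool.and_eq_true]
    exact ⟨fun h => (h2 n G).2 ((s1 n G).1 h.1) ((s3 n G).1 h.2),
      fun h => ⟨(s1 n G).2 h, (s3 n G).2 h⟩⟩

end Pool.Agent.Lib.MP_3cc314_lc.Cg
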