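import Pool.Agent.Lib.MP_3cc314_lc.CgSpec

set_option autoImplicit false

namespace Pool.Agent.Lib.MP_3cc314_lc.Cg
open scoped Classical

variable {G Q : Type} [Group G] [Group Q]

namespace Fam
variable {F : Fam G} {N : Subgroup G}

/-- a closed subgroup of a decomposable group splits -/
theorem Fa.gal_split (hF : F.Fa) {C Z : Subgroup G} (d : F.Dj N C) (h : F.Gal Z ≤ N ⊔ C) :
    F.Gal Z ≤ (N ⊓ F.Gal Z) ⊔ (C ⊓ F.Gal Z) := fun g hg => by
  obtain ⟨n, a, c, b, rfl⟩ := (hF.mem_sup d).1 (h hg)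
  exact Subgroup.mul_mem_sup ⟨a, (d.dj a b).left_Gal hg⟩ ⟨b, (d.dj a b).right_Gal hg⟩

theorem cj_eq_of_le [Finite G] {g : G} {X : Subgroup G} (h : cj g X ≤ X) : cj g X = X :=
  Subgroup.eq_of_le_of_card_ge h (card_cj g X).ge

theorem cj_eq_of_ge [Finite G] {g : G} {X : Subgroup G} (h : X ≤ cj g X) : cj g X = X :=
  (Subgroup.eq_of_le_of_card_ge h (card_cj g X).le).symm

theorem MinV.blk [Finite G] (hF : F.Fa) (h : F.MinV N) (n : N ≠ ⊥) (c : F.Gal (F.Gal N) = N)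
    (v : N ⊔ F.Gal N ∈ F.s) : F.Blk N := by
  refine ⟨n, c, v, fun g => ?_⟩
  have c' : F.Gal (F.Gal (cj g N)) = cj g N := by rw [← cj_Gal, ← cj_Gal, c]
  have v' : cj g N ⊔ F.Gal (cj g N) ∈ F.s := by
    rw [← cj_Gal, ← cj_sup]
    exact F.conj g v
  have k : ∀ Z, N ⊓ F.Gal Z ≠ ⊥ → cj g N ⊔ F.Gal (cj g N) ≤ N ⊓ F.Gal Z ⊔ F.Gal (N ⊓ F.Gal Z) →
      N ≤ F.Gal Z := fun Z a b => inf_eq_left.1 (h _ inf_le_left a (by
    rw [show N ⊓ F.Gal Z = F.Gal (F.Gal N ⊔ Z) by rw [Gal_sup, c], Gal_Gal_Gal]) (F.up v' b))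
  rcases Dj_Gal (cj g N) _ v with a | a
  · have s := hF.gal_split (Dj_Gal N) (c'.le.trans a)
    by_cases e : N ⊓ F.Gal (F.Gal (cj g N)) = ⊥
    · rw [e, bot_sup_eq, c'] at s
      exact .inr (s.trans inf_le_left)
    refine .inl (cj_eq_of_ge (c' ▸ k _ e (sup_le (c'.ge.trans (s.trans (sup_le_sup_left
      (inf_le_left.trans (Gal_anti inf_le_left)) _))) (le_sup_of_le_right (Gal_anti ?_)))))
    exact inf_le_right.trans c'.le
  · have s := hF.gal_split (Dj_Gal N) a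
    by_cases e : N ⊓ F.Gal (cj g N) = ⊥
    · rw [e, bot_sup_eq, ← cj_Gal] at s
      exact .inl (by rw [← c', ← cj_Gal, cj_eq_of_le (s.trans inf_le_left), c])
    refine .inr (le_Gal.2 (le_Gal.1 (k _ e (sup_le (le_sup_of_le_right ?_) (s.trans
      (sup_le_sup_left (inf_le_left.trans (Gal_anti inf_le_left)) _))))).symm)
    exact c'.ge.trans (Gal_anti inf_le_right)

theorem Blk.le (h : F.Blk N) {D D' : Subgroup G} (a : D ∈ Set.range (cj · N))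
    (b : D' ∈ Set.range (cj · N)) (n : D ≠ D') : D ≤ F.Gal D' := by
  obtain ⟨g, rfl⟩ := a
  obtain ⟨g', rfl⟩ := b
  rcases h.blk (g'⁻¹ * g) with e | e
  · exact (n (by simpa [← cj_mul] using congrArg (cj g') e)).elim
  · simpa [← cj_mul, cj_Gal] using cj_mono g' e

theorem ncl_le {U : Subgroup G} :
    Subgroup.normalClosure (N : Set G) ≤ U ↔ ∀ D ∈ Set.range (cj · N), D ≤ U := by
  refine ⟨fun h => ?_, fun h => (Subgroup.closure_le _).2 fun x hx => ?_⟩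
  · rintro _ ⟨g, rfl⟩ x hx
    simpa [mul_assoc] using h (Subgroup.normalClosure_normal.conj_mem _
      (Subgroup.subset_normalClosure (mem_cj.1 hx)) g)
  · obtain ⟨a, ha, e⟩ := Group.mem_conjugatesOfSet_iff.1 hx
    obtain ⟨c, rfl⟩ := isConj_iff.1 e
    exact h _ ⟨c, rfl⟩ ((conj_mem_cj c).2 ha)

theorem Blk.vis' (h : F.Blk N) {D : Subgroup G} (a : D ∈ Set.range (cj · N)) :
    D ⊔ F.Gal D ∈ F.s ∧ Subgroup.normalClosure (N : Set G) ≤ D ⊔ F.Gal D := by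
  refine ⟨?_, ncl_le.2 fun D' b => ?_⟩
  · obtain ⟨g, rfl⟩ := a
    simpa only [cj_sup, cj_Gal] using F.conj g h.vis
  · by_cases e : D' = D
    exacts [e ▸ le_sup_left, le_sup_of_le_right (h.le b a e)]

/-- correction of an element on a set of blocks -/
theorem Blk.fix [Finite G] (h : F.Blk N) (hF : F.Fa) (g : G) (S : Set (Subgroup G))
    (hS : S ⊆ Set.range (cj · N)) (hg : ∀ D ∈ S, g ∈ D ⊔ F.Gal D) :
    ∃ n ∈ Subgroup.normalClosure (N : Set G), (∀ D ∈ S, n⁻¹ * g ∈ F.Gal D) ∧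
      ∀ D ∈ Set.range (cj · N), D ∉ S → n ∈ F.Gal D := by
  induction S, S.toFinite using Set.Finite.induction_on with
  | empty => exact ⟨1, one_mem _, by simp, fun _ _ _ => one_mem _⟩
  | @insert D S hD _ ih =>
    obtain ⟨n, n1, n2, n3⟩ := ih (fun _ a => hS (.inr a)) fun _ a => hg _ (.inr a)
    have a := hS (.inl rfl)
    obtain ⟨m, m1, c, c1, e⟩ := (hF.mem_sup (Dj_Gal D)).1 ((D ⊔ F.Gal D).mul_mem
      (Subgroup.mem_sup_right (inv_mem (n3 D a hD))) (hg D (.inl rfl)))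
    refine ⟨n * m, mul_mem n1 (ncl_le.1 le_rfl D a m1), ?_, fun D' b k => mul_mem
      (n3 D' b fun u => k (.inr u)) (h.le a b (fun u => k (.inl u.symm)) m1)⟩
    rintro D' (rfl | b)
    · rwa [mul_inv_rev, mul_assoc, ← e, inv_mul_cancel_left]
    · rw [mul_inv_rev, mul_assoc]
      exact mul_mem (inv_mem (h.le a (hS (.inr b)) (fun u => hD (u ▸ b)) m1)) (n2 D' b)

theorem push_map {φ : G →* Q} (hφ : Function.Surjective φ) {H : Subgroup G} (m : H ∈ F.s) :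
    H.map φ ∈ (F.push φ hφ).s := F.up m (Subgroup.le_comap_map _ _)

end Fam

open Fam

theorem sBlk : S_blk := by
  rintro G _ _ F hF ⟨X, Y, hX, hY, d, v⟩
  obtain ⟨N, l, ⟨n, c, v'⟩, m⟩ := exists_minimal_le_of_wellFoundedLT
    (fun N => N ≠ ⊥ ∧ F.Gal (F.Gal N) = N ∧ N ⊔ F.Gal N ∈ F.s) (F.Gal (F.Gal X))
    ⟨fun e => hX (le_bot_iff.1 (e ▸ le_Gal_Gal X)), Gal_Gal_Gal _, F.up v
      (sup_le_sup (le_Gal_Gal X) (by rw [Gal_Gal_Gal]; exact le_Gal.2 d))⟩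
  have M : F.MinV N := fun N' a b c v => le_antisymm a (m ⟨b, c, v⟩ a)
  refine ⟨N, M.blk hF n c v', fun e => hY (le_bot_iff.1 ?_), M⟩
  rw [← e]
  exact (le_Gal.2 d).trans ((Gal_Gal_Gal X).ge.trans (Gal_anti l))

theorem sLift : S_lift := by
  intro G Q _ _ _ F N φ hφ hF h hk
  have c : ∀ {H : Subgroup G}, (∀ D ∈ Set.range (cj · N), D ≤ H) → (H.map φ).comap φ = H :=
    fun a => Subgroup.comap_map_eq_self (hk ▸ ncl_le.2 a)
  have c' : ∀ D ∈ Set.range (cj · N), ((D ⊔ F.Gal D).map φ).comap φ = D ⊔ F.Gal D :=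
    fun D a => c (ncl_le.1 (h.vis' a).2)
  refine ⟨fun q hq => ?_, hk ▸ (h.vis' ⟨1, cj_one N⟩).2, fun X Y d => ?_⟩
  · obtain ⟨g, rfl⟩ := hφ q
    obtain ⟨n, n1, n2, -⟩ := h.fix hF g _ subset_rfl fun D a =>
      c' D a ▸ hq _ (push_map hφ (h.vis' a).1)
    rw [← inv_mul_eq_one.1 (hF (n⁻¹ * g) fun H m => ?_)]
    · exact (hk ▸ n1 : n ∈ φ.ker)
    by_cases e : ∀ D ∈ Set.range (cj · N), D ≤ H
    · exact mul_mem (inv_mem (ncl_le.2 e n1)) (c e ▸ hq _ (push_map hφ m))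
    · push Not at e
      obtain ⟨D, a, b⟩ := e
      exact mem_Gal.1 (n2 D a) H m b
  have k : ∀ (X : Subgroup Q) (S : Set (Subgroup G)), S ⊆ Set.range (cj · N) →
      (∀ D ∈ S, X.comap φ ≤ D ⊔ F.Gal D) → (X.comap φ ⊓ ⨅ D ∈ S, F.Gal D).map φ = X ∧
        ∀ D ∈ Set.range (cj · N), D ∉ S → D ≤ X.comap φ ⊓ ⨅ D ∈ S, F.Gal D := fun X S a b => by
    have e : Subgroup.normalClosure (N : Set G) ≤ X.comap φ := hk ▸ φ.ker_le_comap X
    refine ⟨le_antisymm (Subgroup.map_le_iff_le_comap.2 inf_le_left) fun x hx => ?_, fun D u v =>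
      le_inf ((ncl_le.1 le_rfl D u).trans e) (le_iInf₂ fun D' w => h.le u (a w) fun z => v (z ▸ w))⟩
    obtain ⟨g, rfl⟩ := hφ x
    obtain ⟨n, n1, n2, -⟩ := h.fix hF g S a fun D u => b D u hx
    refine ⟨n⁻¹ * g, ⟨(X.comap φ).mul_mem (inv_mem (e n1)) hx, by simpa using n2⟩, ?_⟩
    rw [map_mul, map_inv, show φ n = 1 from (hk ▸ n1 : n ∈ φ.ker), inv_one, one_mul]
  obtain ⟨x1, x2⟩ := k X {D | D ∈ Set.range (cj · N) ∧ X.comap φ ≤ D ⊔ F.Gal D} (fun _ a => a.1)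
    fun _ a => a.2
  obtain ⟨y1, y2⟩ := k Y {D | D ∈ Set.range (cj · N) ∧ ¬X.comap φ ≤ D ⊔ F.Gal D} (fun _ a => a.1)
    fun D a => c' D a.1 ▸ Subgroup.comap_mono ((d _ (push_map hφ (h.vis' a.1).1)).resolve_left
      fun u => a.2 (c' D a.1 ▸ Subgroup.comap_mono u))
  refine ⟨_, _, fun H m => ?_, x1, y1, hk ▸ ncl_le.2 fun D a => ?_⟩
  · by_cases e : ∀ D ∈ Set.range (cj · N), D ≤ H
    · exact (d _ (push_map hφ m)).imp (fun u => inf_le_left.trans (c e ▸ Subgroup.comap_mono u))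
        fun u => inf_le_left.trans (c e ▸ Subgroup.comap_mono u)
    push Not at e
    obtain ⟨D, a, b⟩ := e
    have := (Dj_Gal D H m).resolve_left b
    by_cases e : X.comap φ ≤ D ⊔ F.Gal D
    · exact .inl (inf_le_right.trans ((iInf₂_le D ⟨a, e⟩).trans this))
    · exact .inr (inf_le_right.trans ((iInf₂_le D ⟨a, e⟩).trans this))
  · by_cases e : X.comap φ ≤ D ⊔ F.Gal D
    · exact le_sup_of_le_right (y2 D a fun u => u.2 e)
    · exact le_sup_of_le_left (x2 D a fun u => e u.2)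

end Pool.Agent.Lib.MP_3cc314_lc.Cg
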