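import Pool.Agent.Lib.MP_3cc314_lc.CgSpec

set_option autoImplicit false

namespace Pool.Agent.Lib.MP_3cc314_lc.Cg
open scoped Classical

variable {G : Type} [Group G]

namespace Fam
variable {F : Fam G}

/-- the support of an element -/
def su (F : Fam G) (c : G) : Set (Subgroup G) := {H | H ∈ F.s ∧ c ∉ H}

theorem dj_su {x y : G} : F.dj x y ↔ F.su x ∩ F.su y = ∅ := by
  simp only [dj, su, Set.eq_empty_iff_forall_notMem, Set.mem_inter_iff, Set.mem_ofPred_eq]
  exact forall_congr' fun H => by tauto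

theorem dj.inv_left {x y : G} (h : F.dj x y) : F.dj x⁻¹ y := fun H m =>
  (h H m).imp_left H.inv_mem

theorem dj.inv_right {x y : G} (h : F.dj x y) : F.dj x y⁻¹ := fun H m =>
  (h H m).imp_right H.inv_mem

theorem dj.mul_right {x y z : G} (h : F.dj x y) (h' : F.dj x z) : F.dj x (y * z) := fun H m =>
  (h H m).elim .inl fun a => (h' H m).imp_right (H.mul_mem a)

theorem dj.mul_left {x y z : G} (h : F.dj x z) (h' : F.dj y z) : F.dj (x * y) z :=
  (h.symm.mul_right h'.symm).symm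

theorem dj_one (x : G) : F.dj x 1 := fun H _ => .inr H.one_mem

theorem dj_prod {x : G} {l : List G} (h : ∀ c ∈ l, F.dj x c) : F.dj x l.prod := fun H m =>
  or_iff_not_imp_left.2 fun n => H.list_prod_mem fun c hc => (h c hc H m).resolve_left n

theorem Ind.inv {c : G} (hF : F.Fa) (h : F.Ind c) : F.Ind c⁻¹ :=
  ⟨inv_ne_one.2 h.1, fun a b e d => (h.2 a⁻¹ b⁻¹ (by
    rw [hF.comm d.inv_left.inv_right, ← mul_inv_rev, ← e, inv_inv]) d.inv_left.inv_right).imp
      inv_eq_one.1 inv_eq_one.1⟩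

/-- a sub-element of an indecomposable element -/
theorem Ind.sub {c a : G} (h : F.Ind c) (d : F.dj a (a⁻¹ * c)) : a = 1 ∨ a = c :=
  (h.2 a _ (mul_inv_cancel_left a c).symm d).imp_right inv_mul_eq_one.1

theorem Fa.fact [Finite G] (hF : F.Fa) (g : G) : ∃ l : List G, l.prod = g ∧ (∀ c ∈ l, F.Ind c) ∧
    l.Pairwise F.dj ∧ ∀ c ∈ l, ∀ H ∈ F.s, g ∈ H → c ∈ H := by
  induction hn : (F.su g).ncard using Nat.strong_induction_on generalizing g with
  | _ n ih =>
  by_cases h1 : g = 1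
  · exact ⟨[], h1.symm, by simp, by simp, by simp⟩
  by_cases h2 : F.Ind g
  · exact ⟨[g], by simp, by simpa using h2, by simp, by simp⟩
  obtain ⟨a, b, rfl, d, n⟩ : ∃ a b, g = a * b ∧ F.dj a b ∧ a ≠ 1 ∧ b ≠ 1 := by
    by_contra h
    exact h2 ⟨h1, fun a b e d => by
      by_contra k
      exact h ⟨a, b, e, d, not_or.1 k⟩⟩
  have k : ∀ {a b g : G}, (∀ H ∈ F.s, g ∈ H → a ∈ H ∧ b ∈ H) → F.dj a b → b ≠ 1 →
      (F.su a).ncard < (F.su g).ncard := fun {a b g} e d n =>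
    Set.ncard_lt_ncard ⟨fun H h => ⟨h.1, fun k => h.2 (e H h.1 k).1⟩, fun h => n (hF b fun H m => by
      by_contra k
      exact (h ⟨m, fun u => k (e H m u).2⟩).2 ((d H m).resolve_right k))⟩ (Set.toFinite _)
  obtain ⟨l, l1, l2, l3, l4⟩ := ih _ (hn ▸ k (fun H m u => ⟨d.left m u, d.right m u⟩) d n.2) a rfl
  obtain ⟨r, r1, r2, r3, r4⟩ :=
    ih _ (hn ▸ k (fun H m u => ⟨d.right m u, d.left m u⟩) d.symm n.1) b rfl
  refine ⟨l ++ r, by rw [List.prod_append, l1, r1], fun c hc => (List.mem_append.1 hc).elim (l2 c)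
    (r2 c), List.pairwise_append.2 ⟨l3, r3, fun c hc c' hc' H m =>
      (d H m).imp (l4 c hc H m) (r4 c' hc' H m)⟩, fun c hc H m u => ?_⟩
  exact (List.mem_append.1 hc).elim (fun h => l4 c h H m (d.left m u))
    fun h => r4 c h H m (d.right m u)

theorem SF.sub2 [Finite G] (hS : F.SF) (hF : F.Fa) {x y a b : G} (hx : F.Ind x) (hy : F.Ind y)
    (d : F.dj x y) (e : x * y = a * b) (d' : F.dj a b) : a = 1 ∨ a = x ∨ a = y ∨ a = x * y := by
  have ea : a = x * y * b⁻¹ := by rw [e, mul_inv_cancel_right]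
  obtain ⟨g, hg⟩ := hS.split (Subgroup.zpowers x) a fun H m n => by
    have hy := (d H m).resolve_left (mt Subgroup.zpowers_le.2 n)
    rcases d' H m with k | k
    · exact ⟨1, one_mem _, by simpa using k⟩
    · exact ⟨x, Subgroup.mem_zpowers x, by
        rw [ea, mul_assoc, inv_mul_cancel_left]
        exact H.mul_mem hy (H.inv_mem k)⟩
  simp only [Subgroup.zpowers_le] at hg
  have c : F.dj g x := fun H m => or_iff_not_imp_right.2 (hg H m).2
  have h1 := hx.sub (a := g⁻¹ * a) fun H m => by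
    by_cases k : x ∈ H
    · exact .inl ((hg H m).1 k)
    have g1 := (hg H m).2 k
    refine (d' H m).imp (H.mul_mem (H.inv_mem g1)) fun u => ?_
    have : (g⁻¹ * a)⁻¹ * x = b * y⁻¹ * g := by
      rw [mul_inv_rev, inv_inv, mul_assoc, hF.comm c, ea]
      group
    rw [this]
    exact H.mul_mem (H.mul_mem u (H.inv_mem ((d H m).resolve_left k))) g1
  have h2 := hy.sub (a := g) fun H m => by
    by_cases k : x ∈ H
    swap
    · exact .inl ((hg H m).2 k)
    have g1 := (hg H m).1 k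
    refine (d' H m).imp (fun u => ?_) fun u => ?_
    · simpa using H.mul_mem u (H.inv_mem g1)
    · have : g⁻¹ * y = g⁻¹ * a * b * x⁻¹ := by
        rw [mul_assoc g⁻¹, ← e, hF.comm d]
        group
      rw [this]
      exact H.mul_mem (H.mul_mem g1 u) (H.inv_mem k)
  rw [← mul_inv_cancel_left g a]
  rcases h1 with h1 | h1 <;> rcases h2 with h2 | h2 <;> rw [h1, h2] <;> simp [hF.comm d]

theorem Fa.desc [Finite G] (hF : F.Fa) {X Y : Set G} (hX : ∀ c ∈ X, F.Ind c) (hY : ∀ c ∈ Y, F.Ind c)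
    (h : ∀ c ∈ X, ∀ c' ∈ Y, ¬F.dj c c' →
      ∃ d ∈ X, ∃ d' ∈ Y, ∃ e, c * c' = d * d' * e ∧ F.dj d d' ∧ F.dj d e ∧ F.dj d' e)
    {c c' : G} (hc : c ∈ X) (hc' : c' ∈ Y) : F.dj c c' := by
  induction hn : (F.su c ∪ F.su c').ncard using Nat.strong_induction_on generalizing c c' with
  | _ n ih =>
  induction hm : (F.su c ∩ F.su c').ncard using Nat.strong_induction_on generalizing c c' with
  | _ m ih' =>
  by_contra k
  obtain ⟨d, hd, d', hd', e, p, q1, q2, q3⟩ := h c hc c' hc' k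
  have n1 : ¬F.dj d c' := fun u => by
    refine ((hX c hc).sub (a := d) ?_).elim (hX d hd).1 fun v => k (v ▸ u)
    rw [show d⁻¹ * c = d' * e * c'⁻¹ by rw [← mul_inv_cancel_right c c', p]; group]
    exact (q1.mul_right q2).mul_right u.inv_right
  have n2 : ¬F.dj c d' := fun u => by
    refine ((hY c' hc').sub (a := d') ?_).elim (hY d' hd').1 fun v => k (v ▸ u)
    rw [show d'⁻¹ * c' = c⁻¹ * d * e by
      rw [← inv_mul_cancel_left c c', p, hF.comm q1, ← mul_assoc, ← mul_assoc, ← mul_assoc,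
        ← hF.comm u.inv_left.inv_right]
      group]
    exact (u.symm.inv_right.mul_right q1.symm).mul_right q3
  have s : ∀ H ∈ F.s, c ∈ H → c' ∈ H → d ∈ H ∧ d' ∈ H := fun H m a b => by
    have u := (q2.mul_left q3).left m (p ▸ H.mul_mem a b)
    exact ⟨q1.left m u, q1.right m u⟩
  have s1 : F.su d ∪ F.su c' ⊆ F.su c ∪ F.su c' := by
    rintro H (u | u)
    · by_contra v
      simp only [su, Set.mem_union, Set.mem_ofPred_eq, u.1, true_and, not_or, not_not] at v
      exact u.2 (s H u.1 v.1 v.2).1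
    · exact .inr u
  have s2 : F.su c ∪ F.su d' ⊆ F.su c ∪ F.su c' := by
    rintro H (u | u)
    · exact .inl u
    · by_contra v
      simp only [su, Set.mem_union, Set.mem_ofPred_eq, u.1, true_and, not_or, not_not] at v
      exact u.2 (s H u.1 v.1 v.2).2
  have e1 := Set.eq_of_subset_of_ncard_le s1 (not_lt.1 fun u => n1 (ih _ (hn ▸ u) hd hc' rfl))
  have e2 := Set.eq_of_subset_of_ncard_le s2 (not_lt.1 fun u => n2 (ih _ (hn ▸ u) hc hd' rfl))
  have q := Set.eq_empty_iff_forall_notMem.1 (dj_su.1 q1)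
  refine n1 (ih' _ (hm ▸ Set.ncard_lt_ncard ⟨fun H u => ⟨?_, u.2⟩, fun u => n2 ?_⟩
    (Set.toFinite _)) hd hc' (e1 ▸ hn) rfl)
  · exact (e2.ge (.inr u.2)).elim id fun v => (q H ⟨u.1, v⟩).elim
  · refine dj_su.2 (Set.eq_empty_iff_forall_notMem.2 fun H v => ?_)
    exact (e1.ge (.inl v.1)).elim (fun w => q H ⟨w, v.2⟩) fun w => q H ⟨(u ⟨v.1, w⟩).1, v.2⟩

end Fam

theorem sInd : S_ind := fun _ _ _ _ hF =>
  ⟨fun g => (hF.fact g).imp fun _ h => ⟨h.1, h.2.1, h.2.2.1⟩,
    fun hS _ _ _ _ hx hy d e d' => hS.sub2 hF hx hy d e d',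
    fun _ _ hX hY h _ hc _ hc' => hF.desc hX hY (fun c a c' b _ => h c a c' b) hc hc'⟩

end Pool.Agent.Lib.MP_3cc314_lc.Cg
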