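import Pool.Agent.Lib.MP_3cc314_lc.CgSpec

set_option autoImplicit false

namespace Pool.Agent.Lib.MP_3cc314_lc.Cg
open scoped Classical

variable {G : Type} [Group G] [Finite G]

/-- the product formula as an inequality -/
theorem card_mul_le (H K : Subgroup G) :
    Nat.card H * Nat.card K ≤ Nat.card (H ⊓ K : Subgroup G) * Nat.card (H ⊔ K : Subgroup G) := by
  have e : ∀ L : Subgroup G, Nat.card (H ⊓ L : Subgroup G) * H.relIndex L = Nat.card L := fun L => by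
    rw [← Subgroup.inf_relIndex_right, ← Subgroup.card_mul_index ((H ⊓ L).subgroupOf L),
      Nat.card_congr (Subgroup.subgroupOfEquivOfLe (inf_le_right : H ⊓ L ≤ L)).toEquiv]
    rfl
  have l : H.relIndex K ≤ H.relIndex (H ⊔ K) :=
    Subgroup.relIndex_le_of_le_right le_sup_right Subgroup.index_ne_zero_of_finite
  have e2 := e (H ⊔ K)
  rw [inf_eq_left.2 le_sup_left] at e2
  rw [← e K, ← e2]
  calc _ = Nat.card (H ⊓ K : Subgroup G) * (Nat.card H * H.relIndex K) := by ring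
    _ ≤ _ := by gcongr

namespace Fam
variable {F : Fam G} {A B A' B' : Subgroup G}

omit [Finite G] in
theorem Dj.sup {X Y Z : Subgroup G} (h : F.Dj X Y) (h' : F.Dj X Z) : F.Dj X (Y ⊔ Z) :=
  le_Gal.1 (sup_le (le_Gal.2 h) (le_Gal.2 h'))

theorem exists_ext (h : ¬F.Rd) : ∃ A B, F.Ext A B := by
  unfold Rd at h
  push Not at h
  obtain ⟨x, y, d, hx, hy⟩ := h
  let S : Set (Subgroup G × Subgroup G) := {p | p.1 ≠ ⊥ ∧ p.2 ≠ ⊥ ∧ F.Dj p.1 p.2}
  obtain ⟨p, hp, mp⟩ := Set.exists_max_image S (fun p => Nat.card p.1 * Nat.card p.2) (Set.toFinite _)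
    ⟨(_, _), Subgroup.zpowers_ne_bot.2 hx, Subgroup.zpowers_ne_bot.2 hy, dj_iff.1 d⟩
  obtain ⟨q, hq, mq⟩ := Set.exists_min_image
    {q ∈ S | Nat.card q.1 * Nat.card q.2 = Nat.card p.1 * Nat.card p.2} (fun p => Nat.card p.1)
    (Set.toFinite _) ⟨p, hp, rfl⟩
  exact ⟨q.1, q.2, hq.1.1, hq.1.2.1, hq.1.2.2, fun X Y a b c => hq.2 ▸ mp (X, Y) ⟨a, b, c⟩,
    fun X Y a b c e => mq (X, Y) ⟨⟨a, b, c⟩, e.trans hq.2⟩⟩

theorem Ext.gal (e : F.Ext A B) : F.Gal A = B := by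
  have l := le_Gal.2 e.dj
  exact (Subgroup.eq_of_le_of_card_ge l (Nat.le_of_mul_le_mul_left
    (e.mx A _ e.a (ne_bot_of_le_ne_bot e.b l) (Dj_Gal A)) Nat.card_pos)).symm

theorem Ext.gal' (e : F.Ext A B) : F.Gal B = A := by
  have l := le_Gal.2 e.dj.symm
  exact (Subgroup.eq_of_le_of_card_ge l (Nat.le_of_mul_le_mul_right
    (e.mx _ B (ne_bot_of_le_ne_bot e.a l) e.b (Dj_Gal B).symm) Nat.card_pos)).symm

omit [Finite G] in
theorem Ext.cj (e : F.Ext A B) (g : G) : F.Ext (cj g A) (cj g B) :=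
  ⟨mt cj_eq_bot.1 e.a, mt cj_eq_bot.1 e.b, e.dj.cj g, by simpa only [card_cj] using e.mx,
    by simpa only [card_cj] using e.mn⟩

theorem Ext.cards (e : F.Ext A B) (e' : F.Ext A' B') :
    Nat.card A' = Nat.card A ∧ Nat.card B' = Nat.card B := by
  have h := le_antisymm (e.mx _ _ e'.a e'.b e'.dj) (e'.mx _ _ e.a e.b e.dj)
  have a := le_antisymm (e'.mn _ _ e.a e.b e.dj h.symm) (e.mn _ _ e'.a e'.b e'.dj h)
  exact ⟨a, Nat.eq_of_mul_eq_mul_left Nat.card_pos (a ▸ h)⟩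

omit [Finite G] in
theorem Ext.le (e : F.Ext A B) : Nat.card A ≤ Nat.card B :=
  e.mn _ _ e.b e.a e.dj.symm (mul_comm _ _)

/-- a part of `A` in a decomposable pair of maximal order is `A` -/
theorem Ext.eq (e : F.Ext A B) {X Y : Subgroup G} (l : X ≤ A) (hX : X ≠ ⊥) (hY : Y ≠ ⊥)
    (d : F.Dj X Y) (c : Nat.card A * Nat.card B ≤ Nat.card X * Nat.card Y) : X = A :=
  Subgroup.eq_of_le_of_card_ge l (e.mn _ _ hX hY d (le_antisymm (e.mx _ _ hX hY d) c))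

theorem Ext.cross (e : F.Ext A B) (e' : F.Ext A' B') (h : A ⊓ B' ≠ ⊥) : A ≤ B' ∧ A' ≤ B := by
  obtain ⟨ca, cb⟩ := e.cards e'
  have d1 : F.Dj (A ⊓ B') (A' ⊔ B) :=
    (e'.dj.symm.mono inf_le_right le_rfl).sup (e.dj.mono inf_le_left le_rfl)
  have d2 : F.Dj (A' ⊓ B) (A ⊔ B') :=
    (e.dj.symm.mono inf_le_right le_rfl).sup (e'.dj.mono inf_le_left le_rfl)
  have n1 : A' ⊔ B ≠ ⊥ := ne_bot_of_le_ne_bot e.b le_sup_right
  have n2 : A ⊔ B' ≠ ⊥ := ne_bot_of_le_ne_bot e.a le_sup_left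
  have m1 := e.mx _ _ h n1 d1
  have p1 := card_mul_le A' B
  have p2 := card_mul_le A B'
  rw [ca] at p1
  rw [cb] at p2
  have l1 := Nat.le_of_mul_le_mul_right (m1.trans p1) Nat.card_pos
  have h' : A' ⊓ B ≠ ⊥ := fun z => h (by
    rw [z, Subgroup.card_bot] at l1
    exact Subgroup.card_le_one_iff_eq_bot _ |>.1 l1)
  have l2 := Nat.le_of_mul_le_mul_right ((e.mx _ _ h' n2 d2).trans p2) Nat.card_pos
  refine ⟨inf_eq_left.1 (e.eq inf_le_left h n1 d1 (p1.trans (by gcongr))),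
    inf_eq_left.1 (e'.eq inf_le_left h' n2 d2 ?_)⟩
  rw [ca, cb]
  exact p2.trans (by gcongr)

theorem Ext.same (e : F.Ext A B) (e' : F.Ext A' B') (h : A ⊓ A' ≠ ⊥) : A' = A := by
  obtain ⟨ca, cb⟩ := e.cards e'
  have d1 : F.Dj (A ⊓ A') (B ⊔ B') :=
    (e.dj.mono inf_le_left le_rfl).sup (e'.dj.mono inf_le_right le_rfl)
  have d2 : F.Dj (B ⊓ B') (A ⊔ A') :=
    (e.dj.symm.mono inf_le_left le_rfl).sup (e'.dj.symm.mono inf_le_right le_rfl)
  have n1 : B ⊔ B' ≠ ⊥ := ne_bot_of_le_ne_bot e.b le_sup_left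
  have n2 : A ⊔ A' ≠ ⊥ := ne_bot_of_le_ne_bot e.a le_sup_left
  have m1 := e.mx _ _ h n1 d1
  have p1 := card_mul_le B B'
  have p2 := card_mul_le A A'
  rw [cb] at p1
  rw [ca] at p2
  have x2 : 1 < Nat.card (A ⊓ A' : Subgroup G) := (Subgroup.one_lt_card_iff_ne_bot _).2 h
  have ab := e.le
  have a0 : 0 < Nat.card A := Nat.card_pos
  have h' : B ⊓ B' ≠ ⊥ := fun z => by
    rw [z, Subgroup.card_bot, one_mul] at p1
    nlinarith [Nat.mul_le_mul_left (Nat.card (A ⊓ A' : Subgroup G)) p1]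
  have m2 := e.mx _ _ h' n2 d2
  have : A ⊓ A' = A := e.eq inf_le_left h n1 d1 (by
    refine Nat.le_of_mul_le_mul_right (c := Nat.card A * Nat.card B) ?_ (mul_pos a0 (a0.trans_le ab))
    calc _ = Nat.card A * Nat.card A * (Nat.card B * Nat.card B) := by ring
      _ ≤ _ := Nat.mul_le_mul p2 p1
      _ = Nat.card (A ⊓ A' : Subgroup G) * Nat.card (B ⊔ B' : Subgroup G) *
        (Nat.card (B ⊓ B' : Subgroup G) * Nat.card (A ⊔ A' : Subgroup G)) := by ring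
      _ ≤ _ := by gcongr)
  exact (Subgroup.eq_of_le_of_card_ge (inf_eq_left.1 this) ca.le).symm

end Fam

theorem sM1 : S_m1 := fun G _ _ F hF =>
  ⟨Fam.exists_ext, fun A B e => ⟨e.gal, e.gal', e.cj, fun X Y a b d l =>
    (Subgroup.eq_of_le_of_card_ge l (by
      rw [hF.card_sup d, hF.card_sup e.dj]; exact e.mx X Y a b d)).ge,
    fun A' B' e' n => ⟨by_contra fun h => n (e.same e' h), by
      by_contra h
      rw [not_or, not_and_or] at h
      exact h.1 (h.2.elim (fun a => (e.cross e' a).2) fun a => (e'.cross e a).1)⟩⟩⟩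

end Pool.Agent.Lib.MP_3cc314_lc.Cg
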