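import Pool.Agent.Lib.MP_3cc314_lc.CgDet
import Pool.Agent.Lib.MP_3cc314_lc.CgInd
import Pool.Agent.Lib.MP_3cc314_lc.CgM1

set_option autoImplicit false

namespace Pool.Agent.Lib.MP_3cc314_lc.Cg
open scoped Classical

namespace Fam
variable {G T : Type} [Group G] [Group T] {F : Fam G} {A B : Subgroup G}

/-- a maximal decomposable pair -/
structure Mx (F : Fam G) (A B : Subgroup G) : Prop where
  a : A ≠ ⊥
  b : B ≠ ⊥
  dj : F.Dj A B
  mx : ∀ X Y : Subgroup G, X ≠ ⊥ → Y ≠ ⊥ → F.Dj X Y → A ⊔ B ≤ X ⊔ Y → X ⊔ Y ≤ A ⊔ B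

theorem Mx.symm (h : F.Mx A B) : F.Mx B A :=
  ⟨h.b, h.a, h.dj.symm, by rw [sup_comm]; exact h.mx⟩

theorem Mx.gal (h : F.Mx A B) (hF : F.Fa) : F.Gal A = B := by
  have l := le_Gal.2 h.dj
  refine le_antisymm (fun x hx => ?_) l
  obtain ⟨a, ha, b, hb, rfl⟩ := (hF.mem_sup h.dj).1 (h.mx A _ h.a (ne_bot_of_le_ne_bot h.b l)
    (Dj_Gal A) (sup_le_sup_left l _) (Subgroup.mem_sup_right hx))
  rw [hF.dj_self ((Dj_Gal A).dj ha ((h.dj.dj ha hb).left_Gal hx)), one_mul]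
  exact hb

theorem Mx.cl [Finite G] (h : F.Mx A B) (hF : F.Fa) (hS : F.SF) : F.Cl (A ⊔ B) := fun g hg => by
  obtain ⟨g', h'⟩ := hS.split B g fun H m n => by
    obtain ⟨l, hl, u⟩ := hg H m
    obtain ⟨b, hb, a, ha, rfl⟩ := (hF.mem_sup h.dj.symm).1 (sup_comm A B ▸ hl)
    rw [mul_inv_rev, mul_assoc] at u
    exact ⟨b, hb, (H.mul_mem_cancel_left (inv_mem ((h.dj H m).resolve_right n ha))).1 u⟩
  rw [← mul_inv_cancel_left g' g]
  refine Subgroup.mul_mem_sup ?_ ?_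
  · rw [← h.symm.gal hF]
    exact mem_Gal.2 fun H m n => (h' H m).2 n
  · rw [← h.gal hF]
    exact mem_Gal.2 fun H m n => (h' H m).1 ((h.dj H m).resolve_left n)

theorem Mx.side [Finite G] [B.Normal] (h : F.Mx A B) (hF : F.Fa) (π : G →* T)
    (k : π.ker = A ⊔ B) : ∃ ψ : G ⧸ B →* T, (∀ x, ψ (QuotientGroup.mk' B x) = π x) ∧
      (F.push (QuotientGroup.mk' B) (QuotientGroup.mk'_surjective B)).Fa ∧ ψ.ker ≠ ⊥ ∧
      (F.push (QuotientGroup.mk' B) (QuotientGroup.mk'_surjective B)).Star ψ.ker ∧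
      Nat.card (G ⧸ B) < Nat.card G := by
  let φ := QuotientGroup.mk' B
  have hφ : Function.Surjective φ := QuotientGroup.mk'_surjective _
  have ker : φ.ker = B := QuotientGroup.ker_mk' _
  let ψ := QuotientGroup.lift B π (le_sup_right.trans k.ge)
  have ck : ψ.ker.comap φ = A ⊔ B := k
  have cm : ∀ H : Subgroup G, B ≤ H → (H.map φ).comap φ = H := fun H l =>
    Subgroup.comap_map_eq_self (ker.le.trans l)
  have lB : ∀ X, B ≤ Subgroup.comap φ X := fun X => ker.ge.trans (φ.ker_le_comap X)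
  have sp : ∀ x ∈ ψ.ker, ∃ a ∈ A, φ a = x := fun x hx => by
    obtain ⟨x, rfl⟩ := hφ x
    obtain ⟨a, ha, b, hb, rfl⟩ := (hF.mem_sup h.dj).1 (ck.le hx)
    exact ⟨a, ha, by rw [map_mul, MonoidHom.mem_ker.1 (ker.ge hb), mul_one]⟩
  refine ⟨ψ, fun _ => rfl, Cl.fa (h.gal hF ▸ cl_Gal A), fun z => h.a ?_, fun N C n d l l' => ?_, ?_⟩
  · rw [← hF.inf h.dj, left_eq_inf, ← ker, ← MonoidHom.comap_bot, ← z, ck]
    exact le_sup_left
  · have d' : F.Dj (N.comap φ ⊓ A) (C.comap φ) := fun H m => by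
      by_cases a : A ≤ H
      · exact .inl (inf_le_right.trans a)
      have b := cm H ((h.dj H m).resolve_left a)
      exact (d (H.map φ) (F.up m (Subgroup.le_comap_map _ _))).imp
        (fun z => inf_le_left.trans ((Subgroup.comap_mono z).trans b.le))
        fun z => (Subgroup.comap_mono z).trans b.le
    have n' : N.comap φ ⊓ A ≠ ⊥ := fun z => n (eq_bot_iff.2 fun y hy => by
      obtain ⟨a, ha, rfl⟩ := sp y (l hy)
      have : a ∈ N.comap φ ⊓ A := ⟨hy, ha⟩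
      rw [z, Subgroup.mem_bot] at this
      rw [this, map_one]
      exact one_mem _)
    have := h.mx _ _ n' (ne_bot_of_le_ne_bot h.b (lB C)) d' (by
      rw [← ck]
      refine (Subgroup.comap_mono l').trans ?_
      rw [← Subgroup.comap_sup_eq _ _ _ hφ]
      refine sup_le (fun x hx => ?_) le_sup_right
      obtain ⟨a, ha, q⟩ := sp _ (l hx)
      rw [← mul_inv_cancel_left a x]
      exact Subgroup.mul_mem_sup ⟨show φ a ∈ N from q ▸ hx, ha⟩ (lB C (ker.le (by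
        rw [MonoidHom.mem_ker, map_mul, map_inv, q, inv_mul_cancel]))))
    intro y hy
    obtain ⟨y, rfl⟩ := hφ y
    exact ck.ge (this (Subgroup.mem_sup_right hy))
  · have k1 : 1 < Nat.card B := (Subgroup.one_lt_card_iff_ne_bot _).2 h.b
    have cG := Subgroup.card_eq_card_quotient_mul_card_subgroup B
    have c0 : 0 < Nat.card (G ⧸ B) := Nat.card_pos
    nlinarith

theorem Mx.s1 (hs : S_sl) [Finite G] [B.Normal] (h : F.Mx A B) (hF : F.Fa) (π : G →* T)
    (hπ : Function.Surjective π) (k : π.ker = A ⊔ B) (fa : (F.push π hπ).Fa) (sf : (F.push π hπ).SF)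
    {x y : T} (hx : (F.push π hπ).Ind x) (hy : (F.push π hπ).Ind y) (d : (F.push π hπ).dj x y) :
    ∃ g, π g = x * y ∧ ∀ z, (∀ U ∈ F.s, B ≤ U → z ∈ U ∨ z⁻¹ * g ∈ U) → π z = 1 ∨ π z = x * y := by
  obtain ⟨ψ, e, fa', n, st, -⟩ := h.side hF π k
  have sψ : Function.Surjective ψ := fun t => by
    obtain ⟨x, rfl⟩ := hπ t
    exact ⟨_, e x⟩
  have q : (F.push (QuotientGroup.mk' B) (QuotientGroup.mk'_surjective B)).push ψ sψ = F.push π hπ := by
    obtain rfl : π = ψ.comp (QuotientGroup.mk' B) := MonoidHom.ext fun x => (e x).symm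
    rfl
  obtain ⟨g, u, v⟩ := hs _ T _ ψ sψ fa' n st (q ▸ fa) (q ▸ sf) x y (q ▸ hx) (q ▸ hy) (q ▸ d)
  obtain ⟨g, rfl⟩ := QuotientGroup.mk'_surjective B g
  refine ⟨g, (e g).symm.trans u, fun z hz => ?_⟩
  refine (v.sub (a := QuotientGroup.mk' B z) fun X m => ?_).imp (fun w => ?_) fun w => ?_
  · rw [← map_inv, ← map_mul]
    exact hz _ m ((QuotientGroup.ker_mk' B).ge.trans (MonoidHom.ker_le_comap _ X))
  · rw [← e, w, map_one]
  · rw [← e, w, u]

theorem Mx.s2 (hd : S_det) [Finite G] [B.Normal] (h : F.Mx A B) (hF : F.Fa) (hS : F.SF) {n : ℕ}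
    (ih : IH n) (hn : Nat.card G ≤ n) (π : G →* T)
    (hπ : Function.Surjective π) (k : π.ker = A ⊔ B) (fa : (F.push π hπ).Fa)
    (a : (F.push π hπ).DihA ∨ (F.push π hπ).B4A) {P Q : Finset T} (r : Rel (F.push π hπ) P Q) :
    ∃ g : T → G, (∀ p, π (g p) = p) ∧
      ∀ z, π z ∈ Q → ∃ U ∈ F.s, B ≤ U ∧ ∀ p ∈ P, z⁻¹ * g p ∉ U := by
  obtain ⟨ψ, e, fa', n, st, lt⟩ := h.side hF π k
  have sψ : Function.Surjective ψ := fun t => by
    obtain ⟨x, rfl⟩ := hπ t
    exact ⟨_, e x⟩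
  have q : (F.push (QuotientGroup.mk' B) (QuotientGroup.mk'_surjective B)).push ψ sψ = F.push π hπ := by
    obtain rfl : π = ψ.comp (QuotientGroup.mk' B) := MonoidHom.ext fun x => (e x).symm
    rfl
  obtain ⟨g, u, v⟩ := hd _ ih T _ P Q fa a r _ _ ψ sψ (lt.trans_le hn) fa' (hS.push _ _) n st
    (congrArg Fam.s q)
  choose σ hσ using QuotientGroup.mk'_surjective B
  refine ⟨fun p => σ (g p), fun p => by rw [← e, hσ, u], fun z hz => ?_⟩
  obtain ⟨U, m, w⟩ := v (QuotientGroup.mk' B z) (e z ▸ hz)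
  refine ⟨_, m, (QuotientGroup.ker_mk' B).ge.trans (MonoidHom.ker_le_comap _ U), fun p hp c => w p hp ?_⟩
  rwa [Subgroup.mem_comap, map_mul, map_inv, hσ] at c

theorem ind_map (π : G →* T) {U : Subgroup G} (l : π.ker ≤ U) (w u : G) :
    ind w U u = ind (π w) (U.map π) (π u) := by
  have : (π w)⁻¹ * π u ∈ U.map π ↔ w⁻¹ * u ∈ U := by
    rw [← map_inv, ← map_mul, ← Subgroup.mem_comap, Subgroup.comap_map_eq_self l]
  simp only [ind, this]

theorem Fa.ex_ind [Finite G] (hF : F.Fa) {g : G} (n : g ≠ 1) :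
    ∃ c, F.Ind c ∧ ∀ H ∈ F.s, g ∈ H → c ∈ H := by
  obtain ⟨l, e, a, -, b⟩ := hF.fact g
  obtain ⟨c, hc⟩ := List.exists_mem_of_ne_nil l (by rintro rfl; exact n e.symm)
  exact ⟨c, a c hc, b c hc⟩

theorem Mx.mem (hs : S_sl) (hg : S_glue) (ha : S_atom) (hd : S_det) [Finite G] [A.Normal] [B.Normal]
    (h : F.Mx A B) (hF : F.Fa) (hS : F.SF) {n : ℕ} (ih : IH n) (hn : Nat.card G ≤ n) :
    A ⊔ B ∈ F.s := by
  let π := QuotientGroup.mk' (A ⊔ B)
  have hπ : Function.Surjective π := QuotientGroup.mk'_surjective _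
  have k : π.ker = A ⊔ B := QuotientGroup.ker_mk' _
  have k' : π.ker = B ⊔ A := k.trans (sup_comm _ _)
  have fa : (F.push π hπ).Fa := (h.cl hF hS).fa
  have sf : (F.push π hπ).SF := hS.push π hπ
  have pm : ∀ U ∈ F.s, U.map π ∈ (F.push π hπ).s := fun U m => F.up m (Subgroup.le_comap_map _ _)
  have rd : (F.push π hπ).Rd := fun x y d => by
    by_contra c
    obtain ⟨x, hx, u⟩ := fa.ex_ind fun e => c (.inl e)
    obtain ⟨y, hy, v⟩ := fa.ex_ind fun e => c (.inr e)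
    have d : (F.push π hπ).dj x y := fun H m => (d H m).imp (u H m) (v H m)
    obtain ⟨g, eg, pg⟩ := h.s1 hs hF π hπ k fa sf hx hy d
    obtain ⟨g', eg', pg'⟩ := h.symm.s1 hs hF π hπ k' fa sf (hx.inv fa) hy d.inv_left
    obtain ⟨w, ew⟩ := hπ x
    obtain ⟨z, z1, z2⟩ := hg G Bool F A B hS h.dj (fun b => cond b 1 g) (fun b => cond b w (w * g'))
      fun U m l t => by
        simp only [Fintype.sum_bool, cond_true, cond_false, ind_map π (k.le.trans l), map_one, map_mul,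
          eg, eg', ew, mul_inv_cancel_left]
        rcases d _ (pm U m) with q | q
        · rw [fa.comm d, ind_mul q, ← ind_mul (x := 1) q, one_mul]
        · rw [ind_mul q, ← ind_mul (x := 1) q, one_mul, add_comm]
    have a := pg z fun U m l => by
      obtain ⟨_ | _, q⟩ := z1 U m l
      exacts [.inr q, .inl (by simpa using q)]
    have b := pg' (w⁻¹ * z) fun U m l => by
      obtain ⟨_ | _, q⟩ := z2 U m l
      · exact .inr (by simpa [mul_assoc] using q)
      · exact .inl (by simpa using U.inv_mem q)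
    rw [map_mul, map_inv, ew, inv_mul_eq_one, mul_right_inj] at b
    rcases a with a | a <;> rcases b with b | b
    · exact hx.1 (b.trans a)
    · exact hy.1 (b.symm.trans a)
    · exact hy.1 (by simpa using b.trans a)
    · exact hx.1 (by simpa using b.symm.trans a)
  have lt : Nat.card (G ⧸ (A ⊔ B)) < n := by
    have k1 : 1 < Nat.card (A ⊔ B : Subgroup G) :=
      (Subgroup.one_lt_card_iff_ne_bot _).2 (ne_bot_of_le_ne_bot h.a le_sup_left)
    have cG := Subgroup.card_eq_card_quotient_mul_card_subgroup (A ⊔ B)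
    have c0 : 0 < Nat.card (G ⧸ (A ⊔ B)) := Nat.card_pos
    nlinarith
  have at' : (F.push π hπ).DihA ∨ (F.push π hπ).B4A → False := fun a => by
    obtain ⟨-, -, P, Q, -, c, r, r', s⟩ := (ha _ _ fa).2 a
    obtain ⟨g, eg, pg⟩ := h.s2 hd hF hS ih hn π hπ k fa a r
    obtain ⟨g', eg', pg'⟩ := h.symm.s2 hd hF hS ih hn π hπ k' fa a r'
    let e := Finset.equivOfCardEq c
    have : Nonempty P := by
      obtain ⟨p, hp, -⟩ := r.two
      exact ⟨⟨p, hp⟩⟩
    obtain ⟨z, z1, z2⟩ := hg G P F A B hS h.dj (fun i => g i) (fun i => g' (e i)) fun U m l t => by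
      simp only [ind_map π (k.le.trans l), eg, eg']
      rw [Finset.sum_coe_sort P fun p => ind (π t) (U.map π) p, s _ (pm U m),
        ← Finset.sum_coe_sort Q, ← e.sum_comp]
    rcases r.cls (π z) fun X m => by
      obtain ⟨i, q⟩ := z1 _ m (le_sup_right.trans (k.ge.trans (π.ker_le_comap X)))
      exact ⟨i, i.2, by rwa [Subgroup.mem_comap, map_mul, map_inv, eg] at q⟩ with q | q
    · obtain ⟨U, m, l, w⟩ := pg' z q
      obtain ⟨i, q⟩ := z2 U m l
      exact w _ (e i).2 q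
    · obtain ⟨U, m, l, w⟩ := pg z q
      obtain ⟨i, q⟩ := z1 U m l
      exact w _ i.2 q
  rcases ih _ _ lt fa sf with a | a | a | a | ⟨X, Y, x, y, d, -⟩
  · exact F.up a k.le
  · exact ((ha _ _ fa).1 a rd).elim
  · exact (at' (.inl a)).elim
  · exact (at' (.inr a)).elim
  · obtain ⟨⟨x, hx⟩, x1⟩ := Subgroup.ne_bot_iff_exists_ne_one.1 x
    obtain ⟨⟨y, hy⟩, y1⟩ := Subgroup.ne_bot_iff_exists_ne_one.1 y
    exact ((rd x y (d.dj hx hy)).elim (fun e => x1 (Subtype.ext e)) fun e => y1 (Subtype.ext e)).elim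

end Fam

theorem sCp_of (hs : S_sl) (hg : S_glue) (ha : S_atom) (hd : S_det) : S_cp := by
  intro G _ _ F A B ih hF hS e
  let L := Subgroup.normalizer (A : Set G)
  have AL : A ≤ L := Subgroup.le_normalizer
  have LB : L ≤ Subgroup.normalizer (B : Set G) := e.gal ▸ Fam.norm_le_norm_Gal A
  have BL : B ≤ L := Subgroup.le_normalizer.trans (e.gal' ▸ Fam.norm_le_norm_Gal B :)
  have nA : (A.subgroupOf L).Normal := Subgroup.normal_in_normalizer
  have nB : (B.subgroupOf L).Normal := ⟨fun x hx g => by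
    rw [Subgroup.mem_subgroupOf] at hx ⊢
    rw [← cj_eq_iff.2 (LB g.2)]
    exact (conj_mem_cj g.1).2 hx⟩
  have ms : ∀ X : Subgroup G, X ≤ L → (X.subgroupOf L).map L.subtype = X := fun X l => by
    rw [Subgroup.subgroupOf_map_subtype, inf_eq_left.2 l]
  have ne : ∀ X : Subgroup G, X ≤ L → X ≠ ⊥ → X.subgroupOf L ≠ ⊥ := fun X l n z =>
    n (by rw [← ms X l, z, Subgroup.map_bot])
  have ne' : ∀ X : Subgroup L, X ≠ ⊥ → X.map L.subtype ≠ ⊥ := fun X n z =>
    n ((Subgroup.map_eq_bot_iff_of_injective _ L.subtype_injective).1 z)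
  have mx : (F.pull L).Mx (A.subgroupOf L) (B.subgroupOf L) := by
    refine ⟨ne A AL e.a, ne B BL e.b, ?_, fun X Y x y d l => ?_⟩
    · rintro X ⟨H, m, l⟩
      exact (e.dj H m).imp (fun a => (Subgroup.comap_mono a).trans l)
        fun a => (Subgroup.comap_mono a).trans l
    · have := ((sM1 G F hF).2 A B e).2.2.2.1 _ _ (ne' X x) (ne' Y y) (fun H m =>
        (d _ ⟨H, m, le_rfl⟩).imp Subgroup.map_le_iff_le_comap.2 Subgroup.map_le_iff_le_comap.2) (by
          rw [← Subgroup.map_sup, ← ms A AL, ← ms B BL, ← Subgroup.map_sup]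
          exact Subgroup.map_mono l)
      rw [← Subgroup.map_sup, Subgroup.map_le_iff_le_comap] at this
      rwa [← Subgroup.subgroupOf_sup AL BL]
  obtain ⟨H, m, l⟩ := mx.mem hs hg ha hd (hF.pull L) (hS.pull (e.gal' ▸ Fam.cl_norm B :)) ih
    (Subgroup.card_le_card_group L)
  rw [← Subgroup.subgroupOf_sup AL BL] at l
  exact ⟨H, m, fun x hx => l (x := ⟨x, hx.2⟩) hx.1⟩

end Pool.Agent.Lib.MP_3cc314_lc.Cg
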