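import Pool.Agent.Lib.MP_3cc314_lc.CgGlue

set_option autoImplicit false

namespace Pool.Agent.Lib.MP_3cc314_lc.Cg

/-- the cosets of `x` and `y` modulo `a` meet every graph -/
def cv4 (a x y : V4 × V4) : Prop :=
  ∀ M, gd4 M → gr4 M x ∨ gr4 M (x + a) ∨ gr4 M y ∨ gr4 M (y + a)

/-- the span of `a` and `x` contains a graph -/
def sp4 (a x : V4 × V4) : Prop :=
  ∃ M, gd4 M ∧ ∀ p, gr4 M p → p = 0 ∨ p = a ∨ p = x ∨ p = x + a

instance (a x y : V4 × V4) : Decidable (cv4 a x y) := inferInstanceAs (Decidable (∀ _, _))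

instance (a x : V4 × V4) : Decidable (sp4 a x) := inferInstanceAs (Decidable (∃ _, _))

theorem b4_kA : ∀ a : V4 × V4, a.1 ≠ 0 → a.2 ≠ 0 → ∃ x, sp4 a x ∧ ∃ y, sp4 a y ∧ cv4 a x y := by
  decide +kernel

theorem b4_kB : ∀ a : V4 × V4, a ≠ 0 → (a.1 ≠ 0 ∧ a.2 ≠ 0) ∨
    ∃ x : V4 × V4, (x.1 ≠ 0 ∧ x.2 ≠ 0) ∧ ∃ y : V4 × V4, (y.1 ≠ 0 ∧ y.2 ≠ 0) ∧ cv4 a x y := by
  decide +kernel

theorem v4_three : ∀ a b c : V4, gd4 (a, b) → gd4 (a, c) → b ≠ c → lin4 (a, b) (1, 1) = c := by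
  decide +kernel

theorem v4_two : ∀ a b : V4, lin4 (a, b) (1, 0) = a ∧ lin4 (a, b) (0, 1) = b := by decide +kernel

theorem v4_cases : ∀ i : V4, i = 0 ∨ i = (1, 0) ∨ i = (0, 1) ∨ i = (1, 1) := by decide +kernel

theorem sig_lin {σ : V4 → V4} (h : Function.Injective σ) (z : σ 0 = 0) :
    ∃ M, gd4 M ∧ ∀ i, lin4 M i = σ i := by
  have n : ∀ i, i ≠ 0 → σ i ≠ 0 := fun i a b => a (h (b.trans z.symm))
  have g : gd4 (σ (1, 0), σ (0, 1)) := ⟨n _ (by decide), n _ (by decide), h.ne (by decide)⟩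
  refine ⟨_, g, fun i => ?_⟩
  rcases v4_cases i with rfl | rfl | rfl | rfl
  exacts [(lin4_zero _).trans z.symm, (v4_two _ _).1, (v4_two _ _).2, v4_three _ _ _ g
    ⟨n _ (by decide), n _ (by decide), h.ne (by decide)⟩ (h.ne (by decide))]

open scoped Classical

namespace Fam
variable {G T : Type} [Group G] [Group T] [Finite G] {F : Fam G} {E : Fam T} {ψ : G →* T}

theorem SymA.sep (h : F.SymA) (hF : F.Fa) (hE : ∀ X, X ∈ E.s ↔ X.comap ψ ∈ F.s) (fa : E.Fa)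
    (nb : ⊥ ∉ E.s) (k : ψ.ker ≠ ⊥) : ∃ V : Subgroup G, (∀ H, F.Mem H → H ≤ V) ∧ ¬ψ.ker ≤ V := by
  obtain ⟨-, L, hL, sn, tr⟩ := h
  refine ⟨L, hL, fun l => ?_⟩
  obtain ⟨⟨a, ha⟩, a1⟩ := Subgroup.ne_bot_iff_exists_ne_one.1 k
  obtain ⟨H, m, n⟩ : ∃ H, F.Mem H ∧ cj a H ≠ H := by
    by_contra c
    push Not at c
    exact a1 (Subtype.ext (hF.of_mem fun H m => sn H m a (l ha) (c H m)))
  have kc : ∀ b ∈ ψ.ker, ∀ x ∈ H, ∃ y ∈ cj b H, ψ y = ψ x := fun b hb x hx =>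
    ⟨b * x * b⁻¹, (conj_mem_cj b).2 hx, by
      rw [map_mul, map_mul, map_inv, MonoidHom.mem_ker.1 hb]; simp⟩
  have all : ∀ K, F.Mem K → ∀ x ∈ H, ∃ y ∈ K, ψ y = ψ x := fun K mK x hx => by
    by_cases e : K = H
    · exact ⟨x, e ▸ hx, rfl⟩
    by_cases e' : K = cj a H
    · exact e' ▸ kc a ha x hx
    obtain ⟨t, -, t1, -, t2⟩ := tr (cj a H) K (m.cj a) mK (Ne.symm e')
    have tH := t2 H m n.symm (Ne.symm e)
    have : cj (t * a * t⁻¹) H = K := by rw [cj_mul, cj_of_mem (H.inv_mem tH), cj_mul, t1]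
    exact this ▸ kc _ (ψ.normal_ker.conj_mem a ha t) x hx
  refine nb ((hE _).2 (F.up m.1 fun x hx => fa _ fun X hX => ?_))
  obtain ⟨K, mK, l⟩ := exists_mem ((hE X).1 hX)
  obtain ⟨y, hy, e⟩ := all K mK x hx
  exact e ▸ l hy

omit [Finite G] in
theorem B4A.sep (h : F.B4A) (hE : ∀ X, X ∈ E.s ↔ X.comap ψ ∈ F.s) (rd : E.Rd)
    (nb : ⊥ ∉ E.s) (k : ψ.ker ≠ ⊥) : ∃ V : Subgroup G, (∀ H, F.Mem H → H ≤ V) ∧ ¬ψ.ker ≤ V := by
  obtain ⟨e, m, z, i, j, h5, h6⟩ := h.ex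
  let V : Subgroup G :=
    { carrier := Set.range e
      mul_mem' := by rintro _ _ ⟨p, rfl⟩ ⟨q, rfl⟩; exact ⟨p + q, m p q⟩
      one_mem' := ⟨0, z⟩
      inv_mem' := by rintro _ ⟨p, rfl⟩; exact ⟨p, (i p).symm⟩ }
  refine ⟨V, fun H mH => ?_, fun l => ?_⟩
  · obtain ⟨σ, a, b, s⟩ := h6 H mH.1
    obtain ⟨K, u, v⟩ := h5 σ a b
    rw [← mH.eq u fun x hx => by
      obtain ⟨p, c, rfl⟩ := (v x).1 hx
      exact (show (p.1, σ p.1) = p from Prod.ext rfl c) ▸ s p.1]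
    intro x hx
    obtain ⟨p, -, c⟩ := (v x).1 hx
    exact ⟨p, c⟩
  have cv : ∀ a x y, ψ (e a) = 1 → cv4 a x y → ψ (e x) = 1 ∨ ψ (e y) = 1 := fun a x y ha c =>
    rd _ _ fun X hX => by
      obtain ⟨σ, s1, s2, s⟩ := h6 _ ((hE X).1 hX)
      obtain ⟨M, g, q⟩ := sig_lin s1 s2
      have r : ∀ p, gr4 M p → ψ (e p) ∈ X := fun p hp =>
        (show (p.1, σ p.1) = p from Prod.ext rfl ((q _).symm.trans hp)) ▸ s p.1
      have r' : ∀ p, gr4 M (p + a) → ψ (e p) ∈ X := fun p hp => by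
        have := r _ hp
        rwa [m, map_mul, ha, mul_one] at this
      rcases c M g with u | u | u | u
      exacts [.inl (r _ u), .inl (r' _ u), .inr (r _ u), .inr (r' _ u)]
  have sp : ∀ a x, ψ (e a) = 1 → ψ (e x) = 1 → ¬sp4 a x := by
    rintro a x ha hx ⟨M, g, q⟩
    obtain ⟨K, u, v⟩ := h5 _ (lin4_inj M g) (lin4_zero M)
    refine nb ((hE _).2 (F.up u fun y hy => ?_))
    obtain ⟨p, c, rfl⟩ := (v y).1 hy
    change ψ (e p) = 1
    rcases q p c with rfl | rfl | rfl | rfl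
    exacts [by rw [z, map_one], ha, hx, by rw [m, map_mul, ha, hx, mul_one]]
  have A : ∀ a : V4 × V4, a.1 ≠ 0 ∧ a.2 ≠ 0 → ψ (e a) ≠ 1 := fun a n ha => by
    obtain ⟨x, sx, y, sy, c⟩ := b4_kA a n.1 n.2
    exact (cv a x y ha c).elim (fun u => sp a x ha u sx) fun u => sp a y ha u sy
  obtain ⟨⟨a, ha⟩, a1⟩ := Subgroup.ne_bot_iff_exists_ne_one.1 k
  obtain ⟨p, rfl⟩ := l ha
  rcases b4_kB p (by rintro rfl; exact a1 (Subtype.ext z)) with u | ⟨x, u, y, v, c⟩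
  exacts [A p u ha, (cv p x y ha c).elim (A x u) (A y v)]

omit [Finite G] in
theorem DihA.sep (h : F.DihA) (hE : ∀ X, X ∈ E.s ↔ X.comap ψ ∈ F.s)
    (nb : ⊥ ∉ E.s) (k : ψ.ker ≠ ⊥) : (∃ V : Subgroup G, (∀ H, F.Mem H → H ≤ V) ∧ ¬ψ.ker ≤ V) ∨
      ∃ s t : G, s ≠ t ∧ ψ s = ψ t ∧ (s * s = 1 ∧ Subgroup.zpowers s ∈ F.s) ∧
        t * t = 1 ∧ Subgroup.zpowers t ∈ F.s := by
  obtain ⟨-, S, -, h1, h2, h3⟩ := h
  have i : ∀ s ∈ S, s⁻¹ = s := fun s hs => inv_eq_iff_mul_eq_one.2 (h1 s hs).2.1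
  let V : Subgroup G :=
    { carrier := {x | x ∈ S ∨ ∃ s ∈ S, ∃ t ∈ S, s * t = x}
      mul_mem' := by
        rintro _ _ (a | ⟨s, a, t, b, rfl⟩) (c | ⟨u, c, v, d, rfl⟩)
        · exact .inr ⟨_, a, _, c, rfl⟩
        · exact .inl (mul_assoc _ u v ▸ h3 _ a u c v d)
        · exact .inl (h3 s a t b _ c)
        · exact .inr ⟨_, h3 s a t b u c, v, d, mul_assoc _ _ _⟩
      one_mem' := by
        obtain ⟨s, a, -⟩ := h2 ⊤ F.top
        exact .inr ⟨s, a, s, a, (h1 s a).2.1⟩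
      inv_mem' := by
        rintro _ (a | ⟨s, a, t, b, rfl⟩)
        · exact .inl ((i _ a).symm ▸ a)
        · exact .inr ⟨t, b, s, a, by rw [mul_inv_rev, i s a, i t b]⟩ }
  by_cases l : ψ.ker ≤ V
  · obtain ⟨⟨a, ha⟩, a1⟩ := Subgroup.ne_bot_iff_exists_ne_one.1 k
    rcases l ha with u | ⟨s, u, t, v, rfl⟩
    · exact (nb ((hE _).2 (F.up (h1 a u).2.2 (Subgroup.zpowers_le.2 ha)))).elim
    · refine .inr ⟨s, t, ?_, ?_, (h1 s u).2, (h1 t v).2⟩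
      · rintro rfl
        exact a1 (Subtype.ext (h1 s u).2.1)
      · rw [MonoidHom.mem_ker, ← i s u, map_mul, map_inv, inv_mul_eq_one] at ha
        exact ha
  · refine .inl ⟨V, fun H m => ?_, l⟩
    obtain ⟨s, a, b⟩ := h2 H m.1
    rw [← m.eq (h1 s a).2.2 (Subgroup.zpowers_le.2 b)]
    exact Subgroup.zpowers_le.2 (.inl a)

theorem det_of_sep {P Q : Finset T} (r : Rel E P Q) (hψ : Function.Surjective ψ)
    (hE : ∀ X, X ∈ E.s ↔ X.comap ψ ∈ F.s) {V : Subgroup G} (hV : ∀ H, F.Mem H → H ≤ V)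
    (n : ¬ψ.ker ≤ V) :
    ∃ g : T → G, (∀ p, ψ (g p) = p) ∧ ∀ z, ψ z ∈ Q → ∃ U ∈ F.s, ∀ p ∈ P, z⁻¹ * g p ∉ U := by
  obtain ⟨a, ha, aV⟩ := SetLike.not_le_iff_exists.1 n
  obtain ⟨p0, h0, p1, h1, ne⟩ := r.two
  have : ∀ p : T, ∃ x, ψ x = p ∧ (p ∈ P → x ∈ V) := fun p => by
    by_cases hp : p ∈ P
    · obtain ⟨x, u, v⟩ := r.gen p hp (V.map ψ) fun X m => by
        obtain ⟨H, mH, l⟩ := exists_mem ((hE X).1 m.1)
        rw [← m.eq ((hE _).2 (F.up mH.1 (Subgroup.le_comap_map ψ H)))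
          (Subgroup.map_le_iff_le_comap.2 l)]
        exact Subgroup.map_mono (hV H mH)
      exact ⟨x, v, fun _ => u⟩
    · exact (hψ p).imp fun x u => ⟨u, fun c => (hp c).elim⟩
  choose g e v using this
  have e' : ∀ p, ψ (if p = p0 then g p * a else g p) = p := fun p => by
    split_ifs
    · rw [map_mul, MonoidHom.mem_ker.1 ha, mul_one, e]
    · exact e p
  refine ⟨_, e', fun z hz => by_contra fun c => ?_⟩
  push Not at c
  have k : ∀ p ∈ P, z⁻¹ * (if p = p0 then g p * a else g p) ∈ V := fun p hp => by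
    obtain ⟨U, m, u⟩ := r.prv _ hz p hp
    obtain ⟨H, mH, l⟩ := exists_mem ((hE U).1 m)
    obtain ⟨p', hp', w⟩ := c H mH.1
    have := l w
    rw [Subgroup.mem_comap, map_mul, map_inv, e'] at this
    exact u p' hp' this ▸ hV H mH w
  have k0 := k p0 h0
  have k1 := k p1 h1
  rw [if_pos rfl] at k0
  rw [if_neg ne.symm] at k1
  have : a = (g p0)⁻¹ * (g p1 * ((z⁻¹ * g p1)⁻¹ * (z⁻¹ * (g p0 * a)))) := by group
  exact aV (this ▸ mul_mem (inv_mem (v p0 h0)) (mul_mem (v p1 h1) (mul_mem (inv_mem k1) k0)))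

omit [Finite G] in
theorem det_of_two {P Q : Finset T} (r : Rel E P Q) (hψ : Function.Surjective ψ) {s t : G}
    (n : s ≠ t) (e : ψ s = ψ t) (hs : s * s = 1 ∧ Subgroup.zpowers s ∈ F.s)
    (ht : t * t = 1 ∧ Subgroup.zpowers t ∈ F.s) :
    ∃ g : T → G, (∀ p, ψ (g p) = p) ∧ ∀ z, ψ z ∈ Q → ∃ U ∈ F.s, ∀ p ∈ P, z⁻¹ * g p ∉ U := by
  choose g hg using hψ
  refine ⟨g, hg, fun z hz => by_contra fun c => ?_⟩
  push Not at c
  have k : ∀ s : G, s * s = 1 ∧ Subgroup.zpowers s ∈ F.s → ∃ p, z⁻¹ * g p = s := fun s h => by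
    obtain ⟨p, hp, w⟩ := c _ h.2
    refine ⟨p, (mem_zp1 h.1 w).resolve_left fun u => ?_⟩
    have q : ψ z = p := by rw [inv_mul_eq_one.1 u, hg]
    have all : ∀ p' ∈ P, p = p' := fun p' hp' => by
      obtain ⟨U, -, u⟩ := r.prv _ hz p' hp'
      exact u p hp (by rw [q, inv_mul_cancel]; exact U.one_mem)
    obtain ⟨p0, h0, p1, h1, ne⟩ := r.two
    exact ne ((all p0 h0).symm.trans (all p1 h1))
  obtain ⟨p, rfl⟩ := k s hs
  obtain ⟨p', rfl⟩ := k t ht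
  rw [map_mul, map_mul, hg, hg, mul_right_inj] at e
  exact n (by rw [e])

omit [Finite G] in
theorem Blk.swap {N A : Subgroup G} [hA : A.Normal] (b : F.Blk N) (gn : F.Gal N ≠ ⊥)
    (l : N ≤ A ∨ F.Gal N ≤ A) : ∃ N, F.Blk N ∧ N ≤ A := by
  by_cases l' : N ≤ A
  · exact ⟨N, b, l'⟩
  have l := l.resolve_left l'
  refine ⟨F.Gal N, ⟨gn, Gal_Gal_Gal N, by rw [b.cl, sup_comm]; exact b.vis, fun g => .inl ?_⟩, l⟩
  rw [cj_Gal, (b.blk g).resolve_right fun c => l' fun x hx => ?_]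
  simpa [mul_assoc] using hA.conj_mem _ (l (c ((conj_mem_cj g).2 hx))) g⁻¹

end Fam

theorem sDet_of (hb : S_blk) (hl : S_lift) (ha : S_atom) : S_det := by
  intro n ih T _ E P Q fa at' r G _ _ F ψ hψ hn
  induction hk : Nat.card G using Nat.strong_induction_on generalizing G with
  | _ k IHk =>
  intro hF hS kn st hE
  have hE' : ∀ X, X ∈ E.s ↔ X.comap ψ ∈ F.s := fun X => by rw [← hE]; rfl
  have := Finite.of_surjective ψ hψ
  obtain ⟨nb, rd, -⟩ := (ha T E fa).2 at'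
  rcases ih G F hn hF hS with a | a | a | a | a
  · exact (nb ((hE' _).2 (F.up a bot_le))).elim
  · obtain ⟨V, u, v⟩ := a.sep hF hE' fa nb kn
    exact Fam.det_of_sep r hψ hE' u v
  · rcases a.sep hE' nb kn with ⟨V, u, v⟩ | ⟨s, t, u, v, w, x⟩
    exacts [Fam.det_of_sep r hψ hE' u v, Fam.det_of_two r hψ u v w x]
  · obtain ⟨V, u, v⟩ := a.sep hE' rd nb kn
    exact Fam.det_of_sep r hψ hE' u v
  obtain ⟨N, b, NA⟩ : ∃ N, F.Blk N ∧ N ≤ ψ.ker := by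
    obtain ⟨N, b, gn, -⟩ := hb G F hF a
    refine b.swap gn (or_iff_not_imp_left.2 fun c y hy => ?_)
    obtain ⟨x, hx, xn⟩ := SetLike.not_le_iff_exists.1 c
    exact (rd (ψ x) (ψ y) fun X hX => (Fam.Dj_Gal N).dj hx hy _ ((hE' X).1 hX)).resolve_left xn
  have nl : ¬ψ.ker ≤ N ⊔ F.Gal N := fun c =>
    nb ((hE' _).2 (F.up b.vis (sup_le NA (st N _ b.ne (Fam.Dj_Gal N) NA c))))
  let φ := QuotientGroup.mk' (Subgroup.normalClosure (N : Set G))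
  have hφ : Function.Surjective φ := QuotientGroup.mk'_surjective _
  have ker : φ.ker = Subgroup.normalClosure (N : Set G) := QuotientGroup.ker_mk' _
  obtain ⟨fa', kl, lift⟩ := hl G _ F N φ hφ hF b ker
  have kA : φ.ker ≤ ψ.ker := ker.le.trans (Subgroup.normalClosure_le_normal NA)
  let χ := QuotientGroup.lift (Subgroup.normalClosure (N : Set G)) ψ (ker.ge.trans kA)
  have hχ : ∀ x, χ (φ x) = ψ x := fun x => rfl
  have sχ : Function.Surjective χ := fun t => by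
    obtain ⟨x, rfl⟩ := hψ t
    exact ⟨φ x, rfl⟩
  have ck : χ.ker.comap φ = ψ.ker := rfl
  have k1 : 1 < Nat.card (Subgroup.normalClosure (N : Set G)) := (Subgroup.one_lt_card_iff_ne_bot _).2
    (ne_bot_of_le_ne_bot b.ne Subgroup.le_normalClosure)
  have cG := Subgroup.card_eq_card_quotient_mul_card_subgroup (Subgroup.normalClosure (N : Set G))
  have c0 : 0 < Nat.card (G ⧸ Subgroup.normalClosure (N : Set G)) := Nat.card_pos
  have lk : Nat.card (G ⧸ Subgroup.normalClosure (N : Set G)) < Nat.card G := by nlinarith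
  obtain ⟨g, e, hg⟩ := IHk _ (hk ▸ lk) _ (F.push φ hφ) χ sχ (lk.trans hn) rfl fa' (hS.push φ hφ)
    (fun z => nl (by rw [← ck, z]; exact kl))
    (fun X Y x d l l' => by
      obtain ⟨X', Y', d', rfl, rfl, kk⟩ := lift X Y d
      refine Subgroup.map_le_iff_le_comap.2 (st X' Y' (by rintro rfl; exact x (Subgroup.map_bot _)) d'
        (Subgroup.map_le_iff_le_comap.1 l) ?_)
      rw [← ck, ← Subgroup.comap_map_eq_self kk, Subgroup.map_sup]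
      exact Subgroup.comap_mono l')
    hE
  choose σ hσ using id hφ
  refine ⟨fun p => σ (g p), fun p => by rw [← hχ, hσ, e], fun z hz => ?_⟩
  obtain ⟨U, m, u⟩ := hg (φ z) hz
  refine ⟨U.comap φ, m, fun p hp c => u p hp ?_⟩
  rwa [Subgroup.mem_comap, map_mul, map_inv, hσ] at c

end Pool.Agent.Lib.MP_3cc314_lc.Cg
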