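import Pool.Agent.Lib.MP_3cc314_lc.CgLeaf1

set_option autoImplicit false

namespace Pool.Agent.Lib.MP_3cc314_lc.Cg
open scoped Classical

variable {G Ω : Type} [Group G] [MulAction G Ω]

/-- the points moved by a subgroup -/
def spt (Ω : Type) [MulAction G Ω] (X : Subgroup G) : Set Ω := {a | ∃ x ∈ X, x • a ≠ a}

theorem stab_mem (u : Ω) : MulAction.stabilizer G u ∈ (St G Ω).s := .inr ⟨u, le_rfl⟩

theorem le_stab {X : Subgroup G} {u : Ω} : X ≤ MulAction.stabilizer G u ↔ u ∉ spt Ω X :=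
  ⟨fun h ⟨_, a, b⟩ => b (h a), fun h x a => by_contra fun b => h ⟨x, a, b⟩⟩

theorem mem_Gal_St {X : Subgroup G} {g : G} : g ∈ (St G Ω).Gal X ↔ eqS (spt Ω X) g 1 := by
  rw [Fam.mem_Gal]
  refine ⟨fun h a ha => ?_, ?_⟩
  · rw [one_smul]
    exact h _ (stab_mem a) fun l => le_stab.1 l ha
  · rintro h H (rfl | ⟨u, l⟩) n
    · trivial
    · refine l ?_
      have := h u (by_contra fun c => n ((le_stab.2 c).trans l))
      rwa [one_smul] at this

theorem mov_spt (X : Subgroup G) : mov G (spt Ω X) = spt Ω ((St G Ω).Gal X) :=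
  Set.ext fun _ => exists_congr fun _ => and_congr_left fun _ => mem_Gal_St.symm

/-- transport of the leaf data along a surjection -/
theorem LD.comap {G' T : Type} [Group G'] [MulAction G' Ω] [Group T] {S : Set Ω} {E : Fam T}
    {ψ : G' → T} (D : LD G' S E ψ) (φ : G →* G') (hφ : Function.Surjective φ)
    (h : ∀ (g : G) (a : Ω), φ g • a = g • a) : LD G S E fun g => ψ (φ g) := by
  have l : ∀ g, inL S (φ g) ↔ inL S g := fun g => by simp only [inL, h]
  have n : ∀ g, inN S (φ g) ↔ inN S g := fun g => by simp only [inN, h]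
  have e : ∀ (B : Set Ω) g g', eqS B (φ g) (φ g') ↔ eqS B g g' := fun B g g' => by simp only [eqS, h]
  have m : ∀ B : Set Ω, mov G B = mov G' B := fun B => Set.ext fun x => by
    simp only [mov, Set.mem_ofPred_eq, hφ.exists, ← φ.map_one, e, h]
  refine ⟨⟨fun g u a b => (l g).1 (D.blk.1 _ u a (by rwa [h])), D.blk.2.1, fun a b => ?_⟩, ?_,
    by rw [m, m, D.cls], fun g k a b => by rw [map_mul, D.mul _ _ ((l g).2 a) ((l k).2 b)],
    fun t => ?_, fun g k a b => by rw [D.eq _ _ ((l g).2 a) ((l k).2 b), e], fun X => ?_⟩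
  · simpa only [hφ.exists, n, h] using D.blk.2.2 a b
  · simpa only [VisL, hφ.exists, hφ.forall, n, h, e] using D.vis
  · simpa only [hφ.exists, l] using D.sur t
  · rw [D.fam]
    simp only [InF, hφ.forall, n, h]

/-- the leaf data of a minimal block in a faithful group -/
theorem ld_of_blk [Finite G] [Nonempty Ω] (hF : (St G Ω).Fa) (hS : (St G Ω).SF) {N : Subgroup G}
    (hN : (St G Ω).Blk N) (hm : (St G Ω).MinV N) :
    ∃ (T : Type) (_ : Group T) (_ : Finite T) (E : Fam T) (ψ : G → T), Nat.card T ≤ Nat.card G ∧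
      LD G (spt Ω N) E ψ ∧ E.Fa ∧ E.SF ∧ ¬E.Dec := by
  set F := St G Ω
  set L := Subgroup.normalizer (N : Set G)
  set C := F.Gal N
  set S := spt Ω N
  have hC : ∀ g, g ∈ C ↔ eqS S g 1 := fun g => mem_Gal_St
  have hNN : ∀ g, g ∈ N ↔ inN S g := fun g => by
    refine ⟨fun a x hx => by_contra fun c => hx ⟨g, a, c⟩, fun a => ?_⟩
    rw [← hN.cl, mem_Gal_St]
    rintro x ⟨c, p, q⟩
    rw [one_smul]
    exact a x fun r => q (by simpa using (hC c).1 p x r)
  have hB : ∀ g : G, ∀ u ∈ S, g • u ∈ S → g ∈ L := by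
    rintro g u ⟨x, a, b⟩ c
    refine cj_eq_iff.1 ((hN.blk g).resolve_right fun l => b ?_)
    simpa [mul_smul] using (hC _).1 (l ((conj_mem_cj g).2 a)) _ c
  have hS0 : S.Nonempty := by
    by_contra c
    refine hN.ne (eq_bot_iff.2 fun x hx => hF.inf (Fam.Dj_Gal N) ▸ ⟨hx, (hC x).2 fun a ha => ?_⟩)
    exact (c ⟨a, ha⟩).elim
  have hL : ∀ g, g ∈ L ↔ inL S g := fun g => by
    refine ⟨?_, fun a => ?_⟩
    · rintro a u ⟨x, b, c⟩
      refine ⟨g * x * g⁻¹, cj_eq_iff.2 a ▸ (conj_mem_cj g).2 b, ?_⟩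
      simpa [mul_smul] using c
    · obtain ⟨u, hu⟩ := hS0
      exact hB g u hu (a u hu)
  have CL : C ≤ L := fun c a => (hL c).2 fun x hx => by rwa [(hC c).1 a x hx, one_smul]
  have NL : N ≤ L := Subgroup.le_normalizer
  have sup : ∀ g, g ∈ N ⊔ C ↔ ∃ n, inN S n ∧ eqS S g n := fun g => by
    rw [hF.mem_sup (Fam.Dj_Gal N)]
    refine ⟨?_, fun ⟨n, a, b⟩ => ⟨n, (hNN n).2 a, n⁻¹ * g, (hC _).2 fun x hx => ?_, by group⟩⟩
    · rintro ⟨n, a, c, b, rfl⟩
      exact ⟨n, (hNN n).1 a, fun x hx => by rw [mul_smul, (hC c).1 b x hx, one_smul]⟩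
    · rw [mul_smul, b x hx, inv_smul_smul, one_smul]
  let π := QuotientGroup.mk' (C.subgroupOf L)
  have hπ : Function.Surjective π := QuotientGroup.mk'_surjective _
  let ψ : G → L ⧸ C.subgroupOf L := fun g => if h : g ∈ L then π ⟨g, h⟩ else 1
  have eψ : ∀ g : L, ψ g = π g := fun g => dif_pos g.2
  have D : LD G S ((F.leaf N).push π hπ) ψ := by
    refine ⟨⟨fun g u a b => (hL g).1 (hB g u a b), hS0, fun a ⟨x, p, q⟩ => ⟨x, (hNN x).1 p, q⟩⟩,
      ?_, by rw [mov_spt, mov_spt, hN.cl], fun g h a b => ?_, fun t => ?_, fun g h a b => ?_,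
      fun X => ?_⟩
    · rcases hN.vis with e | ⟨w, l⟩
      · exact ⟨Classical.arbitrary Ω, fun g _ => (sup g).1 (e ▸ Subgroup.mem_top g)⟩
      · exact ⟨w, fun g a => (sup g).1 (l a)⟩
    · rw [← hL] at a b
      rw [eψ ⟨g, a⟩, eψ ⟨h, b⟩, ← map_mul]
      exact eψ (⟨g, a⟩ * ⟨h, b⟩)
    · obtain ⟨g, rfl⟩ := hπ t
      exact ⟨g, (hL g).1 g.2, eψ g⟩
    · rw [← hL] at a b
      rw [eψ ⟨g, a⟩, eψ ⟨h, b⟩]
      refine QuotientGroup.eq.trans ((hC (g⁻¹ * h)).trans (forall₂_congr fun x _ => ?_))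
      rw [mul_smul, one_smul, inv_smul_eq_iff, eq_comm]
    · have c1 : C.subgroupOf L ≤ X.comap π := fun c a => by
        rw [Subgroup.mem_comap, show π c = 1 from (QuotientGroup.eq_one_iff c).2 a]
        exact X.one_mem
      refine ⟨?_, ?_⟩
      · rintro ⟨⟨H, m, l⟩, -⟩
        by_cases n : N ≤ H
        · exact .inr fun g a => by
            have a := (hNN g).2 a
            change ψ g ∈ X
            rw [eψ ⟨g, NL a⟩]
            exact l (n a)
        rcases m with rfl | ⟨w, k⟩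
        · exact (n le_top).elim
        have hw : w ∈ S := by_contra fun c => n ((le_stab.2 c).trans k)
        exact .inl ⟨w, hw, fun g a => by
          change ψ g ∈ X
          rw [eψ ⟨g, hB g w hw (by rwa [a])⟩]
          exact l (k a)⟩
      · rintro (⟨w, hw, k⟩ | k)
        · exact ⟨⟨_, stab_mem w, fun g a => show π g ∈ X from eψ g ▸ k g a⟩, c1⟩
        · refine ⟨⟨_, hN.vis, fun g a => ?_⟩, c1⟩
          obtain ⟨n, p, c, q, e⟩ := (hF.mem_sup (Fam.Dj_Gal N)).1 a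
          rw [show g = ⟨n, NL p⟩ * ⟨c, CL q⟩ from Subtype.ext e.symm]
          exact Subgroup.mul_mem _ (show π _ ∈ X from eψ ⟨n, NL p⟩ ▸ k n ((hNN n).1 p)) (c1 q)
  refine ⟨_, inferInstance, inferInstance, _, ψ, (Nat.card_le_card_of_surjective π hπ).trans
    (Nat.card_le_card_of_injective _ Subtype.val_injective), D, fun t ht => ?_, ?_, ?_⟩
  · obtain ⟨g, a, rfl⟩ := D.sur t
    exact (D.eq_one a).2 fun w hw => by
      rw [one_smul]; exact (D.mem_stb hw a).1 (ht _ (D.stb_mem hw))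
  · have : F.Cl L := by
      have := Fam.cl_norm (F := F) C
      rwa [hN.cl] at this
    exact ((hS.pull this).ov _).push π hπ
  · have key : ∀ X Y, X ≠ ⊥ → Y ≠ ⊥ → ((F.leaf N).push π hπ).Dj X Y →
        X ⊔ Y ∈ ((F.leaf N).push π hπ).s → ¬X ≤ D.nT := by
      intro X Y a b d m l
      let X' : Subgroup G := N ⊓ (X.comap π).map L.subtype
      have x1 : ∀ n ∈ N, n ∈ X' ↔ ψ n ∈ X := fun n hn => by
        rw [eψ ⟨n, NL hn⟩]
        exact ⟨fun ⟨_, k, p, q⟩ => by rwa [← show k = ⟨n, NL hn⟩ from Subtype.ext q],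
          fun p => ⟨hn, ⟨n, NL hn⟩, p, rfl⟩⟩
      have x2 : ∀ g : G, inL S g → ψ g ∈ Y → g ∈ F.Gal X' := fun g p q =>
        mem_Gal_St.2 fun w ⟨n, r, s⟩ => by
          have hw : w ∈ S := ⟨n, r.1, s⟩
          rw [one_smul, ← D.mem_stb hw p]
          exact (d _ (D.stb_mem hw)).resolve_left (fun k => s ((D.mem_stb hw
            ((hNN n).1 r.1).inL).1 (k ((x1 n r.1).1 r)))) q
      have x3 : ∀ g : G, inL S g → ψ g ∈ X ⊔ Y → g ∈ F.Gal (F.Gal X') ⊔ F.Gal X' := fun g p q => by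
        let P : Subgroup (L ⧸ C.subgroupOf L) :=
          ((F.Gal (F.Gal X') ⊔ F.Gal X').subgroupOf L).map π
        have : X ⊔ Y ≤ P := sup_le (fun t ht => by
          obtain ⟨n, r, rfl⟩ := l ht
          have r := (hNN n).2 r
          exact ⟨⟨n, NL r⟩, Subgroup.mem_sup_left (Fam.le_Gal_Gal X' ((x1 n r).2 ht)),
            (eψ ⟨n, NL r⟩).symm⟩) fun t ht => by
          obtain ⟨k, rfl⟩ := hπ t
          exact ⟨k, Subgroup.mem_sup_right (x2 k ((hL k).1 k.2) (eψ k ▸ ht)), rfl⟩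
        obtain ⟨k, r, s⟩ := this q
        rw [eψ ⟨g, (hL g).2 p⟩] at s
        have s : (k : G)⁻¹ * g ∈ C := (QuotientGroup.eq (s := C.subgroupOf L)).1 s
        rw [← mul_inv_cancel_left (k : G) g]
        exact Subgroup.mul_mem _ r (Subgroup.mem_sup_right (Fam.Gal_anti inf_le_left s))
      have x4 := hm (F.Gal (F.Gal X')) (hN.cl ▸ Fam.Gal_anti (Fam.Gal_anti inf_le_left))
        (fun e => a (eq_bot_iff.2 fun t ht => by
          obtain ⟨n, r, rfl⟩ := l ht
          have := Fam.le_Gal_Gal (F := F) X' ((x1 n ((hNN n).2 r)).2 ht)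
          rw [e, Subgroup.mem_bot] at this
          rw [this, D.one]
          exact Subgroup.one_mem _))
        (by rw [Fam.Gal_Gal_Gal]) (by
          rw [Fam.Gal_Gal_Gal]
          rcases (D.fam _).1 m with ⟨w, hw, k⟩ | k
          · exact .inr ⟨w, fun g p => x3 g (D.blk.fix hw p) (k g p)⟩
          · exact F.up hN.vis (sup_le (fun g p => x3 g ((hNN g).1 p).inL (k g ((hNN g).1 p)))
              ((Fam.Gal_anti inf_le_left).trans le_sup_right)))
      refine b (eq_bot_iff.2 fun t ht => ?_)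
      obtain ⟨g, p, rfl⟩ := D.sur t
      have := x2 g p ht
      rw [← Fam.Gal_Gal_Gal, x4] at this
      exact (D.eq_one p).2 ((hC g).1 this)
    rintro ⟨X, Y, a, b, d, m⟩
    exact (d _ D.nT_mem).elim (key X Y a b d m) (key Y X b a d.symm (sup_comm X Y ▸ m))

theorem sLeaf_of (hT : S_T) (hB : S_blk) : S_leaf := by
  intro G Ω _ _ _ _ hS ⟨g0, a0, h0⟩
  have : Nonempty Ω := ⟨a0⟩
  let φ := (MulAction.toPermHom G Ω).rangeRestrict
  have hφ : Function.Surjective φ := MonoidHom.rangeRestrict_surjective _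
  have h : ∀ (g : G) (a : Ω), φ g • a = g • a := fun _ _ => rfl
  let F := St (MulAction.toPermHom G Ω).range Ω
  have hF : F.Fa := fun g hg => Subtype.ext (Equiv.ext fun a => hg _ (stab_mem a))
  have e : (St G Ω).push φ hφ = F := by
    have : ((St G Ω).push φ hφ).s = F.s := Set.ext fun X => or_congr
      ⟨fun e => by rw [← Subgroup.map_comap_eq_self_of_surjective hφ X, e,
        Subgroup.map_top_of_surjective _ hφ], fun e => by rw [e, Subgroup.comap_top]⟩
      (exists_congr fun u => ⟨fun l x a => by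
        obtain ⟨x, rfl⟩ := hφ x
        exact l a, fun l x a => l a⟩)
    revert this
    generalize (St G Ω).push φ hφ = A
    generalize F = B
    intro e
    cases A; cases B; cases e; rfl
  have hS' : F.SF := e ▸ hS.push φ hφ
  obtain ⟨N, n1, n2⟩ : ∃ N, F.Blk N ∧ F.MinV N := by
    by_cases d : F.Dec
    · obtain ⟨N, a, -, b⟩ := hB _ F hF d
      exact ⟨N, a, b⟩
    have t : F.Gal ⊤ = ⊥ := by simpa using hF.inf (Fam.Dj_Gal ⊤)
    refine ⟨⊤, ⟨fun c => h0 ?_, by rw [t, Fam.Gal_bot], by rw [top_sup_eq]; exact F.top,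
      fun g => .inl (cj_top g)⟩, fun N _ a b c => ?_⟩
    · have : φ g0 ∈ (⊥ : Subgroup _) := c ▸ Subgroup.mem_top _
      rw [← h, Subgroup.mem_bot.1 this, one_smul]
    · rw [← b, show F.Gal N = ⊥ from by_contra fun n => d ⟨N, _, a, n, Fam.Dj_Gal N, c⟩,
        Fam.Gal_bot]
  obtain ⟨T, _, _, E, ψ, -, D, e1, e2, e3⟩ := ld_of_blk hF hS' n1 n2
  have D := D.comap φ hφ h
  rcases hT _ T E (Nat.lt_succ_self _) e1 e2 with a | a | a | a | a
  · obtain ⟨u, u', p, q, r⟩ := D.reg a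
    exact ⟨u, u', .inl (p.symm ▸ ⟨D.blk, q, D.vis, .inl r⟩)⟩
  · obtain ⟨u, u', p, q⟩ := D.sym a
    exact ⟨u, u', .inr (p.symm ▸ ⟨D.blk, q⟩)⟩
  · obtain ⟨u, u', p, q, r⟩ := D.dih a
    exact ⟨u, u', .inl (p.symm ▸ ⟨D.blk, q, D.vis, .inr (.inl r)⟩)⟩
  · obtain ⟨u, u', p, q, r⟩ := D.b4 a
    exact ⟨u, u', .inl (p.symm ▸ ⟨D.blk, q, D.vis, .inr (.inr r)⟩)⟩
  · exact (e3 a).elim

end Pool.Agent.Lib.MP_3cc314_lc.Cg
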