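import Pool.Agent.Lib.MP_3cc314_lc.CgAlg

set_option autoImplicit false

namespace Pool.Agent.Lib.MP_3cc314_lc.Cg
open Pool.Agent.Lib.Complexity Finset Matrix

namespace Rk

/-! ### the algorithm -/

def dot (N : ℕ) (u v : List ℤ) : ℤ := ((List.range N).map fun k => u.getD k 0 * v.getD k 0).sum

def stp (N : ℕ) (L : List (List ℤ)) (v : List ℤ) : List ℤ :=
  (List.range N).map fun z => (L.map fun u => u.getD z 0 * dot N u v).sum

def vec (N : ℕ) (L : List (List ℤ)) (x k : ℕ) : List ℤ :=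
  (stp N L)^[k] ((List.range N).map fun z => if z = x then 1 else 0)

def pws (N : ℕ) (L : List (List ℤ)) : List ℤ :=
  (List.range N).map fun k => ((List.range N).map fun x => (vec N L x (k + 1)).getD x 0).sum

def nst (q l : List ℤ) : List ℤ := (-dot l.length q l) :: l.map fun z => z * (l.length : ℤ)

def cs (q : List ℤ) (k : ℕ) : List ℤ := (nst q)^[k] [1]

def nz (N : ℕ) (L : List (List ℤ)) (k : ℕ) : Bool := decide ((cs (pws N L) k).getD 0 0 = 0)

def kr (N : ℕ) (L L' : List (List ℤ)) : Bool :=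
  (List.range (N + 1)).all fun k => decide (nz N L k = nz N (L ++ L') k)

/-! ### size bounds -/

def Bd (l : List ℤ) (c : ℕ) : Prop := ∀ z ∈ l, z.natAbs ≤ 2 ^ c

theorem Bd.getD {l : List ℤ} {c : ℕ} (h : Bd l c) (i : ℕ) : (l.getD i 0).natAbs ≤ 2 ^ c := by
  rw [List.getD_eq_getElem?_getD]
  rcases e : l[i]? with _ | z
  · simp
  · exact h z (List.mem_of_getElem? e)

theorem Bd.mono {l : List ℤ} {c d : ℕ} (h : Bd l c) (e : c ≤ d) : Bd l d :=
  fun z hz => (h z hz).trans (Nat.pow_le_pow_right two_pos e)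

theorem Bd.sum {l : List ℤ} {c : ℕ} (h : Bd l c) : l.sum.natAbs ≤ 2 ^ (l.length + c) := by
  have key : l.sum.natAbs ≤ l.length * 2 ^ c := by
    induction l with
    | nil => simp
    | cons a l ih =>
      have h1 := h a (by simp)
      have h2 := ih fun z hz => h z (by simp [hz])
      have h3 := Int.natAbs_add_le a l.sum
      rw [List.sum_cons, List.length_cons, add_mul]
      omega
  rw [pow_add]
  exact key.trans (Nat.mul_le_mul_right _ Nat.lt_two_pow_self.le)

theorem Bd.sz {l : List ℤ} {c : ℕ} (h : Bd l c) : sz l ≤ l.length * (4 * (c + 1) + 1 + 1) :=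
  sz_list_le fun z hz => sz_int_le ((h z hz).trans_lt (Nat.pow_lt_pow_right one_lt_two (by omega)))

theorem bd_sz (l : List ℤ) : Bd l (sz l) := fun z hz =>
  (natAbs_lt_two_pow_sz z).le.trans (Nat.pow_le_pow_right two_pos (sz_lt_of_mem hz).le)

theorem mul_bd {x y : ℤ} {a b : ℕ} (hx : x.natAbs ≤ 2 ^ a) (hy : y.natAbs ≤ 2 ^ b) :
    (x * y).natAbs ≤ 2 ^ (a + b) := by
  rw [Int.natAbs_mul, pow_add]
  exact Nat.mul_le_mul hx hy

theorem dot_bd {u v : List ℤ} {a b : ℕ} (N : ℕ) (hu : Bd u a) (hv : Bd v b) :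
    (dot N u v).natAbs ≤ 2 ^ (N + (a + b)) := by
  have : Bd ((List.range N).map fun k => u.getD k 0 * v.getD k 0) (a + b) := fun z hz => by
    obtain ⟨k, -, rfl⟩ := List.mem_map.1 hz
    exact mul_bd (hu.getD k) (hv.getD k)
  simpa [dot] using this.sum

theorem stp_bd {v : List ℤ} {c : ℕ} (N : ℕ) (L : List (List ℤ)) (hv : Bd v c) :
    Bd (stp N L v) (c + (N + 3 * sz L)) := fun z hz => by
  obtain ⟨k, -, rfl⟩ := List.mem_map.1 hz
  have : Bd (L.map fun u => u.getD k 0 * dot N u v) (sz L + (N + (sz L + c))) := fun z hz => by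
    obtain ⟨u, hu, rfl⟩ := List.mem_map.1 hz
    have h := (bd_sz u).mono (sz_lt_of_mem hu).le
    exact mul_bd (h.getD k) (dot_bd N h hv)
  refine this.sum.trans (Nat.pow_le_pow_right two_pos ?_)
  have := length_le_sz L
  rw [List.length_map]
  omega

theorem vec_bd (N : ℕ) (L : List (List ℤ)) (x k : ℕ) :
    (vec N L x k).length = N ∧ Bd (vec N L x k) (k * (N + 3 * sz L)) := by
  induction k with
  | zero =>
    refine ⟨by simp [vec], fun z hz => ?_⟩
    obtain ⟨k, -, rfl⟩ := List.mem_map.1 hz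
    split_ifs <;> simp
  | succ k ih =>
    rw [vec, Function.iterate_succ_apply', ← vec, add_one_mul]
    exact ⟨by simp [stp], stp_bd N L ih.2⟩

theorem cs_bd (q : List ℤ) (n k : ℕ) (hk : k ≤ n) :
    (cs q k).length = k + 1 ∧ Bd (cs q k) (k * (n + sz q)) := by
  induction k with
  | zero => exact ⟨rfl, fun z hz => by simp [cs] at hz; simp [hz]⟩
  | succ k ih =>
    obtain ⟨h1, h2⟩ := ih (by omega)
    rw [cs, Function.iterate_succ_apply', ← cs, add_one_mul, nst]
    refine ⟨by simp [h1], fun z hz => ?_⟩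
    rcases List.mem_cons.1 hz with rfl | hz
    · rw [Int.natAbs_neg]
      exact (dot_bd _ (bd_sz q) h2).trans (Nat.pow_le_pow_right two_pos (by omega))
    · obtain ⟨y, hy, rfl⟩ := List.mem_map.1 hz
      refine (mul_bd (h2 y hy) (b := (cs q k).length) ?_).trans
        (Nat.pow_le_pow_right two_pos (by omega))
      simpa using Nat.lt_two_pow_self.le

section pt
variable {α : Type} [Enc α]

@[fun_prop] theorem pt_dot {N : α → ℕ} {u v : α → List ℤ} (hN : PT N) (hu : PT u) (hv : PT v) :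
    PT fun a => dot (N a) (u a) (v a) := by
  unfold dot
  fun_prop

@[fun_prop] theorem pt_vec {N x k : α → ℕ} {L : α → List (List ℤ)} (hN : PT N) (hL : PT L)
    (hx : PT x) (hk : PT k) : PT fun a => vec (N a) (L a) (x a) (k a) :=
  PT.iterate (step := fun a => stp (N a) (L a)) hk (by fun_prop) (by unfold stp; fun_prop)
    (B := fun a => N a * (4 * (k a * (N a + 3 * sz (L a)) + 1) + 1 + 1))
    (PT.pb_nat (by fun_prop)) fun a i hi => by
      have h := vec_bd (N a) (L a) (x a) i
      have := (h.2.mono (Nat.mul_le_mul_right _ hi.le)).sz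
      rwa [h.1] at this

@[fun_prop] theorem pt_cs {k : α → ℕ} {q : α → List ℤ} (hq : PT q) (hk : PT k) :
    PT fun a => cs (q a) (k a) :=
  PT.iterate (step := fun a => nst (q a)) hk (by fun_prop) (by unfold nst; fun_prop)
    (B := fun a => k a * (4 * (k a * (k a + sz (q a)) + 1) + 1 + 1))
    (PT.pb_nat (by fun_prop)) fun a i hi => by
      have h := cs_bd (q a) (k a) i hi.le
      have := (h.2.mono (Nat.mul_le_mul_right _ hi.le)).sz
      rw [h.1] at this
      exact this.trans (Nat.mul_le_mul_right _ hi)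

@[fun_prop] theorem pt_nz {N k : α → ℕ} {L : α → List (List ℤ)} (hN : PT N) (hL : PT L)
    (hk : PT k) : PT fun a => nz (N a) (L a) (k a) := by
  unfold nz pws
  fun_prop

end pt

theorem pt_kr : PT fun a : ℕ × List (List ℤ) × List (List ℤ) => kr a.1 a.2.1 a.2.2 := by
  unfold kr
  fun_prop

/-! ### correctness -/

theorem sum_range (N : ℕ) (f : ℕ → ℤ) :
    ((((List.range N).map f).sum : ℤ) : ℝ) = ∑ i ∈ range N, (f i : ℝ) := by
  rw [← List.sum_toFinset _ List.nodup_range, List.toFinset_range, Int.cast_sum]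

theorem dot_cast (N : ℕ) (u v : List ℤ) :
    (dot N u v : ℝ) = ∑ i ∈ range N, (u.getD i 0 : ℝ) * (v.getD i 0 : ℝ) := by
  rw [dot, sum_range]
  simp

/-- the matrix with rows `L` -/
def rw' (N : ℕ) (L : List (List ℤ)) : Matrix (Fin L.length) (Fin N) ℝ :=
  fun r k => ((L[r.1]).getD k 0 : ℤ)

/-- the Gram matrix -/
def gr (N : ℕ) (L : List (List ℤ)) : Matrix (Fin N) (Fin N) ℝ := (rw' N L)ᵀ * rw' N L

def tv (N : ℕ) (v : List ℤ) : Fin N → ℝ := fun k => (v.getD k 0 : ℤ)

theorem tv_stp (N : ℕ) (L : List (List ℤ)) (v : List ℤ) :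
    tv N (stp N L v) = gr N L *ᵥ tv N v := by
  funext z
  rw [gr, ← mulVec_mulVec, tv, stp, getD_range _ _ _ z.2, ← Fin.sum_univ_fun_getElem, Int.cast_sum]
  refine sum_congr rfl fun r _ => ?_
  rw [Int.cast_mul, dot_cast, ← Fin.sum_univ_eq_sum_range
    (fun i => ((L[r.1]).getD i 0 : ℝ) * (v.getD i 0 : ℝ))]
  rfl

theorem tv_vec (N : ℕ) (L : List (List ℤ)) (x : Fin N) (k : ℕ) :
    tv N (vec N L x k) = (gr N L ^ k) *ᵥ Pi.single x 1 := by
  induction k with
  | zero =>
    funext z
    rw [vec, Function.iterate_zero_apply, tv, getD_range _ _ _ z.2, pow_zero, one_mulVec,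
      Pi.single_apply]
    simp [Fin.ext_iff]
  | succ k ih =>
    rw [vec, Function.iterate_succ_apply', ← vec, tv_stp, ih, mulVec_mulVec, pow_succ']

theorem pws_eq (N : ℕ) (L : List (List ℤ)) {k : ℕ} (hk : k < N) :
    (((pws N L).getD k 0 : ℤ) : ℝ) = (gr N L ^ (k + 1)).trace := by
  rw [pws, getD_range _ _ _ hk, sum_range, ← Fin.sum_univ_eq_sum_range
    (fun x => (((vec N L x (k + 1)).getD x 0 : ℤ) : ℝ)), Matrix.trace]
  refine sum_congr rfl fun x _ => ?_
  have := congrFun (tv_vec N L x (k + 1)) x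
  rw [tv] at this
  rw [this]
  simp

theorem trace_pow {N : ℕ} {A : Matrix (Fin N) (Fin N) ℝ} (hA : A.IsHermitian) (k : ℕ) :
    (A ^ k).trace = ∑ i, hA.eigenvalues i ^ k := by
  conv_lhs => rw [hA.spectral_theorem, ← map_pow, Unitary.conjStarAlgAut_apply, trace_mul_cycle,
    Unitary.coe_star_mul_self, one_mul, diagonal_pow, trace_diagonal]
  simp

/-- elementary symmetric functions -/
def es {N : ℕ} (e : Fin N → ℝ) (k : ℕ) : ℝ := ∑ t ∈ powersetCard k univ, ∏ i ∈ t, e i

theorem newton {N : ℕ} (e : Fin N → ℝ) (k : ℕ) :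
    ((k : ℝ) + 1) * ((-1) ^ (k + 1) * es e (k + 1)) =
      -∑ i ∈ range (k + 1), (∑ j, e j ^ (i + 1)) * ((-1) ^ (k - i) * es e (k - i)) := by
  have h := congrArg (MvPolynomial.eval e) (MvPolynomial.mul_esymm_eq_sum (Fin N) ℝ (k + 1))
  simp only [MvPolynomial.esymm, MvPolynomial.psum, map_mul, map_sum, map_prod, map_pow, map_neg,
    map_one, map_natCast, MvPolynomial.eval_X] at h
  rw [sum_filter, ← Finset.Nat.sum_antidiagonal_swap, Finset.Nat.sum_antidiagonal_succ,
    Finset.Nat.sum_antidiagonal_eq_sum_range_succ_mk] at h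
  simp only [Prod.fst_swap, Prod.snd_swap, lt_irrefl, if_false, zero_add] at h
  have h2 : ∀ i ∈ range (k + 1), (if k - i < k + 1 then (-1 : ℝ) ^ (k - i) *
      (∑ t ∈ powersetCard (k - i) univ, ∏ j ∈ t, e j) * ∑ j, e j ^ (i + 1) else 0) =
      (∑ j, e j ^ (i + 1)) * ((-1) ^ (k - i) * es e (k - i)) := fun i _ => by
    rw [if_pos (by omega), es, mul_comm]
  rw [sum_congr rfl h2] at h
  push_cast at h
  rw [mul_left_comm, es, h, ← mul_assoc, ← pow_add, show k + 1 + (k + 1 + 1) = 2 * (k + 1) + 1 by ring,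
    pow_succ, pow_mul]
  simp

theorem cs_eq (q : List ℤ) (c : ℕ → ℝ) (n : ℕ) (h0 : c 0 = 1)
    (hc : ∀ k < n, ((k : ℝ) + 1) * c (k + 1) =
      -∑ i ∈ range (k + 1), ((q.getD i 0 : ℤ) : ℝ) * c (k - i)) (k : ℕ) (hk : k ≤ n) :
    ∀ i ≤ k, (((cs q k).getD i 0 : ℤ) : ℝ) = k.factorial * c (k - i) := by
  induction k with
  | zero =>
    intro i hi
    obtain rfl : i = 0 := by omega
    simp [cs, h0]
  | succ k ih =>
    have h1 := (cs_bd q n k (by omega)).1
    have h2 := ih (by omega)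
    intro i hi
    rw [cs, Function.iterate_succ_apply', ← cs, nst, Nat.factorial_succ, h1]
    push_cast
    cases i with
    | zero =>
      rw [List.getD_cons_zero, Int.cast_neg, dot_cast, mul_right_comm, Nat.sub_zero, hc k (by omega),
        neg_mul, sum_mul, neg_inj]
      refine sum_congr rfl fun i hi => ?_
      rw [h2 i (by simpa [Nat.lt_succ_iff] using hi)]
      ring
    | succ i =>
      have h3 := h2 i (by omega)
      rw [List.getD_eq_getElem _ _ (by omega)] at h3
      rw [List.getD_cons_succ, List.getD_eq_getElem _ _ (by rw [List.length_map]; omega),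
        List.getElem_map, Nat.add_sub_add_right]
      push_cast
      rw [h3]
      ring

theorem es_eq_zero {N : ℕ} {e : Fin N → ℝ} (he : ∀ i, 0 ≤ e i) (k : ℕ) :
    es e k = 0 ↔ (univ.filter fun i => e i ≠ 0).card < k := by
  rw [es, sum_eq_zero_iff_of_nonneg fun t _ => prod_nonneg fun i _ => he i, ← not_le]
  constructor
  · intro h hk
    obtain ⟨t, ht, rfl⟩ := exists_subset_card_eq hk
    obtain ⟨i, hi, e0⟩ := prod_eq_zero_iff.1 (h t (mem_powersetCard.2 ⟨subset_univ _, rfl⟩))
    exact (mem_filter.1 (ht hi)).2 e0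
  · intro h t ht
    by_contra h0
    refine h ((mem_powersetCard.1 ht).2 ▸ card_le_card fun i hi => mem_filter.2 ⟨mem_univ _, ?_⟩)
    exact fun e0 => h0 (prod_eq_zero hi e0)

theorem nz_iff (N : ℕ) (L : List (List ℤ)) {k : ℕ} (hk : k ≤ N) :
    nz N L k = decide ((gr N L).rank < k) := by
  have hP : (gr N L).PosSemidef := by
    simpa [gr] using posSemidef_conjTranspose_mul_self (rw' N L)
  have h := cs_eq (pws N L) (fun k => (-1) ^ k * es hP.1.eigenvalues k) N (by simp [es])
    (fun k hk => by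
      rw [newton, neg_inj]
      refine sum_congr rfl fun i hi => ?_
      rw [pws_eq N L (by have := mem_range.1 hi; omega), trace_pow hP.1]) k hk 0 (Nat.zero_le _)
  rw [nz, decide_eq_decide, ← Int.cast_eq_zero (α := ℝ), h, hP.1.rank_eq_card_non_zero_eigs,
    Fintype.card_subtype, ← es_eq_zero hP.eigenvalues_nonneg]
  simp [Nat.factorial_ne_zero]

theorem mem_ker (N : ℕ) (L : List (List ℤ)) (x : Fin N → ℝ) :
    x ∈ LinearMap.ker (gr N L).mulVecLin ↔ ∀ v ∈ L, ∑ i : Fin N, (v.getD i 0 : ℝ) * x i = 0 := by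
  rw [gr, ker_mulVecLin_transpose_mul_self, LinearMap.mem_ker, mulVecLin_apply, funext_iff]
  constructor
  · intro h v hv
    obtain ⟨r, hr, rfl⟩ := List.getElem_of_mem hv
    exact h ⟨r, hr⟩
  · exact fun h r => h _ (List.getElem_mem r.2)

theorem kr_iff (N : ℕ) (L L' : List (List ℤ)) : kr N L L' = true ↔ ∀ x : ℕ → ℝ,
    (∀ v ∈ L, ∑ i ∈ range N, (v.getD i 0 : ℝ) * x i = 0) →
    ∀ v ∈ L', ∑ i ∈ range N, (v.getD i 0 : ℝ) * x i = 0 := by
  have r1 := LinearMap.finrank_range_add_finrank_ker (gr N L).mulVecLin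
  have r2 := LinearMap.finrank_range_add_finrank_ker (gr N (L ++ L')).mulVecLin
  rw [Module.finrank_fin_fun] at r1 r2
  change (gr N L).rank + _ = _ at r1
  change (gr N (L ++ L')).rank + _ = _ at r2
  have le : LinearMap.ker (gr N (L ++ L')).mulVecLin ≤ LinearMap.ker (gr N L).mulVecLin :=
    fun x hx => (mem_ker N L x).2 fun v hv => (mem_ker N _ x).1 hx v (List.mem_append_left _ hv)
  have k1 : kr N L L' = true ↔ (gr N L).rank = (gr N (L ++ L')).rank := by
    simp only [kr, List.all_eq_true, List.mem_range, decide_eq_true_eq]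
    constructor
    · intro h
      have h' : ∀ k ≤ N, (gr N L).rank < k ↔ (gr N (L ++ L')).rank < k := fun k hk => by
        have := h k (by omega)
        rwa [nz_iff N L hk, nz_iff N _ hk, decide_eq_decide] at this
      have a := h' (gr N L).rank (by omega)
      have b := h' (gr N (L ++ L')).rank (by omega)
      omega
    · intro h k hk
      rw [nz_iff N L (by omega), nz_iff N _ (by omega), h]
  have cv : ∀ (v : List ℤ) (x : ℕ → ℝ), ∑ i ∈ range N, (v.getD i 0 : ℝ) * x i =
      ∑ i : Fin N, (v.getD i 0 : ℝ) * x i := fun v x =>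
    (Fin.sum_univ_eq_sum_range (fun i => (v.getD i 0 : ℝ) * x i) N).symm
  rw [k1]
  constructor
  · intro h x hx v hv
    have e := Submodule.eq_of_le_of_finrank_eq le (by omega)
    rw [cv]
    refine (mem_ker N _ fun i => x i).1 (e ▸ (mem_ker N L _).2 fun u hu => ?_) v
      (List.mem_append_right _ hv)
    rw [← cv, hx u hu]
  · intro h
    have e : LinearMap.ker (gr N (L ++ L')).mulVecLin = LinearMap.ker (gr N L).mulVecLin := by
      refine le_antisymm le fun x hx => (mem_ker N _ x).2 fun v hv => ?_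
      rcases List.mem_append.1 hv with hv | hv
      · exact (mem_ker N L x).1 hx v hv
      · have := h (fun i => if hi : i < N then x ⟨i, hi⟩ else 0) (fun u hu => by
          rw [cv]
          simpa using (mem_ker N L x).1 hx u hu) v hv
        rw [cv] at this
        simpa using this
    rw [e] at r2
    omega

end Rk

theorem sRank : S_rank := ⟨Rk.kr, Rk.pt_kr, Rk.kr_iff⟩

end Pool.Agent.Lib.MP_3cc314_lc.Cg
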