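import Pool.Agent.Lib.MP_3cc314_lc.CgOrc
import Pool.Agent.Lib.MP_3cc314_lc.CgRank

set_option autoImplicit false

namespace Pool.Agent.Lib.MP_3cc314_lc.Cg
open Finset Matrix Pool.Agent.Lib.Complexity

namespace Lin

/-- the coefficient vector of a linear form on matrices -/
def vec (n : ℕ) (f : ℕ → ℕ → ℤ) : List ℤ := (List.range (n * n)).map fun k => f (k / n) (k % n)

/-- the entry `(i, j)` of a commutator -/
def cm (n : ℕ) (C : ℕ → ℕ → Bool) (i j : ℕ) : List ℤ :=
  vec n fun a b => (if b = j ∧ C i a = true then 1 else 0) - if a = i ∧ C b j = true then 1 else 0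

def prs (n : ℕ) : List (ℕ × ℕ) := (List.range n).flatMap fun i => (List.range n).map fun j => (i, j)

/-- the equations of the tangent space of the polytope -/
def eqs (n : ℕ) (A c : ℕ → ℕ → Bool) : List (List ℤ) := (prs n).flatMap fun e =>
  [cm n A e.1 e.2, vec n fun a b => if a = e.1 ∧ b = e.2 ∧ ¬c a b = true then 1 else 0,
    vec n fun a _ => if a = e.1 then 1 else 0, vec n fun _ b => if b = e.2 then 1 else 0]

/-- the commutation relations -/
def cms (n : ℕ) (R : ℕ → ℕ → ℕ → ℕ → Bool) : List (List ℤ) :=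
  (prs n).flatMap fun e => (prs n).map fun e' => cm n (R e.1 e.2) e'.1 e'.2

variable {n : ℕ}

def mat (n : ℕ) (x : ℕ → ℝ) : Matrix (Fin n) (Fin n) ℝ := of fun a b => x (b + n * a)

def bm (n : ℕ) (C : ℕ → ℕ → Bool) : Matrix (Fin n) (Fin n) ℝ :=
  of fun a b => if C a b = true then 1 else 0

theorem mat_surj (Y : Matrix (Fin n) (Fin n) ℝ) : ∃ x, mat n x = Y := by
  refine ⟨fun k => if h : k < n * n then Y (finProdFinEquiv.symm ⟨k, h⟩).1
    (finProdFinEquiv.symm ⟨k, h⟩).2 else 0, ext fun a b => ?_⟩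
  have e := finProdFinEquiv_apply_val (a, b)
  have h : (b : ℕ) + n * a < n * n := e ▸ (finProdFinEquiv (a, b)).2
  have : (⟨b + n * a, h⟩ : Fin (n * n)) = finProdFinEquiv (a, b) := Fin.ext e.symm
  simp only [mat, of_apply, dif_pos h, this, Equiv.symm_apply_apply]

theorem sum_vec (f : ℕ → ℕ → ℤ) (x : ℕ → ℝ) :
    ∑ k ∈ range (n * n), ((vec n f).getD k 0 : ℝ) * x k =
      ∑ a : Fin n, ∑ b : Fin n, (f a b : ℝ) * mat n x a b := by
  rw [sum_range, ← Equiv.sum_comp finProdFinEquiv, Fintype.sum_prod_type]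
  refine sum_congr rfl fun a _ => sum_congr rfl fun b _ => ?_
  rw [vec, getD_range _ _ _ (finProdFinEquiv (a, b)).2, finProdFinEquiv_apply_val]
  simp [mat, Nat.add_mul_div_left _ _ a.pos, Nat.div_eq_of_lt b.2, Nat.mod_eq_of_lt b.2]

theorem sum_cm (C : ℕ → ℕ → Bool) (i j : Fin n) (x : ℕ → ℝ) :
    ∑ k ∈ range (n * n), ((cm n C i j).getD k 0 : ℝ) * x k =
      (bm n C * mat n x) i j - (mat n x * bm n C) i j := by
  rw [cm, sum_vec]
  simp only [Int.cast_sub, sub_mul, sum_sub_distrib, mul_apply]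
  congr 1
  · refine sum_congr rfl fun a _ => ?_
    rw [sum_eq_single j (fun b _ h => by simp [Fin.val_inj, h]) (by simp)]
    simp [bm]
  · rw [sum_eq_single i (fun a _ h => by simp [Fin.val_inj, h]) (by simp)]
    exact sum_congr rfl fun b _ => by simp [bm, mul_comm]

theorem all_prs {P : ℕ × ℕ → Prop} : (∀ e ∈ prs n, P e) ↔ ∀ i j : Fin n, P (i, j) := by
  simp only [prs, List.mem_flatMap, List.mem_map, List.mem_range]
  exact ⟨fun h i j => h _ ⟨i, i.2, j, j.2, rfl⟩, fun h _ ⟨i, a, j, b, e⟩ => e ▸ h ⟨i, a⟩ ⟨j, b⟩⟩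

theorem eqs_iff (A c : ℕ → ℕ → Bool) (x : ℕ → ℝ) :
    (∀ v ∈ eqs n A c, ∑ k ∈ range (n * n), (v.getD k 0 : ℝ) * x k = 0) ↔
      bm n A * mat n x = mat n x * bm n A ∧ (∀ i j : Fin n, mat n x i j ≠ 0 → c i j = true) ∧
        (∀ i, ∑ j, mat n x i j = 0) ∧ ∀ j, ∑ i, mat n x i j = 0 := by
  have e1 : ∀ i j : Fin n, ∑ a : Fin n, ∑ b : Fin n,
      (((if (a : ℕ) = i ∧ (b : ℕ) = j ∧ ¬c a b = true then 1 else 0 : ℤ)) : ℝ) * mat n x a b = 0 ↔
        (mat n x i j ≠ 0 → c i j = true) := fun i j => by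
    rw [sum_eq_single i (fun a _ h => by simp [Fin.val_inj, h]) (by simp),
      sum_eq_single j (fun a _ h => by simp [Fin.val_inj, h]) (by simp)]
    by_cases h : c i j = true <;> simp [h]
  have e2 : ∀ i : Fin n, ∑ a : Fin n, ∑ b : Fin n,
      (((if (a : ℕ) = i then 1 else 0 : ℤ)) : ℝ) * mat n x a b = ∑ j, mat n x i j := fun i => by
    rw [sum_eq_single i (fun a _ h => by simp [Fin.val_inj, h]) (by simp)]
    simp
  have e3 : ∀ j : Fin n, ∑ a : Fin n, ∑ b : Fin n,
      (((if (b : ℕ) = j then 1 else 0 : ℤ)) : ℝ) * mat n x a b = ∑ i, mat n x i j := fun j =>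
    sum_congr rfl fun a _ => by
      rw [sum_eq_single j (fun a _ h => by simp [Fin.val_inj, h]) (by simp)]
      simp
  simp only [eqs, List.forall_mem_flatMap, all_prs, List.forall_mem_cons, List.not_mem_nil,
    false_imp_iff, implies_true, and_true, sum_cm, sum_vec, e1, e2, e3, sub_eq_zero]
  exact ⟨fun h => ⟨ext fun i j => (h i j).1, fun i j => (h i j).2.1, fun i => (h i i).2.2.1,
    fun i => (h i i).2.2.2⟩, fun h i j => ⟨congrFun₂ h.1 i j, h.2.1 i j, h.2.2.1 i, h.2.2.2 j⟩⟩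

theorem cms_iff (R : ℕ → ℕ → ℕ → ℕ → Bool) (x : ℕ → ℝ) :
    (∀ v ∈ cms n R, ∑ k ∈ range (n * n), (v.getD k 0 : ℝ) * x k = 0) ↔
      ∀ i j : Fin n, bm n (R i j) * mat n x = mat n x * bm n (R i j) := by
  simp only [cms, List.forall_mem_flatMap, List.forall_mem_map, all_prs, sum_cm, sub_eq_zero]
  exact forall₂_congr fun i j => ⟨fun h => ext h, fun h => congrFun₂ h⟩

variable {G : SimpleGraph (Fin n)} [DecidableRel G.Adj]

theorem bm_adj : bm n (adj (rows G)) = G.adjMatrix ℝ := ext fun a b => by simp [bm]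

theorem getD_id (x : Fin n) : (List.range n).getD x 0 = x := by simp

omit [DecidableRel G.Adj] in
theorem inv_range : Inv G (List.range n) := fun g x y e => by
  rw [getD_id, getD_id] at e
  rw [Fin.ext e]

omit [DecidableRel G.Adj] in
theorem tm_two (g : G ≃g G) (i j k l : Fin n) :
    Tm (List.range n) g [i, j] [k, l] ↔ g i = k ∧ g j = l := by
  simp only [Tm, List.forall₂_cons, List.Forall₂.nil, and_true, getD_id, Fin.val_inj,
    exists_eq_left, Fin.is_lt, true_and]

omit [DecidableRel G.Adj] in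
/-- the invariant matrices are spanned by the orbital matrices -/
theorem comm_of {R : ℕ → ℕ → ℕ → ℕ → Bool}
    (hR : ∀ i j k l : Fin n, R i j k l = true ↔ ∃ g : G ≃g G, g i = k ∧ g j = l)
    {Y B : Matrix (Fin n) (Fin n) ℝ} (hY : ∀ i j : Fin n, bm n (R i j) * Y = Y * bm n (R i j))
    (hB : ∀ (g : G ≃g G) i j, B (g i) (g j) = B i j) : B * Y = Y * B := by
  let c : Fin n × Fin n → ℝ := fun e => ∑ d : Fin n × Fin n, if R d.1 d.2 e.1 e.2 = true then 1 else 0
  have c0 : ∀ e, c e ≠ 0 := fun e => (sum_pos' (fun d _ => by positivity)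
    ⟨e, mem_univ _, by rw [if_pos ((hR e.1 e.2 e.1 e.2).2 ⟨1, rfl, rfl⟩)]; exact one_pos⟩).ne'
  have : B = ∑ d : Fin n × Fin n, (B d.1 d.2 / c d) • bm n (R d.1 d.2) := ext fun k l => by
    rw [Matrix.sum_apply, ← div_mul_cancel₀ (B k l) (c0 (k, l)), mul_sum]
    refine sum_congr rfl fun d _ => ?_
    simp only [Matrix.smul_apply, bm, of_apply, smul_eq_mul]
    split_ifs with h
    · obtain ⟨g, rfl, rfl⟩ := (hR ..).1 h
      rw [hB]
      congr 2
      refine sum_congr rfl fun d' _ => if_congr ?_ rfl rfl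
      rw [hR, hR]
      exact ⟨fun ⟨g', a, b⟩ => ⟨g⁻¹ * g', by simp [a], by simp [b]⟩,
        fun ⟨g', a, b⟩ => ⟨g * g', by simp [a], by simp [b]⟩⟩
    · simp
  rw [this, sum_mul, mul_sum]
  exact sum_congr rfl fun d _ => by rw [smul_mul_assoc, mul_smul_comm, hY]

theorem one_mem : (1 : Matrix (Fin n) (Fin n) ℝ) ∈ fracAut G :=
  ⟨Submonoid.one_mem _, by rw [mul_one, one_mul]⟩

/-- a small multiple of a tangent vector can be added to an interior point -/
theorem ex_eps {E Y : Matrix (Fin n) (Fin n) ℝ} (hE : E ∈ fracAut G)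
    (h1 : G.adjMatrix ℝ * Y = Y * G.adjMatrix ℝ) (h2 : ∀ i j, Y i j ≠ 0 → 0 < E i j)
    (h3 : ∀ i, ∑ j, Y i j = 0) (h4 : ∀ j, ∑ i, Y i j = 0) :
    ∃ ε : ℝ, ε ≠ 0 ∧ E + ε • Y ∈ fracAut G := by
  obtain ⟨a, b, c⟩ := mem_doublyStochastic_iff_sum.1 hE.1
  have : ∀ᶠ ε in nhds (0 : ℝ), ∀ i j, 0 ≤ E i j + ε * Y i j := by
    simp only [Filter.eventually_all]
    intro i j
    by_cases h : Y i j = 0
    · simp [h, a]
    · have t : ContinuousAt (fun ε : ℝ => E i j + ε * Y i j) 0 := by fun_prop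
      exact (t.eventually (lt_mem_nhds (by simpa using h2 i j h))).mono fun _ e => e.le
  obtain ⟨ε, e1, e2⟩ := ((this.filter_mono (nhdsWithin_le_nhds (s := {0}ᶜ))).and
    self_mem_nhdsWithin).exists
  refine ⟨ε, e2, mem_doublyStochastic_iff_sum.2 ⟨e1, fun i => ?_, fun i => ?_⟩, ?_⟩
  · simp [sum_add_distrib, ← mul_sum, b, h3]
  · simp [sum_add_distrib, ← mul_sum, c, h4]
  · rw [mul_add, add_mul, mul_smul_comm, smul_mul_assoc, hE.2, h1]

end Lin

open Lin

theorem sLin_of (ho : S_orc) (hc : S_cls) (hr : S_rank) : S_lin := by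
  obtain ⟨fd, no, p1, p2, so⟩ := ho
  obtain ⟨cls, p3, sc⟩ := hc
  obtain ⟨kr, p4, sr⟩ := hr
  let R : Mx → ℕ → ℕ → ℕ → ℕ → Bool := fun M i j k l =>
    (fd M (List.range M.length) [i, j] [k, l]).isSome
  refine ⟨fun M => ((prs M.length).all fun e => (prs M.length).all fun e' =>
    R M e.1 e.2 e'.1 e'.2 || no M (List.range M.length) [e.1, e.2] [e'.1, e'.2]) &&
    kr (M.length * M.length) (eqs M.length (adj M) (cls M)) (cms M.length (R M)), ?_,
    fun n G _ => ?_⟩
  · refine PT.and ?_ (p4.comp (PT.prodMk (f := fun M : Mx => M.length * M.length) ?_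
      (PT.prodMk (f := fun M : Mx => eqs M.length (adj M) (cls M))
        (g := fun M : Mx => cms M.length (R M)) ?_ ?_)))
    · unfold prs R
      fun_prop
    · fun_prop
    · unfold eqs cm Lin.vec prs
      fun_prop
    · unfold cms cm Lin.vec prs R
      fun_prop
  have so' := fun i j k l : Fin n => so n G _ [i, j] [k, l] inv_range rfl (by simp) (by simp)
  simp only [tm_two] at so'
  have hR : (∀ i j k l : Fin n, R (rows G) i j k l = true ∨
      no (rows G) (List.range n) [i, j] [k, l] = true) →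
      ∀ i j k l : Fin n, R (rows G) i j k l = true ↔ ∃ g : G ≃g G, g i = k ∧ g j = l :=
    fun h i j k l => ⟨fun a => by
      obtain ⟨_, e⟩ := Option.isSome_iff_exists.1 a
      rw [rows_length] at e
      exact ((so' i j k l).1 _ e).imp fun _ b => b.2,
      fun a => (h i j k l).resolve_right fun b => (so' i j k l).2.1 b a⟩
  simp only [Bool.and_eq_true, List.all_eq_true, all_prs, Bool.or_eq_true, rows_length, sr, eqs_iff,
    cms_iff, bm_adj]
  refine ⟨fun ⟨h1, h2⟩ X hX B hB => ?_, fun hG => ?_⟩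
  · obtain ⟨x, e⟩ := mat_surj (X - 1)
    obtain ⟨-, b, c⟩ := mem_doublyStochastic_iff_sum.1 hX.1
    have := h2 x
    rw [e] at this
    have := comm_of (hR h1) (this ⟨by rw [mul_sub, sub_mul, hX.2, mul_one, one_mul], fun i j h => ?_,
      fun i => by simp [b, one_apply], fun i => by simp [c, one_apply]⟩) hB
    · rwa [mul_sub, sub_mul, mul_one, one_mul, sub_left_inj] at this
    · by_cases a : X i j = 0
      · exact (sc n G).1 1 one_mem i j fun d => h (by rw [Matrix.sub_apply, a, d, sub_zero])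
      · exact (sc n G).1 X hX i j a
  · have h1 : ∀ i j k l : Fin n, R (rows G) i j k l = true ∨
        no (rows G) (List.range n) [i, j] [k, l] = true := fun i j k l => by
      simpa only [R, rows_length] using (so' i j k l).2.2 hG
    refine ⟨h1, fun x ⟨a, b, c, d⟩ i j => ?_⟩
    obtain ⟨E, hE, e⟩ := (sc n G).2
    obtain ⟨ε, e0, e1⟩ := ex_eps hE a (fun i j h => e i j (b i j h)) c d
    have hB : ∀ (g : G ≃g G) k l, bm n (R (rows G) i j) (g k) (g l) = bm n (R (rows G) i j) k l :=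
      fun g k l => if_congr (by
        rw [hR h1, hR h1]
        exact ⟨fun ⟨g', a, b⟩ => ⟨g⁻¹ * g', by simp [a], by simp [b]⟩,
          fun ⟨g', a, b⟩ => ⟨g * g', by simp [a], by simp [b]⟩⟩) rfl rfl
    have := hG.comm hB e1
    rw [mul_add, add_mul, hG.comm hB hE, add_right_inj, mul_smul_comm, smul_mul_assoc] at this
    exact smul_right_injective _ e0 this

theorem sLin : S_lin := sLin_of sOrc sCls sRank

end Pool.Agent.Lib.MP_3cc314_lc.Cg
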