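import Pool.Agent.Lib.MP_3cc314_lc.CgM1

set_option autoImplicit false

namespace Pool.Agent.Lib.MP_3cc314_lc.Cg

theorem card_map_mul {G Q : Type} [Group G] [Group Q] (φ : G →* Q) {U : Subgroup G}
    (h : φ.ker ≤ U) : Nat.card (U.map φ) * Nat.card φ.ker = Nat.card U := by
  rw [← Subgroup.relIndex_ker, ← Subgroup.card_mul_index (φ.ker.subgroupOf U),
    Nat.card_congr (Subgroup.subgroupOfEquivOfLe h).toEquiv, mul_comm]
  rfl

theorem cj_normal {G : Type} [Group G] (A : Subgroup G) [hA : A.Normal] (g : G) : cj g A = A := by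
  ext x
  rw [mem_cj]
  exact ⟨fun h => by simpa [mul_assoc] using hA.conj_mem _ h g,
    fun h => by simpa using hA.conj_mem _ h g⁻¹⟩

namespace Fam
variable {G : Type} [Group G] {F : Fam G}

/-- property (M) -/
def PM (F : Fam G) (A : Subgroup G) : Prop :=
  ∀ N C : Subgroup G, N ≠ ⊥ → C ≠ ⊥ → F.Dj N C → N ≤ A → Nat.card (N ⊔ C : Subgroup G) < Nat.card A

/-- the exceptional configuration in the quotient -/
structure Ex1 (F : Fam G) (A : Subgroup G) (X : Fin 3 → Subgroup G) (t : Fin 3 → G) : Prop where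
  mem : ∀ i, F.Mem (X i)
  nle : ∀ i, ¬A ≤ X i
  tX : ∀ i, t i ∈ X i
  tA : ∀ i, t i ∉ A
  tr : ∀ i, ∀ x ∈ X i, x ∈ A ∨ (t i)⁻¹ * x ∈ A
  pr : t 0 * t 1 * t 2 ∈ A
  inv : ∀ i, ∀ a ∈ A, ∀ x ∈ X i, a * x = x * a
  two : ∀ i j, i ≠ j → ∀ x ∈ A, x ∈ X i → x ∈ X j → x = 1
  typ : (∃ i, ∃ x ∈ A, x ∈ X i ∧ x ≠ 1) ∨ (Nat.card A = 2 ∧ t 0 * t 1 * t 2 ≠ 1)

theorem mem_zp {s x : G} (h : s * s = 1) : x ∈ Subgroup.zpowers s ↔ x = 1 ∨ x = s := by
  refine ⟨fun hx => ?_, by rintro (rfl | rfl); exacts [one_mem _, Subgroup.mem_zpowers _]⟩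
  obtain ⟨k, rfl⟩ := Subgroup.mem_zpowers_iff.1 hx
  have e : ∀ j : ℤ, s ^ (2 * j) = 1 := fun j => by rw [zpow_mul, zpow_two, h, one_zpow]
  obtain ⟨j, rfl | rfl⟩ := Int.even_or_odd' k
  exacts [.inl (e j), .inr (by rw [zpow_add_one, e, one_mul])]

theorem DihA.exc [Finite G] (h : F.DihA) {A : Subgroup G} [hA : A.Normal] (m : F.Mem A) :
    (∀ U ∈ F.s, Nat.card A ≤ Nat.card U) ∧ ∃ X t, F.Ex1 A X t := by
  classical
  obtain ⟨-, T, c3, hT, hU, h3⟩ := h
  obtain ⟨a, aT, aA⟩ := hU A m.1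
  obtain ⟨a1, aa, as⟩ := hT a aT
  obtain rfl : Subgroup.zpowers a = A := m.eq as (Subgroup.zpowers_le.2 aA)
  have c2 : ∀ s ∈ T, Nat.card (Subgroup.zpowers s) = 2 := fun s hs => by
    rw [Nat.card_zpowers]
    exact orderOf_eq_prime (by rw [sq, (hT s hs).2.1]) (hT s hs).1
  have cen : ∀ x, a * x = x * a := fun x => by
    rcases (mem_zp aa).1 (hA.conj_mem a aA x) with e | e
    · exact (a1 (by simpa using e)).elim
    · exact (mul_inv_eq_iff_eq_mul.1 e).symm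
  refine ⟨fun U hu => ?_, ?_⟩
  · obtain ⟨s, hs, su⟩ := hU U hu
    rw [c2 a aT, ← c2 s hs]
    exact Subgroup.card_le_of_le (Subgroup.zpowers_le.2 su)
  obtain ⟨p, hp, q, hq, pq⟩ := Finset.one_lt_card.1 (show 1 < (T.erase a).card by
    rw [Finset.card_erase_of_mem aT]; omega)
  obtain ⟨pa, pT⟩ := Finset.mem_erase.1 hp
  obtain ⟨qa, qT⟩ := Finset.mem_erase.1 hq
  have pp := (hT p pT).2.1
  have qq := (hT q qT).2.1
  have rT := h3 q qT p pT a aT
  have pr : p * q * (q * p * a) = a := by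
    calc _ = p * (q * q) * p * a := by group
      _ = a := by rw [qq, mul_one, pp, one_mul]
  have ra : q * p * a ≠ a := fun e => pq (by
    have : q * p = 1 := by simpa using e
    exact mul_left_cancel (pp.trans (by rw [← inv_eq_of_mul_eq_one_left this, mul_inv_cancel]; ) :
      p * p = p * q))
  have all : ∀ i, ![p, q, q * p * a] i ∈ T ∧ ![p, q, q * p * a] i ≠ a := fun i => by
    fin_cases i
    exacts [⟨pT, pa⟩, ⟨qT, qa⟩, ⟨rT, ra⟩]
  generalize ht : ![p, q, q * p * a] = t at all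
  have pr' : t 0 * t 1 * t 2 = a := by subst ht; exact pr
  have na : ∀ i, t i ∉ Subgroup.zpowers a := fun i n =>
    ((mem_zp aa).1 n).elim (hT _ (all i).1).1 (all i).2
  have mz := fun i x => mem_zp (x := x) (hT _ (all i).1).2.1
  refine ⟨fun i => Subgroup.zpowers (t i), t, fun i => ⟨(hT _ (all i).1).2.2, fun K hK l => ?_⟩,
    fun i l => ((mz i a).1 (l aA)).elim a1 (all i).2.symm, fun i => Subgroup.mem_zpowers _, na,
    fun i x hx => ?_, pr' ▸ aA, fun i b hb x _ => ?_, fun i j _ x hx hi _ => ?_,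
    .inr ⟨c2 a aT, pr' ▸ a1⟩⟩
  · obtain ⟨s, hs, sK⟩ := hU K hK
    rcases (mz i s).1 (l sK) with e | e
    exacts [((hT s hs).1 e).elim, Subgroup.zpowers_le.2 (e ▸ sK)]
  · rcases (mz i x).1 hx with rfl | rfl
    exacts [.inl (one_mem _), .inr (by simp)]
  · rcases (mem_zp aa).1 hb with rfl | rfl
    exacts [by simp, cen x]
  · exact ((mz i x).1 hi).resolve_right fun e => na i (e ▸ hx)

/-- the three involutions of the plane over the field with two elements -/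
def tau (i : Fin 3) (x : V4) : V4 := ![(x.2, x.1), (x.1, x.1 + x.2), (x.1 + x.2, x.2)] i

/-- their fixed vectors -/
def fx (i : Fin 3) : V4 := ![(1, 1), (0, 1), (1, 0)] i

/-- moved vectors -/
def mv (i : Fin 3) : V4 := ![(1, 0), (1, 0), (0, 1)] i

theorem tau_facts : (∀ i x y, tau i x = tau i y → x = y) ∧ (∀ i, tau i 0 = 0) ∧
    (∀ i, tau i (mv i) ≠ mv i) ∧ (∀ i x, tau i x = x ∨ tau i (mv i) + tau i x = mv i + x) ∧
    tau 0 (mv 0) + tau 1 (mv 1) + tau 2 (mv 2) = mv 0 + mv 1 + mv 2 ∧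
    (∀ i j x, i ≠ j → tau i x = x → tau j x = x → x = 0) ∧ tau 0 (1, 1) = (1, 1) ∧
    ((1, 1) : V4) ≠ 0 ∧ ∀ x : V4, x + x = 0 := by
  refine ⟨?_, ?_, ?_, ?_, ?_, ?_, ?_, ?_, ?_⟩ <;> decide

theorem B4A.exc [Finite G] (h : F.B4A) {A : Subgroup G} (m : F.Mem A) :
    (∀ U ∈ F.s, Nat.card A ≤ Nat.card U) ∧ ∃ X t, F.Ex1 A X t := by
  obtain ⟨r, c, hr, hc, rc, inj, hσ, hU⟩ := h
  obtain ⟨t1, t0, t2, t3, t4, t5, t6, t7, t8⟩ := tau_facts
  obtain ⟨e, he⟩ : ∃ e : V4 → V4 → G, ∀ i j, e i j = r i * c j := ⟨_, fun _ _ => rfl⟩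
  simp only [← he] at inj hσ hU
  have mul : ∀ i j k l, e i j * e k l = e (i + k) (j + l) := fun i j k l => by
    rw [he, he, he, hr, hc, mul_assoc, ← mul_assoc (c j), ← rc]; group
  have one : e 0 0 = 1 := by simpa using mul 0 0 0 0
  have inv : ∀ i j, (e i j)⁻¹ = e i j := fun i j =>
    inv_eq_of_mul_eq_one_right (by rw [mul, t8, t8, one])
  have ein : ∀ {i j k l}, e i j = e k l → i = k ∧ j = l := fun {i j k l} q => by
    have := inj (i + k) (j + l) (by rw [← mul, q, mul, t8, t8, one])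
    exact ⟨add_right_cancel (this.1.trans (t8 k).symm), add_right_cancel (this.2.trans (t8 l).symm)⟩
  have gm : ∀ σ : V4 → V4, ∀ H ∈ F.s, (∀ x, x ∈ H ↔ ∃ i, x = e i (σ i)) → F.Mem H :=
    fun σ H s hH => ⟨s, fun K hK l x hx => by
      obtain ⟨σ', -, -, k⟩ := hU K hK
      obtain ⟨i, rfl⟩ := (hH x).1 hx
      obtain ⟨j, q⟩ := (hH _).1 (l (k i))
      obtain ⟨rfl, q'⟩ := ein q
      exact q' ▸ k i⟩
  obtain ⟨σ, si, s0, sA⟩ := hU A m.1
  obtain ⟨A', s', hA⟩ := hσ σ si s0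
  obtain rfl : A' = A := m.eq s' fun x hx => by obtain ⟨i, rfl⟩ := (hA x).1 hx; exact sA i
  have inA : ∀ i j, e i j ∈ A' ↔ j = σ i := fun i j =>
    ⟨fun a => by obtain ⟨k, q⟩ := (hA _).1 a; obtain ⟨rfl, q'⟩ := ein q; exact q',
      fun q => q ▸ sA i⟩
  have add : ∀ i j, σ i + σ j = σ (i + j) := fun i j =>
    (inA _ _).1 (mul _ _ _ _ ▸ mul_mem (sA i) (sA j))
  refine ⟨fun U hu => ?_, ?_⟩
  · obtain ⟨σ', -, -, k⟩ := hU U hu
    calc Nat.card A' ≤ Nat.card V4 := Nat.card_le_card_of_surjective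
          (fun i => ⟨_, sA i⟩) fun x => by
            obtain ⟨i, q⟩ := (hA _).1 x.2
            exact ⟨i, Subtype.ext q.symm⟩
      _ ≤ _ := Nat.card_le_card_of_injective (fun i => ⟨_, k i⟩) fun i j q =>
          (ein (congrArg Subtype.val q)).1
  choose X hX mX using fun i => hσ (fun x => σ (tau i x)) (fun x y q => t1 i x y (si q))
    (by rw [t0, s0])
  have fix : ∀ i x, x ∈ A' → x ∈ X i → ∃ k, x = e k (σ k) ∧ tau i k = k := fun i x a b => by
    obtain ⟨k, rfl⟩ := (mX i x).1 b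
    have := (inA _ _).1 a
    exact ⟨k, by rw [this], si this⟩
  refine ⟨X, fun i => e (mv i) (σ (tau i (mv i))), fun i => gm _ _ (hX i) (mX i), fun i l => ?_,
    fun i => (mX i _).2 ⟨_, rfl⟩, fun i a => t2 i (si ((inA _ _).1 a)), fun i x hx => ?_, ?_,
    fun i a ha x hx => ?_, fun i j n x a b b' => ?_, .inl ⟨0, _, sA (1, 1), (mX 0 _).2 ⟨(1, 1), by
      rw [t6]⟩, fun q => t7 (inj _ _ q).1⟩⟩
  · obtain ⟨k, q, q'⟩ := fix i _ (sA (mv i)) (l (sA _))
    exact t2 i ((ein q).1 ▸ q')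
  · obtain ⟨k, rfl⟩ := (mX i x).1 hx
    rw [inv, mul, inA, inA, add]
    exact (t3 i k).imp (congrArg σ) (congrArg σ)
  · rw [mul, mul, inA, add, add, t4]
  · obtain ⟨k, rfl⟩ := (mX i x).1 hx
    obtain ⟨l, rfl⟩ := (hA a).1 ha
    rw [mul, mul, add_comm l, add_comm (σ l)]
  · obtain ⟨k, rfl, q⟩ := fix i x a b
    obtain ⟨l, p, q'⟩ := fix j _ a b'
    obtain rfl := (ein p).1
    rw [t5 i j k n q q', s0, one]

/-- a normal member with property (M) occurs only in the two round atoms -/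
theorem exc_of (hb : S_blk) (hl : S_lift) {n : ℕ} (ih : IH n) (k : ℕ) :
    ∀ (G : Type) [Group G] [Finite G] (F : Fam G) (A : Subgroup G) [A.Normal], Nat.card G = k → k < n →
      F.Fa → F.SF → F.Mem A → A ≠ ⊥ → F.PM A → F.DihA ∨ F.B4A := by
  induction k using Nat.strong_induction_on with
  | _ k IHk =>
  intro G _ _ F A hA hk hn hF hS m ne pm
  rcases ih G F (hk ▸ hn) hF hS with a | a | a | a | a
  · exact (ne (m.eq a bot_le).symm).elim
  · obtain ⟨c4, L, -, -, tr⟩ := a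
    obtain ⟨K, hK, n⟩ := Set.exists_ne_of_one_lt_ncard (s := {H | F.Mem H}) (by omega) A
    obtain ⟨t, -, e, -⟩ := tr A K m hK n.symm
    exact (n (e.symm.trans (cj_normal A t))).elim
  · exact .inl a
  · exact .inr a
  exfalso
  obtain ⟨N, b, gn, NA⟩ : ∃ N, F.Blk N ∧ F.Gal N ≠ ⊥ ∧ N ≤ A := by
    obtain ⟨N, b, gn, -⟩ := hb G F hF a
    by_cases l : N ≤ A
    · exact ⟨N, b, gn, l⟩
    have l' := (Dj_Gal N A m.1).resolve_left l
    refine ⟨F.Gal N, ⟨gn, Gal_Gal_Gal N, by rw [b.cl, sup_comm]; exact b.vis, fun g => .inl ?_⟩,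
      by rw [b.cl]; exact b.ne, l'⟩
    rw [cj_Gal, (b.blk g).resolve_right fun c => l ?_]
    rw [← cj_normal A g⁻¹]
    exact cj_le_iff.1 (c.trans l')
  have lt := pm N _ b.ne gn (Dj_Gal N) NA
  let φ := QuotientGroup.mk' (Subgroup.normalClosure (N : Set G))
  have hφ : Function.Surjective φ := QuotientGroup.mk'_surjective _
  have ker : φ.ker = Subgroup.normalClosure (N : Set G) := QuotientGroup.ker_mk' _
  obtain ⟨fa, kl, lift⟩ := hl G _ F N φ hφ hF b ker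
  have kA : φ.ker ≤ A := ker.le.trans (Subgroup.normalClosure_le_normal NA)
  have k0 : 0 < Nat.card φ.ker := Nat.card_pos
  have k1 : 1 < Nat.card φ.ker := (Subgroup.one_lt_card_iff_ne_bot _).2
    (ne_bot_of_le_ne_bot b.ne (Subgroup.le_normalClosure.trans ker.ge))
  have := Subgroup.Normal.map hA φ hφ
  have cA := card_map_mul φ kA
  have m' : (F.push φ hφ).Mem (A.map φ) := ⟨F.up m.1 (Subgroup.le_comap_map _ _), fun X hX l =>
    Subgroup.map_le_iff_le_comap.2 (m.eq hX ((Subgroup.comap_mono l).trans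
      (Subgroup.comap_map_eq_self kA).le)).ge⟩
  have cG := card_map_mul φ (le_top : φ.ker ≤ ⊤)
  rw [Subgroup.map_top_of_surjective φ hφ, Subgroup.card_top, Subgroup.card_top, hk] at cG
  have c0 : 0 < Nat.card (G ⧸ Subgroup.normalClosure (N : Set G)) := Nat.card_pos
  have lk : Nat.card (G ⧸ Subgroup.normalClosure (N : Set G)) < k := by nlinarith
  have at2 := IHk _ lk _ (F.push φ hφ) (A.map φ) rfl (lk.trans hn) fa (hS.push φ hφ) m'
    (fun z => absurd (Subgroup.card_le_of_le (((Subgroup.map_eq_bot_iff _).1 z).trans kl)) lt.not_ge)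
    (fun X Y x y d l => by
      obtain ⟨X', Y', d', rfl, rfl, kk⟩ := lift X Y d
      have := pm X' Y' (by rintro rfl; exact x (Subgroup.map_bot _))
        (by rintro rfl; exact y (Subgroup.map_bot _)) d' ((Subgroup.le_comap_map φ _).trans
          ((Subgroup.comap_mono l).trans (Subgroup.comap_map_eq_self kA).le))
      rw [← cA, ← card_map_mul φ kk, Subgroup.map_sup] at this
      exact Nat.lt_of_mul_lt_mul_right this)
  have := (at2.elim (fun a => (a.exc m').1) fun a => (a.exc m').1) ((N ⊔ F.Gal N).map φ)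
    (F.up b.vis (Subgroup.le_comap_map _ _))
  rw [← cA, ← card_map_mul φ kl] at lt
  exact absurd (Nat.lt_of_mul_lt_mul_right lt) this.not_gt

end Fam

theorem sM2_of (hc : S_cp) (hb : S_blk) (hl : S_lift) : S_m2 := by
  intro G _ _ F A B ih hF hS e
  by_cases sp : ∃ H, F.Spc A B H
  · exact .inl sp
  refine .inr ?_
  let L := Subgroup.normalizer (A : Set G)
  have AL : A ≤ L := Subgroup.le_normalizer
  have LB : L ≤ Subgroup.normalizer (B : Set G) := e.gal ▸ Fam.norm_le_norm_Gal A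
  have BL : B ≤ L := Subgroup.le_normalizer.trans (e.gal' ▸ Fam.norm_le_norm_Gal B :)
  have nA : (A.subgroupOf L).Normal := Subgroup.normal_in_normalizer
  have nB : (B.subgroupOf L).Normal := ⟨fun x hx g => by
    rw [Subgroup.mem_subgroupOf] at hx ⊢
    rw [← cj_eq_iff.2 (LB g.2)]
    exact (conj_mem_cj g.1).2 hx⟩
  let φ := QuotientGroup.mk' (B.subgroupOf L)
  have hφ : Function.Surjective φ := QuotientGroup.mk'_surjective _
  have ker : φ.ker = B.subgroupOf L := QuotientGroup.ker_mk' _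
  have k1 : ∀ x : L, φ x = 1 ↔ x.1 ∈ B := fun x => by
    rw [← MonoidHom.mem_ker, ker, Subgroup.mem_subgroupOf]
  let E := (F.pull L).push φ hφ
  let A1 := (A.subgroupOf L).map φ
  have nA1 : A1.Normal := nA.map φ hφ
  have cA : A1.comap φ = (A ⊔ B).subgroupOf L := by
    rw [Subgroup.comap_map_eq, ker, Subgroup.subgroupOf_sup AL BL]
  have inA : ∀ x : L, φ x ∈ A1 ↔ x.1 ∈ A ⊔ B := fun x => by
    rw [← Subgroup.mem_comap, cA, Subgroup.mem_subgroupOf]
  have AB : ∀ x ∈ A, x ∈ B → x = 1 := fun x a b =>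
    Subgroup.mem_bot.1 (hF.inf e.dj ▸ Subgroup.mem_inf.2 ⟨a, b⟩)
  have ck : Nat.card φ.ker = Nat.card B := by
    rw [ker, Nat.card_congr (Subgroup.subgroupOfEquivOfLe BL).toEquiv]
  have cc : ∀ X : Subgroup (L ⧸ B.subgroupOf L),
      Nat.card X * Nat.card B = Nat.card ((X.comap φ).map L.subtype) := fun X => by
    rw [Subgroup.card_map_of_injective L.subtype_injective, ← card_map_mul φ (φ.ker_le_comap X),
      Subgroup.map_comap_eq_self_of_surjective hφ, ck]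
  have b1 : 1 < Nat.card B := (Subgroup.one_lt_card_iff_ne_bot _).2 e.b
  have c1 : Nat.card A1 = Nat.card A := by
    refine Nat.eq_of_mul_eq_mul_right (show 0 < Nat.card B by omega) ?_
    rw [cc, cA, Subgroup.subgroupOf_map_subtype, inf_eq_left.2 (sup_le AL BL), hF.card_sup e.dj]
  have fa : E.Fa := Fam.Cl.fa (F := F.pull L) fun g hg =>
    (e.gal ▸ Fam.cl_Gal A : F.Cl B) g.1 fun H m => by
      obtain ⟨l, a, b⟩ := hg (H.subgroupOf L) ⟨H, m, le_rfl⟩
      exact ⟨l, a, b⟩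
  have sf : E.SF := (hS.pull (e.gal' ▸ Fam.cl_norm B :)).push φ hφ
  have lt : Nat.card (L ⧸ B.subgroupOf L) < Nat.card G := by
    have := cc ⊤
    rw [Subgroup.card_top] at this
    have l := Subgroup.card_le_card_group (((⊤ : Subgroup _).comap φ).map L.subtype)
    have c0 : 0 < Nat.card (L ⧸ B.subgroupOf L) := Nat.card_pos
    nlinarith
  have pt : ∀ X ∈ E.s, ¬A1 ≤ X → ∃ H, F.Mem H ∧ ¬A ≤ H ∧ ∀ x : L, x.1 ∈ H → φ x ∈ X := by
    rintro X ⟨U, hU, l⟩ n
    obtain ⟨H, m, l'⟩ := Fam.exists_mem hU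
    exact ⟨H, m, fun a => n (Subgroup.map_le_iff_le_comap.2 fun x hx => l (l' (a hx))),
      fun x hx => l (l' hx)⟩
  have m1 : E.Mem A1 := by
    obtain ⟨H, m, l⟩ := hc G F A B ih hF hS e
    refine ⟨⟨H, m, fun x hx => (inA x).2 (l ⟨hx, x.2⟩)⟩, fun Y hY l => by_contra fun n => ?_⟩
    obtain ⟨H, m, a, b⟩ := pt Y hY n
    exact sp ⟨H, m, a, fun x hx => (inA ⟨x, hx.2⟩).1 (l (b _ hx.1))⟩
  have pm : E.PM A1 := fun N C n c d l => by_contra fun nl => by
    have BC : B ≤ (C.comap φ).map L.subtype := fun b hb =>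
      ⟨⟨b, BL hb⟩, φ.ker_le_comap C ((k1 _).2 hb), rfl⟩
    have sp : ∀ x : L, φ x ∈ N → ∃ a : L, a.1 ∈ A ∧ φ a = φ x := fun x hx => l hx
    have d' : F.Dj (A ⊓ (N.comap φ).map L.subtype) ((C.comap φ).map L.subtype) := fun H m => by
      by_cases a : A ≤ H
      · exact .inl (inf_le_left.trans a)
      have b := (e.dj H m).resolve_left a
      have q : ∀ X, X ≤ (H.subgroupOf L).map φ → (X.comap φ).map L.subtype ≤ H := fun X l => by
        rw [Subgroup.map_le_iff_le_comap]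
        exact (Subgroup.comap_mono l).trans (Subgroup.comap_map_eq_self
          (ker.le.trans (Subgroup.comap_mono b))).le
      exact (d ((H.subgroupOf L).map φ) ⟨H, m, Subgroup.le_comap_map _ _⟩).imp
        (fun z => inf_le_right.trans (q _ z)) (q _)
    have n' : A ⊓ (N.comap φ).map L.subtype ≠ ⊥ := fun z => n (eq_bot_iff.2 fun y hy => by
      obtain ⟨a, ha, rfl⟩ := l hy
      have : a.1 ∈ A ⊓ (N.comap φ).map L.subtype := ⟨ha, a, hy, rfl⟩
      rw [z, Subgroup.mem_bot] at this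
      exact (k1 a).2 (this ▸ B.one_mem))
    have le : ((N ⊔ C).comap φ).map L.subtype ≤
        (A ⊓ (N.comap φ).map L.subtype) ⊔ (C.comap φ).map L.subtype := by
      rw [← Subgroup.comap_sup_eq _ _ _ hφ, Subgroup.map_sup]
      refine sup_le ?_ le_sup_right
      rintro _ ⟨x, hx, rfl⟩
      obtain ⟨a, ha, q⟩ := l hx
      have : L.subtype x = a.1 * (a⁻¹ * x).1 := by simp
      rw [this]
      exact Subgroup.mul_mem_sup ⟨ha, a, show φ a ∈ N from q ▸ hx, rfl⟩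
        (BC ((k1 _).1 (by rw [map_mul, map_inv, q, inv_mul_cancel])))
    have := e.eq inf_le_left n' (ne_bot_of_le_ne_bot e.b BC) d' (by
      rw [← hF.card_sup d', ← c1]
      refine le_trans ?_ (Subgroup.card_le_of_le le)
      rw [← cc]
      exact Nat.mul_le_mul_right _ (not_lt.1 nl))
    rw [this, ← Fam.le_Gal, e.gal] at d'
    refine c (eq_bot_iff.2 fun y hy => ?_)
    obtain ⟨y, rfl⟩ := hφ y
    exact (k1 y).2 (d' ⟨y, hy, rfl⟩)
  have ne : A1 ≠ ⊥ := by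
    rw [← Subgroup.one_lt_card_iff_ne_bot, c1]
    exact (Subgroup.one_lt_card_iff_ne_bot _).2 e.a
  obtain ⟨X, t, x⟩ := (Fam.exc_of hb hl ih _ _ E A1 rfl lt fa sf m1 ne pm).elim
    (fun a => (a.exc m1).2) fun a => (a.exc m1).2
  choose H mH nH lH using fun i => pt (X i) (x.mem i).1 (x.nle i)
  have iH : ∀ i (y : L), y.1 ∈ H i ↔ φ y ∈ X i := fun i y => ⟨lH i y, fun hy => by
    rw [← (x.mem i).eq (K := ((H i).subgroupOf L).map φ) ⟨H i, (mH i).1, Subgroup.le_comap_map _ _⟩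
      (Subgroup.map_le_iff_le_comap.2 (lH i)), ← Subgroup.mem_comap] at hy
    exact (Subgroup.comap_map_eq_self
      (ker.le.trans (Subgroup.comap_mono ((e.dj _ (mH i).1).resolve_left (nH i))))).le hy⟩
  choose s hs using fun i => hφ (t i)
  have p3 : φ (s 0 * s 1 * s 2) = t 0 * t 1 * t 2 := by rw [map_mul, map_mul, hs, hs, hs]
  have ia : ∀ a (h : a ∈ A), φ ⟨a, AL h⟩ ∈ A1 := fun a h => ⟨_, h, rfl⟩
  refine ⟨H, fun i => (s i).1, mH, nH, fun i => (iH i _).2 (hs i ▸ x.tX i), fun i => (s i).2,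
    fun i a => x.tA i (hs i ▸ (inA _).2 a), fun i y hy yL => ?_, (inA _).1 (p3 ▸ x.pr),
    fun i a ha => ?_, fun i j n => eq_bot_iff.2 fun y hy => ?_, x.typ.imp ?_ fun a =>
      ⟨c1 ▸ a.1, fun b => a.2 (p3 ▸ (k1 _).2 b)⟩⟩
  · refine (x.tr i _ (lH i ⟨y, yL⟩ hy)).imp (inA _).1 fun a => (inA ((s i)⁻¹ * ⟨y, yL⟩)).1 ?_
    rwa [map_mul, map_inv, hs]
  · ext y
    refine and_congr_left fun yL => mem_cj.trans ((iH i ((⟨a, AL ha⟩ : L)⁻¹ * ⟨y, yL⟩ * ⟨a, AL ha⟩)).trans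
      (Iff.trans ?_ (iH i ⟨y, yL⟩).symm))
    rw [map_mul, map_mul, map_inv]
    have cm := x.inv i _ (ia a ha)
    generalize φ ⟨a, AL ha⟩ = u at cm ⊢
    generalize φ ⟨y, yL⟩ = v
    refine ⟨fun h => ?_, fun h => by rwa [mul_assoc, ← cm v h, inv_mul_cancel_left]⟩
    have := cm _ h
    rw [← mul_assoc, mul_inv_cancel_left, mul_left_inj] at this
    exact this ▸ h
  · exact AB y hy.1.1 ((k1 ⟨y, AL hy.1.1⟩).1
      (x.two i j n _ (ia y hy.1.1) (lH i _ hy.1.2) (lH j _ hy.2)))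
  · rintro ⟨i, _, ⟨a, ha, rfl⟩, b, c⟩
    refine ⟨i, fun z => c ((k1 a).2 ?_)⟩
    have : a.1 ∈ A ⊓ H i := ⟨ha, (iH i a).2 b⟩
    rw [z, Subgroup.mem_bot] at this
    exact this ▸ B.one_mem

end Pool.Agent.Lib.MP_3cc314_lc.Cg
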