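import Pool.Agent.Lib.MP_3cc314_lc.CgGlue

set_option autoImplicit false

namespace Pool.Agent.Lib.MP_3cc314_lc.Cg
open scoped Classical

variable {G : Type} [Group G]

/-- integer valued indicator function of the coset `g H` -/
noncomputable def iz (g : G) (H : Subgroup G) (x : G) : ℤ := if g⁻¹ * x ∈ H then 1 else 0

theorem iz_pos {g x : G} {H : Subgroup G} (h : g⁻¹ * x ∈ H) : iz g H x = 1 := if_pos h

theorem iz_neg {g x : G} {H : Subgroup G} (h : g⁻¹ * x ∉ H) : iz g H x = 0 := if_neg h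

theorem iz_one (H : Subgroup G) (x : G) : iz 1 H x = if x ∈ H then 1 else 0 := by simp [iz]

theorem iz_nonneg (g : G) (H : Subgroup G) (x : G) : 0 ≤ iz g H x := by
  unfold iz; split_ifs <;> norm_num

theorem iz_le (g : G) (H : Subgroup G) (x : G) : iz g H x ≤ 1 := by
  unfold iz; split_ifs <;> norm_num

/-- a group that is covered by a proper subgroup and a coset of a proper subgroup -/
theorem two_cover {M A B : Subgroup G} {y : G} (h : ∀ m ∈ M, m ∈ A ∨ y⁻¹ * m ∈ B)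
    (hA : ¬M ≤ A) (hB : ¬M ≤ B) : y ∉ B ∧ ∀ m ∈ M, (m ∈ A ↔ m ∈ B) := by
  obtain ⟨a, aM, aA⟩ := SetLike.not_le_iff_exists.1 hA
  have h1 : ∀ m ∈ M, m ∈ A → m ∈ B := fun m hm hA' => by
    have e1 := (h a aM).resolve_left aA
    have e2 := (h (a * m) (M.mul_mem aM hm)).resolve_left fun c =>
      aA ((A.mul_mem_cancel_right hA').1 c)
    rw [← mul_assoc] at e2
    exact (B.mul_mem_cancel_left e1).1 e2
  have h2 : y ∉ B := fun hy => hB fun m hm => (h m hm).elim (h1 m hm) fun c =>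
    (B.mul_mem_cancel_left (B.inv_mem hy)).1 c
  exact ⟨h2, fun m hm => ⟨h1 m hm, fun c => (h m hm).resolve_right fun d =>
    h2 (B.inv_mem_iff.1 ((B.mul_mem_cancel_right c).1 d))⟩⟩

/-- `W` has index two in `M` -/
structure Ix2 (W M : Subgroup G) : Prop where
  le : W ≤ M
  ne : ¬M ≤ W
  two : ∀ a ∈ M, a ∉ W → ∀ b ∈ M, b ∉ W → a⁻¹ * b ∈ W

theorem two_card_le [Finite G] {W M : Subgroup G} (l : W ≤ M) (n : ¬M ≤ W) :
    2 * Nat.card W ≤ Nat.card M := by
  have e := Subgroup.card_mul_index (W.subgroupOf M)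
  rw [Nat.card_congr (Subgroup.subgroupOfEquivOfLe l).toEquiv] at e
  have h1 : (W.subgroupOf M).index ≠ 1 := fun c =>
    n (Subgroup.subgroupOf_eq_top.1 (Subgroup.index_eq_one.1 c))
  have h0 : (W.subgroupOf M).index ≠ 0 := Subgroup.index_ne_zero_of_finite
  rw [← e, mul_comm]
  exact Nat.mul_le_mul_left _ (by omega)

theorem ix2_iff [Finite G] {W M : Subgroup G} (l : W ≤ M) :
    Ix2 W M ↔ Nat.card M = 2 * Nat.card W := by
  have e := Subgroup.card_mul_index (W.subgroupOf M)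
  rw [Nat.card_congr (Subgroup.subgroupOfEquivOfLe l).toEquiv] at e
  have p : 0 < Nat.card W := Nat.card_pos
  have k : Nat.card M = 2 * Nat.card W ↔ (W.subgroupOf M).index = 2 := by
    rw [← e, mul_comm 2]
    exact ⟨fun c => Nat.eq_of_mul_eq_mul_left p c, fun c => by rw [c]⟩
  rw [k]
  constructor
  · rintro ⟨-, n, t⟩
    obtain ⟨a, aM, aW⟩ := SetLike.not_le_iff_exists.1 n
    refine Subgroup.index_eq_two_iff'.2 ⟨⟨a⁻¹, M.inv_mem aM⟩, fun b => ?_⟩
    by_cases hb : b.1 ∈ W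
    · exact .inr ⟨hb, fun c => aW (W.inv_mem_iff.1 ((W.mul_mem_cancel_right hb).1 c))⟩
    · exact .inl ⟨t a aM aW b b.2 hb, hb⟩
  · intro c
    refine ⟨l, fun n => ?_, fun a aM aW b bM bW => ?_⟩
    · rw [Subgroup.subgroupOf_eq_top.2 n, Subgroup.index_top] at c
      omega
    · exact (Subgroup.mul_mem_iff_of_index_two c (a := ⟨a⁻¹, M.inv_mem aM⟩) (b := ⟨b, bM⟩)).2
        (iff_of_false (fun d => aW (W.inv_mem_iff.1 d)) bW)

theorem Ix2.card [Finite G] {W M : Subgroup G} (h : Ix2 W M) : Nat.card M = 2 * Nat.card W :=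
  (ix2_iff h.le).1 h

theorem Ix2.mul {W M : Subgroup G} (h : Ix2 W M) {a b : G} (aM : a ∈ M) (aW : a ∉ W) (bM : b ∈ M)
    (bW : b ∉ W) : a * b ∈ W := by
  simpa using h.two a⁻¹ (M.inv_mem aM) (fun c => aW (W.inv_mem_iff.1 c)) b bM bW

namespace Fam
variable {F : Fam G}

/-- integer valued functions in the span of the cosets -/
def Sp (F : Fam G) (f : G → ℤ) : Prop := (fun x => (f x : ℝ)) ∈ F.sp

theorem Sp.iz {H : Subgroup G} (m : H ∈ F.s) (g : G) : F.Sp (iz g H) := by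
  have : (fun x => ((Cg.iz g H x : ℤ) : ℝ)) = ind g H := funext fun x => by
    unfold Cg.iz ind; split_ifs <;> simp
  unfold Sp
  rw [this]
  exact ind_mem m g

theorem Sp.add {f g : G → ℤ} (a : F.Sp f) (b : F.Sp g) : F.Sp fun x => f x + g x := by
  have := add_mem a b
  unfold Sp
  convert this using 1
  funext x; simp

theorem Sp.sub {f g : G → ℤ} (a : F.Sp f) (b : F.Sp g) : F.Sp fun x => f x - g x := by
  have := sub_mem a b
  unfold Sp
  convert this using 1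
  funext x; simp

theorem Sp.congr {f g : G → ℤ} (a : F.Sp f) (e : ∀ x, g x = f x) : F.Sp g := by
  rwa [show g = f from funext e]

theorem Sp.sum {ι : Type} (s : Finset ι) {f : ι → G → ℤ} (a : ∀ i ∈ s, F.Sp (f i)) :
    F.Sp fun x => ∑ i ∈ s, f i x := by
  have := sum_mem (S := F.sp) a
  unfold Sp
  convert this using 1
  funext x; simp [Finset.sum_apply]

theorem Sp.of_inv [Finite G] {U : Subgroup G} (m : U ∈ F.s) {f : G → ℤ}
    (h : ∀ x, ∀ u ∈ U, f (x * u) = f x) : F.Sp f :=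
  mem_sp_of_inv m fun x u hu => by rw [h x u hu]

theorem Sp.of_two {f g : G → ℤ} (a : F.Sp g) (e : ∀ x, 2 * f x = g x) : F.Sp f := by
  have := F.sp.smul_mem (1 / 2 : ℝ) a
  unfold Sp
  convert this using 1
  funext x
  rw [Pi.smul_apply, ← e x, smul_eq_mul]
  push_cast; ring

/-- a coset through a given point of the support can be removed -/
theorem SF.cos [Finite G] (h : F.SF) {f : G → ℤ} (hf : F.Sp f) (h0 : ∀ x, 0 ≤ f x) {x : G}
    (hx : 0 < f x) : ∃ M, F.Mem M ∧ (∀ m ∈ M, 0 < f (x * m)) ∧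
      F.Sp (fun y => f y - iz x M y) ∧ ∀ y, 0 ≤ f y - iz x M y := by
  obtain ⟨U, m, hU⟩ := h _ hf (fun y => by exact_mod_cast h0 y) x (by exact_mod_cast hx)
  obtain ⟨M, a, l⟩ := exists_mem m
  have k : ∀ m ∈ M, 0 < f (x * m) := fun m hm => by exact_mod_cast hU m (l hm)
  refine ⟨M, a, k, hf.sub (Sp.iz a.1 x), fun y => ?_⟩
  by_cases c : x⁻¹ * y ∈ M
  · have := k _ c
    rw [mul_inv_cancel_left] at this
    rw [iz_pos c]; omega
  · rw [iz_neg c]; simpa using h0 y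

/-- a nonnegative function of the span whose support is a proper part of a coset vanishes -/
theorem SF.zero [Finite G] (h : F.SF) {f : G → ℤ} (hf : F.Sp f) (h0 : ∀ x, 0 ≤ f x) {g z : G}
    {L : Subgroup G} (hL : F.Mem L) (hs : ∀ x, 0 < f x → g⁻¹ * x ∈ L) (hz : g⁻¹ * z ∈ L)
    (hz0 : f z = 0) (x : G) : f x = 0 := by
  by_contra n
  have p : 0 < f x := lt_of_le_of_ne (h0 x) (Ne.symm n)
  obtain ⟨M, a, k, -⟩ := h.cos hf h0 p
  have xL := hs x p
  have l : M ≤ L := fun m hm => by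
    have := hs _ (k m hm)
    rwa [← mul_assoc, L.mul_mem_cancel_left xL] at this
  have e := hL.eq a.1 l
  have : x⁻¹ * z ∈ M := by
    rw [e]
    have := L.mul_mem (L.inv_mem xL) hz
    simpa [mul_assoc] using this
  have := k _ this
  rw [mul_inv_cancel_left, hz0] at this
  exact this.false

/-- the generator of an element of order two of the family -/
def Rfl (F : Fam G) (s : G) : Prop := s ≠ 1 ∧ s * s = 1 ∧ Subgroup.zpowers s ∈ F.s

theorem zp_iff {s x : G} (h : s * s = 1) : x ∈ Subgroup.zpowers s ↔ x = 1 ∨ x = s :=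
  ⟨mem_zp1 h, fun c => c.elim (fun e => e ▸ one_mem _) fun e => e ▸ Subgroup.mem_zpowers _⟩

theorem iz_zp {s : G} (h : s * s = 1) (g x : G) :
    iz g (Subgroup.zpowers s) x = if x = g ∨ x = g * s then 1 else 0 := by
  exact if_congr (by rw [zp_iff h, inv_mul_eq_one, inv_mul_eq_iff_eq_mul, eq_comm (a := g)]) rfl rfl

theorem Mem.ex_ne (hb : ⊥ ∉ F.s) {L : Subgroup G} (hL : F.Mem L) : ∃ x ∈ L, x ≠ 1 := by
  by_contra n
  push Not at n
  exact hb (F.up hL.1 fun x hx => (n x hx).symm ▸ one_mem _)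

theorem rfl_all [Finite G] (h : F.SF) (hb : ⊥ ∉ F.s) {s t : G} (hs : F.Rfl s) (ht : F.Rfl t)
    (n : s ≠ t) {L : Subgroup G} (hL : F.Mem L) : ∃ u ∈ L, F.Rfl u := by
  by_cases c : s ∈ L
  · exact ⟨s, c, hs⟩
  obtain ⟨x, xL, x1⟩ := hL.ex_ne hb
  have st1 : s * t ≠ 1 := fun e => n (mul_left_cancel (a := s) (by rw [hs.2.1, e]))
  have sts : s * t ≠ s := fun e => ht.1 (mul_left_cancel (a := s) (by rw [e, mul_one]))
  let f : G → ℤ := fun y => (if y ∈ L ∧ y ≠ 1 then 1 else 0) + if y = s * t then 1 else 0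
  have hf : F.Sp f := (((Sp.iz hL.1 1).add (Sp.iz ht.2.2 s)).sub (Sp.iz hs.2.2 1)).congr fun y => by
    simp only [f, iz_one, iz_zp ht.2.1, zp_iff hs.2.1]
    by_cases a : y = 1
    · simp [a, st1.symm, hs.1.symm, L.one_mem]
    · by_cases b : y = s
      · simp [b, c, sts.symm]
      · simp [a, b]
  have h0 : ∀ y, 0 ≤ f y := fun y => by simp only [f]; split_ifs <;> norm_num
  obtain ⟨M, a, k, hf', h0'⟩ := h.cos hf h0 (x := x) (by simp only [f, xL]; split_ifs <;> simp_all)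
  have nl : ¬M ≤ L := fun l => by
    have := k x⁻¹ (by rw [hL.eq a.1 l]; exact L.inv_mem xL)
    simp [f, st1.symm] at this
  have km : ∀ m ∈ M, m ∉ L → x * m = s * t := fun m hm mL => by
    by_contra e
    have := k m hm
    simp [f, e, L.mul_mem_cancel_left xL, mL] at this
  obtain ⟨m, mM, mL⟩ := SetLike.not_le_iff_exists.1 nl
  have stL : s * t ∉ L := by rw [← km m mM mL, L.mul_mem_cancel_left xL]; exact mL
  have ML : ∀ w ∈ M, w ∈ L → w = 1 := fun w wM wL => by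
    have := km (m * w) (M.mul_mem mM wM) fun d => mL ((L.mul_mem_cancel_right wL).1 d)
    rw [← mul_assoc, km m mM mL] at this
    exact mul_left_cancel (this.trans (mul_one _).symm)
  have z := h.zero hf' h0' (g := 1) (z := x) hL (fun y hy => by
    by_contra d
    rw [inv_one, one_mul] at d
    by_cases e : y = s * t
    · rw [iz_pos (by rw [e, ← km m mM mL, inv_mul_cancel_left]; exact mM)] at hy
      simp [f, e, stL] at hy
    · have := iz_nonneg x M y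
      simp only [f, d, e, false_and, if_false] at hy
      omega) (by simpa using xL) (by
    have e : x ≠ s * t := fun e => stL (e ▸ xL)
    simp [f, xL, x1, e, iz_pos (g := x) (x := x) (H := M) (by simp)])
  have Lx : ∀ y ∈ L, y = 1 ∨ y = x := fun y yL => by
    by_contra d
    push Not at d
    have e : y ≠ s * t := fun e => stL (e ▸ yL)
    have := z y
    rw [iz_neg fun b => d.2 (inv_mul_eq_one.1 (ML _ b (L.mul_mem (L.inv_mem xL) yL))).symm] at this
    simp [f, yL, d.1, e] at this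
  have xx : x * x = 1 := (Lx _ (L.mul_mem xL xL)).resolve_right fun e =>
    x1 (mul_left_cancel (e.trans (mul_one _).symm))
  exact ⟨x, xL, x1, xx, F.up hL.1 fun y yL => (zp_iff xx).2 (Lx y yL)⟩

theorem rfl_mul [Finite G] (h : F.SF) (hb : ⊥ ∉ F.s) {s t u : G} (hs : F.Rfl s) (ht : F.Rfl t)
    (hu : F.Rfl u) : F.Rfl (s * t * u) := by
  let f : G → ℤ := fun y => (if y = 1 then 1 else 0) + if y = s * t * u then 1 else 0
  have dl : ∀ {v : G}, F.Rfl v → ∀ g y, iz g (Subgroup.zpowers v) y =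
      (if y = g then 1 else 0) + if y = g * v then 1 else 0 := fun {v} hv g y => by
    have : g ≠ g * v := fun e => hv.1 (mul_left_cancel (a := g) (by rw [← e, mul_one]))
    rw [iz_zp hv.2.1]
    by_cases a : y = g
    · simp [a, this]
    · simp [a]
  have hf : F.Sp f := (((Sp.iz hs.2.2 1).sub (Sp.iz ht.2.2 s)).add (Sp.iz hu.2.2 (s * t))).congr
    fun y => by simp only [f, dl hs, dl ht, dl hu, one_mul]; ring
  have h0 : ∀ y, 0 ≤ f y := fun y => by simp only [f]; split_ifs <;> norm_num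
  obtain ⟨M, a, k, -⟩ := h.cos hf h0 (x := 1) (by simp only [f]; split_ifs <;> simp_all)
  have k' : ∀ m ∈ M, m = 1 ∨ m = s * t * u := fun m hm => by
    by_contra d
    push Not at d
    have := k m hm
    simp [f, d.1, d.2] at this
  obtain ⟨x, xM, x1⟩ := a.ex_ne hb
  have e := (k' x xM).resolve_left x1
  have xx : x * x = 1 := (k' _ (M.mul_mem xM xM)).resolve_right fun d =>
    x1 (mul_left_cancel ((d.trans e.symm).trans (mul_one _).symm))
  rw [← e]
  exact ⟨x1, xx, F.up a.1 fun y yM => (zp_iff xx).2 (e ▸ k' y yM)⟩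

theorem Rfl.conj {s : G} (hs : F.Rfl s) (g : G) : F.Rfl (g * s * g⁻¹) := by
  have e : g * s * g⁻¹ * (g * s * g⁻¹) = 1 := by
    calc _ = g * (s * s) * g⁻¹ := by group
      _ = 1 := by rw [hs.2.1]; group
  refine ⟨fun c => hs.1 (by simpa using c), e, F.up (F.conj g hs.2.2) fun x hx => (zp_iff e).2 ?_⟩
  rcases (zp_iff hs.2.1).1 (mem_cj.1 hx) with c | c
  · exact .inl (by
      have : x = g * (g⁻¹ * x * g) * g⁻¹ := by group
      rw [this, c]; group)
  · exact .inr (by rw [← c]; group)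

theorem cen_key [Finite G] (h : F.SF) {s : G} (hs : F.Rfl s) (cen : ∀ g, s * g = g * s)
    {L L1 : Subgroup G} (hL : F.Mem L) (sL : s ∉ L) (hL1 : F.Mem L1) (sL1 : s ∉ L1) {x : G}
    (xL : x ∈ L) (xL1 : x ∉ L1) : ∃ M l, F.Mem M ∧ s ∉ M ∧ l ∈ L1 ∧ l ∉ L ∧ x⁻¹ * (s * l) ∈ M ∧
      x⁻¹ * (s * l) ∉ L ∧ Ix2 (M ⊓ L) M ∧ M ⊓ L ≤ L1 ∧
      (Ix2 (L ⊓ L1) L → L ⊓ L1 ≤ M → ¬L1 ≤ L → Ix2 (L ⊓ L1) L1) := by
  have si : s⁻¹ = s := inv_eq_of_mul_eq_one_right hs.2.1
  have ex : ∀ {U : Subgroup G}, s ∉ U → ∀ y, y ∈ U → s * y ∉ U := fun n y a b =>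
    n ((Subgroup.mul_mem_cancel_right _ a).1 b)
  have ss : ∀ y, s * (s * y) = y := fun y => by rw [← mul_assoc, hs.2.1, one_mul]
  let φ : G → ℤ := fun y => iz 1 L y - iz s L y - iz 1 L1 y + iz s L1 y
  have eφ : ∀ y, φ y = (if y ∈ L then 1 else 0) - (if s * y ∈ L then 1 else 0) -
      (if y ∈ L1 then 1 else 0) + if s * y ∈ L1 then 1 else 0 := fun y => by simp [φ, iz, si]
  have odd : ∀ y, φ (s * y) = -φ y := fun y => by rw [eφ, eφ, ss]; ring
  let f : G → ℤ := fun y => max (φ y) 0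
  have hφ : F.Sp φ := (((Sp.iz hL.1 1).sub (Sp.iz hL.1 s)).sub (Sp.iz hL1.1 1)).add (Sp.iz hL1.1 s)
  have hf : F.Sp f := ((Sp.of_inv hs.2.2 (f := fun y => |φ y|) fun y u hu => by
    rcases (zp_iff hs.2.1).1 hu with rfl | rfl
    · rw [mul_one]
    · rw [← cen, odd, abs_neg]).add hφ).of_two fun y => by
      simp only [f]
      rcases le_total (φ y) 0 with c | c
      · rw [max_eq_right c, abs_of_nonpos c]; ring
      · rw [max_eq_left c, abs_of_nonneg c]; ring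
  have h0 : ∀ y, 0 ≤ f y := fun y => le_max_right _ _
  have sup : ∀ y, 0 < f y ↔ (y ∈ L ∧ y ∉ L1) ∨ (s * y ∈ L1 ∧ s * y ∉ L) := fun y => by
    have a := ex sL y
    have b := ex sL1 y
    simp only [f, lt_max_iff, lt_irrefl, or_false, eφ]
    split_ifs <;> simp_all
  have le1 : ∀ y, s * y ∉ L1 → f y ≤ 1 := fun y n => by
    simp only [f, eφ, max_le_iff]
    split_ifs <;> simp_all
  obtain ⟨M, a, k, hf', h0'⟩ := h.cos hf h0 (x := x) ((sup x).2 (.inl ⟨xL, xL1⟩))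
  have nl : ¬M ≤ L := fun l => by
    have := (sup _).1 (k x⁻¹ (by rw [hL.eq a.1 l]; exact L.inv_mem xL))
    simp [sL1] at this
  have km : ∀ m ∈ M, m ∉ L → s * (x * m) ∈ L1 := fun m hm mL =>
    (((sup _).1 (k m hm)).resolve_left fun c => mL ((L.mul_mem_cancel_left xL).1 c.1)).1
  obtain ⟨m, mM, mL⟩ := SetLike.not_le_iff_exists.1 nl
  have q : ∀ a b : G, s * (x * a) ∈ L1 → s * (x * b) ∈ L1 → a⁻¹ * b ∈ L1 := fun a b c d => by
    have := L1.mul_mem (L1.inv_mem c) d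
    simpa [mul_assoc] using this
  have nl1 : ¬M ≤ L1 := fun l => by
    have e := hL1.eq a.1 l
    have c : s * x ∈ L1 := by
      have := km m mM mL
      rwa [← mul_assoc, L1.mul_mem_cancel_right (l mM)] at this
    have := (sup _).1 (k (s * x)⁻¹ (e ▸ L1.inv_mem c))
    simp [si, sL, hs.2.1] at this
  obtain ⟨mL1, t⟩ := two_cover (M := M) (A := L) (B := L1) (y := m)
    (fun b hb => or_iff_not_imp_left.2 fun n => q _ _ (km m mM mL) (km b hb n)) nl nl1
  refine ⟨M, s * (x * m), a, fun c => ?_, km m mM mL,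
    (((sup _).1 (k m mM)).resolve_left fun c => mL ((L.mul_mem_cancel_left xL).1 c.1)).2,
    by simpa [ss] using mM, by simpa [ss] using mL,
    ⟨inf_le_left, fun c => nl (c.trans inf_le_right), fun b bM bL c cM cL => ?_⟩,
    fun b hb => (t b hb.1).1 hb.2, fun i l n => ⟨inf_le_right, fun c => n (c.trans inf_le_left), ?_⟩⟩
  · have := km s c sL
    rw [← cen, ss] at this
    exact xL1 this
  · have d := M.mul_mem (M.inv_mem bM) cM
    exact ⟨d, (t _ d).2 (q _ _ (km b bM fun e => bL ⟨bM, e⟩) (km c cM fun e => cL ⟨cM, e⟩))⟩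
  · have z := h.zero hf' h0' (g := s) (z := s) hL1 (fun y hy => by
      have p : 0 < f y := by have := iz_nonneg x M y; omega
      rw [si]
      by_contra n
      obtain ⟨yL, yL1⟩ := ((sup y).1 p).resolve_right fun c => n c.1
      have := le1 y n
      rw [iz_pos (l (i.two x xL (fun c => xL1 c.2) y yL fun c => yL1 c.2))] at hy
      omega) (by simp) (by
      have p : ¬0 < f s := by rw [sup]; simp [sL, hs.2.1]
      have := h0' s
      have := iz_nonneg x M s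
      omega)
    have w : ∀ b ∈ L1, b ∉ L ⊓ L1 → x⁻¹ * (s * b) ∈ M := fun b bL bn => by
      by_contra n
      have := z (s * b)
      have p := (sup (s * b)).2 (.inr (by rw [ss]; exact ⟨bL, fun c => bn ⟨c, bL⟩⟩))
      rw [iz_neg n] at this
      omega
    intro b bL bn c cL cn
    have d : b⁻¹ * c ∈ M := by
      have := M.mul_mem (M.inv_mem (w b bL bn)) (w c cL cn)
      simpa [mul_assoc] using this
    have e := L1.mul_mem (L1.inv_mem bL) cL
    exact ⟨(t _ d).2 e, e⟩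

theorem Mem.not_le {L K : Subgroup G} (hL : F.Mem L) (hK : F.Mem K) (n : L ≠ K) : ¬L ≤ K :=
  fun l => n (hK.eq hL.1 l)

theorem Rd.ex [Finite G] (r : F.Rd) {x y : G} (hx : x ≠ 1) (hy : y ≠ 1) :
    ∃ N, F.Mem N ∧ x ∉ N ∧ y ∉ N := by
  by_contra n
  push Not at n
  exact (r x y (dj_of_mem fun H m => or_iff_not_imp_left.2 (n H m))).elim hx hy

theorem not_unique [Finite G] (h : F.SF) (r : F.Rd) (hb : ⊥ ∉ F.s) {s : G} (hs : F.Rfl s) :
    ∃ t, F.Rfl t ∧ s ≠ t := by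
  by_contra un
  push Not at un
  have cen : ∀ g, s * g = g * s := fun g => by
    conv_lhs => rw [un _ (hs.conj g)]
    group
  have si : s⁻¹ = s := inv_eq_of_mul_eq_one_right hs.2.1
  have : Nonempty {L : Subgroup G // F.Mem L ∧ s ∉ L} := by
    obtain ⟨N, a, b, -⟩ := r.ex hs.1 hs.1
    exact ⟨⟨N, a, b⟩⟩
  obtain ⟨⟨L0, hL0, sL0⟩, mn⟩ :=
    Finite.exists_min fun L : {L : Subgroup G // F.Mem L ∧ s ∉ L} => Nat.card L.1
  have pr : ∀ L L1 : Subgroup G, F.Mem L → s ∉ L → Nat.card L = Nat.card L0 → F.Mem L1 → s ∉ L1 →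
      L ≠ L1 → Ix2 (L ⊓ L1) L ∧ Ix2 (L ⊓ L1) L1 ∧ ∀ x ∈ L, x ∉ L1 → ∀ l ∈ L1, l ∉ L →
        ∃ M, F.Mem M ∧ s ∉ M ∧ L ⊓ L1 ≤ M ∧ x⁻¹ * (s * l) ∈ M ∧ x⁻¹ * (s * l) ∉ L := by
    intro L L1 hL sL c hL1 sL1 n
    have k : ∀ x ∈ L, x ∉ L1 → Ix2 (L ⊓ L1) L ∧ Ix2 (L ⊓ L1) L1 ∧ ∀ l ∈ L1, l ∉ L →
        ∃ M, F.Mem M ∧ s ∉ M ∧ L ⊓ L1 ≤ M ∧ x⁻¹ * (s * l) ∈ M ∧ x⁻¹ * (s * l) ∉ L := by
      intro x xL xL1
      obtain ⟨M, l, a, sM, lL, lL', c1, c2, i, le, fin⟩ := cen_key h hs cen hL sL hL1 sL1 xL xL1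
      have l1 : M ⊓ L ≤ L ⊓ L1 := le_inf inf_le_right le
      have e1 := i.card
      have e2 := Subgroup.card_le_of_le l1
      have e3 := two_card_le (W := L ⊓ L1) (M := L) inf_le_left fun d => xL1 (d xL).2
      have e4 : Nat.card L0 ≤ Nat.card M := mn ⟨M, a, sM⟩
      have e5 : M ⊓ L = L ⊓ L1 := Subgroup.eq_of_le_of_card_ge l1 (by omega)
      have i1 : Ix2 (L ⊓ L1) L := (ix2_iff inf_le_left).2 (by omega)
      have l2 : L ⊓ L1 ≤ M := e5 ▸ inf_le_left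
      have i2 := fin i1 l2 (hL1.not_le hL n.symm)
      refine ⟨i1, i2, fun l' l'L l'n => ?_⟩
      have j := i2.two l lL (fun d => lL' d.1) l' l'L fun d => l'n d.1
      have e : x⁻¹ * (s * l') = x⁻¹ * (s * l) * (l⁻¹ * l') := by group
      refine ⟨M, a, sM, l2, e ▸ M.mul_mem c1 (l2 j), fun d => c2 ?_⟩
      rwa [e, L.mul_mem_cancel_right j.1] at d
    obtain ⟨x, xL, xL1⟩ := SetLike.not_le_iff_exists.1 (hL.not_le hL1 n)
    exact ⟨(k x xL xL1).1, (k x xL xL1).2.1, fun x a b => (k x a b).2.2⟩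
  have al : ∀ L : Subgroup G, F.Mem L → s ∉ L → Nat.card L = Nat.card L0 := fun L hL sL => by
    by_cases e : L0 = L
    · rw [e]
    · obtain ⟨a, b, -⟩ := pr L0 L hL0 sL0 rfl hL sL e
      rw [a.card, b.card]
  obtain ⟨x, xL, x1⟩ := hL0.ex_ne hb
  obtain ⟨L1, hL1, sL1, xL1⟩ := r.ex hs.1 x1
  have n01 : L0 ≠ L1 := fun e => xL1 (e ▸ xL)
  obtain ⟨i0, -, k⟩ := pr L0 L1 hL0 sL0 rfl hL1 sL1 n01
  obtain ⟨j, jL, j1⟩ : ∃ j ∈ L0 ⊓ L1, j ≠ 1 := by
    by_contra n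
    push Not at n
    have w : ∀ y ∈ L0, y ∉ L0 ⊓ L1 → x * y = 1 := fun y a b =>
      n _ (i0.mul xL (fun d => xL1 d.2) a b)
    have xx := w x xL fun d => xL1 d.2
    refine sL0 (un x ⟨x1, xx, F.up hL0.1 fun y a => (zp_iff xx).2 ?_⟩ ▸ xL)
    by_cases b : y ∈ L0 ⊓ L1
    · exact .inl (n y b)
    · exact .inr (mul_left_cancel ((w y a b).trans xx.symm))
  obtain ⟨L2, hL2, sL2, jL2⟩ := r.ex hs.1 j1
  have pick : ∀ A B : Subgroup G, Ix2 (A ⊓ L2) A → j ∈ A → j ∈ B → ¬A ≤ B →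
      ∃ l ∈ A, l ∈ L2 ∧ l ∉ B := fun A B i jA jB n => by
    obtain ⟨a, aA, aB⟩ := SetLike.not_le_iff_exists.1 n
    by_cases c : a ∈ L2
    · exact ⟨a, aA, c, aB⟩
    · exact ⟨a * j, A.mul_mem aA jA, (i.mul aA (fun d => c d.2) jA fun d => jL2 d.2).2,
        fun d => aB ((B.mul_mem_cancel_right jB).1 d)⟩
  obtain ⟨i02, i20, -⟩ := pr L0 L2 hL0 sL0 rfl hL2 sL2 fun e => jL2 (e ▸ jL.1)
  obtain ⟨i12, -, -⟩ := pr L1 L2 hL1 sL1 (al _ hL1 sL1) hL2 sL2 fun e => jL2 (e ▸ jL.2)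
  obtain ⟨l, l0, l2, l1⟩ := pick L0 L1 i02 jL.1 jL.2 (hL0.not_le hL1 n01)
  obtain ⟨m, m1, m2, m0⟩ := pick L1 L0 i12 jL.2 jL.1 (hL1.not_le hL0 n01.symm)
  obtain ⟨M, hM, sM, le, c1, c2⟩ := k l⁻¹ (L0.inv_mem l0) (fun d => l1 (L1.inv_mem_iff.1 d)) m m1 m0
  rw [inv_inv] at c1 c2
  obtain ⟨iM, -, -⟩ := pr M L2 hM sM (al _ hM sM) hL2 sL2 fun e => jL2 (e ▸ le jL)
  have c3 : l * (s * m) ∉ L2 := fun d => sL2 ((L2.mul_mem_cancel_right m2).1
    ((L2.mul_mem_cancel_left l2).1 d))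
  have c4 : l * (s * m) * j ∈ L2 := (iM.mul c1 (fun d => c3 d.2) (le jL) fun d => jL2 d.2).2
  have c5 : s * j ∈ L2 := by
    rw [mul_assoc, L2.mul_mem_cancel_left l2, cen, mul_assoc, L2.mul_mem_cancel_left m2] at c4
    exact c4
  have c6 : m⁻¹ * (s * j) ∈ L0 := (i20.two m m2 (fun d => m0 d.1) _ c5 fun d =>
    sL0 ((L0.mul_mem_cancel_right jL.1).1 d.1)).1
  rw [← mul_assoc, L0.mul_mem_cancel_right jL.1] at c6
  refine c2 (L0.mul_mem l0 ?_)
  simpa [si] using L0.inv_mem c6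

/-- Lemma O2: a round compact family with an element of order two is generalised dihedral -/
theorem o2 [Finite G] (h : F.SF) (r : F.Rd) (hb : ⊥ ∉ F.s) {s : G} (hs : F.Rfl s) : F.DihA := by
  obtain ⟨t, ht, n⟩ := not_unique h r hb hs
  have := Fintype.ofFinite G
  have al : ∀ L, F.Mem L → ∃ u ∈ L, F.Rfl u := fun L => rfl_all h hb hs ht n
  refine ⟨hb, Finset.univ.filter F.Rfl, ?_, fun u hu => (Finset.mem_filter.1 hu).2, fun U m => ?_,
    fun a ha b hb' c hc => Finset.mem_filter.2 ⟨Finset.mem_univ _, rfl_mul h hb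
      (Finset.mem_filter.1 ha).2 (Finset.mem_filter.1 hb').2 (Finset.mem_filter.1 hc).2⟩⟩
  · obtain ⟨N, a, sN, tN⟩ := r.ex hs.1 ht.1
    obtain ⟨u, uN, hu⟩ := al N a
    exact Finset.two_lt_card_iff.2 ⟨s, t, u, by simpa using hs, by simpa using ht, by simpa using hu,
      n, fun e => sN (e ▸ uN), fun e => tN (e ▸ uN)⟩
  · obtain ⟨L, a, l⟩ := exists_mem m
    obtain ⟨u, uL, hu⟩ := al L a
    exact ⟨u, by simpa using hu, l uL⟩

/-- if no element of the family has order at most two then members have at least 3 elements -/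
theorem three_le [Finite G] (hb : ⊥ ∉ F.s) (h2 : ∀ s, ¬F.Rfl s) {U : Subgroup G} (m : U ∈ F.s) :
    ∃ x ∈ U, ∃ y ∈ U, x ≠ 1 ∧ y ≠ 1 ∧ x ≠ y := by
  obtain ⟨L, a, l⟩ := exists_mem m
  obtain ⟨x, xL, x1⟩ := a.ex_ne hb
  by_contra n
  push Not at n
  have w : ∀ y ∈ U, y = 1 ∨ y = x := fun y hy => or_iff_not_imp_left.2 fun c =>
    (n x (l xL) y hy x1 c).symm
  have xx : x * x = 1 := (w _ (U.mul_mem (l xL) (l xL))).resolve_right fun e =>
    x1 (mul_left_cancel (e.trans (mul_one _).symm))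
  exact h2 x ⟨x1, xx, F.up m fun y hy => (zp_iff xx).2 (w y hy)⟩

end Fam

/-- M-ROUND when no element of the family has order at most two -/
def S_big : Prop := ∀ (G : Type) [Group G] [Finite G] (F : Fam G),
  IH (Nat.card G) → F.Fa → F.SF → F.Rd → ⊥ ∉ F.s → (∀ s, ¬F.Rfl s) → F.B4A

theorem sRound_of (hb : S_big) : S_round := fun G _ _ F ih hF h r => by
  by_cases a : ⊥ ∈ F.s
  · exact .inl a
  · by_cases b : ∃ s, F.Rfl s
    · obtain ⟨s, hs⟩ := b
      exact .inr (.inl (Fam.o2 h r a hs))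
    · exact .inr (.inr (hb G F ih hF h r a fun s hs => b ⟨s, hs⟩))

end Pool.Agent.Lib.MP_3cc314_lc.Cg
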