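import Pool.Agent.Lib.MP_3cc314_lc.CgD3

set_option autoImplicit false

namespace Pool.Agent.Lib.MP_3cc314_lc.Cg
open scoped Classical

namespace Peel
variable {G Ω : Type} [Group G] [MulAction G Ω] {S O : Set Ω}

theorem inN_inv {n : G} (h : inN S n) : inN S n⁻¹ := fun a ha => inv_smul_eq_iff.2 (h a ha).symm

theorem inN_inL {n : G} (h : inN S n) : inL S n := fun a ha => by_contra fun b =>
  b (by rwa [smul_left_cancel n (h _ b)])

theorem inL_inv [Finite G] {g : G} (h : inL S g) : inL S g⁻¹ := by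
  have e : g⁻¹ = g ^ (orderOf g - 1) := by
    rw [inv_eq_iff_mul_eq_one, ← pow_succ', Nat.sub_add_cancel (orderOf_pos g), pow_orderOf_eq_one]
  rw [e]
  induction orderOf g - 1 with
  | zero => exact fun a ha => by simpa using ha
  | succ k ih => exact fun a ha => by rw [pow_succ', mul_smul]; exact h _ (ih a ha)

theorem eqS_iff {g h : G} : eqS S (g⁻¹ * h) 1 ↔ eqS S g h :=
  forall₂_congr fun a _ => by rw [mul_smul, one_smul, inv_smul_eq_iff, eq_comm]

theorem eqS_trans {g h k : G} (a : eqS S g h) (b : eqS S h k) : eqS S g k :=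
  fun x hx => (a x hx).trans (b x hx)

variable (G S)

/-- the fixer of the complement -/
def NS : Subgroup G where
  carrier := {n | inN S n}
  one_mem' a _ := one_smul _ a
  mul_mem' {x y} hx hy a ha := by rw [mul_smul, hy a ha, hx a ha]
  inv_mem' := inN_inv

/-- the elements that agree on `S` with an element of `NS` -/
def MS : Subgroup G where
  carrier := {g | ∃ n : G, inN S n ∧ eqS S g n}
  one_mem' := ⟨1, (NS G S).one_mem, fun _ _ => rfl⟩
  mul_mem' := by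
    rintro x y ⟨n, a, b⟩ ⟨m, c, d⟩
    exact ⟨n * m, (NS G S).mul_mem a c, fun u hu => by
      rw [mul_smul, mul_smul, d u hu, b _ (inN_inL c u hu)]⟩
  inv_mem' := by
    rintro x ⟨n, a, b⟩
    exact ⟨n⁻¹, inN_inv a, fun u hu => by
      rw [inv_smul_eq_iff, b _ (inN_inL (inN_inv a) u hu), smul_inv_smul]⟩

/-- the setwise stabiliser -/
def LS [Finite G] : Subgroup G where
  carrier := {g | inL S g}
  one_mem' a ha := by simpa using ha
  mul_mem' {x y} hx hy a ha := by rw [mul_smul]; exact hx _ (hy a ha)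
  inv_mem' := inL_inv

/-- the action of the setwise stabiliser -/
def piS [Finite G] : LS G S →* Equiv.Perm S where
  toFun g := ⟨fun a => ⟨g.1 • a.1, g.2 a a.2⟩, fun a => ⟨g.1⁻¹ • a.1, inL_inv g.2 a a.2⟩,
    fun a => by simp, fun a => by simp⟩
  map_one' := by ext a; simp
  map_mul' g h := by ext a; simp [mul_smul]

variable {G S}

theorem st_mem (u : Ω) : MulAction.stabilizer G u ∈ (St G Ω).s := .inr ⟨u, le_rfl⟩

theorem mem_gal (hB : BlkL G S) {g : G} : g ∈ (St G Ω).Gal (NS G S) ↔ eqS S g 1 := by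
  refine Fam.mem_Gal.trans ⟨fun h a ha => ?_, ?_⟩
  · obtain ⟨n, b, c⟩ := hB.2.2 a ha
    rw [one_smul]
    exact h _ (st_mem a) fun l => c (l b)
  · rintro h H (rfl | ⟨u, l⟩) n
    · trivial
    · by_cases hu : u ∈ S
      · exact l (by simpa using h u hu)
      · exact (n fun x hx => l (hx u hu)).elim

theorem conj_N [Finite G] {g n : G} (hg : inL S g) (hn : inN S n) : inN S (g⁻¹ * n * g) :=
  fun a ha => by
    rw [mul_smul, mul_smul, hn _ fun b => ha (by simpa using inL_inv hg _ b), inv_smul_smul]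

theorem mem_norm [Finite G] (hB : BlkL G S) {g : G} :
    g ∈ Subgroup.normalizer (NS G S : Set G) ↔ inL S g := by
  rw [← cj_eq_iff]
  refine ⟨fun h a ha => by_contra fun b => ?_, fun h => Subgroup.ext fun x => mem_cj.trans
    ⟨fun a => show inN S x by simpa [mul_assoc] using conj_N (inL_inv h) a, conj_N h⟩⟩
  obtain ⟨n, c, d⟩ := hB.2.2 a ha
  have : g * n * g⁻¹ ∈ NS G S := h ▸ (conj_mem_cj g).2 c
  exact d (by simpa [mul_smul] using this _ b)

theorem blk [Finite G] (hB : BlkL G S) (g : G) :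
    cj g (NS G S) = NS G S ∨ cj g (NS G S) ≤ (St G Ω).Gal (NS G S) := by
  by_cases h : inL S g
  · exact .inl (cj_eq_iff.2 ((mem_norm hB).2 h))
  · refine .inr fun x hx => (mem_gal hB).2 fun a ha => ?_
    have := mem_cj.1 hx (g⁻¹ • a) fun b => h (hB.1 g _ b (by simpa using ha))
    simpa [mul_smul] using this

theorem MS_le (hB : BlkL G S) : MS G S ≤ NS G S ⊔ (St G Ω).Gal (NS G S) := by
  rintro g ⟨n, a, b⟩
  rw [← mul_inv_cancel_left n g]
  exact Subgroup.mul_mem_sup a ((mem_gal hB).2 (eqS_iff.2 fun x hx => (b x hx).symm))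

theorem MS_mem (hV : VisL G S) : MS G S ∈ (St G Ω).s := .inr hV

theorem leaf_cases (hB : BlkL G S) {X : Subgroup (Subgroup.normalizer (NS G S : Set G))}
    (m : X ∈ ((St G Ω).leaf (NS G S)).s) :
    (∃ w ∈ S, ∀ g, g.1 • w = w → g ∈ X) ∨ ∀ g, g.1 ∈ MS G S → g ∈ X := by
  obtain ⟨⟨H, m, a⟩, b⟩ := m
  rcases m with rfl | ⟨u, l⟩
  · exact .inr fun g _ => a trivial
  by_cases hu : u ∈ S
  · exact .inl ⟨u, hu, fun g hg => a (l hg)⟩
  · refine .inr fun g ⟨n, c, d⟩ => ?_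
    have hn : n ∈ Subgroup.normalizer (NS G S : Set G) := Subgroup.le_normalizer c
    rw [← mul_inv_cancel_left ⟨n, hn⟩ g]
    exact X.mul_mem (a (l (c u hu))) (b ((mem_gal hB).2 (eqS_iff.2 fun x hx => (d x hx).symm)))

theorem leaf_st (hB : BlkL G S) {w : Ω} (hw : w ∈ S) :
    (MulAction.stabilizer G w).subgroupOf _ ∈ ((St G Ω).leaf (NS G S)).s :=
  Fam.leaf_of_mem (st_mem w) fun g hg => by simpa using (mem_gal hB).1 hg w hw

theorem leaf_InF (hB : BlkL G S) (hV : VisL G S) {P : G → Prop} (h : InF S P)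
    (hP : ∀ g n, eqS S g n → P n → P g) : ∃ U ∈ ((St G Ω).leaf (NS G S)).s, ∀ u ∈ U, P u.1 := by
  rcases h with ⟨w, hw, h⟩ | h
  · exact ⟨_, leaf_st hB hw, fun u hu => h _ hu⟩
  · exact ⟨_, Fam.leaf_of_mem (MS_mem hV) fun g hg => ⟨1, (NS G S).one_mem, (mem_gal hB).1 hg⟩,
      fun u ⟨n, a, b⟩ => hP _ n b (h n a)⟩

theorem sym_surj [Finite Ω] (h : SymL G S O) (σ : Equiv.Perm O) :
    ∃ n : G, inN S n ∧ ∀ a : O, n • a.1 = σ a := by
  induction σ using Equiv.Perm.swap_induction_on with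
  | one => exact ⟨1, (NS G S).one_mem, fun a => one_smul _ _⟩
  | swap_mul f x y hxy ih =>
    obtain ⟨n, a, b⟩ := ih
    obtain ⟨t, c, d1, d2, d3⟩ := h.2.2.2.1 x x.2 y y.2 fun e => hxy (Subtype.ext e)
    refine ⟨t * n, (NS G S).mul_mem c a, fun u => ?_⟩
    rw [mul_smul, b, Equiv.Perm.mul_apply, Equiv.swap_apply_def]
    split_ifs with p q
    · rw [p, d1]
    · rw [q, d2]
    · exact d3 _ (f u).2 (fun e => p (Subtype.ext e)) fun e => q (Subtype.ext e)

theorem sym_MS [Finite G] [Finite Ω] (h : SymL G S O) {v : Ω} (hv : v ∈ O) {g : G} (hg : g • v = v) :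
    g ∈ MS G S := by
  obtain ⟨n, a, b⟩ := sym_surj h (piS G O ⟨g, h.2.1 v hv g hg⟩)
  exact ⟨n, a, fun x hx => (eqS_iff.1 (h.2.2.1 _ (eqS_iff.2 fun u hu => b ⟨u, hu⟩)) x hx).symm⟩

theorem vis [Finite G] [Finite Ω] (h : Lf G S) : VisL G S := by
  rcases h.2 with ⟨O, a⟩ | a
  · obtain ⟨w, hw⟩ := h.1.2.1
    obtain ⟨v, hv, -⟩ := a.2.2.2.2 w hw
    exact ⟨v, fun g hg => sym_MS a hv hg⟩
  · exact a.1

theorem leaf_sf [Finite G] [Finite Ω] (h : Lf G S) : ((St G Ω).leaf (NS G S)).SF := by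
  have hV := vis h
  obtain ⟨hB, h⟩ := h
  let p := QuotientGroup.mk' (((St G Ω).Gal (NS G S)).subgroupOf (Subgroup.normalizer (NS G S : Set G)))
  have hk : ∀ U ∈ ((St G Ω).leaf (NS G S)).s, p.ker ≤ U := fun U m => by
    rw [QuotientGroup.ker_mk']; exact m.2
  have hp : ∀ g h, eqS S g.1 h.1 → p g = p h := fun g h a =>
    QuotientGroup.eq.2 ((mem_gal hB).2 (eqS_iff.2 a))
  rcases h with ⟨O, h⟩ | ⟨-, ⟨u, hu, h⟩ | ⟨h1, h2, h3⟩ | ⟨r, c, h0, h1, h2, h3, -, h4, h5, h6⟩⟩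
  · refine Fam.sf_sym (LS _ O) (piS _ O) (fun i => (MulAction.stabilizer G i.1).subgroupOf _)
      (fun σ => ?_) (fun i => leaf_st hB (h.1 i.2)) (fun i g => ⟨fun a => ⟨h.2.1 i i.2 g a, Subtype.ext a⟩,
        fun ⟨_, a⟩ => congrArg Subtype.val a⟩) fun U m => ?_
    · obtain ⟨n, a, b⟩ := sym_surj h σ
      exact ⟨⟨⟨n, Subgroup.le_normalizer a⟩, fun x hx => (b ⟨x, hx⟩).symm ▸ (σ ⟨x, hx⟩).2⟩,
        Equiv.ext fun x => Subtype.ext (b x)⟩
    · rcases leaf_cases hB m with ⟨w, hw, a⟩ | a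
      · obtain ⟨v, hv, b⟩ := h.2.2.2.2 w hw
        exact ⟨⟨v, hv⟩, fun g hg => a g (b _ hg)⟩
      · obtain ⟨w, hw⟩ := hB.2.1
        obtain ⟨v, hv, -⟩ := h.2.2.2.2 w hw
        exact ⟨⟨v, hv⟩, fun g hg => a g (sym_MS h hv hg)⟩
  · exact Fam.sf_least (leaf_st hB hu) fun U m g hg => m.2 ((mem_gal hB).2 (h _ hg))
  · have := Fintype.ofFinite (Subgroup.normalizer (NS G S : Set G))
    refine Fam.sf_dih p hk (Finset.univ.filter fun s => Rf S s.1) (fun s hs => ?_) (fun U m => ?_)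
      fun s hs t ht u hu => by
        simp only [Finset.mem_filter, Finset.mem_univ, true_and] at hs ht hu ⊢
        exact h3 _ _ _ hs ht hu
    · obtain ⟨-, -, a, b⟩ := (Finset.mem_filter.1 hs).2
      obtain ⟨U, m, hU⟩ := leaf_InF hB hV b fun g n e => Or.imp (eqS_trans e) (eqS_trans e)
      exact ⟨(hp _ 1 a).trans p.map_one, U, m, fun u hu =>
        (hU u hu).imp (fun e => (hp _ 1 e).trans p.map_one) (hp _ _)⟩
    · rcases leaf_cases hB m with ⟨w, hw, a⟩ | a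
      · obtain ⟨s, b, c⟩ := h1 w hw
        exact ⟨⟨s, (mem_norm hB).2 b.1⟩, by simpa using b, a _ c⟩
      · obtain ⟨s, b, c⟩ := h2
        exact ⟨⟨s, (mem_norm hB).2 c.1⟩, by simpa using c, a _ ⟨s, b, fun _ _ => rfl⟩⟩
  · refine Fam.sf_b4 Fam.v4_add p hk (fun i => ⟨r i, (mem_norm hB).2 (h0 i).1⟩)
      (fun i => ⟨c i, (mem_norm hB).2 (h0 i).2⟩) (fun i j => hp _ _ (h1 i j)) (fun i j => hp _ _ (h2 i j))
      (fun i j => hp _ _ (h3 i j)) (fun σ a b => ?_) fun U m => ?_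
    · obtain ⟨U, m, hU⟩ := leaf_InF hB hV (h4 σ a b) fun g n e ⟨i, f⟩ => ⟨i, eqS_trans e f⟩
      exact ⟨U, m, fun u hu => (hU u hu).imp fun i e => hp _ _ e⟩
    · rcases leaf_cases hB m with ⟨w, hw, a⟩ | a
      · obtain ⟨σ, b, c, d⟩ := h5 w hw
        exact ⟨σ, b, c, fun i => a _ (d i)⟩
      · obtain ⟨σ, b, c, d⟩ := h6
        exact ⟨σ, b, c, fun i => a _ ((d i).imp fun n e => ⟨e.1, fun x hx => (e.2 x hx).symm⟩)⟩

theorem rel_equiv [Finite G] (hB : BlkL G S) : Equivalence (rel G S) := by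
  refine ⟨fun _ => .inl rfl, ?_, ?_⟩
  · rintro u v (rfl | ⟨a, ha, b, hb, ⟨n, c, d⟩, g, e, f⟩)
    exacts [.inl rfl, .inr ⟨b, hb, a, ha, ⟨n⁻¹, inN_inv c, inv_smul_eq_iff.2 d.symm⟩, g, f, e⟩]
  · rintro u v w (rfl | ⟨a, ha, b, hb, ⟨n, c, rfl⟩, g, rfl, rfl⟩) h
    · exact h
    rcases h with rfl | ⟨a', ha', b', hb', ⟨n', c', rfl⟩, g', e, rfl⟩
    · exact .inr ⟨a, ha, _, hb, ⟨n, c, rfl⟩, g, rfl, rfl⟩
    have hl : inL S (g⁻¹ * g') := hB.1 _ a' ha' (by rw [mul_smul, e, inv_smul_smul]; exact hb)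
    refine .inr ⟨a, ha, _, hl _ hb', ⟨_ * n, (NS G S).mul_mem (conj_N (inL_inv hl) c') c, ?_⟩, g, rfl,
      by simp [mul_smul]⟩
    simp [mul_smul, ← e]

theorem rel_smul (g : G) {u v : Ω} (h : rel G S u v) : rel G S (g • u) (g • v) := by
  rcases h with rfl | ⟨a, ha, b, hb, h, k, rfl, rfl⟩
  exacts [.inl rfl, .inr ⟨a, ha, b, hb, h, g * k, mul_smul _ _ _, mul_smul _ _ _⟩]

theorem rel_iff [Finite G] (hB : BlkL G S) {u v : Ω} :
    rel G S u v ↔ ∃ n ∈ Subgroup.normalClosure (NS G S : Set G), n • u = v := by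
  constructor
  · rintro (rfl | ⟨a, -, b, -, ⟨n, c, rfl⟩, g, rfl, rfl⟩)
    · exact ⟨1, one_mem _, one_smul _ _⟩
    · exact ⟨_, ncl_le.1 le_rfl g ((conj_mem_cj g).2 c), by simp [mul_smul]⟩
  · rintro ⟨n, hn, rfl⟩
    let P : Subgroup G :=
      { carrier := {n | ∀ u : Ω, rel G S u (n • u)}
        one_mem' := fun u => .inl (one_smul _ _).symm
        mul_mem' := fun {x y} hx hy u => by
          rw [mul_smul]; exact (rel_equiv hB).trans (hy u) (hx _)
        inv_mem' := fun {x} hx u => (rel_equiv hB).symm (by simpa using hx (x⁻¹ • u)) }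
    refine (ncl_le (U := P)).2 (fun g x hx u => ?_) hn u
    have c := mem_cj.1 hx
    by_cases a : g⁻¹ • u ∈ S
    · exact .inr ⟨_, a, _, inN_inL c _ a, ⟨_, c, rfl⟩, g, by simp, by simp [mul_smul]⟩
    · exact .inl (by simpa [mul_smul, eq_comm] using c _ a)

end Peel

open Peel in
theorem sPeel : S_peel := by
  intro G Ω Ω' _ _ _ _ _ S h
  have hB := h.1
  refine ⟨rel_equiv hB, fun g u v => rel_smul g, ?_, fun κ k1 k2 k3 => ?_⟩
  · obtain ⟨a, ha⟩ := hB.2.1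
    obtain ⟨n, b, c⟩ := hB.2.2 a ha
    exact ⟨a, n • a, c.symm, (rel_iff hB).2 ⟨n, Subgroup.subset_normalClosure b, rfl⟩⟩
  have e : ((St G Ω).ov (Subgroup.normalClosure (NS G S : Set G))).s = (St G Ω').s := by
    ext U
    constructor
    · rintro ⟨rfl | ⟨u, a⟩, b⟩
      · exact .inl rfl
      · refine .inr ⟨κ u, fun g hg => ?_⟩
        obtain ⟨n, c, d⟩ := (rel_iff hB).1 ((k3 u (g • u)).1 (by rw [k2]; exact hg.symm))
        rw [← mul_inv_cancel_left n g]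
        exact U.mul_mem (b c) (a (by
          rw [MulAction.mem_stabilizer_iff, mul_smul, ← d, inv_smul_smul]))
    · rintro (rfl | ⟨u, a⟩)
      · exact ⟨.inl rfl, le_top⟩
      · obtain ⟨u, rfl⟩ := k1 u
        refine ⟨.inr ⟨u, fun g hg => a ?_⟩, fun n hn => a ?_⟩
        · rw [MulAction.mem_stabilizer_iff, ← k2, show g • u = u from hg]
        · rw [MulAction.mem_stabilizer_iff, ← k2]
          exact ((k3 _ _).2 ((rel_iff hB).2 ⟨n, hn, rfl⟩)).symm
  exact ⟨fun a => (a.ov _).congr e, fun a => sD3 G _ (NS G S)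
    ((St G Ω).up (MS_mem (vis h)) (MS_le hB)) (blk hB) (leaf_sf h) (a.congr e.symm)⟩

theorem sPeel_of (_ : S_d3) (_ : S_sound) : S_peel := sPeel

end Pool.Agent.Lib.MP_3cc314_lc.Cg
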