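import Pool.Agent.Lib.MP_3cc314_lc.CgInd

set_option autoImplicit false

namespace Pool.Agent.Lib.MP_3cc314_lc.Cg
open scoped Classical

variable {G T : Type} [Group G] [Group T]

namespace Fam
variable {F : Fam G}

theorem Fa.sub_prod (hF : F.Fa) {l : List G} (h : l.Pairwise F.dj) {c : G} (hc : c ∈ l) :
    F.dj c (c⁻¹ * l.prod) := by
  obtain ⟨s, t, rfl⟩ := List.append_of_mem hc
  obtain ⟨-, h2, h3⟩ := List.pairwise_append.1 h
  have a := dj_prod fun b hb => (h3 b hb c List.mem_cons_self).symm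
  rw [List.prod_append, List.prod_cons, ← mul_assoc s.prod, ← hF.comm a, mul_assoc,
    inv_mul_cancel_left]
  exact a.mul_right (dj_prod (List.pairwise_cons.1 h2).1)

/-- the indecomposable sub-elements that generate `g` -/
theorem Fa.fact' [Finite G] (hF : F.Fa) (g : G) : ∃ S : Set G,
    (∀ c ∈ S, F.Ind c ∧ F.dj c (c⁻¹ * g)) ∧ (∀ c ∈ S, ∀ c' ∈ S, c ≠ c' → F.dj c c') ∧
      ∀ U : Subgroup G, (∀ c ∈ S, c ∈ U) → g ∈ U := by
  obtain ⟨l, rfl, h1, h2, -⟩ := hF.fact g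
  have : Std.Symm F.dj := ⟨fun _ _ => dj.symm⟩
  exact ⟨{c | c ∈ l}, fun c hc => ⟨h1 c hc, hF.sub_prod h2 hc⟩,
    fun c hc c' hc' => h2.forall hc hc', fun U => U.list_prod_mem⟩

theorem Fa.desc' [Finite G] (hF : F.Fa) {X Y : Set G} (hX : ∀ c ∈ X, F.Ind c)
    (hY : ∀ c ∈ Y, F.Ind c) (h : ∀ c ∈ X, ∀ c' ∈ Y, ¬F.dj c c' → ∃ d ∈ X, ∃ d' ∈ Y,
      F.dj d (d⁻¹ * (c * c')) ∧ F.dj d' (d'⁻¹ * (c * c')) ∧ F.dj d d')
    {c c' : G} (hc : c ∈ X) (hc' : c' ∈ Y) : F.dj c c' := by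
  refine hF.desc hX hY (fun c a c' b n => ?_) hc hc'
  obtain ⟨d, hd, d', hd', h1, h2, h3⟩ := h c a c' b n
  refine ⟨d, hd, d', hd', d'⁻¹ * (d⁻¹ * (c * c')), by group, h3, h3.inv_right.mul_right h1, ?_⟩
  rw [← mul_assoc, ← hF.comm h3.inv_left.inv_right, mul_assoc]
  exact h3.symm.inv_right.mul_right h2

theorem dj.push {x y : G} (h : F.dj x y) (ψ : G →* T) (hψ : Function.Surjective ψ) :
    (F.push ψ hψ).dj (ψ x) (ψ y) := fun _ m => h _ m

theorem mem_Gal_cl {V : Set G} {c : G} (h : ∀ v ∈ V, F.dj v c) :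
    c ∈ F.Gal (Subgroup.closure V) := mem_Gal.2 fun H m n => by
  by_contra k
  exact n ((Subgroup.closure_le H).2 fun v hv => (h v hv H m).resolve_right k)

theorem Star.bot {A : Subgroup G} (h : F.Star A) {V W : Set G} {c : G} (hV : V ⊆ A)
    (hA : A ≤ Subgroup.closure V ⊔ Subgroup.closure W) (d : ∀ v ∈ V, ∀ w ∈ W, F.dj v w)
    (hc : ∀ v ∈ V, F.dj v c) (n : c ∉ A) : Subgroup.closure V = ⊥ := by
  by_contra k
  exact n (h _ _ k (Dj_Gal _) ((Subgroup.closure_le A).2 hV) (hA.trans (sup_le_sup_left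
    ((Subgroup.closure_le _).2 fun w hw => mem_Gal_cl fun v hv => d v hv w hw) _)) (mem_Gal_cl hc))

end Fam

open Fam

theorem sSl : S_sl := by
  intro G T _ _ _ F ψ hψ hF hA hS tF tS x y hx hy d
  have := Finite.of_surjective ψ hψ
  by_contra hn
  push Not at hn
  have p : ∀ {c g}, F.dj c (c⁻¹ * g) → (F.push ψ hψ).dj (ψ c) ((ψ c)⁻¹ * ψ g) := fun h => by
    simpa using h.push ψ hψ
  have z : ∀ {x y : T}, (F.push ψ hψ).dj x y → x ∈ Subgroup.zpowers y → x = 1 := fun d h =>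
    tF.dj_self ((dj_iff.1 d).dj (Subgroup.mem_zpowers _) h)
  have xy : x ≠ y := fun e => hx.1 (z d (e ▸ Subgroup.mem_zpowers x))
  have h1 : ∀ g, ψ g = x * y → ∃ c, (F.Ind c ∧ ψ c = x) ∧ ∃ c', (F.Ind c' ∧ ψ c' = y) ∧
      F.dj c (c⁻¹ * g) ∧ F.dj c' (c'⁻¹ * g) ∧ F.dj c c' := fun g hg => by
    obtain ⟨S, s1, s2, s3⟩ := hF.fact' g
    have e : ∀ c ∈ S, ψ c = 1 ∨ ψ c = x ∨ ψ c = y := fun c hc =>
      (tS.sub2 tF hx hy d (mul_inv_cancel_left _ _).symm (hg ▸ p (s1 c hc).2)).imp_right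
        (Or.imp_right (·.resolve_right fun e => hn c e (s1 c hc).1))
    obtain ⟨c, hc, e1⟩ : ∃ c ∈ S, ψ c = x := by
      by_contra k
      have := s3 ((Subgroup.zpowers y).comap ψ) fun c hc => by
        rcases e c hc with a | a | a
        exacts [by simp [a], (k ⟨c, hc, a⟩).elim, by simp [a]]
      rw [Subgroup.mem_comap, hg, Subgroup.mul_mem_cancel_right _ (Subgroup.mem_zpowers y)] at this
      exact hx.1 (z d this)
    obtain ⟨c', hc', e2⟩ : ∃ c ∈ S, ψ c = y := by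
      by_contra k
      have := s3 ((Subgroup.zpowers x).comap ψ) fun c hc => by
        rcases e c hc with a | a | a
        exacts [by simp [a], by simp [a], (k ⟨c, hc, a⟩).elim]
      rw [Subgroup.mem_comap, hg, Subgroup.mul_mem_cancel_left _ (Subgroup.mem_zpowers x)] at this
      exact hy.1 (z d.symm this)
    exact ⟨c, ⟨(s1 c hc).1, e1⟩, c', ⟨(s1 c' hc').1, e2⟩, (s1 c hc).2, (s1 c' hc').2,
      s2 c hc c' hc' fun e => xy (by rw [← e1, e, e2])⟩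
  have h2 : ∀ c c', F.Ind c ∧ ψ c = x → F.Ind c' ∧ ψ c' = y → F.dj c c' := fun c c' =>
    hF.desc' (X := {c | F.Ind c ∧ ψ c = x}) (Y := {c | F.Ind c ∧ ψ c = y}) (fun _ a => a.1)
      (fun _ a => a.1) fun c a c' b _ => h1 _ (by rw [map_mul, a.2, b.2])
  let W := {a | (F.Ind a ∧ ψ a = 1) ∧ ∃ H ∈ F.s, a ∉ H ∧ ∀ c, F.Ind c ∧ ψ c = x → c ∈ H}
  let V := {a | (F.Ind a ∧ ψ a = 1) ∧ a ∉ W}
  have h3 : ∀ c w, F.Ind c ∧ ψ c = x → w ∈ W → F.dj c w := fun c w =>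
    hF.desc' (X := {c | F.Ind c ∧ ψ c = x}) (Y := W) (fun _ a => a.1) (fun _ a => a.1.1)
      fun c a w ⟨b, H, m, n, k⟩ _ => by
        obtain ⟨S, s1, s2, s3⟩ := hF.fact' (c * w)
        have hg : ψ (c * w) = x := by rw [map_mul, a.2, b.2, mul_one]
        have e : ∀ f ∈ S, ψ f = 1 ∨ ψ f = x := fun f hf => hx.sub (hg ▸ p (s1 f hf).2)
        obtain ⟨f, hf, e1⟩ : ∃ c ∈ S, ψ c = x := by
          by_contra u
          exact hx.1 (hg ▸ s3 ψ.ker fun f hf => (e f hf).resolve_right fun a => u ⟨f, hf, a⟩)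
        obtain ⟨f', hf', e2⟩ : ∃ c ∈ S, c ∉ H := by
          by_contra u
          push Not at u
          exact n ((H.mul_mem_cancel_left (k c a)).1 (s3 H u))
        exact ⟨f, ⟨(s1 f hf).1, e1⟩, f', ⟨⟨(s1 f' hf').1, (e f' hf').resolve_right fun u =>
          e2 (k f' ⟨(s1 f' hf').1, u⟩)⟩, H, m, e2, k⟩, (s1 f hf).2, (s1 f' hf').2,
          s2 f hf f' hf' fun u => e2 (u ▸ k f ⟨(s1 f hf).1, e1⟩)⟩
  have h4 : ∀ v ∈ V, ∀ u, (∀ c, F.Ind c ∧ ψ c = x → F.dj c u) → F.dj v u := fun v hv u hu H m => by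
    by_contra k
    exact hv.2 ⟨hv.1, H, m, fun a => k (.inl a), fun c hc =>
      (hu c hc H m).resolve_right fun a => k (.inr a)⟩
  have h5 : ψ.ker ≤ Subgroup.closure V ⊔ Subgroup.closure W := fun g hg => by
    obtain ⟨S, s1, -, s3⟩ := hF.fact' g
    refine s3 _ fun c hc => ?_
    have e : ψ c = 1 := tF.dj_self (by
      simpa [show ψ g = 1 from hg] using (p (s1 c hc).2).inv_right)
    by_cases k : c ∈ W
    · exact Subgroup.mem_sup_right (Subgroup.subset_closure k)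
    · exact Subgroup.mem_sup_left (Subgroup.subset_closure ⟨⟨(s1 c hc).1, e⟩, k⟩)
  obtain ⟨g, hg⟩ := hψ (x * y)
  obtain ⟨c, hc, c', hc', -⟩ := h1 g hg
  have d' : ∀ v ∈ V, ∀ w ∈ W, F.dj v w := fun v hv w hw => h4 v hv w fun c a => h3 c w a hw
  have e := hS.bot (V := W) (W := V) (fun _ a => a.1.2) (h5.trans_eq (sup_comm _ _))
    (fun w hw v hv => (d' v hv w hw).symm) (fun w hw => (h3 c w hc hw).symm)
    fun e => hx.1 (hc.2 ▸ e)
  rw [hS.bot (fun _ a => a.1.2) h5 d' (fun v hv => h4 v hv c' fun c a => h2 c c' a hc')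
    (fun e => hy.1 (hc'.2 ▸ e)), e, bot_sup_eq] at h5
  exact hA (le_bot_iff.1 h5)

theorem sSl_of (_ : S_ind) : S_sl := sSl

end Pool.Agent.Lib.MP_3cc314_lc.Cg
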