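import Pool.Agent.Lib.MP_3cc314_lc.CgStage2

set_option autoImplicit false

namespace Pool.Agent.Lib.MP_3cc314_lc.Cg
open Pool.Agent.Lib.Complexity

namespace PD
variable (o : S_orc) {S O : ∀ c : Cx, Set c.Ω} (hS : PD fun c e => e 0 ∈ S c)
  (hO : PD fun c e => e 0 ∈ O c)
include o

theorem orb : PD fun c e => e 0 ∈ orbS c.Γ c.u c.w :=
  (or (eq (.var 0) .w) (ee (R := fun _ _ _ => False) o (const _) .w .u .u .w (.var 0) (.var 0))).congr
    fun _ _ => orb_iff.symm

theorem triv : PD fun c _ => ∀ (g : c.Γ) (a : c.Ω), g • a = a := by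
  refine congr (P := fun c _ => ∀ a b : c.Ω, E0 c.Γ a a a b b b → b = a) ?_ fun c _ =>
    ⟨fun h g a => h _ _ (e0 g ..), fun h a _ ⟨g, _, e, _⟩ => e ▸ h g a⟩
  repeat' first | exact .var _ | exact const _ | apply ee o | apply eq | apply all | apply imp

include hS

theorem mov : PD fun c e => e 0 ∈ mov c.Γ (S c) := by
  refine congr ?_ fun _ _ => mov_iff.symm
  repeat' first | exact .var _ | apply mem hS | apply ee o | apply ne | apply and | apply ex

theorem rel : PD fun c e => rel c.Γ (S c) (e 0) (e 1) := by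
  refine congr ?_ fun _ _ => rel_iff.symm
  repeat' first | exact .var _ | exact const _ | apply mem hS | apply nmem hS | apply ee o | apply eq | apply and | apply or | apply ex

theorem blk : PD fun c _ => BlkL c.Γ (S c) := by
  refine congr ?_ fun _ _ => blk_iff.symm
  repeat' first | exact .var _ | exact const _ | apply mem hS | apply nmem hS | apply ee o | apply ne | apply and | apply ex | apply all | apply imp

theorem base : PD fun c _ => BaseL c.Γ (S c) c.u c.w := by
  refine congr ?_ fun _ _ => base_iff.symm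
  repeat' first | exact .var _ | exact .u | exact .w | exact const _ | apply mem hS | apply ee o | apply eq | apply and | apply all | apply imp

theorem reg : PD fun c _ => RegL c.Γ (S c) := by
  refine congr ?_ fun _ _ => reg_iff.symm
  repeat' first | exact .var _ | exact const _ | apply mem hS | apply ee o | apply eq | apply and | apply ex | apply all | apply imp

theorem vis : PD fun c _ => ∃ z, ∀ b b', E0 c.Γ z c.u c.w z b b' → E1 c.Γ (S c) c.u c.w c.w b b' b' := by
  repeat' first | exact .var _ | exact .u | exact .w | exact const _ | apply nmem hS | apply ee o | apply ex | apply all | apply imp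

theorem inP {X : ∀ c : Cx, c.Ω → c.Ω → (ℕ → c.Ω) → Prop}
    (h2 : PD fun c e => X c (e 1) (e 0) fun i => e (i + 1 + 1))
    (h3 : PD fun c e => X c (e 1) (e 0) fun i => e (i + 1 + 1 + 1)) :
    PD fun c e => InP c.Γ (S c) c.u c.w fun a b => X c a b e := by
  unfold InP
  repeat' first | exact h2 | exact h3 | exact .var _ | exact .u | exact .w | exact const _ | apply mem hS | apply nmem hS | apply ee o | apply and | apply or | apply ex | apply all | apply imp

theorem rfP (i j : ℕ) : PD fun c e => RfP c.Γ (S c) c.u c.w (e i) (e j) := by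
  unfold RfP
  repeat' first | exact .var _ | exact .u | exact .w | exact const _ | apply mem hS | apply ee o | apply inP o hS | apply eq | apply and | apply or | apply not

theorem dih : PD fun c _ => DihP c.Γ (S c) c.u c.w := by
  unfold DihP
  repeat' first | exact rfP o hS _ _ | exact .var _ | exact .u | exact .w | exact const _ | apply mem hS | apply nmem hS | apply ee o | apply and | apply ex | apply all | apply imp

theorem b4 : PD fun c _ => B4P c.Γ (S c) c.u c.w := by
  refine exf fun φ => ?_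
  repeat' first | exact .var _ | exact .u | exact .w | exact const _ | apply mem hS | apply nmem hS | apply ee o | apply inP o hS | apply eq | apply and | apply all | apply imp | refine fall fun _ => ?_ | refine fex fun _ => ?_

include hO

theorem sym : PD fun c _ => SymL c.Γ (S c) (O c) := by
  refine congr ?_ fun _ _ => sym_iff.symm
  repeat' first | exact .var _ | exact const _ | apply mem hS | apply mem hO | apply nmem hS | apply ee o | apply ne | apply eq | apply and | apply or | apply ex | apply all | apply imp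

end PD

instance finAutSt {n : ℕ} (G : SimpleGraph (Fin n)) : Finite (G ≃g G) :=
  .of_injective _ RelIso.toEquiv_injective

theorem cd_nil (c : Cx) (i : ℕ) : ([] : List ℕ).getD i 0 = (⟨0, c.a.pos⟩ : Fin c.n) := rfl

/-- search for a good pair of vertices -/
theorem search (pl : S_peel) {S : ∀ c : Cx, Set c.Ω} {Q : Cx → Prop} (hQ : PD fun c _ => Q c)
    (hR : PD fun c e => rel c.Γ (S c) (e 0) (e 1)) (lf : ∀ c, Q c → Lf c.Γ (S c)) :
    ∃ st : Mx → List ℕ → Option (List ℕ), (PT fun a : Mx × List ℕ => st a.1 a.2) ∧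
    (∀ M p p', st M p = some p' → p'.length ≤ M.length ∧ ∀ x ∈ p', x ≤ M.length) ∧
    ∀ (n : ℕ) (G : SimpleGraph (Fin n)) [d : DecidableRel G.Adj] (p : List ℕ) (h : Inv G p),
      (∀ p', st (rows G) p = some p' → ∃ S : Set (Qt h), Lf (G ≃g G) S ∧
        ∀ x y : Fin n, p'.getD x 0 = p'.getD y 0 ↔ rel (G ≃g G) S (qt h x) (qt h y)) ∧
      (Compact G → ∀ a b, Q ⟨n, G, d, p, h, a, b⟩ → (st (rows G) p).isSome = true) := by
  obtain ⟨y, d, p1, p2, hQ⟩ := hQ
  obtain ⟨y', d', p3, p4, hR⟩ := hR
  refine ⟨fun M p => (((List.range M.length).flatMap fun a => (List.range M.length).map fun b =>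
    (a, b)).find? fun z => y ((M, p, z), []) && d ((M, p, z), []) &&
      (List.range M.length).all fun a => (List.range M.length).all fun b =>
        d' ((M, p, z), [a, b])).map fun z => (List.range M.length).map fun a =>
          ((List.range M.length).find? fun b => y' ((M, p, z), [a, b])).getD 0,
    by fun_prop, fun M p p' e => ?_, fun n G _ p h => ⟨fun p' e => ?_, fun hG a b q => ?_⟩⟩
  · obtain ⟨z, -, rfl⟩ := Option.map_eq_some_iff.1 e
    refine ⟨by simp, fun x hx => ?_⟩
    obtain ⟨a, -, rfl⟩ := List.mem_map.1 hx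
    rcases e : List.find? _ _ with _ | b
    exacts [Nat.zero_le _, (List.mem_range.1 (List.mem_of_find?_eq_some e)).le]
  · obtain ⟨⟨a, b⟩, e', rfl⟩ := Option.map_eq_some_iff.1 e
    clear e
    have e := e'
    clear e'
    have m := List.mem_of_find?_eq_some e
    replace e := List.find?_some e
    simp only [rows_length, List.mem_flatMap, List.mem_map, List.mem_range, Prod.mk.injEq,
      Bool.and_eq_true, List.all_eq_true, Nat.forall_lt_iff_fin] at m e
    obtain ⟨a, ha, b, hb, rfl, rfl⟩ := m
    let c : Cx := ⟨n, G, ‹_›, p, h, ⟨a, ha⟩, ⟨b, hb⟩⟩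
    have L := lf c (((hQ c _ _ (cd_nil c)).1 e.1.2).1 e.1.1)
    have E := (pl _ _ c.Ω _ L).1
    have k : ∀ x z : Fin n, y' ((rows G, p, a, b), [x.1, z.1]) = true ↔
        rel c.Γ (S c) (qt h x) (qt h z) := fun x z =>
      (hR c _ _ (cd_cons (cd_cons (cd_nil c) z) x)).1 (e.2 x z)
    have r : ∀ x : Fin n, ∃ z : Fin n, rel c.Γ (S c) (qt h x) (qt h z) ∧
        (List.range n).find? (fun b' => y' ((rows G, p, a, b), [x.1, b'])) = some z.1 := fun x => by
      rcases e : List.find? _ _ with _ | z
      · exact absurd ((k x x).2 (E.1 _)) (List.find?_eq_none.1 e _ (List.mem_range.2 x.2))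
      · exact ⟨⟨z, List.mem_range.1 (List.mem_of_find?_eq_some e)⟩, (k _ _).1
          (List.find?_some e :), rfl⟩
    refine ⟨S c, L, fun x z => ?_⟩
    simp only [rows_length, List.getD_eq_getElem?_getD, List.getElem?_map, List.getElem?_range x.2,
      List.getElem?_range z.2, Option.map_some, Option.getD_some]
    refine ⟨fun u => ?_, fun u => congrArg (·.getD 0) (List.find?_congr fun t ht => ?_)⟩
    · obtain ⟨x', x1, x2⟩ := r x
      obtain ⟨z', z1, z2⟩ := r z
      rw [x2, z2] at u
      exact E.3 x1 (E.2 ((Fin.ext u : x' = z') ▸ z1))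
    · lift t to Fin n using List.mem_range.1 ht
      rw [Bool.eq_iff_iff, k, k]
      exact ⟨E.3 (E.2 u), E.3 u⟩
  · let c : Cx := ⟨n, G, ‹_›, p, h, a, b⟩
    have := hQ c _ _ (cd_nil c)
    rw [Option.isSome_map, List.find?_isSome]
    refine ⟨(a, b), by simp, ?_⟩
    simp only [rows_length, List.mem_range, Bool.and_eq_true, List.all_eq_true, Nat.forall_lt_iff_fin]
    exact ⟨⟨(this.1 (this.2 hG)).2 q, this.2 hG⟩,
      fun x z => (hR c _ _ (cd_cons (cd_cons (cd_nil c) z) x)).2 hG⟩

theorem sStage_of (o : S_orc) (lf : S_leaf) (pl : S_peel) : S_stage := by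
  have h1 := ((PD.congr (Q := fun c e => e 0 ∈ ({c.u, c.w} : Set c.Ω))
    ((PD.eq (.var 0) .u).or (.eq (.var 0) .w)) fun _ _ => .rfl).mov o).mov o
  have h2 := ((PD.orb o).mov o).mov o
  obtain ⟨s1, a1, b1, c1⟩ := search pl (Q := fun c => BlkL c.Γ _ ∧ BaseL c.Γ _ c.u c.w ∧
    VisL c.Γ _ ∧ (RegL c.Γ _ ∨ DihL c.Γ _ ∨ B4L c.Γ _)) (PD.congr ((h1.blk o).and ((h1.base o).and
      ((h1.vis o).and ((h1.reg o).or ((h1.dih o).or (h1.b4 o)))))) fun c _ =>
      and_congr_right fun K => and_congr_right fun B => by rw [B.vis_iff, B.dih_iff K, B.b4_iff K])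
    (h1.rel o) fun c q => ⟨q.1, .inr q.2.2⟩
  obtain ⟨s2, a2, b2, c2⟩ := search pl (Q := fun c => BlkL c.Γ _ ∧ SymL c.Γ _ _) ((h2.blk o).and (h2.sym o (PD.orb o))) (h2.rel o)
    fun c q => ⟨q.1, .inl ⟨_, q.2⟩⟩
  obtain ⟨y, d, p1, p2, T⟩ := PD.triv o
  refine ⟨fun M p => (s1 M p).elim (s2 M p) some, fun M p => decide (M.length = 0) ||
    (y ((M, p, 0, 0), []) && d ((M, p, 0, 0), [])), by fun_prop, by fun_prop, fun M p p' e => ?_,
    fun n G dG p h => ?_⟩
  · rcases u : s1 M p with _ | q <;> simp only [u, Option.elim] at e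
    exacts [b2 _ _ _ e, b1 _ _ _ (u.trans e)]
  have t : Compact G → (∀ (g : G ≃g G) (a : Qt h), g • a = a) → (decide ((rows G).length = 0) ||
      (y ((rows G, p, 0, 0), []) && d ((rows G, p, 0, 0), []))) = true := fun hG e => by
    rw [Bool.or_eq_true, Bool.and_eq_true, decide_eq_true_eq, rows_length]
    refine n.eq_zero_or_pos.imp_right fun n0 => ?_
    have := T ⟨n, G, dG, p, h, ⟨0, n0⟩, ⟨0, n0⟩⟩ [] (fun _ => ⟨0, n0⟩) fun _ => rfl
    exact ⟨(this.1 (this.2 hG)).2 e, this.2 hG⟩
  refine ⟨fun p' e => ?_, fun e g a => ?_, fun hG hS => or_iff_not_imp_left.2 fun nt => ?_, t⟩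
  · rcases u : s1 (rows G) p with _ | q <;> simp only [u, Option.elim] at e
    exacts [(c2 n G p h).1 _ e, (c1 n G p h).1 _ (u.trans e)]
  · obtain ⟨x, rfl⟩ := qt_surj h a
    rw [Bool.or_eq_true, Bool.and_eq_true, decide_eq_true_eq, rows_length] at e
    have := e.resolve_left x.pos.ne'
    exact ((T ⟨n, G, dG, p, h, ⟨0, x.pos⟩, ⟨0, x.pos⟩⟩ [] (fun _ => ⟨0, x.pos⟩)
      fun _ => rfl).1 this.2).1 this.1 g _
  · obtain ⟨u, w, q⟩ := lf _ _ hS (by simpa using mt (t hG) nt)
    obtain ⟨a, rfl⟩ := qt_surj h u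
    obtain ⟨b, rfl⟩ := qt_surj h w
    beta_reduce
    rcases u : s1 (rows G) p with _ | r
    · exact q.elim (fun q => by simpa [u] using (c1 n G p h).2 hG a b q) ((c2 n G p h).2 hG a b)
    · rfl

theorem sf_triv {G Ω : Type} [Group G] [MulAction G Ω] (h : ∀ (g : G) (a : Ω), g • a = a) :
    (St G Ω).SF := fun f hf h0 x hx => ⟨⊤, .inl rfl, fun k _ => by
  have : f (x * k) = f x := by
    clear hx h0
    induction hf using Submodule.span_induction with
    | mem f a =>
      obtain ⟨H, m, g, rfl⟩ := a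
      exact ind_mul (m.elim (fun e => e ▸ trivial) fun ⟨u, e⟩ => e (h k u))
    | zero => rfl
    | add a b _ _ ha hb => simp [ha, hb]
    | smul c a _ ha => simp [ha]
  rwa [this]⟩

theorem sf_congr {G : Type} [Group G] {F F' : Fam G} (e : F.s = F'.s) : F.SF ↔ F'.SF := by
  rw [Fam.SF, Fam.SF, Fam.sp, Fam.sp, e]

theorem sPeelAlg_of (hs : S_stage) (pl : S_peel) (gr : S_grp) : S_peelAlg := by
  obtain ⟨st, tr, p1, p2, bd, hs⟩ := hs
  let nx : Mx → List ℕ → List ℕ := fun M p => bif tr M p then p else (st M p).getD p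
  have b1 : ∀ M i, (((nx M)^[i] (List.range M.length)).length ≤ M.length ∧
      ∀ x ∈ (nx M)^[i] (List.range M.length), x ≤ M.length) := fun M i => by
    induction i with
    | zero => exact ⟨by simp, fun x hx => (List.mem_range.1 hx).le⟩
    | succ i ih =>
      rw [Function.iterate_succ_apply']
      generalize (nx M)^[i] _ = p at ih
      unfold nx
      rcases tr M p
      · rcases e : st M p with _ | q
        exacts [ih, bd _ _ _ e]
      · exact ih
  have p3 : PT fun M : Mx => (nx M)^[M.length] (List.range M.length) :=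
    PT.iterate (step := nx) (by fun_prop) (by fun_prop) (by unfold nx; fun_prop)
      (B := fun M => M.length * (M.length + 1)) (PT.pb_nat (by fun_prop)) fun M i _ =>
      (sz_list_le (B := M.length) fun x hx => by simpa using (b1 M i).2 x hx).trans
        (Nat.mul_le_mul_right _ (b1 M i).1)
  refine ⟨_, p2.comp (PT.id.prodMk p3), fun n G _ => ?_⟩
  have key : ∀ i, ∃ h : Inv G ((nx (rows G))^[i] (List.range n)),
      ((St (G ≃g G) (Qt h)).SF ↔ (St (G ≃g G) (Fin n)).SF) ∧ (Compact G →
        tr (rows G) ((nx (rows G))^[i] (List.range n)) = true ∨ Nat.card (Qt h) + i ≤ n) := fun i => by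
    induction i with
    | zero =>
      have e : ∀ x : Fin n, (List.range n).getD x 0 = x := fun x => by simp
      have h : Inv G (List.range n) := fun g x y u => by
        rw [e, e] at u
        rw [Fin.ext u]
      have s : ∀ x, MulAction.stabilizer (G ≃g G) (qt h x) = MulAction.stabilizer (G ≃g G) x :=
        fun x => Subgroup.ext fun g => (qt_eq h).trans (by rw [e, e]; exact Fin.val_inj)
      have : (St (G ≃g G) (Qt h)).s = (St (G ≃g G) (Fin n)).s := Set.ext fun U =>
        or_congr_right ((qt_surj h).exists.trans (by simp only [s]))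
      exact ⟨h, sf_congr this, fun _ => .inr
        ((Nat.card_le_card_of_surjective _ (qt_surj h)).trans_eq (by simp))⟩
    | succ i ih =>
      rw [Function.iterate_succ_apply']
      generalize (nx (rows G))^[i] _ = p at ih
      obtain ⟨h, e, c⟩ := ih
      obtain ⟨a1, -, a3, -⟩ := hs n G p h
      unfold nx
      rcases t : tr (rows G) p
      · rcases u : st (rows G) p with _ | q
        · refine ⟨h, e, fun hG => ?_⟩
          simpa [t, u] using a3 hG (e.2 ((gr n G).1 hG))
        obtain ⟨S, L, k⟩ := a1 q u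
        have h' : Inv G q := fun g x y a => (k _ _).2 ((pl _ _ (Qt h) S L).2.1 g _ _ ((k _ _).1 a))
        obtain ⟨E, -, ⟨x, y, ne, r⟩, P⟩ := pl _ _ (Qt h') S L
        let κ : Qt h → Qt h' := Quotient.map id fun x y a =>
          (k x y).2 (((qt_eq h).2 a : qt h x = qt h y) ▸ E.1 _)
        have k1 : Function.Surjective κ := fun z => by
          obtain ⟨z, rfl⟩ := qt_surj h' z
          exact ⟨qt h z, rfl⟩
        have k2 : ∀ x y, κ x = κ y ↔ rel (G ≃g G) S x y :=
          (qt_surj h).forall₂.2 fun x y => (qt_eq h').trans (k x y)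
        refine ⟨h', (P κ k1 (fun g => (qt_surj h).forall.2 fun _ => rfl) k2).symm.trans e,
          fun hG => .inr ?_⟩
        have := (c hG).resolve_left (by simp [t])
        have := (Nat.card_le_card_of_surjective _ k1).lt_of_ne fun a =>
          ne (((Nat.bijective_iff_surjective_and_card κ).2 ⟨k1, a.symm⟩).1 ((k2 x y).2 r))
        exact (Nat.succ_le_of_lt (Nat.add_lt_add_right this i)).trans ‹_›
      · exact ⟨h, e, fun _ => .inl t⟩
  obtain ⟨h, e, c⟩ := key n
  obtain ⟨-, a2, -, a4⟩ := hs n G _ h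
  simp only [rows_length]
  refine ⟨fun t => e.1 (sf_triv (a2 t)), fun hG => (c hG).elim id fun u => a4 hG fun g a => ?_⟩
  have : 0 < Nat.card (Qt h) := Nat.card_pos_iff.2 ⟨⟨a⟩, inferInstance⟩
  omega

end Pool.Agent.Lib.MP_3cc314_lc.Cg
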