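import Pool.Agent.Lib.MP_3cc314_lc.CgM6
import Pool.Agent.Lib.MP_3cc314_lc.CgM2
import Pool.Agent.Lib.MP_3cc314_lc.CgCp
import Pool.Agent.Lib.MP_3cc314_lc.CgDet
import Pool.Agent.Lib.MP_3cc314_lc.CgSl
import Pool.Agent.Lib.MP_3cc314_lc.CgBlk
import Pool.Agent.Lib.MP_3cc314_lc.CgO2
import Pool.Agent.Lib.MP_3cc314_lc.CgLeaf
import Pool.Agent.Lib.MP_3cc314_lc.CgPeel
import Pool.Agent.Lib.MP_3cc314_lc.CgStage
import Pool.Agent.Lib.MP_3cc314_lc.CgLin
import Pool.Agent.Lib.MP_3cc314_lc.CgGrp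

set_option autoImplicit false

namespace Pool.Agent.Lib.MP_3cc314_lc.Cg

theorem sT_big (hb : S_big) : S_T :=
  sT_of sM1 (sM2_of (sCp_of sSl sGlue sAtom (sDet_of sBlk sLift sAtom)) sBlk sLift) sM6 (sRound_of hb)

/-- everything follows from the round case without members of order two -/
theorem final_big (hb : S_big) :
    ∃ A : List (List Bool) → Bool, N68a2faeb.IsPolyTime A ∧
      ∀ (n : ℕ) (G : SimpleGraph (Fin n)) [DecidableRel G.Adj],
        A (List.ofFn fun i => List.ofFn fun j => decide (G.Adj i j)) = true ↔ Compact G :=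
  final sLin sGrp (sPeelAlg_of (sStage_of sOrc (sLeaf_of (sT_big hb) sBlk) sPeel) sPeel sGrp)

end Pool.Agent.Lib.MP_3cc314_lc.Cg
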