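import Pool.Agent.Lib.MP_3cc314_lc.CgDef

set_option autoImplicit false

namespace Pool.Agent.Lib.MP_3cc314_lc.Cg

/-- linear maps of the index set -/
def lin4 (M : V4 × V4) (i : V4) : V4 := i.1 • M.1 + i.2 • M.2

/-- invertible maps -/
def gd4 (M : V4 × V4) : Prop := M.1 ≠ 0 ∧ M.2 ≠ 0 ∧ M.1 ≠ M.2

/-- the graph -/
def gr4 (M p : V4 × V4) : Prop := lin4 M p.1 = p.2

/-- the row without one cell, the column without that cell -/
def rc4 (b : Bool) (p : V4 × V4) : Prop :=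
  (b = true ∧ p.1 = (1, 0) ∧ p.2 ≠ 0) ∨ (b = false ∧ p.2 = 0 ∧ p.1 ≠ (1, 0))

instance : DecidableEq V4 := inferInstance

instance : DecidableEq (V4 × V4) := inferInstance

instance : Fintype (V4 × V4) := inferInstance

instance (M : V4 × V4) : Decidable (gd4 M) := inferInstanceAs (Decidable (_ ∧ _))

instance (M p : V4 × V4) : Decidable (gr4 M p) := inferInstanceAs (Decidable (_ = _))

instance (b : Bool) (p : V4 × V4) : Decidable (rc4 b p) := inferInstanceAs (Decidable (_ ∨ _))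

theorem lin4_zero (M : V4 × V4) : lin4 M 0 = 0 := by simp [lin4]

theorem lin4_inj : ∀ M, gd4 M → ∀ i j, lin4 M i = lin4 M j → i = j := by decide +kernel

theorem b4_rd : ∀ a b : V4 × V4, ∃ M, gd4 M ∧ (gr4 M a → a = 0) ∧ (gr4 M b → b = 0) := by
  decide +kernel

theorem b4_gen : ∀ p : V4 × V4, ∃ a, (∃ M, gd4 M ∧ gr4 M a) ∧ ∃ b, (∃ M, gd4 M ∧ gr4 M b) ∧
    p = a + b := by decide +kernel

theorem b4_two : ∀ b, ∃ p, rc4 b p ∧ ∃ p', rc4 b p' ∧ p ≠ p' := by decide +kernel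

theorem b4_prv : ∀ b q, rc4 (!b) q → ∀ p, rc4 b p → ∃ M, gd4 M ∧
    ∀ p', rc4 b p' → gr4 M (q + p') → p' = p := by decide +kernel

theorem b4_cls : ∀ b z, (∀ M, gd4 M → ∃ p, rc4 b p ∧ gr4 M (z + p)) → rc4 b z ∨ rc4 (!b) z := by
  decide +kernel

theorem v4_add : ∀ p : V4 × V4, p + p = 0 := by decide +kernel

theorem v4_add' : ∀ p : V4, p + p = 0 := by decide +kernel

end Pool.Agent.Lib.MP_3cc314_lc.Cg
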