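import Pool.Agent.Lib.MP_3cc314_lc.CgDef

set_option autoImplicit false

namespace Pool.Agent.Lib.MP_3cc314_lc.Cg
open Finset
open scoped Classical

variable {G G' : Type} [Group G] [Group G']

namespace Fam
variable {F : Fam G}

theorem exists_mem [Finite G] {U : Subgroup G} (h : U ∈ F.s) : ∃ H, F.Mem H ∧ H ≤ U := by
  obtain ⟨H, l, m⟩ := exists_minimal_le_of_wellFoundedLT (· ∈ F.s) U h
  exact ⟨H, m, l⟩

theorem Mem.mem {H : Subgroup G} (h : F.Mem H) : H ∈ F.s := h.1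

theorem Mem.eq {H K : Subgroup G} (h : F.Mem H) (hK : K ∈ F.s) (l : K ≤ H) : K = H :=
  le_antisymm l (h.2 hK l)

theorem Mem.cj {H : Subgroup G} (h : F.Mem H) (g : G) : F.Mem (cj g H) :=
  ⟨F.conj g h.1, fun K hK l => cj_le_iff.2 (h.2 (F.conj g⁻¹ hK) (by
    rw [← cj_inv_cj g H]; exact cj_mono _ l))⟩

theorem conj_iff {g : G} {H : Subgroup G} : cj g H ∈ F.s ↔ H ∈ F.s :=
  ⟨fun h => by simpa [cj_inv_cj] using F.conj g⁻¹ h, F.conj g⟩

theorem mem_cj_iff {g : G} {H : Subgroup G} : F.Mem (cj g H) ↔ F.Mem H :=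
  ⟨fun h => by simpa [cj_inv_cj] using h.cj g⁻¹, fun h => h.cj g⟩

theorem mem_Gal {X : Subgroup G} {g : G} : g ∈ F.Gal X ↔ ∀ H ∈ F.s, ¬X ≤ H → g ∈ H := by
  simp [Gal, Subgroup.mem_sInf]

theorem mem_Gal' [Finite G] {X : Subgroup G} {g : G} :
    g ∈ F.Gal X ↔ ∀ H, F.Mem H → ¬X ≤ H → g ∈ H := by
  refine mem_Gal.trans ⟨fun h H m => h H m.1, fun h U m n => ?_⟩
  obtain ⟨H, a, l⟩ := exists_mem m
  exact l (h H a fun b => n (b.trans l))

theorem le_Gal {X Y : Subgroup G} : Y ≤ F.Gal X ↔ F.Dj X Y :=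
  ⟨fun h H m => or_iff_not_imp_left.2 fun n _ hy => mem_Gal.1 (h hy) H m n,
    fun h _ hy => mem_Gal.2 fun H m n => (h H m).resolve_left n hy⟩

theorem Dj.symm {X Y : Subgroup G} (h : F.Dj X Y) : F.Dj Y X := fun H m => (h H m).symm

theorem dj.symm {x y : G} (h : F.dj x y) : F.dj y x := fun H m => (h H m).symm

theorem Dj.mono {X Y X' Y' : Subgroup G} (h : F.Dj X Y) (a : X' ≤ X) (b : Y' ≤ Y) : F.Dj X' Y' :=
  fun H m => (h H m).imp a.trans b.trans

theorem Dj.dj {X Y : Subgroup G} (h : F.Dj X Y) {x y : G} (a : x ∈ X) (b : y ∈ Y) : F.dj x y :=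
  fun H m => (h H m).imp (fun l => l a) fun l => l b

theorem dj_iff {x y : G} : F.dj x y ↔ F.Dj (Subgroup.zpowers x) (Subgroup.zpowers y) := by
  simp [Dj, dj, Subgroup.zpowers_le]

theorem Dj_of_mem [Finite G] {X Y : Subgroup G} (h : ∀ H, F.Mem H → X ≤ H ∨ Y ≤ H) : F.Dj X Y :=
  fun U m => by
    obtain ⟨H, a, l⟩ := exists_mem m
    exact (h H a).imp (·.trans l) (·.trans l)

theorem dj_of_mem [Finite G] {x y : G} (h : ∀ H, F.Mem H → x ∈ H ∨ y ∈ H) : F.dj x y :=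
  fun U m => by
    obtain ⟨H, a, l⟩ := exists_mem m
    exact (h H a).imp (fun b => l b) fun b => l b

theorem Fa.of_mem [Finite G] (hF : F.Fa) {g : G} (h : ∀ H, F.Mem H → g ∈ H) : g = 1 :=
  hF g fun U m => by
    obtain ⟨H, a, l⟩ := exists_mem m
    exact l (h H a)

theorem Dj_Gal (X : Subgroup G) : F.Dj X (F.Gal X) := le_Gal.1 le_rfl

theorem le_Gal_Gal (X : Subgroup G) : X ≤ F.Gal (F.Gal X) := le_Gal.2 (Dj_Gal X).symm

theorem Gal_anti {X Y : Subgroup G} (h : X ≤ Y) : F.Gal Y ≤ F.Gal X :=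
  le_Gal.2 ((Dj_Gal Y).mono h le_rfl)

theorem Gal_Gal_Gal (X : Subgroup G) : F.Gal (F.Gal (F.Gal X)) = F.Gal X :=
  le_antisymm (Gal_anti (le_Gal_Gal X)) (le_Gal_Gal _)

theorem Gal_sup (X Y : Subgroup G) : F.Gal (X ⊔ Y) = F.Gal X ⊓ F.Gal Y := by
  refine le_antisymm (le_inf (Gal_anti le_sup_left) (Gal_anti le_sup_right)) fun g hg =>
    mem_Gal.2 fun H m n => ?_
  by_cases a : X ≤ H
  · exact mem_Gal.1 hg.2 H m fun b => n (sup_le a b)
  · exact mem_Gal.1 hg.1 H m a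

theorem Gal_bot : F.Gal ⊥ = ⊤ := top_unique fun _ _ => mem_Gal.2 fun _ _ n => (n bot_le).elim

theorem Dj.cj {X Y : Subgroup G} (h : F.Dj X Y) (g : G) : F.Dj (cj g X) (cj g Y) := fun _ m =>
  (h _ (F.conj g⁻¹ m)).imp cj_le_iff.2 cj_le_iff.2

theorem dj.conj {x y : G} (h : F.dj x y) (g : G) : F.dj (g * x * g⁻¹) (g * y * g⁻¹) := fun _ m =>
  (h _ (F.conj g⁻¹ m)).imp (fun a => by simpa using mem_cj.1 a) fun a => by simpa using mem_cj.1 a

theorem cj_Gal (g : G) (X : Subgroup G) : cj g (F.Gal X) = F.Gal (cj g X) := by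
  refine le_antisymm (le_Gal.2 ((Dj_Gal X).cj g)) ?_
  rw [← cj_cj_inv g (F.Gal (cj g X)), cj_le_cj, le_Gal]
  simpa [cj_inv_cj] using (Dj_Gal (F := F) (cj g X)).cj g⁻¹

/-- the two factors of an element with disjoint supports lie in every member that contains it -/
theorem dj.left {a b : G} (h : F.dj a b) {H : Subgroup G} (m : H ∈ F.s) (hab : a * b ∈ H) :
    a ∈ H := (h H m).elim id fun hb => (H.mul_mem_cancel_right hb).1 hab

theorem dj.right {a b : G} (h : F.dj a b) {H : Subgroup G} (m : H ∈ F.s) (hab : a * b ∈ H) :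
    b ∈ H := (h H m).elim (fun ha => (H.mul_mem_cancel_left ha).1 hab) id

theorem dj.left_Gal {a b : G} (h : F.dj a b) {X : Subgroup G} (hab : a * b ∈ F.Gal X) :
    a ∈ F.Gal X := mem_Gal.2 fun H m n => h.left m (mem_Gal.1 hab H m n)

theorem dj.right_Gal {a b : G} (h : F.dj a b) {X : Subgroup G} (hab : a * b ∈ F.Gal X) :
    b ∈ F.Gal X := mem_Gal.2 fun H m n => h.right m (mem_Gal.1 hab H m n)

theorem Fa.dj_self (hF : F.Fa) {x : G} (h : F.dj x x) : x = 1 := hF x fun H m => (h H m).elim id id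

theorem Fa.inf (hF : F.Fa) {X Y : Subgroup G} (h : F.Dj X Y) : X ⊓ Y = ⊥ :=
  eq_bot_iff.2 fun _ hx => hF.dj_self (h.dj hx.1 hx.2)

theorem dj.comm_mem {x y : G} (h : F.dj x y) {H : Subgroup G} (m : H ∈ F.s) :
    x * y * x⁻¹ * y⁻¹ ∈ H := by
  by_cases hx : x ∈ H
  · by_cases hy : y ∈ H
    · exact H.mul_mem (H.mul_mem (H.mul_mem hx hy) (H.inv_mem hx)) (H.inv_mem hy)
    · have e : x * y * x⁻¹ * y⁻¹ = x * (y * x * y⁻¹)⁻¹ := by group
      have h2 : x ∈ cj y⁻¹ H := (h _ (F.conj y⁻¹ m)).resolve_right fun a =>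
        hy (by simpa using mem_cj.1 a)
      rw [e]
      exact H.mul_mem hx (H.inv_mem (by simpa using mem_cj.1 h2))
  · have hy := (h H m).resolve_left hx
    have h2 : y ∈ cj x⁻¹ H := (h _ (F.conj x⁻¹ m)).resolve_left fun a =>
      hx (by simpa using mem_cj.1 a)
    exact H.mul_mem (by simpa using mem_cj.1 h2) (H.inv_mem hy)

theorem Fa.comm (hF : F.Fa) {x y : G} (h : F.dj x y) : x * y = y * x := by
  have := hF _ fun H m => h.comm_mem m
  calc x * y = x * y * x⁻¹ * y⁻¹ * (y * x) := by group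
    _ = y * x := by rw [this, one_mul]

theorem Fa.mem_sup (hF : F.Fa) {X Y : Subgroup G} (h : F.Dj X Y) {g : G} :
    g ∈ X ⊔ Y ↔ ∃ x ∈ X, ∃ y ∈ Y, x * y = g := by
  let P : Subgroup G :=
    { carrier := {g | ∃ x ∈ X, ∃ y ∈ Y, x * y = g}
      mul_mem' := by
        rintro _ _ ⟨x, a, y, b, rfl⟩ ⟨x', a', y', b', rfl⟩
        refine ⟨x * x', X.mul_mem a a', y * y', Y.mul_mem b b', ?_⟩
        rw [mul_assoc, ← mul_assoc x', hF.comm (h.dj a' b)]; group
      one_mem' := ⟨1, X.one_mem, 1, Y.one_mem, one_mul _⟩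
      inv_mem' := by
        rintro _ ⟨x, a, y, b, rfl⟩
        exact ⟨x⁻¹, X.inv_mem a, y⁻¹, Y.inv_mem b, by
          rw [hF.comm (h.dj (X.inv_mem a) (Y.inv_mem b)), mul_inv_rev]⟩ }
  refine ⟨fun hg => (sup_le (fun x a => ⟨x, a, 1, Y.one_mem, mul_one _⟩)
    (fun y b => ⟨1, X.one_mem, y, b, one_mul _⟩) : X ⊔ Y ≤ P) hg, ?_⟩
  rintro ⟨x, a, y, b, rfl⟩
  exact Subgroup.mul_mem_sup a b

theorem Fa.card_sup (hF : F.Fa) {X Y : Subgroup G} (h : F.Dj X Y) :
    Nat.card (X ⊔ Y : Subgroup G) = Nat.card X * Nat.card Y := by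
  rw [← Nat.card_prod]
  refine (Nat.card_congr (Equiv.ofBijective
    (fun p : X × Y => (⟨p.1.1 * p.2.1, Subgroup.mul_mem_sup p.1.2 p.2.2⟩ : (X ⊔ Y : Subgroup G)))
      ⟨?_, ?_⟩)).symm
  · rintro ⟨⟨x, a⟩, ⟨y, b⟩⟩ ⟨⟨x', a'⟩, ⟨y', b'⟩⟩ e
    have e : x * y = x' * y' := congrArg Subtype.val e
    have e2 : x'⁻¹ * x = y' * y⁻¹ := by
      calc x'⁻¹ * x = x'⁻¹ * (x * y) * y⁻¹ := by group
        _ = _ := by rw [e]; group
    have : x'⁻¹ * x ∈ X ⊓ Y :=
      ⟨X.mul_mem (X.inv_mem a') a, e2 ▸ Y.mul_mem b' (Y.inv_mem b)⟩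
    rw [hF.inf h, Subgroup.mem_bot] at this
    obtain rfl := inv_mul_eq_one.1 this
    obtain rfl := mul_left_cancel e
    rfl
  · rintro ⟨g, hg⟩
    obtain ⟨x, a, y, b, rfl⟩ := (hF.mem_sup h).1 hg
    exact ⟨(⟨x, a⟩, ⟨y, b⟩), rfl⟩

theorem ind_mem {H : Subgroup G} (m : H ∈ F.s) (g : G) : ind g H ∈ F.sp :=
  Submodule.subset_span ⟨H, m, g, rfl⟩

theorem one_mem_sp : (fun _ => 1 : G → ℝ) ∈ F.sp := by
  have : (fun _ => 1 : G → ℝ) = ind 1 ⊤ := funext fun x => (ind_pos (Subgroup.mem_top _)).symm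
  rw [this]
  exact ind_mem F.top 1

/-- a function that is right invariant under an element of the family lies in the span -/
theorem mem_sp_of_inv [Finite G] {U : Subgroup G} (m : U ∈ F.s) {f : G → ℝ}
    (h : ∀ x, ∀ u ∈ U, f (x * u) = f x) : f ∈ F.sp := by
  have := Fintype.ofFinite (G ⧸ U)
  have : f = ∑ q : G ⧸ U, f q.out • ind q.out U := funext fun y => by
    have e : ∀ q : G ⧸ U, q.out⁻¹ * y ∈ U ↔ q = (y : G ⧸ U) := fun q => by
      rw [← QuotientGroup.eq, QuotientGroup.out_eq']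
    rw [Finset.sum_apply, sum_eq_single (y : G ⧸ U) (fun q _ n => by
      rw [Pi.smul_apply, ind_neg (mt (e q).1 n), smul_zero]) (by simp), Pi.smul_apply,
      ind_pos ((e _).2 rfl), smul_eq_mul, mul_one, ← h (y : G ⧸ U).out _ ((e _).2 rfl), mul_inv_cancel_left]
  rw [this]
  exact sum_mem fun q _ => Submodule.smul_mem _ _ (ind_mem m _)

/-- the coset of an overgroup is a sum of cosets -/
theorem _root_.Pool.Agent.Lib.MP_3cc314_lc.Cg.ind_eq_sum {H U : Subgroup G} [Fintype (G ⧸ H)]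
    (l : H ≤ U) (g : G) : ind g U = ∑ q : G ⧸ H, ind g U q.out • ind q.out H := funext fun y => by
  have e : ∀ q : G ⧸ H, q.out⁻¹ * y ∈ H ↔ q = (y : G ⧸ H) := fun q => by
    rw [← QuotientGroup.eq, QuotientGroup.out_eq']
  rw [Finset.sum_apply, sum_eq_single (y : G ⧸ H) (fun q _ n => by
    rw [Pi.smul_apply, ind_neg (mt (e q).1 n), smul_zero]) (by simp), Pi.smul_apply,
    ind_pos ((e _).2 rfl), smul_eq_mul, mul_one, ← ind_mul (x := (y : G ⧸ H).out) (l ((e _).2 rfl)),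
    mul_inv_cancel_left]

/-- a functional that is nonnegative on all cosets is nonnegative on the cone -/
theorem SF.cone [Finite G] (h : F.SF) (Λ : (G → ℝ) →ₗ[ℝ] ℝ) (hΛ : ∀ H ∈ F.s, ∀ g, 0 ≤ Λ (ind g H))
    {f : G → ℝ} (hf : f ∈ F.sp) (h0 : ∀ x, 0 ≤ f x) : 0 ≤ Λ f := by
  induction hn : (Function.support f).ncard using Nat.strong_induction_on generalizing f with
  | _ n ih =>
  by_cases hz : ∃ x, 0 < f x
  · obtain ⟨x, hx⟩ := hz
    obtain ⟨H, m, hH⟩ := h f hf h0 x hx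
    obtain ⟨k, hk⟩ := Finite.exists_min fun k : H => f (x * k)
    have hp := hH k k.2
    have e : f = (f - f (x * k) • ind x H) + f (x * k) • ind x H := by simp
    have hs : Function.support (f - f (x * k) • ind x H) ⊂ Function.support f := by
      refine ⟨fun y hy hy0 => hy ?_, fun hs => hs hp.ne' ?_⟩
      · have : x⁻¹ * y ∉ H := fun a => (hH _ a).ne' (by simpa using hy0)
        simp [hy0, ind_neg this]
      · simp [ind_pos (g := x) (x := x * k) (H := H) (by simp)]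
    rw [e, map_add, map_smul]
    refine add_nonneg (ih _ (hn ▸ Set.ncard_lt_ncard hs (Set.toFinite _))
      (sub_mem hf (Submodule.smul_mem _ _ (ind_mem m x))) (fun y => ?_) rfl)
      (mul_nonneg hp.le (hΛ H m x))
    by_cases a : x⁻¹ * y ∈ H
    · have := hk ⟨_, a⟩
      simpa [ind_pos a] using this
    · simpa [ind_neg a] using h0 y
  · have : f = 0 := funext fun x => le_antisymm (not_lt.1 fun a => hz ⟨x, a⟩) (h0 x)
    rw [this, map_zero]

/-- a signed measure with nonnegative marginals and positive mass has a group element in the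
support of its marginals -/
theorem SF.pt [Finite G] (h : F.SF) (Λ : (G → ℝ) →ₗ[ℝ] ℝ) (hΛ : ∀ H ∈ F.s, ∀ g, 0 ≤ Λ (ind g H))
    (h1 : 0 < Λ fun _ => 1) : ∃ g, ∀ H ∈ F.s, 0 < Λ (ind g H) := by
  by_contra hn
  push Not at hn
  choose H m hH using hn
  have := Fintype.ofFinite G
  have := h.cone Λ hΛ (f := (∑ g, ind g (H g)) - fun _ => 1)
    (sub_mem (sum_mem fun g _ => ind_mem (m g) g) one_mem_sp) fun x => by
      rw [Pi.sub_apply, Finset.sum_apply, sub_nonneg]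
      refine le_trans ?_ (single_le_sum (f := fun g => ind g (H g) x)
        (fun g _ => ind_nonneg _ _ _) (mem_univ x))
      exact (ind_pos (by simp)).ge
  rw [map_sub, map_sum] at this
  have h2 : ∑ g, Λ (ind g (H g)) ≤ 0 := sum_nonpos fun g _ => hH g
  linarith

/-- a subgroup whose indicator lies in the span belongs to the family -/
theorem SF.mem (h : F.SF) {U : Subgroup G} (hU : ind 1 U ∈ F.sp) : U ∈ F.s := by
  obtain ⟨H, m, hH⟩ := h _ hU (ind_nonneg _ _) 1 (by rw [ind_pos (by simp)]; norm_num)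
  refine F.up m fun k hk => ?_
  by_contra n
  have := hH k hk
  rw [ind_neg (by simpa using n)] at this
  exact this.false

theorem SF.push (h : F.SF) (φ : G →* G') (hφ : Function.Surjective φ) : (F.push φ hφ).SF := by
  intro f hf h0 x hx
  obtain ⟨x, rfl⟩ := hφ x
  have : ∀ f ∈ (F.push φ hφ).sp, (fun y => f (φ y)) ∈ F.sp := fun f hf => by
    induction hf using Submodule.span_induction with
    | mem f a =>
      obtain ⟨X, m, g, rfl⟩ := a
      obtain ⟨g, rfl⟩ := hφ g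
      have : (fun y => ind (φ g) X (φ y)) = ind g (X.comap φ) := funext fun y => by simp [ind]
      rw [this]
      exact ind_mem (F := F) m g
    | zero => exact zero_mem _
    | add a b _ _ ha hb => exact add_mem ha hb
    | smul c a _ ha => exact Submodule.smul_mem _ c ha
  obtain ⟨H, m, hH⟩ := h _ (this f hf) (fun y => h0 _) x hx
  refine ⟨H.map φ, F.up m (Subgroup.le_comap_map _ _), ?_⟩
  rintro _ ⟨k, hk, rfl⟩
  simpa using hH k hk

theorem SF.of_push (φ : G →* G') (hφ : Function.Surjective φ) (hk : ∀ H ∈ F.s, φ.ker ≤ H)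
    (h : (F.push φ hφ).SF) : F.SF := by
  intro f hf h0 x hx
  have : ∀ f ∈ F.sp, ∃ f' ∈ (F.push φ hφ).sp, ∀ y, f y = f' (φ y) := fun f hf => by
    induction hf using Submodule.span_induction with
    | mem f a =>
      obtain ⟨H, m, g, rfl⟩ := a
      refine ⟨ind (φ g) (H.map φ), ind_mem (F := F.push φ hφ) (F.up m (Subgroup.le_comap_map _ _)) _, fun y => ?_⟩
      have : (φ g)⁻¹ * φ y ∈ H.map φ ↔ g⁻¹ * y ∈ H := by
        rw [← map_inv, ← map_mul, ← Subgroup.mem_comap, Subgroup.comap_map_eq_self (hk H m)]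
      simp only [ind, this]
    | zero => exact ⟨0, zero_mem _, fun _ => rfl⟩
    | add a b _ _ ha hb =>
      obtain ⟨a', a1, a2⟩ := ha
      obtain ⟨b', b1, b2⟩ := hb
      exact ⟨a' + b', add_mem a1 b1, fun y => by simp [a2, b2]⟩
    | smul c a _ ha =>
      obtain ⟨a', a1, a2⟩ := ha
      exact ⟨c • a', Submodule.smul_mem _ c a1, fun y => by simp [a2]⟩
  obtain ⟨f', m', e⟩ := this f hf
  obtain ⟨X, m, hX⟩ := h f' m' (fun y => by obtain ⟨y, rfl⟩ := hφ y; rw [← e]; exact h0 y) (φ x)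
    (e x ▸ hx)
  exact ⟨_, m, fun k hk => by rw [e, map_mul]; exact hX _ hk⟩

theorem SF.ov (h : F.SF) (N : Subgroup G) [N.Normal] : (F.ov N).SF := by
  intro f hf h0 x hx
  have h1 : f ∈ F.sp := Submodule.span_mono (by
    rintro _ ⟨H, m, g, rfl⟩; exact ⟨H, m.1, g, rfl⟩) hf
  have h2 : ∀ y, ∀ n ∈ N, f (y * n) = f y := fun y n hn => by
    clear h0 hx h1
    induction hf using Submodule.span_induction with
    | mem f a =>
      obtain ⟨H, m, g, rfl⟩ := a
      exact ind_mul (m.2 hn)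
    | zero => rfl
    | add a b _ _ ha hb => simp [ha, hb]
    | smul c a _ ha => simp [ha]
  obtain ⟨H, m, hH⟩ := h f h1 h0 x hx
  refine ⟨H ⊔ N, ⟨F.up m le_sup_left, le_sup_right⟩, fun k hk => ?_⟩
  obtain ⟨a, ha, n, hn, rfl⟩ := Subgroup.mem_sup_of_normal_right.1 hk
  rw [← mul_assoc, h2 _ _ hn]
  exact hH a ha

theorem SF.pull [Finite G] (h : F.SF) {L : Subgroup G} (hL : F.Cl L) : (F.pull L).SF := by
  intro f hf h0 x hx
  have : ∀ f ∈ (F.pull L).sp, ∃ f' ∈ F.sp, ∀ y : L, f y = f' y := fun f hf => by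
    induction hf using Submodule.span_induction with
    | mem f a =>
      obtain ⟨X, ⟨H, m, l⟩, g, rfl⟩ := a
      have := Fintype.ofFinite (G ⧸ H)
      refine ⟨∑ q : G ⧸ H, if ∃ k : L, g⁻¹ * k ∈ X ∧ (k.1 : G ⧸ H) = q then ind q.out H else 0,
        sum_mem fun q _ => by split_ifs; exacts [ind_mem m _, zero_mem _], fun y => ?_⟩
      have e : ∀ q : G ⧸ H, q.out⁻¹ * y.1 ∈ H ↔ q = (y.1 : G ⧸ H) := fun q => by
        rw [← QuotientGroup.eq, QuotientGroup.out_eq']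
      rw [Finset.sum_apply, sum_eq_single (y.1 : G ⧸ H) (fun q _ n => by
        split_ifs; exacts [ind_neg (mt (e q).1 n), rfl]) (by simp)]
      split_ifs with a
      · obtain ⟨k, a, b⟩ := a
        rw [ind_pos ((e _).2 rfl), ind_pos]
        have : g⁻¹ * y = g⁻¹ * k * (k⁻¹ * y) := by group
        rw [this]
        exact X.mul_mem a (l (show k.1⁻¹ * y.1 ∈ H from QuotientGroup.eq.1 b))
      · exact ind_neg fun b => a ⟨y, b, rfl⟩
    | zero => exact ⟨0, zero_mem _, fun _ => rfl⟩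
    | add a b _ _ ha hb =>
      obtain ⟨a', a1, a2⟩ := ha
      obtain ⟨b', b1, b2⟩ := hb
      exact ⟨a' + b', add_mem a1 b1, fun y => by simp [a2, b2]⟩
    | smul c a _ ha =>
      obtain ⟨a', a1, a2⟩ := ha
      exact ⟨c • a', Submodule.smul_mem _ c a1, fun y => by simp [a2]⟩
  obtain ⟨f', m', e⟩ := this f hf
  have hc : ∀ g : G, ∃ H ∈ F.s, g ∉ L → ∀ l ∈ L, l⁻¹ * g ∉ H := fun g => by
    by_cases a : g ∈ L
    · exact ⟨⊤, F.top, fun n => (n a).elim⟩
    · by_contra hn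
      push Not at hn
      exact a (hL g fun H m => (hn H m).2)
  choose H m hH using hc
  have := Fintype.ofFinite G
  let t : G → ℝ := fun g => if g ∈ L then 0 else |f' g|
  have t0 : ∀ g, 0 ≤ t g := fun g => by simp only [t]; split_ifs; exacts [le_rfl, abs_nonneg _]
  have z : ∀ y ∈ L, (f' + ∑ g, t g • ind g (H g)) y = f' y := fun y hy => by
    rw [Pi.add_apply, Finset.sum_apply, sum_eq_zero, add_zero]
    intro g _
    by_cases a : g ∈ L
    · simp [t, a]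
    · rw [Pi.smul_apply, ind_neg fun b => hH g a y hy (by simpa using (H g).inv_mem b), smul_zero]
  obtain ⟨K, mK, hK⟩ := h (f' + ∑ g, t g • ind g (H g))
    (add_mem m' (sum_mem fun g _ => Submodule.smul_mem _ _ (ind_mem (m g) g))) (fun y => by
      by_cases a : y ∈ L
      · rw [z y a, ← e ⟨y, a⟩]; exact h0 _
      · rw [Pi.add_apply, Finset.sum_apply]
        have := single_le_sum (f := fun g => (t g • ind g (H g)) y)
          (fun g _ => mul_nonneg (t0 g) (ind_nonneg _ _ _)) (mem_univ y)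
        simp only [Pi.smul_apply, ind_pos (g := y) (x := y) (H := H y) (by simp), t, if_neg a,
          smul_eq_mul, mul_one] at this ⊢
        linarith [neg_abs_le (f' y)]) x (by rw [z _ x.2, ← e]; exact hx)
  refine ⟨K.subgroupOf L, ⟨K, mK, le_rfl⟩, fun k hk => ?_⟩
  rw [e, ← z _ (x * k).2]
  exact hK k hk

theorem Fa.pull (h : F.Fa) (L : Subgroup G) : (F.pull L).Fa := fun g hg =>
  Subtype.ext (h g fun H m => hg (H.subgroupOf L) ⟨H, m, le_rfl⟩)

theorem cl_of_mem {U : Subgroup G} (m : U ∈ F.s) : F.Cl U := fun g hg => by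
  obtain ⟨l, a, b⟩ := hg U m
  exact (U.mul_mem_cancel_left (U.inv_mem a)).1 b

theorem cl_Gal (X : Subgroup G) : F.Cl (F.Gal X) := fun g hg => mem_Gal.2 fun H m n => by
  obtain ⟨l, a, b⟩ := hg H m
  exact (H.mul_mem_cancel_left (H.inv_mem (mem_Gal.1 a H m n))).1 b

theorem Cl.fa {N : Subgroup G} [N.Normal] (h : F.Cl N) :
    (F.push (QuotientGroup.mk' N) (QuotientGroup.mk'_surjective N)).Fa := fun g hg => by
  obtain ⟨g, rfl⟩ := QuotientGroup.mk'_surjective N g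
  refine (QuotientGroup.eq_one_iff g).2 (h g fun H m => ?_)
  have := hg (H.map (QuotientGroup.mk' N)) (F.up m (Subgroup.le_comap_map _ _))
  obtain ⟨k, hk, e⟩ := this
  have e' : k⁻¹ * g ∈ N := QuotientGroup.eq.1 e
  exact ⟨g * (k⁻¹ * g) * g⁻¹, ‹N.Normal›.conj_mem _ e' g, by simpa [mul_assoc] using hk⟩

theorem cj_eq_of {g l : G} {K : Subgroup G} (h : l⁻¹ * g ∈ K) : cj g K = cj l K := by
  rw [← mul_inv_cancel_left l g, cj_mul, cj_of_mem h]

theorem norm_le_norm_Gal (X : Subgroup G) :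
    Subgroup.normalizer (X : Set G) ≤ Subgroup.normalizer (F.Gal X : Set G) := fun g hg =>
  cj_eq_iff.1 (by rw [cj_Gal, cj_eq_iff.2 hg])

/-- the normaliser of a closed subgroup (the stabiliser of its support) is orbit closed -/
theorem cl_norm [Finite G] (X : Subgroup G) :
    F.Cl (Subgroup.normalizer (F.Gal X : Set G)) := fun g hg => by
  refine cj_eq_iff.1 (Subgroup.eq_of_le_of_card_ge (fun a ha => mem_cj.2 ?_) (card_cj g _).le).symm
  rw [← Gal_Gal_Gal]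
  refine mem_Gal.2 fun K m n => mem_cj.1 ?_
  obtain ⟨l, a, b⟩ := hg K m
  rw [cj_eq_of b]
  rw [← Gal_Gal_Gal] at ha
  refine mem_Gal.1 ha _ (F.conj l m) fun c => n ?_
  rwa [← cj_eq_iff.2 (norm_le_norm_Gal _ a), cj_le_cj] at c

/-- Lemma L1: an element that preserves all non trivial orbits of `D` splits -/
theorem SF.split [Finite G] (h : F.SF) (D : Subgroup G) (g : G)
    (hg : ∀ H ∈ F.s, ¬D ≤ H → ∃ d ∈ D, d⁻¹ * g ∈ H) :
    ∃ g', ∀ H ∈ F.s, (D ≤ H → g'⁻¹ * g ∈ H) ∧ (¬D ≤ H → g' ∈ H) := by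
  have := Fintype.ofFinite D
  let P : Submonoid G :=
    { carrier := {g | ∀ H ∈ F.s, ¬D ≤ H → ∃ d ∈ D, d⁻¹ * g ∈ H}
      one_mem' := fun H _ _ => ⟨1, D.one_mem, by simp⟩
      mul_mem' := fun {a b} ha hb H m n => by
        obtain ⟨d, hd, e⟩ := hb H m n
        obtain ⟨d', hd', e'⟩ := ha _ (F.conj d m) fun c => n (by
          rwa [← cj_of_mem hd, cj_le_cj] at c)
        refine ⟨d' * d, D.mul_mem hd' hd, ?_⟩
        have : (d' * d)⁻¹ * (a * b) = d⁻¹ * (d'⁻¹ * a) * d * (d⁻¹ * b) := by group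
        rw [this]
        exact H.mul_mem (mem_cj.1 e') e }
  have hi : g⁻¹ ∈ P := by
    have : g⁻¹ = g ^ (orderOf g - 1) := by
      rw [inv_eq_iff_mul_eq_one, ← pow_succ', Nat.sub_add_cancel (orderOf_pos g), pow_orderOf_eq_one]
    rw [this]
    exact P.pow_mem hg _
  have hD : ∀ d ∈ D, d ∈ P := fun d hd H _ _ => ⟨d, hd, by simp⟩
  -- the number of `d` in a coset
  have cnt : ∀ H : Subgroup G, ∀ x x' : G, (∃ d ∈ D, ∃ d' ∈ D, x⁻¹ * d ∈ H ∧ x'⁻¹ * d' ∈ H) →
      ∑ d : D, ind x H d = ∑ d : D, ind x' H d := by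
    rintro H x x' ⟨d, hd, d', hd', e, e'⟩
    rw [ind_congr e, ind_congr e']
    refine Fintype.sum_equiv (Equiv.mulLeft (⟨d', hd'⟩ * ⟨d, hd⟩⁻¹)) _ _ fun k => ?_
    simp [ind]
  have key : ∀ H ∈ F.s, ¬D ≤ H → ∀ x, ∑ d : D, ind x H (g * d) = ∑ d : D, ind x H d := by
    intro H m n x
    have e : ∀ d : D, ind x H (g * d) = ind (g⁻¹ * x) H d := fun d => by simp [ind, mul_assoc]
    simp only [e]
    by_cases a : ∃ d ∈ D, x⁻¹ * d ∈ H
    · obtain ⟨d, hd, a⟩ := a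
      obtain ⟨d', hd', a'⟩ := P.mul_mem hi (hD d hd) H m n
      refine cnt H _ _ ⟨d', hd', d, hd, ?_, a⟩
      have : (g⁻¹ * x)⁻¹ * d' = x⁻¹ * d * (d'⁻¹ * (g⁻¹ * d))⁻¹ := by group
      rw [this]
      exact H.mul_mem a (H.inv_mem a')
    · rw [sum_eq_zero, sum_eq_zero]
      · exact fun d _ => ind_neg fun b => a ⟨d, d.2, b⟩
      · refine fun d _ => ind_neg fun b => a ?_
        obtain ⟨d', hd', a'⟩ := P.mul_mem hg (hD d d.2) H m n
        refine ⟨d', hd', ?_⟩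
        have : x⁻¹ * d' = (g⁻¹ * x)⁻¹ * d * (d'⁻¹ * (g * d))⁻¹ := by group
        rw [this]
        exact H.mul_mem b (H.inv_mem a')
  let Λ : (G → ℝ) →ₗ[ℝ] ℝ := (Fintype.card D : ℝ) • LinearMap.proj 1 -
    ∑ d : D, LinearMap.proj d.1 + ∑ d : D, LinearMap.proj (g * d.1)
  have eΛ : ∀ f, Λ f = Fintype.card D * f 1 - ∑ d : D, f d + ∑ d : D, f (g * d) := fun f => by
    simp [Λ, LinearMap.sum_apply]
  have e1 : ∀ H ∈ F.s, D ≤ H → ∀ x, Λ (ind x H) = Fintype.card D * ind x H g := fun H _ l x => by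
    have a : ∀ d : D, ind x H d = ind x H 1 := fun d => by
      rw [← ind_mul (x := 1) (l d.2), one_mul]
    have b : ∀ d : D, ind x H (g * d) = ind x H g := fun d => ind_mul (l d.2)
    simp [eΛ, a, b]
  have e2 : ∀ H ∈ F.s, ¬D ≤ H → ∀ x, Λ (ind x H) = Fintype.card D * ind x H 1 := fun H m n x => by
    rw [eΛ, key H m n]; ring
  obtain ⟨g', hg'⟩ := h.pt Λ (fun H m x => by
    by_cases l : D ≤ H
    · rw [e1 H m l]; exact mul_nonneg (Nat.cast_nonneg _) (ind_nonneg _ _ _)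
    · rw [e2 H m l]; exact mul_nonneg (Nat.cast_nonneg _) (ind_nonneg _ _ _))
    (by simp [eΛ, Fintype.card_pos])
  refine ⟨g', fun H m => ⟨fun l => by_contra fun a => ?_, fun n => by_contra fun a => ?_⟩⟩
  · have := hg' H m
    rw [e1 H m l, ind_neg a, mul_zero] at this
    exact this.false
  · have := hg' H m
    rw [e2 H m n, ind_neg (by simpa using a), mul_zero] at this
    exact this.false

end Fam

end Pool.Agent.Lib.MP_3cc314_lc.Cg
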