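import Pool.Agent.Lib.MP_3cc314_lc.CgD31

set_option autoImplicit false

namespace Pool.Agent.Lib.MP_3cc314_lc.Cg
open Finset
open scoped Classical

variable {G : Type} [Group G]

/-- the right periods of a function -/
def per (f : G → ℝ) : Subgroup G where
  carrier := {g | ∀ x, f (x * g) = f x}
  one_mem' x := by rw [mul_one]
  mul_mem' {a b} ha hb x := by rw [← mul_assoc, hb, ha]
  inv_mem' {a} ha x := by rw [← ha, inv_mul_cancel_right]

theorem ncl_le {N U : Subgroup G} :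
    Subgroup.normalClosure (N : Set G) ≤ U ↔ ∀ g, cj g N ≤ U := by
  refine ⟨fun h g x hx => h ?_, fun h => (Subgroup.closure_le _).2 fun x hx => ?_⟩
  · have e : x = g * (g⁻¹ * x * g) * g⁻¹ := by group
    rw [e]
    exact Subgroup.normalClosure_normal.conj_mem _ (Subgroup.subset_normalClosure (mem_cj.1 hx)) g
  · obtain ⟨a, ha, b⟩ := Group.mem_conjugatesOfSet_iff.1 hx
    obtain ⟨g, rfl⟩ := isConj_iff.1 b
    exact h g ((conj_mem_cj g).2 ha)

namespace Fam
variable {F : Fam G} {N : Subgroup G}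

theorem Gal_le {H : Subgroup G} (m : H ∈ F.s) (n : ¬N ≤ H) : F.Gal N ≤ H :=
  (Dj_Gal N H m).resolve_left n

theorem le_norm (hb : ∀ g, cj g N = N ∨ cj g N ≤ F.Gal N) {H : Subgroup G} (m : H ∈ F.s)
    (n : ¬N ≤ H) : H ≤ Subgroup.normalizer (N : Set G) := fun h hh =>
  cj_eq_iff.1 ((hb h).resolve_right fun a => n (by
    have := a.trans (Gal_le m n)
    rwa [← cj_of_mem hh, cj_le_cj] at this))

theorem leaf_of_mem {H : Subgroup G} (m : H ∈ F.s) (l : F.Gal N ≤ H) :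
    H.subgroupOf (Subgroup.normalizer (N : Set G)) ∈ (F.leaf N).s :=
  ⟨⟨H, m, le_rfl⟩, fun _ h => l h⟩

theorem mem_of_leaf (hv : N ⊔ F.Gal N ∈ F.s) (hb : ∀ g, cj g N = N ∨ cj g N ≤ F.Gal N)
    (hc : F.Gal N ≤ Subgroup.normalizer (N : Set G)) {X : Subgroup (Subgroup.normalizer (N : Set G))}
    (m : X ∈ (F.leaf N).s) : X.map (Subgroup.subtype _) ∈ F.s := by
  obtain ⟨⟨H, m, a⟩, b⟩ := m
  by_cases n : N ≤ H
  · refine F.up hv (sup_le (fun x hx => ?_) fun x hx => ?_)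
    · exact ⟨⟨x, Subgroup.le_normalizer hx⟩, a (n hx), rfl⟩
    · exact ⟨⟨x, hc hx⟩, b hx, rfl⟩
  · exact F.up m fun x hx => ⟨⟨x, le_norm hb m n hx⟩, a hx, rfl⟩

/-- simultaneous choice in the blocks -/
theorem exists_prod [Finite G] (hb : ∀ g, cj g N = N ∨ cj g N ≤ F.Gal N)
    (ν : G ⧸ Subgroup.normalizer (N : Set G) → G) (hν : ∀ d, ν d ∈ cj d.out N) :
    ∃ n ∈ Subgroup.normalClosure (N : Set G), ∀ d, (ν d)⁻¹ * n ∈ cj d.out (F.Gal N) := by
  have := Fintype.ofFinite (G ⧸ Subgroup.normalizer (N : Set G))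
  have h1 : ∀ d e : G ⧸ Subgroup.normalizer (N : Set G), d ≠ e → ν e ∈ cj d.out (F.Gal N) := by
    intro d e n
    rcases hb (d.out⁻¹ * e.out) with a | a
    · exact absurd (by
        rw [← d.out_eq', ← e.out_eq']; exact QuotientGroup.eq.2 (cj_eq_iff.1 a)) n
    · rw [cj_mul, cj_le_iff, inv_inv] at a
      exact a (hν e)
  have key : ∀ s : Finset (G ⧸ Subgroup.normalizer (N : Set G)),
      ∃ n ∈ Subgroup.normalClosure (N : Set G), (∀ d ∈ s, (ν d)⁻¹ * n ∈ cj d.out (F.Gal N)) ∧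
        ∀ d, d ∉ s → n ∈ cj d.out (F.Gal N) := by
    intro s
    induction s using Finset.induction_on with
    | empty => exact ⟨1, one_mem _, by simp, fun _ _ => one_mem _⟩
    | insert e s he ih =>
      obtain ⟨n, a, b, c⟩ := ih
      refine ⟨n * ν e, mul_mem a (ncl_le.1 le_rfl _ (hν e)), fun d hd => ?_, fun d hd => ?_⟩
      · rcases mem_insert.1 hd with rfl | hd
        · have h2 := cj_eq_iff.2 (norm_le_norm_Gal (F := F) N (Subgroup.le_normalizer (mem_cj.1 (hν d))))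
          have h3 := mem_cj.1 (c d he)
          rw [← h2, mem_cj] at h3
          rw [mem_cj]
          simpa [mul_assoc] using h3
        · rw [← mul_assoc]
          exact mul_mem (b d hd) (h1 d e fun x => he (x ▸ hd))
      · rw [mem_insert, not_or] at hd
        exact mul_mem (c d hd.2) (h1 d e hd.1)
  obtain ⟨n, a, b, -⟩ := key univ
  exact ⟨n, a, fun d => b d (mem_univ d)⟩

end Fam

open Fam in
theorem sD3 : S_d3 := by
  intro G _ _ F N hv hb hl ho
  by_cases hN : N ≤ F.Gal N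
  · refine SF.congr (F := F.ov (Subgroup.normalClosure (N : Set G)))
      (Set.ext fun U => ⟨fun h => h.1, fun h => ⟨h, ncl_le.2 fun g => ?_⟩⟩) ho
    exact cj_le_iff.2 ((Dj_Gal N _ (F.conj g⁻¹ h)).elim id hN.trans)
  have hc : F.Gal N ≤ Subgroup.normalizer (N : Set G) := fun c hc =>
    cj_eq_iff.1 ((hb c).resolve_right fun a => hN (by rwa [← cj_of_mem hc, cj_le_cj] at a))
  have := Fintype.ofFinite (G ⧸ Subgroup.normalizer (N : Set G))
  let W : (G → ℝ) → Prop := fun φ =>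
    ∀ x, (fun l : Subgroup.normalizer (N : Set G) => φ (x * l)) ∈ (F.leaf N).sp
  have w1 : ∀ φ, ∀ U ∈ F.s, F.Gal N ≤ U → U ≤ per φ → W φ := fun φ U m a b x =>
    mem_sp_of_inv (leaf_of_mem m a) fun y u hu => by
      rw [Subgroup.coe_mul, ← mul_assoc]; exact b hu _
  have w2 : ∀ φ, W φ → F.Gal N ≤ per φ := fun φ h c a x => by
    simpa using sp_inv (F := F.leaf N) (k := ⟨c, hc a⟩) (fun U m => m.2 a) (h x) 1
  intro f hf h0 x hx
  have key : ∃ f0 ∈ (F.ov (Subgroup.normalClosure (N : Set G))).sp,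
      ∃ φ : G ⧸ Subgroup.normalizer (N : Set G) → G → ℝ, (∀ d, W (φ d)) ∧
        ∀ y, f y = f0 y + ∑ d, φ d (y * d.out) := by
    refine sp_ind (P := fun f => ∃ f0 ∈ (F.ov (Subgroup.normalClosure (N : Set G))).sp,
      ∃ φ : G ⧸ Subgroup.normalizer (N : Set G) → G → ℝ, (∀ d, W (φ d)) ∧
        ∀ y, f y = f0 y + ∑ d, φ d (y * d.out)) (fun U m g => ?_)
      ⟨0, zero_mem _, 0, fun _ _ => zero_mem _, by simp⟩
      (fun a b ⟨p, p1, φ, p2, p3⟩ ⟨q, q1, ψ, q2, q3⟩ => ⟨p + q, add_mem p1 q1, φ + ψ,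
        fun d x => add_mem (p2 d x) (q2 d x), fun y => by
          simp only [Pi.add_apply, sum_add_distrib, p3, q3]; ring⟩)
      (fun c a ⟨p, p1, φ, p2, p3⟩ => ⟨c • p, Submodule.smul_mem _ c p1, c • φ,
        fun d x => Submodule.smul_mem _ c (p2 d x), fun y => by
          simp only [Pi.smul_apply, smul_eq_mul, ← mul_sum, p3]; ring⟩) hf
    by_cases n : Subgroup.normalClosure (N : Set G) ≤ U
    · exact ⟨_, ind_mem (F := F.ov _) ⟨m, n⟩ g, 0, fun _ _ => zero_mem _, by simp⟩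
    rw [ncl_le, not_forall] at n
    obtain ⟨k, n⟩ := n
    let d : G ⧸ Subgroup.normalizer (N : Set G) := k
    have e : cj k N = cj d.out N := by
      rw [← mul_inv_cancel_left d.out k, cj_mul, cj_eq_iff.2 (QuotientGroup.eq.1 d.out_eq')]
    rw [e, cj_le_iff] at n
    have m' := F.conj d.out⁻¹ m
    refine ⟨0, zero_mem _, fun e => if e = d then ind (g * d.out) (cj d.out⁻¹ U) else 0,
      fun e => ?_, fun y => ?_⟩
    · beta_reduce
      split_ifs
      exacts [w1 _ _ m' (Gal_le m' n) fun u hu _ => ind_mul hu, fun _ => zero_mem _]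
    · rw [sum_eq_single d (fun e _ a => by simp [a]) (by simp)]
      simp [ind, mem_cj, mul_assoc]
  obtain ⟨f0, m0, φ, hφ, e⟩ := key
  let μ : G ⧸ Subgroup.normalizer (N : Set G) → G → ℝ := fun d y => ⨅ n : N, φ d (y * n)
  have μ1 : ∀ d y, μ d y ≤ φ d y := fun d y => by
    simpa using ciInf_le (f := fun n : N => φ d (y * n)) (Set.finite_range _).bddBelow 1
  have μ2 : ∀ d, N ⊔ F.Gal N ≤ per (μ d) := fun d => sup_le (fun n hn y => by
      rw [show μ d y = _ from ((Equiv.mulLeft (⟨n, hn⟩ : N)).iInf_comp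
        (g := fun n : N => φ d (y * n))).symm]
      simp [μ, mul_assoc]) fun c a y => iInf_congr fun n => by
    have h2 := cj_eq_iff.2 (norm_le_norm_Gal (F := F) N (Subgroup.le_normalizer n.2))
    rw [← h2, mem_cj] at a
    rw [← w2 _ (hφ d) a (y * n)]
    simp [mul_assoc]
  have m1 : f0 + ∑ d, (fun y => μ d (y * d.out)) ∈ (F.ov (Subgroup.normalClosure (N : Set G))).sp := by
    refine add_mem m0 (sum_mem fun d _ => mem_sp_of_inv (F := F.ov _) (U := cj d.out (N ⊔ F.Gal N))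
      ⟨F.conj _ hv, ncl_le.2 fun g => ?_⟩ fun y u hu => ?_)
    · rw [← mul_inv_cancel_left d.out g, cj_mul, cj_le_cj]
      exact (hb _).elim (fun a => a.le.trans le_sup_left) fun a => a.trans le_sup_right
    · rw [← μ2 d (mem_cj.1 hu) (y * d.out)]
      simp [mul_assoc]
  have e1 : ∀ y, f y = (f0 + ∑ d, fun y => μ d (y * d.out)) y + ∑ d, (φ d - μ d) (y * d.out) :=
    fun y => by
      simp only [Pi.add_apply, Finset.sum_apply, Pi.sub_apply, sum_sub_distrib, e y]; ring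
  have p1 : ∀ d y, 0 ≤ (φ d - μ d) y := fun d y => sub_nonneg.2 (μ1 d y)
  have p2 : ∀ y, 0 ≤ (f0 + ∑ d, fun y => μ d (y * d.out)) y := fun y => by
    have h1 : ∀ d, ∃ n : N, φ d (y * d.out * n) = μ d (y * d.out) := fun d =>
      exists_eq_ciInf_of_finite
    choose ν hν using h1
    obtain ⟨n, a, b⟩ := exists_prod hb (fun d => d.out * ν d * d.out⁻¹)
      fun d => (conj_mem_cj _).2 (ν d).2
    refine (h0 (y * n)).trans_eq ?_
    rw [e, sp_inv (F := F.ov _) (fun U m => m.2 a) m0, Pi.add_apply, Finset.sum_apply]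
    refine congrArg _ (sum_congr rfl fun d _ => ?_)
    rw [← hν, ← w2 _ (hφ d) (mem_cj.1 (b d)) (y * d.out * ν d)]
    simp [mul_assoc]
  by_cases h1 : 0 < (f0 + ∑ d, fun y => μ d (y * d.out)) x
  · obtain ⟨H, m, hH⟩ := ho _ m1 p2 x h1
    refine ⟨H, m.1, fun h hh => ?_⟩
    rw [e1]
    exact add_pos_of_pos_of_nonneg (hH h hh) (sum_nonneg fun d _ => p1 d _)
  have h2 : 0 < ∑ d, (φ d - μ d) (x * d.out) := by
    rw [e1] at hx; linarith
  obtain ⟨d, -, h3⟩ := exists_lt_of_sum_lt (sum_const_zero.trans_lt h2)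
  obtain ⟨X, m, hX⟩ := hl (fun l => (φ d - μ d) (x * d.out * l))
    (sub_mem (hφ d _) (w1 _ _ hv le_sup_right (μ2 d) _)) (fun _ => p1 d _) 1 (by simpa using h3)
  refine ⟨_, F.conj d.out (mem_of_leaf hv hb hc m), fun h hh => ?_⟩
  obtain ⟨l, a, b⟩ := mem_cj.1 hh
  rw [e1]
  refine add_pos_of_nonneg_of_pos (p2 _) (lt_of_lt_of_le ?_
    (single_le_sum (f := fun d => (φ d - μ d) (x * h * d.out)) (fun d _ => p1 d _) (mem_univ d)))
  have := hX l a
  rw [one_mul, show (l : G) = _ from b] at this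
  simpa [mul_assoc] using this

end Pool.Agent.Lib.MP_3cc314_lc.Cg
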