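import Pool.Agent.Lib.MP_3cc314_lc.CgSpec

set_option autoImplicit false

namespace Pool.Agent.Lib.MP_3cc314_lc.Cg
open Finset
open scoped Classical

variable {G Q : Type} [Group G] [Group Q]

/-- Birkhoff's theorem for matrices with equal line sums -/
theorem birk {ι : Type} [Fintype ι] (M : ι → ι → ℝ) (h0 : ∀ i j, 0 ≤ M i j) (c : ℝ) (hc : 0 ≤ c)
    (h1 : ∀ i, ∑ j, M i j = c) (h2 : ∀ j, ∑ i, M i j = c) :
    ∃ w : Equiv.Perm ι → ℝ, (∀ σ, 0 ≤ w σ) ∧ ∀ i j, M i j = ∑ σ, if σ i = j then w σ else 0 := by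
  obtain ⟨M', a, b⟩ := (exists_mem_doublyStochastic_eq_smul_iff (M := Matrix.of M) hc).2 ⟨h0, h1, h2⟩
  obtain ⟨w, w0, -, e⟩ := exists_eq_sum_perm_of_mem_doublyStochastic a
  refine ⟨fun σ => c * w σ, fun σ => mul_nonneg hc (w0 σ), fun i j => ?_⟩
  have := congrFun (congrFun b i) j
  rw [← e] at this
  simp only [Matrix.of_apply, Matrix.smul_apply, Matrix.sum_apply, smul_eq_mul, mul_sum] at this
  rw [this]
  refine sum_congr rfl fun σ _ => ?_
  by_cases h : σ i = j <;> simp [h, PEquiv.toMatrix_apply, Equiv.toPEquiv_apply]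

namespace Fam
variable {F : Fam G}

theorem SF.congr {F' : Fam G} (e : F.s = F'.s) (h : F.SF) : F'.SF := by
  unfold SF sp at *
  rwa [← e]

theorem sp_ind {P : (G → ℝ) → Prop} (h1 : ∀ U ∈ F.s, ∀ g, P (ind g U)) (h0 : P 0)
    (ha : ∀ a b, P a → P b → P (a + b)) (hs : ∀ (c : ℝ) a, P a → P (c • a)) {f : G → ℝ}
    (hf : f ∈ F.sp) : P f := by
  induction hf using Submodule.span_induction with
  | mem f a =>
    obtain ⟨H, m, g, rfl⟩ := a
    exact h1 H m g
  | zero => exact h0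
  | add a b _ _ x y => exact ha a b x y
  | smul c a _ x => exact hs c a x

theorem sp_inv {k : G} (hk : ∀ U ∈ F.s, k ∈ U) {f : G → ℝ} (hf : f ∈ F.sp) (x : G) :
    f (x * k) = f x :=
  sp_ind (P := fun f => f (x * k) = f x) (fun U m _ => ind_mul (hk U m)) rfl
    (fun a b p q => by simp [p, q]) (fun c a p => by simp [p]) hf

theorem sp_eq (p : G →* Q) (hk : ∀ U ∈ F.s, p.ker ≤ U) {f : G → ℝ} (hf : f ∈ F.sp) (x : G) {y z : G}
    (e : p y = p z) : f (x * y) = f (x * z) := by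
  have : x * z = x * y * (y⁻¹ * z) := by group
  rw [this, sp_inv (k := y⁻¹ * z) (fun U m => hk U m (by
    rw [MonoidHom.mem_ker, map_mul, map_inv, e, inv_mul_cancel])) hf]

/-- a family with a least element -/
theorem sf_least {K : Subgroup G} (m : K ∈ F.s) (hk : ∀ U ∈ F.s, K ≤ U) : F.SF :=
  fun _ hf _ x hx => ⟨K, m, fun _ a => by rwa [sp_inv (fun U m => hk U m a) hf]⟩

/-- the dihedral atoms, modulo the kernel of `p` -/
theorem sf_dih (p : G →* Q) (hk : ∀ U ∈ F.s, p.ker ≤ U) (T : Finset G)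
    (h1 : ∀ s ∈ T, p (s * s) = 1 ∧ ∃ U ∈ F.s, ∀ u ∈ U, p u = 1 ∨ p u = p s)
    (h2 : ∀ U ∈ F.s, ∃ s ∈ T, s ∈ U) (h3 : ∀ s ∈ T, ∀ t ∈ T, ∀ u ∈ T, s * t * u ∈ T) : F.SF := by
  intro f hf h0 x hx
  obtain ⟨t0, m0, -⟩ := h2 ⊤ F.top
  have key : ∑ t ∈ T, f (x * (t * t0)) = ∑ t ∈ T, f (x * t) := by
    refine sp_ind (P := fun f => ∑ t ∈ T, f (x * (t * t0)) = ∑ t ∈ T, f (x * t)) (fun U m g => ?_)
      (by simp) (fun a b p q => by simp [sum_add_distrib, p, q])
      (fun c a p => by simp [← mul_sum, p]) hf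
    obtain ⟨s, ms, hs⟩ := h2 U m
    refine sum_bij (fun t _ => t * t0 * s) (fun t ht => h3 t ht t0 m0 s ms)
      (fun a _ b _ e => by simpa using e) (fun b hb => ?_) fun t _ => ?_
    · obtain ⟨a, ha, e⟩ := surj_on_of_inj_on_of_card_le (s := T) (t := T) (fun t _ => t * t0 * s)
        (fun t ht => h3 t ht t0 m0 s ms) (fun a b _ _ e => by simpa using e) le_rfl b hb
      exact ⟨a, ha, e.symm⟩
    · rw [← mul_assoc x _ s, ind_mul hs]
  have h4 : 0 < ∑ t ∈ T, f (x * (t * t0)) := by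
    refine lt_of_lt_of_le ?_ (single_le_sum (f := fun t => f (x * (t * t0))) (fun t _ => h0 _) m0)
    rwa [sp_eq p hk hf x (z := 1) (by rw [(h1 t0 m0).1, map_one]), mul_one]
  rw [key] at h4
  obtain ⟨t, ht, h5⟩ := exists_lt_of_sum_lt (s := T) (f := fun _ => (0 : ℝ)) (by simpa using h4)
  obtain ⟨U, m, hU⟩ := (h1 t ht).2
  refine ⟨U, m, fun u hu => (hU u hu).elim (fun e => ?_) fun e => ?_⟩
  · rwa [sp_eq p hk hf x (z := 1) (by rw [e, map_one]), mul_one]
  · rwa [sp_eq p hk hf x e]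

theorem v4_add (i : V4) : i + i = 0 := by
  revert i; decide

/-- the sporadic atom, modulo the kernel of `p` -/
theorem sf_b4 {V : Type} [AddCommGroup V] [Finite V] (hv : ∀ i : V, i + i = 0) (p : G →* Q)
    (hk : ∀ U ∈ F.s, p.ker ≤ U) (r c : V → G)
    (hr : ∀ i j, p (r (i + j)) = p (r i * r j)) (hc : ∀ i j, p (c (i + j)) = p (c i * c j))
    (hrc : ∀ i j, p (r i * c j) = p (c j * r i))
    (h1 : ∀ σ : V → V, Function.Injective σ → σ 0 = 0 →
      ∃ H ∈ F.s, ∀ x ∈ H, ∃ i, p x = p (r i * c (σ i)))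
    (h2 : ∀ U ∈ F.s, ∃ σ : V → V, Function.Injective σ ∧ σ 0 = 0 ∧ ∀ i, r i * c (σ i) ∈ U) :
    F.SF := by
  intro f hf h0 x hx
  have := Fintype.ofFinite V
  simp only [map_mul] at hr hc hrc
  have r0 : p (r 0) = 1 := by simpa using hr 0 0
  have c0 : p (c 0) = 1 := by simpa using hc 0 0
  have key : (∀ i, ∑ j, f (x * (r i * c j)) = ∑ j, f (x * c j)) ∧
      ∀ j, ∑ i, f (x * (r i * c j)) = ∑ j, f (x * c j) := by
    refine sp_ind (P := fun f => (∀ i, ∑ j, f (x * (r i * c j)) = ∑ j, f (x * c j)) ∧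
      ∀ j, ∑ i, f (x * (r i * c j)) = ∑ j, f (x * c j)) (fun U m g => ?_)
      (by simp) (fun a b p q => by simp [sum_add_distrib, p.1, q.1, p.2, q.2])
      (fun c a p => by simp [← mul_sum, p.1, p.2]) hf
    obtain ⟨σ, s1, -, s2⟩ := h2 U m
    have e : ∀ i j, ind g U (x * (r i * c j)) = ind g U (x * c (j + σ i)) := fun i j => by
      rw [← ind_mul (s2 i), mul_assoc]
      refine sp_eq p hk (ind_mem m g) x ?_
      simp only [map_mul, hc]
      rw [hrc i j, mul_assoc, ← mul_assoc (p (r i)), ← hr, hv, r0, one_mul]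
    simp only [e]
    refine ⟨fun i => Equiv.sum_comp (Equiv.addRight (σ i)) fun j => ind g U (x * c j), fun j => ?_⟩
    exact Equiv.sum_comp ((Equiv.ofBijective σ (Finite.injective_iff_bijective.1 s1)).trans
      (Equiv.addLeft j)) fun j => ind g U (x * c j)
  obtain ⟨w, w0, e⟩ := birk (fun i j => f (x * (r i * c j))) (fun _ _ => h0 _) _
    (sum_nonneg fun _ _ => h0 _) key.1 key.2
  have h4 : 0 < f (x * (r 0 * c 0)) := by
    rwa [sp_eq p hk hf x (z := 1) (by rw [map_mul, r0, c0, map_one, one_mul]), mul_one]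
  rw [e 0 0] at h4
  obtain ⟨σ, -, h5⟩ := exists_lt_of_sum_lt (s := univ) (f := fun _ => (0 : ℝ)) (by simpa using h4)
  have h6 : σ 0 = 0 := by
    by_contra n
    simp [n] at h5
  rw [if_pos h6] at h5
  obtain ⟨H, m, hH⟩ := h1 σ σ.injective h6
  refine ⟨H, m, fun h hh => ?_⟩
  obtain ⟨i, hi⟩ := hH h hh
  rw [sp_eq p hk hf x hi, e]
  refine lt_of_lt_of_le ?_ (single_le_sum (f := fun τ : Equiv.Perm V => if τ i = σ i then w τ else 0)
    (fun τ _ => by split_ifs; exacts [w0 τ, le_rfl]) (mem_univ σ))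
  rwa [if_pos rfl]

/-- the natural symmetric group -/
theorem sf_sym {ι : Type} [Finite ι] (L : Subgroup G) (π : L →* Equiv.Perm ι) (H : ι → Subgroup G)
    (hπ : Function.Surjective π) (h1 : ∀ i, H i ∈ F.s)
    (h2 : ∀ i g, g ∈ H i ↔ ∃ h : g ∈ L, π ⟨g, h⟩ i = i) (h3 : ∀ U ∈ F.s, ∃ i, H i ≤ U) : F.SF := by
  intro f hf h0 x hx
  have := Fintype.ofFinite ι
  have key : ∃ a : ι → ι → ℝ, ∀ l : L, f (x * l) = ∑ i, a i (π l i) := by
    refine sp_ind (P := fun f => ∃ a : ι → ι → ℝ, ∀ l : L, f (x * l) = ∑ i, a i (π l i))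
      (fun U m g => ?_) ⟨0, by simp⟩
      (fun a b ⟨p, p'⟩ ⟨q, q'⟩ => ⟨p + q, fun l => by simp [sum_add_distrib, p', q']⟩)
      (fun c a ⟨p, p'⟩ => ⟨c • p, fun l => by simp [← mul_sum, p']⟩) hf
    obtain ⟨i, hi⟩ := h3 U m
    refine ⟨fun k j => if k = i then if ∃ l : L, π l i = j ∧ g⁻¹ * (x * l) ∈ U then 1 else 0 else 0,
      fun l => ?_⟩
    rw [sum_eq_single i (fun k _ n => if_neg n) (by simp), if_pos rfl]
    split_ifs with a
    · obtain ⟨l', a, b⟩ := a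
      refine ind_pos ?_
      have e : g⁻¹ * (x * l) = g⁻¹ * (x * l') * (l'⁻¹ * l : L) := by simp [mul_assoc]
      rw [e]
      refine U.mul_mem b (hi ((h2 i _).2 ⟨(l'⁻¹ * l).2, ?_⟩))
      change π (l'⁻¹ * l) i = i
      rw [map_mul, map_inv, Equiv.Perm.mul_apply, ← a]
      simp
    · exact ind_neg fun b => a ⟨l, rfl, b⟩
  obtain ⟨a, ha⟩ := key
  by_contra hn
  push Not at hn
  have hn' : ∀ i, ∃ l : L, π l i = i ∧ f (x * l) = 0 := fun i => by
    obtain ⟨h, b, c⟩ := hn (H i) (h1 i)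
    obtain ⟨d, e⟩ := (h2 i h).1 b
    exact ⟨⟨h, d⟩, e, le_antisymm c (h0 _)⟩
  choose l l1 l2 using hn'
  obtain ⟨i0, -⟩ := h3 ⊤ F.top
  have hc : (1 : ℝ) ≤ Fintype.card ι := by
    exact_mod_cast Fintype.card_pos_iff.2 ⟨i0⟩
  obtain ⟨w, w0, e⟩ := birk
    (fun i j => (∑ k, if π (l k) i = j then (1 : ℝ) else 0) - if i = j then 1 else 0)
    (fun i j => by
      rw [sub_nonneg]
      split_ifs with b
      · subst b
        refine le_trans ?_ (single_le_sum (f := fun k => if π (l k) i = i then (1 : ℝ) else 0)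
          (fun k _ => by split_ifs <;> norm_num) (mem_univ i))
        simp [l1]
      · exact sum_nonneg fun k _ => by split_ifs <;> norm_num)
    (Fintype.card ι - 1) (by linarith)
    (fun i => by rw [sum_sub_distrib, sum_comm]; simp)
    (fun j => by
      rw [sum_sub_distrib, sum_comm]
      simp [← Equiv.eq_symm_apply])
  have e1 : ∑ i, ∑ j, a i j * ((∑ k, if π (l k) i = j then (1 : ℝ) else 0) - if i = j then 1 else 0)
      = - f x := by
    have b1 := ha 1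
    have b2 : ∑ k, ∑ i, a i (π (l k) i) = 0 := sum_eq_zero fun k _ => by rw [← ha, l2]
    simp only [mul_sub, sum_sub_distrib, mul_sum]
    rw [sum_comm] at b2
    have b3 : ∀ i, ∑ j, ∑ k, a i j * (if π (l k) i = j then (1 : ℝ) else 0) = ∑ k, a i (π (l k) i) :=
      fun i => by rw [sum_comm]; simp
    simp only [b3, b2]
    simp at b1
    simp [b1]
  have e2 : 0 ≤ ∑ i, ∑ j, a i j * ∑ σ, if σ i = j then w σ else 0 := by
    have b3 : ∀ i, ∑ j, a i j * (∑ σ, if σ i = j then w σ else 0) = ∑ σ, w σ * a i (σ i) :=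
      fun i => by
        simp only [mul_sum]
        rw [sum_comm]
        simp [mul_comm]
    simp only [b3]
    rw [sum_comm]
    refine sum_nonneg fun σ _ => ?_
    obtain ⟨k, rfl⟩ := hπ σ
    rw [← mul_sum, ← ha]
    exact mul_nonneg (w0 _) (h0 _)
  simp only [← e] at e2
  linarith

end Fam

theorem sSound : S_sound := by
  intro G _ _ F
  have hk : ∀ U ∈ F.s, (MonoidHom.id G).ker ≤ U := fun U _ x hx => by
    rw [show x = 1 from hx]; exact U.one_mem
  refine ⟨fun h f _ _ x hx => ⟨⊥, h, fun k a => by rwa [Subgroup.mem_bot.1 a, mul_one]⟩, ?_, ?_,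
    fun ι _ L π H a b c d => Fam.sf_sym L π H a b c d⟩
  · rintro ⟨-, T, -, h1, h2, h3⟩
    refine Fam.sf_dih _ hk T (fun s hs => ⟨(h1 s hs).2.1, _, (h1 s hs).2.2, ?_⟩) h2 h3
    rintro _ ⟨n, rfl⟩
    have e : s ^ (2 : ℤ) = 1 := by rw [zpow_two, (h1 s hs).2.1]
    rcases Int.even_or_odd' n with ⟨k, rfl | rfl⟩
    · left; simp only [MonoidHom.id_apply]; rw [zpow_mul, e, one_zpow]
    · right; simp only [MonoidHom.id_apply]; rw [zpow_add, zpow_mul, e, one_zpow, one_mul, zpow_one]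
  · rintro ⟨r, c, h1, h2, h3, -, h4, h5⟩
    refine Fam.sf_b4 Fam.v4_add _ hk r c h1 h2 h3 (fun σ a b => ?_) h5
    obtain ⟨H, m, hH⟩ := h4 σ a b
    exact ⟨H, m, fun x hx => (hH x).1 hx⟩

end Pool.Agent.Lib.MP_3cc314_lc.Cg
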