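import Pool.Agent.Lib.MP_3cc314_lc.CgRS

set_option autoImplicit false

namespace Pool.Agent.Lib.MP_3cc314_lc.Cg
open scoped Classical

variable {G : Type} [Group G]

theorem ex_least {α : Type} (p : α → Prop) (c : α → ℕ) (h : ∃ a, p a) :
    ∃ a, p a ∧ ∀ b, p b → c a ≤ c b := by
  have ex : ∃ n, ∃ a, p a ∧ c a = n := h.elim fun a ha => ⟨_, a, ha, rfl⟩
  obtain ⟨a, r, e⟩ := Nat.find_spec ex
  exact ⟨a, r, fun b hb => e ▸ Nat.find_min' ex ⟨b, hb, rfl⟩⟩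

/-- the product set -/
def gX (H M : Subgroup G) : Set G := {x | ∃ h ∈ H, ∃ m ∈ M, h * m = x}

/-- number of elements outside the product set -/
noncomputable def gout (H M P : Subgroup G) : ℕ := ((P : Set G) \ gX H M).ncard

/-- indicator of a two sided translate -/
noncomputable def tz (h : G) (Q : Subgroup G) (m y : G) : ℤ := if h⁻¹ * y * m⁻¹ ∈ Q then 1 else 0

/-- indicator of a union of rows -/
noncomputable def rz (H M : Subgroup G) (S : G → Prop) (x : G) : ℤ :=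
  if ∃ h ∈ H, S h ∧ h⁻¹ * x ∈ M then 1 else 0

/-- indicator of a union of columns -/
noncomputable def cz (H M : Subgroup G) (S : G → Prop) (x : G) : ℤ :=
  if ∃ m ∈ M, S m ∧ x * m⁻¹ ∈ H then 1 else 0

section
variable {H M : Subgroup G}

theorem gX_mk {h m : G} (a : h ∈ H) (b : m ∈ M) : h * m ∈ gX H M := ⟨h, a, m, b, rfl⟩

theorem gX_left {h : G} (a : h ∈ H) : h ∈ gX H M := ⟨h, a, 1, M.one_mem, mul_one _⟩

theorem gX_right {m : G} (b : m ∈ M) : m ∈ gX H M := ⟨1, H.one_mem, m, b, one_mul _⟩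

theorem gX_inv {x : G} : x⁻¹ ∈ gX M H ↔ x ∈ gX H M :=
  ⟨fun ⟨m, a, h, b, e⟩ => ⟨h⁻¹, H.inv_mem b, m⁻¹, M.inv_mem a, by rw [← mul_inv_rev, e, inv_inv]⟩,
    fun ⟨h, a, m, b, e⟩ => ⟨m⁻¹, M.inv_mem b, h⁻¹, H.inv_mem a, by rw [← mul_inv_rev, e]⟩⟩

theorem gX_tr {h m x : G} (a : h ∈ H) (b : m ∈ M) : h * x * m ∈ gX H M ↔ x ∈ gX H M := by
  have k : ∀ {h m x : G}, h ∈ H → m ∈ M → x ∈ gX H M → h * x * m ∈ gX H M := by
    rintro h m _ a b ⟨h', c, m', d, rfl⟩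
    exact ⟨h * h', H.mul_mem a c, m' * m, M.mul_mem d b, by group⟩
  refine ⟨fun c => ?_, k a b⟩
  have := k (H.inv_mem a) (M.inv_mem b) c
  rwa [show h⁻¹ * (h * x * m) * m⁻¹ = x by group] at this

theorem gX_l {h x : G} (a : h ∈ H) : h * x ∈ gX H M ↔ x ∈ gX H M := by
  rw [← gX_tr (x := x) a M.one_mem, mul_one]

theorem gX_r {m x : G} (b : m ∈ M) : x * m ∈ gX H M ↔ x ∈ gX H M := by
  rw [← gX_tr (x := x) H.one_mem b, one_mul]

theorem ins_symm {P : Subgroup G} (h : (P : Set G) ⊆ gX H M) : (P : Set G) ⊆ gX M H :=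
  fun _ hx => gX_inv.1 (h (P.inv_mem hx))

theorem rz_out {S : G → Prop} {x : G} (n : x ∉ gX H M) : rz H M S x = 0 :=
  if_neg fun ⟨h, a, _, b⟩ => n ⟨h, a, _, b, by group⟩

theorem cz_out {S : G → Prop} {x : G} (n : x ∉ gX H M) : cz H M S x = 0 :=
  if_neg fun ⟨m, a, _, b⟩ => n ⟨_, b, m, a, by group⟩

theorem bot_eq (e : H ⊓ M = ⊥) {x : G} (a : x ∈ H) (b : x ∈ M) : x = 1 :=
  Subgroup.mem_bot.1 (e ▸ (⟨a, b⟩ : x ∈ H ⊓ M))

theorem rz_in (e : H ⊓ M = ⊥) (S : G → Prop) {h m : G} (a : h ∈ H) (b : m ∈ M) :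
    rz H M S (h * m) = if S h then 1 else 0 := by
  refine if_congr ⟨fun ⟨k, c, s, d⟩ => ?_, fun s => ⟨h, a, s, by simpa using b⟩⟩ rfl rfl
  rw [← mul_assoc, M.mul_mem_cancel_right b] at d
  rwa [← inv_mul_eq_one.1 (bot_eq e (H.mul_mem (H.inv_mem c) a) d)]

theorem cz_in (e : H ⊓ M = ⊥) (S : G → Prop) {h m : G} (a : h ∈ H) (b : m ∈ M) :
    cz H M S (h * m) = if S m then 1 else 0 := by
  refine if_congr ⟨fun ⟨k, c, s, d⟩ => ?_, fun s => ⟨m, b, s, by simpa using a⟩⟩ rfl rfl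
  rw [mul_assoc, H.mul_mem_cancel_left a] at d
  rwa [mul_inv_eq_one.1 (bot_eq e d (M.mul_mem b (M.inv_mem c)))]

theorem card_gX (e : H ⊓ M = ⊥) : (gX H M).ncard = Nat.card H * Nat.card M := by
  rw [← Nat.card_prod, ← Nat.card_coe_set_eq]
  refine (Nat.card_congr (Equiv.ofBijective
    (fun p : H × M => (⟨p.1.1 * p.2.1, gX_mk p.1.2 p.2.2⟩ : gX H M)) ⟨?_, ?_⟩)).symm
  · rintro ⟨⟨h, a⟩, ⟨m, b⟩⟩ ⟨⟨h', a'⟩, ⟨m', b'⟩⟩ k
    have k : h * m = h' * m' := congrArg Subtype.val k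
    have k2 : h'⁻¹ * h = m' * m⁻¹ := by
      calc h'⁻¹ * h = h'⁻¹ * (h * m) * m⁻¹ := by group
        _ = _ := by rw [k]; group
    obtain rfl := inv_mul_eq_one.1 (bot_eq e (H.mul_mem (H.inv_mem a') a)
      (k2 ▸ M.mul_mem b' (M.inv_mem b)))
    obtain rfl := mul_left_cancel k
    rfl
  · rintro ⟨_, h, a, m, b, rfl⟩
    exact ⟨(⟨h, a⟩, ⟨m, b⟩), rfl⟩

theorem card_tr {h m : G} (a : h ∈ H) (b : m ∈ M) (Q : Subgroup G) :
    {y | h⁻¹ * y * m⁻¹ ∈ Q ∧ y ∉ gX H M}.ncard = gout H M Q := by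
  refine Set.ncard_congr (fun y _ => h⁻¹ * y * m⁻¹) (fun y c => ?_)
    (fun q q' _ _ e => by simpa using e) fun q c => ?_
  · exact ⟨c.1, fun d => c.2 ((gX_tr (H.inv_mem a) (M.inv_mem b)).1 d)⟩
  · exact ⟨h * q * m, ⟨by simpa [mul_assoc] using c.1, fun d => c.2 ((gX_tr a b).1 d)⟩, by group⟩

theorem fill [Finite G] {P Z : Subgroup G} {y : G} (yP : y ∈ P) (yX : y ∉ gX H M)
    (h : ∀ z ∈ P, z ∉ gX H M → z ∈ Z) : (∀ t ∈ H, t ∈ P → t ∈ Z) ∧ ∀ t ∈ M, t ∈ P → t ∈ Z :=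
  ⟨fun _ a b => (Z.mul_mem_cancel_right (h y yP yX)).1 (h _ (P.mul_mem b yP) (mt (gX_l a).1 yX)),
    fun _ a b => (Z.mul_mem_cancel_left (h y yP yX)).1 (h _ (P.mul_mem yP b) (mt (gX_r a).1 yX))⟩

end

namespace Fam
variable {F : Fam G} {H M : Subgroup G}

theorem Sp.inv {f : G → ℤ} (a : F.Sp f) : F.Sp fun x => f x⁻¹ := by
  have : ∀ f ∈ F.sp, (fun x => f x⁻¹) ∈ F.sp := fun f hf => by
    induction hf using Submodule.span_induction with
    | mem f a =>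
      obtain ⟨U, m, g, rfl⟩ := a
      have : (fun x => ind g U x⁻¹) = ind g⁻¹ (cj g U) := funext fun x => by
        unfold ind
        refine if_congr ?_ rfl rfl
        rw [mem_cj, ← U.inv_mem_iff]
        simp
      rw [this]
      exact ind_mem (F.conj g m) _
    | zero => exact zero_mem _
    | add a b _ _ ha hb => exact add_mem ha hb
    | smul c a _ ha => exact Submodule.smul_mem _ c ha
  exact this _ a

theorem Sp.of_linv [Finite G] {U : Subgroup G} (m : U ∈ F.s) {f : G → ℤ}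
    (h : ∀ x, ∀ u ∈ U, f (u * x) = f x) : F.Sp f :=
  (Sp.of_inv m (f := fun x => f x⁻¹) fun x u hu => by
    rw [mul_inv_rev, h _ _ (U.inv_mem hu)]).inv.congr fun x => by rw [inv_inv]

theorem Sp.rz [Finite G] (m : M ∈ F.s) (S : G → Prop) : F.Sp (rz H M S) :=
  Sp.of_inv m fun x u hu => by simp only [Cg.rz, ← mul_assoc, M.mul_mem_cancel_right hu]

theorem Sp.cz [Finite G] (m : H ∈ F.s) (S : G → Prop) : F.Sp (cz H M S) :=
  Sp.of_linv m fun x u hu => by simp only [Cg.cz, mul_assoc, H.mul_mem_cancel_left hu]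

theorem tz_eq (h m : G) (Q : Subgroup G) (y : G) : tz h (cj m Q) m y = iz (h * m) Q y := by
  unfold tz iz
  refine if_congr ?_ rfl rfl
  rw [mem_cj]
  simp [mul_assoc]

theorem Sp.tz {Q : Subgroup G} (a : Q ∈ F.s) (h m : G) : F.Sp (tz h Q m) :=
  (Sp.iz (F.conj m⁻¹ a) (h * m)).congr fun y => by rw [← tz_eq, cj_cj_inv]

theorem SF.cos2 [Finite G] (hS : F.SF) {f : G → ℤ} (hf : F.Sp f) (h0 : ∀ x, 0 ≤ f x) {h m : G}
    (hx : 0 < f (h * m)) : ∃ Q, F.Mem Q ∧ (∀ q ∈ Q, 0 < f (h * q * m)) ∧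
      F.Sp (fun y => f y - tz h Q m y) ∧ ∀ y, 0 ≤ f y - tz h Q m y := by
  obtain ⟨W, a, b, c, d⟩ := hS.cos hf h0 hx
  refine ⟨cj m W, a.cj m, fun q hq => ?_, c.congr fun y => by rw [tz_eq],
    fun y => by rw [tz_eq]; exact d y⟩
  have := b _ (mem_cj.1 hq)
  rwa [show h * m * (m⁻¹ * q * m) = h * q * m by group] at this

theorem Reg.symm (r : F.Reg H M) : F.Reg M H := ⟨r.2.1, r.1, by rw [inf_comm, r.2.2]⟩

theorem LReg.symm (r : F.LReg H M) : F.LReg M H :=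
  ⟨r.1.symm, fun H' M' a => by rw [mul_comm]; exact r.2 H' M' a⟩

/-- the function `f2` -/
theorem Reg.star [Finite G] (hS : F.SF) (r : F.Reg H M) {P1 P2 : Subgroup G} (m1 : F.Mem P1)
    (m2 : F.Mem P2) : ∃ Z, F.Mem Z ∧ (∀ h ∈ H, h ∈ Z → h ∈ P1 ∧ h ∈ P2) ∧
      ((∀ m ∈ M, m ∈ Z → m ∈ P1) ∨ ∀ m ∈ M, m ∈ Z → m ∈ P2) ∧
      ∀ z ∈ Z, z ∉ gX H M → z ∈ P1 ∨ z ∈ P2 := by
  let f : G → ℤ := fun x => iz 1 P1 x + iz 1 P2 x + rz H M (fun h => h ∉ P1 ∧ h ∉ P2) x -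
    cz H M (fun m => m ∈ P1 ∧ m ∈ P2) x
  have hf : F.Sp f := (((Sp.iz m1.1 1).add (Sp.iz m2.1 1)).add (Sp.rz r.2.1.1 _)).sub (Sp.cz r.1.1 _)
  have fi : ∀ h ∈ H, ∀ m ∈ M, f (h * m) = (if h * m ∈ P1 then 1 else 0) + (if h * m ∈ P2 then 1 else 0)
      + (if h ∉ P1 ∧ h ∉ P2 then 1 else 0) - if m ∈ P1 ∧ m ∈ P2 then 1 else 0 := fun h a m b => by
    simp only [f, iz_one, rz_in r.2.2 _ a b, cz_in r.2.2 _ a b]
    congr!
  have fo : ∀ x, x ∉ gX H M → f x = (if x ∈ P1 then 1 else 0) + if x ∈ P2 then 1 else 0 :=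
    fun x n => by simp only [f, iz_one, rz_out n, cz_out n, add_zero, sub_zero]
  have h0 : ∀ x, 0 ≤ f x := fun x => by
    by_cases n : x ∈ gX H M
    · obtain ⟨h, a, m, b, rfl⟩ := n
      rw [fi h a m b]
      by_cases c : m ∈ P1 ∧ m ∈ P2
      · rw [P1.mul_mem_cancel_right c.1, P2.mul_mem_cancel_right c.2]
        split_ifs <;> simp_all
      · split_ifs <;> simp
    · rw [fo x n]; split_ifs <;> simp
  obtain ⟨Z, a, b, -⟩ := hS.cos hf h0 (x := 1) (by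
    have := fi 1 H.one_mem 1 M.one_mem
    simp only [one_mul, one_mem] at this
    rw [this]; simp)
  simp only [one_mul] at b
  refine ⟨Z, a, fun h c d => ?_, ?_, fun z c n => ?_⟩
  · have := b h d
    rw [← mul_one h, fi h c 1 M.one_mem, mul_one] at this
    by_contra n
    split_ifs at this <;> simp_all
  · by_contra n
    rw [not_or] at n
    refine (two_cover (M := M ⊓ Z) (A := P1) (B := P2) (y := 1) (fun m c => ?_)
      (fun l => n.1 fun m p q => l ⟨p, q⟩) fun l => n.2 fun m p q => l ⟨p, q⟩).1 P2.one_mem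
    have := b m c.2
    rw [← one_mul m, fi 1 H.one_mem m c.1, one_mul] at this
    by_contra k
    split_ifs at this <;> simp_all
  · have := b z c
    rw [fo z n] at this
    by_contra k
    split_ifs at this <;> simp_all

theorem Reg.star' [Finite G] (hS : F.SF) (r : F.Reg H M) {P1 P2 : Subgroup G} (m1 : F.Mem P1)
    (m2 : F.Mem P2) : ∃ Z, F.Mem Z ∧ (∀ m ∈ M, m ∈ Z → m ∈ P1 ∧ m ∈ P2) ∧
      ((∀ h ∈ H, h ∈ Z → h ∈ P1) ∨ ∀ h ∈ H, h ∈ Z → h ∈ P2) ∧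
      ∀ z ∈ Z, z ∉ gX H M → z ∈ P1 ∨ z ∈ P2 := by
  obtain ⟨Z, a, b, c, d⟩ := r.symm.star hS m1 m2
  exact ⟨Z, a, b, c, fun z p q => by simpa using d z⁻¹ (Z.inv_mem p) (mt gX_inv.1 q)⟩

end Fam

/-- the function `f(P)` -/
noncomputable def f1 (H M P : Subgroup G) (x : G) : ℤ :=
  iz 1 P x + rz H M (fun h => h ∉ P) x - cz H M (fun m => m ∈ P) x

section
variable {H M P : Subgroup G}

theorem f1_out {x : G} (n : x ∉ gX H M) : f1 H M P x = if x ∈ P then 1 else 0 := by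
  simp only [f1, iz_one, rz_out n, cz_out n, add_zero, sub_zero]

theorem f1_in (e : H ⊓ M = ⊥) {h m : G} (a : h ∈ H) (b : m ∈ M) :
    f1 H M P (h * m) = if h ∉ P ∧ m ∉ P then (if h * m ∈ P then 2 else 1) else 0 := by
  simp only [f1, iz_one, rz_in e _ a b, cz_in e _ a b]
  by_cases c : m ∈ P
  · rw [P.mul_mem_cancel_right c]; split_ifs <;> simp_all
  · by_cases d : h ∈ P
    · rw [P.mul_mem_cancel_left d]; simp [c, d]
    · split_ifs <;> simp_all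

theorem f1_nonneg (e : H ⊓ M = ⊥) (x : G) : 0 ≤ f1 H M P x := by
  by_cases n : x ∈ gX H M
  · obtain ⟨h, a, m, b, rfl⟩ := n
    rw [f1_in e a b]; split_ifs <;> simp
  · rw [f1_out n]; split_ifs <;> simp

theorem tz_nonneg (h m y : G) : 0 ≤ tz h P m y := by unfold tz; split_ifs <;> simp

end

namespace Fam
variable {F : Fam G} {H M : Subgroup G}

theorem Reg.sp1 [Finite G] (r : F.Reg H M) {P : Subgroup G} (m : F.Mem P) : F.Sp (f1 H M P) :=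
  ((Sp.iz m.1 1).add (Sp.rz r.2.1.1 _)).sub (Sp.cz r.1.1 _)

/-- a coset below `f(P)` -/
theorem Reg.key [Finite G] (hS : F.SF) (r : F.Reg H M) {P : Subgroup G} {g : G → ℤ} (hg : F.Sp g)
    (h0 : ∀ x, 0 ≤ g x) (l : ∀ x, g x ≤ f1 H M P x) {h m : G} (a : h ∈ H) (b : m ∈ M)
    (p : 0 < g (h * m)) : ∃ Q, F.Mem Q ∧ h ∉ Q ∧ m ∉ Q ∧ (∀ y, h⁻¹ * y * m⁻¹ ∈ Q → 0 < g y) ∧
      F.Sp (fun y => g y - tz h Q m y) ∧ ∀ y, 0 ≤ g y - tz h Q m y := by
  obtain ⟨Q, c, d, e⟩ := hS.cos2 hg h0 p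
  have d' : ∀ y, h⁻¹ * y * m⁻¹ ∈ Q → 0 < g y := fun y k => by simpa [mul_assoc] using d _ k
  refine ⟨Q, c, fun k => ?_, fun k => ?_, d', e⟩
  · have := (d' m (by simpa using k)).trans_le (l _)
    rw [← one_mul m, f1_in r.2.2 H.one_mem b] at this
    simp at this
  · have := (d' h (by simpa using k)).trans_le (l _)
    rw [← mul_one h, f1_in r.2.2 a M.one_mem] at this
    simp at this

end Fam

end Pool.Agent.Lib.MP_3cc314_lc.Cg
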