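import Pool.Agent.Lib.MP_3cc314_lc.CgG1
import Pool.Agent.Lib.MP_3cc314_lc.CgRp1

set_option autoImplicit false

namespace Pool.Agent.Lib.MP_3cc314_lc.Cg
open scoped Classical

variable {G : Type} [Group G]

/-- left stabiliser of a set; the rotations of a set of reflections -/
def rot (T : Set G) : Subgroup G where
  carrier := {x | ∀ y, x * y ∈ T ↔ y ∈ T}
  one_mem' := fun y => by rw [one_mul]
  mul_mem' := fun {a b} ha hb y => by rw [mul_assoc, ha, hb]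
  inv_mem' := fun {a} ha y => by rw [← ha, mul_inv_cancel_left]

theorem rot_mul {T : Set G} {a y : G} (h : a ∈ rot T) : a * y ∈ T ↔ y ∈ T := h y

namespace Fam
variable {F : Fam G}

/-- the traces on `L` form a dihedral atom with set of reflections `T` -/
structure DT (F : Fam G) (L : Subgroup G) (T : Set G) : Prop where
  ex : ∀ t ∈ T, t ∈ L ∧ t ≠ 1 ∧ t * t = 1 ∧ ∃ W, F.Mem W ∧ ∀ x ∈ W, x ∈ L → x = 1 ∨ x = t
  cov : ∀ U ∈ F.s, ∃ t ∈ T, t ∈ U
  tri : ∀ s ∈ T, ∀ t ∈ T, ∀ u ∈ T, s * t * u ∈ T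

theorem dihT_iff {L : Subgroup G} : F.DihT L ↔ ∃ T, F.DT L T :=
  ⟨fun ⟨T, a, b, c⟩ => ⟨T, a, b, c⟩, fun ⟨T, a, b, c⟩ => ⟨T, a, b, c⟩⟩

namespace DT
variable {L L' : Subgroup G} {T T' : Set G} (d : F.DT L T) {s t u a b : G}
include d

theorem le (h : t ∈ T) : t ∈ L := (d.ex t h).1

theorem ne (h : t ∈ T) : t ≠ 1 := (d.ex t h).2.1

theorem sq (h : t ∈ T) : t * t = 1 := (d.ex t h).2.2.1

theorem inv (h : t ∈ T) : t⁻¹ = t := inv_eq_of_mul_eq_one_right (d.sq h)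

theorem can (h : t ∈ T) (x : G) : x * t * t = x := by rw [mul_assoc, d.sq h, mul_one]

theorem can' (h : t ∈ T) (x : G) : t * (t * x) = x := by rw [← mul_assoc, d.sq h, one_mul]

theorem one_not : (1 : G) ∉ T := fun h => d.ne h rfl

theorem some : ∃ t, t ∈ T := (d.cov ⊤ F.top).imp fun _ h => h.1

/-- a member with exact trace -/
theorem exm (h : t ∈ T) : ∃ W, F.Mem W ∧ t ∈ W ∧ ∀ x ∈ W, x ∈ L → x = 1 ∨ x = t := by
  obtain ⟨W, m, k⟩ := (d.ex t h).2.2.2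
  obtain ⟨s, a, b⟩ := d.cov W m.1
  exact ⟨W, m, (k s b (d.le a)).resolve_left (d.ne a) ▸ b, k⟩

theorem mem_of {W : Subgroup G} (m : W ∈ F.s) (k : ∀ x ∈ W, x ∈ L → x = 1 ∨ x = t) :
    t ∈ T ∧ t ∈ W := by
  obtain ⟨s, a, b⟩ := d.cov W m
  exact (k s b (d.le a)).resolve_left (d.ne a) ▸ ⟨a, b⟩

theorem rev (hs : s ∈ T) (ht : t ∈ T) (hu : u ∈ T) : s * t * u = u * t * s := by
  rw [← d.inv (d.tri s hs t ht u hu), mul_inv_rev, mul_inv_rev, d.inv hs, d.inv ht, d.inv hu,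
    mul_assoc]

theorem mul_rot (hs : s ∈ T) (ht : t ∈ T) : s * t ∈ rot T := fun y =>
  ⟨fun h => by simpa [← mul_assoc, d.can hs, d.sq ht] using d.tri t ht s hs _ h,
    d.tri s hs t ht y⟩

theorem rot_not (ha : a ∈ rot T) : a ∉ T := fun h =>
  d.one_not ((rot_mul ha).1 (by rwa [mul_one]))

theorem rot_iff (ht : t ∈ T) : a ∈ rot T ↔ a * t ∈ T :=
  ⟨fun h => (rot_mul h).2 ht, fun h => d.can ht a ▸ d.mul_rot h ht⟩

theorem rot_le : rot T ≤ L := fun a h => by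
  obtain ⟨t, ht⟩ := d.some
  exact (L.mul_mem_cancel_right (d.le ht)).1 (d.le ((rot_mul h).2 ht))

/-- reflections invert the rotations -/
theorem conj (ht : t ∈ T) (ha : a ∈ rot T) : t * a = a⁻¹ * t := by
  have := d.inv ((rot_mul ha).2 ht)
  rw [mul_inv_rev, d.inv ht] at this
  rw [eq_inv_mul_iff_mul_eq, ← mul_assoc, ← this, inv_mul_cancel_right]

theorem mul_mem (ht : t ∈ T) (ha : a ∈ rot T) : t * a ∈ T := by
  rw [d.conj ht ha]; exact (rot_mul ((rot T).inv_mem ha)).2 ht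

theorem comm (ha : a ∈ rot T) (hb : b ∈ rot T) : a * b = b * a := by
  obtain ⟨t, ht⟩ := d.some
  have := congrArg (· * t) (d.rev ((rot_mul ha).2 ht) ht ((rot_mul hb).2 ht))
  simpa only [← mul_assoc, d.can ht] using this

theorem mem_clos {x : G} : x ∈ Subgroup.closure T ↔ x ∈ rot T ∨ x ∈ T := by
  refine ⟨fun h => ?_, fun h => h.elim (fun h => ?_) fun h => Subgroup.subset_closure h⟩
  · induction h using Subgroup.closure_induction with
    | mem x h => exact .inr h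
    | one => exact .inl (one_mem _)
    | mul x y _ _ p q =>
      rcases p with p | p <;> rcases q with q | q
      exacts [.inl ((rot T).mul_mem p q), .inr ((rot_mul p).2 q), .inr (d.mul_mem p q), .inl (d.mul_rot p q)]
    | inv x _ p => exact p.imp (rot T).inv_mem fun p => (d.inv p).symm ▸ p
  · obtain ⟨t, ht⟩ := d.some
    rw [← d.can ht x]
    exact Subgroup.mul_mem _ (Subgroup.subset_closure ((rot_mul h).2 ht)) (Subgroup.subset_closure ht)

theorem clos_le : Subgroup.closure T ≤ L := (Subgroup.closure_le _).2 fun _ h => d.le h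

/-- at least three reflections -/
theorem three [Finite G] (r : F.Rd) {x y : G} (hx : x ≠ 1) (hy : y ≠ 1) :
    ∃ v ∈ T, v ≠ x ∧ v ≠ y := by
  obtain ⟨M, m, a, b⟩ := r.ex hx hy
  obtain ⟨v, c, e⟩ := d.cov M m.1
  exact ⟨v, c, fun q => a (q ▸ e), fun q => b (q ▸ e)⟩

/-- the set of reflections is determined by any group that contains it -/
theorem uniq (d' : F.DT L' T') (h : T ⊆ L') : T' = T := by
  have k : T' ⊆ T := fun t ht => by
    obtain ⟨W, m, -, e⟩ := d'.exm ht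
    obtain ⟨s, a, b⟩ := d.cov W m.1
    exact (e s b (h a)).resolve_left (d.ne a) ▸ a
  refine k.antisymm fun t ht => ?_
  obtain ⟨W, m, -, e⟩ := d.exm ht
  obtain ⟨s, a, b⟩ := d'.cov W m.1
  exact (e s b (d.le (k a))).resolve_left (d'.ne a) ▸ a

theorem mono (h : T ⊆ L') (l : L' ≤ L) : F.DT L' T :=
  ⟨fun t ht => ⟨h ht, d.ne ht, d.sq ht, (d.ex t ht).2.2.2.imp fun _ k =>
    ⟨k.1, fun x a b => k.2 x a (l b)⟩⟩, d.cov, d.tri⟩

/-- the reflections are permuted by `L` -/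
theorem cjm {g : G} (hg : g ∈ L) (ht : t ∈ T) : g * t * g⁻¹ ∈ T := by
  obtain ⟨W, m, -, e⟩ := d.exm ht
  refine (d.mem_of (m.cj g).1 fun x a b => ?_).1
  refine (e _ (mem_cj.1 a) (L.mul_mem (L.mul_mem (L.inv_mem hg) b) hg)).imp (fun q => ?_) fun q => ?_
  · calc x = g * (g⁻¹ * x * g) * g⁻¹ := by group
      _ = 1 := by rw [q]; group
  · rw [← q]; group

end DT

/-- the orbit closure -/
def clo (F : Fam G) [Finite G] (X : Subgroup G) : Subgroup G :=
  finSub {g | ∀ H ∈ F.s, ∃ l ∈ X, l⁻¹ * g ∈ H} (fun H _ => ⟨1, X.one_mem, by simp⟩)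
    fun a ha b hb H m => by
      obtain ⟨l, hl, e⟩ := hb H m
      obtain ⟨l', hl', e'⟩ := ha _ (F.conj l m)
      refine ⟨l' * l, X.mul_mem hl' hl, ?_⟩
      have : (l' * l)⁻¹ * (a * b) = l⁻¹ * (l'⁻¹ * a) * l * (l⁻¹ * b) := by group
      rw [this]
      exact H.mul_mem (mem_cj.1 e') e

theorem mem_clo [Finite G] {X : Subgroup G} {g : G} :
    g ∈ F.clo X ↔ ∀ H ∈ F.s, ∃ l ∈ X, l⁻¹ * g ∈ H := Iff.rfl

theorem le_clo [Finite G] (X : Subgroup G) : X ≤ F.clo X := fun g hg H _ => ⟨g, hg, by simp⟩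

theorem cl_clo [Finite G] (X : Subgroup G) : F.Cl (F.clo X) := fun g hg H m => by
  obtain ⟨l, a, b⟩ := hg H m
  obtain ⟨k, c, e⟩ := a H m
  refine ⟨k, c, ?_⟩
  rw [show k⁻¹ * g = k⁻¹ * l * (l⁻¹ * g) by group]
  exact H.mul_mem e b

theorem Cl.clo_le [Finite G] {X L : Subgroup G} (h : F.Cl L) (l : X ≤ L) : F.clo X ≤ L :=
  fun g hg => h g fun H m => (hg H m).imp fun _ a => ⟨l a.1, a.2⟩

/-- a proper closed subgroup over a set of reflections -/
theorem Big.cl [Finite G] (b : F.Big) {L L' : Subgroup G} {T : Set G} (d : F.DT L T)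
    (hL : F.Cl L') (ne : L' ≠ ⊤) (h : T ⊆ L') : F.DT L' T ∨ F.B4T L' := by
  rcases b.sub hL ne with ⟨W, m, e⟩ | a | a
  · obtain ⟨t, ht, k⟩ := d.cov W m.1
    exact (d.ne ht (bot_eq e k (h ht))).elim
  · obtain ⟨T', d'⟩ := dihT_iff.1 a
    exact .inl (d.uniq d' h ▸ d')
  · exact .inr a

/-- without regular pairs every member is of dihedral or of sporadic type -/
theorem Big.typ [Finite G] (b : F.Big) (hA : ∀ H M, ¬F.Reg H M) {K : Subgroup G} (m : F.Mem K)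
    (ne : K ≠ ⊤) : (∃ T, F.DT K T) ∨ F.B4T K :=
  ((b.sub (cl_of_mem m.1) ne).resolve_left fun ⟨W, a, e⟩ => hA W K ⟨a, m, e⟩).imp_left dihT_iff.1

theorem Big.ne_top [Finite G] (b : F.Big) {K : Subgroup G} (m : F.Mem K) : K ≠ ⊤ := fun e => by
  obtain ⟨x, -, hx⟩ := m.ex_ne b.nb
  exact hx (b.fa x fun H h => by rw [m.eq h (e ▸ le_top), e]; trivial)

end Fam

end Pool.Agent.Lib.MP_3cc314_lc.Cg
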