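import Mathlib

set_option autoImplicit false

namespace Pool.Agent.Lib.MP_3cc314_lc.Cg
open Finset
open scoped Classical

variable {G G' : Type} [Group G] [Group G']

/-- the conjugate `g H g⁻¹` -/
def cj (g : G) (H : Subgroup G) : Subgroup G := H.comap (MulAut.conj g⁻¹).toMonoidHom

theorem mem_cj {g x : G} {H : Subgroup G} : x ∈ cj g H ↔ g⁻¹ * x * g ∈ H := by
  simp [cj]

theorem cj_one (H : Subgroup G) : cj 1 H = H := by
  ext x; simp [mem_cj]

theorem cj_mul (g h : G) (H : Subgroup G) : cj (g * h) H = cj g (cj h H) := by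
  ext x; simp [mem_cj, mul_assoc]

theorem cj_inv_cj (g : G) (H : Subgroup G) : cj g⁻¹ (cj g H) = H := by
  rw [← cj_mul, inv_mul_cancel, cj_one]

theorem cj_cj_inv (g : G) (H : Subgroup G) : cj g (cj g⁻¹ H) = H := by
  rw [← cj_mul, mul_inv_cancel, cj_one]

theorem cj_mono (g : G) {H K : Subgroup G} (h : H ≤ K) : cj g H ≤ cj g K :=
  Subgroup.comap_mono h

theorem cj_le_cj {g : G} {H K : Subgroup G} : cj g H ≤ cj g K ↔ H ≤ K :=
  ⟨fun h => by simpa [cj_inv_cj] using cj_mono g⁻¹ h, cj_mono g⟩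

theorem cj_le_iff {g : G} {H K : Subgroup G} : cj g H ≤ K ↔ H ≤ cj g⁻¹ K := by
  rw [← cj_le_cj (g := g⁻¹), cj_inv_cj]

theorem cj_inj (g : G) : Function.Injective (cj g : Subgroup G → Subgroup G) := fun H K h => by
  rw [← cj_inv_cj g H, h, cj_inv_cj]

theorem conj_mem_cj (g : G) {x : G} {H : Subgroup G} : g * x * g⁻¹ ∈ cj g H ↔ x ∈ H := by
  simp [mem_cj, mul_assoc]

theorem cj_of_mem {g : G} {H : Subgroup G} (h : g ∈ H) : cj g H = H := by
  ext x
  rw [mem_cj, H.mul_mem_cancel_right h, H.mul_mem_cancel_left (H.inv_mem h)]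

theorem cj_inf (g : G) (H K : Subgroup G) : cj g (H ⊓ K) = cj g H ⊓ cj g K := by
  ext x; simp [mem_cj]

theorem cj_bot (g : G) : cj g (⊥ : Subgroup G) = ⊥ := by
  ext x
  rw [mem_cj, Subgroup.mem_bot, Subgroup.mem_bot]
  constructor
  · intro h
    have : x = g * (g⁻¹ * x * g) * g⁻¹ := by group
    rw [this, h]; group
  · rintro rfl; group

theorem cj_top (g : G) : cj g (⊤ : Subgroup G) = ⊤ := by
  ext x; simp [mem_cj]

theorem cj_sup (g : G) (H K : Subgroup G) : cj g (H ⊔ K) = cj g H ⊔ cj g K := by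
  refine le_antisymm (cj_le_iff.2 (sup_le ?_ ?_)) (sup_le (cj_mono g le_sup_left) (cj_mono g le_sup_right))
  · exact cj_le_iff.1 le_sup_left
  · exact cj_le_iff.1 le_sup_right

theorem cj_eq_bot {g : G} {H : Subgroup G} : cj g H = ⊥ ↔ H = ⊥ :=
  ⟨fun h => by rw [← cj_inv_cj g H, h, cj_bot], fun h => by rw [h, cj_bot]⟩

theorem card_cj (g : G) (H : Subgroup G) : Nat.card (cj g H) = Nat.card H :=
  Nat.card_congr ⟨fun x => ⟨g⁻¹ * x.1 * g, mem_cj.1 x.2⟩, fun y => ⟨g * y.1 * g⁻¹, (conj_mem_cj g).2 y.2⟩,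
    fun x => Subtype.ext (by simp [mul_assoc]), fun y => Subtype.ext (by simp [mul_assoc])⟩

theorem cj_eq_iff {g : G} {H : Subgroup G} : cj g H = H ↔ g ∈ Subgroup.normalizer (H : Set G) := by
  rw [Subgroup.mem_normalizer_iff]
  constructor
  · intro h x
    rw [← conj_mem_cj g (H := H), h]
  · intro h
    ext x
    have := h (g⁻¹ * x * g)
    rw [mem_cj, this]
    simp [mul_assoc]

theorem comap_cj (φ : G →* G') (g : G) (X : Subgroup G') :
    (cj (φ g) X).comap φ = cj g (X.comap φ) := by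
  ext x; simp [mem_cj]

/-- an upward closed, conjugation closed family of subgroups (the subgroups that contain a point
stabiliser) -/
structure Fam (G : Type) [Group G] where
  s : Set (Subgroup G)
  up : ∀ {H U : Subgroup G}, H ∈ s → H ≤ U → U ∈ s
  conj : ∀ (g : G) {H : Subgroup G}, H ∈ s → cj g H ∈ s
  top : ⊤ ∈ s

/-- indicator function of the coset `g H` -/
noncomputable def ind (g : G) (H : Subgroup G) : G → ℝ := fun x => if g⁻¹ * x ∈ H then 1 else 0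

theorem ind_nonneg (g : G) (H : Subgroup G) (x : G) : 0 ≤ ind g H x := by
  unfold ind; split_ifs <;> norm_num

theorem ind_pos {g x : G} {H : Subgroup G} (h : g⁻¹ * x ∈ H) : ind g H x = 1 := if_pos h

theorem ind_neg {g x : G} {H : Subgroup G} (h : g⁻¹ * x ∉ H) : ind g H x = 0 := if_neg h

theorem ind_congr {g g' : G} {H : Subgroup G} (h : g⁻¹ * g' ∈ H) : ind g H = ind g' H := by
  funext x
  have : g⁻¹ * x = g⁻¹ * g' * (g'⁻¹ * x) := by group
  simp only [ind, this, H.mul_mem_cancel_left h]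

theorem ind_mul {g x h : G} {H : Subgroup G} (hh : h ∈ H) : ind g H (x * h) = ind g H x := by
  simp only [ind, ← mul_assoc, H.mul_mem_cancel_right hh]

/-- the mass of the coset `g H` -/
noncomputable def mg [Fintype G] (y : G → ℝ) (g : G) (H : Subgroup G) : ℝ := ∑ x, ind g H x * y x

/-- the index set of the rows and of the columns of the sporadic atom -/
abbrev V4 := ZMod 2 × ZMod 2

namespace Fam
variable (F : Fam G)

/-- members: minimal elements of the family -/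
def Mem (H : Subgroup G) : Prop := Minimal (· ∈ F.s) H

/-- faithful -/
def Fa : Prop := ∀ g : G, (∀ H ∈ F.s, g ∈ H) → g = 1

/-- image family under a surjection -/
def push (φ : G →* G') (hφ : Function.Surjective φ) : Fam G' where
  s := {X | X.comap φ ∈ F.s}
  up h l := F.up h (Subgroup.comap_mono l)
  conj g X h := by
    obtain ⟨g, rfl⟩ := hφ g
    change (cj (φ g) X).comap φ ∈ F.s
    rw [comap_cj]
    exact F.conj g h
  top := F.top

/-- family of traces on a subgroup -/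
def pull (L : Subgroup G) : Fam L where
  s := {X | ∃ H ∈ F.s, H.subgroupOf L ≤ X}
  up := fun ⟨H, h, l⟩ l' => ⟨H, h, l.trans l'⟩
  conj := fun g _ ⟨H, h, l⟩ => ⟨cj g.1 H, F.conj _ h, fun _ hx => mem_cj.2 (l (mem_cj.1 hx))⟩
  top := ⟨⊤, F.top, le_top⟩

/-- the elements of the family that contain the normal subgroup `N` -/
def ov (N : Subgroup G) [hN : N.Normal] : Fam G where
  s := {X | X ∈ F.s ∧ N ≤ X}
  up h l := ⟨F.up h.1 l, h.2.trans l⟩
  conj g X h := ⟨F.conj g h.1, fun x hx => mem_cj.2 (h.2 (by simpa using hN.conj_mem x hx g⁻¹))⟩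
  top := ⟨F.top, le_top⟩

/-- the span of the cosets -/
def sp : Submodule ℝ (G → ℝ) := Submodule.span ℝ {f | ∃ H ∈ F.s, ∃ g, f = ind g H}

/-- compactness in support form -/
def SF : Prop := ∀ f ∈ F.sp, (∀ x, 0 ≤ f x) → ∀ x, 0 < f x → ∃ H ∈ F.s, ∀ h ∈ H, 0 < f (x * h)

/-- disjoint supports, elements -/
def dj (x y : G) : Prop := ∀ H ∈ F.s, x ∈ H ∨ y ∈ H

/-- disjoint supports, subgroups -/
def Dj (X Y : Subgroup G) : Prop := ∀ H ∈ F.s, X ≤ H ∨ Y ≤ H

/-- the fixer of the support of `X` -/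
def Gal (X : Subgroup G) : Subgroup G := sInf {H | H ∈ F.s ∧ ¬X ≤ H}

/-- round -/
def Rd : Prop := ∀ x y : G, F.dj x y → x = 1 ∨ y = 1

/-- orbit closed -/
def Cl (L : Subgroup G) : Prop := ∀ g : G, (∀ H ∈ F.s, ∃ l ∈ L, l⁻¹ * g ∈ H) → g ∈ L

/-- indecomposable element -/
def Ind (c : G) : Prop := c ≠ 1 ∧ ∀ a b : G, c = a * b → F.dj a b → a = 1 ∨ b = 1

/-- natural symmetric group on at least 4 members -/
def SymA : Prop :=
  4 ≤ {H | F.Mem H}.ncard ∧ ∃ L : Subgroup G, (∀ H, F.Mem H → H ≤ L) ∧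
    (∀ H, F.Mem H → ∀ g ∈ L, cj g H = H → g ∈ H) ∧
    ∀ H K, F.Mem H → F.Mem K → H ≠ K → ∃ t ∈ L, cj t H = K ∧ cj t K = H ∧
      ∀ M, F.Mem M → M ≠ H → M ≠ K → t ∈ M

/-- generalised dihedral atom: `T` is the set of reflections -/
def DihA : Prop :=
  ⊥ ∉ F.s ∧ ∃ T : Finset G, 3 ≤ T.card ∧ (∀ s ∈ T, s ≠ 1 ∧ s * s = 1 ∧ Subgroup.zpowers s ∈ F.s) ∧
    (∀ U ∈ F.s, ∃ s ∈ T, s ∈ U) ∧ ∀ s ∈ T, ∀ t ∈ T, ∀ u ∈ T, s * t * u ∈ T

/-- the sporadic atom of order 16: the members are the six graphs -/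
def B4A : Prop :=
  ∃ r c : V4 → G, (∀ i j, r (i + j) = r i * r j) ∧ (∀ i j, c (i + j) = c i * c j) ∧
    (∀ i j, r i * c j = c j * r i) ∧ (∀ i j, r i * c j = 1 → i = 0 ∧ j = 0) ∧
    (∀ σ : V4 → V4, Function.Injective σ → σ 0 = 0 →
      ∃ H ∈ F.s, ∀ x, x ∈ H ↔ ∃ i, x = r i * c (σ i)) ∧
    ∀ U ∈ F.s, ∃ σ : V4 → V4, Function.Injective σ ∧ σ 0 = 0 ∧ ∀ i, r i * c (σ i) ∈ U

/-- a decomposable subgroup lies in the family -/
def Dec : Prop := ∃ X Y : Subgroup G, X ≠ ⊥ ∧ Y ≠ ⊥ ∧ F.Dj X Y ∧ X ⊔ Y ∈ F.s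

/-- the conclusion of the structure theorem -/
def TT : Prop := ⊥ ∈ F.s ∨ F.SymA ∨ F.DihA ∨ F.B4A ∨ F.Dec

end Fam

/-- the structure theorem for groups of order `< n` -/
def IH (n : ℕ) : Prop := ∀ (G : Type) [Group G] [Finite G] (F : Fam G), Nat.card G < n →
  F.Fa → F.SF → F.TT

end Pool.Agent.Lib.MP_3cc314_lc.Cg
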