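import Pool.Agent.Lib.MP_3cc314_lc.CgRS
import Pool.Agent.Lib.MP_3cc314_lc.CgDet
import Pool.Agent.Lib.MP_3cc314_lc.CgM1

set_option autoImplicit false

namespace Pool.Agent.Lib.MP_3cc314_lc.Cg

theorem gr4_add : ∀ M p, gr4 M p → ∀ q, gr4 M q → gr4 M (p + q) := by decide +kernel

theorem gr4_zero : ∀ M, gr4 M 0 := by decide +kernel

theorem gr4_eq : ∀ M M', (∀ p, gr4 M p → gr4 M' p) → M = M' := by decide +kernel

open scoped Classical

variable {G : Type} [Group G]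

/-- a closed subset of a finite group is a subgroup -/
def finSub [Finite G] (S : Set G) (h1 : (1 : G) ∈ S) (hm : ∀ a ∈ S, ∀ b ∈ S, a * b ∈ S) :
    Subgroup G where
  carrier := S
  one_mem' := h1
  mul_mem' := fun a b => hm _ a _ b
  inv_mem' := fun {g} hg => by
    have p : ∀ n : ℕ, g ^ n ∈ S := fun n => by
      induction n with
      | zero => simpa using h1
      | succ n ih => rw [pow_succ]; exact hm _ ih _ hg
    have : g⁻¹ = g ^ (orderOf g - 1) := by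
      rw [inv_eq_iff_mul_eq_one, ← pow_succ', Nat.sub_add_cancel (orderOf_pos g), pow_orderOf_eq_one]
    exact this ▸ p _

/-- coordinates of an elementary abelian subgroup of order 16 -/
structure E4 (e : V4 × V4 → G) : Prop where
  mul : ∀ p q, e (p + q) = e p * e q
  inj : Function.Injective e

namespace E4
variable {e : V4 × V4 → G} (E : E4 e)
include E

theorem zero : e 0 = 1 := by simpa using E.mul 0 0

theorem sq (p : V4 × V4) : e p * e p = 1 := by rw [← E.mul, v4_add, E.zero]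

theorem inv (p : V4 × V4) : (e p)⁻¹ = e p := inv_eq_of_mul_eq_one_right (E.sq p)

theorem eq_one {p : V4 × V4} : e p = 1 ↔ p = 0 := by rw [← E.zero, E.inj.eq_iff]

/-- the subgroup given by a condition on the coordinates -/
def sb (P : V4 × V4 → Prop) (h0 : P 0) (ha : ∀ p, P p → ∀ q, P q → P (p + q)) : Subgroup G where
  carrier := {x | ∃ p, P p ∧ e p = x}
  one_mem' := ⟨0, h0, E.zero⟩
  mul_mem' := by
    rintro _ _ ⟨p, a, rfl⟩ ⟨q, b, rfl⟩
    exact ⟨p + q, ha p a q b, E.mul p q⟩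
  inv_mem' := by
    rintro _ ⟨p, a, rfl⟩
    exact ⟨p, a, (E.inv p).symm⟩

theorem mem_sb {P : V4 × V4 → Prop} {h0 : P 0} {ha : ∀ p, P p → ∀ q, P q → P (p + q)}
    {p : V4 × V4} : e p ∈ E.sb P h0 ha ↔ P p :=
  ⟨fun ⟨_, a, b⟩ => E.inj b ▸ a, fun a => ⟨p, a, rfl⟩⟩

/-- a plane -/
def pl (M : V4 × V4) : Subgroup G := E.sb (gr4 M) (gr4_zero M) (gr4_add M)

theorem mem_pl {M p : V4 × V4} : e p ∈ E.pl M ↔ gr4 M p := E.mem_sb

theorem card_pl (M : V4 × V4) : Nat.card (E.pl M) = 4 := by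
  rw [← Nat.card_congr (Equiv.ofBijective (fun i : V4 => (⟨e (i, lin4 M i), E.mem_pl.2 rfl⟩ : E.pl M))
    ⟨fun i j q => congrArg Prod.fst (E.inj (congrArg Subtype.val q)), ?_⟩)]
  · simp
  · rintro ⟨_, p, a, rfl⟩
    exact ⟨p.1, Subtype.ext (congrArg e (Prod.ext rfl a))⟩

theorem pl_le {M : V4 × V4} {U : Subgroup G} : E.pl M ≤ U ↔ ∀ p, gr4 M p → e p ∈ U :=
  ⟨fun l _ a => l (E.mem_pl.2 a), fun h _ ⟨p, a, b⟩ => b ▸ h p a⟩

theorem pl_inj {M M' : V4 × V4} (l : E.pl M ≤ E.pl M') : M = M' :=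
  gr4_eq _ _ fun p a => E.mem_pl.1 (E.pl_le.1 l p a)

theorem dis {a b : V4 × V4} {U V : Subgroup G} (h : E.pl a ≤ U) (h' : E.pl b ≤ V) (d : U ⊓ V = ⊥) :
    ∀ p, gr4 a p → gr4 b p → p = 0 := fun p x y =>
  E.eq_one.1 (Subgroup.mem_bot.1 (d ▸ Subgroup.mem_inf.2 ⟨E.pl_le.1 h p x, E.pl_le.1 h' p y⟩))

end E4

theorem sum_iz [Fintype G] (g : G) (U : Subgroup G) : ∑ y, iz g U y = Nat.card U := by
  rw [← Equiv.sum_comp (Equiv.mulLeft g)]
  simp [iz, Nat.card_eq_fintype_card, Fintype.card_subtype]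

namespace Fam
variable {F : Fam G}

theorem b4a_of {e : V4 × V4 → G} (E : E4 e) (h5 : ∀ M, gd4 M → E.pl M ∈ F.s)
    (h6 : ∀ U ∈ F.s, ∃ M, gd4 M ∧ E.pl M ≤ U) : F.B4A := by
  have k : ∀ i j : V4, e (i, 0) * e (0, j) = e (i, j) := fun i j => by rw [← E.mul]; simp
  refine ⟨fun i => e (i, 0), fun j => e (0, j), fun i j => by rw [← E.mul]; simp,
    fun i j => by rw [← E.mul]; simp, fun i j => by rw [← E.mul, ← E.mul, add_comm],
    fun i j q => Prod.mk_eq_zero.1 (E.eq_one.1 (k i j ▸ q)), fun σ a b => ?_, fun U m => ?_⟩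
  · obtain ⟨M, g, q⟩ := sig_lin a b
    refine ⟨_, h5 M g, fun x => ⟨?_, ?_⟩⟩
    · rintro ⟨p, c, rfl⟩
      exact ⟨p.1, by rw [k, ← q, c]⟩
    · rintro ⟨i, rfl⟩
      rw [k]
      exact E.mem_pl.2 (q i)
  · obtain ⟨M, g, l⟩ := h6 U m
    exact ⟨lin4 M, lin4_inj M g, lin4_zero M, fun i => k _ _ ▸ E.pl_le.1 l _ rfl⟩

theorem B4A.e4 (h : F.B4A) : ∃ (e : V4 × V4 → G) (E : E4 e), (∀ M, gd4 M → E.pl M ∈ F.s) ∧
    ∀ U ∈ F.s, ∃ M, gd4 M ∧ E.pl M ≤ U := by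
  obtain ⟨e, m, -, -, j, h5, h6⟩ := h.ex
  refine ⟨e, ⟨m, j⟩, fun M g => ?_, fun U u => ?_⟩
  · obtain ⟨H, a, b⟩ := h5 _ (lin4_inj M g) (lin4_zero M)
    exact F.up a fun x hx => (b x).1 hx
  · obtain ⟨σ, a, b, c⟩ := h6 U u
    obtain ⟨M, g, q⟩ := sig_lin a b
    exact ⟨M, g, (E4.pl_le _).2 fun p k => by
      have := c p.1
      rwa [← q, show lin4 M p.1 = p.2 from k] at this⟩

/-- the standing hypotheses of the remaining case -/
structure Big (F : Fam G) : Prop where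
  ih : IH (Nat.card G)
  fa : F.Fa
  sf : F.SF
  rd : F.Rd
  nb : ⊥ ∉ F.s
  nr : ∀ s, ¬F.Rfl s

/-- the traces on `L` form a dihedral atom -/
def DihT (F : Fam G) (L : Subgroup G) : Prop :=
  ∃ T : Set G, (∀ t ∈ T, t ∈ L ∧ t ≠ 1 ∧ t * t = 1 ∧
    ∃ W, F.Mem W ∧ ∀ x ∈ W, x ∈ L → x = 1 ∨ x = t) ∧ (∀ U ∈ F.s, ∃ t ∈ T, t ∈ U) ∧
    ∀ s ∈ T, ∀ t ∈ T, ∀ u ∈ T, s * t * u ∈ T

/-- the traces on `L` form the sporadic atom -/
def B4T (F : Fam G) (L : Subgroup G) : Prop :=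
  ∃ (e : V4 × V4 → G) (E : E4 e), (∀ p, e p ∈ L) ∧
    (∀ M, gd4 M → ∃ W, F.Mem W ∧ W ⊓ L ≤ E.pl M) ∧ ∀ U ∈ F.s, ∃ M, gd4 M ∧ E.pl M ≤ U

theorem round_cases [Finite G] {n : ℕ} (ih : IH n) (c : Nat.card G < n) (fa : F.Fa) (sf : F.SF)
    (rd : F.Rd) : ⊥ ∈ F.s ∨ F.DihA ∨ F.B4A := by
  rcases ih G F c fa sf with a | a | a | a | ⟨X, Y, x, y, d, -⟩
  exacts [.inl a, (a.not_rd rd).elim, .inr (.inl a), .inr (.inr a), by
    obtain ⟨x, hx⟩ := (Subgroup.ne_bot_iff_exists_ne_one).1 x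
    obtain ⟨y, hy⟩ := (Subgroup.ne_bot_iff_exists_ne_one).1 y
    exact ((rd _ _ (d.dj x.2 y.2)).elim (fun q => hx (Subtype.ext q)) fun q => hy (Subtype.ext q)).elim]

theorem card_lt_of_ne [Finite G] {L : Subgroup G} (ne : L ≠ ⊤) : Nat.card L < Nat.card G :=
  lt_of_le_of_ne L.card_le_card_group fun q => ne (Subgroup.eq_top_of_card_eq L q)

theorem Big.sub [Finite G] (b : F.Big) {L : Subgroup G} (hL : F.Cl L) (ne : L ≠ ⊤) :
    (∃ W, F.Mem W ∧ W ⊓ L = ⊥) ∨ F.DihT L ∨ F.B4T L := by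
  have tr : ∀ X ∈ (F.pull L).s, ∃ W, F.Mem W ∧ ∀ x : L, x.1 ∈ W → x ∈ X := by
    rintro X ⟨U, u, l⟩
    obtain ⟨W, m, l'⟩ := exists_mem u
    exact ⟨W, m, fun x hx => l (l' hx)⟩
  have up : ∀ U ∈ F.s, U.subgroupOf L ∈ (F.pull L).s := fun U u => ⟨U, u, le_rfl⟩
  rcases round_cases b.ih (card_lt_of_ne ne) (b.fa.pull L) (b.sf.pull hL) (fun x y d =>
    (b.rd x y fun U u => d _ (up U u)).imp Subtype.ext Subtype.ext) with a | a | a
  · obtain ⟨W, m, k⟩ := tr _ a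
    exact .inl ⟨W, m, eq_bot_iff.2 fun x hx => congrArg Subtype.val (k ⟨x, hx.2⟩ hx.1)⟩
  · obtain ⟨-, T, -, h1, h2, h3⟩ := a
    refine .inr (.inl ⟨Subtype.val '' (T : Set L), ?_, fun U u => ?_, ?_⟩)
    · rintro _ ⟨t, ht, rfl⟩
      obtain ⟨t1, tt, ts⟩ := h1 t ht
      obtain ⟨W, m, k⟩ := tr _ ts
      exact ⟨t.2, fun q => t1 (Subtype.ext q), congrArg Subtype.val tt, W, m, fun x hx xL =>
        (mem_zp1 tt (k ⟨x, xL⟩ hx)).imp (congrArg Subtype.val) (congrArg Subtype.val)⟩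
    · obtain ⟨t, ht, k⟩ := h2 _ (up U u)
      exact ⟨t, ⟨t, ht, rfl⟩, k⟩
    · rintro _ ⟨s, hs, rfl⟩ _ ⟨t, ht, rfl⟩ _ ⟨u, hu, rfl⟩
      exact ⟨_, h3 s hs t ht u hu, rfl⟩
  · obtain ⟨e, E, h5, h6⟩ := a.e4
    have E' : E4 fun p => (e p).1 :=
      ⟨fun p q => congrArg Subtype.val (E.mul p q), fun p q k => E.inj (Subtype.ext k)⟩
    refine .inr (.inr ⟨_, E', fun p => (e p).2, fun M g => ?_, fun U u => ?_⟩)
    · obtain ⟨W, m, k⟩ := tr _ (h5 M g)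
      refine ⟨W, m, fun x hx => ?_⟩
      obtain ⟨p, c, q⟩ := k ⟨x, hx.2⟩ hx.1
      exact ⟨p, c, congrArg Subtype.val q⟩
    · obtain ⟨M, g, l⟩ := h6 _ (up U u)
      exact ⟨M, g, E'.pl_le.2 (E.pl_le.1 l)⟩

/-- every trace contains a trace of exponent two -/
theorem Big.sub_inv [Finite G] (b : F.Big) {L : Subgroup G} (hL : F.Cl L) (ne : L ≠ ⊤)
    {U : Subgroup G} (u : U ∈ F.s) : ∃ W, F.Mem W ∧ ∀ x ∈ W, x ∈ L → x ∈ U ∧ x * x = 1 := by
  rcases b.sub hL ne with ⟨W, m, d⟩ | ⟨T, h1, h2, -⟩ | ⟨e, E, -, h5, h6⟩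
  · refine ⟨W, m, fun x hx xL => ?_⟩
    obtain rfl := Subgroup.mem_bot.1 (d ▸ Subgroup.mem_inf.2 ⟨hx, xL⟩)
    exact ⟨one_mem _, mul_one _⟩
  · obtain ⟨t, ht, tU⟩ := h2 U u
    obtain ⟨-, -, tt, W, m, k⟩ := h1 t ht
    refine ⟨W, m, fun x hx xL => ?_⟩
    rcases k x hx xL with rfl | rfl
    exacts [⟨one_mem _, mul_one _⟩, ⟨tU, tt⟩]
  · obtain ⟨M, g, l⟩ := h6 U u
    obtain ⟨W, m, k⟩ := h5 M g
    refine ⟨W, m, fun x hx xL => ⟨l (k ⟨hx, xL⟩), ?_⟩⟩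
    obtain ⟨p, -, rfl⟩ := k ⟨hx, xL⟩
    exact E.sq p

/-- the elements of the family inside `X` -/
def lnk (F : Fam G) (X : Subgroup G) (hX : X ∈ F.s) : Fam X where
  s := {U | U.map X.subtype ∈ F.s}
  up h l := F.up h (Subgroup.map_mono l)
  conj g U h := F.up (F.conj g.1 h) fun x hx => by
    obtain ⟨y, hy, q⟩ := mem_cj.1 hx
    refine ⟨g * y * g⁻¹, (conj_mem_cj g).2 hy, ?_⟩
    change g.1 * y.1 * g.1⁻¹ = x
    rw [show y.1 = _ from q]; group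
  top := F.up hX fun x hx => ⟨⟨x, hx⟩, trivial, rfl⟩

theorem mem_lnk {X U : Subgroup G} (hX : X ∈ F.s) (u : U ∈ F.s) (l : U ≤ X) :
    U.subgroupOf X ∈ (F.lnk X hX).s := F.up u fun x hx => ⟨⟨x, l hx⟩, hx, rfl⟩

theorem SF.lnk (h : F.SF) {X : Subgroup G} (hX : X ∈ F.s) : (F.lnk X hX).SF := by
  intro f hf h0 x hx
  have : ∀ f ∈ (F.lnk X hX).sp, (fun y => if h : y ∈ X then f ⟨y, h⟩ else 0) ∈ F.sp := fun f hf => by
    induction hf using Submodule.span_induction with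
    | mem f a =>
      obtain ⟨U, m, g, rfl⟩ := a
      convert ind_mem (F := F) m g.1 using 1
      funext y
      split_ifs with a
      · refine if_congr ⟨fun c => Subgroup.mem_map.2 ⟨_, c, rfl⟩, fun c => ?_⟩ rfl rfl
        obtain ⟨z, c, q⟩ := Subgroup.mem_map.1 c
        rwa [show g⁻¹ * ⟨y, a⟩ = z from Subtype.ext q.symm]
      · refine (ind_neg fun c => a ?_).symm
        obtain ⟨z, -, q⟩ := Subgroup.mem_map.1 c
        have : y = g.1 * z.1 := by rw [show z.1 = _ from q]; group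
        exact this ▸ (g * z).2
    | zero => convert zero_mem F.sp using 1; funext y; simp
    | add a b _ _ ha hb => convert add_mem ha hb using 1; funext y; by_cases c : y ∈ X <;> simp [c]
    | smul c a _ ha =>
      convert Submodule.smul_mem _ c ha using 1; funext y; by_cases c : y ∈ X <;> simp [c]
  obtain ⟨U, m, k⟩ := h _ (this f hf) (fun y => by split_ifs; exacts [h0 _, le_rfl]) x.1
    (by simpa using hx)
  have l : U ≤ X := fun u hu => by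
    by_contra n
    have := k u hu
    rw [dif_neg fun c => n ((X.mul_mem_cancel_left x.2).1 c)] at this
    exact this.false
  refine ⟨_, mem_lnk hX m l, fun u hu => ?_⟩
  have := k u hu
  rwa [dif_pos (X.mul_mem x.2 u.2)] at this

/-- an integer signed measure with nonnegative marginals is equivalent to a nonnegative one -/
theorem SF.idp [Fintype G] (h : F.SF) (y : G → ℤ) (hy : ∀ U ∈ F.s, ∀ g, 0 ≤ ∑ x, iz g U x * y x) :
    ∃ z : G → ℤ, (∀ x, 0 ≤ z x) ∧ ∀ f, F.Sp f → ∑ x, f x * z x = ∑ x, f x * y x := by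
  induction hn : (∑ x, y x).toNat generalizing y with
  | zero =>
    let Λ : (G → ℝ) →ₗ[ℝ] ℝ := ∑ x, (y x : ℝ) • LinearMap.proj x
    have eΛ : ∀ f, Λ f = ∑ x, f x * y x := fun f => by simp [Λ, LinearMap.sum_apply, mul_comm]
    have e1 : ∀ g U, Λ (ind g U) = ((∑ x, iz g U x * y x : ℤ) : ℝ) := fun g U => by
      simp [eΛ, iz, ind]
    have p : ∀ U ∈ F.s, ∀ g, 0 ≤ Λ (ind g U) := fun U u g => by rw [e1]; exact_mod_cast hy U u g
    have z : ∀ f ∈ F.sp, Λ f = 0 := fun f hf => by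
      refine Submodule.span_le (p := LinearMap.ker Λ) |>.2 ?_ hf
      rintro _ ⟨U, u, g, rfl⟩
      have := h.cone Λ p (sub_mem one_mem_sp (ind_mem u g)) fun x => by
        simp only [Pi.sub_apply, ind]; split_ifs <;> norm_num
      have t : Λ (fun _ => 1) ≤ 0 := by
        rw [eΛ]; simp only [one_mul]; exact_mod_cast Int.toNat_eq_zero.1 hn
      rw [map_sub] at this
      exact le_antisymm (by linarith) (p U u g)
    refine ⟨0, fun _ => le_rfl, fun f hf => ?_⟩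
    have := z _ hf
    rw [eΛ] at this
    simp only [Pi.zero_apply, mul_zero, Finset.sum_const_zero]
    exact_mod_cast this.symm
  | succ n ih =>
    let Λ : (G → ℝ) →ₗ[ℝ] ℝ := ∑ x, (y x : ℝ) • LinearMap.proj x
    have eΛ : ∀ f, Λ f = ∑ x, f x * y x := fun f => by simp [Λ, LinearMap.sum_apply, mul_comm]
    have e1 : ∀ g U, Λ (ind g U) = ((∑ x, iz g U x * y x : ℤ) : ℝ) := fun g U => by
      simp [eΛ, iz, ind]
    obtain ⟨g, hg⟩ := h.pt Λ (fun U u g => by rw [e1]; exact_mod_cast hy U u g) (by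
      rw [eΛ]; simp only [one_mul]; exact_mod_cast (show 0 < ∑ x, y x by omega))
    have s : ∀ f y : G → ℤ, ∀ c : ℤ, ∑ x, f x * (y x + if x = g then c else 0) =
      ∑ x, f x * y x + f g * c := fun f y c => by simp [mul_add, Finset.sum_add_distrib]
    obtain ⟨z, z0, hz⟩ := ih (fun x => y x + if x = g then -1 else 0) (fun U u k => by
      rw [s]
      by_cases c : k⁻¹ * g ∈ U
      · have := hg U u
        rw [← ind_congr c, e1] at this
        have : 0 < ∑ x, iz k U x * y x := by exact_mod_cast this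
        rw [iz_pos c]; omega
      · rw [iz_neg c]; simpa using hy U u k) (by
      have := s (fun _ => 1) y (-1)
      simp only [one_mul] at this
      omega)
    refine ⟨fun x => z x + if x = g then 1 else 0, fun x => add_nonneg (z0 x) (by positivity),
      fun f hf => ?_⟩
    rw [s, hz f hf, s]; ring

variable {H M N X : Subgroup G}

theorem Reg.symm (h : F.Reg H M) : F.Reg M H := ⟨h.2.1, h.1, inf_comm H M ▸ h.2.2⟩

theorem Net.sw (n : F.Net H M N X) : F.Net M H N X :=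
  ⟨⟨n.hm.1.symm, mul_comm (Nat.card H) _ ▸ n.hm.2⟩, n.nm.symm, n.hn.symm, n.cm.symm,
    n.cn.trans n.cm.symm, n.lm, n.lh, n.ln, n.cm ▸ n.cx⟩

theorem Net.sw' (n : F.Net H M N X) : F.Net H N M X :=
  ⟨⟨n.hn, n.cn.trans n.cm.symm ▸ n.hm.2⟩, n.hm.1, n.nm.symm, n.cn, n.cm, n.lh, n.ln, n.lm, n.cx⟩

end Fam

/-- no member lies outside the group of order 16 -/
def S_out : Prop := ∀ (G : Type) [Group G] [Finite G] (F : Fam G),
  F.SF → ⊥ ∉ F.s → (∀ s, ¬F.Rfl s) → ∀ (e : V4 × V4 → G) (E : E4 e),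
    (∀ M, gd4 M → E.pl M ∈ F.s) →
    (∀ U ∈ F.s, (∀ x ∈ U, ∃ p, e p = x) → ∃ M, gd4 M ∧ E.pl M ≤ U) →
    ∀ U ∈ F.s, ∃ M, gd4 M ∧ E.pl M ≤ U

end Pool.Agent.Lib.MP_3cc314_lc.Cg
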