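import Pool.Agent.Lib.MP_3cc314_lc.CgG1

set_option autoImplicit false

namespace Pool.Agent.Lib.MP_3cc314_lc.Cg
open scoped Classical Pointwise

variable {G : Type} [Group G]

theorem triv {A B : Subgroup G} (d : A ⊓ B = ⊥) {x : G} (a : x ∈ A) (b : x ∈ B) : x = 1 :=
  Subgroup.mem_bot.1 (d ▸ Subgroup.mem_inf.2 ⟨a, b⟩)

namespace Fam
variable [Finite G] {F : Fam G} {H M N W : Subgroup G}

theorem Net.fac (n : F.Net H M N ⊤) (r : F.Reg H W) :
    Nat.card W = Nat.card H ∧ ∀ g, ∃ h ∈ H, h⁻¹ * g ∈ W := by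
  have a := n.hm.2 H W r
  have b := card_mul_le H W
  have c := (H ⊔ W).card_le_card_group
  have d := n.cx
  rw [Subgroup.card_top] at d
  rw [r.2.2, Subgroup.card_bot, one_mul] at b
  rw [n.cm] at a
  have e : Nat.card H * Nat.card W = Nat.card G := by omega
  refine ⟨Nat.eq_of_mul_eq_mul_left Nat.card_pos (e.trans d), fun g => ?_⟩
  obtain ⟨⟨h, w⟩, q⟩ := (Subgroup.isComplement'_of_card_mul_and_disjoint e
    (disjoint_iff.2 r.2.2)).2 g
  exact ⟨h, h.2, by rw [← q]; simp⟩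

theorem Net.conj (n : F.Net H M N ⊤) (r : F.Reg H W) (g : G) : F.Reg H (cj g W) := by
  obtain ⟨h, a, b⟩ := (n.fac r).2 g
  exact ⟨r.1, r.2.1.cj g, by rw [cj_eq_of b, ← cj_of_mem a, ← cj_inf, r.2.2, cj_bot]⟩

/-- a set of points has a closed stabiliser -/
theorem cl_stab {U : Subgroup G} (u : U ∈ F.s) (S : Set G) (hS : ∀ x ∈ S, ∀ k ∈ U, x * k ∈ S) :
    F.Cl (finSub {g | ∀ x ∈ S, g * x ∈ S} (fun x hx => by simpa using hx)
      fun a ha b hb x hx => by rw [mul_assoc]; exact ha _ (hb x hx)) := fun g hg x hx => by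
  obtain ⟨l, a, b⟩ := hg _ (F.conj x u)
  have := hS _ (a x hx) _ (mem_cj.1 b)
  simpa [mul_assoc] using this

/-- the primal dependency -/
theorem Net.dep (n : F.Net H M N ⊤) (hS : F.SF) {m : G} (mM : m ∈ M) (m1 : m ≠ 1) :
    ∃ (Γ : Subgroup G) (P : Set G), Γ ≤ H ∧ P.Nonempty ∧ (∀ l ∈ P, l ∈ H ∧ l ∉ Γ) ∧
      (∀ l ∈ P, ∀ γ ∈ Γ, l * γ ∈ P) ∧ (∀ W, F.Reg H W → ∃ γ ∈ Γ, γ * m ∈ W) ∧
      (∀ U ∈ F.s, (∃ l ∈ P, l ∈ U) ∨ ∃ γ ∈ Γ, γ * m ∈ U) ∧
      ∀ x, (∃ γ ∈ Γ, (γ * x)⁻¹ * (m * x) ∈ H) ∨ ∀ l ∈ P, ∃ γ ∈ Γ, (γ * x)⁻¹ * (l * x) ∈ H := by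
  have := Fintype.ofFinite G
  have mH : m ∉ H := fun c => m1 (triv n.hm.1.2.2 c mM)
  let Y : Set G := {y | y ∈ H ∧ ∃ W, F.Reg H W ∧ y * m ∈ W}
  have Y1 : (1 : G) ∈ Y := ⟨H.one_mem, M, n.hm.1, by simpa using mM⟩
  have YW : ∀ W, F.Reg H W → ∃ γ ∈ Y, γ * m ∈ W := fun W r => by
    obtain ⟨h, a, b⟩ := (n.fac r).2 m
    exact ⟨h⁻¹, ⟨H.inv_mem a, W, r, b⟩, b⟩
  let c : G → ℤ := fun x => if x ∈ Y then 1 else 0
  have c0 : ∀ x, 0 ≤ c x := fun x => by simp only [c]; split_ifs <;> norm_num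
  let y : G → ℤ := fun x => iz 1 H x + c (x * m⁻¹) + if x = 1 then -2 else 0
  obtain ⟨z, z0, hz⟩ := hS.idp y fun U u g => by
    have p : ∀ x, 0 ≤ iz g U x * (iz 1 H x + c (x * m⁻¹)) := fun x =>
      mul_nonneg (iz_nonneg _ _ _) (add_nonneg (iz_nonneg _ _ _) (c0 _))
    have e : ∑ x, iz g U x * y x = ∑ x, iz g U x * (iz 1 H x + c (x * m⁻¹)) - 2 * iz g U 1 := by
      simp only [y, mul_add (iz g U _) _ (ite _ _ _), Finset.sum_add_distrib]
      simp; ring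
    rw [e]
    by_cases k : g⁻¹ * 1 ∈ U
    · obtain ⟨W, w, l⟩ := exists_mem u
      obtain ⟨a, aW, a1, ha⟩ : ∃ a ∈ W, a ≠ 1 ∧ 1 ≤ iz 1 H a + c (a * m⁻¹) := by
        by_cases d : H ⊓ W = ⊥
        · obtain ⟨γ, a, b⟩ := YW W ⟨n.hm.1.1, w, d⟩
          refine ⟨_, b, fun q => mH ((H.mul_mem_cancel_left a.1).1 (q ▸ H.one_mem)), ?_⟩
          have := iz_nonneg 1 H (γ * m)
          simp only [c, mul_inv_cancel_right, if_pos a]; omega
        · obtain ⟨a, ha⟩ := Subgroup.ne_bot_iff_exists_ne_one.1 d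
          refine ⟨a, a.2.2, fun q => ha (Subtype.ext q), ?_⟩
          have := c0 (a * m⁻¹)
          rw [iz_pos (by simpa using a.2.1)]; omega
      have := Finset.add_le_sum (s := Finset.univ) (fun x _ => p x) (Finset.mem_univ 1)
        (Finset.mem_univ a) a1.symm
      rw [iz_pos k, iz_pos (U.mul_mem (by simpa using k) (l aW)),
        iz_pos (H := H) (x := 1) (by simp)] at this
      have := c0 (1 * m⁻¹)
      rw [iz_pos k]
      omega
    · rw [iz_neg k]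
      simpa using Finset.sum_nonneg fun x _ => p x
  have cH : ∀ x, x ∉ H → c x = 0 := fun x a => if_neg fun b => a b.1
  have yH : ∀ h ∈ H, y h = 1 + if h = 1 then -2 else 0 := fun h a => by
    simp only [y]
    rw [iz_pos (by simpa using a), cH _ fun b => mH (by simpa using (H.mul_mem_cancel_left a).1 b),
      add_zero]
  have ym : ∀ h ∈ H, y (h * m) = c h := fun h a => by
    have k : h * m ∉ H := fun b => mH ((H.mul_mem_cancel_left a).1 b)
    simp only [y]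
    rw [iz_neg (by simpa using k), if_neg fun q : h * m = 1 => k (q ▸ H.one_mem)]
    simp
  have yo : ∀ x, x ∉ H → x * m⁻¹ ∉ H → y x = 0 := fun x a b => by
    simp only [y]
    rw [iz_neg (by simpa using a), cH _ b, if_neg fun q : x = 1 => a (q ▸ H.one_mem)]
    rfl
  have col : ∀ g : G, F.Sp fun x => if x * g⁻¹ ∈ H then 1 else 0 := fun g =>
    (Sp.iz (F.conj g⁻¹ n.hm.1.1.1) g).congr fun x => if_congr (by simp [mem_cj]) rfl rfl
  have zo : ∀ x, x ∉ H → x * m⁻¹ ∉ H → z x = 0 := fun x a b => by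
    have e := hz _ (col x)
    rw [Finset.sum_eq_zero (f := fun k => _ * y k) fun k _ => by
      split_ifs with d
      · rw [yo k (fun f => a (by simpa using H.mul_mem (H.inv_mem d) f))
          fun f => b (by simpa [mul_assoc] using H.mul_mem (H.inv_mem d) f), mul_zero]
      · exact zero_mul _] at e
    have := (Finset.sum_eq_zero_iff_of_nonneg fun k _ => mul_nonneg (by positivity) (z0 k)).1 e x
      (Finset.mem_univ _)
    simpa using this
  -- sums over the two columns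
  have two : ∀ f p : G → ℤ, (∀ x, x ∉ H → x * m⁻¹ ∉ H → p x = 0) →
      ∑ x, f x * p x = ∑ h : H, f h * p h + ∑ h : H, f (h * m) * p (h * m) := fun f p hp => by
    have e1 : ∀ q : G → ℤ, ∑ h : H, q h = ∑ x, if x ∈ H then q x else 0 := fun q => by
      rw [← Finset.sum_filter, Finset.sum_subtype (p := (· ∈ H)) _ (by simp)]
    rw [e1 fun x => f x * p x, e1 fun x => f (x * m) * p (x * m),
      ← Equiv.sum_comp (Equiv.mulRight m⁻¹) fun x => if x ∈ H then f (x * m) * p (x * m) else 0,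
      ← Finset.sum_add_distrib]
    refine Finset.sum_congr rfl fun x _ => ?_
    by_cases a : x ∈ H
    · have b : x * m⁻¹ ∉ H := fun b => mH (by simpa using (H.mul_mem_cancel_left a).1 b)
      simp [a, b]
    · by_cases b : x * m⁻¹ ∈ H
      · simp [a, b]
      · simp [a, b, hp x a b]
  have hz2 : ∀ f, F.Sp f → ∑ h : H, f h * z h + ∑ h : H, f (h * m) * z (h * m) =
      ∑ h : H, f h * y h + ∑ h : H, f (h * m) * c h := fun f hf => by
    rw [← two f z zo, hz f hf, two f y yo]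
    simp only [fun h : H => ym h h.2]
  have E : ∀ γ ∈ Y, ∀ h ∈ H, z h + z (h * γ * m) = y h + c (h * γ) := by
    rintro γ ⟨γH, W, r, γW⟩ h hH
    have s1 : ∀ q : G → ℤ, ∑ k : H, iz h W k * q k = q h := fun q => by
      rw [Finset.sum_eq_single ⟨h, hH⟩ (fun k _ a => by
        rw [iz_neg fun b => a (Subtype.ext (inv_mul_eq_one.1
          (triv r.2.2 (H.mul_mem (H.inv_mem hH) k.2) b)).symm), zero_mul]) (by simp),
        iz_pos (by simp), one_mul]
    have s2 : ∀ q : G → ℤ, ∑ k : H, iz h W (k * m) * q k = q (h * γ) := fun q => by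
      rw [Finset.sum_eq_single ⟨h * γ, H.mul_mem hH γH⟩ (fun k _ a => by
        rw [iz_neg fun b => a (Subtype.ext ?_), zero_mul]
        have := triv r.2.2 (x := h⁻¹ * k * γ⁻¹) (H.mul_mem (H.mul_mem (H.inv_mem hH) k.2) (H.inv_mem γH))
          (by simpa [mul_assoc] using W.mul_mem b (W.inv_mem γW))
        rw [mul_inv_eq_one, inv_mul_eq_iff_eq_mul] at this
        exact this) (by simp), iz_pos (by simpa [mul_assoc] using γW), one_mul]
    have := hz2 _ (Sp.iz r.2.1.1 h)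
    rwa [s1, s1, s2 fun k => z (k * m), s2] at this
  have zY : ∀ γ ∈ Y, z (γ * m) = 0 := fun γ a => by
    have := E γ a 1 H.one_mem
    have := z0 1
    have := z0 (γ * m)
    simp only [yH 1 H.one_mem, c, one_mul, if_pos a, if_true] at *
    omega
  have E2 : ∀ γ ∈ Y, ∀ h ∈ H, z (h * γ * m) - c (h * γ) = z (h * m) - c h := fun γ a h b => by
    have := E γ a h b
    have := E 1 Y1 h b
    simp only [mul_one] at *
    omega
  have Ym : ∀ a ∈ Y, ∀ b ∈ Y, a * b ∈ Y := fun a ha b hb => by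
    by_contra k
    have := E2 b hb a ha.1
    have := z0 (a * b * m)
    simp only [c, if_pos ha, if_neg k, zY a ha] at *
    omega
  let Γ := finSub Y Y1 Ym
  have cΓ : ∀ h, ∀ γ ∈ Γ, c (h * γ) = c h := fun h γ a => if_congr (Γ.mul_mem_cancel_right a) rfl rfl
  -- the dependency
  have D : ∀ f, F.Sp f → ∑ h : H, f h * z (h * m) + ∑ h : H, f (h * m) * c h =
      ∑ h : H, f h * c h + ∑ h : H, f (h * m) * z (h * m) := fun f hf => by
    have a := hz2 f hf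
    have b : ∑ h : H, f h * z h + ∑ h : H, f h * z (h * m) = ∑ h : H, f h * y h + ∑ h : H, f h * c h := by
      simp only [← Finset.sum_add_distrib, ← mul_add]
      exact Finset.sum_congr rfl fun h _ => by simpa using Or.inl (E 1 Y1 h h.2)
    omega
  have ms : ∑ h : H, z (h * m) = ∑ h : H, c h := by
    have := D _ (col 1)
    have k : ∀ h : H, h.1 * m ∉ H := fun h b => mH ((H.mul_mem_cancel_left h.2).1 b)
    simpa [k] using this
  have one : ∀ f : G → ℤ, (∀ x, 0 ≤ f x) → f 1 = 1 → 1 ≤ ∑ h : H, f h * c h := fun f f0 f1 => by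
    have := Finset.single_le_sum (f := fun h : H => f h * c h) (fun h _ => mul_nonneg (f0 _) (c0 _))
      (Finset.mem_univ 1)
    simpa [c, Y1, f1] using this
  refine ⟨Γ, {l | l ∈ H ∧ 0 < z (l * m)}, fun x a => a.1, ?_, fun l a => ⟨a.1, fun b => ?_⟩,
    fun l a γ b => ⟨H.mul_mem a.1 b.1, ?_⟩, YW, fun U u => ?_, fun x => ?_⟩
  · by_contra k
    have a := one (fun _ => 1) (fun _ => zero_le_one) rfl
    have b : ∑ h : H, z (h * m) ≤ 0 := Finset.sum_nonpos fun h _ => not_lt.1 fun q => k ⟨h, h.2, q⟩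
    simp only [one_mul] at a
    omega
  · exact a.2.ne' (zY l b)
  · have := E2 γ b l a.1
    have := a.2
    rw [cΓ l γ b] at *
    omega
  · by_contra k
    push Not at k
    have a := D _ (Sp.iz u 1)
    have b := one (iz 1 U) (iz_nonneg _ _) (iz_pos (by simp))
    rw [Finset.sum_eq_zero fun h _ => ?_, Finset.sum_eq_zero fun h _ => ?_] at a
    · have := Finset.sum_nonneg (s := Finset.univ) fun (h : H) _ =>
        mul_nonneg (iz_nonneg 1 U (h * m)) (z0 (h * m))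
      omega
    · by_cases q : h.1 ∈ Y
      · rw [iz_neg (by simpa using k.2 h q), zero_mul]
      · simp [c, q]
    · by_cases q : 0 < z (h * m)
      · rw [iz_neg (by simpa using k.1 h ⟨h.2, q⟩), zero_mul]
      · rw [le_antisymm (not_lt.1 q) (z0 _), mul_zero]
  · refine or_iff_not_imp_left.2 fun k l hl => by_contra fun q => ?_
    let f : G → ℤ := fun g => if ∃ γ ∈ Γ, (γ * x)⁻¹ * (g * x) ∈ H then 1 else 0
    have f0 : ∀ g, 0 ≤ f g ∧ f g ≤ 1 := fun g => by simp only [f]; split_ifs <;> norm_num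
    have a := D f (Sp.of_inv (F.conj x n.hm.1.1.1) fun g u hu => if_congr (exists_congr fun γ =>
      and_congr_right fun _ => by
        rw [← H.mul_mem_cancel_right (mem_cj.1 hu) (y := (γ * x)⁻¹ * (g * x))]
        simp [mul_assoc]) rfl rfl)
    have e1 : ∑ h : H, f (h * m) * c h = 0 := Finset.sum_eq_zero fun h _ => by
      by_cases t : h.1 ∈ Y
      · refine mul_eq_zero_of_left (if_neg fun ⟨γ, g1, g2⟩ => k ⟨h.1⁻¹ * γ,
          Γ.mul_mem (Γ.inv_mem t) g1, by simpa [mul_assoc] using g2⟩) _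
      · simp [c, t]
    have e2 : ∑ h : H, f h * c h = ∑ h : H, c h := Finset.sum_congr rfl fun h _ => by
      by_cases t : h.1 ∈ Y
      · simp only [f]
        rw [if_pos ⟨h, t, by simp⟩, one_mul]
      · simp [c, t]
    have e3 := Finset.sum_nonneg (s := Finset.univ) fun (h : H) _ =>
      mul_nonneg (f0 (h * m)).1 (z0 (h * m))
    have e4 : ∑ h : H, f h * z (h * m) < ∑ h : H, z (h * m) :=
      Finset.sum_lt_sum (fun h _ => mul_le_of_le_one_left (z0 _) (f0 _).2)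
        ⟨⟨l, hl.1⟩, Finset.mem_univ _, by simpa [f, -mul_inv_rev, if_neg q] using hl.2⟩
    omega

/-- G1 - G3: the elements of `M` are involutions -/
theorem Net.sq (n : F.Net H M N ⊤) (b : F.Big) {m : G} (mM : m ∈ M) : m * m = 1 := by
  by_cases m1 : m = 1
  · simp [m1]
  obtain ⟨Γ, P, ΓH, ⟨l0, l0P⟩, PH, PΓ, ΓW, cov, dep⟩ := n.dep b.sf mM m1
  let Δ := finSub {x | ∀ W, F.Reg H W → ∃ γ ∈ Γ, γ⁻¹ * x ∈ W}
    (fun W _ => ⟨1, Γ.one_mem, by simp⟩) fun x hx x' hx' W r => by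
      obtain ⟨γ, a, c⟩ := hx' W r
      obtain ⟨γ', a', c'⟩ := hx _ (n.conj r γ)
      exact ⟨γ' * γ, Γ.mul_mem a' a, by simpa [mul_assoc] using W.mul_mem (mem_cj.1 c') c⟩
  have ΓΔ : Γ ≤ Δ := fun γ a W _ => ⟨γ, a, by simp⟩
  have mΔ : m ∈ Δ := fun W r => by
    obtain ⟨γ, a, c⟩ := ΓW W r
    exact ⟨γ⁻¹, Γ.inv_mem a, by simpa using c⟩
  let O : Set G := {x | ∀ l ∈ P, ∃ γ ∈ Γ, (γ * x)⁻¹ * (l * x) ∈ H}
  have OH : ∀ x ∈ O, ∀ k ∈ H, x * k ∈ O := fun x hx k hk l hl => by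
    obtain ⟨γ, a, c⟩ := hx l hl
    exact ⟨γ, a, by simpa [mul_assoc] using H.mul_mem (H.mul_mem (H.inv_mem hk) c) hk⟩
  have OΓ : ∀ γ ∈ Γ, ∀ x ∈ O, γ * x ∈ O := fun γ a x hx l hl => by
    obtain ⟨γ', a', c⟩ := hx _ (PΓ l hl γ a)
    exact ⟨γ' * γ⁻¹, Γ.mul_mem a' (Γ.inv_mem a), by simpa [mul_assoc] using c⟩
  have Om : ∀ x ∈ O, m * x ∈ O := by
    let K := finSub {g | ∀ x, x ∉ O → g * x ∉ O} (fun x hx => by simpa using hx)
      fun a ha b hb x hx => by rw [mul_assoc]; exact ha _ (hb x hx)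
    have : m ∈ K := fun x hx c => by
      obtain ⟨γ, a, d⟩ := (dep x).resolve_right hx
      have := OΓ _ (Γ.inv_mem a) _ (OH _ c _ (H.inv_mem d))
      exact hx (by simpa [mul_assoc] using this)
    intro x hx
    by_contra c
    exact K.inv_mem this _ c (by simpa using hx)
  let S : Set G := {x | x ∈ O ∧ ∃ δ ∈ Δ, δ⁻¹ * x ∈ H}
  have cl := cl_stab n.hm.1.1.1 S fun x hx k hk => ⟨OH x hx.1 k hk, by
    obtain ⟨δ, a, c⟩ := hx.2
    exact ⟨δ, a, by simpa [mul_assoc] using H.mul_mem c hk⟩⟩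
  generalize hL : finSub {g | ∀ x ∈ S, g * x ∈ S} _ _ = L at cl
  have mem : ∀ g, g ∈ L ↔ ∀ x ∈ S, g * x ∈ S := fun g => hL ▸ Iff.rfl
  have inL : ∀ g ∈ Δ, (∀ x ∈ O, g * x ∈ O) → g ∈ L := fun g a c => (mem g).2 fun x hx =>
    ⟨c x hx.1, by
      obtain ⟨δ, d, e⟩ := hx.2
      exact ⟨g * δ, Δ.mul_mem a d, by simpa [mul_assoc] using e⟩⟩
  have ΓL : Γ ≤ L := fun γ a => inL γ (ΓΔ a) (OΓ γ a)
  have mL : m ∈ L := inL m mΔ Om
  have PL : ∀ l ∈ P, l ∈ L := fun l hl => (mem l).2 fun x hx => by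
    obtain ⟨γ, a, c⟩ := hx.1 l hl
    have := (mem _).1 (ΓL a) x hx
    have e : l * x = γ * x * ((γ * x)⁻¹ * (l * x)) := by group
    obtain ⟨δ, d, f⟩ := this.2
    rw [e]
    exact ⟨OH _ this.1 _ c, δ, d, by rw [← mul_assoc]; exact H.mul_mem f c⟩
  have ne : L ≠ ⊤ := fun q => by
    have all : ∀ g, ∃ δ ∈ Δ, δ⁻¹ * g ∈ H := fun g => by
      simpa using ((mem g).1 (q ▸ Subgroup.mem_top g) 1 ⟨fun l hl =>
        ⟨1, Γ.one_mem, by simpa using (PH l hl).1⟩, 1, Δ.one_mem, by simp⟩).2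
    have le : ∀ W, F.Reg H W → W ≤ Δ := fun W r w hw => by
      obtain ⟨δ, a, c⟩ := all w⁻¹
      obtain ⟨γ, d, e⟩ := Δ.inv_mem a W r
      have := triv r.2.2 (H.mul_mem (H.inv_mem (ΓH d)) c)
        (by simpa [mul_assoc] using W.mul_mem e (W.inv_mem hw))
      rw [← mul_assoc, mul_inv_eq_one] at this
      exact this ▸ Δ.mul_mem (Δ.inv_mem (ΓΔ d)) (Δ.inv_mem a)
    obtain ⟨h, a, c⟩ := (n.sw.fac n.nm.symm).2 l0
    have : l0 ∈ Δ := (Δ.mul_mem_cancel_left (Δ.inv_mem (le M n.hm.1 a))).1 (le N n.hn c)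
    obtain ⟨γ, d, e⟩ := this M n.hm.1
    have := triv n.hm.1.2.2 (H.mul_mem (H.inv_mem (ΓH d)) (PH l0 l0P).1) e
    exact (PH l0 l0P).2 (inv_mul_eq_one.1 this ▸ d)
  obtain ⟨W, w, k⟩ := b.sub_inv cl ne n.hm.1.2.1.1
  rcases cov W w.1 with ⟨l, a, c⟩ | ⟨γ, a, c⟩
  · exact ((PH l a).2 (triv n.hm.1.2.2 (PH l a).1 (k l c (PL l a)).1 ▸ Γ.one_mem)).elim
  · have := k _ c (L.mul_mem (ΓL a) mL)
    obtain rfl := triv n.hm.1.2.2 (ΓH a) ((M.mul_mem_cancel_right mM).1 this.1)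
    simpa using this.2

end Fam

end Pool.Agent.Lib.MP_3cc314_lc.Cg
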