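import Pool.Agent.Lib.MP_3cc314_lc.CgG2

set_option autoImplicit false

namespace Pool.Agent.Lib.MP_3cc314_lc.Cg

/-- disjoint planes -/
def ds4 (a b : V4 × V4) : Prop := ∀ p, gr4 a p → gr4 b p → p = 0

instance (a b : V4 × V4) : Decidable (ds4 a b) := inferInstanceAs (Decidable (∀ _, _))

theorem b4_third : ∀ a, gd4 a → ∀ b, gd4 b → ds4 a b → ∀ c, gd4 c → ds4 a c → ds4 b c →
    ∀ d, gd4 d → ds4 a d → ds4 c d → d = b := by decide +kernel

theorem b4_split : ∀ a, gd4 a → ∀ b, gd4 b → ds4 a b → ∀ c, gd4 c → ds4 a c → ds4 b c →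
    (∀ p, gr4 b p → ∃ q, gr4 a q ∧ gr4 c (q + p) ∧ ∃ o, gd4 o ∧ gr4 o p ∧ gr4 o q) := by
  decide +kernel

theorem b4_span : ∀ b, gd4 b → ∀ c, gd4 c → ds4 b c → ∀ s, ∃ p, gr4 b p ∧ gr4 c (p + s) := by
  decide +kernel

/-- the reflections of the subgroup with second coordinate `0` or `u` -/
def tt4 (u : V4) (p : V4 × V4) : Prop :=
  p = (0, u) ∨ p = (u, u) ∨ (p.2 = 0 ∧ p.1 ≠ 0 ∧ p.1 ≠ u)

instance (u : V4) (p : V4 × V4) : Decidable (tt4 u p) := inferInstanceAs (Decidable (_ ∨ _))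

theorem tt4_key : ∀ u a : V4, a ≠ 0 → ∀ p : V4 × V4, (p.2 = 0 ∨ p.2 = u) → p ≠ 0 →
    ((a, 0) : V4 × V4) + (0, u) + (u, u) = 0 ∨ p + (0, u) + (u, u) = 0 ∨ p + (a, 0) + (0, u) = 0 ∨
      p + (a, 0) + (u, u) = 0 ∨ tt4 u p := by decide +kernel

theorem tt4_all : ∀ u a b : V4, u ≠ 0 → a ≠ 0 → b ≠ 0 → b ≠ u →
    ((a, 0) : V4 × V4) + (0, u) + (u, u) = 0 ∨ ((b, 0) : V4 × V4) = (a, 0) ∨
      ((b, 0) : V4 × V4) = (a, 0) + (0, u) + (u, u) := by decide +kernel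

/-- change of coordinates -/
def kp4 (p : V4 × V4) : V4 × V4 :=
  (p.1 + p.2, (p.1.2 + p.2.1 + p.2.2, p.1.1 + p.1.2 + p.2.1))

theorem kp4_add : ∀ p q, kp4 (p + q) = kp4 p + kp4 q := by decide +kernel

theorem kp4_inj : ∀ p q, kp4 p = kp4 q → p = q := by decide +kernel

theorem kp4_six : ∀ p, tt4 (1, 0) p → ∀ q, tt4 (0, 1) q → ∀ r, tt4 (1, 1) r → ∃ M, gd4 M ∧
    ∀ s, gr4 M s → kp4 s = 0 ∨ kp4 s = p ∨ kp4 s = q ∨ kp4 s = r ∨ kp4 s = p + q ∨ kp4 s = p + r ∨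
      kp4 s = q + r := by decide +kernel

/-- the plane meets the subgroup of index two in at most the point `(a, 0)` -/
def on4 (u a : V4) (M : V4 × V4) : Prop :=
  ∀ s, gr4 M s → ((kp4 s).2 = 0 ∨ (kp4 s).2 = u) → kp4 s = 0 ∨ kp4 s = (a, 0)

instance (u a : V4) (M : V4 × V4) : Decidable (on4 u a M) := inferInstanceAs (Decidable (∀ _, _))

/-- the plane `M` is determined by its trace -/
def un4 (M : V4 × V4) : Prop := ∃ u a : V4, u ≠ 0 ∧ a ≠ 0 ∧ a ≠ u ∧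
  (∀ M', gd4 M' → on4 u a M' → M' = M) ∧ gr4 M ((0, 0) : V4 × V4) ∧
  ∀ s, ¬gr4 M s → ∃ r, gr4 M r ∧ ((kp4 (s + r)).2 = 0 ∨ (kp4 (s + r)).2 = u) ∧ kp4 (s + r) ≠ 0 ∧
    kp4 (s + r) ≠ (a, 0)

instance (M : V4 × V4) : Decidable (un4 M) := inferInstanceAs (Decidable (∃ _, _))

theorem kp4_mem : ∀ M, gd4 M → (∀ s, (kp4 s).2 = 0 → gr4 M s) ∨ (∀ s, (kp4 s).1 = 0 → gr4 M s) ∨
    (∀ s, (kp4 s).1 = (kp4 s).2 → gr4 M s) ∨ un4 M := by
  decide +kernel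

theorem kp4_surj : ∀ p, ∃ s, kp4 s = p := by decide +kernel

theorem v4_ix : ∀ u x y : V4, u ≠ 0 → ¬(x = 0 ∨ x = u) → ¬(y = 0 ∨ y = u) → x + y = 0 ∨ x + y = u := by
  decide +kernel

theorem v4_cl : ∀ u x y : V4, (x = 0 ∨ x = u) → (y = 0 ∨ y = u) → x + y = 0 ∨ x + y = u := by
  decide +kernel

theorem v4_out : ∀ u : V4, ∃ x : V4, ¬(x = 0 ∨ x = u) := by decide +kernel

variable {G : Type} [Group G]

theorem comm_of_sq {H : Subgroup G} (h : ∀ x ∈ H, x * x = 1) {a b : G} (ha : a ∈ H) (hb : b ∈ H) :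
    a * b = b * a := by
  rw [← inv_eq_of_mul_eq_one_right (h _ (H.mul_mem ha hb)), mul_inv_rev,
    inv_eq_of_mul_eq_one_right (h a ha), inv_eq_of_mul_eq_one_right (h b hb)]

theorem Ix2.half [Finite G] {L W : Subgroup G} (h : Ix2 L ⊤) (n : ¬W ≤ L) :
    Nat.card W = 2 * Nat.card (W ⊓ L : Subgroup G) :=
  Ix2.card ⟨inf_le_left, fun l => n (l.trans inf_le_right), fun a aW aL b bW bL =>
    ⟨W.mul_mem (W.inv_mem aW) bW, h.two a trivial (fun c => aL ⟨aW, c⟩) b trivial fun c => bL ⟨bW, c⟩⟩⟩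

theorem Ix2.half_le [Finite G] {L W : Subgroup G} (h : Ix2 L ⊤) :
    Nat.card W ≤ 2 * Nat.card (W ⊓ L : Subgroup G) := by
  by_cases n : W ≤ L
  · rw [inf_eq_left.2 n]; omega
  · exact (h.half n).le

theorem ex_ix2 [Finite G] {k : ℕ} (c : Nat.card G = 2 ^ k) {K : Subgroup G} (ne : K ≠ ⊤) :
    ∃ L, K ≤ L ∧ Ix2 L ⊤ := by
  obtain ⟨j, -, hj⟩ := (Nat.dvd_prime_pow Nat.prime_two).1 (c ▸ K.card_subgroup_dvd_card)
  have lt := Fam.card_lt_of_ne ne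
  rw [c, hj, Nat.pow_lt_pow_iff_right one_lt_two] at lt
  obtain ⟨L, a, b⟩ := Sylow.exists_subgroup_card_pow_prime_le 2 (m := k - 1)
    (c ▸ pow_dvd_pow 2 (Nat.sub_le _ _)) K hj (by omega)
  refine ⟨L, b, (ix2_iff le_top).2 ?_⟩
  rw [Subgroup.card_top, a, c, ← pow_succ', Nat.sub_add_cancel (by omega)]

/-- the image of the index set under two commuting involutions -/
def pw (a b : G) (i : V4) : G := a ^ i.1.val * b ^ i.2.val

theorem pw_val (a b : G) : pw a b 0 = 1 ∧ pw a b (1, 0) = a ∧ pw a b (0, 1) = b ∧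
    pw a b (1, 1) = a * b := by
  have : (1 : ZMod 2).val = 1 := rfl
  simp [pw, this]

theorem pw_add {a b : G} (ha : a * a = 1) (hb : b * b = 1) (c : a * b = b * a) (i j : V4) :
    pw a b (i + j) = pw a b i * pw a b j := by
  have k : ∀ {s : G}, s * s = 1 → ∀ x y : ZMod 2, s ^ (x + y).val = s ^ x.val * s ^ y.val :=
    fun {s} h x y => by
      rw [ZMod.val_add, ← pow_add, ← pow_eq_pow_mod _ (by rw [sq, h])]
  simp only [pw, Prod.fst_add, Prod.snd_add, k ha, k hb, mul_assoc]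
  rw [← mul_assoc (b ^ i.2.val), ← ((Commute.pow_pow c _ _).eq :), mul_assoc]

theorem pw_mem {H : Subgroup G} {a b : G} (ha : a ∈ H) (hb : b ∈ H) (i : V4) : pw a b i ∈ H :=
  H.mul_mem (H.pow_mem ha _) (H.pow_mem hb _)

theorem pw_bij [Finite G] {H : Subgroup G} (h : ∀ x ∈ H, x * x = 1) (c : Nat.card H = 4) {a b : G}
    (ha : a ∈ H) (hb : b ∈ H) (a1 : a ≠ 1) (b1 : b ≠ 1) (ab : a ≠ b) :
    (∀ i, pw a b i = 1 → i = 0) ∧ ∀ x ∈ H, ∃ i, pw a b i = x := by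
  obtain ⟨v0, v1, v2, v3⟩ := pw_val a b
  have k : ∀ i, pw a b i = 1 → i = 0 := fun i q => by
    rcases v4_cases i with rfl | rfl | rfl | rfl
    exacts [rfl, (a1 (v1 ▸ q)).elim, (b1 (v2 ▸ q)).elim,
      (ab (mul_left_cancel ((h a ha).trans (v3 ▸ q).symm))).elim]
  have j : Function.Injective fun i => (⟨pw a b i, pw_mem ha hb i⟩ : H) := fun i j q => by
    have := k (i + j) (by
      rw [pw_add (h a ha) (h b hb) (comm_of_sq h ha hb), show pw a b i = _ from congrArg Subtype.val q]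
      exact h _ (pw_mem ha hb j))
    exact add_right_cancel (this.trans (v4_add' j).symm)
  refine ⟨k, fun x hx => ?_⟩
  obtain ⟨i, q⟩ := (j.bijective_of_nat_card_le (by simp [c])).2 ⟨x, hx⟩
  exact ⟨i, congrArg Subtype.val q⟩

namespace Fam
variable [Finite G] {F : Fam G} {H M N L : Subgroup G}

theorem Big.three (b : F.Big) {U : Subgroup G} (u : U ∈ F.s) : 3 ≤ Nat.card U := by
  obtain ⟨x, hx, y, hy, x1, y1, xy⟩ := three_le b.nb b.nr u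
  have := Fintype.ofFinite U
  rw [Nat.card_eq_fintype_card]
  exact Fintype.two_lt_card_iff.2 ⟨1, ⟨x, hx⟩, ⟨y, hy⟩, fun q => x1 (congrArg Subtype.val q).symm,
    fun q => y1 (congrArg Subtype.val q).symm, fun q => xy (congrArg Subtype.val q)⟩

theorem Net.pow (n : F.Net H M N ⊤) (b : F.Big) : ∃ k, Nat.card H = 2 ^ k :=
  IsPGroup.exists_card_eq (p := 2) fun x => ⟨1, Subtype.ext (by simpa [pow_two] using n.sw.sq b x.2)⟩

theorem Net.nle (n : F.Net H M N ⊤) (l : H ≤ L) (i : Ix2 L ⊤) {W : Subgroup G} (r : F.Reg H W) :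
    ¬W ≤ L := fun c => i.ne fun g _ => by
  obtain ⟨h, a, d⟩ := (n.fac r).2 g
  exact (L.mul_mem_cancel_left (L.inv_mem (l a))).1 (c d)

/-- G4 -/
theorem Net.ix (n : F.Net H M N ⊤) (b : F.Big) (l : H ≤ L) (i : Ix2 L ⊤) :
    (Nat.card H = 4 ∧ F.DihT L) ∨ (Nat.card H = 8 ∧ F.B4T L) := by
  rcases b.sub (cl_of_mem (F.up n.hm.1.1.1 l)) (fun q => i.ne q.ge) with ⟨W, w, d⟩ | a | a
  · have := i.half_le (W := W)
    have := b.three w.1
    rw [d, Subgroup.card_bot] at *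
    omega
  · refine .inl ⟨?_, a⟩
    obtain ⟨T, h1, h2, -⟩ := a
    obtain ⟨t, ht, tM⟩ := h2 M n.hm.1.2.1.1
    obtain ⟨-, t1, tt, W, w, k⟩ := h1 t ht
    have r : F.Reg H W := ⟨n.hm.1.1, w, eq_bot_iff.2 fun x hx => (k x hx.2 (l hx.1)).resolve_right
      fun q => t1 (triv n.hm.1.2.2 (q ▸ hx.1) tM)⟩
    have c1 := i.half_le (W := W)
    have c2 : Nat.card (W ⊓ L : Subgroup G) ≤ Nat.card (Subgroup.zpowers t) :=
      Subgroup.card_le_of_le fun x hx => (zp_iff tt).2 (k x hx.1 hx.2)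
    rw [Nat.card_zpowers, orderOf_eq_prime (p := 2) (by rw [pow_two, tt]) t1] at c2
    have c3 := b.three w.1
    rw [(n.fac r).1] at c1 c3
    obtain ⟨k, q⟩ := n.pow b
    have : Nat.card H ≠ 3 := fun z => by
      rcases k with _ | k <;> omega
    omega
  · refine .inr ⟨?_, a⟩
    obtain ⟨e, E, eL, h5, h6⟩ := a
    obtain ⟨c, g, lM⟩ := h6 M n.hm.1.2.1.1
    obtain ⟨W, w, k⟩ := h5 c g
    have r : F.Reg H W := ⟨n.hm.1.1, w, eq_bot_iff.2 fun x hx =>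
      triv n.hm.1.2.2 hx.1 (lM (k ⟨hx.2, l hx.1⟩))⟩
    have c1 := i.half_le (W := W)
    have c2 := Subgroup.card_le_of_le k
    have c3 := i.half (n.nle l i n.hm.1)
    have c4 := Subgroup.card_le_of_le (le_inf lM (E.pl_le.2 fun p _ => eL p))
    rw [E.card_pl] at c2 c4
    rw [(n.fac r).1] at c1
    rw [n.cm] at c3
    omega

/-- the elements of `H` centralise the plane inside `M` -/
theorem Net.cen (n : F.Net H M N ⊤) (b : F.Big) {e : V4 × V4 → G} (E : E4 e)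
    (h6 : ∀ U ∈ F.s, ∃ M, gd4 M ∧ E.pl M ≤ U) {a c : V4 × V4} (ga : gd4 a) (gc : gd4 c)
    (la : E.pl a ≤ H) (lc : E.pl c ≤ M) {h : G} (hH : h ∈ H) {m : G} (hm : m ∈ E.pl c) :
    h * m = m * h := by
  obtain ⟨d, gd, ld⟩ := h6 N n.hn.2.1.1
  have ac := E.dis la lc n.hm.1.2.2
  have ad := E.dis la ld n.hn.2.2
  have dc := E.dis ld lc n.nm.2.2
  have cd := E.dis lc ld n.nm.symm.2.2
  obtain ⟨c', g1, l1⟩ := h6 _ (F.conj h n.hm.1.2.1.1)
  obtain rfl := b4_third a ga c gc ac d gd ad cd c' g1 (E.dis la l1 (n.conj n.hm.1 h).2.2)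
    (E.dis ld l1 (n.sw'.sw.conj n.nm h).2.2)
  obtain ⟨d', g2, l2⟩ := h6 _ (F.conj h n.hn.2.1.1)
  obtain rfl := b4_third a ga d gd ad c' gc ac dc d' g2 (E.dis la l2 (n.conj n.hn h).2.2)
    (E.dis lc l2 (n.sw.conj n.nm.symm h).2.2)
  obtain ⟨p, hp, rfl⟩ := hm
  obtain ⟨q, hq, k, -⟩ := b4_split a ga c' gc ac d' gd ad cd p hp
  have x1 := mem_cj.1 (E.pl_le.1 l2 _ k)
  have x2 := E.pl_le.1 ld _ k
  have cm := comm_of_sq (fun x => n.sw.sq b) (H.inv_mem hH) (E.pl_le.1 la q hq)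
  rw [E.mul] at x1 x2
  rw [← mul_assoc, cm] at x1
  have := triv n.nm.2.2 (N.mul_mem (N.inv_mem x2) x1) (by
    simpa [mul_assoc] using M.mul_mem (M.inv_mem (E.pl_le.1 lc p hp)) (mem_cj.1 (E.pl_le.1 l1 p hp)))
  rw [inv_mul_eq_one, mul_assoc, mul_assoc, mul_right_inj, ← mul_assoc, mul_assoc,
    eq_inv_mul_iff_mul_eq] at this
  exact this

/-- G5 -/
theorem Net.ne8 (n : F.Net H M N ⊤) (b : F.Big) : Nat.card H = 4 := by
  obtain ⟨k, hk⟩ := n.pow b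
  have cG : Nat.card G = 2 ^ (k + k) := by rw [pow_add, ← hk, ← n.cx, Subgroup.card_top]
  obtain ⟨x, xM, x1⟩ := n.hm.1.2.1.ex_ne b.nb
  obtain ⟨L, l, i⟩ := ex_ix2 cG (K := H) fun q => x1 (triv n.hm.1.2.2 (q ▸ Subgroup.mem_top x) xM)
  refine (n.ix b l i).elim And.left fun ⟨c8, e, E, eL, h5, h6⟩ => ?_
  exfalso
  obtain ⟨a, ga, la⟩ := h6 H n.hm.1.1.1
  obtain ⟨c, gc, lc⟩ := h6 M n.hm.1.2.1.1
  obtain ⟨d, gd, ld⟩ := h6 N n.hn.2.1.1
  have ac := E.dis la lc n.hm.1.2.2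
  have ad := E.dis la ld n.hn.2.2
  have cd := E.dis lc ld n.nm.symm.2.2
  obtain ⟨v, vN, vL⟩ := SetLike.not_le_iff_exists.1 (n.nle l i n.hn)
  obtain ⟨h, hH, mM⟩ := (n.fac n.hm.1).2 v
  obtain ⟨m, rfl⟩ : ∃ m, v = h * m := ⟨h⁻¹ * v, by group⟩
  rw [inv_mul_cancel_left] at mM
  have mL : m ∉ L := fun q => vL (L.mul_mem (l hH) q)
  have mm := n.sq b mM
  have hm : h * m = m * h := by
    rw [← inv_eq_of_mul_eq_one_right (n.sw'.sq b vN), mul_inv_rev, inv_eq_of_mul_eq_one_right mm,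
      inv_eq_of_mul_eq_one_right (n.sw.sq b hH)]
  have ha : h ∉ E.pl a := by
    rintro ⟨q, hq, rfl⟩
    obtain ⟨p, hp, k, -⟩ := b4_split c gc a ga (E.dis lc la n.hm.1.symm.2.2) d gd cd ad q hq
    have := triv n.nm.2.2 (N.mul_mem (N.inv_mem (E.pl_le.1 ld _ k)) vN) (by
      rw [add_comm, E.mul]
      simpa [mul_assoc] using M.mul_mem (M.inv_mem (E.pl_le.1 lc p hp)) mM)
    rw [inv_mul_eq_one, add_comm, E.mul, mul_right_inj] at this
    exact mL (this ▸ eL p)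
  have iH : Ix2 (E.pl a) H := (ix2_iff la).2 (by rw [E.card_pl, c8])
  have iM : Ix2 (E.pl c) M := (ix2_iff lc).2 (by rw [E.card_pl, n.cm, c8])
  have mc : ∀ y ∈ H, m * y = y * m := fun y hy => by
    by_cases q : y ∈ E.pl a
    · exact n.sw.cen b E h6 gc ga lc la mM q
    · have := n.sw.cen b E h6 gc ga lc la mM (iH.two h hH ha y hy q)
      calc m * y = h * (m * (h⁻¹ * y)) := by rw [← mul_assoc, hm]; group
        _ = _ := by rw [this]; group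
  let K := finSub {y | y ∈ H ∨ y * m ∈ H} (.inl H.one_mem) fun y hy z hz => by
    rcases hy with hy | hy <;> rcases hz with hz | hz
    · exact .inl (H.mul_mem hy hz)
    · exact .inr (mul_assoc y z m ▸ H.mul_mem hy hz)
    · exact .inr (by rw [mul_assoc, ← mc z hz, ← mul_assoc]; exact H.mul_mem hy hz)
    · refine .inl ?_
      have := H.mul_mem hy hz
      rwa [mul_assoc, mc _ hz, mul_assoc z, mm, mul_one] at this
  obtain ⟨L2, l2, i2⟩ := ex_ix2 cG (K := K) fun q => by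
    have y1 : e ((1, 0), lin4 c (1, 0)) ∈ M := E.pl_le.1 lc _ rfl
    rcases (q ▸ Subgroup.mem_top _ : e ((1, 0), lin4 c (1, 0)) ∈ K) with z | z
    · exact absurd (congrArg Prod.fst (E.eq_one.1 (triv n.hm.1.2.2 z y1)))
        (by decide : ((1, 0) : V4) ≠ 0)
    · exact mL ((L.mul_mem_cancel_left (eL _)).1 (l z))
  have hl : H ≤ L2 := fun y hy => l2 (.inl hy)
  obtain ⟨p, hp, pL⟩ : ∃ p, gr4 c p ∧ e p ∉ L2 := by
    by_contra q
    push Not at q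
    refine n.nle hl i2 n.hm.1 fun y hy => ?_
    by_cases z : y ∈ E.pl c
    · exact E.pl_le.2 q z
    · exact (L2.mul_mem_cancel_left (L2.inv_mem (l2 (.inr (mm ▸ H.one_mem))))).1
        (E.pl_le.2 q (iM.two m mM (fun w => mL (E.pl_le.2 (fun p _ => eL p) w)) y hy z))
  obtain ⟨q, hq, k, o, go, op, oq⟩ := b4_split a ga c gc ac d gd ad cd p hp
  obtain ⟨W, w, lW⟩ := h5 o go
  obtain ⟨o', -, lo⟩ := h6 W w.1
  obtain rfl := E.pl_inj ((le_inf lo (E.pl_le.2 fun p _ => eL p)).trans lW)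
  obtain ⟨-, e2, E2, eL2, -, g6⟩ := (n.ix b hl i2).resolve_left fun z => by omega
  obtain ⟨o2, -, lo2⟩ := g6 W w.1
  have c1 := i.half_le (W := W)
  have c2 := Subgroup.card_le_of_le lW
  have c3 := i2.half fun z => pL (z (E.pl_le.1 lo p op))
  rw [E.card_pl] at c2
  obtain ⟨s, -, hs⟩ := (Subgroup.eq_of_le_of_card_ge (le_inf lo2 (E2.pl_le.2 fun p _ => eL2 p))
    (by rw [E2.card_pl]; omega)).ge ⟨E.pl_le.1 lo q oq, hl (E.pl_le.1 la q hq)⟩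
  obtain ⟨c', g1, l1⟩ := g6 M n.hm.1.2.1.1
  obtain ⟨d', g2, l3⟩ := g6 N n.hn.2.1.1
  obtain ⟨r, hr, hr'⟩ := b4_span c' g1 d' g2 (E2.dis l1 l3 n.nm.symm.2.2) s
  have x1 := E2.pl_le.1 l3 _ hr'
  have x2 := E.pl_le.1 ld _ k
  rw [E2.mul, hs] at x1
  rw [add_comm, E.mul] at x2
  have := triv n.nm.2.2 (N.mul_mem x1 (N.inv_mem x2)) (by
    simpa [mul_assoc] using M.mul_mem (E2.pl_le.1 l1 r hr) (M.inv_mem (E.pl_le.1 lc p hp)))
  rw [mul_inv_eq_one, mul_left_inj] at this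
  exact pL (this ▸ eL2 r)

/-- G6 -/
theorem Net.top (n : F.Net H M N ⊤) (b : F.Big) : F.B4A := by
  have c4 := n.ne8 b
  obtain ⟨v, vN, w, wN, v1, w1, vw⟩ := three_le b.nb b.nr n.hn.2.1.1
  have sH := fun x => n.sw.sq b (m := x)
  have sM := fun x => n.sq b (m := x)
  have sN := fun x => n.sw'.sq b (m := x)
  have dec : ∀ v ∈ N, v ≠ 1 → ∃ h ∈ H, ∃ m ∈ M, h * m = v ∧ h ≠ 1 ∧ m ≠ 1 ∧ h * m = m * h :=
    fun v vN v1 => by
      obtain ⟨h, hH, mM⟩ := (n.fac n.hm.1).2 v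
      refine ⟨h, hH, _, mM, by group, fun q => v1 (triv n.nm.2.2 vN (by simpa [q] using mM)),
        fun q => v1 (triv n.hn.2.2 (inv_mul_eq_one.1 q ▸ hH) vN), ?_⟩
      conv_rhs => rw [← inv_eq_of_mul_eq_one_right (sM _ mM), mul_inv_rev, inv_inv, mul_assoc,
        sH _ hH, mul_one, inv_eq_of_mul_eq_one_right (sN _ vN)]
      group
  have un : ∀ {h h' m m' : G}, h ∈ H → m ∈ M → h' ∈ H → m' ∈ M → h * m ∈ N → h' * m' ∈ N →
      (h = h' ↔ m = m') := fun {h h' m m'} a c a' c' d d' =>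
    ⟨fun q => inv_mul_eq_one.1 (triv n.nm.2.2 (by simpa [q, mul_assoc] using N.mul_mem (N.inv_mem d) d')
      (M.mul_mem (M.inv_mem c) c')), fun q => mul_inv_eq_one.1 (triv n.hn.2.2 (H.mul_mem a (H.inv_mem a'))
        (by simpa [q, mul_assoc] using N.mul_mem d (N.inv_mem d')))⟩
  obtain ⟨h1, a1, m1, c1, rfl, h11, m11, k1⟩ := dec v vN v1
  obtain ⟨h2, a2, m2, c2, rfl, h21, m21, k2⟩ := dec w wN w1
  have nh : h1 ≠ h2 := fun q => vw (by rw [q, (un a1 c1 a2 c2 vN wN).1 q])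
  have nm : m1 ≠ m2 := fun q => nh ((un a1 c1 a2 c2 vN wN).2 q)
  obtain ⟨iH, jH⟩ := pw_bij sH c4 a1 a2 h11 h21 nh
  obtain ⟨iM, jM⟩ := pw_bij sM (n.cm.trans c4) c1 c2 m11 m21 nm
  have k3 : h1 * m1 * (h2 * m2) = h1 * h2 * (m1 * m2) := by
    have z := N.mul_mem vN wN
    have z1 : h1 * m1 * (h2 * m2) ≠ 1 := fun q => vw (mul_left_cancel ((sN _ vN).trans q.symm))
    obtain ⟨h, a, m, c, q, h0, m0, -⟩ := dec _ z z1
    have n1 : h * m ≠ h1 * m1 := fun r => w1 (mul_left_cancel ((q.symm.trans r).trans (mul_one _).symm))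
    have n2 : h * m ≠ h2 * m2 := fun r => v1 (mul_right_cancel ((q.symm.trans r).trans (one_mul _).symm))
    have u1 := un a c a1 c1 (q ▸ z) vN
    have u2 := un a c a2 c2 (q ▸ z) wN
    obtain ⟨i, rfl⟩ := jH h a
    obtain ⟨j, rfl⟩ := jM m c
    obtain ⟨p0, p1, p2, p3⟩ := pw_val h1 h2
    obtain ⟨q0, q1, q2, q3⟩ := pw_val m1 m2
    rw [← q]
    rcases v4_cases i with rfl | rfl | rfl | rfl
    · exact (h0 p0).elim
    · exact (n1 (by rw [u1.1 p1, p1])).elim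
    · exact (n2 (by rw [u2.1 p2, p2])).elim
    rcases v4_cases j with rfl | rfl | rfl | rfl
    · exact (m0 q0).elim
    · exact (n1 (by rw [u1.2 q1, q1])).elim
    · exact (n2 (by rw [u2.2 q2, q2])).elim
    · rw [p3, q3]
  have can : ∀ {a b c d : G}, a * b * (c * d) = a * c * (b * d) → b * c = c * b := fun q => by
    rwa [mul_assoc, mul_assoc, mul_right_inj, ← mul_assoc, ← mul_assoc, mul_left_inj] at q
  have k4 : m1 * h2 = h2 * m1 := can k3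
  have k5 : m2 * h1 = h1 * m2 := by
    rw [comm_of_sq sN vN wN, comm_of_sq sH a1 a2, comm_of_sq sM c1 c2] at k3
    exact can k3
  have cm : ∀ i j, pw m1 m2 i * pw h1 h2 j = pw h1 h2 j * pw m1 m2 i := fun i j =>
    (((Commute.pow_pow k1.symm _ _).mul_right (Commute.pow_pow k4 _ _)).mul_left
      ((Commute.pow_pow k5 _ _).mul_right (Commute.pow_pow k2.symm _ _))).eq
  obtain ⟨e, he⟩ : ∃ e : V4 × V4 → G, ∀ p, e p = pw h1 h2 p.1 * pw m1 m2 p.2 := ⟨_, fun _ => rfl⟩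
  have mul : ∀ p q, e (p + q) = e p * e q := fun p q => by
    rw [he, he, he, Prod.fst_add, Prod.snd_add, pw_add (sH _ a1) (sH _ a2) (comm_of_sq sH a1 a2),
      pw_add (sM _ c1) (sM _ c2) (comm_of_sq sM c1 c2), mul_assoc, mul_assoc, ← mul_assoc (pw m1 m2 _),
      cm, ← mul_assoc (pw h1 h2 q.1), mul_assoc]
  have eH : ∀ p, e p ∈ H ↔ p.2 = 0 := fun p => by
    rw [he, H.mul_mem_cancel_left (pw_mem a1 a2 _)]
    exact ⟨fun q => iM _ (triv n.hm.1.2.2 q (pw_mem c1 c2 _)), fun q => by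
      rw [q, (pw_val _ _).1]; exact H.one_mem⟩
  have eM : ∀ p, e p ∈ M ↔ p.1 = 0 := fun p => by
    rw [he, M.mul_mem_cancel_right (pw_mem c1 c2 _)]
    exact ⟨fun q => iH _ (triv n.hm.1.2.2 (pw_mem a1 a2 _) q), fun q => by
      rw [q, (pw_val _ _).1]; exact M.one_mem⟩
  have E : E4 e := ⟨mul, fun p q r => by
    have z : e 0 = 1 := by simpa using mul 0 0
    have : e (p + q) = 1 := by rw [mul, r, ← mul, v4_add, z]
    have : p + q = 0 := Prod.ext ((eM _).1 (this ▸ M.one_mem)) ((eH _).1 (this ▸ H.one_mem))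
    exact add_right_cancel (this.trans (v4_add q).symm)⟩
  have su : ∀ g, ∃ p, e p = g := fun g => by
    obtain ⟨h, a, c⟩ := (n.fac n.hm.1).2 g
    obtain ⟨i, rfl⟩ := jH h a
    obtain ⟨j, q⟩ := jM _ c
    exact ⟨(i, j), by rw [he, q]; group⟩
  have eN' : ∀ i, e (i, i) ∈ N := fun i => by
    obtain ⟨p0, p1, p2, p3⟩ := pw_val h1 h2
    obtain ⟨q0, q1, q2, q3⟩ := pw_val m1 m2
    rw [he]
    rcases v4_cases i with rfl | rfl | rfl | rfl
    · rw [p0, q0, mul_one]; exact N.one_mem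
    · rwa [p1, q1]
    · rwa [p2, q2]
    · rw [p3, q3, ← k3]; exact N.mul_mem vN wN
  have eN : ∀ p, e p ∈ N → p.1 = p.2 := fun p q => by
    have := N.mul_mem q (eN' p.1)
    rw [← mul] at this
    have := congrArg Prod.snd (E.eq_one.1 (triv n.nm.2.2 this ((eM _).2 (v4_add' _))))
    exact (add_right_cancel (this.trans (v4_add' p.1).symm)).symm
  have key : ∀ u : V4, u ≠ 0 → (∀ U ∈ F.s, ∃ p, tt4 u p ∧ e p ∈ U) ∧ ∀ a : V4, a ≠ 0 → a ≠ u →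
      ∃ W, F.Mem W ∧ ∀ p, e p ∈ W → (p.2 = 0 ∨ p.2 = u) → p = 0 ∨ p = (a, 0) := fun u u0 => by
    let L := E.sb (fun p => p.2 = 0 ∨ p.2 = u) (.inl rfl) fun p a q c => v4_cl u _ _ a c
    have eL : ∀ p, e p ∈ L ↔ p.2 = 0 ∨ p.2 = u := fun p => E.mem_sb
    obtain ⟨-, T, t1, t2, t3⟩ := (n.ix b (L := L) (fun x hx => by
      obtain ⟨p, rfl⟩ := su x
      exact (eL p).2 (.inl ((eH p).1 hx))) ⟨le_top, fun q => by
        obtain ⟨x, hx⟩ := v4_out u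
        exact hx ((eL (0, x)).1 (q trivial)), fun x _ hx y _ hy => by
        obtain ⟨p, rfl⟩ := su x
        obtain ⟨q, rfl⟩ := su y
        rw [E.inv, ← mul, eL]
        exact v4_ix u _ _ u0 (mt (eL p).2 hx) (mt (eL q).2 hy)⟩).resolve_right fun z => by omega
    have tp : ∀ p, e p ∈ T → (p.2 = 0 ∨ p.2 = u) ∧ p ≠ 0 := fun p q =>
      ⟨(eL p).1 (t1 _ q).1, mt E.eq_one.2 (t1 _ q).2.1⟩
    have t4 : ∀ p q r, e p ∈ T → e q ∈ T → e r ∈ T → e (p + q + r) ∈ T := fun p q r x y z => by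
      rw [mul, mul]; exact t3 _ x _ y _ z
    have t5 : ∀ U ∈ F.s, ∃ p, e p ∈ T ∧ e p ∈ U := fun U m => by
      obtain ⟨t, x, y⟩ := t2 U m
      obtain ⟨p, rfl⟩ := su t
      exact ⟨p, x, y⟩
    obtain ⟨⟨a, a'⟩, aT, aH⟩ := t5 H n.hm.1.1.1
    obtain rfl : a' = 0 := (eH _).1 aH
    have a0 : a ≠ 0 := fun q => (tp _ aT).2 (by rw [q]; rfl)
    obtain ⟨⟨c', c⟩, cT, cM⟩ := t5 M n.hm.1.2.1.1
    obtain rfl : c' = 0 := (eM _).1 cM
    obtain rfl : c = u := (tp _ cT).1.resolve_left fun q => (tp _ cT).2 (Prod.ext rfl q)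
    obtain ⟨⟨d', d⟩, dT, dN⟩ := t5 N n.hn.2.1.1
    obtain rfl : d' = d := eN _ dN
    obtain rfl : d' = c := (tp _ dT).1.resolve_left fun q => (tp _ dT).2 (Prod.ext q q)
    refine ⟨fun U m => ?_, fun a' x y => ?_⟩
    · obtain ⟨p, pT, pU⟩ := t5 U m
      rcases tt4_key d' a a0 p (tp p pT).1 (tp p pT).2 with z | z | z | z | z
      exacts [((tp _ (t4 _ _ _ aT cT dT)).2 z).elim, ((tp _ (t4 _ _ _ pT cT dT)).2 z).elim,
        ((tp _ (t4 _ _ _ pT aT cT)).2 z).elim, ((tp _ (t4 _ _ _ pT aT dT)).2 z).elim, ⟨p, z, pU⟩]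
    · have : e (a', 0) ∈ T := by
        rcases tt4_all d' a a' u0 a0 x y with z | z | z
        exacts [((tp _ (t4 _ _ _ aT cT dT)).2 z).elim, z ▸ aT, z ▸ t4 _ _ _ aT cT dT]
      obtain ⟨-, -, -, W, w, k⟩ := t1 _ this
      exact ⟨W, w, fun p z z' => (k _ z ((eL p).2 z')).imp E.eq_one.1 fun q => E.inj q⟩
  have E' : E4 fun s => e (kp4 s) :=
    ⟨fun p q => by rw [kp4_add, mul], fun p q r => kp4_inj _ _ (E.inj r)⟩
  have h6 : ∀ U ∈ F.s, ∃ M, gd4 M ∧ E'.pl M ≤ U := fun U m => by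
    obtain ⟨p, p1, p2⟩ := (key (1, 0) (by decide)).1 U m
    obtain ⟨q, q1, q2⟩ := (key (0, 1) (by decide)).1 U m
    obtain ⟨r, r1, r2⟩ := (key (1, 1) (by decide)).1 U m
    obtain ⟨M, g, k⟩ := kp4_six p p1 q q1 r r1
    refine ⟨M, g, E'.pl_le.2 fun s hs => ?_⟩
    rcases k s hs with z | z | z | z | z | z | z <;> rw [z]
    exacts [E.zero ▸ U.one_mem, p2, q2, r2, mul _ _ ▸ U.mul_mem p2 q2, mul _ _ ▸ U.mul_mem p2 r2,
      mul _ _ ▸ U.mul_mem q2 r2]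
  have up : ∀ M', ∀ U ∈ F.s, (∀ s, e (kp4 s) ∈ U → gr4 M' s) → E'.pl M' ∈ F.s := fun M' U m k =>
    F.up m fun x hx => by
      obtain ⟨p, rfl⟩ := su x
      obtain ⟨s, rfl⟩ := kp4_surj p
      exact E'.mem_pl.2 (k s hx)
  refine b4a_of E' (fun M' g => ?_) h6
  rcases kp4_mem M' g with z | z | z | ⟨u, a, u0, a0, au, z, -, z'⟩
  · exact up _ H n.hm.1.1.1 fun s k => z s ((eH _).1 k)
  · exact up _ M n.hm.1.2.1.1 fun s k => z s ((eM _).1 k)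
  · exact up _ N n.hn.2.1.1 fun s k => z s (eN _ k)
  · obtain ⟨W, w, k⟩ := (key u u0).2 a a0 au
    obtain ⟨M2, g2, l⟩ := h6 W w.1
    obtain rfl := z M2 g2 fun s hs => k _ (E'.pl_le.1 l s hs)
    refine up _ W w.1 fun s hs => by_contra fun q => ?_
    obtain ⟨r, r1, r2, r3, r4⟩ := z' s q
    exact (k _ (E'.mul s r ▸ W.mul_mem hs (E'.pl_le.1 l r r1) :) r2).elim r3 r4

end Fam

/-- case (G): a regular pair forces the sporadic atom -/
theorem sBig_of' (hR : S_R) (ho : S_out) (hA : S_A) : S_big := fun G _ _ F ih hF h r hb h2 => by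
  obtain ⟨H, M, rg⟩ := hA G F ih hF h r hb h2
  obtain ⟨H, M, lr⟩ := rg.least
  obtain ⟨N, X, n⟩ := hR G F hF h r hb h2 H M lr
  by_cases q : X = ⊤
  · subst q
    exact n.top ⟨ih, hF, h, r, hb, h2⟩
  have hX := F.up n.hn.1.1 n.lh
  have mH := Fam.mem_lnk hX n.hn.1.1 n.lh
  have mM := Fam.mem_lnk hX n.nm.2.1.1 n.lm
  have mN := Fam.mem_lnk hX n.nm.1.1 n.ln
  rcases Fam.round_cases ih (Fam.card_lt_of_ne q) (F := F.lnk X hX)
    (fun g hg => Subtype.ext (triv n.hm.1.2.2 (hg _ mH) (hg _ mM))) (h.lnk hX) (fun x y d => by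
      rcases d _ mH with a | a <;> rcases d _ mM with b | b <;> rcases d _ mN with c | c <;>
      first
        | exact .inl (Subtype.ext (triv n.hm.1.2.2 a b))
        | exact .inr (Subtype.ext (triv n.hm.1.2.2 a b))
        | exact .inl (Subtype.ext (triv n.hn.2.2 a c))
        | exact .inr (Subtype.ext (triv n.hn.2.2 a c))
        | exact .inl (Subtype.ext (triv n.nm.2.2 c b))
        | exact .inr (Subtype.ext (triv n.nm.2.2 c b))) with a | a | a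
  · exact (hb (F.up a (Subgroup.map_bot _).le)).elim
  · obtain ⟨-, T, -, h1, h3, -⟩ := a
    obtain ⟨t, ht, -⟩ := h3 _ mH
    obtain ⟨t1, tt, ts⟩ := h1 t ht
    exact (h2 t ⟨fun z => t1 (Subtype.ext z), congrArg Subtype.val tt,
      F.up ts (MonoidHom.map_zpowers _ _).le⟩).elim
  obtain ⟨e, E, h5, h6⟩ := a.e4
  have E' : E4 fun p => (e p).1 :=
    ⟨fun p q => congrArg Subtype.val (E.mul p q), fun p q k => E.inj (Subtype.ext k)⟩
  have h5' : ∀ M, gd4 M → E'.pl M ∈ F.s := fun M g => F.up (h5 M g) (by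
    rintro _ ⟨_, ⟨p, a, rfl⟩, rfl⟩
    exact ⟨p, a, rfl⟩)
  refine Fam.b4a_of E' h5' (ho G F h hb h2 _ E' h5' fun U u k => ?_)
  obtain ⟨M, g, l⟩ := h6 _ (Fam.mem_lnk hX u fun x hx => by
    obtain ⟨p, rfl⟩ := k x hx
    exact (e p).2)
  exact ⟨M, g, E'.pl_le.2 (E.pl_le.1 l)⟩

end Pool.Agent.Lib.MP_3cc314_lc.Cg
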