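import Pool.Agent.Lib.MP_3cc314_lc.CgRS

set_option autoImplicit false

namespace Pool.Agent.Lib.MP_3cc314_lc.Cg
namespace G5

abbrev KK := V4 × V4

def sp (p q x : KK) : Bool := decide (x = 0 ∨ x = p ∨ x = q ∨ x = p + q)

def ph (w : KK → Bool) (t : Bool) (a b c : V4) (x : KK) : ℤ :=
  (if t then 0 else 1) + (if t then -1 else 2) * (if w x then 1 else 0) + (if t then 1 else -1) *
    ((if x.1 = a then 1 else 0) + (if x.2 = b then 1 else 0) + if x.1 + x.2 = c then 1 else 0)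

abbrev chk (φ : KK → ℤ) (x : KK) : Prop := (∀ y, 0 ≤ φ y) ∧ 0 < φ x ∧
  ∀ u v : KK, 0 < φ (x + u) → 0 < φ (x + v) → 0 < φ (x + (u + v)) → u = 0 ∨ v = 0 ∨ u = v

def certs : List (KK × KK × Bool × V4 × V4 × V4 × KK) :=
  [(((0, 0), (0, 1)), ((0, 1), (1, 0)), true, (0, 0), (1, 0), (1, 0), ((0, 0), (1, 0))),
   (((0, 0), (0, 1)), ((1, 0), (0, 0)), true, (0, 0), (0, 0), (1, 1), ((0, 0), (1, 1))),
   (((0, 0), (0, 1)), ((1, 0), (1, 0)), true, (0, 0), (1, 0), (0, 1), ((0, 0), (1, 0))),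
   (((0, 0), (0, 1)), ((1, 1), (0, 0)), true, (0, 0), (0, 0), (1, 0), ((0, 0), (1, 0))),
   (((0, 0), (0, 1)), ((1, 1), (1, 0)), true, (0, 0), (1, 0), (0, 0), ((0, 0), (1, 0))),
   (((0, 0), (1, 0)), ((0, 1), (0, 0)), true, (0, 0), (0, 0), (1, 1), ((0, 0), (1, 1))),
   (((0, 0), (1, 0)), ((0, 1), (0, 1)), true, (0, 0), (0, 1), (1, 0), ((0, 0), (0, 1))),
   (((0, 0), (1, 0)), ((1, 0), (0, 1)), true, (0, 0), (0, 1), (0, 1), ((0, 0), (0, 1))),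
   (((0, 0), (1, 0)), ((1, 1), (0, 0)), true, (0, 0), (0, 0), (0, 1), ((0, 0), (0, 1))),
   (((0, 0), (1, 0)), ((1, 1), (0, 1)), true, (0, 0), (0, 1), (0, 0), ((0, 0), (0, 1))),
   (((0, 0), (1, 1)), ((0, 1), (0, 0)), true, (0, 0), (0, 0), (1, 0), ((0, 0), (1, 0))),
   (((0, 0), (1, 1)), ((0, 1), (0, 1)), true, (0, 0), (0, 1), (1, 1), ((0, 0), (0, 1))),
   (((0, 0), (1, 1)), ((1, 0), (0, 0)), true, (0, 0), (0, 0), (0, 1), ((0, 0), (0, 1))),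
   (((0, 0), (1, 1)), ((1, 0), (0, 1)), true, (0, 0), (0, 1), (0, 0), ((0, 0), (0, 1))),
   (((0, 0), (1, 1)), ((1, 1), (0, 1)), true, (0, 0), (0, 1), (0, 1), ((0, 0), (0, 1))),
   (((0, 1), (0, 0)), ((1, 0), (0, 1)), true, (0, 0), (0, 1), (0, 1), ((0, 0), (0, 1))),
   (((0, 1), (0, 0)), ((1, 0), (1, 0)), true, (0, 0), (1, 0), (0, 1), ((0, 0), (0, 1))),
   (((0, 1), (0, 0)), ((1, 0), (1, 1)), true, (0, 0), (1, 1), (0, 1), ((0, 0), (0, 1))),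
   (((0, 1), (0, 1)), ((1, 0), (0, 0)), true, (0, 0), (0, 1), (1, 0), ((0, 0), (0, 1))),
   (((0, 1), (0, 1)), ((1, 0), (0, 1)), true, (0, 0), (0, 1), (1, 1), ((0, 0), (0, 1))),
   (((0, 1), (0, 1)), ((1, 0), (1, 1)), true, (0, 0), (0, 1), (0, 1), ((0, 0), (0, 1))),
   (((0, 1), (1, 0)), ((1, 0), (0, 0)), true, (0, 0), (1, 0), (1, 0), ((0, 0), (0, 1))),
   (((0, 1), (1, 0)), ((1, 0), (0, 1)), true, (0, 0), (1, 1), (1, 1), ((0, 0), (0, 1))),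
   (((0, 1), (1, 0)), ((1, 0), (1, 0)), true, (0, 0), (1, 0), (1, 1), ((0, 0), (1, 0))),
   (((0, 1), (1, 0)), ((1, 0), (1, 1)), false, (0, 0), (0, 0), (0, 0), ((0, 1), (1, 0))),
   (((0, 1), (1, 1)), ((1, 0), (0, 0)), true, (0, 0), (1, 1), (1, 0), ((0, 0), (1, 0))),
   (((0, 1), (1, 1)), ((1, 0), (0, 1)), false, (0, 0), (0, 0), (0, 0), ((0, 1), (1, 0))),
   (((0, 1), (1, 1)), ((1, 0), (1, 0)), true, (0, 0), (1, 0), (1, 0), ((0, 0), (0, 1))),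
   (((0, 1), (1, 1)), ((1, 0), (1, 1)), true, (0, 0), (1, 1), (1, 1), ((0, 0), (0, 1)))]

theorem certs_ok : ∀ c ∈ certs,
    chk (ph (sp c.1 c.2.1) c.2.2.1 c.2.2.2.1 c.2.2.2.2.1 c.2.2.2.2.2.1) c.2.2.2.2.2.2 := by
  decide +kernel

set_option synthInstance.maxSize 4000 in
theorem planes : ∀ p q : KK, p ≠ 0 → q ≠ 0 → p ≠ q → (∀ x, sp p q x ↔ x.2 = 0) ∨
    (∀ x, sp p q x ↔ x.1 = 0) ∨ (∀ x, sp p q x ↔ x.1 = x.2) ∨
    (∃ v : V4, v ≠ 0 ∧ ∀ x, sp p q x ↔ (x.1 = 0 ∨ x.1 = v) ∧ (x.2 = 0 ∨ x.2 = v)) ∨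
    ∃ c ∈ certs, ∀ x, sp p q x = sp c.1 c.2.1 x := by
  decide +kernel

theorem hyp : ∀ p q r : KK, p ≠ 0 → q ≠ 0 → p ≠ q → ¬sp p q r →
    (∃ a : V4, a ≠ 0 ∧ (sp p q (a, 0) ∨ sp p q ((a, 0) + r))) ∧
    ∃ b : V4, b ≠ 0 ∧ (sp p q (0, b) ∨ sp p q ((0, b) + r)) := by
  decide +kernel

set_option synthInstance.maxSize 4000 in
theorem two_out : ∀ a y z : V4, a ≠ 0 → y ≠ 0 → y ≠ a → y + z ≠ 0 → y + z ≠ a → z = 0 ∨ z = a := by
  decide +kernel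

theorem sp_prod : ∀ (a b : V4) (x : KK), x.1 = 0 ∨ x.1 = a → x.2 = 0 ∨ x.2 = b →
    sp (a, 0) (0, b) x := by
  decide +kernel

theorem add_self : ∀ p : KK, p + p = 0 := by decide +kernel

def ps (c : V4) (x : KK) : ℤ :=
  1 - (if x.1 = c then 1 else 0) - (if x.2 = c then 1 else 0) + if x.1 + x.2 = 0 then 1 else 0

set_option synthInstance.maxSize 4000 in
theorem ps_ok : ∀ v : V4, v ≠ 0 → ∃ c, (∀ y, 0 ≤ ps c y) ∧ 0 < ps c (v, 0) ∧
    (∃ q : KK, q.2 = 0 ∧ ¬0 < ps c ((v, 0) + q)) ∧ (∃ q : KK, q.1 = 0 ∧ ¬0 < ps c ((v, 0) + q)) ∧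
    (∃ q : KK, q.1 = q.2 ∧ ¬0 < ps c ((v, 0) + q)) ∧ ∀ u : V4, u ≠ 0 → u = v ∨
      ∃ q : KK, ((q.1 = 0 ∨ q.1 = u) ∧ (q.2 = 0 ∨ q.2 = u)) ∧ ¬0 < ps c ((v, 0) + q) := by
  decide +kernel

theorem sum_diag : ∀ p q : KK, q.1 = q.2 → (p + q).1 + (p + q).2 = p.1 + p.2 := by decide +kernel

theorem v4_cases : ∀ v : V4, v = 0 ∨ v = (1, 0) ∨ v = (0, 1) ∨ v = (1, 1) := by decide

theorem v4_eq : ∀ a b : V4, b + a = 0 → a = b := by decide

open scoped Classical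

variable {G : Type} [Group G] {F : Fam G} {H M N X W : Subgroup G} {e : KK → G}

/-- coordinates -/
structure Co (H M N X : Subgroup G) (e : KK → G) : Prop where
  mul : ∀ p q, e (p + q) = e p * e q
  inj : Function.Injective e
  x : ∀ g, g ∈ X ↔ ∃ p, g = e p
  h : ∀ p, e p ∈ H ↔ p.2 = 0
  m : ∀ p, e p ∈ M ↔ p.1 = 0
  n : ∀ p, e p ∈ N ↔ p.1 = p.2

/-- extension by zero -/
noncomputable def ex (e : KK → G) (φ : KK → ℤ) (g : G) : ℤ :=
  if h : ∃ p, g = e p then φ h.choose else 0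

omit [Group G] in
theorem ex_e (i : Function.Injective e) (φ : KK → ℤ) (p : KK) : ex e φ (e p) = φ p := by
  have h : ∃ q, e p = e q := ⟨p, rfl⟩
  rw [ex, dif_pos h, ← i h.choose_spec]

theorem Co.zero (c : Co H M N X e) : e 0 = 1 := by
  have := c.mul 0 0
  rw [add_zero] at this
  exact left_eq_mul.1 this

theorem Co.add (c : Co H M N X e) {p q : KK} (a : e p ∈ W) (b : e q ∈ W) : e (p + q) ∈ W :=
  c.mul p q ▸ W.mul_mem a b

theorem Co.iff (c : Co H M N X e) {q : KK} (b : e q ∈ W) (p : KK) : e (p + q) ∈ W ↔ e p ∈ W := by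
  rw [c.mul, W.mul_mem_cancel_right b]

theorem Co.spm (c : Co H M N X e) {p q x : KK} (a : e p ∈ W) (b : e q ∈ W) (h : sp p q x) :
    e x ∈ W := by
  rcases of_decide_eq_true h with rfl | rfl | rfl | rfl
  exacts [c.zero ▸ W.one_mem, a, b, c.add a b]

theorem Co.ext (c : Co H M N X e) {A B : Subgroup G} (a : A ≤ X) (b : B ≤ X)
    (h : ∀ p, e p ∈ A ↔ e p ∈ B) : A = B := by
  ext g
  constructor
  · intro d
    obtain ⟨p, rfl⟩ := (c.x g).1 (a d)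
    exact (h p).1 d
  · intro d
    obtain ⟨p, rfl⟩ := (c.x g).1 (b d)
    exact (h p).2 d

/-- the extension lies in the span -/
def Gd (F : Fam G) (e : KK → G) (φ : KK → ℤ) : Prop := F.Sp (ex e φ)

theorem Gd.add {φ ψ : KK → ℤ} (a : Gd F e φ) (b : Gd F e ψ) : Gd F e fun x => φ x + ψ x :=
  (Fam.Sp.add a b).congr fun x => by unfold ex; split_ifs <;> simp

theorem Gd.sub {φ ψ : KK → ℤ} (a : Gd F e φ) (b : Gd F e ψ) : Gd F e fun x => φ x - ψ x :=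
  (Fam.Sp.sub a b).congr fun x => by unfold ex; split_ifs <;> simp

theorem Gd.congr {φ ψ : KK → ℤ} (a : Gd F e φ) (h : ∀ x, ψ x = φ x) : Gd F e ψ := by
  rwa [show ψ = φ from funext h]

variable [Finite G]

theorem Co.gd (c : Co H M N X e) (m : W ∈ F.s) (l : W ≤ X) {φ : KK → ℤ}
    (h : ∀ p q, e q ∈ W → φ (p + q) = φ p) : Gd F e φ :=
  Fam.Sp.of_inv m fun x u hu => by
    obtain ⟨q, rfl⟩ := (c.x u).1 (l hu)
    by_cases hx : ∃ p, x = e p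
    · obtain ⟨p, rfl⟩ := hx
      rw [← c.mul, ex_e c.inj, ex_e c.inj, h p q hu]
    · rw [ex, ex, dif_neg hx, dif_neg fun d =>
        hx ((c.x x).1 ((X.mul_mem_cancel_right (l hu)).1 ((c.x _).2 d)))]

theorem Co.cos (c : Co H M N X e) (h : F.SF) {φ : KK → ℤ} (g : Gd F e φ) (h0 : ∀ y, 0 ≤ φ y)
    {x : KK} (hx : 0 < φ x) : ∃ W, F.Mem W ∧ W ≤ X ∧ ∀ q, e q ∈ W → 0 < φ (x + q) := by
  obtain ⟨W, a, k, -⟩ := h.cos g (fun y => by unfold ex; split_ifs; exacts [h0 _, le_rfl])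
    (x := e x) (by rwa [ex_e c.inj])
  refine ⟨W, a, fun m hm => ?_, fun q hq => ?_⟩
  · have := k m hm
    by_contra n
    rw [ex, dif_neg fun d =>
      n ((X.mul_mem_cancel_left ((c.x _).2 ⟨x, rfl⟩)).1 ((c.x _).2 d))] at this
    exact this.false
  · have := k _ hq
    rwa [← c.mul, ex_e c.inj] at this

theorem Co.three (c : Co H M N X e) (hb : ⊥ ∉ F.s) (h2 : ∀ s, ¬F.Rfl s) (m : W ∈ F.s)
    (l : W ≤ X) : ∃ u v, e u ∈ W ∧ e v ∈ W ∧ u ≠ 0 ∧ v ≠ 0 ∧ u ≠ v := by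
  obtain ⟨x, xW, y, yW, x1, y1, n⟩ := Fam.three_le hb h2 m
  obtain ⟨u, rfl⟩ := (c.x x).1 (l xW)
  obtain ⟨v, rfl⟩ := (c.x y).1 (l yW)
  exact ⟨u, v, xW, yW, fun d => x1 (d ▸ c.zero), fun d => y1 (d ▸ c.zero), fun d => n (d ▸ rfl)⟩

theorem Co.gh (c : Co H M N X e) (nt : F.Net H M N X) (f : V4 → ℤ) : Gd F e fun x => f x.2 :=
  c.gd nt.hn.1.1 nt.lh fun p q hq => by simp [(c.h q).1 hq]

theorem Co.gm (c : Co H M N X e) (nt : F.Net H M N X) (f : V4 → ℤ) : Gd F e fun x => f x.1 :=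
  c.gd nt.nm.2.1.1 nt.lm fun p q hq => by simp [(c.m q).1 hq]

theorem Co.gn (c : Co H M N X e) (nt : F.Net H M N X) (f : V4 → ℤ) :
    Gd F e fun x => f (x.1 + x.2) :=
  c.gd nt.nm.1.1 nt.ln fun p q hq => by rw [sum_diag p q ((c.n q).1 hq)]

theorem Co.gw (c : Co H M N X e) (m : W ∈ F.s) (l : W ≤ X) :
    Gd F e fun x => if e x ∈ W then 1 else 0 :=
  c.gd m l fun p q hq => by rw [c.iff hq]

omit [Finite G] in
theorem ifs {P A B : Prop} (h : (A → (P ↔ B)) ∧ (B → (P ↔ A))) :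
    0 ≤ (if P then 1 else 0) + 1 - (if A then 1 else 0) - (if B then (1 : ℤ) else 0) ∧
    (0 < (if P then 1 else 0) + 1 - (if A then 1 else 0) - (if B then (1 : ℤ) else 0) ↔
      ¬A ∧ ¬B) := by
  by_cases P <;> by_cases A <;> by_cases B <;> simp_all

theorem Co.prod (c : Co H M N X e) (nt : F.Net H M N X) (h : F.SF) (hW : F.Mem W) (l : W ≤ X)
    {a b : V4} (a0 : a ≠ 0) (b0 : b ≠ 0) (aW : e (a, 0) ∈ W) (bW : e (0, b) ∈ W) (nH : ¬H ≤ W)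
    (nM : ¬M ≤ W) (x : KK) : e x ∈ W ↔ sp (a, 0) (0, b) x := by
  have o : e 0 ∈ W := c.zero ▸ W.one_mem
  have s : ∀ y : KK, e y = e (y.1, 0) * e (0, y.2) := fun y => by rw [← c.mul]; simp
  obtain ⟨g, gH, gW⟩ := SetLike.not_le_iff_exists.1 nH
  obtain ⟨p, rfl⟩ := (c.x g).1 (nt.lh gH)
  obtain ⟨g, gM, gW'⟩ := SetLike.not_le_iff_exists.1 nM
  obtain ⟨q, rfl⟩ := (c.x g).1 (nt.lm gM)
  have p1 : e (p.1, 0) ∉ W := by rw [← (c.h p).1 gH]; exact gW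
  have q2 : e (0, q.2) ∉ W := by rw [← (c.m q).1 gM]; exact gW'
  have g := (((c.gw hW.1 l).add (c.gh nt fun _ => 1)).sub
    (c.gm nt fun y => if e (y, 0) ∈ W then 1 else 0)).sub
    (c.gh nt fun y => if e (0, y) ∈ W then 1 else 0)
  have k : ∀ y : KK, (e (y.1, 0) ∈ W → (e y ∈ W ↔ e (0, y.2) ∈ W)) ∧
      (e (0, y.2) ∈ W → (e y ∈ W ↔ e (y.1, 0) ∈ W)) := fun y =>
    ⟨fun d => by rw [s y, W.mul_mem_cancel_left d], fun d => by rw [s y, W.mul_mem_cancel_right d]⟩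
  obtain ⟨U, hU, lU, kU⟩ := c.cos h g (fun y => (ifs (k y)).1)
    (x := (p.1, q.2)) ((ifs (k _)).2.2 ⟨p1, q2⟩)
  have key : ∀ y, e y ∈ U → sp (a, 0) (0, b) y := fun y hy => by
    have d := (ifs (k _)).2.1 (kU y hy)
    have d1 : e (p.1 + y.1, 0) ∉ W := d.1
    have d2 : e (0, q.2 + y.2) ∉ W := d.2
    exact sp_prod a b y
      (two_out a p.1 _ a0 (fun z => p1 (by rw [z]; exact o)) (fun z => p1 (by rw [z]; exact aW))
        (fun z => d1 (by rw [z]; exact o)) fun z => d1 (by rw [z]; exact aW))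
      (two_out b q.2 _ b0 (fun z => q2 (by rw [z]; exact o)) (fun z => q2 (by rw [z]; exact bW))
        (fun z => d2 (by rw [z]; exact o)) fun z => d2 (by rw [z]; exact bW))
  have eq : U = W := hW.eq hU.1 fun g hg => by
    obtain ⟨y, rfl⟩ := (c.x g).1 (lU hg)
    exact c.spm aW bW (key y hg)
  exact ⟨fun d => key x (eq ▸ d), c.spm aW bW⟩

theorem Co.all (c : Co H M N X e) (nt : F.Net H M N X) (h : F.SF) (hb : ⊥ ∉ F.s)
    (h2 : ∀ s, ¬F.Rfl s) (hW : F.Mem W) (l : W ≤ X) : W = H ∨ W = M ∨ W = N ∨ ∃ v : V4, v ≠ 0 ∧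
      ∀ p, e p ∈ W ↔ (p.1 = 0 ∨ p.1 = v) ∧ (p.2 = 0 ∨ p.2 = v) := by
  by_cases nH : H ≤ W
  · exact .inl (hW.eq nt.hn.1.1 nH).symm
  by_cases nM : M ≤ W
  · exact .inr (.inl (hW.eq nt.nm.2.1.1 nM).symm)
  obtain ⟨p, q, p0, q0, pq, k⟩ : ∃ p q : KK, p ≠ 0 ∧ q ≠ 0 ∧ p ≠ q ∧ ∀ x, e x ∈ W ↔ sp p q x := by
    obtain ⟨u, v, uW, vW, u0, v0, uv⟩ := c.three hb h2 hW.1 l
    by_cases d : ∀ r, e r ∈ W → sp u v r
    · exact ⟨u, v, u0, v0, uv, fun x => ⟨d x, c.spm uW vW⟩⟩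
    · push Not at d
      obtain ⟨r, rW, n⟩ := d
      obtain ⟨⟨a, a0, ha⟩, b, b0, hb'⟩ := hyp u v r u0 v0 uv n
      exact ⟨(a, 0), (0, b), fun z => a0 (congrArg Prod.fst z), fun z => b0 (congrArg Prod.snd z),
        fun z => a0 (congrArg Prod.fst z), c.prod nt h hW l a0 b0
          (ha.elim (c.spm uW vW) fun z => (c.iff rW _).1 (c.spm uW vW z))
          (hb'.elim (c.spm uW vW) fun z => (c.iff rW _).1 (c.spm uW vW z)) nH nM⟩
  rcases planes p q p0 q0 pq with d | d | d | ⟨v, v0, d⟩ | ⟨⟨p', q', t, a, b, c', x⟩, m, d⟩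
  · exact .inl (c.ext l nt.lh fun x => by rw [k, d, c.h])
  · exact .inr (.inl (c.ext l nt.lm fun x => by rw [k, d, c.m]))
  · exact .inr (.inr (.inl (c.ext l nt.ln fun x => by rw [k, d, c.n])))
  · exact .inr (.inr (.inr ⟨v, v0, fun x => by rw [k, d]⟩))
  · exfalso
    obtain ⟨c0, c1, c2⟩ := certs_ok _ m
    have g1 := c.gm nt fun y => if y = a then 1 else 0
    have g2 := c.gh nt fun y => if y = b then 1 else 0
    have g3 := c.gn nt fun y => if y = c' then 1 else 0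
    have g4 := c.gw hW.1 l
    have g : Gd F e (ph (sp p' q') t a b c') := by
      cases t
      · exact (((((c.gh nt fun _ => 1).add g4).add g4).sub ((g1.add g2).add g3))).congr fun y => by
          simp only [ph, k, d, Bool.false_eq_true, if_false]; ring
      · exact (((g1.add g2).add g3).sub g4).congr fun y => by
          simp only [ph, k, d, if_true]; ring
    obtain ⟨U, hU, lU, kU⟩ := c.cos h g c0 c1
    obtain ⟨u, v, uW, vW, u0, v0, uv⟩ := c.three hb h2 hU.1 lU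
    rcases c2 u v (kU _ uW) (kU _ vW) (kU _ (c.add uW vW)) with z | z | z
    exacts [u0 z, v0 z, uv z]

theorem Co.six (c : Co H M N X e) (nt : F.Net H M N X) (h : F.SF) (hb : ⊥ ∉ F.s)
    (h2 : ∀ s, ¬F.Rfl s) : F.Six H M N X e := by
  refine ⟨c.mul, c.inj, c.x, c.h, c.m, c.n, fun v v0 => ?_, fun W => c.all nt h hb h2⟩
  obtain ⟨a, c0, c1, ⟨q1, d1, n1⟩, ⟨q2, d2, n2⟩, ⟨q3, d3, n3⟩, c5⟩ := ps_ok v v0
  have g : Gd F e (ps a) := ((((c.gh nt fun _ => 1).sub (c.gm nt fun y => if y = a then 1 else 0)).sub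
    (c.gh nt fun y => if y = a then 1 else 0)).add
    (c.gn nt fun y => if y = 0 then 1 else 0)).congr fun y => rfl
  obtain ⟨U, hU, lU, kU⟩ := c.cos h g c0 c1
  rcases c.all nt h hb h2 hU lU with rfl | rfl | rfl | ⟨u, u0, d⟩
  · exact (n1 (kU _ ((c.h _).2 d1))).elim
  · exact (n2 (kU _ ((c.m _).2 d2))).elim
  · exact (n3 (kU _ ((c.n _).2 d3))).elim
  · rcases c5 u u0 with rfl | ⟨q, d4, n4⟩
    · exact ⟨U, hU, lU, d⟩
    · exact (n4 (kU _ ((d _).2 d4))).elim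

theorem cover {A B : Subgroup G} (a : A ≤ X) (b : B ≤ X) (d : A ⊓ B = ⊥)
    (c : Nat.card X ≤ Nat.card A * Nat.card B) {x : G} (hx : x ∈ X) :
    ∃ u ∈ A, ∃ v ∈ B, x = u * v := by
  let f : A × B → X := fun p => ⟨p.1 * p.2, X.mul_mem (a p.1.2) (b p.2.2)⟩
  have i : Function.Injective f := fun p q hpq => by
    have e : (p.1 : G) * p.2 = q.1 * q.2 := congrArg Subtype.val hpq
    have e1 : (q.1 : G)⁻¹ * p.1 = q.2 * (p.2 : G)⁻¹ := by
      rw [inv_mul_eq_iff_eq_mul, ← mul_assoc, ← e, mul_inv_cancel_right]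
    have m : (q.1 : G)⁻¹ * p.1 ∈ A ⊓ B :=
      ⟨A.mul_mem (A.inv_mem q.1.2) p.1.2, e1 ▸ B.mul_mem q.2.2 (B.inv_mem p.2.2)⟩
    rw [d, Subgroup.mem_bot] at m
    exact Prod.ext (Subtype.ext (inv_mul_eq_one.1 m).symm)
      (Subtype.ext (mul_inv_eq_one.1 (e1 ▸ m)).symm)
  obtain ⟨p, hp⟩ := (i.bijective_of_nat_card_le (by rwa [Nat.card_prod])).2 ⟨x, hx⟩
  exact ⟨p.1, p.1.2, p.2, p.2.2, (congrArg Subtype.val hp).symm⟩

theorem le4 {A : Subgroup G} (c : Nat.card A ≤ 4) {a b d x : G} (ha : a ∈ A) (hb : b ∈ A)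
    (hd : d ∈ A) (a1 : a ≠ 1) (b1 : b ≠ 1) (d1 : d ≠ 1) (ab : a ≠ b) (ad : a ≠ d) (bd : b ≠ d)
    (hx : x ∈ A) : x = 1 ∨ x = a ∨ x = b ∨ x = d := by
  by_contra n
  push Not at n
  obtain ⟨x1, xa, xb, xd⟩ := n
  have s : (({x, a, b, d, 1} : Finset G) : Set G) ⊆ A := by
    intro y hy
    simp only [Finset.coe_insert, Finset.coe_singleton, Set.mem_insert_iff,
      Set.mem_singleton_iff] at hy
    rcases hy with rfl | rfl | rfl | rfl | rfl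
    exacts [hx, ha, hb, hd, A.one_mem]
  have l := Set.ncard_le_ncard s
  rw [Set.ncard_coe_finset, Finset.card_insert_of_notMem (by simp [*]),
    Finset.card_insert_of_notMem (by simp [*]), Finset.card_insert_of_notMem (by simp [*]),
    Finset.card_pair d1] at l
  have : (A : Set G).ncard = Nat.card A := rfl
  omega

omit [Finite G] in
theorem eq_one {A B : Subgroup G} (d : A ⊓ B = ⊥) {x : G} (a : x ∈ A) (b : x ∈ B) : x = 1 :=
  Subgroup.mem_bot.1 (d ▸ ⟨a, b⟩)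

theorem sq_one (h : F.SF) (hb : ⊥ ∉ F.s) {A B C : Subgroup G} (mA : F.Mem A) (mB : F.Mem B)
    (mC : F.Mem C) (lA : A ≤ X) (lB : B ≤ X) (lC : C ≤ X) (ab : A ⊓ B = ⊥) (ac : A ⊓ C = ⊥)
    (cp : ∀ L W, F.Mem L → F.Mem W → L ⊓ W = ⊥ → Nat.card X ≤ Nat.card L * Nat.card W)
    (cb : C ⊓ B = ⊥) (c4 : Nat.card A ≤ 4) {x : G} (hx : x ∈ A) : x * x = 1 := by
  obtain ⟨g, gC, g1⟩ := mC.ex_ne hb
  obtain ⟨u, uA, m, mB', rfl⟩ := cover lA lB ab (cp A B mA mB ab) (lC gC)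
  have u1 : u ≠ 1 := fun d => g1 (eq_one cb gC (by rwa [d, one_mul]))
  have m1 : m ≠ 1 := fun d => g1 (eq_one ac (by rwa [d, mul_one]) gC)
  let f : G → ℤ := fun y => (if y ∈ X then 1 else 0) - (if y * m⁻¹ ∈ A then 1 else 0) -
    (if u⁻¹ * y ∈ B then 1 else 0) + if y ∈ C then 1 else 0
  have hf : F.Sp f := ((((Fam.Sp.iz (F.up mA.1 lA) 1).sub (Fam.Sp.iz (F.conj m⁻¹ mA.1) m)).sub
    (Fam.Sp.iz mB.1 u)).add (Fam.Sp.iz mC.1 1)).congr fun y => by simp [f, iz, mem_cj]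
  have k : ∀ y, (y * m⁻¹ ∈ A → y ∈ X ∧ (y ∈ C ↔ u⁻¹ * y ∈ B)) ∧ (u⁻¹ * y ∈ B → y ∈ X) ∧
      (y ∈ C → y ∈ X) := fun y => by
    refine ⟨fun d => ⟨(X.mul_mem_cancel_right (X.inv_mem (lB mB'))).1 (lA d), fun c => ?_,
      fun c => ?_⟩, fun d => (X.mul_mem_cancel_left (X.inv_mem (lA uA))).1 (lB d), fun d => lC d⟩
    · have := eq_one ac (x := y * (u * m)⁻¹)
        (by simpa [mul_assoc] using A.mul_mem d (A.inv_mem uA)) (C.mul_mem c (C.inv_mem gC))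
      rw [mul_inv_eq_one.1 this, inv_mul_cancel_left]
      exact mB'
    · have := eq_one ab (x := u⁻¹ * y * m⁻¹)
        (by simpa [mul_assoc] using A.mul_mem (A.inv_mem uA) d) (B.mul_mem c (B.inv_mem mB'))
      rw [mul_inv_eq_one, inv_mul_eq_iff_eq_mul] at this
      rwa [this]
  have k1 : ∀ y, 0 ≤ f y ∧ (0 < f y → y ∈ X ∧ y * m⁻¹ ∉ A) ∧ (1 < f y → y ∈ C) := fun y => by
    have := k y
    simp only [f]
    by_cases y ∈ X <;> by_cases y * m⁻¹ ∈ A <;> by_cases u⁻¹ * y ∈ B <;> by_cases y ∈ C <;> simp_all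
  have uB : u⁻¹ ∉ B := fun d => u1 (eq_one ab uA (B.inv_mem_iff.1 d))
  have f1 : f 1 = 2 := by
    have : m⁻¹ ∉ A := fun d => m1 (eq_one ab (A.inv_mem_iff.1 d) mB')
    simp only [f, one_mul, mul_one, this, uB, X.one_mem, C.one_mem]
    simp
  have fu : f u = 0 := by
    have : u ∉ C := fun d => u1 (eq_one ac uA d)
    have : u * m⁻¹ ∉ A := fun d =>
      m1 (eq_one ab (A.inv_mem_iff.1 ((A.mul_mem_cancel_left uA).1 d)) mB')
    simp [f, *, lA uA]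
  have tr : ∀ W, F.Mem W → (∀ w ∈ W, 0 < f w) → u ∉ W ∧ ∃ a ∈ A, a ∈ W ∧ a ≠ 1 := fun W mW s => by
    refine ⟨fun d => (fu ▸ s u d).false, ?_⟩
    by_contra n
    push Not at n
    have d : A ⊓ W = ⊥ := eq_bot_iff.2 fun a ha => n a ha.1 ha.2
    obtain ⟨a, aA, w, wW, e⟩ := cover lA (fun w hw => ((k1 w).2.1 (s w hw)).1) d (cp A W mA mW d)
      (lB mB')
    refine ((k1 w).2.1 (s w wW)).2 ?_
    rw [e]
    simpa using aA
  obtain ⟨W1, m1', s1, hf', h0'⟩ := h.cos hf (fun y => (k1 y).1) (x := 1) (by omega)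
  obtain ⟨W2, m2', s2, -⟩ := h.cos hf' h0' (x := 1) (by have := iz_le 1 W1 1; omega)
  obtain ⟨u1', a, aA, aW, a1⟩ := tr W1 m1' fun w hw => by simpa using s1 w hw
  obtain ⟨u2', b, bA, bW, b1⟩ := tr W2 m2' fun w hw => by
    have := s2 w hw
    have := iz_nonneg 1 W1 (1 * w)
    rw [one_mul] at *
    omega
  have w12 : ∀ y ∈ A, y ∈ W1 → y ∈ W2 → y = 1 := fun y yA y1 y2 => eq_one ac yA ((k1 y).2.2 (by
    have := s2 y y2
    rw [one_mul, iz_pos (by simpa using y1)] at this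
    omega))
  have n12 : a ≠ b := fun d => a1 (w12 a aA aW (d ▸ bW))
  have four : ∀ y ∈ A, y = 1 ∨ y = a ∨ y = b ∨ y = u := fun y => le4 c4 aA bA uA a1 b1 u1 n12
    (fun d => u1' (d ▸ aW)) fun d => u2' (d ▸ bW)
  have aa : a * a = 1 := by
    rcases four _ (A.mul_mem aA aA) with d | d | d | d
    · exact d
    · exact (a1 (mul_eq_left.1 d)).elim
    · exact (b1 (w12 b bA (d ▸ W1.mul_mem aW aW) bW)).elim
    · exact (u1' (d ▸ W1.mul_mem aW aW)).elim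
  have bb : b * b = 1 := by
    rcases four _ (A.mul_mem bA bA) with d | d | d | d
    · exact d
    · exact (a1 (w12 a aA aW (d ▸ W2.mul_mem bW bW))).elim
    · exact (b1 (mul_eq_left.1 d)).elim
    · exact (u2' (d ▸ W2.mul_mem bW bW)).elim
  have e1 : a * b = u := by
    rcases four _ (A.mul_mem aA bA) with d | d | d | d
    · exact (n12 (mul_left_cancel (aa.trans d.symm))).elim
    · exact (b1 (mul_eq_left.1 d)).elim
    · exact (a1 (mul_eq_right.1 d)).elim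
    · exact d
  have e2 : b * a = u := by
    rcases four _ (A.mul_mem bA aA) with d | d | d | d
    · exact (n12 (mul_left_cancel (d.trans bb.symm))).elim
    · exact (b1 (mul_eq_right.1 d)).elim
    · exact (a1 (mul_eq_left.1 d)).elim
    · exact d
  rcases four x hx with d | d | d | d <;> rw [d]
  · exact mul_one 1
  · exact aa
  · exact bb
  · nth_rw 1 [← e1]
    rw [← e2, mul_assoc, ← mul_assoc b, bb, one_mul, aa]

/-- the homomorphism given by two commuting involutions -/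
def pw (a b : G) (v : V4) : G := a ^ v.1.val * b ^ v.2.val

omit [Finite G] in
theorem pw1 {a : G} (h : a * a = 1) : ∀ x y : ZMod 2, a ^ (x + y).val = a ^ x.val * a ^ y.val := by
  have h1 : ∀ x : ZMod 2, x = 0 ∨ x = 1 := by decide
  have e0 : (0 : ZMod 2).val = 0 := rfl
  have e1 : (1 : ZMod 2).val = 1 := rfl
  have e2 : (1 + 1 : ZMod 2).val = 0 := rfl
  intro x y
  rcases h1 x with rfl | rfl <;> rcases h1 y with rfl | rfl <;> simp [e0, e1, e2, h]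

omit [Finite G] in
theorem pw_add {a b : G} (ha : a * a = 1) (hb : b * b = 1) (c : Commute a b) (v w : V4) :
    pw a b (v + w) = pw a b v * pw a b w := by
  simp only [pw, Prod.fst_add, Prod.snd_add, pw1 ha, pw1 hb]
  exact (c.pow_pow _ _).mul_mul_mul_comm _ _

omit [Finite G] in
theorem pw_val (a b : G) : pw a b 0 = 1 ∧ pw a b (1, 0) = a ∧ pw a b (0, 1) = b ∧
    pw a b (1, 1) = a * b := by
  have e1 : (1 : ZMod 2).val = 1 := rfl
  simp [pw, e1]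

omit [Finite G] in
theorem comm_of_sq {A : Subgroup G} (h : ∀ x ∈ A, x * x = 1) {a b : G} (ha : a ∈ A) (hb : b ∈ A) :
    Commute a b := by
  have e := h _ (A.mul_mem ha hb)
  calc a * b = a * (a * b * (a * b)) * b := by rw [e, mul_one]
    _ = a * a * (b * a) * (b * b) := by group
    _ = b * a := by rw [h a ha, h b hb, one_mul, mul_one]

theorem pw_grp {A : Subgroup G} (c : Nat.card A ≤ 4) (h : ∀ x ∈ A, x * x = 1) {a b : G}
    (ha : a ∈ A) (hb : b ∈ A) (a1 : a ≠ 1) (b1 : b ≠ 1) (ab : a ≠ b) :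
    (∀ v, pw a b v ∈ A) ∧ (∀ v, pw a b v = 1 → v = 0) ∧ (∀ x ∈ A, ∃ v, x = pw a b v) ∧
      ∀ x ∈ A, x ≠ 1 → x ≠ a → x ≠ b → x = a * b := by
  obtain ⟨v0, v1, v2, v3⟩ := pw_val a b
  have n : a * b ≠ 1 := fun d => ab (mul_left_cancel ((h a ha).trans d.symm))
  have k := fun x => le4 (x := x) c ha hb (A.mul_mem ha hb) a1 b1 n ab
    (fun d => b1 (left_eq_mul.1 d)) fun d => a1 (right_eq_mul.1 d)
  refine ⟨fun v => A.mul_mem (A.pow_mem ha _) (A.pow_mem hb _), fun v hv => ?_, fun x hx => ?_,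
    fun x hx x1 xa xb => (((k x hx).resolve_left x1).resolve_left xa).resolve_left xb⟩
  · rcases v4_cases v with rfl | rfl | rfl | rfl
    exacts [rfl, (a1 (v1 ▸ hv)).elim, (b1 (v2 ▸ hv)).elim, (n (v3 ▸ hv)).elim]
  · rcases k x hx with d | d | d | d
    exacts [⟨_, d.trans v0.symm⟩, ⟨_, d.trans v1.symm⟩, ⟨_, d.trans v2.symm⟩, ⟨_, d.trans v3.symm⟩]

theorem exists_co (h : F.SF) (hb : ⊥ ∉ F.s) (h2 : ∀ s, ¬F.Rfl s) (nt : F.Net H M N X)
    (c4 : Nat.card H ≤ 4) : ∃ e, Co H M N X e := by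
  obtain ⟨⟨⟨mH, mM, hm⟩, ls⟩, ⟨-, mN, hn⟩, ⟨-, -, nm⟩, cm, cn, lh, lm, ln, cx⟩ := nt
  have cp : ∀ L W, F.Mem L → F.Mem W → L ⊓ W = ⊥ → Nat.card X ≤ Nat.card L * Nat.card W :=
    fun L W a b d => by have := ls L W ⟨a, b, d⟩; rwa [cm, ← cx] at this
  have sH := fun x => sq_one (x := x) h hb mH mM mN lh lm ln hm hn cp nm c4
  have sM := fun x => sq_one (x := x) h hb mM mH mN lm lh ln (inf_comm H M ▸ hm)
    (inf_comm N M ▸ nm) cp (inf_comm H N ▸ hn) (cm ▸ c4)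
  have sN := fun x => sq_one (x := x) h hb mN mM mH ln lm lh nm (inf_comm H N ▸ hn) cp hm (cn ▸ c4)
  have cv := fun x => cover (x := x) lh lm hm (cp H M mH mM hm)
  have one : ∀ a ∈ H, ∀ b ∈ M, a * b ∈ N → a * b ≠ 1 → a ≠ 1 ∧ b ≠ 1 ∧ Commute a b :=
    fun a aH b bM g g1 => ⟨fun d => g1 (eq_one nm g (by rwa [d, one_mul])),
      fun d => g1 (eq_one hn (by rwa [d, mul_one]) g), by
        calc a * b = a * (a * b * (a * b)) * b := by rw [sN _ g, mul_one]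
          _ = a * a * (b * a) * (b * b) := by group
          _ = b * a := by rw [sH a aH, sM b bM, one_mul, mul_one]⟩
  have two : ∀ a ∈ H, ∀ b ∈ M, ∀ a' ∈ H, ∀ b' ∈ M, a * b ∈ N → a' * b' ∈ N → a * b ≠ a' * b' →
      a ≠ a' ∧ b ≠ b' := fun a aH b bM a' aH' b' bM' g g' n =>
    ⟨fun d => n (inv_mul_eq_one.1 (eq_one nm (N.mul_mem (N.inv_mem g) g')
        (by simpa [d, mul_assoc] using M.mul_mem (M.inv_mem bM) bM'))),
      fun d => n (mul_inv_eq_one.1 (eq_one hn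
        (by simpa [d, mul_assoc] using H.mul_mem aH (H.inv_mem aH')) (N.mul_mem g (N.inv_mem g'))))⟩
  obtain ⟨g1, n1, g2, n2, e1, e2, e12⟩ := Fam.three_le hb h2 mN.1
  obtain ⟨a1, a1H, b1, b1M, rfl⟩ := cv _ (ln n1)
  obtain ⟨a2, a2H, b2, b2M, rfl⟩ := cv _ (ln n2)
  have n3 := N.mul_mem n1 n2
  obtain ⟨a3, a3H, b3, b3M, e3⟩ := cv _ (ln n3)
  obtain ⟨o1, o2, c11⟩ := one _ a1H _ b1M n1 e1
  obtain ⟨o3, o4, c22⟩ := one _ a2H _ b2M n2 e2
  obtain ⟨o5, o6, -⟩ := one _ a3H _ b3M (e3 ▸ n3)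
    (e3 ▸ fun d => e12 (mul_left_cancel ((sN _ n1).trans d.symm)))
  obtain ⟨t1, t2⟩ := two _ a1H _ b1M _ a2H _ b2M n1 n2 e12
  obtain ⟨t3, t4⟩ := two _ a3H _ b3M _ a1H _ b1M (e3 ▸ n3) n1 (e3 ▸ fun d => e2 (mul_eq_left.1 d))
  obtain ⟨t5, t6⟩ := two _ a3H _ b3M _ a2H _ b2M (e3 ▸ n3) n2 (e3 ▸ fun d => e1 (mul_eq_right.1 d))
  obtain ⟨u1, u2, u3, u4⟩ := pw_grp c4 sH a1H a2H o1 o3 t1
  obtain ⟨w1, w2, w3, w4⟩ := pw_grp (cm ▸ c4) sM b1M b2M o2 o4 t2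
  rw [u4 _ a3H o5 t3 t5, w4 _ b3M o6 t4 t6] at e3
  have cH := comm_of_sq sH a1H a2H
  have cM := comm_of_sq sM b1M b2M
  have c21 : Commute a2 b1 := by
    have : a1 * (b1 * a2) * b2 = a1 * (a2 * b1) * b2 := by simpa only [mul_assoc] using e3
    exact (mul_left_cancel (mul_right_cancel this)).symm
  have c12 : Commute a1 b2 := by
    have e4 := (comm_of_sq sN n2 n1).eq.trans e3
    rw [cH.eq, cM.eq] at e4
    have : a2 * (b2 * a1) * b1 = a2 * (a1 * b2) * b1 := by simpa only [mul_assoc] using e4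
    exact (mul_left_cancel (mul_right_cancel this)).symm
  have cc : ∀ v w, Commute (pw a1 a2 v) (pw b1 b2 w) := fun v w =>
    ((c11.pow_pow _ _).mul_right (c12.pow_pow _ _)).mul_left
      ((c21.pow_pow _ _).mul_right (c22.pow_pow _ _))
  let e : KK → G := fun p => pw a1 a2 p.1 * pw b1 b2 p.2
  have mul : ∀ p q, e (p + q) = e p * e q := fun p q => by
    simp only [e, Prod.fst_add, Prod.snd_add, pw_add (sH _ a1H) (sH _ a2H) cH,
      pw_add (sM _ b1M) (sM _ b2M) cM]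
    exact (cc _ _).mul_mul_mul_comm _ _
  have eh : ∀ p, e p ∈ H ↔ p.2 = 0 := fun p => by
    rw [H.mul_mem_cancel_left (u1 _)]
    exact ⟨fun d => w2 _ (eq_one hm d (w1 _)), fun d => by rw [d, (pw_val _ _).1]; exact H.one_mem⟩
  have em : ∀ p, e p ∈ M ↔ p.1 = 0 := fun p => by
    rw [M.mul_mem_cancel_right (w1 _)]
    exact ⟨fun d => u2 _ (eq_one hm (u1 _) d), fun d => by rw [d, (pw_val _ _).1]; exact M.one_mem⟩
  have z : e 0 = 1 := by simp only [e, Prod.fst_zero, Prod.snd_zero, (pw_val _ _).1, mul_one]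
  have dg : ∀ v, e (v, v) ∈ N := fun v => by
    obtain ⟨-, v1, v2, v3⟩ := pw_val a1 a2
    obtain ⟨-, v4, v5, v6⟩ := pw_val b1 b2
    rcases v4_cases v with rfl | rfl | rfl | rfl
    · exact z ▸ N.one_mem
    · simpa only [e, v1, v4] using n1
    · simpa only [e, v2, v5] using n2
    · simpa only [e, v3, v6, ← e3] using n3
  refine ⟨e, mul, fun p q d => ?_, fun g => ⟨fun d => ?_, ?_⟩, eh, em, fun p => ⟨fun d => ?_, ?_⟩⟩
  · have : e (q + p) = 1 := by rw [mul, ← d, ← mul, add_self, z]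
    exact Prod.ext (v4_eq _ _ ((em _).1 (this ▸ M.one_mem))) (v4_eq _ _ ((eh _).1 (this ▸ H.one_mem)))
  · obtain ⟨a, aH, b, bM, rfl⟩ := cv g d
    obtain ⟨v, rfl⟩ := u3 a aH
    obtain ⟨w, rfl⟩ := w3 b bM
    exact ⟨(v, w), rfl⟩
  · rintro ⟨p, rfl⟩
    exact X.mul_mem (lh (u1 _)) (lm (w1 _))
  · have := eq_one (x := e (p + (p.1, p.1))) nm (mul p (p.1, p.1) ▸ N.mul_mem d (dg p.1))
      ((em _).2 (congrArg Prod.fst (add_self p)))
    exact v4_eq _ _ ((eh _).1 (this ▸ H.one_mem))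
  · obtain ⟨v, w⟩ := p
    rintro (rfl : v = w)
    exact dg v

end G5

theorem sG5 : S_G5 := fun _ _ _ _ h hb h2 _ _ _ _ nt c4 => by
  obtain ⟨e, c⟩ := G5.exists_co h hb h2 nt c4
  exact ⟨e, c.six nt h hb h2⟩

end Pool.Agent.Lib.MP_3cc314_lc.Cg
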