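import Pool.Agent.Lib.MP_3cc314_lc.CgSpec
import Pool.Agent.Lib.MP_3cc314_lc.CgB4

set_option autoImplicit false

namespace Pool.Agent.Lib.MP_3cc314_lc.Cg
open Finset
open scoped Classical

variable {G : Type} [Group G]

theorem sum_inv_eq [Finite G] {ι : Type} [Fintype ι] {U : Subgroup G} {g h : ι → G}
    (e : ∀ x, ∑ i, ind x U (g i) = ∑ i, ind x U (h i)) {f : G → ℝ}
    (hf : ∀ x, ∀ u ∈ U, f (x * u) = f x) : ∑ i, f (g i) = ∑ i, f (h i) := by
  have := Fintype.ofFinite (G ⧸ U)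
  have a : ∀ y, f y = ∑ q : G ⧸ U, f q.out * ind q.out U y := fun y => by
    have e : ∀ q : G ⧸ U, q.out⁻¹ * y ∈ U ↔ q = (y : G ⧸ U) := fun q => by
      rw [← QuotientGroup.eq, QuotientGroup.out_eq']
    rw [sum_eq_single (y : G ⧸ U) (fun q _ n => by rw [ind_neg (mt (e q).1 n), mul_zero]) (by simp),
      ind_pos ((e _).2 rfl), mul_one, ← hf (y : G ⧸ U).out _ ((e _).2 rfl), mul_inv_cancel_left]
  rw [sum_congr rfl fun i _ => a (g i), sum_congr rfl fun i _ => a (h i), sum_comm,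
    sum_comm (s := univ (α := ι))]
  simp only [← mul_sum, e]

theorem sGlue : S_glue := by
  intro G ι _ _ _ _ F A B hA hB hS d g h e
  have := Fintype.ofFinite A
  have := Fintype.ofFinite B
  let π : G → (G → ℝ) →ₗ[ℝ] ℝ := fun x => LinearMap.proj x
  let Λ : (G → ℝ) →ₗ[ℝ] ℝ := ∑ i, ∑ a : A, ∑ b : B, (π (g i * b.1) + π (h i * a.1) -
    π (g i * a.1 * b.1))
  have eΛ : ∀ f, Λ f = ∑ i, ∑ a : A, ∑ b : B, (f (g i * b) + f (h i * a) - f (g i * a * b)) :=
    fun f => by simp only [Λ, π, LinearMap.sum_apply, LinearMap.sub_apply, LinearMap.add_apply,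
      LinearMap.proj_apply]
  have p : (0 : ℝ) < Fintype.card A * Fintype.card B := by
    have := Fintype.card_pos (α := A)
    have := Fintype.card_pos (α := B)
    positivity
  have e1 : ∀ H ∈ F.s, B ≤ H → ∀ x, Λ (ind x H) =
      Fintype.card A * Fintype.card B * ∑ i, ind x H (g i) := fun H m l x => by
    have k := sum_inv_eq (e (H ⊔ A) (F.up m le_sup_left) (sup_le le_sup_right (le_sup_of_le_left l)))
      (f := fun y => ∑ a : A, ind x H (y * a)) fun y u hu => by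
        obtain ⟨k, hk, a, ha, rfl⟩ := Subgroup.mem_sup_of_normal_right.1 hu
        refine Fintype.sum_equiv ((Equiv.mulLeft ⟨a, ha⟩).trans (MulAut.conjNormal k).toEquiv) _ _
          fun b => ?_
        rw [← ind_mul (H.inv_mem hk)]
        simp [mul_assoc]
    have a : ∀ y (b : B), ind x H (y * b) = ind x H y := fun y b => ind_mul (l b.2)
    simp only [eΛ, a, sum_sub_distrib, sum_add_distrib, sum_const, card_univ, nsmul_eq_mul,
      ← mul_sum, k]
    ring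
  have e2 : ∀ H ∈ F.s, A ≤ H → ∀ x, Λ (ind x H) =
      Fintype.card A * Fintype.card B * ∑ i, ind x H (h i) := fun H m l x => by
    have a : ∀ y (b : A), ind x H (y * b) = ind x H y := fun y b => ind_mul (l b.2)
    have a' : ∀ y (a : A) (b : B), ind x H (y * a * b) = ind x H (y * b) := fun y a b => by
      rw [← ind_mul (x := y * b) (l (hA.conj_mem' _ a.2 b))]
      simp [mul_assoc]
    simp only [eΛ, a', a, add_sub_cancel_left, sum_const, card_univ, nsmul_eq_mul, ← mul_sum]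
    ring
  obtain ⟨z, hz⟩ := hS.pt Λ (fun H m x => by
    rcases d H m with l | l
    · rw [e2 H m l]
      exact mul_nonneg p.le (sum_nonneg fun _ _ => ind_nonneg _ _ _)
    · rw [e1 H m l]
      exact mul_nonneg p.le (sum_nonneg fun _ _ => ind_nonneg _ _ _))
    (by simp [eΛ, Fintype.card_pos])
  refine ⟨z, fun U m l => by_contra fun n => ?_, fun U m l => by_contra fun n => ?_⟩
  · have := hz U m
    rw [e1 U m l, sum_eq_zero fun i _ => ind_neg fun a => n ⟨i, a⟩, mul_zero] at this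
    exact this.false
  · have := hz U m
    rw [e2 U m l, sum_eq_zero fun i _ => ind_neg fun a => n ⟨i, a⟩, mul_zero] at this
    exact this.false

namespace Fam
variable {F : Fam G}

theorem SymA.not_rd [Finite G] (h : F.SymA) : ¬F.Rd := fun r => by
  obtain ⟨h4, L, -, -, s⟩ := h
  obtain ⟨A, a, B, b, C, c, D, d, ab, ac, ad, bc, bd, cd⟩ :=
    (Set.three_lt_ncard (Set.toFinite _)).1 h4
  obtain ⟨t, -, t1, -, t2⟩ := s A B a b ab
  obtain ⟨u, -, u1, -, u2⟩ := s C D c d cd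
  rcases r t u (dj_of_mem fun M m => by
    by_cases e : M = A ∨ M = B
    · rcases e with rfl | rfl
      exacts [.inr (u2 M m ac ad), .inr (u2 M m bc bd)]
    · exact .inl (t2 M m (fun k => e (.inl k)) fun k => e (.inr k))) with rfl | rfl
  exacts [ab (cj_one A ▸ t1), cd (cj_one C ▸ u1)]

theorem mem_zp1 {s x : G} (h : s * s = 1) (hx : x ∈ Subgroup.zpowers s) : x = 1 ∨ x = s := by
  let P : Subgroup G :=
    { carrier := {x | x = 1 ∨ x = s}
      mul_mem' := by rintro _ _ (rfl | rfl) (rfl | rfl) <;> simp [h]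
      one_mem' := .inl rfl
      inv_mem' := by rintro _ (rfl | rfl) <;> simp [inv_eq_iff_mul_eq_one, h] }
  exact (Subgroup.zpowers_le.2 (.inr rfl) : _ ≤ P) hx

section dih
variable {T P Q : Finset G} (h1 : ∀ s ∈ T, s ≠ 1 ∧ s * s = 1 ∧ Subgroup.zpowers s ∈ F.s)
  (h2 : ∀ U ∈ F.s, ∃ s ∈ T, s ∈ U)
include h1 h2

theorem dih_gen [Finite G] {V : Subgroup G} (h : ∀ H, F.Mem H → H ≤ V) {s : G} (hs : s ∈ T) :
    s ∈ V := by
  obtain ⟨H, m, l⟩ := exists_mem (h1 s hs).2.2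
  obtain ⟨t, a, b⟩ := h2 H m.1
  exact (mem_zp1 (h1 s hs).2.1 (l b)).resolve_left (h1 t a).1 ▸ h H m b

theorem dih_rel (c : 1 < P.card) (d : Disjoint P Q)
    (g : ∀ p ∈ P, ∀ V : Subgroup G, (∀ H, F.Mem H → H ≤ V) → p ∈ V)
    (a : ∀ p ∈ P, ∀ s ∈ T, p * s ∈ Q) (b : ∀ q ∈ Q, ∀ p ∈ P, q⁻¹ * p ∈ T) : Rel F P Q := by
  refine ⟨one_lt_card.1 c, g, fun q hq p hp => ⟨_, (h1 _ (b q hq p hp)).2.2, fun p' hp' k => ?_⟩,
    fun z hz => ?_⟩
  · exact mul_left_cancel ((mem_zp1 (h1 _ (b q hq p hp)).2.1 k).resolve_left fun e =>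
      disjoint_left.1 d hp' (inv_mul_eq_one.1 e ▸ hq))
  · obtain ⟨s, hs, -⟩ := h2 ⊤ F.top
    obtain ⟨p, hp, k⟩ := hz _ (h1 s hs).2.2
    refine (mem_zp1 (h1 s hs).2.1 k).imp (fun e => by rwa [inv_mul_eq_one.1 e]) fun e => ?_
    rw [show z = p * s by
      rw [← mul_inv_cancel_left z p, e, mul_assoc z, (h1 s hs).2.1, mul_one]]
    exact a p hp s hs

end dih

theorem DihA.atom [Finite G] (h : F.DihA) : ⊥ ∉ F.s ∧ F.Rd ∧
    ∃ P Q : Finset G, Disjoint P Q ∧ P.card = Q.card ∧ Rel F P Q ∧ Rel F Q P ∧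
      ∀ U ∈ F.s, ∀ x, ∑ p ∈ P, ind x U p = ∑ q ∈ Q, ind x U q := by
  obtain ⟨h0, T, h3, h1, h2, h4⟩ := h
  obtain ⟨t, ht, -⟩ := h2 ⊤ F.top
  have i : ∀ s ∈ T, s⁻¹ = s := fun s hs => inv_eq_iff_mul_eq_one.2 (h1 s hs).2.1
  have c : (T.image (· * t)).card = T.card := card_image_of_injective _ (mul_left_injective t)
  have d : Disjoint (T.image (· * t)) T := disjoint_left.2 fun p hp k => by
    obtain ⟨s, hs, rfl⟩ := mem_image.1 hp
    exact (h1 _ (h4 s hs t ht _ k)).1 (h1 _ k).2.1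
  have a : ∀ p ∈ T.image (· * t), ∀ s ∈ T, p * s ∈ T := fun p hp u hu => by
    obtain ⟨s, hs, rfl⟩ := mem_image.1 hp
    exact h4 s hs t ht u hu
  have a' : ∀ p ∈ T, ∀ s ∈ T, p * s ∈ T.image (· * t) := fun p hp s hs =>
    mem_image.2 ⟨_, h4 p hp s hs t ht, by rw [mul_assoc, (h1 t ht).2.1, mul_one]⟩
  refine ⟨h0, fun x y k => by_contra fun n => ?_, _, T, d, c,
    dih_rel h1 h2 (by omega) d (fun p hp V hV => ?_) a fun q hq p hp => ?_,
    dih_rel h1 h2 (by omega) d.symm (fun p hp V hV => dih_gen h1 h2 hV hp) a' fun q hq p hp => ?_,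
    fun U m x => ?_⟩
  · have : T ⊆ {x, y} := fun s hs => by
      rcases k _ (h1 s hs).2.2 with e | e <;> rcases mem_zp1 (h1 s hs).2.1 e with e | e <;>
        simp [e] at n ⊢
    have := (card_le_card this).trans card_le_two
    omega
  · obtain ⟨s, hs, rfl⟩ := mem_image.1 hp
    exact mul_mem (dih_gen h1 h2 hV hs) (dih_gen h1 h2 hV ht)
  · obtain ⟨s, hs, rfl⟩ := mem_image.1 hp
    rw [i q hq, ← mul_assoc]
    exact h4 q hq s hs t ht
  · obtain ⟨s, hs, rfl⟩ := mem_image.1 hq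
    rw [mul_inv_rev, i s hs, i t ht]
    exact h4 t ht s hs p hp
  · obtain ⟨s, hs, k⟩ := h2 U m
    have e : ∀ y, y * s * s = y := fun y => by rw [mul_assoc, (h1 s hs).2.1, mul_one]
    exact sum_nbij' (· * s) (· * s) (fun p hp => a p hp s hs) (fun p hp => a' p hp s hs)
      (fun y _ => e y) (fun y _ => e y) fun y _ => (ind_mul k).symm

/-- coordinates on the sporadic atom -/
theorem B4A.ex (h : F.B4A) : ∃ e : V4 × V4 → G, (∀ p q, e (p + q) = e p * e q) ∧ e 0 = 1 ∧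
    (∀ p, (e p)⁻¹ = e p) ∧ Function.Injective e ∧
    (∀ σ : V4 → V4, Function.Injective σ → σ 0 = 0 →
      ∃ H ∈ F.s, ∀ x, x ∈ H ↔ ∃ p : V4 × V4, σ p.1 = p.2 ∧ e p = x) ∧
    ∀ U ∈ F.s, ∃ σ : V4 → V4, Function.Injective σ ∧ σ 0 = 0 ∧ ∀ i, e (i, σ i) ∈ U := by
  obtain ⟨r, c, h1, h2, h3, h4, h5, h6⟩ := h
  have m : ∀ p q : V4 × V4, r (p + q).1 * c (p + q).2 = r p.1 * c p.2 * (r q.1 * c q.2) :=
    fun p q => by
      rw [Prod.fst_add, Prod.snd_add, h1, h2, mul_assoc, mul_assoc, ← mul_assoc (r q.1), h3 q.1,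
        mul_assoc]
  have z : r 0 * c 0 = 1 := by simpa using m 0 0
  have i : ∀ p : V4 × V4, (r p.1 * c p.2)⁻¹ = r p.1 * c p.2 := fun p => by
    rw [inv_eq_iff_mul_eq_one, ← m, v4_add]
    exact z
  refine ⟨fun p => r p.1 * c p.2, m, z, i, fun p q e => ?_, fun σ a b => ?_, h6⟩
  · have := h4 (p + q).1 (p + q).2 (by rw [m, show r p.1 * c p.2 = _ from e, ← m, v4_add]; exact z)
    rw [← add_zero p, ← v4_add q, ← add_assoc, show p + q = 0 from Prod.ext this.1 this.2, zero_add]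
  · obtain ⟨H, u, v⟩ := h5 σ a b
    refine ⟨H, u, fun x => (v x).trans ⟨fun ⟨i, e⟩ => ⟨(i, σ i), rfl, e.symm⟩, ?_⟩⟩
    rintro ⟨p, e, rfl⟩
    exact ⟨p.1, by rw [e]⟩

theorem B4A.atom [Finite G] (h : F.B4A) : ⊥ ∉ F.s ∧ F.Rd ∧
    ∃ P Q : Finset G, Disjoint P Q ∧ P.card = Q.card ∧ Rel F P Q ∧ Rel F Q P ∧
      ∀ U ∈ F.s, ∀ x, ∑ p ∈ P, ind x U p = ∑ q ∈ Q, ind x U q := by
  obtain ⟨e, m, z, i, j, h5, h6⟩ := h.ex
  have h7 : ∀ M, gd4 M → ∃ H ∈ F.s, ∀ x, x ∈ H ↔ ∃ p, gr4 M p ∧ e p = x := fun M a =>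
    h5 _ (lin4_inj M a) (lin4_zero M)
  have g : ∀ V : Subgroup G, (∀ H, F.Mem H → H ≤ V) → ∀ p, e p ∈ V := fun V hV p => by
    have k : ∀ M p, gd4 M → gr4 M p → e p ∈ V := fun M p a b => by
      obtain ⟨H, u, v⟩ := h7 M a
      obtain ⟨K, w, l⟩ := exists_mem u
      obtain ⟨σ, -, -, s⟩ := h6 K w.1
      obtain ⟨q, c, d⟩ := (v _).1 (l (s p.1))
      obtain rfl := j d
      rw [show p = (p.1, σ p.1) from Prod.ext rfl (b.symm.trans c)]
      exact hV K w (s _)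
    obtain ⟨a, ⟨M, a1, a2⟩, b, ⟨M', b1, b2⟩, rfl⟩ := b4_gen p
    rw [m]
    exact mul_mem (k M a a1 a2) (k M' b b1 b2)
  let P : Bool → Finset G := fun b => (univ.filter (rc4 b)).image e
  have hP : ∀ b x, x ∈ P b ↔ ∃ p, rc4 b p ∧ e p = x := fun b x => by simp [P]
  have R : ∀ b, Rel F (P b) (P !b) := fun b => by
    refine ⟨?_, fun p hp V hV => ?_, fun q hq p hp => ?_, fun y hy => ?_⟩
    · obtain ⟨p, a, p', a', n⟩ := b4_two b
      exact ⟨_, (hP b _).2 ⟨p, a, rfl⟩, _, (hP b _).2 ⟨p', a', rfl⟩, j.ne n⟩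
    · obtain ⟨p, -, rfl⟩ := (hP b p).1 hp
      exact g V hV p
    · obtain ⟨p, a, rfl⟩ := (hP b p).1 hp
      obtain ⟨q, a', rfl⟩ := (hP _ q).1 hq
      obtain ⟨M, c, d⟩ := b4_prv b q a' p a
      obtain ⟨H, u, v⟩ := h7 M c
      refine ⟨H, u, fun p' hp' k => ?_⟩
      obtain ⟨p', a', rfl⟩ := (hP b p').1 hp'
      rw [i, ← m] at k
      obtain ⟨w, c, k⟩ := (v _).1 k
      rw [d p' a' (j k ▸ c)]
    · obtain ⟨w, rfl⟩ : ∃ w, e w = y := by
        obtain ⟨H, u, v⟩ := h5 id Function.injective_id rfl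
        obtain ⟨p, hp, k⟩ := hy H u
        obtain ⟨p, -, rfl⟩ := (hP b p).1 hp
        obtain ⟨w, -, k⟩ := (v _).1 k
        exact ⟨p + w, by rw [m, ← i w, k]; group⟩
      refine (b4_cls b w fun M c => ?_).imp (fun a => (hP _ _).2 ⟨w, a, rfl⟩)
        fun a => (hP _ _).2 ⟨w, a, rfl⟩
      obtain ⟨H, u, v⟩ := h7 M c
      obtain ⟨p, hp, k⟩ := hy H u
      obtain ⟨p, a, rfl⟩ := (hP b p).1 hp
      rw [i, ← m] at k
      obtain ⟨w', c, k⟩ := (v _).1 k
      exact ⟨p, a, j k ▸ c⟩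
  have S : ∀ σ : V4 → V4, Function.Injective σ → σ 0 = 0 → ∀ f : G → ℝ,
      (∀ y k, f (y * e (k, σ k)) = f y) → ∑ p ∈ P true, f p = ∑ q ∈ P false, f q :=
    fun σ a b f hf => by
    rw [sum_image j.injOn, sum_image j.injOn]
    refine (sum_bij (fun q _ => q + (q.1 + (1, 0), σ (q.1 + (1, 0)))) (fun q hq => ?_)
      (fun q hq q' hq' k => ?_) (fun p hp => ?_) fun q _ => by rw [m, hf]).symm
    all_goals simp only [mem_filter, mem_univ, true_and, rc4, Bool.false_eq_true, false_and,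
      false_or, or_false, Bool.true_eq_false] at *
    · refine ⟨by rw [Prod.fst_add, ← add_assoc, v4_add', zero_add], ?_⟩
      rw [Prod.snd_add, hq.1, zero_add, ← b]
      exact a.ne fun k => hq.2 (by rw [← add_zero q.1, ← v4_add' (1, 0), ← add_assoc, k, zero_add])
    · have := congrArg Prod.snd k
      simp only [Prod.snd_add, hq.1, hq'.1, zero_add] at this
      exact Prod.ext (add_right_cancel (a this)) (hq.1.trans hq'.1.symm)
    · obtain ⟨k, hk⟩ := Finite.surjective_of_injective a p.2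
      refine ⟨(k + (1, 0), 0), ⟨rfl, fun u => hp.2 ?_⟩, Prod.ext ?_ ?_⟩
      · rw [← hk, add_eq_right.1 u, b]
      · rw [Prod.fst_add, ← add_assoc, v4_add', zero_add, hp.1]
      · rw [Prod.snd_add, zero_add, add_assoc, v4_add', add_zero, hk]
  refine ⟨fun u => ?_, fun x y d => by_contra fun n => ?_, P true, P false,
    disjoint_left.2 fun x a b => ?_, ?_, R true, R false, fun U u x => ?_⟩
  · obtain ⟨σ, -, -, s⟩ := h6 ⊥ u
    exact (by decide : ((1, 0) : V4) ≠ 0) (congrArg Prod.fst (j ((s (1, 0)).trans z.symm)))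
  · have k : ∀ x : G, ∃ a, ∀ p, e p = x → p = a := fun x => by
      by_cases u : ∃ a, e a = x
      · exact u.imp fun a u p v => j (v.trans u.symm)
      · exact ⟨0, fun p v => (u ⟨p, v⟩).elim⟩
    obtain ⟨a, ha⟩ := k x
    obtain ⟨b, hb⟩ := k y
    obtain ⟨M, c, u, v⟩ := b4_rd a b
    obtain ⟨H, w, t⟩ := h7 M c
    refine n ((d H w).imp (fun s => ?_) fun s => ?_) <;> obtain ⟨p, c, rfl⟩ := (t _).1 s
    · obtain rfl := ha p rfl
      rw [u c, z]
    · obtain rfl := hb p rfl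
      rw [v c, z]
  · obtain ⟨p, a', rfl⟩ := (hP _ _).1 a
    obtain ⟨q, b', k⟩ := (hP _ _).1 b
    obtain rfl := j k
    exact (b'.resolve_left fun u => Bool.noConfusion u.1).2.2
      (a'.resolve_right fun u => Bool.noConfusion u.1).2.1
  · simpa using S id Function.injective_id rfl (fun _ => 1) fun _ _ => rfl
  · obtain ⟨σ, a, b, s⟩ := h6 U u
    exact S σ a b _ fun y k => ind_mul (s k)

end Fam

theorem sAtom : S_atom := fun _ _ _ _ _ =>
  ⟨Fam.SymA.not_rd, fun h => h.elim Fam.DihA.atom Fam.B4A.atom⟩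

end Pool.Agent.Lib.MP_3cc314_lc.Cg
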