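import Pool.Agent.Lib.MP_3cc314_lc.CgG1

set_option autoImplicit false

namespace Pool.Agent.Lib.MP_3cc314_lc.Cg

/-- the three planes contribute nothing at `q` -/
def cz4 (H L M r q : V4 × V4) : Prop :=
  (¬gr4 L q ∧ ¬gr4 M (r + q)) ∨ (gr4 H q ∧ (¬gr4 L q ∨ ¬gr4 M (r + q)))

instance (H L M r q : V4 × V4) : Decidable (cz4 H L M r q) := inferInstanceAs (Decidable (_ ∨ _))

/-- every plane in the support forces a plane in the outside member -/
def fn4 (H L M r p : V4 × V4) : Prop :=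
  ∀ N, gd4 N → gr4 N p ∨ ∃ a, gr4 N a ∧ cz4 H L M r a ∧
    (sp4 a p ∨ ∃ b, gr4 N b ∧ cz4 H L M r b ∧ sp4 a b)

/-- the first plane is covered -/
def nn4 (H L M r p : V4 × V4) : Prop := ∀ q, gr4 H q → q = 0 ∨ q = p ∨ gr4 L q ∨ gr4 M (r + q)

instance (H L M r p : V4 × V4) : Decidable (fn4 H L M r p) := inferInstanceAs (Decidable (∀ _, _))

instance (H L M r p : V4 × V4) : Decidable (nn4 H L M r p) := inferInstanceAs (Decidable (∀ _, _))

theorem go_b : ∀ p : V4 × V4, p.1 ≠ 0 → p.2 ≠ 0 → ∃ H, gd4 H ∧ gr4 H p ∧ ∃ L, gd4 L ∧ ¬gr4 L p ∧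
    ∃ M, gd4 M ∧ ∃ r, ¬gr4 M (r + p) ∧ nn4 H L M r p ∧ fn4 H L M r p := by decide +kernel

theorem go_c : ∀ q s t : V4 × V4, (s.1 = 0 ∨ s.2 = 0) → (t.1 = 0 ∨ t.2 = 0) →
    ((s + t).1 = 0 ∨ (s + t).2 = 0) → s.1 = q.1 → t.2 = q.2 → q = 0 ∨ q = s ∨ q = t := by
  decide +kernel

theorem go_pq : ∃ P, gd4 P ∧ ∃ Q, gd4 Q ∧ ∀ q, gr4 P q → gr4 Q q → q = 0 := by decide +kernel

/-- difference of two rows or of two columns -/
def lam4 (b : Bool) (q p : V4 × V4) : ℤ :=
  (if (if b then p.1 = 0 else p.2 = 0) then 1 else 0) -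
    if (if b then p.1 = q.1 else p.2 = q.2) then 1 else 0

theorem go_l : ∀ b q N, gd4 N → ∀ z,
    ∑ p, lam4 b q p * (if gr4 N (z + p) then 1 else 0) = 0 := by decide +kernel

theorem go_l1 : ∀ b q, ∑ p, lam4 b q p = 0 := by decide +kernel

theorem go_s : ∀ b (q p : V4 × V4), (¬(if b then p.1 = q.1 else p.2 = q.2) → 0 ≤ lam4 b q p) ∧
    (¬(if b then (q + p).1 = q.1 else (q + p).2 = q.2) → lam4 b q p ≤ 0) ∧
    (¬(if b then (0 : V4 × V4).1 = q.1 else (0 : V4 × V4).2 = q.2) → lam4 b q 0 = 1) := by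
  decide +kernel

open scoped Classical

variable {G : Type} [Group G] {F : Fam G} {e : V4 × V4 → G}

theorem E4.inv_mul (E : E4 e) (z p : V4 × V4) : (e z)⁻¹ * e p = e (z + p) := by
  rw [E.inv, E.mul]

theorem E4.iz_pl (E : E4 e) (N z p : V4 × V4) :
    iz (e z) (E.pl N) (e p) = if gr4 N (z + p) then 1 else 0 := by
  by_cases c : gr4 N (z + p)
  · rw [if_pos c, iz_pos (by rw [E.inv_mul]; exact E.mem_pl.2 c)]
  · rw [if_neg c, iz_neg (by rw [E.inv_mul]; exact fun d => c (E.mem_pl.1 d))]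

theorem E4.iz_out (E : E4 e) (N z : V4 × V4) {y : G} (h : ¬∃ p, e p = y) :
    iz (e z) (E.pl N) y = 0 := iz_neg fun ⟨p, _, q⟩ => h ⟨z + p, by
      rw [E.mul, q, mul_inv_cancel_left]⟩

theorem go_inv [Finite G] (sf : F.SF) (E : E4 e) (h5 : ∀ M, gd4 M → E.pl M ∈ F.s)
    (h6 : ∀ U ∈ F.s, (∀ x ∈ U, ∃ p, e p = x) → ∃ M, gd4 M ∧ E.pl M ≤ U) (b : Bool) (q : V4 × V4)
    (n : ℕ) : ∀ g : G → ℤ, F.Sp g → (∀ y, 0 ≤ g y) → (∀ y, 0 < g y → ∃ p, e p = y) →
      ∑ p, g (e p) ≤ n → ∑ p, lam4 b q p * g (e p) = 0 := by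
  induction n with
  | zero =>
    intro g _ h0 _ s
    have := (Finset.sum_eq_zero_iff_of_nonneg fun p _ => h0 (e p)).1
      (le_antisymm (by exact_mod_cast s) (Finset.sum_nonneg fun p _ => h0 _))
    exact Finset.sum_eq_zero fun p hp => by rw [this p hp, mul_zero]
  | succ n ih =>
    intro g hg h0 hs s
    by_cases z : ∀ p, g (e p) = 0
    · exact Finset.sum_eq_zero fun p _ => by rw [z p, mul_zero]
    obtain ⟨z, hz⟩ := not_forall.1 z
    obtain ⟨M, m, k, hg', h0'⟩ := sf.cos hg h0 (lt_of_le_of_ne (h0 (e z)) (Ne.symm hz))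
    obtain ⟨N, gN, l⟩ := h6 M m.1 fun x hx => by
      obtain ⟨p, c⟩ := hs _ (k x hx)
      exact ⟨z + p, by rw [← E.inv_mul, c, inv_mul_cancel_left]⟩
    obtain rfl := m.eq (h5 N gN) l
    have s1 : 1 ≤ ∑ p, iz (e z) (E.pl N) (e p) :=
      le_trans (iz_pos (by rw [inv_mul_cancel]; exact one_mem _)).ge
        (Finset.single_le_sum (f := fun p => iz (e z) (E.pl N) (e p))
          (fun p _ => iz_nonneg _ _ _) (Finset.mem_univ z))
    have := ih _ hg' h0' (fun y hy => hs y (by have := iz_nonneg (e z) (E.pl N) y; omega)) (by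
      rw [Finset.sum_sub_distrib]; push_cast at s; omega)
    simp only [mul_sub, Finset.sum_sub_distrib, E.iz_pl, go_l b q N gN z] at this
    omega

theorem sOut : S_out := by
  intro G _ _ F sf nb nr e E h5 h6
  by_contra n
  push Not at n
  obtain ⟨U, u, n⟩ := n
  let out : Subgroup G → Set G := fun U => {y | y ∈ U ∧ ¬∃ p, e p = y}
  have : Nonempty {W : Subgroup G // F.Mem W ∧ ∀ M, gd4 M → ¬E.pl M ≤ W} := by
    obtain ⟨W, m, l⟩ := Fam.exists_mem u
    exact ⟨W, m, fun M g c => n M g (c.trans l)⟩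
  obtain ⟨⟨W, mW, nW⟩, mn⟩ := Finite.exists_min
    fun W : {W : Subgroup G // F.Mem W ∧ ∀ M, gd4 M → ¬E.pl M ≤ W} => (out W.1).ncard
  obtain ⟨x, xW, xX⟩ : ∃ x ∈ W, ¬∃ p, e p = x := by
    by_contra c
    push Not at c
    obtain ⟨M, g, l⟩ := h6 W mW.1 c
    exact nW M g l
  have sh : ∀ {y : G} (z : V4 × V4), (¬∃ p, e p = y) → ¬∃ p, e p = e z * y := by
    rintro y z a ⟨p, c⟩
    exact a ⟨z + p, by rw [← E.inv_mul, c, inv_mul_cancel_left]⟩
  have K : ∀ M, F.Mem M → (∃ m ∈ M, ¬∃ p, e p = m) → ∀ z,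
      (∀ m ∈ M, (¬∃ p, e p = m) → e z * m ∈ W) →
      ∀ w ∈ W, (¬∃ p, e p = w) → (e z)⁻¹ * w ∈ M := by
    rintro M mM ⟨m, a, b⟩ z h w wW wX
    have le : (out W).ncard ≤ (out M).ncard := mn ⟨M, mM, fun N g l => by
      obtain ⟨p, -, c⟩ := (mM.eq (h5 N g) l).ge a
      exact b ⟨p, c⟩⟩
    have q : (fun y => e z * y) '' out M = out W := Set.eq_of_subset_of_ncard_le (by
      rintro _ ⟨y, c, rfl⟩
      exact ⟨h y c.1 c.2, sh z c.2⟩) (by
      rwa [Set.ncard_image_of_injective _ (mul_right_injective _)])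
    obtain ⟨y, c, rfl⟩ := q.ge ⟨wW, wX⟩
    simpa using c.1
  have sp : ∀ a b, e a ∈ W → e b ∈ W → ¬sp4 a b := by
    rintro a b ha hb ⟨N, g, k⟩
    refine nW N g (E.pl_le.2 fun p c => ?_)
    rcases k p c with rfl | rfl | rfl | rfl
    exacts [E.zero ▸ one_mem W, ha, hb, E.mul _ _ ▸ mul_mem hb ha]
  have i0 : ∀ N y, iz 1 (E.pl N) y = iz (e 0) (E.pl N) y := fun N y => by rw [E.zero]
  by_cases pt : ∃ p : V4 × V4, p.1 ≠ 0 ∧ p.2 ≠ 0 ∧ e p ∈ W
  · obtain ⟨p, p1, p2, pW⟩ := pt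
    obtain ⟨H, gH, Hp, L, gL, Lp, M, gM, r, Mp, nn, fin⟩ := go_b p p1 p2
    let f : G → ℤ := fun y =>
      iz 1 W y + iz (e 0) (E.pl L) y + iz (e r) (E.pl M) y - iz (e 0) (E.pl H) y
    have hf : F.Sp f := (((Fam.Sp.iz mW.1 1).add (Fam.Sp.iz (h5 L gL) _)).add
      (Fam.Sp.iz (h5 M gM) _)).sub (Fam.Sp.iz (h5 H gH) _)
    have fi : ∀ q, f (e q) = (if e q ∈ W then 1 else 0) + (if gr4 L q then 1 else 0) +
        (if gr4 M (r + q) then 1 else 0) - if gr4 H q then 1 else 0 := fun q => by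
      simp only [f, E.iz_pl, iz_one, zero_add]
    have fo : ∀ y, (¬∃ p, e p = y) → f y = if y ∈ W then 1 else 0 := fun y c => by
      simp only [f, E.iz_out _ _ c, iz_one, add_zero, sub_zero]
    have e0 : e 0 ∈ W := E.zero ▸ one_mem W
    have h0 : ∀ y, 0 ≤ f y := fun y => by
      by_cases c : ∃ p, e p = y
      · obtain ⟨q, rfl⟩ := c
        rw [fi]
        by_cases d : gr4 H q
        · rcases nn q d with rfl | rfl | a | a
          · rw [if_pos e0]; split_ifs <;> norm_num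
          · rw [if_pos pW]; split_ifs <;> norm_num
          · rw [if_pos a]; split_ifs <;> norm_num
          · rw [if_pos a]; split_ifs <;> norm_num
        · rw [if_neg d]; split_ifs <;> norm_num
      · rw [fo y c]; split_ifs <;> norm_num
    obtain ⟨S, mS, k, -⟩ := sf.cos hf h0 (x := e 0) (by
      rw [fi, if_pos e0, if_pos (gr4_zero L), if_pos (gr4_zero H)]; split_ifs <;> norm_num)
    simp only [E.zero, one_mul] at k
    have pS : e p ∉ S := fun c => by
      have := k _ c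
      rw [fi, if_pos pW, if_neg Lp, if_neg Mp, if_pos Hp] at this
      norm_num at this
    by_cases ins : ∃ m ∈ S, ¬∃ p, e p = m
    · have := K S mS ins 0 fun m a b => by
        have := k m a
        rw [fo m b] at this
        rw [E.zero, one_mul]
        by_contra c
        rw [if_neg c] at this
        exact this.false
      simp only [E.zero, inv_one, one_mul] at this
      exact pS ((S.mul_mem_cancel_right (this x xW xX)).1 (this _ (mul_mem pW xW) (sh p xX)))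
    · push Not at ins
      obtain ⟨N, gN, l⟩ := h6 S mS.1 ins
      have cw : ∀ a, gr4 N a → cz4 H L M r a → e a ∈ W := fun a c d => by
        by_contra w
        have := k _ (E.pl_le.1 l a c)
        rw [fi, if_neg w] at this
        rcases d with ⟨d1, d2⟩ | ⟨d1, d2 | d2⟩
        · rw [if_neg d1, if_neg d2] at this; split_ifs at this <;> norm_num at this
        · rw [if_pos d1, if_neg d2] at this; split_ifs at this <;> norm_num at this
        · rw [if_pos d1, if_neg d2] at this; split_ifs at this <;> norm_num at this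
      rcases fin N gN with c | ⟨a, c, d, s | ⟨b, c', d', s⟩⟩
      exacts [pS (E.pl_le.1 l p c), sp _ _ (cw a c d) pW s, sp _ _ (cw a c d) (cw b c' d') s]
  · obtain ⟨P, gP, Q, gQ, pq⟩ := go_pq
    let X : Subgroup G := E.sb (fun _ => True) trivial fun _ _ _ _ => trivial
    have mX : ∀ y, y ∈ X ↔ ∃ p, e p = y := fun y =>
      ⟨fun ⟨p, _, c⟩ => ⟨p, c⟩, fun ⟨p, c⟩ => ⟨p, trivial, c⟩⟩
    let f : G → ℤ := fun y => iz 1 W y + iz 1 X y - iz (e 0) (E.pl P) y - iz (e 0) (E.pl Q) y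
    have hf : F.Sp f := (((Fam.Sp.iz mW.1 1).add (Fam.Sp.iz
      (F.up (h5 P gP) (E.pl_le.2 fun p _ => (mX _).2 ⟨p, rfl⟩)) _)).sub
        (Fam.Sp.iz (h5 P gP) _)).sub (Fam.Sp.iz (h5 Q gQ) _)
    have fi : ∀ q, f (e q) = (if e q ∈ W then 1 else 0) + 1 - (if gr4 P q then 1 else 0) -
        if gr4 Q q then 1 else 0 := fun q => by
      simp only [f, E.iz_pl, iz_one, zero_add, if_pos ((mX _).2 ⟨q, rfl⟩)]
    have fo : ∀ y, (¬∃ p, e p = y) → f y = if y ∈ W then 1 else 0 := fun y c => by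
      simp only [f, E.iz_out _ _ c, iz_one, if_neg (mt (mX y).1 c), add_zero, sub_zero]
    have e0 : e 0 ∈ W := E.zero ▸ one_mem W
    have h0 : ∀ y, 0 ≤ f y := fun y => by
      by_cases c : ∃ p, e p = y
      · obtain ⟨q, rfl⟩ := c
        rw [fi]
        by_cases d : gr4 P q
        · by_cases d' : gr4 Q q
          · rw [pq q d d', if_pos e0]; split_ifs <;> norm_num
          · rw [if_neg d']; split_ifs <;> norm_num
        · rw [if_neg d]; split_ifs <;> norm_num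
      · rw [fo y c]; split_ifs <;> norm_num
    obtain ⟨S, mS, k, hg, g0⟩ := sf.cos hf h0 (x := x) (by rw [fo x xX, if_pos xW]; norm_num)
    have xS : x ∉ S := fun c => by
      have := k _ (inv_mem c)
      rw [mul_inv_cancel, ← E.zero, fi, if_pos e0, if_pos (gr4_zero P), if_pos (gr4_zero Q)] at this
      norm_num at this
    have ko : ∀ m ∈ S, (¬∃ p, e p = x * m) → x * m ∈ W := fun m a b => by
      have := k m a
      rw [fo _ b] at this
      by_contra c
      rw [if_neg c] at this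
      exact this.false
    obtain ⟨s, sS, sW⟩ := SetLike.not_le_iff_exists.1 fun l : S ≤ W =>
      xS ((mW.eq mS.1 l).ge xW)
    obtain ⟨q, hq⟩ : ∃ p, e p = x * s := by
      by_contra c
      exact sW ((W.mul_mem_cancel_left xW).1 (ko s sS c))
    have qW : e q ∉ W := fun c => sW ((W.mul_mem_cancel_left xW).1 (hq ▸ c))
    have cs : ∀ y, x⁻¹ * y ∈ S ↔ (e q)⁻¹ * y ∈ S := fun y => by
      rw [hq, mul_inv_rev, mul_assoc, S.mul_mem_cancel_left (inv_mem sS)]
    have kk := K S mS ⟨s⁻¹, inv_mem sS, fun ⟨p, c⟩ => xX ⟨q + p, by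
      rw [E.mul, hq, c, mul_inv_cancel_right]⟩⟩ q fun m a b => by
        have := ko (s * m) (mul_mem sS a) (by rw [← mul_assoc, ← hq]; exact sh q b)
        rwa [← mul_assoc, ← hq] at this
    have xo : ∀ p, ¬∃ p', e p' = x * e p := fun p ⟨p', c⟩ => xX ⟨p' + p, by
      rw [E.mul, c, mul_assoc, E.sq, mul_one]⟩
    have tr : ∀ p, e p ∈ S ↔ e p ∈ W := fun p =>
      ⟨fun c => (W.mul_mem_cancel_left xW).1 (ko _ c (xo p)), fun c => by
        simpa using (cs _).2 (kk _ (mul_mem xW c) (xo p))⟩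
    have no : ∀ p, e p ∈ W → p.1 = 0 ∨ p.2 = 0 := fun p c => by
      by_contra d
      exact pt ⟨p, fun a => d (.inl a), fun a => d (.inr a), c⟩
    obtain ⟨b, hb⟩ : ∃ b : Bool, ∀ p, e p ∈ W → ¬(if b then p.1 = q.1 else p.2 = q.2) := by
      by_contra c
      push Not at c
      obtain ⟨s, a, a'⟩ := c true
      obtain ⟨t, b, b'⟩ := c false
      rcases go_c q s t (no s a) (no t b) (no _ (E.mul _ _ ▸ mul_mem a b)) (by simpa using a')
        (by simpa using b') with rfl | rfl | rfl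
      exacts [qW e0, qW a, qW b]
    have z := go_inv sf E h5 h6 b q _ _ hg g0 (fun y hy => by
      by_contra c
      rw [fo y c] at hy
      by_cases d : y ∈ W
      · rw [if_pos d, iz_pos ((cs y).2 (kk y d c))] at hy
        norm_num at hy
      · have := iz_nonneg x S y
        rw [if_neg d] at hy
        omega) (Int.self_le_toNat _)
    have gi : ∀ p, lam4 b q p * (f (e p) - iz x S (e p)) =
        lam4 b q p * ((if e p ∈ W then 1 else 0) - if e (q + p) ∈ W then 1 else 0) +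
        lam4 b q p - lam4 b q p * (if gr4 P (0 + p) then 1 else 0) -
          lam4 b q p * (if gr4 Q (0 + p) then 1 else 0) := fun p => by
      have : iz x S (e p) = if e (q + p) ∈ W then 1 else 0 :=
        if_congr (by rw [cs, E.inv_mul, tr]) rfl rfl
      rw [fi, this, zero_add]; ring
    simp only [gi, Finset.sum_sub_distrib, Finset.sum_add_distrib, go_l b q P gP 0,
      go_l b q Q gQ 0, go_l1, add_zero, sub_zero] at z
    have := (Finset.sum_eq_zero_iff_of_nonneg fun p _ => ?_).1 z 0 (Finset.mem_univ _)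
    · rw [if_pos e0, add_zero, if_neg qW, (go_s b q 0).2.2 (hb 0 e0)] at this
      norm_num at this
    · by_cases c : e p ∈ W <;> by_cases d : e (q + p) ∈ W
      · simp [c, d]
      · simpa [c, d] using (go_s b q p).1 (hb p c)
      · simpa [c, d] using (go_s b q p).2.1 (hb _ d)
      · simp [c, d]

end Pool.Agent.Lib.MP_3cc314_lc.Cg
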