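import Pool.Agent.Lib.MP_3cc314_lc.CgAlg

set_option autoImplicit false
set_option linter.unusedSectionVars false

namespace Pool.Agent.Lib.MP_3cc314_lc.Cg
open Finset Matrix
open scoped Classical

section
variable {V : Type} [Fintype V] [DecidableEq V] {G : SimpleGraph V} [DecidableRel G.Adj]

/-- the indicator of a coset of an overgroup of a stabiliser is a sum of entries -/
theorem ind_entry (u : V) {U : Subgroup (G ≃g G)} (l : MulAction.stabilizer (G ≃g G) u ≤ U)
    (g : G ≃g G) : ∃ S : Finset V, ∀ x : G ≃g G, ind g U x = ∑ v ∈ S, pm x.toEquiv u v := by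
  refine ⟨univ.filter fun v => ∃ k : G ≃g G, g⁻¹ * k ∈ U ∧ k u = v, fun x => ?_⟩
  simp only [pm_apply, sum_ite_eq, mem_filter, mem_univ, true_and, ind]
  congr 1
  refine propext ⟨fun h => ⟨x, h, rfl⟩, fun ⟨k, a, b⟩ => ?_⟩
  have : g⁻¹ * x = g⁻¹ * k * (k⁻¹ * x) := by group
  rw [this]
  refine U.mul_mem a (l ?_)
  rw [MulAction.mem_stabilizer_iff, mul_smul, inv_smul_eq_iff]
  exact b.symm

theorem st_le [Nonempty V] {U : Subgroup (G ≃g G)} (m : U ∈ (St (G ≃g G) V).s) :
    ∃ u : V, MulAction.stabilizer (G ≃g G) u ≤ U := by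
  rcases m with rfl | m
  exacts [⟨Classical.arbitrary V, le_top⟩, m]

theorem sf_of_compact (hG : Compact G) : (St (G ≃g G) V).SF := by
  intro f hf h0 x hx
  rcases subsingleton_or_nontrivial V with hV | hV
  · refine ⟨⊤, .inl rfl, fun h _ => ?_⟩
    have : h = 1 := RelIso.ext fun _ => Subsingleton.elim _ _
    rwa [this, mul_one]
  have : ∀ f ∈ (St (G ≃g G) V).sp, ∃ φ : Matrix V V ℝ →ₗ[ℝ] ℝ, ∀ g : G ≃g G,
      φ (pm g.toEquiv) = f g := fun f hf => by
    induction hf using Submodule.span_induction with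
    | mem f a =>
      obtain ⟨U, m, g, rfl⟩ := a
      obtain ⟨u, l⟩ := st_le m
      obtain ⟨S, hS⟩ := ind_entry u l g
      exact ⟨∑ v ∈ S, entryLinearMap ℝ ℝ u v, fun x => by simp [hS, LinearMap.sum_apply]⟩
    | zero => exact ⟨0, fun _ => rfl⟩
    | add a b _ _ ha hb =>
      obtain ⟨a', a1⟩ := ha
      obtain ⟨b', b1⟩ := hb
      exact ⟨a' + b', fun y => by simp [a1, b1]⟩
    | smul c a _ ha =>
      obtain ⟨a', a1⟩ := ha
      exact ⟨c • a', fun y => by simp [a1]⟩
  obtain ⟨φ, e⟩ := this f hf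
  obtain ⟨w, hw⟩ := hG.pos φ (fun g => e g ▸ h0 g) x (e x ▸ hx)
  refine ⟨_, .inr ⟨w, le_rfl⟩, fun h hh => e _ ▸ hw _ ?_⟩
  have : h w = w := hh
  rw [RelIso.mul_apply, this]

/-- the frame operator of the permutation matrices -/
noncomputable def frame (G : SimpleGraph V) [Fintype (G ≃g G)] :
    Matrix V V ℝ →ₗ[ℝ] Matrix V V ℝ where
  toFun M := ∑ g : G ≃g G, (∑ i, M i (g i)) • pm g.toEquiv
  map_add' M N := by simp [sum_add_distrib, add_smul]
  map_smul' c M := by simp [smul_sum, smul_smul, mul_sum]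

theorem frame_one [Fintype (G ≃g G)] : ∃ M, frame G M = 1 := by
  let A : Submodule ℝ (Matrix V V ℝ) := Submodule.span ℝ (Set.range fun g : G ≃g G => pm g.toEquiv)
  have hA : ∀ M, frame G M ∈ A := fun M =>
    sum_mem fun g _ => A.smul_mem _ (Submodule.subset_span ⟨g, rfl⟩)
  let ψ : A →ₗ[ℝ] A := (frame G).restrict fun M _ => hA M
  have ip : ∀ (M : Matrix V V ℝ) (g : G ≃g G), ∑ i, ∑ j, M i j * pm g.toEquiv i j = ∑ i, M i (g i) :=
    fun M g => by simp [pm_apply]
  have inj : Function.Injective ψ := by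
    rw [injective_iff_map_eq_zero]
    rintro ⟨M, hM⟩ h
    have h : frame G M = 0 := congrArg Subtype.val h
    have h1 : ∑ g : G ≃g G, (∑ i, M i (g i)) * ∑ i, M i (g i) = ∑ i, ∑ j, M i j * frame G M i j := by
      simp only [frame, LinearMap.coe_mk, AddHom.coe_mk, Matrix.sum_apply, Matrix.smul_apply,
        smul_eq_mul, mul_sum]
      rw [sum_comm]
      refine sum_congr rfl fun i _ => ?_
      rw [sum_comm]
      refine sum_congr rfl fun g _ => ?_
      simp [pm_apply, mul_comm]
    rw [h] at h1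
    simp only [Matrix.zero_apply, mul_zero, sum_const_zero] at h1
    rw [sum_eq_zero_iff_of_nonneg fun g _ => mul_self_nonneg _] at h1
    have h2 : ∀ N ∈ A, ∑ i, ∑ j, M i j * N i j = 0 := fun N hN => by
      induction hN using Submodule.span_induction with
      | mem f a =>
        obtain ⟨g, rfl⟩ := a
        rw [ip, mul_self_eq_zero.1 (h1 g (mem_univ g))]
      | zero => simp
      | add a b _ _ ha hb => simp [mul_add, sum_add_distrib, ha, hb]
      | smul c a _ ha => simp [mul_left_comm _ c, ← mul_sum, ha]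
    have h3 := h2 M hM
    rw [sum_eq_zero_iff_of_nonneg fun i _ => sum_nonneg fun j _ => mul_self_nonneg _] at h3
    refine Subtype.ext (ext fun i j => ?_)
    have := h3 i (mem_univ i)
    rw [sum_eq_zero_iff_of_nonneg fun j _ => mul_self_nonneg _] at this
    exact mul_self_eq_zero.1 (this j (mem_univ j))
  have one : (1 : Matrix V V ℝ) ∈ A := Submodule.subset_span ⟨1, ext fun i j => by
    simp [pm_apply, one_apply]⟩
  obtain ⟨M, e⟩ := LinearMap.surjective_of_injective inj ⟨1, one⟩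
  exact ⟨M, congrArg Subtype.val e⟩

/-- double centraliser -/
theorem dbl [Fintype (G ≃g G)] {X : Matrix V V ℝ}
    (h : ∀ B : Matrix V V ℝ, (∀ (g : G ≃g G) i j, B (g i) (g j) = B i j) → B * X = X * B) :
    ∃ y : (G ≃g G) → ℝ, X = ∑ g, y g • pm g.toEquiv := by
  obtain ⟨M, e⟩ := frame_one (G := G)
  let B : V → V → Matrix V V ℝ := fun j b => of fun a i =>
    ∑ g : G ≃g G, pm g.toEquiv i j * pm g.toEquiv a b
  have hB : ∀ j b, B j b * X = X * B j b := fun j b => h _ fun k a i =>
    Fintype.sum_equiv (Equiv.mulRight k) _ _ fun g => rfl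
  have fr : ∀ (N : Matrix V V ℝ) a b, frame G N a b = ∑ j, (B j b * N) a j := fun N a b => by
    simp only [frame, LinearMap.coe_mk, AddHom.coe_mk, Matrix.sum_apply, Matrix.smul_apply,
      smul_eq_mul, mul_apply, B, of_apply, sum_mul]
    rw [sum_comm, sum_comm (s := univ) (t := univ) (f := fun j i => ∑ g : G ≃g G,
      pm g.toEquiv i j * pm g.toEquiv a b * N i j)]
    refine sum_congr rfl fun i _ => ?_
    rw [sum_comm]
    refine sum_congr rfl fun g _ => ?_
    simp [pm_apply, mul_comm]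
  refine ⟨fun g => ∑ i, (X * M) i (g i), ?_⟩
  change X = frame G (X * M)
  ext a b
  conv_lhs => rw [← mul_one X, ← e]
  simp only [fr, ← mul_assoc, hB, mul_apply (M := X)]
  simp only [mul_assoc, mul_apply (M := X), mul_sum]
  rw [sum_comm]

theorem compact_of_sf (hc : ∀ X ∈ fracAut G, ∀ B : Matrix V V ℝ,
    (∀ (g : G ≃g G) i j, B (g i) (g j) = B i j) → B * X = X * B)
    (hS : (St (G ≃g G) V).SF) : Compact G := by
  intro X hX i j
  have : Nonempty V := ⟨i⟩
  have : Finite (G ≃g G) := Finite.of_injective (fun g : G ≃g G => (g : V → V)) DFunLike.coe_injective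
  have := Fintype.ofFinite (G ≃g G)
  obtain ⟨y, e⟩ := dbl (hc X hX.1)
  let Λ : ((G ≃g G) → ℝ) →ₗ[ℝ] ℝ := ∑ g, y g • LinearMap.proj g
  have eΛ : ∀ f, Λ f = ∑ g, y g * f g := fun f => by simp [Λ, LinearMap.sum_apply]
  have ent : ∀ u v, X u v = ∑ g, y g * pm g.toEquiv u v := fun u v => by
    rw [e]; simp [Matrix.sum_apply]
  obtain ⟨g, hg⟩ := hS.pt Λ (fun U m g => by
    obtain ⟨u, l⟩ := st_le m
    obtain ⟨S, h⟩ := ind_entry u l g
    simp only [eΛ, h, mul_sum]
    rw [sum_comm]
    exact sum_nonneg fun v _ => ent u v ▸ nonneg_of_mem_doublyStochastic hX.1.1) (by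
    have := sum_row_of_mem_doublyStochastic hX.1.1 i
    simp only [ent] at this
    rw [sum_comm] at this
    simp only [← mul_sum, sum_row_of_mem_doublyStochastic (pm_ds _)] at this
    rw [eΛ, this]; norm_num)
  have hp : ∀ u, 0 < X u (g u) := fun u => by
    have := hg _ (.inr ⟨u, le_rfl⟩)
    rw [eΛ] at this
    rw [ent]
    convert this using 3 with x
    rw [pm_apply, ind]
    congr 1
    rw [MulAction.mem_stabilizer_iff, mul_smul, inv_smul_eq_iff]
    rfl
  obtain ⟨u, hu⟩ := Finite.exists_min fun u => X u (g u)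
  have h1 := le_one_of_mem_doublyStochastic hX.1.1 (i := u) (j := g u)
  have h2 := hp u
  set ε := X u (g u) / 2 with hε
  have h3 : 0 < 1 - ε := by linarith
  have mem : (1 - ε)⁻¹ • (X - ε • pm g.toEquiv) ∈ fracAut G := by
    refine ⟨mem_doublyStochastic_iff_sum.2 ⟨fun a b => ?_, fun a => ?_, fun a => ?_⟩, ?_⟩
    · simp only [Matrix.smul_apply, Matrix.sub_apply, smul_eq_mul, pm_apply]
      refine mul_nonneg (inv_pos.2 h3).le ?_
      split_ifs with c
      · have c : g a = b := c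
        have := hu a
        rw [c] at this
        linarith
      · simpa using nonneg_of_mem_doublyStochastic hX.1.1
    · simp [← mul_sum, sum_sub_distrib, sum_row_of_mem_doublyStochastic (pm_ds _),
        sum_row_of_mem_doublyStochastic hX.1.1, h3.ne']
    · simp [← mul_sum, sum_sub_distrib, sum_col_of_mem_doublyStochastic (pm_ds _),
        sum_col_of_mem_doublyStochastic hX.1.1, h3.ne']
    · rw [mul_smul_comm, smul_mul_assoc, mul_sub, sub_mul, mul_smul_comm, smul_mul_assoc,
        (pm_mem g).2, hX.1.2]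
  have := hX.2 (pm_mem g) mem ⟨ε, 1 - ε, by linarith, h3, by ring, by
    rw [smul_smul, mul_inv_cancel₀ h3.ne', one_smul]; abel⟩
  rw [← this, pm_apply]
  split_ifs
  exacts [⟨1, by simp⟩, ⟨0, by simp⟩]

end

theorem sGrp : S_grp := fun _ _ _ => ⟨sf_of_compact, compact_of_sf⟩

end Pool.Agent.Lib.MP_3cc314_lc.Cg
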