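import Pool.Agent.Lib.MP_3cc314_lc.CgSpec

set_option autoImplicit false

namespace Pool.Agent.Lib.MP_3cc314_lc.Cg
open scoped Classical

variable {G Ω T : Type} [Group G] [MulAction G Ω] [Group T] {S : Set Ω}

theorem inL_one : inL S (1 : G) := fun a h => by rwa [one_smul]

theorem inL.mul {g h : G} (a : inL S g) (b : inL S h) : inL S (g * h) := fun x hx => by
  rw [mul_smul]; exact a _ (b x hx)

theorem inN.inL {n : G} (h : inN S n) : inL S n := fun a ha => by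
  by_contra c
  exact c (by rwa [smul_left_cancel n (h _ c)])

theorem BlkL.inv (h : BlkL G S) {g : G} (a : inL S g) : inL S g⁻¹ := by
  obtain ⟨u, hu⟩ := h.2.1
  exact h.1 _ _ (a u hu) (by rwa [inv_smul_smul])

theorem BlkL.fix (h : BlkL G S) {g : G} {u : Ω} (hu : u ∈ S) (a : g • u = u) : inL S g :=
  h.1 g u hu (by rwa [a])

theorem mov_eq {B : Set Ω} (h : B ⊆ S) (h2 : ∀ g : G, eqS B g 1 → eqS S g 1) :
    mov G B = mov G S :=
  Set.ext fun _ => ⟨fun ⟨c, a, b⟩ => ⟨c, h2 c a, b⟩, fun ⟨c, a, b⟩ => ⟨c, fun x hx => a x (h hx), b⟩⟩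

variable (G S) in
/-- the data of a leaf: `T` is the group induced on `S`, `E` its family -/
structure LD (E : Fam T) (ψ : G → T) : Prop where
  blk : BlkL G S
  vis : VisL G S
  cls : mov G (mov G S) = S
  mul : ∀ g h, inL S g → inL S h → ψ (g * h) = ψ g * ψ h
  sur : ∀ t, ∃ g, inL S g ∧ ψ g = t
  eq : ∀ g h, inL S g → inL S h → (ψ g = ψ h ↔ eqS S g h)
  fam : ∀ X, X ∈ E.s ↔ InF S fun g => ψ g ∈ X

namespace LD
variable {E : Fam T} {ψ : G → T} (D : LD G S E ψ)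
include D

theorem one : ψ 1 = 1 := by
  have := D.mul 1 1 inL_one inL_one
  rw [one_mul] at this
  exact (left_eq_mul.1 this)

theorem inv {g : G} (a : inL S g) : ψ g⁻¹ = (ψ g)⁻¹ := by
  rw [eq_inv_iff_mul_eq_one, ← D.mul _ _ (D.blk.inv a) a, inv_mul_cancel, D.one]

theorem eq_one {g : G} (a : inL S g) : ψ g = 1 ↔ eqS S g 1 := by
  rw [← D.one, D.eq _ _ a inL_one]

/-- the stabiliser of a point of `S` in `T` -/
def stb (w : Ω) : Subgroup T where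
  carrier := {t | ∃ g, inL S g ∧ ψ g = t ∧ g • w = w}
  one_mem' := ⟨1, inL_one, D.one, one_smul _ _⟩
  mul_mem' := by
    rintro _ _ ⟨g, a, rfl, b⟩ ⟨h, c, rfl, d⟩
    exact ⟨g * h, a.mul c, D.mul _ _ a c, by rw [mul_smul, d, b]⟩
  inv_mem' := by
    rintro _ ⟨g, a, rfl, b⟩
    exact ⟨g⁻¹, D.blk.inv a, D.inv a, inv_smul_eq_iff.2 b.symm⟩

/-- the image of the fixer of the complement -/
def nT : Subgroup T where
  carrier := {t | ∃ g, inN S g ∧ ψ g = t}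
  one_mem' := ⟨1, fun _ _ => one_smul _ _, D.one⟩
  mul_mem' := by
    rintro _ _ ⟨g, a, rfl⟩ ⟨h, c, rfl⟩
    exact ⟨g * h, fun x hx => by rw [mul_smul, c x hx, a x hx], D.mul _ _ a.inL c.inL⟩
  inv_mem' := by
    rintro _ ⟨g, a, rfl⟩
    exact ⟨g⁻¹, fun x hx => inv_smul_eq_iff.2 (a x hx).symm, D.inv a.inL⟩

theorem mem_stb {w : Ω} (hw : w ∈ S) {g : G} (a : inL S g) : ψ g ∈ D.stb w ↔ g • w = w :=
  ⟨fun ⟨h, b, c, d⟩ => by rw [← (D.eq _ _ b a).1 c w hw, d], fun h => ⟨g, a, rfl, h⟩⟩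

theorem fam' {X : Subgroup T} : X ∈ E.s ↔ (∃ w ∈ S, D.stb w ≤ X) ∨ D.nT ≤ X := by
  rw [D.fam]
  refine or_congr (exists_congr fun w => and_congr_right fun hw => ⟨?_, ?_⟩) ⟨?_, ?_⟩
  · rintro h _ ⟨g, -, rfl, b⟩
    exact h g b
  · exact fun h g b => h ⟨g, D.blk.fix hw b, rfl, b⟩
  · rintro h _ ⟨g, a, rfl⟩
    exact h g a
  · exact fun h g b => h ⟨g, b, rfl⟩

theorem stb_mem {w : Ω} (hw : w ∈ S) : D.stb w ∈ E.s := D.fam'.2 (.inl ⟨w, hw, le_rfl⟩)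

theorem nT_mem : D.nT ∈ E.s := D.fam'.2 (.inr le_rfl)

theorem cj_stb {w : Ω} (hw : w ∈ S) {g : G} (a : inL S g) : cj (ψ g) (D.stb w) = D.stb (g • w) := by
  ext t
  obtain ⟨h, b, rfl⟩ := D.sur t
  have i := D.blk.inv a
  rw [mem_cj, ← D.inv a, ← D.mul _ _ i b, ← D.mul _ _ (i.mul b) a, D.mem_stb hw ((i.mul b).mul a),
    D.mem_stb (a w hw) b, mul_smul, mul_smul, inv_smul_eq_iff]

theorem cj_nT (t : T) : cj t D.nT = D.nT := by
  have : ∀ t : T, ∀ x ∈ D.nT, t⁻¹ * x * t ∈ D.nT := by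
    rintro t _ ⟨n, a, rfl⟩
    obtain ⟨g, b, rfl⟩ := D.sur t
    have i := D.blk.inv b
    refine ⟨g⁻¹ * n * g, fun x hx => ?_, by
      rw [D.mul _ _ (i.mul a.inL) b, D.mul _ _ i a.inL, D.inv b]⟩
    rw [mul_smul, mul_smul, a _ fun c => hx (by simpa using i _ c), inv_smul_smul]
  refine le_antisymm (fun x hx => ?_) fun x hx => mem_cj.2 (this t x hx)
  simpa [mul_assoc] using this t⁻¹ _ (mem_cj.1 hx)

theorem nT_ne : D.nT ≠ ⊥ := fun h => by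
  obtain ⟨u, hu⟩ := D.blk.2.1
  obtain ⟨n, a, b⟩ := D.blk.2.2 u hu
  have : ψ n ∈ D.nT := ⟨n, a, rfl⟩
  rw [h, Subgroup.mem_bot, D.eq_one a.inL] at this
  exact b (by rw [this u hu, one_smul])

theorem base {u u' : Ω} (hu : u ∈ S) (hu' : u' ∈ S) (h : ∀ t ∈ D.stb u, t ∈ D.stb u' → t = 1) :
    mov G (mov G {u, u'}) = S ∧ BaseL G S u u' := by
  have b : ∀ g : G, g • u = u → g • u' = u' → eqS S g 1 := fun g a b =>
    (D.eq_one (D.blk.fix hu a)).1 (h _ ⟨g, D.blk.fix hu a, rfl, a⟩ ⟨g, D.blk.fix hu a, rfl, b⟩)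
  refine ⟨?_, hu, hu', b⟩
  rw [mov_eq (S := S) (B := {u, u'}) (by rintro _ (rfl | rfl); exacts [hu, hu']) fun g a =>
    b g (by simpa using a u (.inl rfl)) (by simpa using a u' (.inr rfl)), D.cls]

/-- among three elements of the family at most one contains `nT` -/
theorem base3 {X : Fin 3 → Subgroup T} (m : ∀ i, X i ∈ E.s)
    (h : ∀ i j, i ≠ j → ∀ t ∈ X i, t ∈ X j → t = 1) :
    ∃ u u', mov G (mov G {u, u'}) = S ∧ BaseL G S u u' := by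
  have : ∃ i j, i ≠ j ∧ ¬D.nT ≤ X i ∧ ¬D.nT ≤ X j := by
    have k : ∀ i j, i ≠ j → D.nT ≤ X i → ¬D.nT ≤ X j := fun i j n a b =>
      D.nT_ne (eq_bot_iff.2 fun t ht => h i j n t (a ht) (b ht))
    by_cases a : D.nT ≤ X 0
    · exact ⟨1, 2, by decide, k 0 1 (by decide) a, k 0 2 (by decide) a⟩
    by_cases b : D.nT ≤ X 1
    · exact ⟨0, 2, by decide, a, k 1 2 (by decide) b⟩
    exact ⟨0, 1, by decide, a, b⟩
  obtain ⟨i, j, n, a, b⟩ := this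
  obtain ⟨u, hu, l⟩ := (D.fam'.1 (m i)).resolve_right a
  obtain ⟨u', hu', l'⟩ := (D.fam'.1 (m j)).resolve_right b
  exact ⟨u, u', D.base hu hu' fun t c d => h i j n t (l c) (l' d)⟩

theorem reg (h : ⊥ ∈ E.s) : ∃ u u', mov G (mov G {u, u'}) = S ∧ BaseL G S u u' ∧ RegL G S := by
  obtain ⟨u, hu, l⟩ := (D.fam'.1 h).resolve_right fun a => D.nT_ne (eq_bot_iff.2 a)
  obtain ⟨a, b⟩ := D.base hu hu fun t c _ => l c
  exact ⟨u, u, a, b, u, hu, fun g c => b.2.2 g c c⟩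

omit D in
theorem zp2 {s t : T} (h : s * s = 1) : t ∈ Subgroup.zpowers s ↔ t = 1 ∨ t = s := by
  refine ⟨fun a => ?_, by rintro (rfl | rfl); exacts [one_mem _, Subgroup.mem_zpowers _]⟩
  let P : Subgroup T :=
    { carrier := {t | t = 1 ∨ t = s}
      one_mem' := .inl rfl
      mul_mem' := by rintro _ _ (rfl | rfl) (rfl | rfl) <;> simp [h]
      inv_mem' := by
        rintro _ (rfl | rfl)
        exacts [.inl inv_one, .inr (inv_eq_of_mul_eq_one_right h)] }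
  exact (Subgroup.zpowers_le (H := P)).2 (.inr rfl) a

theorem dih (h : E.DihA) : ∃ u u', mov G (mov G {u, u'}) = S ∧ BaseL G S u u' ∧ DihL G S := by
  obtain ⟨-, R, h3, h1, h2, h4⟩ := h
  have rf : ∀ s : G, Rf S s ↔ inL S s ∧ ψ s ∈ R := fun s => by
    refine and_congr_right fun a => ?_
    have e : ψ s * ψ s = 1 → (InF S (fun g : G => eqS S g 1 ∨ eqS S g s) ↔
        Subgroup.zpowers (ψ s) ∈ E.s) := fun e => by
      rw [D.fam]
      simp only [zp2 e]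
      refine or_congr (exists_congr fun w => and_congr_right fun hw =>
        forall₂_congr fun g b => ?_) (forall₂_congr fun g b => ?_)
      · exact or_congr (D.eq_one (D.blk.fix hw b)).symm (D.eq _ _ (D.blk.fix hw b) a).symm
      · exact or_congr (D.eq_one b.inL).symm (D.eq _ _ b.inL a).symm
    rw [← D.eq_one a, ← D.eq_one (a.mul a), D.mul _ _ a a]
    refine ⟨fun ⟨_, c, d⟩ => ?_, fun c => ⟨(h1 _ c).1, (h1 _ c).2.1, (e (h1 _ c).2.1).2 (h1 _ c).2.2⟩⟩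
    obtain ⟨t, m, k⟩ := h2 _ ((e c).1 d)
    rwa [← ((zp2 c).1 k).resolve_left (h1 t m).1]
  obtain ⟨a, b, c, ha, hb, hc, n1, n2, n3⟩ := Finset.two_lt_card_iff.1 h3
  have k : ∀ x ∈ R, ∀ y ∈ R, x ≠ y → ∀ t ∈ Subgroup.zpowers x, t ∈ Subgroup.zpowers y → t = 1 :=
    fun x hx y hy n t p q => ((zp2 (h1 x hx).2.1).1 p).elim id fun p =>
      ((zp2 (h1 y hy).2.1).1 q).elim id fun q => (n (p.symm.trans q)).elim
  obtain ⟨u, u', e1, e2⟩ := D.base3 (X := fun i => Subgroup.zpowers (![a, b, c] i))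
    (fun i => by fin_cases i; exacts [(h1 a ha).2.2, (h1 b hb).2.2, (h1 c hc).2.2]) fun i j n => by
      fin_cases i <;> fin_cases j
      exacts [(n rfl).elim, k a ha b hb n1, k a ha c hc n2, k b hb a ha n1.symm, (n rfl).elim,
        k b hb c hc n3, k c hc a ha n2.symm, k c hc b hb n3.symm, (n rfl).elim]
  refine ⟨u, u', e1, e2, fun w hw => ?_, ?_, fun s t v p q r => ?_⟩
  · obtain ⟨_, m, g, p, rfl, q⟩ := h2 _ (D.stb_mem hw)
    exact ⟨g, (rf g).2 ⟨p, m⟩, q⟩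
  · obtain ⟨_, m, g, p, rfl⟩ := h2 _ D.nT_mem
    exact ⟨g, p, (rf g).2 ⟨p.inL, m⟩⟩
  · rw [rf] at p q r ⊢
    refine ⟨(p.1.mul q.1).mul r.1, ?_⟩
    rw [D.mul _ _ (p.1.mul q.1) r.1, D.mul _ _ p.1 q.1]
    exact h4 _ p.2 _ q.2 _ r.2

theorem b4 (h : E.B4A) : ∃ u u', mov G (mov G {u, u'}) = S ∧ BaseL G S u u' ∧ B4L G S := by
  obtain ⟨r, c, h1, h2, h3, h4, h5, h6⟩ := h
  choose l l1 l2 using D.sur
  have r0 : r 0 = 1 := left_eq_mul.1 (show r 0 = r 0 * r 0 by rw [← h1, add_zero])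
  have c0 : c 0 = 1 := left_eq_mul.1 (show c 0 = c 0 * c 0 by rw [← h2, add_zero])
  have v1 : ∀ i : V4, i + i = 0 := by decide
  have v2 : ∀ i j : V4, i + j = 0 → i = j := by decide
  have ri : ∀ i, r i * r i = 1 := fun i => by rw [← h1, v1, r0]
  have ci : ∀ i, c i * c i = 1 := fun i => by rw [← h2, v1, c0]
  have inj : ∀ i j i' j', r i * c j = r i' * c j' → i = i' ∧ j = j' := fun i j i' j' a => by
    have : r (i' + i) * c (j + j') = 1 := by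
      rw [h1, h2, mul_assoc, ← mul_assoc (r i), a, mul_assoc, ci, mul_one, ri]
    obtain ⟨p, q⟩ := h4 _ _ this
    exact ⟨(v2 _ _ p).symm, v2 _ _ q⟩
  let σ : Fin 3 → V4 → V4 := ![fun x => x, fun x => (x.2, x.1 + x.2), fun x => (x.1 + x.2, x.1)]
  have s1 : ∀ k, Function.Injective (σ k) := by decide
  have s2 : ∀ k, σ k 0 = 0 := by decide
  have s3 : ∀ k k', k ≠ k' → ∀ x, σ k x = σ k' x → x = 0 := by decide
  choose X m hX using fun k => h5 (σ k) (s1 k) (s2 k)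
  obtain ⟨u, u', e1, e2⟩ := D.base3 m fun k k' n t p q => by
    obtain ⟨i, rfl⟩ := (hX k t).1 p
    obtain ⟨j, a⟩ := (hX k' _).1 q
    obtain ⟨rfl, b⟩ := inj _ _ _ _ a
    rw [s3 k k' n i b, s2, r0, c0, one_mul]
  have ll : ∀ s t, inL S (l s * l t) := fun s t => (l1 s).mul (l1 t)
  have pl : ∀ s t, ψ (l s * l t) = s * t := fun s t => by rw [D.mul _ _ (l1 _) (l1 _), l2, l2]
  refine ⟨u, u', e1, e2, fun i => l (r i), fun i => l (c i), fun i => ⟨l1 _, l1 _⟩, fun i j => ?_,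
    fun i j => ?_, fun i j => ?_, fun i j a => ?_, fun τ a b => ?_, fun w hw => ?_, ?_⟩
  · rw [← D.eq _ _ (l1 _) (ll _ _), pl, l2, h1]
  · rw [← D.eq _ _ (l1 _) (ll _ _), pl, l2, h2]
  · rw [← D.eq _ _ (ll _ _) (ll _ _), pl, pl, h3]
  · rw [← D.eq_one (ll _ _), pl] at a
    exact h4 i j a
  · obtain ⟨H, p, q⟩ := h5 τ a b
    have k : ∀ g : G, inL S g → ψ g ∈ H → ∃ i, eqS S g (l (r i) * l (c (τ i))) := fun g x y => by
      obtain ⟨i, z⟩ := (q _).1 y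
      exact ⟨i, by rw [← D.eq _ _ x (ll _ _), pl, z]⟩
    exact ((D.fam H).1 p).imp (fun ⟨w, hw, x⟩ => ⟨w, hw, fun g y => k g (D.blk.fix hw y) (x g y)⟩)
      fun x g y => k g y.inL (x g y)
  · obtain ⟨τ, a, b, p⟩ := h6 _ (D.stb_mem hw)
    exact ⟨τ, a, b, fun i => by rw [← D.mem_stb hw (ll _ _), pl]; exact p i⟩
  · obtain ⟨τ, a, b, p⟩ := h6 _ D.nT_mem
    refine ⟨τ, a, b, fun i => ?_⟩
    obtain ⟨n, x, y⟩ := p i
    exact ⟨n, x, by rw [← D.eq _ _ x.inL (ll _ _), pl, y]⟩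

theorem sym [Finite T] (h : E.SymA) :
    ∃ u u', mov G (mov G (orbS G u u')) = S ∧ SymL G S (orbS G u u') := by
  obtain ⟨h4, L, h1, h2, h3⟩ := h
  have fin : {H | E.Mem H}.Finite := Set.toFinite _
  have ex : ∀ H K : Subgroup T, ∃ M, E.Mem M ∧ M ≠ H ∧ M ≠ K := fun H K => by
    by_contra c
    push Not at c
    have := (Set.ncard_le_ncard (s := {H | E.Mem H}) (t := {H, K})
      fun M m => by by_cases a : M = H; exacts [.inl a, .inr (c M m a)]).trans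
      ((Set.ncard_insert_le _ _).trans (by rw [Set.ncard_singleton]))
    omega
  have pt : ∀ H, E.Mem H → ∃ w ∈ S, D.stb w = H := fun H m => by
    rcases D.fam'.1 m.mem with ⟨w, hw, l⟩ | l
    · exact ⟨w, hw, m.eq (D.stb_mem hw) l⟩
    obtain ⟨K, mK, n, -⟩ := ex H H
    obtain ⟨t, -, a, -⟩ := h3 H K m mK n.symm
    rw [← m.eq D.nT_mem l, D.cj_nT, m.eq D.nT_mem l] at a
    exact (n a.symm).elim
  obtain ⟨H0, m0, l0⟩ := Fam.exists_mem D.nT_mem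
  have all : ∀ H, E.Mem H → H ≤ D.nT := fun H m => by
    by_cases a : H0 = H
    · exact a ▸ l0
    obtain ⟨t, -, b, -⟩ := h3 H0 H m0 m a
    rw [← b, ← D.cj_nT t]
    exact cj_mono t l0
  obtain ⟨u', hu', e0⟩ := pt H0 m0
  let O : Set Ω := {a | ∃ g : G, inL S g ∧ ψ g ∈ L ∧ g • u' = a}
  have o1 : O ⊆ S := by
    rintro _ ⟨g, a, -, rfl⟩
    exact a _ hu'
  have o2 : ∀ a ∈ O, E.Mem (D.stb a) := by
    rintro _ ⟨g, a, -, rfl⟩
    rw [← D.cj_stb hu' a, e0]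
    exact m0.cj _
  have o3 : ∀ g : G, inL S g → ψ g ∈ L → inL O g := by
    rintro g a b _ ⟨k, c, d, rfl⟩
    exact ⟨g * k, a.mul c, by rw [D.mul _ _ a c]; exact L.mul_mem b d, mul_smul _ _ _⟩
  have o4 : ∀ a ∈ O, ∀ b ∈ O, D.stb a = D.stb b → a = b := by
    rintro a ha _ ⟨k, c, d, rfl⟩ e
    obtain ⟨g, p, q, rfl⟩ := ha
    have i := D.blk.inv c
    have : ψ (k⁻¹ * g) ∈ D.stb u' := h2 _ (e0 ▸ m0) _ (by
      rw [D.mul _ _ i p, D.inv c]; exact L.mul_mem (L.inv_mem d) q) (by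
      rw [D.mul _ _ i p, cj_mul, D.cj_stb hu' p, e, D.cj_stb (c _ hu') i, inv_smul_smul])
    rwa [D.mem_stb hu' (i.mul p), mul_smul, inv_smul_eq_iff] at this
  have u0 : u' ∈ O := ⟨1, inL_one, by rw [D.one]; exact L.one_mem, one_smul _ _⟩
  have o5 : ∀ H, E.Mem H → ∃ a ∈ O, D.stb a = H := fun H m => by
    by_cases a : H0 = H
    · exact ⟨u', u0, e0.trans a⟩
    obtain ⟨t, ht, b, -⟩ := h3 H0 H m0 m a
    obtain ⟨g, p, rfl⟩ := D.sur t
    exact ⟨g • u', ⟨g, p, ht, rfl⟩, by rw [← D.cj_stb hu' p, e0, b]⟩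
  have o6 : ∀ a ∈ O, ∀ b ∈ O, a ≠ b → ∃ n : G, inN S n ∧ n • a = b ∧ n • b = a ∧
      ∀ w ∈ O, w ≠ a → w ≠ b → n • w = w := fun a ha b hb n => by
    obtain ⟨t, ht, p, q, r⟩ := h3 _ _ (o2 a ha) (o2 b hb) fun e => n (o4 a ha b hb e)
    obtain ⟨M, m, x, y⟩ := ex (D.stb a) (D.stb b)
    obtain ⟨g, z, rfl⟩ := all M m (r M m x y)
    rw [D.cj_stb (o1 ha) z.inL] at p
    rw [D.cj_stb (o1 hb) z.inL] at q
    exact ⟨g, z, o4 _ (o3 g z.inL ht a ha) b hb p, o4 _ (o3 g z.inL ht b hb) a ha q,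
      fun w hw x y => (D.mem_stb (o1 hw) z.inL).1 (r _ (o2 w hw)
        (fun e => x (o4 w hw a ha e)) fun e => y (o4 w hw b hb e))⟩
  have o7 : ∀ v ∈ O, ∀ g : G, g • v = v → inL O g := fun v hv g a =>
    o3 g (D.blk.fix (o1 hv) a) (h1 _ (o2 v hv) ⟨g, D.blk.fix (o1 hv) a, rfl, a⟩)
  have o8 : ∀ w ∈ S, ∃ v ∈ O, ∀ g : G, g • v = v → g • w = w := fun w hw => by
    obtain ⟨H, m, l⟩ := Fam.exists_mem (D.stb_mem hw)
    obtain ⟨v, hv, rfl⟩ := o5 H m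
    exact ⟨v, hv, fun g a => (D.mem_stb hw (D.blk.fix (o1 hv) a)).1
      (l ⟨g, D.blk.fix (o1 hv) a, rfl, a⟩)⟩
  have o9 : ∀ g : G, eqS O g 1 → eqS S g 1 := fun g a w hw => by
    obtain ⟨v, hv, b⟩ := o8 w hw
    rw [one_smul]
    exact b g (by rw [a v hv, one_smul])
  obtain ⟨K, mK, nK, -⟩ := ex H0 H0
  obtain ⟨u, hu, eu⟩ := o5 K mK
  have nu : u' ≠ u := fun e => nK (by rw [← eu, ← e, e0])
  have e : orbS G u u' = O := by
    refine Set.ext fun a => ⟨?_, fun ha => ?_⟩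
    · rintro (rfl | ⟨g, p, rfl⟩)
      exacts [u0, o7 u' u0 g p u hu]
    by_cases x : a = u'
    · exact .inl x
    by_cases y : u = a
    · exact .inr ⟨1, one_smul _ _, by rw [one_smul, y]⟩
    obtain ⟨n, -, p, -, q⟩ := o6 u hu a ha y
    exact .inr ⟨n, q u' u0 nu (Ne.symm x), p⟩
  exact ⟨u, u', by rw [e, mov_eq o1 o9, D.cls], e ▸ ⟨o1, o7, o9, o6, o8⟩⟩

end LD

end Pool.Agent.Lib.MP_3cc314_lc.Cg
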