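import Pool.Agent.Lib.MP_3cc314_lc.CgM6c
import Pool.Agent.Lib.MP_3cc314_lc.CgM1

set_option autoImplicit false

namespace Pool.Agent.Lib.MP_3cc314_lc.Cg
open scoped Classical

variable {G : Type} [Group G] [Finite G]

namespace Fam
variable {F : Fam G} {A B : Subgroup G} {I : Set (Subgroup G)} {a : G} {H : Fin 3 → Subgroup G}
  {s : Fin 3 → G}

omit [Finite G] in
theorem Pr.conj (h : F.Pr A B) {x g : G} (hg : g ∈ Subgroup.normalizer (A : Set G)) :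
    g⁻¹ * x * g ∈ A ⊔ B ↔ x ∈ A ⊔ B := by
  have e := cj_eq_iff.2 hg
  rw [← mem_cj, cj_sup, e, h.cjB.2 e]

omit [Finite G] in
theorem Exc.sq (e : F.Exc A B H s) (i : Fin 3) : s i * s i ∈ A ⊔ B :=
  (e.tr i _ (mul_mem (e.sH i) (e.sH i)) (mul_mem (e.sL i) (e.sL i))).resolve_right
    fun c => e.sM i (by simpa using c)

omit [Finite G] in
theorem Exc.ne (h : F.Pr A B) (e : F.Exc A B H s) {i j : Fin 3} (n : i ≠ j) :
    (s i)⁻¹ * s j ∉ A ⊔ B := by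
  have sy : ∀ i j, (s i)⁻¹ * s j ∈ A ⊔ B → (s j)⁻¹ * s i ∈ A ⊔ B := fun i j c => by
    simpa using inv_mem c
  have m : ∀ i j, (s i)⁻¹ * s j ∈ A ⊔ B → s i * s j ∈ A ⊔ B := fun i j c => by
    simpa [mul_assoc] using mul_mem (e.sq i) c
  have p := e.pr
  have h01 : (s 0)⁻¹ * s 1 ∉ A ⊔ B := fun c => e.sM 2 (((A ⊔ B).mul_mem_cancel_left (m _ _ c)).1 p)
  have h12 : (s 1)⁻¹ * s 2 ∉ A ⊔ B := fun c => e.sM 0 (by
    rw [mul_assoc] at p; exact ((A ⊔ B).mul_mem_cancel_right (m _ _ c)).1 p)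
  have h02 : (s 0)⁻¹ * s 2 ∉ A ⊔ B := fun c => e.sM 1 (by
    have := (h.conj (e.sL 0)).2 p
    rw [show (s 0)⁻¹ * (s 0 * s 1 * s 2) * s 0 = s 1 * (s 2 * s 0) by group] at this
    exact ((A ⊔ B).mul_mem_cancel_right (m _ _ (sy _ _ c))).1 this)
  fin_cases i <;> fin_cases j <;> first
    | exact (n rfl).elim | exact h01 | exact h12 | exact h02
    | exact fun c => h01 (sy _ _ c) | exact fun c => h12 (sy _ _ c) | exact fun c => h02 (sy _ _ c)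

theorem Exc.m3 (h : F.Pr A B) (e : F.Exc A B H s)
    (l : ∀ i, H i ≤ Subgroup.normalizer (A : Set G)) : A ⊔ B ∈ F.s := by
  set M := A ⊔ B with hM
  have sh : ∀ g t : G, t ∈ Subgroup.normalizer (A : Set G) → ∀ g', g⁻¹ * g' * t ∈ M →
      ∀ x, ind g M (x * t) = ind g' M x := fun g t ht g' c x => by
    have : g⁻¹ * (x * t) = g⁻¹ * g' * t * (t⁻¹ * (g'⁻¹ * x) * t) := by group
    have e2 : t⁻¹ * (g'⁻¹ * x) * t ∈ M ↔ g'⁻¹ * x ∈ M := h.conj ht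
    simp only [ind, this, M.mul_mem_cancel_left c, e2]
  have inv : ∀ i (f : G → ℝ), (∀ x, ∀ m ∈ M, f (x * m) = f x) → (∀ x, f (x * s i) = f x) → f ∈ F.sp :=
    fun i f a b => mem_sp_of_inv (e.mem i).1 fun x u hu => by
      rcases e.tr i u hu (l i hu) with c | c
      · exact a x u c
      · rw [show x * u = x * s i * ((s i)⁻¹ * u) by group, a _ _ c, b]
  have a0 : ∀ i x, ind 1 M (x * s i) = ind (s i) M x := fun i => sh _ _ (e.sL i) _ (by simpa using e.sq i)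
  have a1 : ∀ i x, ind (s i) M (x * s i) = ind 1 M x := fun i => sh _ _ (e.sL i) _ (by simp)
  have p1 : s 1 * s 2 * s 0 ∈ M := by
    have := (h.conj (e.sL 0)).2 e.pr
    rwa [show (s 0)⁻¹ * (s 0 * s 1 * s 2) * s 0 = s 1 * s 2 * s 0 by group] at this
  have a2 : ∀ x, ind (s 1) M (x * s 0) = ind (s 2) M x := sh _ _ (e.sL 0) _ (by
    simpa [mul_assoc] using mul_mem (inv_mem (e.sq 1)) p1)
  have a3 : ∀ x, ind (s 2) M (x * s 0) = ind (s 1) M x := sh _ _ (e.sL 0) _ (by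
    simpa [mul_assoc] using
      mul_mem (mul_mem (inv_mem e.pr) ((h.conj (inv_mem (e.sL 0))).2 (e.sq 1))) (e.sq 0))
  have f : ∀ i, ind 1 M + ind (s i) M ∈ F.sp := fun i => inv i _
    (fun x m hm => by simp only [Pi.add_apply, ind_mul hm]) fun x => by
      simp only [Pi.add_apply, a0, a1, add_comm]
  have g : ind 1 M + ind (s 0) M + (ind (s 1) M + ind (s 2) M) ∈ F.sp := inv 0 _
    (fun x m hm => by simp only [Pi.add_apply, ind_mul hm]) fun x => by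
      simp only [Pi.add_apply, a0, a1, a2, a3]; ring
  refine h.sf.mem ?_
  have := F.sp.smul_mem (1 / 2 : ℝ) (F.sp.sub_mem (F.sp.add_mem (F.sp.add_mem (f 0) (f 1)) (f 2)) g)
  refine (congrArg (· ∈ F.sp) (funext fun x => ?_)).mp this
  simp only [Pi.smul_apply, Pi.sub_apply, Pi.add_apply, smul_eq_mul]; ring

theorem Exc.lr (h : F.Pr A B) (e : F.Exc A B H s) {g : G} (n : cj g A ≠ A)
    (mx : ∀ g', cj g' A ≠ A → True →
      (F.Su A ∩ F.Su (cj g' A)).ncard ≤ (F.Su A ∩ F.Su (cj g A)).ncard)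
    (ne : (F.Su A ∩ F.Su (cj g A)).Nonempty)
    (c : (∃ a ∈ A, ∀ K ∈ F.Su A, K ∉ F.Su (cj g A) → cj a K ∈ F.Su (cj g A)) ∨
      cj g A ≤ Subgroup.normalizer (A : Set G)) : F.LR A B (F.Su A ∩ F.Su (cj g A)) := by
  have su : ∀ i, H i ∈ F.Su A := fun i => ⟨e.mem i, e.nle i⟩
  have two : ∃ i j, i ≠ j ∧ (∃ a ∈ A, cj a (H i) ∈ F.Su (cj g A)) ∧ ∃ a ∈ A, cj a (H j) ∈ F.Su (cj g A) := by
    rcases c with ⟨a, ha, c⟩ | c
    · have : ∀ i, ∃ a ∈ A, cj a (H i) ∈ F.Su (cj g A) := fun i => by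
        by_cases t : H i ∈ F.Su (cj g A)
        exacts [⟨1, one_mem _, by rwa [cj_one]⟩, ⟨a, ha, c _ (su i) t⟩]
      exact ⟨0, 1, by decide, this 0, this 1⟩
    obtain ⟨y, hy, y1⟩ : ∃ y ∈ cj g A, y ≠ 1 := by
      by_contra t
      push Not at t
      exact h.ne (cj_eq_bot.1 (eq_bot_iff.2 t))
    have yM : y ∉ A ⊔ B := fun t => by
      obtain ⟨a, ha, b, hb, rfl⟩ := h.dec t
      have : a ∈ cj g A := h.mem fun K m t => by
        by_cases k : K ∈ F.Su A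
        · exact (K.mul_mem_cancel_right (h.le1 k hb)).1 (le_of_not_su m t hy)
        · exact le_of_not_su m k ha
      have a1 : a = 1 := Subgroup.mem_bot.1 ((h.m1 g n).1 ▸ (⟨ha, this⟩ : a ∈ A ⊓ cj g A))
      rw [a1, one_mul] at hy y1
      obtain ⟨u, hu⟩ := ne
      have n' : cj g⁻¹ A ≠ A := fun t => n (by conv_lhs => rw [← t, cj_cj_inv])
      have := h.fixI n' ((su_cj' g).1 hu.2) ((su_cj g⁻¹).2 hu.1) (mem_cj.1 hy) fun K m => by
        have := h.le m.2 ((conj_mem_cj g⁻¹).2 hb)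
        rwa [inv_inv] at this
      exact y1 ((conj_eq_one_iff (a := g⁻¹)).1 (by rwa [inv_inv]))
    have t : ∀ i, H i ∉ F.Su (cj g A) → (s i)⁻¹ * y ∈ A ⊔ B := fun i t =>
      (e.tr i y (le_of_not_su (e.mem i) t hy) (c hy)).resolve_left yM
    have t2 : ∀ i j, i ≠ j → H i ∈ F.Su (cj g A) ∨ H j ∈ F.Su (cj g A) := fun i j ij => by
      by_contra k
      push Not at k
      exact e.ne h ij (by simpa [mul_assoc] using mul_mem (t i k.1) (inv_mem (t j k.2)))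
    have t3 : ∀ i, H i ∈ F.Su (cj g A) → ∃ a ∈ A, cj a (H i) ∈ F.Su (cj g A) := fun i k =>
      ⟨1, one_mem _, by rwa [cj_one]⟩
    rcases t2 0 1 (by decide) with k | k
    · rcases t2 1 2 (by decide) with k' | k'
      exacts [⟨0, 1, by decide, t3 _ k, t3 _ k'⟩, ⟨0, 2, by decide, t3 _ k, t3 _ k'⟩]
    · rcases t2 0 2 (by decide) with k' | k'
      exacts [⟨0, 1, by decide, t3 _ k', t3 _ k⟩, ⟨1, 2, by decide, t3 _ k, t3 _ k'⟩]
  refine ⟨⟨g, n, rfl⟩, fun g' n' l => max_of_card _ mx n' trivial l, fun x hx ex => ?_⟩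
  obtain ⟨i, j, ij, hi, hj⟩ := two
  have xL := cj_eq_iff.1 ex
  have k : ∀ i, (∃ a ∈ A, cj a (H i) ∈ F.Su (cj g A)) → x ∈ H i := fun i ⟨a, ha, t⟩ =>
    ((e.inv i a ha).le (Subgroup.mem_inf.2 ⟨Subgroup.mem_sInf.1 hx _ ⟨(su_A ha).2 (su i), t⟩, xL⟩)).1
  have xM : x ∈ A ⊔ B := by
    by_contra t
    have := mul_mem ((e.tr i x (k i hi) xL).resolve_left t)
      (inv_mem ((e.tr j x (k j hj) xL).resolve_left t))
    exact e.ne h ij (by simpa [mul_assoc] using this)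
  obtain ⟨a, ha, b, hb, rfl⟩ := h.dec xM
  have : a = 1 := Subgroup.mem_bot.1 (e.two i j ij ▸ (⟨⟨ha,
    ((H i).mul_mem_cancel_right (h.le1 (su i) hb)).1 (k i hi)⟩,
    ((H j).mul_mem_cancel_right (h.le1 (su j) hb)).1 (k j hj)⟩ : a ∈ A ⊓ H i ⊓ H j))
  rwa [this, one_mul]

/-- the dichotomy for a pair of largest overlap -/
theorem dich {g a : G} (ha : a ∈ A)
    (mx : ∀ g', cj g' A ≠ A → True →
      (F.Su A ∩ F.Su (cj g' A)).ncard ≤ (F.Su A ∩ F.Su (cj g A)).ncard)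
    (n : cj a (cj g A) ≠ cj g A) {K : Subgroup G} (s : K ∈ F.Su A) (i : K ∉ F.Su (cj g A)) :
    cj a K ∈ F.Su (cj g A) := by
  by_contra i'
  have h0 := mx (g⁻¹ * a * g) (fun e => n (by
    conv_rhs => rw [← e, ← cj_mul]
    rw [← cj_mul]; congr 1; group)) trivial
  rw [← su_card g, ← cj_mul, show g * (g⁻¹ * a * g) = a * g by group, cj_mul] at h0
  set I := F.Su A ∩ F.Su (cj g A) with hI
  have h1 : (F.Su (cj g A) \ I) ∪ (I ∩ cj a '' I) ⊆ F.Su (cj g A) ∩ F.Su (cj a (cj g A)) := by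
    rintro K (⟨s, i⟩ | ⟨m, K', m', rfl⟩)
    · exact ⟨s, by
        rw [← cj_of_mem (le_of_not_su s.1 (fun c => i ⟨c, s⟩) ha)]; exact (su_cj _).2 s⟩
    · exact ⟨m.2, (su_cj _).2 m'.2⟩
  have h2 := (Set.ncard_le_ncard h1).trans h0
  rw [Set.ncard_union_eq (Set.disjoint_left.2 fun K a b => a.2 b.1)] at h2
  have h3 : I ⊆ (I ∩ cj a '' I) ∪ (cj a '' (F.Su A \ I) \ {cj a K}) := fun K m => by
    by_cases j : cj a⁻¹ K ∈ I
    · exact .inl ⟨m, _, j, cj_cj_inv a K⟩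
    · exact .inr ⟨⟨_, ⟨(su_A (A.inv_mem ha)).2 m.1, j⟩, cj_cj_inv a K⟩, fun e => i' (e ▸ m.2)⟩
  have h4 := (Set.ncard_le_ncard h3).trans (Set.ncard_union_le _ _)
  have h5 := Set.ncard_sdiff_singleton_lt_of_mem (s := cj a '' (F.Su A \ I)) (a := cj a K)
    ⟨K, ⟨s, fun c => i c.2⟩, rfl⟩
  rw [Set.ncard_image_of_injective _ (cj_inj a)] at h5
  have h6 := Set.ncard_sdiff_add_ncard_of_subset (s := I) (t := F.Su A) Set.inter_subset_left
  have h7 := Set.ncard_sdiff_add_ncard_of_subset (s := I) (t := F.Su (cj g A)) Set.inter_subset_right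
  have h8 : (F.Su (cj g A)).ncard = (F.Su A).ncard := by
    rw [su_image, Set.ncard_image_of_injective _ (cj_inj g)]
  omega

theorem Exc.ls (h : F.Pr A B) (e : F.Exc A B H s) {g : G} (n : cj g A ≠ A)
    (mx : ∀ g', cj g' A ≠ A → True →
      (F.Su A ∩ F.Su (cj g' A)).ncard ≤ (F.Su A ∩ F.Su (cj g A)).ncard)
    (ne : (F.Su A ∩ F.Su (cj g A)).Nonempty) : ∃ a, F.LS A B (F.Su A ∩ F.Su (cj g A)) a := by
  have step : ∀ g, cj g A ≠ A → (∀ g', cj g' A ≠ A → True →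
      (F.Su A ∩ F.Su (cj g' A)).ncard ≤ (F.Su A ∩ F.Su (cj g A)).ncard) →
      (F.Su A ∩ F.Su (cj g A)).Nonempty →
      ((∃ a ∈ A, cj a (cj g A) ≠ cj g A) ∨ cj g A ≤ Subgroup.normalizer (A : Set G)) →
      ∃ a, F.LS A B (F.Su A ∩ F.Su (cj g A)) a := fun g n mx ne c => by
    have r := e.lr h n mx ne (c.imp (fun ⟨a, ha, t⟩ => ⟨a, ha, fun K => dich ha mx t⟩) id)
    obtain ⟨p, hp, np⟩ := r.exP h
    exact r.toLS h ne fun a ha K s i i' => r.sz h hp np ha (fun n' => mx _ n' trivial) s i i'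
  by_cases c : ∃ a ∈ A, cj a (cj g A) ≠ cj g A
  · exact step g n mx ne (.inl c)
  push Not at c
  have c1 : (F.Su A ∩ F.Su (cj g⁻¹ A)).ncard = (F.Su A ∩ F.Su (cj g A)).ncard := by
    rw [← su_card g, cj_cj_inv, Set.inter_comm]
  obtain ⟨a, r⟩ := step g⁻¹ (fun t => n (by conv_lhs => rw [← t, cj_cj_inv])) (c1 ▸ mx)
    (by obtain ⟨u, hu⟩ := ne; exact ⟨_, (su_cj' g).1 hu.2, (su_cj _).2 hu.1⟩)
    (.inr fun x hx => cj_eq_iff.1 (cj_inj g (by
      rw [← cj_mul, show g * x = g * x * g⁻¹ * g by group, cj_mul]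
      exact c _ (mem_cj_self.1 hx))))
  refine step g n mx ne (.inr fun y hy => cj_eq_iff.1 ?_)
  have : a * y * a⁻¹ = y := by
    have t := mem_cj.1 (c a r.aA ▸ (conj_mem_cj a).2 hy : a * y * a⁻¹ ∈ cj g A)
    have y' : y = g * (g⁻¹ * y * g) * g⁻¹ := by group
    rcases r.two _ (mem_cj.1 hy) with k | k
    · rw [y', k]; group
    · rcases r.two _ t with k' | k'
      · have := (conj_eq_one_iff (a := a) (b := y)).1 ((conj_eq_one_iff (a := g⁻¹)).1 (by rwa [inv_inv]))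
        rw [this]; group
      · exact mul_left_cancel (mul_right_cancel (k'.trans k.symm))
  have k : y * a * y⁻¹ = a := by
    calc y * a * y⁻¹ = a * y * a⁻¹ * a * y⁻¹ := by rw [this]
      _ = a := by group
  refine Subgroup.eq_of_le_of_card_ge (cj_le_iff.2 fun x hx => mem_cj.2 ?_) (card_cj y A).ge
  rcases r.two x hx with rfl | rfl
  · simp
  · rw [inv_inv, k]; exact hx

theorem Exc.fix (h : F.Pr A B) (e : F.Exc A B H s) {g : G} (n : cj g A ≠ A)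
    (mx : ∀ g', cj g' A ≠ A → True →
      (F.Su A ∩ F.Su (cj g' A)).ncard ≤ (F.Su A ∩ F.Su (cj g A)).ncard)
    (r : F.LS A B (F.Su A ∩ F.Su (cj g A)) a) (i : Fin 3) :
    ∀ K ∈ F.Su A ∩ F.Su (cj g A), cj (s i) K ∈ F.Su A ∩ F.Su (cj g A) := by
  set I := F.Su A ∩ F.Su (cj g A) with hI
  have sA := cj_eq_iff.2 (e.sL i)
  obtain ⟨u, uI, su⟩ : ∃ u ∈ I, s i ∈ u := by
    by_cases c : H i ∈ I
    · exact ⟨_, c, e.sH i⟩
    · exact ⟨_, (r.half _ ⟨e.mem i, e.nle i⟩).2 c,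
        ((e.inv i a r.aA).ge (Subgroup.mem_inf.2 ⟨e.sH i, e.sL i⟩)).1⟩
  have big : ∀ g', cj g' A ≠ A → I.ncard ≤ (F.Su A ∩ F.Su (cj g' A)).ncard → u ∈ F.Su (cj g' A) →
      F.LS A B (F.Su A ∩ F.Su (cj g' A)) a := fun g' n' l m => by
    obtain ⟨a', r'⟩ := e.ls h n' (fun g n t => (mx g n t).trans l) ⟨u, uI.1, m⟩
    rwa [(r.two _ r'.aA).resolve_left r'.a1] at r'
  have im : ∀ K ∈ I, cj (s i) K ∈ F.Su A ∩ F.Su (cj (s i * g) A) := fun K m =>
    ⟨by rw [← sA]; exact (su_cj _).2 m.1, by rw [cj_mul]; exact (su_cj _).2 m.2⟩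
  have uJ := im u uI
  rw [cj_of_mem su] at uJ
  have r' := big (s i * g) (fun t => n (cj_inj (s i) (by rw [← cj_mul, t, sA]))) (by
    rw [hI, ← su_card (s i), sA, cj_mul]) uJ.2
  set J := F.Su A ∩ F.Su (cj (s i * g) A) with hJ
  refine fun K m => (show J ⊆ I from ?_) (im K m)
  obtain ⟨p, hp, np⟩ := r'.toLR.exP h
  have s1 : cj p (cj a u) ∈ F.Su (cj p A) := (su_cj p).2 ((su_A r.aA).2 uI.1)
  have s1' : cj p (cj a u) ∉ J := fun c => (r'.half u uI.1).1 (by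
    rwa [← cj_inv_cj p (cj a u), fixI (inv_mem hp) c]) uJ
  obtain ⟨q, hq, nq, s2, s2'⟩ := r.land h r'.toLR hp np s1 s1'
  by_cases t : cj p A = cj q A
  · exact fun K m => r.toLR.r0 hq nq m.1 (t ▸ r'.toLR.subp hp m)
  exfalso
  have nA : ∀ k ∈ sInf I, k ∉ B → cj 1 A ≠ cj k A := fun k hk nk t => nk (r.pl k hk (by rw [← t, cj_one]))
  obtain ⟨k, hk, nk, cov⟩ : ∃ k ∈ sInf I, k ∉ B ∧ ∀ w ∈ F.Su (cj p A), w ∉ J →
      w ∈ F.Su (cj q A) ∨ w ∈ F.Su (cj k A) := by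
    by_cases c : ∀ w ∈ F.Su (cj p A), w ∉ J → w ∈ F.Su (cj q A)
    · exact ⟨q, hq, nq, fun w a b => .inl (c w a b)⟩
    push Not at c
    obtain ⟨w, w1, w2, w3⟩ := c
    obtain ⟨k, hk, nk, w4, w5⟩ := r.land h r'.toLR hp np w1 w2
    refine ⟨k, hk, nk, fun z z1 z2 => by_contra fun c => ?_⟩
    push Not at c
    obtain ⟨l, hl, nl, z4, -⟩ := r.land h r'.toLR hp np z1 z2
    have kl : cj k A ≠ cj l A := fun t => c.2 (t ▸ z4)
    have τ := r.tau_mem h hk hl kl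
    have τB := r.pl _ τ (by
      simpa only [cj_one] using r.tau_fix h hk hl (one_mem _) kl (nA k hk nk) (nA l hl nl))
    have f1 := (r.toLR.stab h hq τ s2 s2').2 (r.tau_fix h hk hl hq kl (fun t => w3 (t ▸ w4))
      fun t => c.1 (t ▸ z4))
    have f2 := (r'.toLR.stab h hp (r'.toLR.leP h τB) w1 w2).2
      ((r'.toLR.stab h hp (r'.toLR.leP h τB) s1 s1').1 f1)
    exact kl (((r.toLR.stab h hk τ w4 w5).1 f2).symm.trans (r.tau_swap h hk hl kl))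
  have up := r'.toLR.subp hp uJ
  have c1 : F.Su (cj p A) ⊆ (F.Su (cj p A) ∩ F.Su (cj q A)) ∪ (F.Su (cj p A) ∩ F.Su (cj (a * k) A)) :=
    fun w m => by
      by_cases j : w ∈ F.Su (cj q A)
      · exact .inl ⟨m, j⟩
      refine .inr ⟨m, ?_⟩
      rw [cj_mul, su_cj', inv_eq_of_mul_eq_one_right r.aa]
      by_cases j' : w ∈ F.Su A
      · exact r.toLR.subp hk ((r.half w j').2 fun c => j (r.toLR.subp hq c))
      · rw [cj_of_mem (le_of_not_su m.1 j' r.aA)]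
        exact (cov w m fun c => j' c.1).resolve_left j
  have c2 := (Set.ncard_le_ncard c1).trans (Set.ncard_union_le _ _)
  have c3 : ∀ x, (F.Su (cj p A) ∩ F.Su (cj x A)).ncard = (F.Su A ∩ F.Su (cj (p⁻¹ * x) A)).ncard :=
    fun x => by rw [← su_card p⁻¹, cj_inv_cj, cj_mul]
  have c4 := mx (p⁻¹ * (a * k)) (fun t => by
    have t' : cj (a * k) A = cj p A := by rw [← mul_inv_cancel_left p (a * k), cj_mul, t]
    rw [← t', cj_mul, su_cj', inv_eq_of_mul_eq_one_right r.aa] at up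
    exact (r.half u uI.1).1 (r.toLR.r0 hk nk ((su_A r.aA).2 uI.1) up) uI) trivial
  have c5 : I.ncard + I.ncard ≤ (F.Su (cj p A)).ncard := by
    rw [su_image, Set.ncard_image_of_injective _ (cj_inj p)]
    nth_rewrite 2 [← Set.ncard_image_of_injective I (cj_inj a)]
    rw [← Set.ncard_union_eq (Set.disjoint_left.2 (by
      rintro _ m ⟨K, m', rfl⟩; exact (r.half K m'.1).1 m m'))]
    exact Set.ncard_le_ncard (Set.union_subset Set.inter_subset_left (by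
      rintro _ ⟨K, m', rfl⟩; exact (su_A r.aA).2 m'.1))
  rw [c3, c3] at c2
  have uq : u ∈ F.Su (cj (p⁻¹ * q) A) := by
    rw [cj_mul, ← fixI (inv_mem hp) uJ]; exact (su_cj _).2 (r.toLR.subp hq uI)
  refine ((big (p⁻¹ * q) (fun t' => t (by rw [← mul_inv_cancel_left p q, cj_mul, t'])) (by omega)
    uq).half u uI.1).1 ⟨(su_A r.aA).2 uI.1, ?_⟩ ⟨uI.1, uq⟩
  rw [cj_mul, ← cj_inv_cj p (cj a u)]
  exact (su_cj _).2 s2

theorem Exc.fin (h : F.Pr A B) (e : F.Exc A B H s) : A ⊔ B ∈ F.s := by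
  by_cases c : ∀ i, H i ≤ Subgroup.normalizer (A : Set G)
  · exact e.m3 h c
  exfalso
  push Not at c
  obtain ⟨i, c⟩ := c
  obtain ⟨y, hy, ny⟩ := SetLike.not_le_iff_exists.1 c
  have su : ∀ i, H i ∈ F.Su A := fun i => ⟨e.mem i, e.nle i⟩
  have ny' : cj y A ≠ A := fun t => ny (cj_eq_iff.1 t)
  obtain ⟨g, n, -, mx⟩ := exists_max (F := F) (fun _ => True) ny' trivial
  have ne : (F.Su A ∩ F.Su (cj g A)).Nonempty := (Set.ncard_pos).1 (lt_of_lt_of_le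
    ((Set.ncard_pos).2 (⟨H i, su i, by rw [← cj_of_mem hy]; exact (su_cj y).2 (su i)⟩ :
      (F.Su A ∩ F.Su (cj y A)).Nonempty)) (mx y ny' trivial))
  obtain ⟨a, r⟩ := e.ls h n mx ne
  rcases e.typ with ⟨j, t⟩ | ⟨-, t⟩
  · refine t (eq_bot_iff.2 fun x hx => (r.two x hx.1).resolve_right fun k => ?_)
    have := r.half _ (su j)
    rw [cj_of_mem (show a ∈ H j from k ▸ hx.2)] at this
    exact iff_not_self this
  obtain ⟨x, hx, b, hb, k⟩ := h.dec e.pr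
  obtain ⟨K, m⟩ := ne
  have := e.fix h n mx r 0 _ (e.fix h n mx r 1 _ (e.fix h n mx r 2 K m))
  rw [← cj_mul, ← cj_mul, k, cj_mul, cj_of_mem (h.le1 m.1 hb)] at this
  rcases r.two x hx with rfl | rfl
  · exact t (by rwa [k, one_mul])
  · exact (r.half K m.1).1 this m

end Fam

theorem sM6 : S_m6 := by
  intro G _ _ F A B hF hS e c
  obtain ⟨gA, gB, cj', mx, m1⟩ := (sM1 G F hF).2 A B e
  have h : F.Pr A B := ⟨hF, hS, e.a, gA, gB, mx, fun g n =>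
    ⟨(m1 _ _ (cj' g) n).1, (m1 _ _ (cj' g) n).2.imp id And.left⟩⟩
  rcases c with ⟨u, hu⟩ | ⟨H, s, x⟩
  exacts [h.special hu, .inl (x.fin h)]

end Pool.Agent.Lib.MP_3cc314_lc.Cg
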