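import Pool.Agent.Lib.MP_3cc314_lc.CgSpec

set_option autoImplicit false

namespace Pool.Agent.Lib.MP_3cc314_lc.Cg
open scoped Classical

variable {G : Type} [Group G]

namespace Fam
variable (F : Fam G)

/-- the members in the support of `X` -/
def Su (X : Subgroup G) : Set (Subgroup G) := {H | F.Mem H ∧ ¬X ≤ H}

/-- the facts about an extremal pair -/
structure Pr (A B : Subgroup G) : Prop where
  fa : F.Fa
  sf : F.SF
  ne : A ≠ ⊥
  gA : F.Gal A = B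
  gB : F.Gal B = A
  mx : ∀ X Y : Subgroup G, X ≠ ⊥ → Y ≠ ⊥ → F.Dj X Y → A ⊔ B ≤ X ⊔ Y → X ⊔ Y ≤ A ⊔ B
  m1 : ∀ g, cj g A ≠ A → A ⊓ cj g A = ⊥ ∧ (cj g A ≤ B ∨ A ⊓ cj g B = ⊥)

/-- the hypotheses of Lemma R -/
structure LR (A B : Subgroup G) (I : Set (Subgroup G)) : Prop where
  ex : ∃ g, cj g A ≠ A ∧ I = F.Su A ∩ F.Su (cj g A)
  mx : ∀ g, cj g A ≠ A → I ⊆ F.Su (cj g A) → F.Su A ∩ F.Su (cj g A) ⊆ I
  pl : ∀ x ∈ sInf I, cj x A = A → x ∈ B

variable {F}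

theorem su_cj {X H : Subgroup G} (g : G) : cj g H ∈ F.Su (cj g X) ↔ H ∈ F.Su X := by
  simp only [Su, Set.mem_ofPred_eq, mem_cj_iff, cj_le_cj]

theorem su_cj' {X H : Subgroup G} (g : G) : H ∈ F.Su (cj g X) ↔ cj g⁻¹ H ∈ F.Su X := by
  rw [← su_cj (H := cj g⁻¹ H) (X := X) g, cj_cj_inv]

theorem su_image (g : G) (X : Subgroup G) : F.Su (cj g X) = cj g '' F.Su X := by
  ext H
  exact ⟨fun h => ⟨_, (su_cj' g).1 h, cj_cj_inv g H⟩, fun ⟨K, h, e⟩ => e ▸ (su_cj g).2 h⟩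

theorem Su.le {X H : Subgroup G} (h : H ∈ F.Su X) : F.Gal X ≤ H := fun _ hx => mem_Gal.1 hx H h.1.1 h.2

theorem le_of_not_su {X H : Subgroup G} (m : F.Mem H) (h : H ∉ F.Su X) : X ≤ H :=
  by_contra fun n => h ⟨m, n⟩

theorem mem_cj_self {g x : G} {H : Subgroup G} : x ∈ cj g⁻¹ H ↔ g * x * g⁻¹ ∈ H := by
  simp [mem_cj]

variable [Finite G]

theorem SF.split' (h : F.SF) (D : Subgroup G) (g : G)
    (hg : ∀ H, F.Mem H → ¬D ≤ H → ∃ d ∈ D, d⁻¹ * g ∈ H) :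
    ∃ g', ∀ H, F.Mem H → (D ≤ H → g'⁻¹ * g ∈ H) ∧ (¬D ≤ H → g' ∈ H) := by
  obtain ⟨g', e⟩ := h.split D g fun U m n => by
    obtain ⟨H, a, l⟩ := exists_mem m
    obtain ⟨d, b, c⟩ := hg H a fun b => n (b.trans l)
    exact ⟨d, b, l c⟩
  exact ⟨g', fun H m => e H m.1⟩

variable {A B : Subgroup G} {I : Set (Subgroup G)}

omit [Finite G] in
theorem Pr.gal (h : F.Pr A B) (g : G) : F.Gal (cj g A) = cj g B := by rw [← cj_Gal, h.gA]

omit [Finite G] in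
theorem Pr.le (h : F.Pr A B) {g : G} {H : Subgroup G} (m : H ∈ F.Su (cj g A)) : cj g B ≤ H :=
  h.gal g ▸ Su.le m

omit [Finite G] in
theorem Pr.le1 (h : F.Pr A B) {H : Subgroup G} (m : H ∈ F.Su A) : B ≤ H := h.gA ▸ Su.le m

omit [Finite G] in
theorem Pr.cjB (h : F.Pr A B) {g : G} : cj g B = B ↔ cj g A = A :=
  ⟨fun e => by rw [← h.gB, cj_Gal, e], fun e => by rw [← h.gal, e, h.gA]⟩

omit [Finite G] in
theorem Pr.cj_of_B (h : F.Pr A B) {b : G} (hb : b ∈ B) : cj b A = A := h.cjB.1 (cj_of_mem hb)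

theorem Pr.mem (h : F.Pr A B) {g x : G} (hx : ∀ H, F.Mem H → H ∉ F.Su (cj g A) → x ∈ H) :
    x ∈ cj g A := by
  rw [← h.gB, cj_Gal]
  exact mem_Gal'.2 fun H m n => hx H m fun a => n (h.le a)

theorem Pr.mem1 (h : F.Pr A B) {x : G} (hx : ∀ H, F.Mem H → H ∉ F.Su A → x ∈ H) : x ∈ A := by
  have := h.mem (g := 1) (x := x) (by simpa only [cj_one] using hx)
  rwa [cj_one] at this

theorem Pr.memB (h : F.Pr A B) {g x : G} (hx : ∀ H ∈ F.Su (cj g A), x ∈ H) : x ∈ cj g B := by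
  rw [← h.gal]
  exact mem_Gal'.2 fun H m n => hx H ⟨m, n⟩

theorem Pr.eq_of_sub (h : F.Pr A B) {g g' : G} (s : F.Su (cj g A) ⊆ F.Su (cj g' A)) :
    cj g A = cj g' A := by
  have l : cj g A ≤ cj g' A := fun x hx => h.mem fun H m n => le_of_not_su m (fun a => n (s a)) hx
  exact Subgroup.eq_of_le_of_card_ge l (by rw [card_cj, card_cj])

omit [Finite G] in
theorem LR.sub (r : F.LR A B I) : I ⊆ F.Su A := by
  obtain ⟨g, -, rfl⟩ := r.ex
  exact Set.inter_subset_left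

omit [Finite G] in
theorem fixI {p : G} (hp : p ∈ sInf I) {H : Subgroup G} (m : H ∈ I) : cj p H = H :=
  cj_of_mem (Subgroup.mem_sInf.1 hp H m)

omit [Finite G] in
theorem LR.subp (r : F.LR A B I) {p : G} (hp : p ∈ sInf I) : I ⊆ F.Su (cj p A) := fun H m => by
  rw [← fixI hp m]; exact (su_cj p).2 (r.sub m)

omit [Finite G] in
theorem LR.r0 (r : F.LR A B I) {p : G} (hp : p ∈ sInf I) (n : p ∉ B) {H : Subgroup G}
    (a : H ∈ F.Su A) (b : H ∈ F.Su (cj p A)) : H ∈ I :=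
  r.mx p (fun e => n (r.pl p hp e)) (r.subp hp) ⟨a, b⟩

omit [Finite G] in
theorem LR.leP (h : F.Pr A B) (r : F.LR A B I) : B ≤ sInf I := le_sInf fun _ m => h.le1 (r.sub m)

omit [Finite G] in
/-- two different blocks -/
theorem LR.r1 (h : F.Pr A B) (r : F.LR A B I) {p q : G} (hp : p ∈ sInf I) (hq : q ∈ sInf I)
    (n : cj p A ≠ cj q A) {H : Subgroup G} (a : H ∈ F.Su (cj p A)) (b : H ∈ F.Su (cj q A)) : H ∈ I := by
  have hpq := (sInf I).mul_mem ((sInf I).inv_mem hp) hq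
  have := r.r0 hpq (fun e => n (by
    rw [← mul_inv_cancel_left p q, cj_mul, h.cj_of_B e])) ((su_cj' p).1 a)
    (by rw [cj_mul]; exact (su_cj _).2 b)
  rwa [← cj_cj_inv p H, fixI hp this]

theorem LR.exP (h : F.Pr A B) (r : F.LR A B I) : ∃ p ∈ sInf I, p ∉ B := by
  obtain ⟨g, n, rfl⟩ := r.ex
  by_contra c
  push Not at c
  have l : cj g B ≤ B := fun x hx => c x (Subgroup.mem_sInf.2 fun H m => h.le m.2 hx)
  exact n (h.cjB.1 (Subgroup.eq_of_le_of_card_ge l (card_cj g B).ge))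

/-- an element of `A` that fixes `R` is trivial -/
theorem LR.i0 (h : F.Pr A B) (r : F.LR A B I) {a : G} (ha : a ∈ A)
    (f : ∀ H ∈ F.Su A, H ∉ I → a ∈ H) : a = 1 := by
  obtain ⟨g, n, e⟩ := r.ex
  have : a ∈ cj g A := h.mem fun H m c => by
    by_cases s : H ∈ F.Su A
    · exact f H s fun i => c (e ▸ i).2
    · exact le_of_not_su m s ha
  exact Subgroup.mem_bot.1 ((h.m1 g n).1 ▸ (⟨ha, this⟩ : a ∈ A ⊓ cj g A))

omit [Finite G] in
theorem su_A {a : G} (ha : a ∈ A) {H : Subgroup G} : cj a H ∈ F.Su A ↔ H ∈ F.Su A := by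
  conv_lhs => rw [← cj_of_mem ha]
  exact su_cj a

omit [Finite G] in
/-- elements of `p A p⁻¹` fix `R` -/
theorem LR.fixR (r : F.LR A B I) {p : G} (hp : p ∈ sInf I) (n : p ∉ B) {H : Subgroup G}
    (s : H ∈ F.Su A) (i : H ∉ I) {a : G} (ha : a ∈ A) : p * a * p⁻¹ ∈ H :=
  le_of_not_su s.1 (fun c => i (r.r0 hp n s c)) ((conj_mem_cj p).2 ha)

/-- (i) -/
theorem LR.i1 (h : F.Pr A B) (r : F.LR A B I) {a : G} (ha : a ∈ A)
    (f : ∀ H, cj a H ∈ I ↔ H ∈ I) : a = 1 := by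
  obtain ⟨p, hp, n⟩ := r.exP h
  have n' : p⁻¹ ∉ B := fun c => n (inv_mem_iff.1 c)
  have h1 : a * p * a⁻¹ ∈ sInf I := Subgroup.mem_sInf.2 fun H m =>
    mem_cj_self.1 (Subgroup.mem_sInf.1 hp _ ((f _).1 (by rwa [cj_cj_inv])))
  have h2 : cj a⁻¹ (cj p⁻¹ A) = cj p⁻¹ A := by
    rw [← cj_mul]
    refine (h.eq_of_sub fun H m => ?_).symm
    rw [cj_mul, su_cj', inv_inv]
    by_cases s : H ∈ F.Su A
    · exact r.subp ((sInf I).inv_mem hp) ((f H).2 (r.r0 ((sInf I).inv_mem hp) n' s m))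
    · rwa [cj_of_mem (le_of_not_su m.1 s ha)]
  have h3 : a * p * a⁻¹ * p⁻¹ ∈ B := r.pl _ ((sInf I).mul_mem h1 ((sInf I).inv_mem hp)) (by
    rw [cj_mul, cj_mul, cj_mul, h2, cj_cj_inv, cj_of_mem ha])
  refine r.i0 h ha fun H s i => ?_
  have : a = a * p * a⁻¹ * p⁻¹ * (p * a * p⁻¹) := by group
  rw [this]
  exact H.mul_mem (h.le1 s h3) (r.fixR hp n s i ha)

/-- (ii) -/
theorem LR.ii (h : F.Pr A B) (r : F.LR A B I) {H : Subgroup G} (s : H ∈ F.Su A) :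
    ∃ a ∈ A, cj a H ∉ I := by
  by_contra c
  push Not at c
  refine s.2 fun a ha => ?_
  obtain ⟨p, hp, n⟩ := r.exP h
  set D : Subgroup G := sInf {K | ∀ a ∈ A, cj a K ∈ I} with hD
  have pD : p ∈ D := Subgroup.mem_sInf.2 fun K m =>
    Subgroup.mem_sInf.1 hp K (by simpa only [cj_one] using m 1 A.one_mem)
  have dD : ∀ x ∈ A, x * p * x⁻¹ * p⁻¹ ∈ D := fun x hx => D.mul_mem (Subgroup.mem_sInf.2 fun K m =>
    mem_cj_self.1 (Subgroup.mem_sInf.1 hp _ (m _ (A.inv_mem hx)))) (D.inv_mem pD)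
  obtain ⟨g', e⟩ := h.sf.split' D a fun K m nK => by
    by_cases sK : K ∈ F.Su A
    · have : ∃ x ∈ A, cj x K ∉ I := by
        by_contra c'
        push Not at c'
        exact nK (sInf_le c')
      obtain ⟨x, hx, i⟩ := this
      have s1 := (su_A hx).2 sK
      refine ⟨_, D.mul_mem (dD _ (A.mul_mem ha (A.inv_mem hx))) (D.inv_mem (dD _ (A.inv_mem hx))), ?_⟩
      have k1 := mem_cj.1 (r.fixR hp n s1 i (A.mul_mem ha (A.inv_mem hx)))
      have k2 := mem_cj.1 (r.fixR hp n s1 i hx)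
      have : (a * x⁻¹ * p * (a * x⁻¹)⁻¹ * p⁻¹ * (x⁻¹ * p * x⁻¹⁻¹ * p⁻¹)⁻¹)⁻¹ * a =
          (x⁻¹ * (p * x * p⁻¹) * x) * (x⁻¹ * (p * (a * x⁻¹) * p⁻¹) * x) := by group
      rw [this]
      exact K.mul_mem k2 k1
    · exact ⟨1, D.one_mem, by simpa using le_of_not_su m sK ha⟩
  have gA : g' ∈ A := h.mem1 fun K m sK => by
    by_cases l : D ≤ K
    · have := (e K m).1 l
      rwa [K.mul_mem_cancel_right (le_of_not_su m sK ha), inv_mem_iff] at this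
    · exact (e K m).2 l
  have g1 : g' = 1 := r.i0 h gA fun K sK i => (e K sK.1).2 fun l => i (r.r0 hp n sK (by
    rw [← cj_of_mem (l pD)]; exact (su_cj p).2 sK))
  simpa [g1] using (e H s.1).1 (sInf_le c)

omit [Finite G] in
/-- an element of `P` that fixes a point of a block fixes the block -/
theorem LR.stab (h : F.Pr A B) (r : F.LR A B I) {p x : G} (hp : p ∈ sInf I) (hx : x ∈ sInf I)
    {H : Subgroup G} (s : H ∈ F.Su (cj p A)) (i : H ∉ I) : x ∈ H ↔ cj x (cj p A) = cj p A := by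
  constructor
  · intro m
    by_contra n
    rw [← cj_mul] at n
    refine i (r.r1 h ((sInf I).mul_mem hx hp) hp n ?_ s)
    rw [cj_mul, ← cj_of_mem m]
    exact (su_cj x).2 s
  · intro e
    refine h.le s (mem_cj.2 (r.pl _ ((sInf I).mul_mem ((sInf I).mul_mem ((sInf I).inv_mem hp) hx) hp) ?_))
    rw [cj_mul, cj_mul, e, cj_inv_cj]

/-- `B` moves the other blocks -/
theorem LR.mv (h : F.Pr A B) (r : F.LR A B I) {p : G} (hp : p ∈ sInf I) (n : p ∉ B)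
    {H : Subgroup G} (s : H ∈ F.Su (cj p A)) (i : H ∉ I) : ¬B ≤ H := fun l => by
  have : B ≤ cj p B := fun b hb => h.memB fun K m => by
    by_cases j : K ∈ I
    · exact h.le1 (r.sub j) hb
    · exact (r.stab h hp (r.leP h hb) m j).2 ((r.stab h hp (r.leP h hb) s i).1 (l hb))
  exact n (r.pl p hp (h.cjB.1 (Subgroup.eq_of_le_of_card_ge this (card_cj p B).le).symm))

/-- the size argument -/
theorem LR.sz (h : F.Pr A B) (r : F.LR A B I) {p a : G} (hp : p ∈ sInf I) (n : p ∉ B) (ha : a ∈ A)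
    (mx : cj (p * a * p⁻¹) A ≠ A → (F.Su A ∩ F.Su (cj (p * a * p⁻¹) A)).ncard ≤ I.ncard)
    {H : Subgroup G} (s : H ∈ F.Su A) (i : H ∉ I) (i' : cj a H ∉ I) : a = 1 := by
  by_contra a1
  have hc : cj (p * a * p⁻¹) (cj p A) = cj p A := cj_of_mem ((conj_mem_cj p).2 ha)
  have key : ∀ K ∈ I, cj (p * a * p⁻¹) K = cj p (cj a K) := fun K m => by
    rw [cj_mul, cj_mul, fixI ((sInf I).inv_mem hp) m]
  have ne : cj (p * a * p⁻¹) A ≠ A := fun e => a1 (by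
    have f : ∀ K ∈ I, cj a K ∈ I := fun K m => by
      have : cj (p * a * p⁻¹) K ∈ I := r.r0 hp n (e ▸ (su_cj _).2 (r.sub m))
        (hc ▸ (su_cj _).2 (r.subp hp m))
      rw [key K m] at this
      rwa [← cj_inv_cj p (cj a K), fixI ((sInf I).inv_mem hp) this]
    have := Set.eq_of_subset_of_ncard_le (s := cj a '' I) (t := I)
      (by rintro _ ⟨K, m, rfl⟩; exact f K m) (Set.ncard_image_of_injective _ (cj_inj a)).ge
    exact r.i1 h ha fun K => ⟨fun m => by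
      obtain ⟨K', m', e'⟩ := this ▸ m
      exact cj_inj a e' ▸ m', f K⟩)
  have h1 : (F.Su A \ I) ∪ (I ∩ cj a '' I) ⊆ F.Su A ∩ F.Su (cj (p * a * p⁻¹) A) := by
    rintro K (⟨s, i⟩ | ⟨m, K', m', rfl⟩)
    · exact ⟨s, by rw [← cj_of_mem (r.fixR hp n s i ha)]; exact (su_cj _).2 s⟩
    · exact ⟨r.sub m, by rw [← fixI hp m, ← key K' m']; exact (su_cj _).2 (r.sub m')⟩
  have h2 := (Set.ncard_le_ncard h1).trans (mx ne)
  rw [Set.ncard_union_eq (Set.disjoint_left.2 fun K a b => a.2 b.1)] at h2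
  have h3 : I ⊆ (I ∩ cj a '' I) ∪ (cj a '' (F.Su A \ I) \ {cj a H}) := fun K m => by
    by_cases j : cj a⁻¹ K ∈ I
    · exact .inl ⟨m, _, j, cj_cj_inv a K⟩
    · exact .inr ⟨⟨_, ⟨(su_A (A.inv_mem ha)).2 (r.sub m), j⟩, cj_cj_inv a K⟩, fun e => i' (e ▸ m)⟩
  have h4 := (Set.ncard_le_ncard h3).trans (Set.ncard_union_le _ _)
  have h5 := Set.ncard_sdiff_singleton_lt_of_mem (s := cj a '' (F.Su A \ I)) (a := cj a H) ⟨H, ⟨s, i⟩, rfl⟩
  rw [Set.ncard_image_of_injective _ (cj_inj a)] at h5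
  omega

end Fam

end Pool.Agent.Lib.MP_3cc314_lc.Cg
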