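import Pool.Agent.Lib.MP_3cc314_lc.CgM6a

set_option autoImplicit false

namespace Pool.Agent.Lib.MP_3cc314_lc.Cg
open scoped Classical

variable {G : Type} [Group G]

namespace Fam
variable {F : Fam G} {A B : Subgroup G} {I : Set (Subgroup G)} {a : G}

/-- the structure with `A = {1, a}` -/
structure LS (F : Fam G) (A B : Subgroup G) (I : Set (Subgroup G)) (a : G) : Prop
    extends F.LR A B I where
  aA : a ∈ A
  a1 : a ≠ 1
  two : ∀ x ∈ A, x = 1 ∨ x = a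
  half : ∀ H ∈ F.Su A, cj a H ∈ I ↔ H ∉ I

theorem LR.toLS [Finite G] (h : F.Pr A B) (r : F.LR A B I) (hI : I.Nonempty)
    (sz : ∀ a ∈ A, ∀ H ∈ F.Su A, H ∉ I → cj a H ∉ I → a = 1) : ∃ a, F.LS A B I a := by
  obtain ⟨p, hp, n⟩ := r.exP h
  obtain ⟨a, ha, a1⟩ : ∃ a ∈ A, a ≠ 1 := by
    by_contra c
    push Not at c
    exact h.ne (eq_bot_iff.2 c)
  have semi : ∀ x ∈ A, ∀ H ∈ F.Su A, x ∈ H → x = 1 := fun x hx H s m => by
    obtain ⟨y, hy, i⟩ := r.ii h s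
    have := sz (y * x * y⁻¹) (A.mul_mem (A.mul_mem hy hx) (A.inv_mem hy)) _ ((su_A hy).2 s) i
      (by rwa [cj_of_mem ((conj_mem_cj y).2 m)])
    exact conj_eq_one_iff.1 this
  have inI : ∀ x ∈ A, x ≠ 1 → ∀ H ∈ F.Su A, H ∉ I → cj x H ∈ I := fun x hx x1 H s i =>
    by_contra fun c => x1 (sz x hx H s i c)
  have pI : ∀ K ∈ I, p ∈ K := Subgroup.mem_sInf.1 hp
  have key : ∀ K ∈ I, cj a K ∉ I := fun K mK c => by
    obtain ⟨g', e⟩ := h.sf.split' (sInf I) (a * p⁻¹ * a⁻¹ * p * a) fun H m nH => by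
      by_cases s : H ∈ F.Su A
      · have i : H ∉ I := fun i => nH (sInf_le i)
        refine ⟨p⁻¹, (sInf I).inv_mem hp, ?_⟩
        have : p⁻¹⁻¹ * (a * p⁻¹ * a⁻¹ * p * a) = p * a * p⁻¹ * (a⁻¹ * p * a) := by group
        rw [this]
        exact H.mul_mem (r.fixR hp n s i ha) (mem_cj.1 (pI _ (inI a ha a1 H s i)))
      · have aH := le_of_not_su m s ha
        by_cases s' : cj p H ∈ F.Su A
        · have i : cj p H ∉ I := fun i => s (by
            rw [← cj_inv_cj p H, fixI ((sInf I).inv_mem hp) i]; exact s')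
          refine ⟨p, hp, ?_⟩
          have : p⁻¹ * (a * p⁻¹ * a⁻¹ * p * a) = p⁻¹ * (a * p * a⁻¹)⁻¹ * p * a := by group
          rw [this]
          exact H.mul_mem (mem_cj.1 ((cj p H).inv_mem (mem_cj_self.1
            (pI _ (inI _ (A.inv_mem ha) (inv_ne_one.2 a1) _ s' i))))) aH
        · refine ⟨1, one_mem _, ?_⟩
          have : 1⁻¹ * (a * p⁻¹ * a⁻¹ * p * a) = a * (p⁻¹ * a⁻¹ * p) * a := by group
          rw [this]
          exact H.mul_mem (H.mul_mem aH (mem_cj.1 (le_of_not_su (m.cj p) s' (A.inv_mem ha)))) aH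
    have out : ∀ H, F.Mem H → H ∉ F.Su A → sInf I ≤ H → a * p⁻¹ * a⁻¹ * p * a ∈ H := fun H m s l => by
      have aH := le_of_not_su m s ha
      exact H.mul_mem (H.mul_mem (H.mul_mem (H.mul_mem aH (H.inv_mem (l hp))) (H.inv_mem aH)) (l hp)) aH
    have gA : g' ∈ A := h.mem1 fun H m s => by
      by_cases l : sInf I ≤ H
      · have := (e H m).1 l
        rwa [H.mul_mem_cancel_right (out H m s l), inv_mem_iff] at this
      · exact (e H m).2 l
    have g1 : g' = 1 := r.i0 h gA fun H s i => (e H s.1).2 fun l => i (r.r0 hp n s (by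
      rw [← cj_of_mem (l hp)]; exact (su_cj p).2 s))
    have := (e K (r.sub mK).1).1 (sInf_le mK)
    have e2 : g'⁻¹ * (a * p⁻¹ * a⁻¹ * p * a) = a * (p⁻¹ * (a⁻¹ * p * a)) := by rw [g1]; group
    rw [e2, K.mul_mem_cancel_right (K.mul_mem (K.inv_mem (pI K mK)) (mem_cj.1 (pI _ c)))] at this
    exact a1 (semi a ha K (r.sub mK) this)
  refine ⟨a, r, ha, a1, fun x hx => or_iff_not_imp_left.2 fun x1 => ?_,
    fun H s => ⟨fun c i => key H i c, inI a ha a1 H s⟩⟩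
  obtain ⟨K, mK⟩ := hI
  have s := (su_A ha).2 (r.sub mK)
  have t : ∀ y ∈ A, y ≠ 1 → a * y * a⁻¹ * a = 1 := fun y hy y1 => by
    by_contra c
    refine key _ (inI y hy y1 _ s (key K mK)) ?_
    rw [← cj_mul, show a * y = a * y * a⁻¹ * a by group]
    exact inI _ (by simpa using A.mul_mem ha hy) c _ s (key K mK)
  have t1 := t x hx x1
  have t2 := t a ha a1
  simp only [inv_mul_cancel_right] at t1 t2
  exact mul_left_cancel (t1.trans t2.symm)

namespace LS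
variable (h : F.Pr A B) (r : F.LS A B I a)
include r

theorem aa : a * a = 1 := (r.two _ (A.mul_mem r.aA r.aA)).resolve_right fun e => r.a1 (by simpa using e)

theorem cc (p : G) : p * a * p⁻¹ * (p * a * p⁻¹) = 1 := by
  rw [show p * a * p⁻¹ * (p * a * p⁻¹) = p * (a * a) * p⁻¹ by group, r.aa]; group

theorem ci (p : G) : (p * a * p⁻¹)⁻¹ = p * a * p⁻¹ := inv_eq_of_mul_eq_one_right (r.cc p)

theorem c_mem {p : G} {H : Subgroup G} (m : F.Mem H) : p * a * p⁻¹ ∈ H ↔ H ∉ F.Su (cj p A) := by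
  refine ⟨fun c s => s.2 fun x hx => ?_, fun s => le_of_not_su m s ((conj_mem_cj p).2 r.aA)⟩
  rcases r.two _ (mem_cj.1 hx) with e | e
  · rw [show x = p * (p⁻¹ * x * p) * p⁻¹ by group, e]; simp
  · rwa [show x = p * (p⁻¹ * x * p) * p⁻¹ by group, e]

/-- the half property of the block of `p` -/
theorem halfp {p : G} (hp : p ∈ sInf I) {H : Subgroup G} (s : H ∈ F.Su (cj p A)) :
    cj (p * a * p⁻¹) H ∈ I ↔ H ∉ I := by
  have e : ∀ K, cj p K ∈ I ↔ K ∈ I := fun K => ⟨fun m => by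
    rwa [← cj_inv_cj p K, fixI ((sInf I).inv_mem hp) m], fun m => by rwa [fixI hp m]⟩
  rw [cj_mul, cj_mul, e, r.half _ ((su_cj' p).1 s), ← e, cj_cj_inv]

theorem su_c {p : G} {H : Subgroup G} : cj (p * a * p⁻¹) H ∈ F.Su (cj p A) ↔ H ∈ F.Su (cj p A) :=
  su_A ((conj_mem_cj p).2 r.aA)

include h

/-- the other transpositions fix the block of `p` -/
theorem out {p q : G} (hp : p ∈ sInf I) (hq : q ∈ sInf I) (n : cj p A ≠ cj q A) {H : Subgroup G}
    (s : H ∈ F.Su (cj p A)) (i : H ∉ I) : q * a * q⁻¹ ∈ H :=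
  (r.c_mem s.1).2 fun c => i (r.toLR.r1 h hp hq n s c)

theorem tau_mem {p q : G} (hp : p ∈ sInf I) (hq : q ∈ sInf I) (n : cj p A ≠ cj q A) :
    p * a * p⁻¹ * (q * a * q⁻¹) * (p * a * p⁻¹) ∈ sInf I := Subgroup.mem_sInf.2 fun H m => by
  have s := r.toLR.subp hp m
  have := mem_cj.1 (r.out h hp hq n (r.su_c.2 s) fun c => (r.halfp hp s).1 c m)
  rwa [r.ci] at this

theorem tau_fix {p q t : G} (hp : p ∈ sInf I) (hq : q ∈ sInf I) (ht : t ∈ sInf I)
    (n : cj p A ≠ cj q A) (n1 : cj t A ≠ cj p A) (n2 : cj t A ≠ cj q A) [Finite G] :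
    cj (p * a * p⁻¹ * (q * a * q⁻¹) * (p * a * p⁻¹)) (cj t A) = cj t A := by
  rw [← cj_mul]
  refine (h.eq_of_sub fun H s => ?_).symm
  have : p * a * p⁻¹ * (q * a * q⁻¹) * (p * a * p⁻¹) ∈ H := by
    by_cases i : H ∈ I
    · exact Subgroup.mem_sInf.1 (r.tau_mem h hp hq n) H i
    · exact H.mul_mem (H.mul_mem (r.out h ht hp n1 s i) (r.out h ht hq n2 s i)) (r.out h ht hp n1 s i)
  rw [cj_mul, ← cj_of_mem this]
  exact (su_cj _).2 s

theorem tau_swap {p q : G} (hp : p ∈ sInf I) (hq : q ∈ sInf I) (n : cj p A ≠ cj q A) [Finite G] :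
    cj (p * a * p⁻¹ * (q * a * q⁻¹) * (p * a * p⁻¹)) (cj p A) = cj q A := by
  rw [← cj_mul]
  refine h.eq_of_sub fun H s => ?_
  rw [cj_mul, su_image] at s
  obtain ⟨K, s, rfl⟩ := s
  by_cases i : K ∈ I
  · rw [fixI (r.tau_mem h hp hq n) i]
    exact r.toLR.subp hq i
  · have j := (r.halfp hp s).2 i
    have s' := r.toLR.subp hq j
    rw [cj_mul, cj_mul, cj_of_mem (r.out h hq hp n.symm (r.su_c.2 s') fun c => (r.halfp hq s').1 c j)]
    exact r.su_c.2 s'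

theorem gen [Finite G] (U : Subgroup G) (hc : ∀ p ∈ sInf I, p * a * p⁻¹ ∈ U)
    (hf : ∀ x ∈ sInf I, (∀ p ∈ sInf I, cj x (cj p A) = cj p A) → x ∈ U) : sInf I ≤ U := by
  intro x hx
  induction hn : {X | (∃ p ∈ sInf I, X = cj p A) ∧ cj x X ≠ X}.ncard using Nat.strong_induction_on
    generalizing x with
  | _ n ih =>
  by_cases c : ∀ p ∈ sInf I, cj x (cj p A) = cj p A
  · exact hf x hx c
  push Not at c
  obtain ⟨p, hp, c⟩ := c
  have hq := (sInf I).mul_mem hx hp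
  have c' := c
  rw [← cj_mul] at c'
  have hτ := r.tau_mem h hq hp c'
  refine (U.mul_mem_cancel_left (U.mul_mem (U.mul_mem (hc _ hq) (hc _ hp)) (hc _ hq))).1
    (ih _ (hn ▸ Set.ncard_lt_ncard ⟨?_, fun s => ?_⟩) ((sInf I).mul_mem hτ hx) rfl)
  · rintro X ⟨⟨t, ht, rfl⟩, n⟩
    refine ⟨⟨t, ht, rfl⟩, fun e => n ?_⟩
    rw [cj_mul, e]
    refine r.tau_fix h hq hp ht c' (fun e' => c (cj_inj x ?_)) fun e' => c (e' ▸ e)
    rw [← cj_mul x p, ← e', e, e', cj_mul]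
  · refine (s ⟨⟨p, hp, rfl⟩, c⟩).2 ?_
    rw [cj_mul, ← cj_mul x p]
    exact r.tau_swap h hq hp c'

theorem gal_mem [Finite G] {x : G} (hx : x ∈ sInf I) (f : ∀ p ∈ sInf I, cj x (cj p A) = cj p A) :
    x ∈ F.Gal (⨆ p ∈ sInf I, cj p A) := mem_Gal'.2 fun H m n => by
  have : ∃ p ∈ sInf I, ¬cj p A ≤ H := by
    by_contra c
    push Not at c
    exact n (iSup₂_le c)
  obtain ⟨p, hp, s⟩ := this
  by_cases i : H ∈ I
  · exact Subgroup.mem_sInf.1 hx H i
  · exact (r.toLR.stab h hp hx ⟨m, s⟩ i).2 (f p hp)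

theorem phi [Finite G] {x : G} (hx : x ∈ sInf I) (f : ∀ p ∈ sInf I, cj x (cj p A) = cj p A) :
    x = 1 := by
  set S : Subgroup G := ⨆ p ∈ sInf I, cj p A with hS
  have l : ∀ p ∈ sInf I, cj p A ≤ S := fun p hp => le_iSup₂ (f := fun p (_ : p ∈ sInf I) => cj p A) p hp
  have l1 : A ≤ S := by simpa only [cj_one] using l 1 (one_mem _)
  by_cases c : F.Gal S = ⊥
  · exact Subgroup.mem_bot.1 (c ▸ r.gal_mem h hx f)
  have l2 : sInf I ≤ S ⊔ F.Gal S := r.gen h _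
    (fun p hp => Subgroup.mem_sup_left (l p hp ((conj_mem_cj p).2 r.aA)))
    fun y hy g => Subgroup.mem_sup_right (r.gal_mem h hy g)
  have l3 := l2.trans (h.mx S _ (fun e => h.ne (eq_bot_iff.2 (e ▸ l1))) c (Dj_Gal S)
    (sup_le (l1.trans le_sup_left) ((r.toLR.leP h).trans l2)))
  obtain ⟨p, hp, n⟩ := r.toLR.exP h
  have : A ⊔ B ≤ Subgroup.normalizer (A : Set G) :=
    sup_le Subgroup.le_normalizer fun b hb => cj_eq_iff.1 (h.cj_of_B hb)
  exact (n (r.pl p hp (cj_eq_iff.2 (this (l3 hp))))).elim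

/-- a member that is moved by `P` lies in a block -/
theorem cover [Finite G] {K : Subgroup G} (m : F.Mem K) (n : ¬sInf I ≤ K) :
    ∃ p ∈ sInf I, K ∈ F.Su (cj p A) := by
  by_contra c
  push Not at c
  exact n (r.gen h K (fun p hp => (r.c_mem m).2 (c p hp)) fun x hx f => r.phi h hx f ▸ one_mem _)

/-- the blocks of a second structure lie in the blocks of the first -/
theorem land [Finite G] {J : Set (Subgroup G)} (r' : F.LR A B J) {p : G} (hp : p ∈ sInf J)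
    (n : p ∉ B) {K : Subgroup G} (s : K ∈ F.Su (cj p A)) (i : K ∉ J) :
    ∃ q ∈ sInf I, q ∉ B ∧ K ∈ F.Su (cj q A) ∧ K ∉ I := by
  obtain ⟨q, hq, s'⟩ := r.cover h s.1 fun l => r'.mv h hp n s i ((r.toLR.leP h).trans l)
  have : K ∉ F.Su A := fun c => i (r'.r0 hp n c s)
  exact ⟨q, hq, fun c => this (h.cj_of_B c ▸ s'), s', fun c => this (r.toLR.sub c)⟩

end LS

end Fam

end Pool.Agent.Lib.MP_3cc314_lc.Cg
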