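import Pool.Agent.Lib.MP_3cc314_lc.CgM6b

set_option autoImplicit false

namespace Pool.Agent.Lib.MP_3cc314_lc.Cg
open scoped Classical

variable {G : Type} [Group G] [Finite G]

namespace Fam
variable {F : Fam G} {A B : Subgroup G} {I : Set (Subgroup G)} {a : G}

omit [Finite G] in
theorem Pr.dec (h : F.Pr A B) {x : G} (hx : x ∈ A ⊔ B) : ∃ a ∈ A, ∃ b ∈ B, x = a * b := by
  obtain ⟨a, ha, b, hb, e⟩ := (h.fa.mem_sup (h.gA ▸ Dj_Gal A)).1 hx
  exact ⟨a, ha, b, hb, e.symm⟩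

omit [Finite G] in
theorem su_card (g : G) {X Y : Subgroup G} :
    (F.Su (cj g X) ∩ F.Su (cj g Y)).ncard = (F.Su X ∩ F.Su Y).ncard := by
  rw [su_image, su_image, ← Set.image_inter (cj_inj g), Set.ncard_image_of_injective _ (cj_inj g)]

theorem max_of_card {g0 : G} (Q : G → Prop)
    (mx : ∀ g, cj g A ≠ A → Q g → (F.Su A ∩ F.Su (cj g A)).ncard ≤ (F.Su A ∩ F.Su (cj g0 A)).ncard)
    {g : G} (n : cj g A ≠ A) (q : Q g) (l : F.Su A ∩ F.Su (cj g0 A) ⊆ F.Su (cj g A)) :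
    F.Su A ∩ F.Su (cj g A) ⊆ F.Su A ∩ F.Su (cj g0 A) :=
  (Set.eq_of_subset_of_ncard_le (Set.subset_inter Set.inter_subset_left l) (mx g n q)).ge

theorem exists_max (Q : G → Prop) {g : G} (n : cj g A ≠ A) (q : Q g) : ∃ g0, cj g0 A ≠ A ∧ Q g0 ∧
    ∀ g, cj g A ≠ A → Q g → (F.Su A ∩ F.Su (cj g A)).ncard ≤ (F.Su A ∩ F.Su (cj g0 A)).ncard := by
  obtain ⟨g0, a, b⟩ := Set.exists_max_image {g | cj g A ≠ A ∧ Q g}
    (fun g => (F.Su A ∩ F.Su (cj g A)).ncard) (Set.toFinite _) ⟨g, n, q⟩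
  exact ⟨g0, a.1, a.2, fun g n q => b g ⟨n, q⟩⟩

/-- elements of `A` that fix the intersection are trivial -/
theorem Pr.fixI (h : F.Pr A B) {g x : G} (n : cj g A ≠ A) {u : Subgroup G} (s : u ∈ F.Su A)
    (s' : u ∈ F.Su (cj g A)) (hx : x ∈ A) (f : ∀ H ∈ F.Su A ∩ F.Su (cj g A), x ∈ H) : x = 1 := by
  have := (h.m1 g n).2.resolve_left fun l => s'.2 (l.trans (h.le1 s))
  refine Subgroup.mem_bot.1 (this ▸ (⟨hx, h.memB fun H m => ?_⟩ : x ∈ A ⊓ cj g B))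
  by_cases c : H ∈ F.Su A
  exacts [f H ⟨c, m⟩, le_of_not_su m.1 c hx]

theorem Pr.lr_spc (h : F.Pr A B) {u : Subgroup G} (hu : F.Spc A B u) {g : G} (n : cj g A ≠ A)
    (s : u ∈ F.Su (cj g A)) (mx : ∀ g', cj g' A ≠ A → F.Su A ∩ F.Su (cj g A) ⊆ F.Su (cj g' A) →
      F.Su A ∩ F.Su (cj g' A) ⊆ F.Su A ∩ F.Su (cj g A)) : F.LR A B (F.Su A ∩ F.Su (cj g A)) := by
  refine ⟨⟨g, n, rfl⟩, mx, fun x hx e => ?_⟩
  obtain ⟨a, ha, b, hb, rfl⟩ := h.dec (hu.2.2 ⟨Subgroup.mem_sInf.1 hx u ⟨⟨hu.1, hu.2.1⟩, s⟩, cj_eq_iff.1 e⟩)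
  rwa [h.fixI n ⟨hu.1, hu.2.1⟩ s ha fun H m => (H.mul_mem_cancel_right (h.le1 m.1 hb)).1
    (Subgroup.mem_sInf.1 hx H m), one_mul]

theorem Pr.lr_spc' (h : F.Pr A B) {u : Subgroup G} (hu : F.Spc A B u) {g : G} (n : cj g A ≠ A)
    (s : u ∈ F.Su (cj g A)) : ∃ J, F.LR A B J ∧ F.Su A ∩ F.Su (cj g A) ⊆ J := by
  obtain ⟨g0, n0, q, mx⟩ := exists_max (F := F) (fun g' => F.Su A ∩ F.Su (cj g A) ⊆ F.Su (cj g' A)) n
    Set.inter_subset_right
  exact ⟨_, h.lr_spc hu n0 (q ⟨⟨hu.1, hu.2.1⟩, s⟩) fun g' n' l => max_of_card _ mx n'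
    (fun K m => l ⟨m.1, q m⟩) l, Set.subset_inter Set.inter_subset_left q⟩

omit [Finite G] in
theorem Spc.cj {u : Subgroup G} (hu : F.Spc A B u) {x : G} (hx : x ∈ A) :
    F.Spc A B (cj x u) := by
  refine ⟨hu.1.cj x, ((su_A hx).2 ⟨hu.1, hu.2.1⟩).2, fun y hy => ?_⟩
  have xn : x ∈ Subgroup.normalizer (A : Set G) := Subgroup.le_normalizer hx
  have := hu.2.2 (Subgroup.mem_inf.2 ⟨mem_cj.1 hy.1,
    mul_mem (mul_mem (inv_mem xn) (Subgroup.mem_inf.1 hy).2) xn⟩)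
  have xm : x ∈ A ⊔ B := Subgroup.mem_sup_left hx
  rwa [(A ⊔ B).mul_mem_cancel_right xm, (A ⊔ B).mul_mem_cancel_left (inv_mem xm)] at this

/-- the special case: the half that contains a special point is unique -/
theorem LS.uniq (h : F.Pr A B) (r : F.LS A B I a) {u : Subgroup G} (hu : F.Spc A B u)
    {g : G} (n : cj g A ≠ A) (s : u ∈ F.Su (cj g A)) (uI : u ∈ I) : F.Su A ∩ F.Su (cj g A) ⊆ I := by
  have su : u ∈ F.Su A := ⟨hu.1, hu.2.1⟩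
  have H0 : ∀ J, F.LR A B J → u ∈ J → cj a u ∉ J := fun J r' m c => by
    obtain ⟨x, hx, i⟩ := r'.ii h su
    rcases r.two x hx with rfl | rfl
    · exact i (by rwa [cj_one])
    · exact i c
  obtain ⟨J, r', l⟩ := h.lr_spc' hu n s
  have uJ := l ⟨su, s⟩
  obtain ⟨p, hp, np⟩ := r'.exP h
  have s1 : cj p (cj a u) ∈ F.Su (cj p A) := (su_cj p).2 ((su_A r.aA).2 su)
  obtain ⟨q, hq, nq, s2, -⟩ := r.land h r' hp np s1 fun c => H0 J r' uJ (by
    rwa [← cj_inv_cj p (cj a u), fixI (inv_mem hp) c])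
  by_cases e : cj (p⁻¹ * q) A = A
  · rw [cj_mul] at e
    have e' : cj q A = cj p A := by rw [← cj_cj_inv p (cj q A), e]
    exact fun K m => r.toLR.r0 hq nq m.1 (e' ▸ r'.subp hp (l m))
  · have s3 : u ∈ F.Su (cj (p⁻¹ * q) A) := by
      rw [cj_mul, ← fixI (inv_mem hp) uJ]
      exact (su_cj _).2 (r.toLR.subp hq uI)
    obtain ⟨J', r'', l'⟩ := h.lr_spc' hu e s3
    refine (H0 J' r'' (l' ⟨su, s3⟩) (l' ⟨(su_A r.aA).2 su, ?_⟩)).elim
    rw [cj_mul, ← cj_inv_cj p (cj a u)]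
    exact (su_cj _).2 s2

theorem LS.le_P (h : F.Pr A B) (r : F.LS A B I a) {u : Subgroup G} (hu : F.Spc A B u) (uI : u ∈ I) :
    u ≤ sInf I := fun y hy => by
  have su : u ∈ F.Su A := ⟨hu.1, hu.2.1⟩
  have sy : u ∈ F.Su (cj y A) := by rw [← cj_of_mem hy]; exact (su_cj y).2 su
  by_cases c : ∃ p ∈ sInf I, cj y A = cj p A
  · obtain ⟨p, hp, e⟩ := c
    have m := u.mul_mem (u.inv_mem (Subgroup.mem_sInf.1 hp u uI)) hy
    obtain ⟨x, hx, b, hb, e'⟩ := h.dec (hu.2.2 ⟨m, cj_eq_iff.1 (by rw [cj_mul, e, cj_inv_cj])⟩)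
    rw [e', u.mul_mem_cancel_right (h.le1 su hb)] at m
    rcases r.two x hx with rfl | rfl
    · rw [← mul_inv_cancel_left p y, e', one_mul]
      exact mul_mem hp (r.toLR.leP h hb)
    · exact ((r.half u su).1 (by rwa [cj_of_mem m]) uI).elim
  push Not at c
  have f : ∀ p ∈ sInf I, ∀ K ∈ F.Su (cj p A), K ∉ I → y * a * y⁻¹ ∈ K := fun p hp K s i =>
    (r.c_mem s.1).2 fun s' => i (by
      have := r.uniq h hu (g := p⁻¹ * y) (fun e => c p hp (by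
        rw [← mul_inv_cancel_left p y, cj_mul, e])) (by
        rw [cj_mul, ← fixI (inv_mem hp) uI]; exact (su_cj _).2 sy) uI
        ⟨(su_cj' p).1 s, by rw [cj_mul]; exact (su_cj _).2 s'⟩
      rwa [← cj_cj_inv p K, fixI hp this])
  have hx : a * (y * a * y⁻¹) * a⁻¹ ∈ sInf I := Subgroup.mem_sInf.2 fun K m => mem_cj_self.1 (by
    refine f 1 (one_mem _) _ (by rw [cj_one]; exact (su_A (inv_mem r.aA)).2 (r.toLR.sub m)) fun i => ?_
    exact (r.half _ (r.toLR.sub i)).1 (by rwa [cj_cj_inv]) i)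
  have f2 : ∀ p ∈ sInf I, cj p A ≠ A → cj (a * (y * a * y⁻¹) * a⁻¹) (cj p A) = cj p A := fun p hp n => by
    rw [← cj_mul]
    refine (h.eq_of_sub fun K s => ?_).symm
    have : a * (y * a * y⁻¹) * a⁻¹ ∈ K := by
      by_cases i : K ∈ I
      · exact Subgroup.mem_sInf.1 hx K i
      · have : a ∈ K := by simpa using r.out h hp (one_mem _) (by rwa [cj_one]) s i
        exact mul_mem (mul_mem this (f p hp K s i)) (inv_mem this)
    rw [cj_mul, ← cj_of_mem this]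
    exact (su_cj _).2 s
  have := r.phi h hx fun p hp => by
    by_cases n : cj p A = A
    · rw [n]
      by_contra n'
      exact n' (cj_inj _ (f2 _ hx n'))
    · exact f2 p hp n
  exact (r.a1 (conj_eq_one_iff.1 (conj_eq_one_iff.1 this))).elim

theorem LS.sym (h : F.Pr A B) (r : F.LS A B I a) {u : Subgroup G} (hu : F.Spc A B u) (uI : u ∈ I) :
    F.SymA := by
  have e : sInf I = u := le_antisymm (sInf_le uI) (r.le_P h hu uI)
  have hI : ∀ K ∈ I, K = u := fun K m => ((r.toLR.sub m).1.eq hu.1.1 (e ▸ sInf_le m)).symm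
  have nI : ∀ p ∈ sInf I, cj (p * a * p⁻¹) u ∉ I := fun p hp c =>
    (r.halfp hp (r.toLR.subp hp uI)).1 c uI
  have sc : ∀ p ∈ sInf I, cj (p * a * p⁻¹) u ∈ F.Su (cj p A) := fun p hp =>
    r.su_c.2 (r.toLR.subp hp uI)
  have blk : ∀ p ∈ sInf I, ∀ K ∈ F.Su (cj p A), K = u ∨ K = cj (p * a * p⁻¹) u := fun p hp K s => by
    by_cases i : K ∈ I
    · exact .inl (hI K i)
    · rw [← hI _ ((r.halfp hp s).2 i), ← cj_mul, r.cc, cj_one]
      exact .inr rfl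
  have all : ∀ K, F.Mem K → K = u ∨ ∃ p ∈ sInf I, K = cj (p * a * p⁻¹) u := fun K m => by
    by_cases l : sInf I ≤ K
    · exact .inl (m.eq hu.1.1 (e ▸ l)).symm
    · obtain ⟨p, hp, s⟩ := r.cover h m l
      exact (blk p hp K s).imp id fun a => ⟨p, hp, a⟩
  have ceq : ∀ p q : G, cj p A = cj q A → p * a * p⁻¹ = q * a * q⁻¹ := fun p q e => by
    rcases r.two _ (mem_cj.1 (e ▸ (conj_mem_cj p).2 r.aA : p * a * p⁻¹ ∈ cj q A)) with t | t
    · exact (r.a1 ((conj_eq_one_iff (a := p)).1 ((conj_eq_one_iff (a := q⁻¹)).1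
        (by rwa [inv_inv])))).elim
    · calc p * a * p⁻¹ = q * (q⁻¹ * (p * a * p⁻¹) * q) * q⁻¹ := by group
        _ = _ := by rw [t]
  let Z : Subgroup G :=
    { carrier := {g | g ∈ sInf I ∨ ∃ p ∈ sInf I, p * a * p⁻¹ * g ∈ sInf I}
      one_mem' := .inl (one_mem _)
      mul_mem' := by
        rintro x y (hx | ⟨p, hp, hx⟩) (hy | ⟨q, hq, hy⟩)
        · exact .inl (mul_mem hx hy)
        · refine .inr ⟨x * q, mul_mem hx hq, ?_⟩
          rw [show x * q * a * (x * q)⁻¹ * (x * y) = x * (q * a * q⁻¹ * y) by group]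
          exact mul_mem hx hy
        · exact .inr ⟨p, hp, by rw [← mul_assoc]; exact mul_mem hx hy⟩
        · set x' := p * a * p⁻¹ * x with ex
          have hq' := mul_mem hx hq
          have e1 : x * y = p * a * p⁻¹ * (x' * q * a * (x' * q)⁻¹) * (x' * (q * a * q⁻¹ * y)) := by
            rw [show p * a * p⁻¹ * (x' * q * a * (x' * q)⁻¹) * (x' * (q * a * q⁻¹ * y)) =
              p * a * p⁻¹ * x' * (q * a * q⁻¹ * (q * a * q⁻¹)) * y by group, r.cc, ex, ← mul_assoc, r.cc]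
            group
          by_cases n : cj p A = cj (x' * q) A
          · rw [e1, ← ceq _ _ n, r.cc, one_mul]
            exact .inl (mul_mem hx hy)
          · refine .inr ⟨x' * q, hq', ?_⟩
            rw [e1, ← mul_assoc, ← mul_assoc _ (p * a * p⁻¹)]
            exact mul_mem (r.tau_mem h hq' hp (Ne.symm n)) (mul_mem hx hy)
      inv_mem' := by
        rintro x (hx | ⟨p, hp, hx⟩)
        · exact .inl (inv_mem hx)
        · refine .inr ⟨(p * a * p⁻¹ * x)⁻¹ * p, mul_mem (inv_mem hx) hp, ?_⟩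
          rw [show (p * a * p⁻¹ * x)⁻¹ * p * a * ((p * a * p⁻¹ * x)⁻¹ * p)⁻¹ * x⁻¹ =
            (p * a * p⁻¹ * x)⁻¹ * (p * a * p⁻¹ * (p * a * p⁻¹)) by group, r.cc, mul_one]
          exact inv_mem hx }
  have uZ : u ≤ Z := fun x hx => .inl (e ▸ hx)
  have cZ : ∀ p ∈ sInf I, p * a * p⁻¹ ∈ Z := fun p hp => .inr ⟨p, hp, by rw [r.cc]; exact one_mem _⟩
  have nu : ∀ g ∈ Z, cj g u = u → g ∈ u := by
    rintro g (hg | ⟨p, hp, hg⟩) f
    · exact e ▸ hg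
    · refine (nI p hp ?_).elim
      rwa [← f, ← cj_mul, fixI hg uI]
  have t1 : ∀ p ∈ sInf I, ∀ M, F.Mem M → M ≠ u → M ≠ cj (p * a * p⁻¹) u → p * a * p⁻¹ ∈ M :=
    fun p hp M m n1 n2 => (r.c_mem m).2 fun s => (blk p hp M s).elim n1 n2
  have c2 : ∀ p K, cj (p * a * p⁻¹) (cj (p * a * p⁻¹) K) = K := fun p K => by
    rw [← cj_mul, r.cc, cj_one]
  refine ⟨?_, Z, fun K m => ?_, fun K m g hg f => ?_, fun H K mH mK n => ?_⟩
  · obtain ⟨p, hp, np⟩ := r.toLR.exP h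
    obtain ⟨b, hb, nb⟩ := SetLike.not_le_iff_exists.1 (r.toLR.mv h hp np (sc p hp) (nI p hp))
    have hb' := r.toLR.leP h hb
    have hq := mul_mem hb' hp
    have d : ∀ p ∈ sInf I, ∀ q ∈ sInf I, cj p A ≠ cj q A → cj (p * a * p⁻¹) u ≠ cj (q * a * q⁻¹) u :=
      fun p hp q hq n e => nI p hp (r.toLR.r1 h hp hq n (sc p hp) (e ▸ sc q hq))
    have d0 : ∀ p ∈ sInf I, u ≠ cj (p * a * p⁻¹) u := fun p hp e => nI p hp (e ▸ uI)
    have n1 : cj 1 A ≠ cj p A := fun e => np (r.pl p hp (by rw [← e, cj_one]))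
    have n2 : cj 1 A ≠ cj (b * p) A := fun e => np ((B.mul_mem_cancel_left hb).1
      (r.pl _ hq (by rw [← e, cj_one])))
    have n3 : cj p A ≠ cj (b * p) A := fun e => nb ((r.toLR.stab h hp hb' (sc p hp) (nI p hp)).2
      (by rw [← cj_mul, e]))
    have := Set.ncard_le_ncard (s := {u, cj (1 * a * 1⁻¹) u, cj (p * a * p⁻¹) u,
      cj (b * p * a * (b * p)⁻¹) u}) (t := {H | F.Mem H}) (by
      rintro _ (rfl | rfl | rfl | rfl)
      exacts [hu.1, hu.1.cj _, hu.1.cj _, hu.1.cj _])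
    rwa [Set.ncard_insert_of_notMem (by simp [d0 p hp, d0 _ hq, d0 1 (one_mem _), -mul_inv_rev, -one_mul, -inv_one]),
      Set.ncard_insert_of_notMem (by
        simp [d _ (one_mem _) _ hp n1, d _ (one_mem _) _ hq n2, -mul_inv_rev, -one_mul, -inv_one]),
      Set.ncard_pair (d _ hp _ hq n3)] at this
  · rcases all K m with rfl | ⟨p, hp, rfl⟩
    · exact uZ
    · rw [← cj_of_mem (cZ p hp)]
      exact cj_mono _ uZ
  · rcases all K m with rfl | ⟨p, hp, rfl⟩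
    · exact nu g hg f
    · refine mem_cj.2 (nu _ (mul_mem (mul_mem (inv_mem (cZ p hp)) hg) (cZ p hp)) ?_)
      rw [cj_mul, cj_mul, f, cj_inv_cj]
  · rcases all H mH with rfl | ⟨p, hp, rfl⟩ <;> rcases all K mK with rfl | ⟨q, hq, rfl⟩
    · exact (n rfl).elim
    · exact ⟨_, cZ q hq, rfl, c2 _ _, t1 q hq⟩
    · exact ⟨_, cZ p hp, c2 _ _, rfl, fun M m a b => t1 p hp M m b a⟩
    · have n' : cj p A ≠ cj q A := fun e => n (by rw [ceq _ _ e])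
      have o := cj_of_mem (r.out h hq hp n'.symm (sc q hq) (nI q hq))
      refine ⟨p * a * p⁻¹ * (q * a * q⁻¹) * (p * a * p⁻¹),
        mul_mem (mul_mem (cZ p hp) (cZ q hq)) (cZ p hp), by rw [cj_mul, cj_mul, c2, o],
        by rw [cj_mul, cj_mul, o, c2], fun M m n1 n2 => ?_⟩
      have := mem_cj.1 (t1 q hq _ (m.cj (p * a * p⁻¹)) (fun e => n1 (by rw [← e, c2]))
        fun e => n2 (by rw [← o, ← e, c2]))
      rwa [r.ci p] at this

theorem Pr.special (h : F.Pr A B) {u : Subgroup G} (hu : F.Spc A B u) : A ⊔ B ∈ F.s ∨ F.SymA := by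
  by_cases c : u ≤ Subgroup.normalizer (A : Set G)
  · exact .inl (F.up hu.1.1 fun x hx => hu.2.2 ⟨hx, c hx⟩)
  obtain ⟨y, hy, ny⟩ := SetLike.not_le_iff_exists.1 c
  obtain ⟨g, n, ⟨v, hv, sv⟩, mx⟩ := exists_max (F := F) (fun g => ∃ v, F.Spc A B v ∧ v ∈ F.Su (cj g A))
    (g := y) (fun e => ny (cj_eq_iff.1 e))
    ⟨u, hu, by rw [← cj_of_mem hy]; exact (su_cj y).2 ⟨hu.1, hu.2.1⟩⟩
  have vI : v ∈ F.Su A ∩ F.Su (cj g A) := ⟨⟨hv.1, hv.2.1⟩, sv⟩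
  have r := h.lr_spc hv n sv fun g' n' l => max_of_card _ mx n' ⟨v, hv, l vI⟩ l
  obtain ⟨p, hp, np⟩ := r.exP h
  obtain ⟨x, hx, i⟩ := r.ii h vI.1
  obtain ⟨a, r'⟩ := r.toLS h ⟨v, vI⟩ fun a ha H s i1 i2 => r.sz h hp np ha (fun n' => mx _ n'
    ⟨_, hv.cj hx, by
      rw [← cj_of_mem (r.fixR hp np ((su_A hx).2 vI.1) i ha)]
      exact (su_cj _).2 ((su_A hx).2 vI.1)⟩) s i1 i2
  exact .inr (r'.sym h hv vI)

end Fam

end Pool.Agent.Lib.MP_3cc314_lc.Cg
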