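import Pool.Agent.Lib.MP_3cc314_lc.CgAlg

set_option autoImplicit false
set_option linter.unusedSectionVars false

namespace Pool.Agent.Lib.MP_3cc314_lc.Cg.Orc
open Finset Matrix Pool.Agent.Lib.Complexity

/-- vertices of two copies of the graph -/
abbrev Vx := Bool × ℕ

abbrev Rl := List (Vx × Vx)

def cut {γ : Type} [DecidableEq γ] (f : Vx → γ) (R : Rl) : Rl :=
  R.filter fun e => decide (f e.1 = f e.2)

def cnt (M : Mx) (R : Rl) (u w : Vx) : ℕ :=
  (List.range M.length).countP fun y => adj M u.2 y && decide (((u.1, y), w) ∈ R)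

def stp (M : Mx) (R : Rl) : Rl := cut (fun u => R.map fun e => cnt M R u e.2) R

/-- colour refinement -/
def ref (M : Mx) (R : Rl) : Rl := (stp M)^[R.length] R

def vs (n : ℕ) : List Vx := [false, true].flatMap fun s => (List.range n).map fun x => (s, x)

/-- the initial colouring -/
def ini (M : Mx) (p B B' : List ℕ) : Rl :=
  ref M (cut (fun u => (if u.1 then B' else B).map fun b => decide (p.getD u.2 0 = p.getD b 0))
    ((vs M.length).flatMap fun u => (vs M.length).map fun v => (u, v)))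

def csz (n : ℕ) (R : Rl) (s : Bool) (w : Vx) : ℕ :=
  (List.range n).countP fun y => decide (((s, y), w) ∈ R)

def bal (n : ℕ) (R : Rl) : Bool := R.all fun e => decide (csz n R false e.2 = csz n R true e.2)

def pk (n : ℕ) (R : Rl) (x : ℕ) : ℕ :=
  ((List.range n).find? fun y => decide (((false, x), (true, y)) ∈ R)).getD 0

/-- individualisation -/
def ind (M : Mx) (R : Rl) (x : ℕ) : Rl :=
  ref M (cut (fun u => decide (u = (false, x) ∨ u = (true, pk M.length R x))) R)

def fin (M : Mx) (R : Rl) : Rl := (List.range M.length).foldl (ind M) R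

def out (n : ℕ) (R : Rl) : Option (List ℕ) :=
  if bal n R && R.all fun e => e.1.1 || e.2.1 || decide (e.1 = e.2) then
    some ((List.range n).map (pk n R)) else none

theorem mem_cut {γ : Type} [DecidableEq γ] {f : Vx → γ} {R : Rl} {e : Vx × Vx} :
    e ∈ cut f R ↔ e ∈ R ∧ f e.1 = f e.2 := by simp [cut]

theorem it_sub (M : Mx) (R : Rl) (k : ℕ) : ((stp M)^[k] R).Sublist R := by
  induction k with
  | zero => rfl
  | succ k ih => exact Function.iterate_succ_apply' .. ▸ List.filter_sublist.trans ih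

theorem ind_sub (M : Mx) (R : Rl) (x : ℕ) : (ind M R x).Sublist R :=
  (it_sub ..).trans List.filter_sublist

theorem fold_sub (M : Mx) (l : List ℕ) (R : Rl) : (l.foldl (ind M) R).Sublist R := by
  induction l generalizing R with
  | nil => rfl
  | cons x l ih => exact (ih _).trans (ind_sub ..)

theorem stp_ref (M : Mx) (R : Rl) : stp M (ref M R) = ref M R := by
  have : ∀ k, stp M ((stp M)^[k] R) = (stp M)^[k] R ∨ ((stp M)^[k] R).length + k ≤ R.length := by
    intro k
    induction k with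
    | zero => exact .inr le_rfl
    | succ k ih =>
      rw [Function.iterate_succ_apply']
      refine (em _).imp (fun e : stp M ((stp M)^[k] R) = (stp M)^[k] R => by rw [e, e]) fun e => ?_
      have a : (stp M ((stp M)^[k] R)).Sublist _ := List.filter_sublist
      have := a.length_le.lt_of_ne fun b => e (a.eq_of_length b)
      have := ih.resolve_left e
      omega
  refine (this R.length).elim id fun e => ?_
  rw [ref, List.eq_nil_of_length_eq_zero (l := (stp M)^[R.length] R) (by omega)]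
  rfl

section
variable {α : Type} [Enc α] {M : α → Mx} {R : α → Rl} {n x : α → ℕ}

@[fun_prop] theorem pt_ref (hM : PT M) (hR : PT R) : PT fun a => ref (M a) (R a) :=
  PT.iterate (step := fun a => stp (M a)) hR.length hR (by unfold stp cut cnt; fun_prop) hR.pb
    fun _ _ _ => sz_le_of_sublist (it_sub ..)

@[fun_prop] theorem pt_ini {p B B' : α → List ℕ} (hM : PT M) (hp : PT p) (hB : PT B) (hB' : PT B') :
    PT fun a => ini (M a) (p a) (B a) (B' a) := by
  unfold ini cut vs
  fun_prop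

@[fun_prop] theorem pt_bal (hn : PT n) (hR : PT R) : PT fun a => bal (n a) (R a) := by
  unfold bal csz
  fun_prop

@[fun_prop] theorem pt_pk (hn : PT n) (hR : PT R) (hx : PT x) : PT fun a => pk (n a) (R a) (x a) := by
  unfold pk
  fun_prop

@[fun_prop] theorem pt_fin (hM : PT M) (hR : PT R) : PT fun a => fin (M a) (R a) :=
  PT.foldl (f := fun a => ind (M a)) hM.length.range hR (by unfold ind cut; fun_prop) hR.pb
    fun _ _ => sz_le_of_sublist (fold_sub ..)

@[fun_prop] theorem pt_out (hn : PT n) (hR : PT R) : PT fun a => out (n a) (R a) := by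
  unfold out
  fun_prop

end

/-- equivalence relations -/
structure Eqv (n : ℕ) (R : Rl) : Prop where
  rf : ∀ s (x : Fin n), ((s, x.1), (s, x.1)) ∈ R
  sy : ∀ {u v}, (u, v) ∈ R → (v, u) ∈ R
  tr : ∀ {u v w}, (u, v) ∈ R → (v, w) ∈ R → (u, w) ∈ R

variable {n : ℕ} {R : Rl} {G : SimpleGraph (Fin n)} [DecidableRel G.Adj] {s t : Bool}
  {X : Matrix (Fin n) (Fin n) ℝ} {u v w : Vx}

theorem Eqv.cut {γ : Type} [DecidableEq γ] (h : Eqv n R) (f : Vx → γ) : Eqv n (cut f R) :=
  ⟨fun s x => mem_cut.2 ⟨h.rf s x, rfl⟩,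
    fun a => mem_cut.2 ⟨h.sy (mem_cut.1 a).1, (mem_cut.1 a).2.symm⟩, fun a b =>
    mem_cut.2 ⟨h.tr (mem_cut.1 a).1 (mem_cut.1 b).1, (mem_cut.1 a).2.trans (mem_cut.1 b).2⟩⟩

theorem Eqv.iff (h : Eqv n R) (e : (u, v) ∈ R) : (u, w) ∈ R ↔ (v, w) ∈ R :=
  ⟨h.tr (h.sy e), h.tr e⟩

/-- the support of `X` lies in the relation -/
def Sup (X : Matrix (Fin n) (Fin n) ℝ) (s t : Bool) (R : Rl) : Prop :=
  ∀ x y, X x y ≠ 0 → ((s, x.1), (t, y.1)) ∈ R

/-- indicator of a class -/
def chi (n : ℕ) (R : Rl) (s : Bool) (w : Vx) (y : Fin n) : ℝ := if ((s, y.1), w) ∈ R then 1 else 0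

theorem cP_range (q : ℕ → Bool) :
    ((List.range n).countP q : ℝ) = ∑ y : Fin n, if q y then 1 else 0 := by
  rw [List.countP_eq_length_filter, ← List.toFinset_card_of_nodup (List.nodup_range.filter _),
    List.toFinset_filter, List.toFinset_range, card_filter, sum_range]
  simp

theorem cnt_eq (s : Bool) (x : Fin n) (w : Vx) :
    (cnt (rows G) R (s, x.1) w : ℝ) = (G.adjMatrix ℝ *ᵥ chi n R s w) x := by
  rw [cnt, rows_length, cP_range, mulVec, dotProduct]
  exact sum_congr rfl fun y _ => by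
    by_cases e : G.Adj x y <;> simp [chi, e]

theorem csz_eq (s : Bool) (w : Vx) : (csz n R s w : ℝ) = ∑ y, chi n R s w y := by
  simp [csz, cP_range, chi]

theorem mem_T (hX : X ∈ fracAut G) : Xᵀ ∈ fracAut G := by
  obtain ⟨a, b, c⟩ := mem_doublyStochastic_iff_sum.1 hX.1
  refine ⟨mem_doublyStochastic_iff_sum.2 ⟨fun i j => a j i, c, b⟩, ?_⟩
  rw [← G.transpose_adjMatrix, ← transpose_mul, ← transpose_mul, hX.2]

theorem Sup.chi (h : Sup X s t R) (E : Eqv n R) (hX : X ∈ fracAut G) (w : Vx) :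
    X *ᵥ chi n R t w = chi n R s w := funext fun x => by
  rw [← mul_one (Orc.chi n R s w x), ← sum_row_of_mem_doublyStochastic hX.1 x, mul_sum, mulVec,
    dotProduct]
  refine sum_congr rfl fun y _ => ?_
  by_cases e : X x y = 0
  · simp [e]
  · simp only [Orc.chi, E.iff (h x y e), mul_comm]

theorem Sup.T (h : Sup X s t R) (E : Eqv n R) : Sup Xᵀ t s R := fun x y e => E.sy (h y x e)

theorem fix_eq (hX : X ∈ fracAut G) {a b : Fin n → ℝ} (h : X *ᵥ b = a) (h' : Xᵀ *ᵥ a = b)
    {x y : Fin n} (e : X x y ≠ 0) : a x = b y := by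
  obtain ⟨p, r, c⟩ := mem_doublyStochastic_iff_sum.1 hX.1
  have e1 : ∑ i, ∑ j, X i j * a i ^ 2 = a ⬝ᵥ a := by simp only [← sum_mul, r, dotProduct, pow_two, one_mul]
  have e2 : ∑ i, ∑ j, X i j * b j ^ 2 = b ⬝ᵥ b := by
    rw [sum_comm]
    simp only [← sum_mul, c, dotProduct, pow_two, one_mul]
  have e3 : ∑ i, ∑ j, X i j * (a i * b j) = a ⬝ᵥ X *ᵥ b := by
    simp only [dotProduct, mulVec, mul_sum, mul_left_comm]
  have e4 : a ⬝ᵥ X *ᵥ b = b ⬝ᵥ b := by rw [dotProduct_mulVec, ← mulVec_transpose, h']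
  have e5 : ∑ i, ∑ j, X i j * (a i - b j) ^ 2 = 0 := by
    simp only [sub_sq, mul_add, mul_sub, sum_add_distrib, sum_sub_distrib, e1, e2, mul_assoc,
      mul_left_comm _ (2 : ℝ), ← mul_sum, e3]
    rw [← e4, h]
    ring
  have := (sum_eq_zero_iff_of_nonneg fun j _ => by have := p x j; positivity).1
    ((sum_eq_zero_iff_of_nonneg fun i _ => sum_nonneg fun j _ => by
      have := p i j; positivity).1 e5 x (mem_univ _)) y (mem_univ _)
  simpa [e, sub_eq_zero] using this

theorem ref_ind {P : Rl → Prop} {M : Mx} (h : ∀ R, P R → P (stp M R)) (a : P R) : P (ref M R) :=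
  Function.Iterate.rec P a h _

theorem Eqv.ref (h : Eqv n R) (M : Mx) : Eqv n (ref M R) := ref_ind (fun _ a => a.cut _) h

theorem Sup.ref (h : Sup X s t R) (E : Eqv n R) (hX : X ∈ fracAut G) :
    Sup X s t (ref (rows G) R) :=
  (ref_ind (P := fun R => Sup X s t R ∧ Eqv n R) (fun R ⟨h, E⟩ => ⟨fun x y e => mem_cut.2
    ⟨h x y e, List.map_congr_left fun c _ => Nat.cast_injective (R := ℝ) (by
      rw [cnt_eq, cnt_eq]
      refine fix_eq hX ?_ ?_ e
      · rw [mulVec_mulVec, ← hX.2, ← mulVec_mulVec, h.chi E hX]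
      · rw [mulVec_mulVec, ← (mem_T hX).2, ← mulVec_mulVec, (h.T E).chi E (mem_T hX)])⟩,
    E.cut _⟩) ⟨h, E⟩).1

theorem Sup.bal (h : Sup X false true R) (E : Eqv n R) (hX : X ∈ fracAut G) : bal n R = true := by
  simp only [Orc.bal, List.all_eq_true, decide_eq_true_eq]
  refine fun e _ => Nat.cast_injective (R := ℝ) ?_
  rw [csz_eq, csz_eq, ← h.chi E hX]
  simp only [mulVec, dotProduct]
  rw [sum_comm]
  simp [← sum_mul, sum_col_of_mem_doublyStochastic hX.1]

/-- stable balanced relations carry fractional automorphisms -/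
theorem ex_frac (E : Eqv n R) (S : stp (rows G) R = R)
    (hb : ∀ e ∈ R, csz n R s e.2 = csz n R t e.2) :
    ∃ X ∈ fracAut G, ∀ x y : Fin n, X x y = chi n R s (t, y) x / csz n R s (t, y) := by
  have c1 : ∀ {u v}, (u, v) ∈ R → ∀ s, chi n R s u = chi n R s v := fun e s => funext fun y => by
    simp only [chi, show (_, _) ∈ R ↔ _ from ⟨fun a => E.tr a e, fun a => E.tr a (E.sy e)⟩]
  have c2 : ∀ {u v}, (u, v) ∈ R → ∀ s, (csz n R s u : ℝ) = csz n R s v := fun e s => by
    rw [csz_eq, csz_eq, c1 e]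
  have c3 : ∀ s (x : Fin n), (csz n R s (s, x) : ℝ) ≠ 0 := fun s x => by
    rw [csz_eq]
    exact (sum_pos' (fun y _ => by unfold chi; positivity)
      ⟨x, mem_univ _, by simp [chi, E.rf]⟩).ne'
  have c4 : ∀ y : Fin n, (csz n R s (t, y) : ℝ) ≠ 0 := fun y => by
    rw [hb _ (E.rf t y)]
    exact c3 t y
  have c5 : ∀ x y : Fin n, chi n R s (t, y) x / csz n R s (t, y) =
      chi n R t (s, x) y / csz n R s (s, x) := fun x y => by
    by_cases e : ((s, x.1), (t, y.1)) ∈ R
    · simp only [chi, e, E.sy e, c2 e]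
    · simp [chi, e, mt E.sy e]
  have c6 : ∀ {u v}, (u, v) ∈ R → ∀ s (x : Fin n),
      cnt (rows G) R u (s, x) = cnt (rows G) R v (s, x) := fun e s x =>
    List.map_inj_left.1 (mem_cut.1 (S ▸ e :)).2 _ (E.rf s x)
  have c7 : ∀ r r' (x y : Fin n), chi n R s (r, x) ⬝ᵥ G.adjMatrix ℝ *ᵥ chi n R s (r', y) =
      csz n R s (r, x) * cnt (rows G) R (r, x) (r', y) := fun r r' x y => by
    rw [csz_eq, sum_mul]
    refine sum_congr rfl fun z _ => ?_
    rw [← cnt_eq, chi]
    split_ifs with e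
    exacts [by rw [c6 e], by simp]
  refine ⟨of fun x y => chi n R s (t, y) x / csz n R s (t, y), ⟨mem_doublyStochastic_iff_sum.2
    ⟨fun x y => ?_, fun x => ?_, fun y => ?_⟩, ext fun x y => ?_⟩, fun _ _ => rfl⟩
  · simp only [of_apply, chi]
    positivity
  · simp only [of_apply, c5, ← sum_div, ← csz_eq, ← hb _ (E.rf s x), div_self (c3 s x)]
  · simp only [of_apply, ← sum_div, ← csz_eq, div_self (c4 y)]
  · have a := c7 s t x y
    rw [dotProduct_mulVec, ← mulVec_transpose, G.transpose_adjMatrix, dotProduct_comm, c7] at a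
    have b1 := cnt_eq (G := G) (R := R) s x (t, y)
    have b2 := cnt_eq (G := G) (R := R) t y (s, x)
    simp only [mulVec, dotProduct] at b1 b2
    rw [mul_apply, mul_apply]
    conv_rhs => simp only [of_apply, c5, div_mul_eq_mul_div, mul_comm (chi ..),
      G.isSymm_adjMatrix.apply y]
    simp only [of_apply, ← mul_div_assoc, ← sum_div, ← b1, ← b2]
    rw [div_eq_div_iff (c4 y) (c3 s x)]
    linarith

theorem chi_pos {x y : Fin n} :
    chi n R s (t, y) x / csz n R s (t, y) ≠ 0 → ((s, x.1), (t, y.1)) ∈ R := fun e => by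
  by_contra a
  simp [chi, a] at e

theorem pos_chi {x : Fin n} (e : ((s, x.1), w) ∈ R) : 0 < chi n R s w x / csz n R s w := by
  rw [csz_eq]
  have : 0 < chi n R s w x := by simp [chi, e]
  exact div_pos this (sum_pos' (fun y _ => by unfold chi; positivity) ⟨x, mem_univ _, this⟩)

/-- on compact graphs the positive entries come from automorphisms -/
theorem ex_aut (hG : Compact G) (hX : X ∈ fracAut G) {x y : Fin n} (e : 0 < X x y) :
    ∃ g : G ≃g G, g x = y ∧ ∀ i, X i (g i) ≠ 0 := by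
  by_contra! a
  have := hG.lin (∑ c ∈ univ.filter fun c : Fin n × Fin n => X c.1 c.2 = 0,
    entryLinearMap ℝ ℝ c.1 c.2 - entryLinearMap ℝ ℝ x y) (fun g => ?_) hX
  · simp only [LinearMap.sub_apply, LinearMap.sum_apply, entryLinearMap_apply] at this
    rw [sum_eq_zero fun c hc => (mem_filter.1 hc).2] at this
    linarith
  simp only [LinearMap.sub_apply, LinearMap.sum_apply, entryLinearMap_apply, sub_nonneg]
  have p : ∀ i j, 0 ≤ pm g.toEquiv i j := fun i j => nonneg_of_mem_doublyStochastic (pm_ds _)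
  by_cases b : g x = y
  · obtain ⟨i, hi⟩ := a g b
    refine le_trans ?_ (single_le_sum (fun c _ => p c.1 c.2) (a := (i, g i)) (by simpa using hi))
    simp [pm_apply, b]
  · exact le_trans (by simp [pm_apply, b]) (sum_nonneg fun c _ => p c.1 c.2)

theorem sup_pm {g : G ≃g G} : Sup (pm g.toEquiv) s t R ↔ ∀ x, ((s, x.1), (t, (g x).1)) ∈ R := by
  simp [Sup, pm_apply]

theorem pk_spec {x : ℕ} {y : Fin n} (e : ((false, x), (true, y.1)) ∈ R) :
    ∃ z : Fin n, pk n R x = z ∧ ((false, x), (true, z.1)) ∈ R := by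
  rw [pk]
  rcases a : List.find? _ _ with _ | z
  · simpa [e] using List.find?_eq_none.1 a y (List.mem_range.2 y.2)
  · exact ⟨⟨z, List.mem_range.1 (List.mem_of_find?_eq_some a)⟩, rfl,
      by simpa using List.find?_some a⟩

/-- stable equivalence relations -/
def Gd (G : SimpleGraph (Fin n)) [DecidableRel G.Adj] (R : Rl) : Prop :=
  Eqv n R ∧ stp (rows G) R = R

theorem Gd.ind (h : Gd G R) (x : ℕ) : Gd G (ind (rows G) R x) :=
  ⟨(h.1.cut _).ref _, stp_ref ..⟩

theorem Gd.fold (h : Gd G R) (l : List ℕ) : Gd G (l.foldl (Orc.ind (rows G)) R) := by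
  induction l generalizing R with
  | nil => exact h
  | cons x l ih => exact ih (h.ind x)

theorem Gd.frac (h : Gd G R) (b : bal n R = true) : ∃ X ∈ fracAut G,
    ∀ x y : Fin n, X x y = chi n R false (true, y) x / csz n R false (true, y) :=
  ex_frac h.1 h.2 (by simpa [bal] using b)

theorem Gd.bal_ind (h : Gd G R) (hG : Compact G) (b : bal n R = true) (x : Fin n) :
    bal n (Orc.ind (rows G) R x) = true := by
  obtain ⟨X, hX, e⟩ := h.frac b
  obtain ⟨y, -, hy⟩ := exists_ne_zero_of_sum_ne_zero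
    ((sum_row_of_mem_doublyStochastic hX.1 x).trans_ne one_ne_zero)
  obtain ⟨z, z1, z2⟩ := pk_spec (chi_pos (e x y ▸ hy))
  obtain ⟨g, rfl, a⟩ := ex_aut hG hX (e x z ▸ pos_chi z2)
  refine (Sup.ref (sup_pm.2 fun i => mem_cut.2 ⟨chi_pos (e _ _ ▸ a i), ?_⟩) (h.1.cut _)
    (pm_mem g)).bal ((h.1.cut _).ref _) (pm_mem g)
  simp [z1, Fin.val_inj]

theorem Gd.bal_fold (h : Gd G R) (hG : Compact G) (b : bal n R = true) (l : List ℕ)
    (hl : ∀ x ∈ l, x < n) : bal n (l.foldl (Orc.ind (rows G)) R) = true := by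
  induction l generalizing R with
  | nil => exact b
  | cons x l ih =>
    exact ih (h.ind x) (h.bal_ind hG b ⟨x, hl x (by simp)⟩) fun y a => hl y (by simp [a])

theorem fold_dis (M : Mx) {l : List ℕ} {x z : ℕ} (hx : x ∈ l)
    (e : ((false, x), (false, z)) ∈ l.foldl (ind M) R) : z = x := by
  induction l generalizing R with
  | nil => simp at hx
  | cons y l ih =>
    obtain rfl | a := List.mem_cons.1 hx
    · simpa using (mem_cut.1 ((it_sub ..).subset ((fold_sub M l _).subset e))).2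
    · exact ih a e

theorem mem_vs : u ∈ vs n ↔ u.2 < n := by
  obtain ⟨_ | _, x⟩ := u <;> simp [vs]

theorem mem_all : (u, v) ∈ ((vs n).flatMap fun u => (vs n).map fun v => (u, v)) ↔
    u.2 < n ∧ v.2 < n := by simp [mem_vs]

theorem eqv_all :
    Eqv n ((vs (rows G).length).flatMap fun u => (vs (rows G).length).map fun v => (u, v)) :=
  ⟨fun _ x => mem_all.2 (by simp), fun a => mem_all.2 (mem_all.1 a).symm,
    fun a b => mem_all.2 ⟨(mem_all.1 a).1, (mem_all.1 b).2⟩⟩

theorem gd_ini (p B B' : List ℕ) : Gd G (ini (rows G) p B B') :=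
  ⟨(eqv_all.cut _).ref _, stp_ref ..⟩

theorem tm_iff {p B B' : List ℕ} (h : Inv G p) (hl : B.length = B'.length) (hB : ∀ b ∈ B, b < n)
    (hB' : ∀ b ∈ B', b < n) (g : G ≃g G) : Tm p g B B' ↔ ∀ x : Fin n,
      (B.map fun b => decide (p.getD x 0 = p.getD b 0)) =
        B'.map fun b => decide (p.getD (g x) 0 = p.getD b 0) := by
  induction B generalizing B' with
  | nil => simp [Tm, List.length_eq_zero_iff.1 hl.symm]
  | cons b B ih =>
    obtain _ | ⟨b', B'⟩ := B'
    · simp at hl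
    have b1 := hB b (by simp)
    have := ih (by simpa using hl) (fun c a => hB c (by simp [a])) fun c a => hB' c (by simp [a])
    simp only [Tm, List.forall₂_cons, List.map_cons, List.cons.injEq, forall_and,
      decide_eq_decide] at this ⊢
    refine and_congr ⟨fun ⟨y, y1, _, y2⟩ x => ?_, fun a => ⟨⟨b, b1⟩, rfl, hB' _ (by simp),
      (a _).1 rfl⟩⟩ this
    rw [← y1, ← y2]
    exact ⟨h g x y, fun a => by simpa using h g⁻¹ _ _ a⟩

end Orc

open Orc Pool.Agent.Lib.Complexity

theorem sCls : S_cls := by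
  refine ⟨fun M i j => decide (((false, i), (false, j)) ∈ ini M [] [] []), PT.dec_mem (by fun_prop)
    (pt_ini PT.id.fst (.const _) (.const _) (.const _)),
    fun n G _ => ⟨fun X hX i j e => decide_eq_true ?_, ?_⟩⟩
  · exact Sup.ref (fun x y _ => mem_cut.2 ⟨mem_all.2 (by simp), rfl⟩)
      (eqv_all.cut _) hX i j e
  · obtain ⟨X, hX, e⟩ := ex_frac (s := false) (gd_ini (G := G) [] [] []).1 (gd_ini ..).2
      fun _ _ => rfl
    exact ⟨X, hX, fun i j a => e i j ▸ pos_chi (of_decide_eq_true a)⟩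

theorem sOrc : S_orc := by
  refine ⟨fun M p B B' => out M.length (fin M (ini M p B B')),
    fun M p B B' => !bal M.length (ini M p B B'), by fun_prop, by fun_prop,
    fun n G _ p B B' h hl hB hB' => ?_⟩
  have g0 := gd_ini (G := G) p B B'
  have g1 := g0.fold (List.range n)
  simp only [fin, rows_length, out]
  refine ⟨fun l e => ?_, fun e ⟨g, a⟩ => ?_, fun hG => ?_⟩
  · generalize hR : (List.range n).foldl _ _ = R at e g1
    simp only [Option.ite_none_right_eq_some, Bool.and_eq_true, List.all_eq_true, Bool.or_eq_true,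
      decide_eq_true_eq, Option.some.injEq] at e
    obtain ⟨⟨b, d⟩, rfl⟩ := e
    have d1 : ∀ {x z : Fin n} {w}, ((false, x.1), w) ∈ R → ((false, z.1), w) ∈ R → x = z :=
      fun a c => by simpa [Fin.val_inj] using d _ (g1.1.tr a (g1.1.sy c))
    obtain ⟨X, hX, e⟩ := g1.frac b
    obtain ⟨g, rfl⟩ := eq_pm hX fun x y => by
      by_cases a : ((false, x.1), (true, y.1)) ∈ R
      · refine ⟨1, ?_⟩
        rw [e, csz_eq, Finset.sum_eq_single (f := chi n R false (true, y)) x
          (fun z _ c => if_neg fun a' => c (d1 a' a)) (by simp)]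
        simp [chi, a]
      · exact ⟨0, by simp [e, chi, a]⟩
    have k : ∀ x y : Fin n, ((false, x.1), (true, y.1)) ∈ R ↔ g x = y := fun x y =>
      ⟨fun a => by simpa [← e, pm_apply, ite_pos] using (pos_chi a).ne',
        fun a => chi_pos (by simp [← e, pm_apply, a])⟩
    refine ⟨g, fun x => ?_, (tm_iff h hl hB hB' g).2 fun x => ?_⟩
    · obtain ⟨z, z1, z2⟩ := pk_spec ((k x _).2 rfl)
      simp [z1, (k x z).1 z2]
    · exact (mem_cut.1 ((it_sub ..).subset ((fold_sub ..).subset (hR ▸ (k x _).2 rfl)))).2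
  · rw [ini, Sup.bal (Sup.ref (sup_pm.2 fun x => mem_cut.2 ⟨mem_all.2 (by simp),
      (tm_iff h hl hB hB' g).1 a x⟩) (eqv_all.cut _) (pm_mem g)) g0.1 (pm_mem g)] at e
    simp at e
  · refine or_iff_not_imp_right.2 fun b => ?_
    rw [g0.bal_fold hG (by simpa using b) _ fun x => List.mem_range.1, if_pos]
    · rfl
    simp only [Bool.true_and, List.all_eq_true, Bool.or_eq_true, decide_eq_true_eq]
    rintro ⟨⟨_ | _, x⟩, _ | _, z⟩ e <;> simp
    have := (mem_all.1 (mem_cut.1 ((it_sub ..).subset ((fold_sub ..).subset e))).1).1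
    exact (fold_dis _ (List.mem_range.2 (by simpa using this)) e).symm

end Pool.Agent.Lib.MP_3cc314_lc.Cg
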