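import Pool.Agent.Lib.MP_3cc314_lc.CgO2

set_option autoImplicit false

namespace Pool.Agent.Lib.MP_3cc314_lc.Cg
open scoped Classical

variable {G : Type} [Group G]

namespace Fam
variable (F : Fam G)

/-- regular pair of members -/
def Reg (H M : Subgroup G) : Prop := F.Mem H ∧ F.Mem M ∧ H ⊓ M = ⊥

/-- regular pair with the least product of orders -/
def LReg (H M : Subgroup G) : Prop :=
  F.Reg H M ∧ ∀ H' M', F.Reg H' M' → Nat.card H * Nat.card M ≤ Nat.card H' * Nat.card M'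

/-- three members of order `n` in a group of order `n ^ 2` -/
structure Net (H M N X : Subgroup G) : Prop where
  hm : F.LReg H M
  hn : F.Reg H N
  nm : F.Reg N M
  cm : Nat.card M = Nat.card H
  cn : Nat.card N = Nat.card H
  lh : H ≤ X
  lm : M ≤ X
  ln : N ≤ X
  cx : Nat.card X = Nat.card H * Nat.card H

/-- coordinates on the group of order 16 with its six planes -/
structure Six (H M N X : Subgroup G) (e : V4 × V4 → G) : Prop where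
  mul : ∀ p q, e (p + q) = e p * e q
  inj : Function.Injective e
  x : ∀ g, g ∈ X ↔ ∃ p, g = e p
  h : ∀ p, e p ∈ H ↔ p.2 = 0
  m : ∀ p, e p ∈ M ↔ p.1 = 0
  n : ∀ p, e p ∈ N ↔ p.1 = p.2
  t : ∀ v : V4, v ≠ 0 → ∃ W, F.Mem W ∧ W ≤ X ∧
    ∀ p, e p ∈ W ↔ (p.1 = 0 ∨ p.1 = v) ∧ (p.2 = 0 ∨ p.2 = v)
  all : ∀ W, F.Mem W → W ≤ X → W = H ∨ W = M ∨ W = N ∨ ∃ v : V4, v ≠ 0 ∧
    ∀ p, e p ∈ W ↔ (p.1 = 0 ∨ p.1 = v) ∧ (p.2 = 0 ∨ p.2 = v)

end Fam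

/-- part (R) -/
def S_R : Prop := ∀ (G : Type) [Group G] [Finite G] (F : Fam G),
  F.Fa → F.SF → F.Rd → ⊥ ∉ F.s → (∀ s, ¬F.Rfl s) → ∀ H M, F.LReg H M → ∃ N X, F.Net H M N X

/-- parts G1 to G4 -/
def S_G4 : Prop := ∀ (G : Type) [Group G] [Finite G] (F : Fam G),
  F.SF → ⊥ ∉ F.s → (∀ s, ¬F.Rfl s) → ∀ H M N X, F.Net H M N X → Nat.card H ≤ 4

/-- part G5 -/
def S_G5 : Prop := ∀ (G : Type) [Group G] [Finite G] (F : Fam G),
  F.SF → ⊥ ∉ F.s → (∀ s, ¬F.Rfl s) → ∀ H M N X, F.Net H M N X → Nat.card H ≤ 4 →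
    ∃ e, F.Six H M N X e

/-- no member outside -/
def S_G6 : Prop := ∀ (G : Type) [Group G] [Finite G] (F : Fam G),
  F.SF → ⊥ ∉ F.s → (∀ s, ¬F.Rfl s) →
    (∀ H M, F.LReg H M → ∃ N X e, F.Net H M N X ∧ F.Six H M N X e) →
    ∀ H M, F.LReg H M → F.B4A

/-- part (A) -/
def S_A : Prop := ∀ (G : Type) [Group G] [Finite G] (F : Fam G),
  IH (Nat.card G) → F.Fa → F.SF → F.Rd → ⊥ ∉ F.s → (∀ s, ¬F.Rfl s) → ∃ H M, F.Reg H M

theorem Fam.Reg.least {F : Fam G} {H M : Subgroup G} (h : F.Reg H M) : ∃ H M, F.LReg H M := by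
  have ex : ∃ n, ∃ H M, F.Reg H M ∧ Nat.card H * Nat.card M = n := ⟨_, H, M, h, rfl⟩
  obtain ⟨H', M', r, e⟩ := Nat.find_spec ex
  exact ⟨H', M', r, fun H'' M'' r' => e ▸ Nat.find_min' ex ⟨H'', M'', r', rfl⟩⟩

theorem sBig_of (hR : S_R) (h4 : S_G4) (h5 : S_G5) (h6 : S_G6) (hA : S_A) : S_big :=
  fun G _ _ F ih hF h r hb h2 => by
    obtain ⟨H, M, rg⟩ := hA G F ih hF h r hb h2
    obtain ⟨H, M, lr⟩ := rg.least
    refine h6 G F h hb h2 (fun H M l => ?_) H M lr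
    obtain ⟨N, X, nt⟩ := hR G F hF h r hb h2 H M l
    obtain ⟨e, sx⟩ := h5 G F h hb h2 H M N X nt (h4 G F h hb h2 H M N X nt)
    exact ⟨N, X, e, nt, sx⟩

end Pool.Agent.Lib.MP_3cc314_lc.Cg
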