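import Pool.Agent.Lib.MP_3cc314_lc.CgRp1

set_option autoImplicit false

namespace Pool.Agent.Lib.MP_3cc314_lc.Cg
open scoped Classical

variable {G : Type} [Group G] [Finite G]

theorem gout_le {H M Q : Subgroup G} {h m : G} (a : h ∈ H) (b : m ∈ M) {S : Set G}
    (l : ∀ y, h⁻¹ * y * m⁻¹ ∈ Q → y ∉ gX H M → y ∈ S) : gout H M Q ≤ S.ncard :=
  card_tr a b Q ▸ Set.ncard_le_ncard fun y c => l y c.1 c.2

theorem gout_full {H M Q : Subgroup G} {h m : G} (a : h ∈ H) (b : m ∈ M) {S : Set G}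
    (l : ∀ y, h⁻¹ * y * m⁻¹ ∈ Q → y ∉ gX H M → y ∈ S) (c : S.ncard ≤ gout H M Q) :
    ∀ y ∈ S, h⁻¹ * y * m⁻¹ ∈ Q := fun y hy => by
  have : {y | h⁻¹ * y * m⁻¹ ∈ Q ∧ y ∉ gX H M} = S :=
    Set.eq_of_subset_of_ncard_le (fun y c => l y c.1 c.2) (card_tr a b Q ▸ c)
  exact (this ▸ hy : y ∈ {y | h⁻¹ * y * m⁻¹ ∈ Q ∧ y ∉ gX H M}).1

namespace Fam
variable {F : Fam G} {H M : Subgroup G}

/-- the tight case: one coset carries all the outside mass -/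
theorem Reg.tight (hS : F.SF) (r : F.Reg H M) {A B P : Subgroup G} (lA : A ≤ H) (lB : B ≤ M)
    (ins : ∀ Q, F.Mem Q → (Q : Set G) ⊆ gX H M → A ≤ Q ∨ B ≤ Q) (mP : F.Mem P)
    (mn : ∀ Q, F.Mem Q → ¬A ≤ Q → ¬B ≤ Q → gout H M P ≤ gout H M Q) {a b : G} (aA : a ∈ A)
    (aP : a ∉ P) (bB : b ∈ B) (bP : b ∉ P) :
    ∃ Q, F.Mem Q ∧ a ∉ Q ∧ b ∉ Q ∧ gout H M Q ≤ gout H M P ∧
      (∀ y, y ∉ gX H M → (y ∈ P ↔ a⁻¹ * y * b⁻¹ ∈ Q)) ∧
      F.Sp (fun y => f1 H M P y - tz a Q b y) ∧ (∀ y, 0 ≤ f1 H M P y - tz a Q b y) ∧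
      ∀ a' ∈ A, a' ∉ P → ∀ b' ∈ B, b' ∉ P → a⁻¹ * (a' * b') * b⁻¹ ∈ Q ∧ a' * b' ∉ P := by
  obtain ⟨Q, mQ, aQ, bQ, k, s, s0⟩ := r.key hS (r.sp1 mP) (f1_nonneg r.2.2) (fun _ => le_rfl)
    (lA aA) (lB bB) (by rw [f1_in r.2.2 (lA aA) (lB bB), if_pos ⟨aP, bP⟩]; split_ifs <;> simp)
  have l : ∀ y, a⁻¹ * y * b⁻¹ ∈ Q → y ∉ gX H M → y ∈ (P : Set G) \ gX H M := fun y c n => by
    have := k y c
    rw [f1_out n] at this
    exact ⟨by_contra fun d => by simp [show y ∉ P from d] at this, n⟩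
  have l2 := gout_full (lA aA) (lB bB) l (mn Q mQ (fun c => aQ (c aA)) fun c => bQ (c bB))
  refine ⟨Q, mQ, aQ, bQ, gout_le (lA aA) (lB bB) l,
    fun y n => ⟨fun c => l2 y ⟨c, n⟩, fun c => (l y c n).1⟩, s, s0, fun a' p p' b' q q' => ?_⟩
  have z : ¬0 < f1 H M P (a' * b') - tz a Q b (a' * b') := fun c => by
    obtain ⟨Q', m', x, y, k', -⟩ := r.key hS s s0 (fun x => sub_le_self _ (tz_nonneg _ _ _))
      (lA p) (lB q) c
    refine (ins Q' m' fun w hw => by_contra fun n => ?_).elim (fun c => x (c p)) fun c => y (c q)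
    have n' := mt (gX_tr (lA p) (lB q)).1 n
    have := k' (a' * w * b') (by simpa [mul_assoc] using hw)
    rw [f1_out n', tz] at this
    split_ifs at this with u v
    · simp at this
    · exact v (l2 _ ⟨u, n'⟩)
    · simp at this
    · simp at this
  rw [f1_in r.2.2 (lA p) (lB q), if_pos ⟨p', q'⟩, tz] at z
  split_ifs at z <;> simp_all

/-- Lemma RB -/
theorem Reg.rb (hS : F.SF) (hr : F.Rd) (r : F.Reg H M) {A B : Subgroup G} (lA : A ≤ H) (lB : B ≤ M)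
    (nB : B ≠ ⊥) (ins : ∀ Q, F.Mem Q → (Q : Set G) ⊆ gX H M → A ≤ Q ∨ B ≤ Q) :
    ∀ x ∈ A, ∀ y ∈ A, x ≠ 1 → y ≠ 1 → x = y := by
  intro x xA y yA x1 y1
  obtain ⟨⟨b0, b0B⟩, b1⟩ := Subgroup.ne_bot_iff_exists_ne_one.1 nB
  have b1 : b0 ≠ 1 := fun e => b1 (Subtype.ext e)
  have ex : ∀ a, a ≠ 1 → ∃ Q, F.Mem Q ∧ a ∉ Q ∧ ¬B ≤ Q := fun a n =>
    (hr.ex n b1).imp fun Q c => ⟨c.1, c.2.1, fun l => c.2.2 (l b0B)⟩
  obtain ⟨P, ⟨mP, nA, nB'⟩, mn⟩ := ex_least (fun Q => F.Mem Q ∧ ¬A ≤ Q ∧ ¬B ≤ Q) (gout H M)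
    ((ex x x1).imp fun Q c => ⟨c.1, fun l => c.2.1 (l xA), c.2.2⟩)
  have out : ∀ Q, F.Mem Q → ¬A ≤ Q → ¬B ≤ Q → ∃ w ∈ Q, w ∉ gX H M := fun Q m p q =>
    Set.not_subset.1 fun c => (ins Q m c).elim p q
  obtain ⟨a, aA, aP⟩ := SetLike.not_le_iff_exists.1 nA
  obtain ⟨w, wP, wX⟩ := out P mP nA nB'
  have h0 : ∀ a2 ∈ A, a2 ∈ P → a2 = 1 := fun a2 p q => by
    by_contra n
    obtain ⟨P2, ⟨m2, c2, d2⟩, mn2⟩ := ex_least (fun Q => F.Mem Q ∧ a2 ∉ Q ∧ ¬B ≤ Q) (gout H M)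
      (ex a2 n)
    obtain ⟨Z, mZ, z1, z2, z3⟩ := r.star hS mP m2
    have aZ : a2 ∉ Z := fun c => c2 (z1 _ (lA p) c).2
    obtain ⟨b, bB, bZ⟩ := SetLike.not_le_iff_exists.1 (show ¬B ≤ Z from fun l => z2.elim
      (fun c => nB' fun t ht => c t (lB ht) (l ht)) fun c => d2 fun t ht => c t (lB ht) (l ht))
    have po : ∀ {g : G → ℤ} {y : G}, y ∉ gX H M → 0 ≤ g y → 0 < f1 H M Z y - g y → y ∈ Z :=
      fun {g y} n c d => by
        rw [f1_out n] at d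
        by_contra e
        rw [if_neg e] at d
        omega
    obtain ⟨Q1, m1, x1, y1, k1, s1, t1⟩ := r.key hS (r.sp1 mZ) (f1_nonneg r.2.2) (fun _ => le_rfl)
      (lA p) (lB bB) (by rw [f1_in r.2.2 (lA p) (lB bB), if_pos ⟨aZ, bZ⟩]; split_ifs <;> simp)
    have k1' : ∀ y, a2⁻¹ * y * b⁻¹ ∈ Q1 → y ∉ gX H M → y ∈ Z := fun y c n =>
      po (g := fun _ => 0) n le_rfl (by simpa using k1 y c)
    obtain ⟨v, vQ, vX⟩ := out Q1 m1 (fun l => x1 (l p)) fun l => y1 (l bB)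
    have nq : a2⁻¹ * (a * b) * b⁻¹ ∉ Q1 := fun c => by
      have c : a2⁻¹ * a ∈ Q1 := by simpa [mul_assoc] using c
      have u1 := k1' (a2 * v * b) (by simpa [mul_assoc] using vQ) (mt (gX_tr (lA p) (lB bB)).1 vX)
      have u2 := k1' (a * v * b) (by simpa [mul_assoc] using Q1.mul_mem c vQ)
        (mt (gX_tr (lA aA) (lB bB)).1 vX)
      have u3 : a * a2⁻¹ ∈ Z := by simpa [mul_assoc] using Z.mul_mem u2 (Z.inv_mem u1)
      exact aP ((P.mul_mem_cancel_right (P.inv_mem q)).1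
        (z1 _ (H.mul_mem (lA aA) (H.inv_mem (lA p))) u3).1)
    obtain ⟨Q2, m2', x2, y2, k2, -⟩ := r.key hS s1 t1 (fun x => sub_le_self _ (tz_nonneg _ _ _))
      (lA aA) (lB bB) (by
        rw [f1_in r.2.2 (lA aA) (lB bB), if_pos ⟨fun c => aP (z1 _ (lA aA) c).1, bZ⟩, tz, if_neg nq]
        split_ifs <;> simp)
    have e1 := mn Q2 ⟨m2', fun l => x2 (l aA), fun l => y2 (l bB)⟩
    have e2 := mn2 Q1 ⟨m1, x1, fun l => y1 (l bB)⟩
    by_cases fl : ∀ z ∈ P, z ∉ gX H M → z ∈ Z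
    · exact aZ ((fill wP wX fl).1 _ (lA p) q)
    push Not at fl
    obtain ⟨z, zP, zX, zZ⟩ := fl
    have e3 := Set.ncard_union_eq (s := {y | a2⁻¹ * y * b⁻¹ ∈ Q1 ∧ y ∉ gX H M})
      (t := {y | a⁻¹ * y * b⁻¹ ∈ Q2 ∧ y ∉ gX H M}) (Set.disjoint_left.2 fun y c d => by
        have := k2 y d.1
        rw [f1_out c.2, tz, if_pos c.1] at this
        split_ifs at this <;> simp at this)
    rw [card_tr (lA p) (lB bB), card_tr (lA aA) (lB bB)] at e3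
    have e4 := Set.ncard_le_ncard (s := {y | a2⁻¹ * y * b⁻¹ ∈ Q1 ∧ y ∉ gX H M} ∪
      {y | a⁻¹ * y * b⁻¹ ∈ Q2 ∧ y ∉ gX H M})
      (t := (((P : Set G) \ gX H M) \ {z}) ∪ ((P2 : Set G) \ gX H M)) (by
        have : ∀ y ∈ Z, y ∉ gX H M →
            y ∈ (((P : Set G) \ gX H M) \ {z}) ∪ ((P2 : Set G) \ gX H M) := fun y c n =>
          (z3 y c n).imp (fun d => ⟨⟨d, n⟩, fun e => zZ (e ▸ c)⟩) fun d => ⟨d, n⟩
        rintro y (c | c)
        · exact this y (k1' y c.1 c.2) c.2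
        · exact this y (po c.2 (tz_nonneg _ _ _) (k2 y c.1)) c.2)
    have e5 := Set.ncard_union_le (((P : Set G) \ gX H M) \ {z}) ((P2 : Set G) \ gX H M)
    have e6 := Set.ncard_sdiff_singleton_add_one (s := (P : Set G) \ gX H M) (a := z) ⟨zP, zX⟩
    unfold gout at *
    omega
  obtain ⟨b, bB, bP⟩ := SetLike.not_le_iff_exists.1 nB'
  have xP : x ∉ P := fun c => x1 (h0 x xA c)
  obtain ⟨Q, -, -, -, -, k, -, -, t⟩ := r.tight hS lA lB ins mP (fun Q a b c => mn Q ⟨a, b, c⟩)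
    xA xP bB bP
  have c := (t y yA (fun c => y1 (h0 y yA c)) b bB bP).1
  have d : y * x⁻¹ * w ∈ P := (k _ (mt (gX_l (H.mul_mem (lA yA) (H.inv_mem (lA xA)))).1 wX)).2 (by
    simpa [mul_assoc] using Q.mul_mem (show x⁻¹ * y ∈ Q by simpa [mul_assoc] using c)
      ((k w wX).1 wP))
  exact (mul_inv_eq_one.1 (h0 _ (A.mul_mem yA (A.inv_mem xA))
    ((P.mul_mem_cancel_right wP).1 d))).symm

omit [Finite G] in
theorem inf_bot {P : Subgroup G} (h : ∀ x ∈ H, x ∈ P → x = 1) : P ⊓ H = ⊥ :=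
  eq_bot_iff.2 fun x c => h x c.2 c.1

theorem le_of_card {P Z : Subgroup G} (l : ∀ h ∈ H, h ∈ Z → h ∈ P)
    (c : Nat.card (P ⊓ H : Subgroup G) ≤ Nat.card (Z ⊓ H : Subgroup G)) : P ⊓ H ≤ Z :=
  (Subgroup.eq_of_le_of_card_ge (H := Z ⊓ H) (K := P ⊓ H) (fun x a => ⟨l x a.2 a.1, a.2⟩) c).ge.trans
    inf_le_left

variable (hS : F.SF) (hr : F.Rd) (hb : ⊥ ∉ F.s) (h2 : ∀ s, ¬F.Rfl s)
include hS hr hb h2

/-- an inside member with trivial trace on `H` -/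
theorem Reg.rc1 (r : F.Reg H M) :
    ∃ N, F.Mem N ∧ (N : Set G) ⊆ gX H M ∧ ¬H ≤ N ∧ ¬M ≤ N ∧ N ⊓ H = ⊥ := by
  have big : ∀ {U : Subgroup G}, F.Mem U → ¬∀ x ∈ U, ∀ y ∈ U, x ≠ 1 → y ≠ 1 → x = y := fun m c => by
    obtain ⟨x, a, y, b, p, q, n⟩ := three_le hb h2 m.1
    exact n (c x a y b p q)
  obtain ⟨P, ⟨mP, iP, p1, p2⟩, mn⟩ := ex_least (fun Q => F.Mem Q ∧ (Q : Set G) ⊆ gX H M ∧ ¬H ≤ Q ∧ ¬M ≤ Q)
    (fun Q => Nat.card (Q ⊓ H : Subgroup G)) (by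
      by_contra n
      push Not at n
      exact big r.1 (r.rb hS hr le_rfl le_rfl (fun e => hb (e ▸ r.2.1.1)) fun Q a b =>
        or_iff_not_imp_left.2 (n Q a b)))
  refine ⟨P, mP, iP, p1, p2, by_contra fun n => big r.2.1 (r.symm.rb hS hr le_rfl
    (B := P ⊓ H) inf_le_right n fun Q a b => or_iff_not_imp_left.2 fun c => ?_)⟩
  obtain ⟨Z, mZ, z1, z2, z3⟩ := r.star hS mP a
  refine le_of_card (fun h u v => (z1 h u v).1) (mn Z ⟨mZ, fun z u => by_contra fun v =>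
    (z3 z u v).elim (fun w => v (iP w)) fun w => v (ins_symm b w), fun l => p1 fun h u => (z1 h u (l u)).1,
    fun l => z2.elim (fun k => p2 fun m u => k m u (l u)) fun k => c fun m u => k m u (l u)⟩) |>
    fun l x u => (z1 x u.2 (l u)).2

/-- Lemma RC -/
theorem Reg.rc (r : F.Reg H M) :
    (∃ N, F.Mem N ∧ (N : Set G) ⊆ gX H M ∧ N ⊓ H = ⊥ ∧ N ⊓ M = ⊥) ∨
    ∃ a ∈ H, ∃ b ∈ M, a ≠ 1 ∧ b ≠ 1 ∧ (∀ Q, F.Mem Q → (Q : Set G) ⊆ gX H M → a ∈ Q ∨ b ∈ Q) ∧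
      ∃ N, F.Mem N ∧ (N : Set G) ⊆ gX H M ∧ N ⊓ H = ⊥ ∧ ∀ m ∈ M, m ∈ N → m = 1 ∨ m = b := by
  refine or_iff_not_imp_left.2 fun n => ?_
  obtain ⟨N0, ⟨m0, i0, a0, b0, c0⟩, mn0⟩ := ex_least (fun Q => F.Mem Q ∧ (Q : Set G) ⊆ gX H M ∧
    ¬H ≤ Q ∧ ¬M ≤ Q ∧ Q ⊓ H = ⊥) (fun Q => Nat.card (Q ⊓ M : Subgroup G)) (r.rc1 hS hr hb h2)
  have nB : N0 ⊓ M ≠ ⊥ := fun e => n ⟨N0, m0, i0, c0, e⟩
  obtain ⟨N1, ⟨m1, i1, a1, b1⟩, mn1⟩ := ex_least (fun Q => F.Mem Q ∧ (Q : Set G) ⊆ gX H M ∧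
    ¬H ≤ Q ∧ ¬N0 ⊓ M ≤ Q) (fun Q => Nat.card (Q ⊓ H : Subgroup G)) (by
      obtain ⟨Q, a, b, -, d, e⟩ := r.symm.rc1 hS hr hb h2
      exact ⟨Q, a, ins_symm b, d, fun l => nB (eq_bot_iff.2 fun x u => e ▸ ⟨l u, u.2⟩)⟩)
  have ins : ∀ Q, F.Mem Q → (Q : Set G) ⊆ gX H M → N1 ⊓ H ≤ Q ∨ N0 ⊓ M ≤ Q := fun Q a b =>
    or_iff_not_imp_right.2 fun c => by
      obtain ⟨Z, mZ, z1, z2, z3⟩ := r.star hS m1 a
      exact fun x u => (z1 x u.2 (le_of_card (fun h u v => (z1 h u v).1) (mn1 Z ⟨mZ,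
        fun z u => by_contra fun v => (z3 z u v).elim (fun w => v (i1 w)) fun w => v (b w),
        fun l => a1 fun h u => (z1 h u (l u)).1, fun l => z2.elim
          (fun k => b1 fun m u => k m u.2 (l u)) fun k => c fun m u => k m u.2 (l u)⟩) u)).2
  have nA : N1 ⊓ H ≠ ⊥ := fun e => by
    obtain ⟨Z, mZ, z1, z2, z3⟩ := r.star' hS m0 m1
    have t : Z ⊓ H = ⊥ := inf_bot fun x u v => z2.elim (fun k => bot_eq c0 (k x u v) u)
      fun k => bot_eq e (k x u v) u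
    exact b1 fun x u => (z1 x u.2 (le_of_card (fun h u v => (z1 h u v).1) (mn0 Z ⟨mZ,
      fun z u => by_contra fun v => (z3 z u v).elim (fun w => v (i0 w)) fun w => v (i1 w),
      fun l => hb (F.up r.1.1 fun x u => t ▸ ⟨l u, u⟩), fun l => b0 fun h u => (z1 h u (l u)).1, t⟩) u)).2
  have kA := r.rb hS hr inf_le_right inf_le_right nB ins
  have kB := r.symm.rb hS hr inf_le_right inf_le_right nA fun Q a b => (ins Q a (ins_symm b)).symm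
  obtain ⟨⟨a, aA⟩, a1⟩ := Subgroup.ne_bot_iff_exists_ne_one.1 nA
  obtain ⟨⟨b, bB⟩, b1⟩ := Subgroup.ne_bot_iff_exists_ne_one.1 nB
  have b1 : b ≠ 1 := fun e => b1 (Subtype.ext e)
  exact ⟨a, aA.2, b, bB.2, fun e => a1 (Subtype.ext e), b1,
    fun Q u v => (ins Q u v).imp (fun l => l aA) fun l => l bB, N0, m0, i0, c0,
    fun m u v => or_iff_not_imp_left.2 fun w => kB m ⟨v, u⟩ b bB w b1⟩

omit hS hr hb h2 in
theorem LReg.jj (r : F.LReg H M) {W : Subgroup G} (m : F.Mem W) (i : (W : Set G) ⊆ gX H M)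
    (e : W ⊓ H = ⊥) : F.Reg H W ∧ gX H W = gX H M ∧ Nat.card W = Nat.card M := by
  have rW : F.Reg H W := ⟨r.1.1, m, by rw [inf_comm, e]⟩
  have l : gX H W ⊆ gX H M := by
    rintro _ ⟨h, a, w, b, rfl⟩
    exact (gX_l a).2 (i b)
  have c := r.2 H W rW
  have c2 := Set.ncard_le_ncard l
  rw [card_gX rW.2.2, card_gX r.1.2.2] at c2
  exact ⟨rW, Set.eq_of_subset_of_ncard_le l (by rwa [card_gX rW.2.2, card_gX r.1.2.2]),
    Nat.eq_of_mul_eq_mul_left Nat.card_pos (le_antisymm c2 c)⟩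

/-- Lemma RD -/
theorem LReg.rd (r : F.LReg H M) :
    ∃ N, F.Mem N ∧ (N : Set G) ⊆ gX H M ∧ N ⊓ H = ⊥ ∧ N ⊓ M = ⊥ := by
  refine (r.1.rc hS hr hb h2).resolve_right ?_
  rintro ⟨a, aH, b, bM, a1, b1, ins, -⟩
  have rg := r.1
  -- out-minimal members
  let O : Subgroup G → Prop := fun P => F.Mem P ∧ a ∉ P ∧ b ∉ P ∧
    ∀ Q, F.Mem Q → a ∉ Q → b ∉ Q → gout H M P ≤ gout H M Q
  have out : ∀ P, O P → ∃ w ∈ P, w ∉ gX H M := fun P o =>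
    Set.not_subset.1 fun c => (ins P o.1 c).elim o.2.1 o.2.2.1
  have fl : ∀ P Z, O P → F.Mem Z → a ∉ Z → b ∉ Z → (∀ z ∈ Z, z ∉ gX H M → z ∈ P) →
      ∀ z ∈ P, z ∉ gX H M → z ∈ Z := fun P Z o m u v l z p q => by
    simpa using gout_full (S := (P : Set G) \ gX H M) H.one_mem M.one_mem
      (fun y c n => ⟨l y (by simpa using c) n, n⟩) (o.2.2.2 Z m u v) z ⟨p, q⟩
  have tW : ∀ P, O P → ∀ W, F.Mem W → (W : Set G) ⊆ gX H M → W ⊓ H = ⊥ →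
      ∀ x ∈ W, x ∈ P → x = 1 := fun P o W m i e => by
    obtain ⟨rW, eX, -⟩ := r.jj m i e
    have aW : ∀ Q, F.Mem Q → (Q : Set G) ⊆ gX H M → Q ⊓ H = ⊥ → b ∈ Q := fun Q u v w =>
      (ins Q u v).resolve_left fun c => a1 (bot_eq w c aH)
    rcases rW.rc hS hr hb h2 with ⟨N, p, q, s, t⟩ | ⟨-, -, b', -, -, -, -, N, p, q, s, t⟩
    · exact (b1 (bot_eq t (aW N p (eX ▸ q) s) (aW W m i e))).elim
    obtain rfl : b = b' := (t b (aW W m i e) (aW N p (eX ▸ q) s)).resolve_left b1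
    obtain ⟨Z, mZ, z1, z2, z3⟩ := rW.star' hS p o.1
    obtain ⟨w, wP, wX⟩ := out P o
    have := fl P Z o mZ (fun c => z2.elim (fun k => a1 (bot_eq s (k a aH c) aH))
      fun k => o.2.1 (k a aH c)) (fun c => o.2.2.1 (z1 b (aW W m i e) c).2)
      fun z u v => (z3 z u (eX ▸ v)).resolve_left fun c => v (eX ▸ q c)
    rw [← eX] at this wX
    exact fun x u v => (t x u (z1 x u ((fill wP wX this).2 x u v)).1).resolve_right
      fun c => o.2.2.1 (c ▸ v)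
  have tM : ∀ P, O P → ∀ x ∈ M, x ∈ P → x = 1 := fun P o =>
    tW P o M rg.2.1 (fun _ => gX_right) (by rw [inf_comm, rg.2.2])
  have tH : ∀ P, O P → ∀ x ∈ H, x ∈ P → x = 1 := fun P o => by
    rcases rg.symm.rc hS hr hb h2 with ⟨N, p, q, s, t⟩ | ⟨-, -, a', -, -, -, -, N, p, q, s, t⟩
    · exact ((ins N p (ins_symm q)).elim (fun c => a1 (bot_eq t c aH))
        fun c => b1 (bot_eq s c bM)).elim
    obtain rfl : a = a' := (t a aH ((ins N p (ins_symm q)).resolve_right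
      fun c => b1 (bot_eq s c bM))).resolve_left a1
    obtain ⟨Z, mZ, z1, z2, z3⟩ := rg.star hS p o.1
    obtain ⟨w, wP, wX⟩ := out P o
    have := fl P Z o mZ (fun c => o.2.1 (z1 a aH c).2) (fun c => z2.elim
      (fun k => b1 (bot_eq s (k b bM c) bM)) fun k => o.2.2.1 (k b bM c))
      fun z u v => (z3 z u v).resolve_left fun c => v (ins_symm q c)
    exact fun x u v => (t x u (z1 x u ((fill wP wX this).1 x u v)).1).resolve_right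
      fun c => o.2.1 (c ▸ v)
  have tg : ∀ P, O P → ∃ Q, O Q ∧ (∀ y, y ∉ gX H M → (y ∈ P ↔ a⁻¹ * y * b⁻¹ ∈ Q)) ∧
      F.Sp (fun y => f1 H M P y - tz a Q b y) ∧ (∀ y, 0 ≤ f1 H M P y - tz a Q b y) ∧ a * b ∉ P :=
    fun P o => by
      obtain ⟨Q, c1, c2, c3, c4, c5, c6, c7, c8⟩ := rg.tight hS (Subgroup.zpowers_le.2 aH)
        (Subgroup.zpowers_le.2 bM) (by simpa only [Subgroup.zpowers_le] using ins) o.1
        (by simpa only [Subgroup.zpowers_le] using o.2.2.2) (Subgroup.mem_zpowers a) o.2.1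
        (Subgroup.mem_zpowers b) o.2.2.1
      exact ⟨Q, ⟨c1, c2, c3, fun Q' u v w => c4.trans (o.2.2.2 Q' u v w)⟩, c5, c6, c7,
        (c8 a (Subgroup.mem_zpowers a) o.2.1 b (Subgroup.mem_zpowers b) o.2.2.1).2⟩
  have col : ∀ P, O P → ∀ h ∈ H, h * b ∉ P := fun P o h hH c => by
    obtain ⟨Q, oQ, k, s, s0, n⟩ := tg P o
    have hP : h ∉ P := fun d => o.2.2.1 ((P.mul_mem_cancel_left d).1 c)
    have nq : a⁻¹ * (h * b) * b⁻¹ ∉ Q := fun d => n (by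
      rwa [inv_mul_eq_one.1 (tH Q oQ _ (H.mul_mem (H.inv_mem aH) hH) (by simpa [mul_assoc] using d))])
    have e : f1 H M P (h * b) - tz a Q b (h * b) = 2 := by
      rw [f1_in rg.2.2 hH bM, if_pos ⟨hP, o.2.2.1⟩, if_pos c, tz, if_neg nq]; rfl
    have st : ∀ g : G → ℤ, F.Sp g → (∀ x, 0 ≤ g x) → (∀ x, g x ≤ f1 H M P x - tz a Q b x) →
        0 < g (h * b) → ∃ D, a ∈ D ∧ (∀ y, h⁻¹ * y * b⁻¹ ∈ D → 0 < g y) ∧
          F.Sp (fun y => g y - tz h D b y) ∧ ∀ y, 0 ≤ g y - tz h D b y := fun g u v l p => by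
      obtain ⟨D, d1, -, d3, d4, d5⟩ := rg.key hS u v
        (fun x => (l x).trans (sub_le_self _ (tz_nonneg _ _ _))) hH bM p
      refine ⟨D, (ins D d1 fun w hw => by_contra fun n => ?_).resolve_right d3, d4, d5⟩
      have n' := mt (gX_tr hH bM).1 n
      have := (d4 (h * w * b) (by simpa [mul_assoc] using hw)).trans_le (l _)
      rw [f1_out n', tz, if_congr (k _ n') rfl rfl, sub_self] at this
      exact this.false
    obtain ⟨D, d1, -, d3, d4⟩ := st _ s s0 (fun _ => le_rfl) (by rw [e]; norm_num)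
    obtain ⟨D', d1', d2', -⟩ := st _ d3 d4 (fun x => sub_le_self _ (tz_nonneg _ _ _))
      (by rw [e, tz]; split_ifs <;> norm_num)
    have := d2' (h * a * b) (by simpa [mul_assoc] using d1')
    have u : h * a * b ∉ P := fun d => a1 (by
      simpa using tH P o (h * a * h⁻¹) (H.mul_mem (H.mul_mem hH aH) (H.inv_mem hH))
        (by simpa [mul_assoc] using P.mul_mem d (P.inv_mem c)))
    have v := tz_nonneg (P := Q) a b (h * a * b)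
    rw [f1_in rg.2.2 (H.mul_mem hH aH) bM, if_neg u, tz, tz, if_pos (show h⁻¹ * (h * a * b) * b⁻¹ ∈ D by
      simpa [mul_assoc] using d1)] at this
    split_ifs at this <;> omega
  have col2 : ∀ P, O P → ∀ m ∈ M, ∀ h ∈ H, ∀ h' ∈ H, h * m ∈ P → h' * (b * m) ∉ P :=
    fun P o m mM h hH h' hH' c d => by
      have k : ∀ y, y ∈ cj h⁻¹ P ↔ h * y * m ∈ P := fun y => by
        rw [mem_cj, inv_inv, ← P.mul_mem_cancel_right c]
        simp [mul_assoc]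
      refine col (cj h⁻¹ P) ⟨o.1.cj _, fun u => a1 ?_, fun u => b1 ?_, fun Q u v w =>
        le_trans ?_ (o.2.2.2 Q u v w)⟩ (h⁻¹ * h') (H.mul_mem (H.inv_mem hH) hH')
        ((k _).2 (by simpa [mul_assoc] using d))
      · simpa using tH P o (h * a * h⁻¹) (H.mul_mem (H.mul_mem hH aH) (H.inv_mem hH))
          (by simpa using mem_cj.1 u)
      · have := tM P o (m⁻¹ * b * m) (M.mul_mem (M.mul_mem (M.inv_mem mM) bM) mM)
          (by simpa [mul_assoc] using P.mul_mem (P.inv_mem c) ((k b).1 u))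
        rw [show b = m * (m⁻¹ * b * m) * m⁻¹ by group, this]; group
      · exact gout_le hH mM fun y u v => ⟨by simpa [mul_assoc] using (k _).1 u, v⟩
  obtain ⟨P, ⟨mP, aP, bP⟩, mn⟩ := ex_least (fun Q => F.Mem Q ∧ a ∉ Q ∧ b ∉ Q) (gout H M)
    (hr.ex a1 b1)
  have o : O P := ⟨mP, aP, bP, fun Q u v w => mn Q ⟨u, v, w⟩⟩
  obtain ⟨Q, oQ, k, -⟩ := tg P o
  let f : G → ℤ := fun y => cz H M (fun m => ∃ h ∈ H, h * m ∈ P) y - iz 1 P y + tz a Q b y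
  have hf : F.Sp f := ((Sp.cz rg.1.1 _).sub (Sp.iz mP.1 1)).add (Sp.tz oQ.1.1 a b)
  have fo : ∀ y, y ∉ gX H M → f y = 0 := fun y n => by
    simp only [f, cz_out n, iz_one, tz, k y n]; ring
  have fi : ∀ h ∈ H, ∀ m ∈ M, (∀ h ∈ H, h * m ∉ P) → 0 < f (h * m) → a⁻¹ * (h * m) * b⁻¹ ∈ Q :=
    fun h u m v n p => by
      by_contra c
      simp only [f, cz_in rg.2.2 _ u v, iz_one, tz, if_neg c, if_neg (n h u)] at p
      rw [if_neg fun ⟨h, u, w⟩ => n h u w] at p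
      exact p.false
  have f0 : ∀ y, 0 ≤ f y := fun y => by
    by_cases n : y ∈ gX H M
    · obtain ⟨h, u, m, v, rfl⟩ := n
      have := tz_nonneg (P := Q) a b (h * m)
      simp only [f, cz_in rg.2.2 _ u v, iz_one]
      by_cases c : h * m ∈ P
      · rw [if_pos ⟨h, u, c⟩, if_pos c]; omega
      · rw [if_neg c]; split_ifs <;> omega
    · exact (fo y n).ge
  obtain ⟨W, mW, kW, -⟩ := hS.cos2 hf f0 (h := a) (m := b) (by
    simp only [f, cz_in rg.2.2 _ aH bM, iz_one, tz, if_neg (col P o a aH)]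
    rw [if_pos (show a⁻¹ * (a * b) * b⁻¹ ∈ Q by simp)]
    split_ifs <;> norm_num)
  have iW : (W : Set G) ⊆ gX H M := fun w u => by_contra fun n =>
    (kW w u).ne' (fo _ (mt (gX_tr aH bM).1 n))
  have eW : W ⊓ H = ⊥ := inf_bot fun x u v => tH Q oQ x u (by
    simpa [mul_assoc] using fi _ (H.mul_mem aH u) b bM (col P o) (kW x v))
  obtain ⟨m, mM, mb, n⟩ : ∃ m ∈ M, m ≠ b ∧ ∀ h ∈ H, h * m ∉ P := by
    obtain ⟨m, mM, m1, mb⟩ : ∃ m ∈ M, m ≠ 1 ∧ m ≠ b := by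
      obtain ⟨x, u, y, v, p, q, n⟩ := three_le hb h2 rg.2.1.1
      by_cases c : x = b
      exacts [⟨y, v, q, fun e => n (c.trans e.symm)⟩, ⟨x, u, p, c⟩]
    by_cases c : ∃ h ∈ H, h * m ∈ P
    · obtain ⟨h, u, c⟩ := c
      exact ⟨b * m, M.mul_mem bM mM, by simpa using m1, fun h' v => col2 P o m mM h u h' v c⟩
    · exact ⟨m, mM, mb, fun h u v => c ⟨h, u, v⟩⟩
  obtain ⟨h, hH, w, wW, e⟩ : m * b⁻¹ ∈ gX H W :=
    (r.jj mW iW eW).2.1 ▸ gX_right (M.mul_mem mM (M.inv_mem bM))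
  have e2 : a * w * b = a * h⁻¹ * m := by rw [mul_assoc a h⁻¹, ← inv_mul_cancel_left h w, e]; group
  have := fi _ (H.mul_mem aH (H.inv_mem hH)) m mM n (e2 ▸ kW w wW)
  rw [← e2] at this
  have w1 := tW Q oQ W mW iW eW w wW (by simpa [mul_assoc] using this)
  rw [w1, mul_one] at e
  exact mb (mul_inv_eq_one.1 (bot_eq rg.2.2 (e ▸ hH) (M.mul_mem mM (M.inv_mem bM))))

end Fam

theorem sR : S_R := fun G _ _ F _ hS hr hb h2 H M r => by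
  obtain ⟨N, m, i, a, b⟩ := r.rd hS hr hb h2
  obtain ⟨r1, e1, c1⟩ := r.jj m i a
  obtain ⟨r2, e2, c2⟩ := r.symm.jj m (ins_symm i) b
  have k : ∀ n ∈ N, ∀ y ∈ gX H M, n * y ∈ gX H M := fun n u y v => by
    rw [← gX_inv, ← e2, gX_inv] at v ⊢
    exact (gX_l u).2 v
  let X : Subgroup G :=
    { carrier := gX H M
      one_mem' := gX_left H.one_mem
      mul_mem' := fun {x y} u v => by
        obtain ⟨h, p, n, q, rfl⟩ : x ∈ gX H N := e1 ▸ u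
        rw [mul_assoc]
        exact (gX_l p).2 (k n q y v)
      inv_mem' := fun {x} u => by
        obtain ⟨h, p, n, q, rfl⟩ : x ∈ gX H N := e1 ▸ u
        rw [mul_inv_rev]
        exact k _ (N.inv_mem q) _ (gX_left (H.inv_mem p)) }
  refine ⟨N, X, r, r1, r2.symm, c1.symm.trans c2, c2, fun _ => gX_left, fun _ => gX_right, i, ?_⟩
  rw [← c2, c1]
  nth_rewrite 1 [← c1, c2]
  exact (Nat.card_coe_set_eq _).trans (card_gX r.1.2.2)

end Pool.Agent.Lib.MP_3cc314_lc.Cg
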