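import Pool.Agent.Lib.MP_3cc314_lc.CgSA0
import Pool.Agent.Lib.MP_3cc314_lc.CgA3t
import Pool.Agent.Lib.MP_3cc314_lc.CgAll
import Pool.Agent.Lib.MP_3cc314_lc.CgG3
import Pool.Agent.Lib.MP_3cc314_lc.CgGo
import Pool.Agent.Lib.MP_3cc314_lc.CgRp

set_option autoImplicit false

namespace Pool.Agent.Lib.MP_3cc314_lc.Cg

theorem sTwo : S_two := fun _ _ _ _ b hA => b.twoB hA

theorem sA : S_A := sA_of sTwo

theorem sBig : S_big := sBig_of' sR sOut sA

/-- compact graphs are recognised in polynomial time -/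
theorem final_all :
    ∃ A : List (List Bool) → Bool, N68a2faeb.IsPolyTime A ∧
      ∀ (n : ℕ) (G : SimpleGraph (Fin n)) [DecidableRel G.Adj],
        A (List.ofFn fun i => List.ofFn fun j => decide (G.Adj i j)) = true ↔ Compact G :=
  final_big sBig

end Pool.Agent.Lib.MP_3cc314_lc.Cg
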