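import Pool.Agent.Lib.MP_3cc314_lc.CgAS

set_option autoImplicit false

namespace Pool.Agent.Lib.MP_3cc314_lc.Cg

theorem gr4_three : ∀ M p, gr4 M p → p ≠ 0 → ∀ q, gr4 M q → q ≠ 0 → p ≠ q → ∀ r, gr4 M r →
    r ≠ 0 → p ≠ r → q ≠ r → p + q + r = 0 := by decide +kernel

open scoped Classical

variable {G : Type} [Group G]

namespace Fam
variable {F : Fam G}

theorem DT.nrm {L : Subgroup G} {T : Set G} (d : F.DT L T) {g : G} (h : ∀ s ∈ T, g⁻¹ * s * g ∈ L) :
    g ∈ Subgroup.normalizer T := by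
  have e := d.uniq (d.cj g) fun s hs => mem_cj.2 (h s hs)
  change ∀ x, x ∈ T ↔ g * x * g⁻¹ ∈ T
  intro x
  conv_rhs => rw [← e]
  simp [mul_assoc]

theorem DT.le_nrm {L : Subgroup G} {T : Set G} (d : F.DT L T) : L ≤ Subgroup.normalizer T :=
  fun _ hg => d.nrm fun _ hs => L.mul_mem (L.mul_mem (L.inv_mem hg) (d.le hs)) hg

theorem clo_normal [Finite G] (Z : Subgroup G) [n : Z.Normal] : (F.clo Z).Normal :=
  ⟨fun x hx g H m => by
    obtain ⟨l, a, b⟩ := hx _ (F.conj g⁻¹ m)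
    refine ⟨g * l * g⁻¹, n.conj_mem l a g, ?_⟩
    convert mem_cj.1 b using 1; group⟩

/-- in the round cases every element of the family contains a small one -/
theorem small (h : ⊥ ∈ F.s ∨ F.DihA ∨ F.B4A) {K : Subgroup G} (m : K ∈ F.s) : ∃ U ∈ F.s, U ≤ K ∧
    ∀ x ∈ U, ∀ y ∈ U, ∀ z ∈ U, x ≠ 1 → y ≠ 1 → z ≠ 1 → x ≠ y → x ≠ z → y ≠ z → x * y * z = 1 := by
  rcases h with a | ⟨-, T, -, h1, h2, -⟩ | a
  · exact ⟨⊥, a, bot_le, fun x hx _ _ _ _ n => (n hx).elim⟩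
  · obtain ⟨s, hs, k⟩ := h2 K m
    obtain ⟨-, ss, z⟩ := h1 s hs
    exact ⟨_, z, (Subgroup.zpowers_le).2 k, fun x hx y hy _ _ a b _ c => (c
      (((mem_zp1 ss hx).resolve_left a).trans ((mem_zp1 ss hy).resolve_left b).symm)).elim⟩
  · obtain ⟨e, E, h5, h6⟩ := a.e4
    obtain ⟨M, g, l⟩ := h6 K m
    refine ⟨_, h5 M g, l, ?_⟩
    rintro _ ⟨p, a, rfl⟩ _ ⟨q, b, rfl⟩ _ ⟨r, c, rfl⟩ x y z u v w
    rw [← E.mul, ← E.mul, E.eq_one]
    exact gr4_three M p a (mt E.eq_one.2 x) q b (mt E.eq_one.2 y) (mt (congrArg e) u) r c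
      (mt E.eq_one.2 z) (mt (congrArg e) v) (mt (congrArg e) w)

variable [Finite G]

/-- an element of the family inside a dihedral face contains all reflections -/
theorem DT.all (hA : ∀ H M, ¬F.Reg H M) {L U : Subgroup G} {T : Set G} (d : F.DT L T) (u : U ∈ F.s)
    (l : U ≤ L) {t : G} (ht : t ∈ T) : t ∈ U := by
  obtain ⟨Q, m, k⟩ := exists_mem u
  obtain ⟨W, w, -, e⟩ := d.exm ht
  by_contra n
  refine hA W Q ⟨w, m, eq_bot_iff.2 fun x hx => ?_⟩
  exact (e x hx.1 (l (k hx.2))).resolve_right fun q => n (k (q ▸ hx.2))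

theorem DT.tre {L : Subgroup G} {T : Set G} (d : F.DT L T) (r : F.Rd) :
    ∃ x ∈ T, ∃ y ∈ T, ∃ z ∈ T, x ≠ y ∧ x ≠ z ∧ y ≠ z := by
  obtain ⟨x, hx⟩ := d.some
  obtain ⟨y, hy, a, -⟩ := d.three r (d.ne hx) (d.ne hx)
  obtain ⟨z, hz, c, e⟩ := d.three r (d.ne hx) (d.ne hy)
  exact ⟨x, hx, y, hy, z, hz, a.symm, c.symm, e.symm⟩

variable (b : F.StA)
include b

/-- a proper closed subgroup over the reflections of a member -/
theorem StA.cup {K L : Subgroup G} {T : Set G} (m : F.Mem K) (d : F.DT K T) (c : F.Cl L) (n : L ≠ ⊤)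
    (l : T ⊆ L) : F.DT L T := (b.big.cl d c n l).resolve_right (b.nB K T L m d c n l)

/-- the two members of an edge do not both centralise the common reflection -/
theorem StA.ncen {K N : Subgroup G} {t : G} (m : F.Mem K) (m' : F.Mem N)
    (e : Tr N K t) (c : ∀ g ∈ K, g * t = t * g) (c' : ∀ g ∈ N, g * t = t * g) : False := by
  obtain ⟨T, d, ht⟩ := b.nb m m'.1 e
  obtain ⟨g, n⟩ := b.nc K T m d t ht
  have := b.sup m m' d e (L := Subgroup.centralizer {t})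
    (fun g h => Subgroup.mem_centralizer_singleton_iff.2 (c g h))
    fun g h => Subgroup.mem_centralizer_singleton_iff.2 (c' g h)
  exact n (Subgroup.mem_centralizer_singleton_iff.1 (this ▸ Subgroup.mem_top g))

variable (tr : F.PTr) {H : Subgroup G} {T : Set G} (mH : F.Mem H) (d : F.DT H T)
include tr mH d

/-- a normal set that meets a face inside which it lies misses the reflections -/
theorem StA.nrm_not {L : Subgroup G} (u : L ∈ F.s) (d' : F.DT L T) {S : Set G} (l : S ⊆ L)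
    (n : ∀ g, ∀ x ∈ S, g * x * g⁻¹ ∈ S) {s : G} (hs : s ∈ T) : s ∉ S := fun a => by
  obtain ⟨K, m, -, e⟩ := d'.exm hs
  obtain ⟨N, m', e', k⟩ := tr H L T s K mH d u d' hs m e
  have z : ∀ K, F.Mem K → (∀ x ∈ K, x ∈ L → x = 1 ∨ x = s) → ∀ g ∈ K, g * s = s * g :=
    fun K m e g hg => by
      have := (e _ (K.mul_mem (K.mul_mem hg (d'.mem_of m.1 e).2) (K.inv_mem hg))
        (l (n g s a))).resolve_left fun q => d.ne hs (by simpa using q)
      rw [← mul_inv_eq_iff_eq_mul, this]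
  exact b.ncen m m' k (z K m e) (z N m' e')

theorem StA.nrm_ne : Subgroup.normalizer T ≠ ⊤ := fun q => by
  obtain ⟨s, hs⟩ := d.some
  exact b.nrm_not tr mH d mH.1 d (S := T) (fun _ => d.le) (fun g x a =>
    ((q ▸ trivial : g ∈ Subgroup.normalizer T) x).1 a) hs hs

theorem StA.dt_nrm : F.DT (Subgroup.normalizer T) T :=
  b.cup mH d (cl_of_mem (F.up mH.1 d.le_nrm)) (b.nrm_ne tr mH d)
    fun _ hx => d.le_nrm (d.le hx)

/-- a member of dihedral type has a trivial core -/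
theorem StA.core {Z : Subgroup G} [Z.Normal] (l : Z ≤ H) : Z = ⊥ := by
  by_contra z0
  have n := clo_normal (F := F) Z
  have cO := cl_clo (F := F) Z
  have oH : F.clo Z ≤ H := (cl_of_mem mH.1).clo_le l
  have o0 : F.clo Z ≠ ⊥ := fun q => z0 (eq_bot_iff.2 (q ▸ le_clo Z))
  generalize F.clo Z = O at n cO oH o0
  have d' := b.dt_nrm tr mH d
  have ne := b.nrm_ne tr mH d
  have hL := d.le_nrm
  have nrm := fun g => d.nrm (g := g)
  generalize Subgroup.normalizer T = L at d' ne hL nrm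
  have uL := F.up mH.1 hL
  have sO : ∀ s ∈ T, s ∉ O := fun s hs => b.nrm_not tr mH d mH.1 d (S := O) oH
    (fun g x a => n.conj_mem x a g) hs
  have one : ¬∀ s ∈ T, ∀ s' ∈ T, s⁻¹ * s' ∈ O := fun h => ne (top_unique fun g _ => by
    obtain ⟨s, hs, k⟩ := d.cov _ (F.conj g mH.1)
    refine nrm g fun s' hs' => ?_
    have := H.mul_mem (mem_cj.1 k) (oH (n.conj_mem _ (h s hs s' hs') g⁻¹))
    convert this using 1; group)
  have dec : ∀ s, ∀ K : Subgroup G, (∀ x ∈ K, x ∈ L → x = 1 ∨ x = s) → ∀ x ∈ O ⊔ K, x ∈ L →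
      x ∉ O → x⁻¹ * s ∈ O := fun s K e x hx xL xO => by
    obtain ⟨o, ho, k, hk, rfl⟩ := Subgroup.mem_sup_of_normal_left.1 hx
    obtain rfl := (e k hk ((L.mul_mem_cancel_left (hL (oH ho))).1 xL)).resolve_left
      fun q => xO (by simpa [q] using ho)
    simpa using n.conj_mem _ (O.inv_mem ho) k⁻¹
  have top : ∀ s ∈ T, ∀ K, F.Mem K → (∀ x ∈ K, x ∈ L → x = 1 ∨ x = s) →
      ∃ T', F.DT K T' ∧ s ∈ T' ∧ F.DT (O ⊔ K) T' := fun s hs K m e => by
    obtain ⟨T', dK, a⟩ := b.nb m uL fun x a c => e x c a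
    refine ⟨T', dK, a, b.cup m dK (cl_of_mem (F.up m.1 le_sup_right)) (fun q => one ?_)
      fun x hx => (le_sup_right : K ≤ O ⊔ K) (dK.le hx)⟩
    have := fun x hx => dec s K e x (q ▸ trivial) (d'.le hx) (sO x hx)
    intro x hx y hy
    simpa [mul_assoc] using O.mul_mem (this x hx) (O.inv_mem (this y hy))
  let φ := QuotientGroup.mk' O
  have hφ := QuotientGroup.mk'_surjective O
  have fa := cO.fa
  have k1 : ∀ x, φ x = 1 ↔ x ∈ O := fun x => QuotientGroup.eq_one_iff x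
  have pu : ∀ U ∈ F.s, U.map φ ∈ (F.push φ hφ).s := fun U u => F.up u (Subgroup.le_comap_map φ U)
  have pm : ∀ U : Subgroup G, ∀ x, φ x ∈ U.map φ → x ∈ O ⊔ U := fun U x hx => by
    have : x ∈ (U.map φ).comap φ := hx
    rwa [Subgroup.comap_map_eq, QuotientGroup.ker_mk', sup_comm] at this
  by_cases r : (F.push φ hφ).Rd
  · have c : Nat.card (G ⧸ O) < Nat.card G := by
      rw [Subgroup.card_eq_card_quotient_mul_card_subgroup O]
      exact lt_mul_of_one_lt_right Nat.card_pos (O.one_lt_card_iff_ne_bot.2 o0)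
    obtain ⟨s, hs⟩ := d.some
    obtain ⟨K, m, -, e⟩ := d'.exm hs
    obtain ⟨T', dK, -, dW⟩ := top s hs K m e
    have oK : ∀ x ∈ K, φ x = 1 → x = 1 := fun x hx q =>
      (e x hx (hL (oH ((k1 x).1 q)))).resolve_right fun a => sO s hs (a ▸ (k1 x).1 q)
    have inj : ∀ x ∈ T', ∀ y ∈ T', φ x = φ y → x = y := fun x hx y hy q => inv_mul_eq_one.1
      (oK _ (K.mul_mem (K.inv_mem (dK.le hx)) (dK.le hy)) (by rw [map_mul, map_inv, q, inv_mul_cancel]))
    obtain ⟨U, u, a, z⟩ := small (round_cases b.big.ih c fa (b.big.sf.push φ hφ) r) (pu K m.1)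
    have al : ∀ x ∈ T', φ x ∈ U := fun x hx =>
      dW.all b.na (U := U.comap φ) u (fun y hy => pm K y (a hy)) hx
    have n1 : ∀ x ∈ T', φ x ≠ 1 := fun x hx q => dK.ne hx (oK x (dK.le hx) q)
    obtain ⟨x, hx, y, hy, w, hw, c1, c2, c3⟩ := dK.tre b.big.rd
    refine n1 _ (dK.tri x hx y hy w hw) ?_
    rw [map_mul, map_mul]
    exact z _ (al x hx) _ (al y hy) _ (al w hw) (n1 x hx) (n1 y hy) (n1 w hw) (mt (inj x hx y hy) c1)
      (mt (inj x hx w hw) c2) (mt (inj y hy w hw) c3)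
  have P : ∀ x y, φ x ≠ 1 → φ y ≠ 1 → (F.push φ hφ).dj (φ x) (φ y) → x ∈ H →
      ∀ s ∈ T, x⁻¹ * s ∈ O ∨ y⁻¹ * s ∈ O := fun x y x1 y1 j xH => by
    have yK : ∀ s, x⁻¹ * s ∉ O → ∀ K, F.Mem K → (∀ x ∈ K, x ∈ L → x = 1 ∨ x = s) → y ∈ O ⊔ K :=
      fun s a K m e => pm K y ((j _ (pu K m.1)).resolve_left fun c =>
        a (dec s K e x (pm K x c) (hL xH) (mt (k1 x).2 x1)))
    have yL : y ∈ L := nrm y fun s hs => by
      by_cases a : x⁻¹ * s ∈ O
      · have c : x⁻¹ * y⁻¹ * x * y ∈ O := (k1 _).1 (by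
          simp only [map_mul, map_inv]
          rw [mul_assoc, fa.comm j]; group)
        have := H.mul_mem (H.mul_mem xH (oH c)) (oH (n.conj_mem _ a y⁻¹))
        convert this using 1; group
      · obtain ⟨K, m, -, e⟩ := d'.exm hs
        obtain ⟨N, m', e', k⟩ := tr H L T s K mH d uL d' hs m e
        have z : ∀ K, F.Mem K → (∀ x ∈ K, x ∈ L → x = 1 ∨ x = s) → y⁻¹ * s * y ∈ K :=
          fun K m e => by
            obtain ⟨T', dK, c, dW⟩ := top s hs K m e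
            simpa using dK.le (dW.cjm (Subgroup.inv_mem _ (yK s a K m e)) c)
        rcases k _ (z N m' e') (z K m e) with q | q
        exacts [q ▸ H.one_mem, q.symm ▸ d.le hs]
    intro s hs
    refine or_iff_not_imp_left.2 fun a => ?_
    obtain ⟨K, m, -, e⟩ := d'.exm hs
    exact dec s K e y (yK s a K m e) yL (mt (k1 y).2 y1)
  have P' : ∀ x y, φ x ≠ 1 → φ y ≠ 1 → (F.push φ hφ).dj (φ x) (φ y) →
      ∀ s ∈ T, x⁻¹ * s ∈ O ∨ y⁻¹ * s ∈ O := fun x y x1 y1 j => by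
    have e : O ⊔ H = H := sup_eq_right.2 oH
    rcases j _ (pu H mH.1) with a | a
    · exact P x y x1 y1 j (e ▸ pm H x a)
    · exact fun s hs => (P y x y1 x1 j.symm (e ▸ pm H y a) s hs).symm
  simp only [Rd, not_forall, not_or] at r
  obtain ⟨x, y, j, x1, y1⟩ := r
  obtain ⟨x, rfl⟩ : ∃ a, φ a = x := hφ x
  obtain ⟨y, rfl⟩ : ∃ a, φ a = y := hφ y
  have two : ∀ x y : G, (∀ s ∈ T, x⁻¹ * s ∈ O ∨ y⁻¹ * s ∈ O) → y ∈ H := fun x y h => by
    by_contra a
    have k : ∀ s ∈ T, x⁻¹ * s ∈ O := fun s hs => (h s hs).resolve_right fun c =>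
      a (H.inv_mem_iff.1 ((H.mul_mem_cancel_right (d.le hs)).1 (oH c)))
    exact one fun s hs s' hs' => by
      simpa [mul_assoc] using O.mul_mem (O.inv_mem (k s hs)) (k s' hs')
  have yH := two x y (P' x y x1 y1 j)
  have xH := two y x fun s hs => (P' x y x1 y1 j s hs).symm
  refine ne (top_unique fun g _ => nrm g fun s hs => ?_)
  have w : ∀ x ∈ H, (g * x * g⁻¹)⁻¹ * s ∈ O → g⁻¹ * s * g ∈ H := fun x hx a => by
    have := H.mul_mem hx (oH (n.conj_mem _ a g⁻¹))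
    convert this using 1; group
  exact (P' (g * x * g⁻¹) (g * y * g⁻¹) (by simpa [-QuotientGroup.mk'_apply] using x1)
    (by simpa [-QuotientGroup.mk'_apply] using y1)
    (by simpa only [map_mul, map_inv] using j.conj (φ g)) s hs).elim (w x xH) (w y yH)

/-- rotation groups of different faces meet trivially -/
theorem StA.ti {L : Subgroup G} {T' : Set G} (d' : F.DT L T') {a : G} (h : a ∈ rot T)
    (h' : a ∈ rot T') (n : a ≠ 1) : T = T' := by
  have k : ∀ {L T}, F.DT L T → a ∈ rot T → T ⊆ F.clo (Subgroup.centralizer {a}) :=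
    fun d h s hs U u => by
      obtain ⟨t, ht, c⟩ := d.cov U u
      refine ⟨s * t, Subgroup.mem_centralizer_singleton_iff.2 (d.comm (d.mul_rot hs ht) h), ?_⟩
      rwa [mul_inv_rev, inv_mul_cancel_right, d.inv ht]
  by_cases c : F.clo (Subgroup.centralizer {a}) = ⊤
  · refine (n (Subgroup.mem_bot.1 (b.core tr mH d H.normalCore_le ▸ fun g => ?_))).elim
    obtain ⟨l, hl, e⟩ := (c ▸ trivial : g⁻¹ ∈ F.clo (Subgroup.centralizer {a})) H mH.1
    have := H.mul_mem (H.mul_mem (H.inv_mem e) (d.rot_le h)) e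
    rw [show (l⁻¹ * g⁻¹)⁻¹ * a * (l⁻¹ * g⁻¹) = g * (l * a) * l⁻¹ * g⁻¹ by group,
      Subgroup.mem_centralizer_singleton_iff.1 hl] at this
    simpa [mul_assoc] using this
  · exact d'.uniq (b.cup mH d (cl_clo _) c (k d h)) (k d' h')

omit mH d in
theorem StA.pti (u : F.PU) : F.PTI := fun H K T _ m m' d d' n _ h h' => by
  by_contra c
  obtain rfl := b.ti tr m d d' h h' c
  exact n (u H K T m m' d fun _ => d'.le).symm

end Fam

end Pool.Agent.Lib.MP_3cc314_lc.Cg
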