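import Pool.Agent.Lib.MP_3cc314_lc.CgTr
import Pool.Agent.Lib.MP_3cc314_lc.CgAS

set_option autoImplicit false

namespace Pool.Agent.Lib.MP_3cc314_lc.Cg

theorem Fam.StA.ptr {G : Type} [Group G] [Finite G] {F : Fam G} (s : F.StA) : F.PTr :=
  fun H _ T _ _ mH dH hL d ht mK e =>
    s.big.triple s.na hL d (fun L' => s.nB H T L' mH dH) ht mK.1 e

end Pool.Agent.Lib.MP_3cc314_lc.Cg
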