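import Pool.Agent.Lib.MP_3cc314_lc.CgA3b
import Pool.Agent.Lib.MP_3cc314_lc.CgA3c
import Pool.Agent.Lib.MP_3cc314_lc.CgAE
import Pool.Agent.Lib.MP_3cc314_lc.CgAN2
import Pool.Agent.Lib.MP_3cc314_lc.CgAU
import Pool.Agent.Lib.MP_3cc314_lc.CgTI
import Pool.Agent.Lib.MP_3cc314_lc.CgTrS

set_option autoImplicit false

namespace Pool.Agent.Lib.MP_3cc314_lc.Cg

/-- groups of exponent two have a regular pair -/
def S_two : Prop := ∀ (G : Type) [Group G] [Finite G] (F : Fam G), F.Big → (∀ H M, ¬F.Reg H M) →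
  ¬∀ g : G, g * g = 1

/-- part (A) from the case of exponent two -/
theorem sA_of (two : S_two) : S_A := fun G _ _ F ih fa sf rd nb nr => by
  by_contra n
  have hA : ∀ H M, ¬F.Reg H M := fun H M r => n ⟨H, M, r⟩
  have b : F.Big := ⟨ih, fa, sf, rd, nb, nr⟩
  have h2 := two G F b hA
  have k := b.nB hA h2
  have s : F.StA := ⟨b, hA, k, fun H T m d t a => b.nc hA m d (fun L => k H T L m d) a⟩
  obtain ⟨H, T, m, d⟩ := b.exDT hA h2
  have i := s.pti s.ptr (s.pu s.ptr)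
  exact Fam.endA s s.ptr i (s.pne s.ptr i) m d

end Pool.Agent.Lib.MP_3cc314_lc.Cg
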