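import Pool.Agent.Lib.MP_3cc314_lc.CgBas

set_option autoImplicit false

namespace Pool.Agent.Lib.MP_3cc314_lc.Cg
open scoped Classical

section grp
variable {G : Type} [Group G]

namespace Fam
variable (F : Fam G)

/-- property (*) -/
def Star (A : Subgroup G) : Prop :=
  ∀ N C : Subgroup G, N ≠ ⊥ → F.Dj N C → N ≤ A → A ≤ N ⊔ C → C ≤ A

/-- `N` is a closed subgroup whose support is a block and whose product with its fixer is visible -/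
structure Blk (N : Subgroup G) : Prop where
  ne : N ≠ ⊥
  cl : F.Gal (F.Gal N) = N
  vis : N ⊔ F.Gal N ∈ F.s
  blk : ∀ g, cj g N = N ∨ cj g N ≤ F.Gal N

/-- minimality among the closed visible subgroups -/
def MinV (N : Subgroup G) : Prop :=
  ∀ N' : Subgroup G, N' ≤ N → N' ≠ ⊥ → F.Gal (F.Gal N') = N' → N' ⊔ F.Gal N' ∈ F.s → N' = N

/-- extremal decomposable pair: order maximal, then first factor minimal -/
structure Ext (A B : Subgroup G) : Prop where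
  a : A ≠ ⊥
  b : B ≠ ⊥
  dj : F.Dj A B
  mx : ∀ X Y : Subgroup G, X ≠ ⊥ → Y ≠ ⊥ → F.Dj X Y →
    Nat.card X * Nat.card Y ≤ Nat.card A * Nat.card B
  mn : ∀ X Y : Subgroup G, X ≠ ⊥ → Y ≠ ⊥ → F.Dj X Y →
    Nat.card X * Nat.card Y = Nat.card A * Nat.card B → Nat.card A ≤ Nat.card X

/-- a special member -/
def Spc (A B H : Subgroup G) : Prop :=
  F.Mem H ∧ ¬A ≤ H ∧ H ⊓ Subgroup.normalizer (A : Set G) ≤ A ⊔ B

/-- the exceptional configuration -/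
structure Exc (A B : Subgroup G) (H : Fin 3 → Subgroup G) (s : Fin 3 → G) : Prop where
  mem : ∀ i, F.Mem (H i)
  nle : ∀ i, ¬A ≤ H i
  sH : ∀ i, s i ∈ H i
  sL : ∀ i, s i ∈ Subgroup.normalizer (A : Set G)
  sM : ∀ i, s i ∉ A ⊔ B
  tr : ∀ i, ∀ x ∈ H i, x ∈ Subgroup.normalizer (A : Set G) → x ∈ A ⊔ B ∨ (s i)⁻¹ * x ∈ A ⊔ B
  pr : s 0 * s 1 * s 2 ∈ A ⊔ B
  inv : ∀ i, ∀ a ∈ A, cj a (H i) ⊓ Subgroup.normalizer (A : Set G) =
    H i ⊓ Subgroup.normalizer (A : Set G)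
  two : ∀ i j, i ≠ j → A ⊓ H i ⊓ H j = ⊥
  typ : (∃ i, A ⊓ H i ≠ ⊥) ∨ (Nat.card A = 2 ∧ s 0 * s 1 * s 2 ∉ B)

instance normal_Gal (N : Subgroup G) :
    ((F.Gal N).subgroupOf (Subgroup.normalizer (N : Set G))).Normal :=
  ⟨fun x hx g => by
    rw [Subgroup.mem_subgroupOf] at hx ⊢
    rw [← cj_eq_iff.2 (norm_le_norm_Gal (F := F) N g.2)]
    exact (conj_mem_cj g.1).2 hx⟩

/-- the leaf family on the normaliser of `N`: the traces that contain the fixer of the support -/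
def leaf (N : Subgroup G) : Fam (Subgroup.normalizer (N : Set G)) :=
  (F.pull _).ov ((F.Gal N).subgroupOf (Subgroup.normalizer (N : Set G)))

end Fam

/-- factorisation into indecomposables, L2 and L3 -/
def S_ind : Prop := ∀ (G : Type) [Group G] [Finite G] (F : Fam G), F.Fa →
  (∀ g : G, ∃ l : List G, l.prod = g ∧ (∀ c ∈ l, F.Ind c) ∧ l.Pairwise F.dj) ∧
  (F.SF → ∀ x y a b : G, F.Ind x → F.Ind y → F.dj x y → x * y = a * b → F.dj a b →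
    a = 1 ∨ a = x ∨ a = y ∨ a = x * y) ∧
  ∀ X Y : Set G, (∀ c ∈ X, F.Ind c) → (∀ c ∈ Y, F.Ind c) →
    (∀ c ∈ X, ∀ c' ∈ Y, ∃ d ∈ X, ∃ d' ∈ Y, ∃ e, c * c' = d * d' * e ∧ F.dj d d' ∧ F.dj d e ∧ F.dj d' e) →
    ∀ c ∈ X, ∀ c' ∈ Y, F.dj c c'

/-- L7 -/
def S_sl : Prop := ∀ (G T : Type) [Group G] [Finite G] [Group T] (F : Fam G) (ψ : G →* T)
  (hψ : Function.Surjective ψ), F.Fa → ψ.ker ≠ ⊥ → F.Star ψ.ker → (F.push ψ hψ).Fa →
  (F.push ψ hψ).SF → ∀ x y : T, (F.push ψ hψ).Ind x → (F.push ψ hψ).Ind y → (F.push ψ hψ).dj x y →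
  ∃ g, ψ g = x * y ∧ F.Ind g

/-- L4 -/
def S_blk : Prop := ∀ (G : Type) [Group G] [Finite G] (F : Fam G), F.Fa → F.Dec →
  ∃ N, F.Blk N ∧ F.Gal N ≠ ⊥ ∧ F.MinV N

/-- L5; `φ` is the quotient map by the normal closure of `N` -/
def S_lift : Prop := ∀ (G Q : Type) [Group G] [Finite G] [Group Q] (F : Fam G) (N : Subgroup G)
  (φ : G →* Q) (hφ : Function.Surjective φ), F.Fa → F.Blk N →
  φ.ker = Subgroup.normalClosure (N : Set G) →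
  (F.push φ hφ).Fa ∧ φ.ker ≤ N ⊔ F.Gal N ∧
  ∀ X Y : Subgroup Q, (F.push φ hφ).Dj X Y →
    ∃ X' Y' : Subgroup G, F.Dj X' Y' ∧ X'.map φ = X ∧ Y'.map φ = Y ∧ φ.ker ≤ X' ⊔ Y'

/-- L6 -/
def S_glue : Prop := ∀ (G ι : Type) [Group G] [Finite G] [Fintype ι] [Nonempty ι] (F : Fam G)
  (A B : Subgroup G) [A.Normal] [B.Normal], F.SF → F.Dj A B → ∀ g h : ι → G,
  (∀ U ∈ F.s, A ⊔ B ≤ U → ∀ x, ∑ i, ind x U (g i) = ∑ i, ind x U (h i)) →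
  ∃ z, (∀ U ∈ F.s, B ≤ U → ∃ i, z⁻¹ * g i ∈ U) ∧ ∀ U ∈ F.s, A ≤ U → ∃ i, z⁻¹ * h i ∈ U

/-- the two sides of the minimal relation in an atom -/
structure Rel {T : Type} [Group T] (F : Fam T) (P Q : Finset T) : Prop where
  two : ∃ p ∈ P, ∃ p' ∈ P, p ≠ p'
  gen : ∀ p ∈ P, ∀ V : Subgroup T, (∀ H, F.Mem H → H ≤ V) → p ∈ V
  prv : ∀ q ∈ Q, ∀ p ∈ P, ∃ U ∈ F.s, ∀ p' ∈ P, q⁻¹ * p' ∈ U → p' = p
  cls : ∀ z : T, (∀ U ∈ F.s, ∃ p ∈ P, z⁻¹ * p ∈ U) → z ∈ P ∨ z ∈ Q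

/-- facts about atoms: they are round or not, and contain a relation -/
def S_atom : Prop := ∀ (T : Type) [Group T] [Finite T] (F : Fam T), F.Fa →
  (F.SymA → ¬F.Rd) ∧ (F.DihA ∨ F.B4A → ⊥ ∉ F.s ∧ F.Rd ∧
    ∃ P Q : Finset T, Disjoint P Q ∧ P.card = Q.card ∧ Rel F P Q ∧ Rel F Q P ∧
      ∀ U ∈ F.s, ∀ x, ∑ p ∈ P, ind x U p = ∑ q ∈ Q, ind x U q)

/-- L8 -/
def S_det : Prop := ∀ (n : ℕ), IH n → ∀ (T : Type) [Group T] (E : Fam T) (P Q : Finset T),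
  E.Fa → E.DihA ∨ E.B4A → Rel E P Q →
  ∀ (G : Type) [Group G] [Finite G] (F : Fam G) (ψ : G →* T) (hψ : Function.Surjective ψ),
    Nat.card G < n → F.Fa → F.SF → ψ.ker ≠ ⊥ → F.Star ψ.ker → (F.push ψ hψ).s = E.s →
    ∃ g : T → G, (∀ p, ψ (g p) = p) ∧ ∀ z, ψ z ∈ Q → ∃ U ∈ F.s, ∀ p ∈ P, z⁻¹ * g p ∉ U

/-- L9 -/
def S_cp : Prop := ∀ (G : Type) [Group G] [Finite G] (F : Fam G) (A B : Subgroup G),
  IH (Nat.card G) → F.Fa → F.SF → F.Ext A B →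
  ∃ H ∈ F.s, H ⊓ Subgroup.normalizer (A : Set G) ≤ A ⊔ B

/-- M0 and M1 -/
def S_m1 : Prop := ∀ (G : Type) [Group G] [Finite G] (F : Fam G), F.Fa →
  (¬F.Rd → ∃ A B, F.Ext A B) ∧ ∀ A B, F.Ext A B →
    F.Gal A = B ∧ F.Gal B = A ∧ (∀ g, F.Ext (cj g A) (cj g B)) ∧
    (∀ X Y : Subgroup G, X ≠ ⊥ → Y ≠ ⊥ → F.Dj X Y → A ⊔ B ≤ X ⊔ Y → X ⊔ Y ≤ A ⊔ B) ∧
    ∀ A' B', F.Ext A' B' → A' ≠ A → A ⊓ A' = ⊥ ∧ (A' ≤ B ∨ (A ⊓ B' = ⊥ ∧ A' ⊓ B = ⊥))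

/-- M2 -/
def S_m2 : Prop := ∀ (G : Type) [Group G] [Finite G] (F : Fam G) (A B : Subgroup G),
  IH (Nat.card G) → F.Fa → F.SF → F.Ext A B → (∃ H, F.Spc A B H) ∨ ∃ H s, F.Exc A B H s

/-- M3 - M6 -/
def S_m6 : Prop := ∀ (G : Type) [Group G] [Finite G] (F : Fam G) (A B : Subgroup G),
  F.Fa → F.SF → F.Ext A B → ((∃ H, F.Spc A B H) ∨ ∃ H s, F.Exc A B H s) → A ⊔ B ∈ F.s ∨ F.SymA

/-- M-ROUND -/
def S_round : Prop := ∀ (G : Type) [Group G] [Finite G] (F : Fam G),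
  IH (Nat.card G) → F.Fa → F.SF → F.Rd → ⊥ ∈ F.s ∨ F.DihA ∨ F.B4A

/-- the structure theorem -/
def S_T : Prop := ∀ n, IH n

theorem sT_of (h1 : S_m1) (h2 : S_m2) (h6 : S_m6) (hr : S_round) : S_T := by
  intro n
  induction n with
  | zero => exact fun G _ _ F h => absurd h (Nat.not_lt_zero _)
  | succ n ih =>
    intro G _ _ F h hF hS
    have ih' : IH (Nat.card G) := fun G' _ _ F' h' => ih G' F' (by omega)
    by_cases r : F.Rd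
    · rcases hr G F ih' hF hS r with a | a | a
      exacts [.inl a, .inr (.inr (.inl a)), .inr (.inr (.inr (.inl a)))]
    · obtain ⟨A, B, e⟩ := (h1 G F hF).1 r
      rcases h6 G F A B hF hS e (h2 G F A B ih' hF hS e) with a | a
      exacts [.inr (.inr (.inr (.inr ⟨A, B, e.a, e.b, e.dj, a⟩))), .inr (.inl a)]

/-- D3: gluing of a leaf (no faithfulness needed) -/
def S_d3 : Prop := ∀ (G : Type) [Group G] [Finite G] (F : Fam G) (N : Subgroup G),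
  N ⊔ F.Gal N ∈ F.s → (∀ g, cj g N = N ∨ cj g N ≤ F.Gal N) → (F.leaf N).SF →
  (F.ov (Subgroup.normalClosure (N : Set G))).SF → F.SF

/-- the atoms are compact (no faithfulness needed for the symmetric group) -/
def S_sound : Prop := ∀ (G : Type) [Group G] [Finite G] (F : Fam G),
  (⊥ ∈ F.s → F.SF) ∧ (F.DihA → F.SF) ∧ (F.B4A → F.SF) ∧
  ∀ (ι : Type) [Finite ι] (L : Subgroup G) (π : L →* Equiv.Perm ι) (H : ι → Subgroup G),
    Function.Surjective π → (∀ i, H i ∈ F.s) → (∀ i g, g ∈ H i ↔ ∃ h : g ∈ L, π ⟨g, h⟩ i = i) →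
    (∀ U ∈ F.s, ∃ i, H i ≤ U) → F.SF

end grp

section act
variable (G : Type) {Ω : Type} [Group G] [MulAction G Ω]

/-- the family of a permutation representation -/
def St (Ω : Type) [MulAction G Ω] : Fam G where
  s := {U | U = ⊤ ∨ ∃ u : Ω, MulAction.stabilizer G u ≤ U}
  up := by
    rintro H U (rfl | ⟨u, h⟩) l
    exacts [.inl (top_unique l), .inr ⟨u, h.trans l⟩]
  conj := by
    rintro g H (rfl | ⟨u, h⟩)
    · exact .inl (cj_top g)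
    · refine .inr ⟨g • u, fun x hx => mem_cj.2 (h ?_)⟩
      rw [MulAction.mem_stabilizer_iff] at hx ⊢
      rw [mul_smul, mul_smul, hx, inv_smul_smul]
  top := .inl rfl

variable {G}

/-- `g` and `h` agree on `S` -/
def eqS (S : Set Ω) (g h : G) : Prop := ∀ a ∈ S, g • a = h • a

/-- `n` fixes the complement of `S` -/
def inN (S : Set Ω) (n : G) : Prop := ∀ a, a ∉ S → n • a = a

/-- `g` preserves `S` -/
def inL (S : Set Ω) (g : G) : Prop := ∀ a ∈ S, g • a ∈ S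

/-- a point stabiliser or the group `N` consists of elements with property `X` -/
def InF (S : Set Ω) (X : G → Prop) : Prop :=
  (∃ w ∈ S, ∀ g : G, g • w = w → X g) ∨ ∀ g : G, inN S g → X g

def Rf (S : Set Ω) (s : G) : Prop :=
  inL S s ∧ ¬eqS S s 1 ∧ eqS S (s * s) 1 ∧ InF S fun g : G => eqS S g 1 ∨ eqS S g s

variable (G)

def BlkL (S : Set Ω) : Prop :=
  (∀ g : G, ∀ u ∈ S, g • u ∈ S → inL S g) ∧ S.Nonempty ∧ ∀ a ∈ S, ∃ n : G, inN S n ∧ n • a ≠ a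

def VisL (S : Set Ω) : Prop := ∃ w : Ω, ∀ g : G, g • w = w → ∃ n : G, inN S n ∧ eqS S g n

def BaseL (S : Set Ω) (u u' : Ω) : Prop :=
  u ∈ S ∧ u' ∈ S ∧ ∀ g : G, g • u = u → g • u' = u' → eqS S g 1

def RegL (S : Set Ω) : Prop := ∃ u ∈ S, ∀ g : G, g • u = u → eqS S g 1

def DihL (S : Set Ω) : Prop :=
  (∀ w ∈ S, ∃ s : G, Rf S s ∧ s • w = w) ∧ (∃ s : G, inN S s ∧ Rf S s) ∧
    ∀ s t u : G, Rf S s → Rf S t → Rf S u → Rf S (s * t * u)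

def B4L (S : Set Ω) : Prop :=
  ∃ r c : V4 → G, (∀ i, inL S (r i) ∧ inL S (c i)) ∧ (∀ i j, eqS S (r (i + j)) (r i * r j)) ∧
    (∀ i j, eqS S (c (i + j)) (c i * c j)) ∧ (∀ i j, eqS S (r i * c j) (c j * r i)) ∧
    (∀ i j, eqS S (r i * c j) 1 → i = 0 ∧ j = 0) ∧
    (∀ σ : V4 → V4, Function.Injective σ → σ 0 = 0 →
      InF S fun g : G => ∃ i, eqS S g (r i * c (σ i))) ∧
    (∀ w ∈ S, ∃ σ : V4 → V4, Function.Injective σ ∧ σ 0 = 0 ∧ ∀ i, (r i * c (σ i)) • w = w) ∧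
    ∃ σ : V4 → V4, Function.Injective σ ∧ σ 0 = 0 ∧ ∀ i, ∃ n : G, inN S n ∧ eqS S n (r i * c (σ i))

def SymL (S O : Set Ω) : Prop :=
  O ⊆ S ∧ (∀ v ∈ O, ∀ g : G, g • v = v → inL O g) ∧
    (∀ g : G, eqS O g 1 → eqS S g 1) ∧
    (∀ a ∈ O, ∀ b ∈ O, a ≠ b → ∃ n : G, inN S n ∧ n • a = b ∧ n • b = a ∧
      ∀ w ∈ O, w ≠ a → w ≠ b → n • w = w) ∧
    ∀ w ∈ S, ∃ v ∈ O, ∀ g : G, g • v = v → g • w = w

/-- `S` is a leaf -/
def Lf (S : Set Ω) : Prop :=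
  BlkL G S ∧ ((∃ O, SymL G S O) ∨ (VisL G S ∧ (RegL G S ∨ DihL G S ∨ B4L G S)))

/-- the orbit relation of the normal closure of `N` -/
def rel (S : Set Ω) (u v : Ω) : Prop :=
  u = v ∨ ∃ a ∈ S, ∃ b ∈ S, (∃ n : G, inN S n ∧ n • a = b) ∧ ∃ g : G, g • a = u ∧ g • b = v

/-- the points moved by the fixer of `B` -/
def mov (B : Set Ω) : Set Ω := {x | ∃ c : G, eqS B c 1 ∧ c • x ≠ x}

def orbS (u u' : Ω) : Set Ω := {a | a = u' ∨ ∃ g : G, g • u' = u' ∧ g • u = a}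

/-- peeling a leaf -/
def S_peel : Prop := ∀ (G Ω Ω' : Type) [Group G] [Finite G] [Finite Ω] [MulAction G Ω]
  [MulAction G Ω'] (S : Set Ω), Lf G S →
  Equivalence (rel G S) ∧ (∀ (g : G) u v, rel G S u v → rel G S (g • u) (g • v)) ∧
  (∃ u v, u ≠ v ∧ rel G S u v) ∧
  ∀ κ : Ω → Ω', Function.Surjective κ → (∀ (g : G) u, κ (g • u) = g • κ u) →
    (∀ u v, κ u = κ v ↔ rel G S u v) → ((St G Ω).SF ↔ (St G Ω').SF)

/-- existence of a leaf -/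
def S_leaf : Prop := ∀ (G Ω : Type) [Group G] [Finite G] [Finite Ω] [MulAction G Ω],
  (St G Ω).SF → (∃ (g : G) (a : Ω), g • a ≠ a) → ∃ u u' : Ω,
    (BlkL G (mov G (mov G {u, u'})) ∧ BaseL G (mov G (mov G {u, u'})) u u' ∧
      VisL G (mov G (mov G {u, u'})) ∧ (RegL G (mov G (mov G {u, u'})) ∨
        DihL G (mov G (mov G {u, u'})) ∨ B4L G (mov G (mov G {u, u'})))) ∨
    (BlkL G (mov G (mov G (orbS G u u'))) ∧ SymL G (mov G (mov G (orbS G u u'))) (orbS G u u'))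

end act

end Pool.Agent.Lib.MP_3cc314_lc.Cg
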