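import Pool.Agent.Lib.MP_3cc314_lc.CgAlg

set_option autoImplicit false

namespace Pool.Agent.Lib.MP_3cc314_lc.Cg
open Pool.Agent.Lib.Complexity

/-- a group element fixes the set `T` and maps three given points to three given points -/
def Ee (G : Type) {Ω : Type} [Group G] [MulAction G Ω] (T : Ω → Prop) (a b c a' b' c' : Ω) : Prop :=
  ∃ g : G, (∀ x, T x → g • x = x) ∧ g • a = a' ∧ g • b = b' ∧ g • c = c'

/-- a graph with an invariant partition and two vertices -/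
structure Cx where
  n : ℕ
  G : SimpleGraph (Fin n)
  d : DecidableRel G.Adj
  p : List ℕ
  h : Inv G p
  a : Fin n
  b : Fin n

instance (c : Cx) : DecidableRel c.G.Adj := c.d

abbrev Cx.Ω (c : Cx) : Type := Qt c.h
abbrev Cx.Γ (c : Cx) : Type := c.G ≃g c.G
def Cx.u (c : Cx) : c.Ω := qt c.h c.a
def Cx.w (c : Cx) : c.Ω := qt c.h c.b

abbrev Ky : Type := (Mx × List ℕ × ℕ × ℕ) × List ℕ

def Cx.code (c : Cx) : Mx × List ℕ × ℕ × ℕ := (rows c.G, c.p, c.a, c.b)

/-- properties that are decided correctly whenever the flag is set, the flag being set on compact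
graphs -/
def PD (P : ∀ c : Cx, (ℕ → c.Ω) → Prop) : Prop :=
  ∃ y d : Ky → Bool, PT y ∧ PT d ∧ ∀ (c : Cx) (l : List ℕ) (v : ℕ → Fin c.n),
    (∀ i, l.getD i 0 = v i) → (d (c.code, l) = true → (y (c.code, l) = true ↔
      P c fun i => qt c.h (v i))) ∧ (Compact c.G → d (c.code, l) = true)

/-- computable points -/
def PV (t : ∀ c : Cx, (ℕ → c.Ω) → c.Ω) : Prop :=
  ∃ f : Ky → ℕ, PT f ∧ ∀ (c : Cx) (l : List ℕ) (v : ℕ → Fin c.n), (∀ i, l.getD i 0 = v i) →
    ∃ x : Fin c.n, f (c.code, l) = x ∧ qt c.h x = t c fun i => qt c.h (v i)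

theorem PV.var (i : ℕ) : PV fun _ e => e i :=
  ⟨fun k => k.2.getD i 0, by fun_prop, fun _ _ v h => ⟨v i, h i, rfl⟩⟩

theorem PV.u : PV fun c _ => c.u := ⟨fun k => k.1.2.2.1, by fun_prop, fun c _ _ _ => ⟨c.a, rfl, rfl⟩⟩

theorem PV.w : PV fun c _ => c.w := ⟨fun k => k.1.2.2.2, by fun_prop, fun c _ _ _ => ⟨c.b, rfl, rfl⟩⟩

theorem cd_cons {n : ℕ} {l : List ℕ} {v : ℕ → Fin n} (h : ∀ i, l.getD i 0 = v i) (x : Fin n) (i : ℕ) :
    (x.1 :: l).getD i 0 = (Nat.casesOn i x v : Fin n) := by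
  cases i
  exacts [rfl, h _]

namespace PD
variable {P Q : ∀ c : Cx, (ℕ → c.Ω) → Prop} {s t t1 t2 t3 s1 s2 s3 : ∀ c : Cx, (ℕ → c.Ω) → c.Ω}
  {R : ∀ c : Cx, c.Ω → (ℕ → c.Ω) → Prop}

theorem congr (h : PD P) (e : ∀ c x, P c x ↔ Q c x) : PD Q :=
  (funext₂ fun c x => propext (e c x) : P = Q) ▸ h

theorem const (p : Prop) : PD fun _ _ => p := by
  classical
  exact ⟨fun _ => decide p, fun _ => true, by fun_prop, by fun_prop, fun _ _ _ _ => by simp⟩

theorem not (h : PD P) : PD fun c e => ¬P c e := by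
  obtain ⟨y, d, a, b, h⟩ := h
  exact ⟨fun k => !y k, d, by fun_prop, b, fun c l v e =>
    ⟨fun u => by beta_reduce; rw [← (h c l v e).1 u]; simp, (h c l v e).2⟩⟩

theorem and (h : PD P) (h' : PD Q) : PD fun c e => P c e ∧ Q c e := by
  obtain ⟨y, d, a, b, h⟩ := h
  obtain ⟨y', d', a', b', h'⟩ := h'
  refine ⟨fun k => y k && y' k, fun k => d k && d' k, by fun_prop, by fun_prop, fun c l v e => ?_⟩
  simp only [Bool.and_eq_true]
  exact ⟨fun u => and_congr ((h c l v e).1 u.1) ((h' c l v e).1 u.2),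
    fun u => ⟨(h c l v e).2 u, (h' c l v e).2 u⟩⟩

theorem or (h : PD P) (h' : PD Q) : PD fun c e => P c e ∨ Q c e :=
  (h.not.and h'.not).not.congr fun _ _ => or_iff_not_and_not.symm

theorem imp (h : PD P) (h' : PD Q) : PD fun c e => P c e → Q c e :=
  (h.not.or h').congr fun _ _ => imp_iff_not_or.symm

theorem all' (h : PD P) : PD fun c e => ∀ x, P c fun i => Nat.casesOn i x e := by
  obtain ⟨y, d, a, b, h⟩ := h
  refine ⟨fun k => (List.range k.1.1.length).all fun x => y (k.1, x :: k.2),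
    fun k => (List.range k.1.1.length).all fun x => d (k.1, x :: k.2), by fun_prop, by fun_prop,
    fun c l v e => ?_⟩
  have k := fun x => h c _ _ (cd_cons e x)
  have q : ∀ x : Fin c.n, (fun i => qt c.h (Nat.casesOn i x v)) =
      fun i => Nat.casesOn i (qt c.h x) fun i => qt c.h (v i) := fun x => funext fun i => by
    cases i <;> rfl
  simp only [List.all_eq_true, List.mem_range, show c.code.1.length = c.n from rows_length _,
    Nat.forall_lt_iff_fin]
  exact ⟨fun u => (forall_congr' fun x => q x ▸ (k x).1 (u x)).trans (qt_surj c.h).forall.symm,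
    fun u x => (k x).2 u⟩

theorem all (h : PD fun c e => R c (e 0) fun i => e (i + 1)) : PD fun c e => ∀ x, R c x e := h.all'

theorem ex (h : PD fun c e => R c (e 0) fun i => e (i + 1)) : PD fun c e => ∃ x, R c x e :=
  (all (R := fun c x e => ¬R c x e) h.not).not.congr fun _ _ => not_forall_not

theorem eq (hs : PV s) (ht : PV t) : PD fun c e => s c e = t c e := by
  obtain ⟨f, a, h⟩ := hs
  obtain ⟨f', a', h'⟩ := ht
  refine ⟨fun k => decide (k.1.2.1.getD (f k) 0 = k.1.2.1.getD (f' k) 0), fun _ => true, by fun_prop,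
    by fun_prop, fun c l v e => ⟨fun _ => ?_, fun _ => rfl⟩⟩
  obtain ⟨x, b, u⟩ := h c l v e
  obtain ⟨x', b', u'⟩ := h' c l v e
  beta_reduce
  rw [← u, ← u', qt_eq, decide_eq_true_eq, b, b']
  rfl

theorem ne (hs : PV s) (ht : PV t) : PD fun c e => s c e ≠ t c e := (eq hs ht).not

theorem mem {S : ∀ c : Cx, Set c.Ω} (h : PD fun c e => e 0 ∈ S c) (ht : PV t) :
    PD fun c e => t c e ∈ S c := by
  obtain ⟨y, d, a, b, h⟩ := h
  obtain ⟨f, a', h'⟩ := ht
  refine ⟨fun k => y (k.1, f k :: k.2), fun k => d (k.1, f k :: k.2), by fun_prop, by fun_prop,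
    fun c l v e => ?_⟩
  obtain ⟨x, b, u⟩ := h' c l v e
  beta_reduce
  rw [← u, b]
  exact h c _ _ (cd_cons e x)

theorem nmem {S : ∀ c : Cx, Set c.Ω} (h : PD fun c e => e 0 ∈ S c) (ht : PV t) :
    PD fun c e => t c e ∉ S c := (h.mem ht).not

theorem fall {ι : Type} [Finite ι] {P : ι → ∀ c : Cx, (ℕ → c.Ω) → Prop} (h : ∀ i, PD (P i)) :
    PD fun c e => ∀ i, P i c e := by
  have := Fintype.ofFinite ι
  have : ∀ s : Finset ι, PD fun c e => ∀ i ∈ s, P i c e := fun s => by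
    induction s using Finset.cons_induction with
    | empty => exact (const True).congr fun _ _ => by simp
    | cons a s _ ih => exact ((h a).and ih).congr fun _ _ => by simp
  exact (this Finset.univ).congr fun _ _ => by simp

theorem fex {ι : Type} [Finite ι] {P : ι → ∀ c : Cx, (ℕ → c.Ω) → Prop} (h : ∀ i, PD (P i)) :
    PD fun c e => ∃ i, P i c e :=
  (fall fun i => (h i).not).not.congr fun _ _ => not_forall_not

theorem exk (h : PD P) (k : ℕ) : PD fun c e => ∃ e', (∀ i, e' (i + k) = e i) ∧ P c e' := by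
  induction k with
  | zero => exact h.congr fun c e => ⟨fun a => ⟨e, fun _ => rfl, a⟩, fun ⟨_, a, b⟩ => funext a ▸ b⟩
  | succ k ih =>
    refine ih.not.all'.not.congr fun c e => not_forall_not.trans ⟨fun ⟨x, e', a, b⟩ => ⟨e', fun i => ?_, b⟩,
      fun ⟨e', a, b⟩ => ⟨e' k, e', fun i => ?_, b⟩⟩
    · rw [← add_assoc, add_right_comm, a]
    · cases i
      · exact congrArg e' (zero_add k)
      · rw [add_right_comm, add_assoc, a]

/-- existence of a finite family of points -/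
theorem exf {ι : Type} [Finite ι] {P : ∀ c : Cx, (ι → c.Ω) → Prop}
    (h : ∀ φ : ι → ℕ, PD fun c e => P c fun a => e (φ a)) : PD fun c _ => ∃ f, P c f := by
  obtain ⟨k, ⟨φ⟩⟩ := Finite.exists_equiv_fin ι
  refine ((h fun a => φ a).exk k).congr fun c e => ⟨fun ⟨_, _, b⟩ => ⟨_, b⟩, fun ⟨f, b⟩ =>
    ⟨fun i => if a : i < k then f (φ.symm ⟨i, a⟩) else e (i - k), fun i => by simp, by simpa using b⟩⟩

theorem ee (o : S_orc) (h : PD fun c e => R c (e 0) fun i => e (i + 1)) (a1 : PV t1) (a2 : PV t2)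
    (a3 : PV t3) (b1 : PV s1) (b2 : PV s2) (b3 : PV s3) :
    PD fun c e => Ee c.Γ (fun x => R c x e) (t1 c e) (t2 c e) (t3 c e) (s1 c e) (s2 c e) (s3 c e) := by
  obtain ⟨fd, no, p1, p2, o⟩ := o
  obtain ⟨y, d, a, b, h⟩ := h
  obtain ⟨f1, _, a1⟩ := a1
  obtain ⟨f2, _, a2⟩ := a2
  obtain ⟨f3, _, a3⟩ := a3
  obtain ⟨g1, _, b1⟩ := b1
  obtain ⟨g2, _, b2⟩ := b2
  obtain ⟨g3, _, b3⟩ := b3
  let L : Ky → List ℕ := fun k => (List.range k.1.1.length).filter fun x => y (k.1, x :: k.2)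
  let q : Ky → Mx × List ℕ × List ℕ × List ℕ := fun k =>
    (k.1.1, k.1.2.1, f1 k :: f2 k :: f3 k :: L k, g1 k :: g2 k :: g3 k :: L k)
  have hq : PT q := by unfold q L; fun_prop
  have q1 := p1.comp hq
  have q2 := p2.comp hq
  refine ⟨_, _, q1.isSome, (q1.isSome.or q2).and (show PT fun k : Ky =>
    (List.range k.1.1.length).all fun x => d (k.1, x :: k.2) by fun_prop), fun c l v e => ?_⟩
  obtain ⟨x1, c1, d1⟩ := a1 c l v e
  obtain ⟨x2, c2, d2⟩ := a2 c l v e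
  obtain ⟨x3, c3, d3⟩ := a3 c l v e
  obtain ⟨z1, e1, k1⟩ := b1 c l v e
  obtain ⟨z2, e2, k2⟩ := b2 c l v e
  obtain ⟨z3, e3, k3⟩ := b3 c l v e
  have k := fun x => h c _ _ (cd_cons e x)
  have n0 : c.code.1.length = c.n := rows_length _
  have hL : ∀ x ∈ L (c.code, l), x < c.n := fun x hx => n0 ▸ List.mem_range.1 (List.mem_filter.1 hx).1
  obtain ⟨o1, o2, o3⟩ := o c.n c.G c.p (x1 :: x2 :: x3 :: L (c.code, l)) (z1 :: z2 :: z3 :: L (c.code, l))
    c.h rfl (by simpa using hL) (by simpa using hL)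
  simp only [q, c1, c2, c3, e1, e2, e3, ← d1, ← d2, ← d3, ← k1, ← k2, ← k3, Bool.and_eq_true,
    Bool.or_eq_true, List.all_eq_true, List.mem_range, n0, Nat.forall_lt_iff_fin]
  refine ⟨fun ⟨u, u'⟩ => Iff.trans (b := ∃ g : c.Γ, Tm c.p g _ _) ⟨fun a => ?_,
    fun a => u.resolve_right fun b => o2 b a⟩ (exists_congr fun g => ?_), fun u => ⟨o3 u, fun x => (k x).2 u⟩⟩
  · obtain ⟨r, a⟩ := Option.isSome_iff_exists.1 a
    exact (o1 r a).imp fun _ => And.right
  have t : ∀ x z : Fin c.n, (∃ x' : Fin c.n, x'.1 = x ∧ z.1 < c.n ∧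
      c.p.getD (g x').1 0 = c.p.getD z 0) ↔ g • qt c.h x = qt c.h z := fun x z => by
    rw [smul_qt, qt_eq]
    exact ⟨fun ⟨_, a, _, b⟩ => Fin.ext a ▸ b, fun a => ⟨x, rfl, z.2, a⟩⟩
  simp only [Tm, List.forall₂_cons, List.forall₂_same, t]
  rw [(qt_surj c.h).forall]
  have : (∀ x ∈ L (c.code, l), ∃ x' : Fin c.n, x'.1 = x ∧ x < c.n ∧
      c.p.getD (g x').1 0 = c.p.getD x 0) ↔
      ∀ x, R c (qt c.h x) (fun i => qt c.h (v i)) → g • qt c.h x = qt c.h x := by
    simp only [L, List.mem_filter, List.mem_range, n0, and_imp, Nat.forall_lt_iff_fin]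
    exact forall_congr' fun x => imp_congr ((k x).1 (u' x)) (t x x)
  rw [this]
  tauto

end PD

end Pool.Agent.Lib.MP_3cc314_lc.Cg
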