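import Pool.Agent.Lib.MP_3cc314_lc.CgStage1

set_option autoImplicit false

namespace Pool.Agent.Lib.MP_3cc314_lc.Cg

section
variable (G : Type) {Ω : Type} [Group G] [MulAction G Ω] (S : Set Ω) (u w : Ω)

/-- three points are mapped to three points -/
abbrev E0 (a b c a' b' c' : Ω) : Prop := Ee G (fun _ => False) a b c a' b' c'

/-- the same by an element supported in `S` -/
abbrev E1 (a b c a' b' c' : Ω) : Prop := Ee G (fun x => x ∉ S) a b c a' b' c'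

def InP (X : Ω → Ω → Prop) : Prop :=
  (∃ z, z ∈ S ∧ ∀ c c', E0 G z u w z c c' → X c c') ∨ ∀ c c', E1 G S u w w c c' c' → X c c'

def RfP (b b' : Ω) : Prop :=
  b ∈ S ∧ ¬(b = u ∧ b' = w) ∧ E0 G u w b b b' u ∧ E0 G u w b' b b' w ∧
    InP G S u w fun c c' => (c = u ∧ c' = w) ∨ (c = b ∧ c' = b')

def DihP : Prop :=
  (∀ z, z ∈ S → ∃ b b', RfP G S u w b b' ∧ E0 G u w z b b' z) ∧
  (∃ b b', E1 G S u w w b b' b' ∧ RfP G S u w b b') ∧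
  ∀ a a' b b' c c' x y x' y', RfP G S u w a a' → RfP G S u w b b' → RfP G S u w c c' →
    E0 G u w c b b' x → E0 G u w x a a' y → E0 G u w c' b b' x' → E0 G u w x' a a' y' →
    RfP G S u w y y'

def B4P : Prop := ∃ π : V4 × V4 × Bool → Ω, (∀ i j, π (i, j, true) ∈ S) ∧
  (∀ i j i' j' t, E0 G u w (π (i', j', t)) (π (i, j, true)) (π (i, j, false)) (π (i + i', j + j', t))) ∧
  (∀ i j, π (i, j, true) = u → π (i, j, false) = w → i = 0 ∧ j = 0) ∧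
  (∀ σ : V4 → V4, Function.Injective σ → σ 0 = 0 →
    InP G S u w fun c c' => ∃ i, c = π (i, σ i, true) ∧ c' = π (i, σ i, false)) ∧
  (∀ z, z ∈ S → ∃ σ : V4 → V4, Function.Injective σ ∧ σ 0 = 0 ∧
    ∀ i, E0 G u w z (π (i, σ i, true)) (π (i, σ i, false)) z) ∧
  ∃ σ : V4 → V4, Function.Injective σ ∧ σ 0 = 0 ∧
    ∀ i, E1 G S u w w (π (i, σ i, true)) (π (i, σ i, false)) (π (i, σ i, false))

end

variable {G Ω : Type} [Group G] [MulAction G Ω] {S O : Set Ω} {u w : Ω} {g h s t : G}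

theorem e0 (g : G) (a b c : Ω) : E0 G a b c (g • a) (g • b) (g • c) := ⟨g, nofun, rfl, rfl, rfl⟩

theorem mov_iff {x : Ω} : x ∈ mov G S ↔ ∃ y, y ≠ x ∧ Ee G (fun z => z ∈ S) x x x y y y :=
  ⟨fun ⟨c, a, b⟩ => ⟨_, b, c, fun z hz => (a z hz).trans (one_smul _ _), rfl, rfl, rfl⟩,
    fun ⟨_, a, c, b, e, _⟩ => ⟨c, fun z hz => (b z hz).trans (one_smul _ _).symm, e ▸ a⟩⟩

theorem orb_iff {x : Ω} : x ∈ orbS G u w ↔ x = w ∨ E0 G w u u w x x :=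
  or_congr_right ⟨fun ⟨g, a, b⟩ => ⟨g, nofun, a, b, b⟩, fun ⟨g, _, a, b, _⟩ => ⟨g, a, b⟩⟩

theorem rel_iff {x y : Ω} : rel G S x y ↔ x = y ∨ ∃ a, a ∈ S ∧ ∃ b, b ∈ S ∧
    E1 G S a a a b b b ∧ E0 G a b b x y y :=
  or_congr_right (exists_congr fun _ => and_congr_right fun _ => exists_congr fun _ =>
    and_congr_right fun _ => and_congr
      ⟨fun ⟨g, a, b⟩ => ⟨g, a, b, b, b⟩, fun ⟨g, a, b, _⟩ => ⟨g, a, b⟩⟩
      ⟨fun ⟨g, a, b⟩ => ⟨g, nofun, a, b, b⟩, fun ⟨g, _, a, b, _⟩ => ⟨g, a, b⟩⟩)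

/-- the fixer of `T` and of two points fixes `S` -/
theorem fix_iff {T : Ω → Prop} {a b : Ω} :
    (∀ g : G, (∀ x, T x → g • x = x) → g • a = a → g • b = b → eqS S g 1) ↔
      ∀ x, x ∈ S → ∀ y, Ee G T a b x a b y → y = x :=
  ⟨fun h x hx _ ⟨g, k, a, b, e⟩ => e ▸ (h g k a b x hx).trans (one_smul _ _),
    fun h g k a b x hx => (h x hx _ ⟨g, k, a, b, rfl⟩).trans (one_smul _ _).symm⟩

theorem blk_iff : BlkL G S ↔ (∀ x x' y y', x ∈ S → x' ∈ S → y ∈ S → E0 G x y y x' y' y' → y' ∈ S) ∧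
    (∃ x, x ∈ S) ∧ ∀ a, a ∈ S → ∃ b, b ≠ a ∧ E1 G S a a a b b b :=
  and_congr ⟨fun h x _ y _ a b c ⟨g, _, e, e', _⟩ => e' ▸ h g x a (e ▸ b) y c,
    fun h g x a b y c => h x _ y _ a b c (e0 g ..)⟩ (and_congr_right fun _ => forall₂_congr fun _ _ =>
      ⟨fun ⟨n, a, b⟩ => ⟨_, b, n, a, rfl, rfl, rfl⟩, fun ⟨_, a, n, b, e, _⟩ => ⟨n, b, e ▸ a⟩⟩)

theorem base_iff : BaseL G S u w ↔ u ∈ S ∧ w ∈ S ∧ ∀ x, x ∈ S → ∀ y, E0 G u w x u w y → y = x := by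
  rw [← fix_iff]
  simp [BaseL]

theorem reg_iff : RegL G S ↔ ∃ a, a ∈ S ∧ ∀ x, x ∈ S → ∀ y, E0 G a a x a a y → y = x := by
  simp only [← fix_iff]
  exact exists_congr fun _ => and_congr_right fun _ => forall_congr' fun _ =>
    ⟨fun h _ a _ => h a, fun h a => h nofun a a⟩

theorem sym_iff : SymL G S O ↔ (∀ x, x ∈ O → x ∈ S) ∧
    (∀ v, v ∈ O → ∀ y, y ∈ O → ∀ y', E0 G v y y v y' y' → y' ∈ O) ∧
    (∀ x, x ∈ S → ∀ y, Ee G (fun z => z ∈ O) x x x y y y → y = x) ∧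
    (∀ a, a ∈ O → ∀ b, b ∈ O → a ≠ b →
      Ee G (fun z => z ∉ S ∨ (z ∈ O ∧ z ≠ a ∧ z ≠ b)) a b b b a a) ∧
    ∀ z, z ∈ S → ∃ v, v ∈ O ∧ ∀ y, E0 G v z z v y y → y = z := by
  refine and_congr .rfl (and_congr (forall₂_congr fun v _ => ?_) (and_congr ?_ (and_congr
    (forall₅_congr fun a _ b _ _ => ?_) (forall₂_congr fun z _ => exists_congr fun v =>
      and_congr_right fun _ => ?_))))
  · exact ⟨fun h y a _ ⟨g, _, e, e', _⟩ => e' ▸ h g e y a,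
      fun h g e y a => h y a _ ⟨g, nofun, e, rfl, rfl⟩⟩
  · exact ⟨fun h x a _ ⟨g, k, e, _⟩ => e ▸ (h g (fun z hz => (k z hz).trans (one_smul _ _).symm) x
      a).trans (one_smul _ _), fun h g k x a => (h x a _ ⟨g, fun z hz => (k z hz).trans
        (one_smul _ _), rfl, rfl, rfl⟩).trans (one_smul _ _).symm⟩
  · exact ⟨fun ⟨n, k, e, e', m⟩ => ⟨n, fun z hz => hz.elim (k z) fun r => m z r.1 r.2.1 r.2.2, e, e', e'⟩,
      fun ⟨n, k, e, e', _⟩ => ⟨n, fun z r => k z (.inl r), e, e', fun z r r' r'' => k z (.inr ⟨r, r', r''⟩)⟩⟩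
  · exact ⟨fun h _ ⟨g, _, e, e', _⟩ => e' ▸ h g e, fun h g e => h _ ⟨g, nofun, e, rfl, rfl⟩⟩

namespace BaseL
variable (B : BaseL G S u w)
include B

theorem eq_iff : eqS S g h ↔ g • u = h • u ∧ g • w = h • w :=
  ⟨fun e => ⟨e u B.1, e w B.2.1⟩, fun ⟨a, b⟩ x hx => by
    have := B.2.2 (h⁻¹ * g) (by rw [mul_smul, a, inv_smul_smul]) (by rw [mul_smul, b, inv_smul_smul]) x hx
    rwa [one_smul, mul_smul, inv_smul_eq_iff] at this⟩

theorem e0_iff {x y : Ω} (hx : x ∈ S) : E0 G u w x (g • u) (g • w) y ↔ g • x = y :=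
  ⟨fun ⟨_, _, a, b, e⟩ => (B.eq_iff.2 ⟨a, b⟩ x hx).symm.trans e, fun e => e ▸ e0 g ..⟩

theorem vis_iff : VisL G S ↔ ∃ z, ∀ b b', E0 G z u w z b b' → E1 G S u w w b b' b' :=
  exists_congr fun _ => ⟨fun h _ _ ⟨g, _, e, a, b⟩ => let ⟨n, k, m⟩ := h g e
      ⟨n, k, (m u B.1).symm.trans a, (m w B.2.1).symm.trans b, (m w B.2.1).symm.trans b⟩,
    fun h g e => let ⟨n, k, a, b, _⟩ := h _ _ ⟨g, nofun, e, rfl, rfl⟩
      ⟨n, k, B.eq_iff.2 ⟨a.symm, b.symm⟩⟩⟩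

omit B in
theorem inF_iff {X : Ω → Ω → Prop} : (InF S fun g : G => X (g • u) (g • w)) ↔ InP G S u w X :=
  or_congr (exists_congr fun _ => and_congr_right fun _ =>
    ⟨fun h _ _ ⟨g, _, e, a, b⟩ => a ▸ b ▸ h g e, fun h g e => h _ _ ⟨g, nofun, e, rfl, rfl⟩⟩)
    ⟨fun h _ _ ⟨g, k, a, b, _⟩ => a ▸ b ▸ h g k, fun h g k => h _ _ ⟨g, k, rfl, rfl, rfl⟩⟩

variable (K : BlkL G S)
include K

theorem inL_iff : inL S g ↔ g • u ∈ S := ⟨fun h => h u B.1, K.1 g u B.1⟩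

theorem rf_iff : Rf S s ↔ RfP G S u w (s • u) (s • w) := by
  rw [Rf, RfP, ← B.inL_iff K, ← inF_iff]
  refine and_congr_right fun l => ?_
  simp only [B.eq_iff, one_smul, mul_smul, B.e0_iff (l u B.1), B.e0_iff (l w B.2.1), and_assoc]

theorem rfP {b b' : Ω} (r : RfP G S u w b b') : ∃ s : G, s • u = b ∧ s • w = b' ∧ Rf S s := by
  obtain ⟨s, -, rfl, rfl, -⟩ := r.2.2.1
  exact ⟨s, rfl, rfl, (B.rf_iff K).2 r⟩

theorem dih_iff : DihL G S ↔ DihP G S u w := by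
  refine and_congr (forall₂_congr fun z hz => ⟨fun ⟨s, a, b⟩ => ⟨_, _, (B.rf_iff K).1 a,
    (B.e0_iff hz).2 b⟩, fun ⟨_, _, a, b⟩ => ?_⟩) (and_congr ⟨fun ⟨s, a, b⟩ =>
      ⟨_, _, ⟨s, a, rfl, rfl, rfl⟩, (B.rf_iff K).1 b⟩, ?_⟩ ⟨?_, fun h s t r a b c => ?_⟩)
  · obtain ⟨s, rfl, rfl, r⟩ := B.rfP K a
    exact ⟨s, r, (B.e0_iff hz).1 b⟩
  · rintro ⟨_, _, ⟨s, k, rfl, rfl, -⟩, r⟩
    exact ⟨s, k, (B.rf_iff K).2 r⟩
  · intro h _ _ _ _ _ _ x y x' y' a b c e1 e2 e3 e4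
    obtain ⟨s, rfl, rfl, a'⟩ := B.rfP K a
    obtain ⟨t, rfl, rfl, b'⟩ := B.rfP K b
    obtain ⟨r, rfl, rfl, c'⟩ := B.rfP K c
    obtain rfl := (B.e0_iff (c'.1 u B.1)).1 e1
    obtain rfl := (B.e0_iff (b'.1 _ (c'.1 u B.1))).1 e2
    obtain rfl := (B.e0_iff (c'.1 w B.2.1)).1 e3
    obtain rfl := (B.e0_iff (b'.1 _ (c'.1 w B.2.1))).1 e4
    simpa only [mul_smul] using (B.rf_iff K).1 (h s t r a' b' c')
  · rw [B.rf_iff K] at a b c ⊢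
    simpa only [mul_smul] using h _ _ _ _ _ _ _ _ _ _ a b c (e0 t ..) (e0 s ..) (e0 t ..) (e0 s ..)

theorem b4_iff : B4L G S ↔ B4P G S u w := by
  constructor
  · rintro ⟨r, c, h1, h2, h3, h4, h5, h6, h7, σ, s1, s2, h8⟩
    have m : ∀ t, cond t u w ∈ S := fun t => by
      cases t
      exacts [B.2.1, B.1]
    refine ⟨fun a => (r a.1 * c a.2.1) • cond a.2.2 u w, fun i j => ?_, fun i j i' j' t => ?_,
      fun i j a b => h5 i j (B.eq_iff.2 (by simpa only [one_smul] using ⟨a, b⟩)), fun σ a b => ?_,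
      fun z hz => (h7 z hz).imp fun σ a => ⟨a.1, a.2.1, fun i => (B.e0_iff hz).2 (a.2.2 i)⟩,
      σ, s1, s2, fun i => ?_⟩
    · simpa only [mul_smul, cond] using (h1 i).1 _ ((h1 j).2 u B.1)
    · refine ⟨r i * c j, nofun, rfl, rfl, ?_⟩
      have a := h4 i' j _ ((h1 j').2 _ (m t))
      simp only [mul_smul] at a ⊢
      rw [← a, h2 i i' _ ((h1 _).2 _ (m t)), h3 j j' _ (m t), mul_smul, mul_smul]
    · exact inF_iff.1 (by simpa only [B.eq_iff, cond] using h6 σ a b)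
    · obtain ⟨n, k, e⟩ := h8 i
      exact ⟨n, k, e u B.1, e w B.2.1, e w B.2.1⟩
  · rintro ⟨π, h1, h2, h3, h4, h5, σ, s1, s2, h6⟩
    choose ρ _ p1 p2 _ using fun i j => h2 i j 0 0 true
    have l : ∀ i j, inL S (ρ i j) := fun i j => (B.inL_iff K).2 (p1 i j ▸ h1 i j)
    have mu : ∀ i j i' j', eqS S (ρ (i + i') (j + j')) (ρ i j * ρ i' j') := fun i j i' j' => by
      have a := h2 i j i' j' true
      have b := h2 i j i' j' false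
      rw [← p1 i j, ← p2 i j] at a b
      rw [← p1 i' j', B.e0_iff (l _ _ u B.1)] at a
      rw [← p2 i' j', B.e0_iff (l _ _ w B.2.1)] at b
      exact B.eq_iff.2 ⟨by rw [p1, mul_smul, a], by rw [p2, mul_smul, b]⟩
    have e : ∀ i j, eqS S (ρ i 0 * ρ 0 j) (ρ i j) := fun i j x hx => by
      simpa using (mu i 0 0 j x hx).symm
    have q1 := fun i j => (e i j u B.1).trans (p1 i j)
    have q2 := fun i j => (e i j w B.2.1).trans (p2 i j)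
    refine ⟨fun i => ρ i 0, fun j => ρ 0 j, fun i => ⟨l _ _, l _ _⟩, fun i j => by simpa using mu i 0 j 0,
      fun i j => by simpa using mu 0 i 0 j, fun i j x hx => (e i j x hx).trans (by
        simpa using mu 0 j i 0 x hx), fun i j a => h3 i j ?_ ?_, fun σ a b => ?_,
      fun z hz => (h5 z hz).imp fun σ a => ⟨a.1, a.2.1, fun i => (B.e0_iff hz).1 ?_⟩,
      σ, s1, s2, fun i => ?_⟩
    · rw [← q1, a u B.1, one_smul]
    · rw [← q2, a w B.2.1, one_smul]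
    · simpa only [B.eq_iff, q1, q2] using inF_iff.2 (h4 σ a b)
    · rw [q1, q2]
      exact a.2.2 i
    · obtain ⟨n, k, a, b, -⟩ := h6 i
      exact ⟨n, k, B.eq_iff.2 ⟨a.trans (q1 ..).symm, b.trans (q2 ..).symm⟩⟩

end BaseL

end Pool.Agent.Lib.MP_3cc314_lc.Cg
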