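import Pool.Agent.Lib.MP_3cc314_lc.CgDT

set_option autoImplicit false

namespace Pool.Agent.Lib.MP_3cc314_lc.Cg
open scoped Classical

variable {G : Type} [Group G]

theorem sum_one_pt {α : Type} [Fintype α] {g : α → ℤ} (h0 : ∀ x, 0 ≤ g x) (h1 : ∑ x, g x = 1) :
    ∃ q, ∀ x, g x = if x = q then 1 else 0 := by
  obtain ⟨q, -, hq⟩ := Finset.exists_ne_zero_of_sum_ne_zero (h1 ▸ one_ne_zero : ∑ x, g x ≠ 0)
  have e := Finset.add_sum_erase _ g (Finset.mem_univ q)
  have p := Finset.sum_nonneg (s := Finset.univ.erase q) fun x _ => h0 x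
  have := h0 q
  refine ⟨q, fun x => ?_⟩
  split_ifs with c
  · subst c; omega
  · exact (Finset.sum_eq_zero_iff_of_nonneg (s := Finset.univ.erase q) fun x _ => h0 x).1
      (by omega) x (by simp [c])

namespace Fam
variable {F : Fam G} {L : Subgroup G} {T : Set G}

/-- a sign function with at most one positive and one negative pair on each diagonal -/
structure Sg (F : Fam G) (L : Subgroup G) (T : Set G) (z : G) (σ : G → Prop) : Prop where
  pu : ∀ s ∈ T, ∀ x ∈ L, ∀ y ∈ L, σ x → σ (x * s) → σ y → σ (y * s) → y = x ∨ y = x * s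
  mu : ∀ s ∈ T, ∀ x ∈ L, ∀ y ∈ L, ¬σ x → ¬σ (x * s) → ¬σ y → ¬σ (y * s) → y = x ∨ y = x * s
  ex : ∀ s ∈ T, ∀ p ∈ L, σ p → σ (p * s) → ∃ m ∈ L, ¬σ m ∧ ¬σ (m * s)
  eq : ∀ s ∈ T, ∀ U ∈ F.s, s ∈ U → ∀ p ∈ L, σ p → σ (p * s) → ∀ m ∈ L, ¬σ m → ¬σ (m * s) →
    p⁻¹ * z ∈ U ∨ p⁻¹ * m ∈ U

theorem DT.half (d : F.DT L T) : ∃ B : G → Prop, ¬B 1 ∧ ∀ x, ∀ s ∈ T, (B (x * s) ↔ ¬B x) := by
  let D := Subgroup.closure T
  let c : G → G := fun x => if x ∈ D then 1 else (QuotientGroup.mk x : G ⧸ D).out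
  have c1 : ∀ x, (c x)⁻¹ * x ∈ D := fun x => by
    simp only [c]
    split_ifs with h
    · simpa using h
    · exact QuotientGroup.eq.1 (QuotientGroup.out_eq' _)
  have c2 : ∀ x, ∀ s ∈ T, c (x * s) = c x := fun x s hs => by
    have hs' : s ∈ D := Subgroup.subset_closure hs
    simp only [c, D.mul_mem_cancel_right hs', QuotientGroup.mk_mul_of_mem x hs']
  refine ⟨fun x => (c x)⁻¹ * x ∈ T, ?_, fun x s hs => ?_⟩
  · simpa [c, D.one_mem] using d.one_not
  · simp only [c2 x s hs, ← mul_assoc]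
    rcases d.mem_clos.1 (c1 x) with a | a
    · exact iff_of_true ((rot_mul a).2 hs) (d.rot_not a)
    · exact iff_of_false (d.rot_not (d.mul_rot a hs)) (not_not.2 a)

theorem DT.dec [Finite G] (d : F.DT L T) (hS : F.SF) (hL : L ∈ F.s) {t z : G} (ht : t ∈ T)
    (zL : z ∉ L) (hz : ∀ P, F.Mem P → (∀ x ∈ P, x ∈ L → x = 1 ∨ x = t) → z ∈ P) :
    ∃ σ, F.Sg L T z σ ∧ σ 1 ∧ σ t := by
  obtain ⟨B, B1, Bs⟩ := d.half
  have Bt : B t := by simpa using (Bs 1 t ht).2 B1
  have := Fintype.ofFinite G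
  let δ : G → G → ℤ := fun a x => if x = a then 1 else 0
  have sd : ∀ (f : G → ℤ) a, ∑ x, f x * δ a x = f a := fun f a => by simp [δ]
  let b : G → ℤ := fun x => if x ∈ L ∧ B x ∧ x ≠ t then 1 else 0
  have b0 : ∀ x, 0 ≤ b x := fun x => by simp only [b]; split_ifs <;> simp
  have sy : ∀ f : G → ℤ, ∑ x, f x * (b x + δ z x - δ 1 x) = ∑ x, f x * b x + f z - f 1 :=
    fun f => by simp only [mul_sub, mul_add, Finset.sum_sub_distrib, Finset.sum_add_distrib, sd]
  obtain ⟨w, w0, hw⟩ := hS.idp (fun x => b x + δ z x - δ 1 x) fun U u g => by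
    rw [sy]
    have nn : ∀ x ∈ Finset.univ, 0 ≤ iz g U x * b x := fun x _ =>
      mul_nonneg (iz_nonneg _ _ _) (b0 x)
    have p := Finset.sum_nonneg nn
    have p2 := iz_nonneg g U z
    by_cases c : g⁻¹ * 1 ∈ U
    · have c' : g⁻¹ ∈ U := by simpa using c
      rw [iz_pos c]
      obtain ⟨M, m, l⟩ := exists_mem u
      by_cases e : ∀ x ∈ M, x ∈ L → x = 1 ∨ x = t
      · rw [iz_pos (U.mul_mem c' (l (hz M m e)))]; omega
      · obtain ⟨x, xM, xb⟩ : ∃ x ∈ M, x ∈ L ∧ B x ∧ x ≠ t := by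
          push Not at e
          obtain ⟨x, xM, xL, x1, xt⟩ := e
          obtain ⟨s, hs, sM⟩ := d.cov M m.1
          by_cases st : s = t
          · subst st
            by_cases bx : B x
            · exact ⟨x, xM, xL, bx, xt⟩
            · exact ⟨x * s, M.mul_mem xM sM, L.mul_mem xL (d.le hs), (Bs x s hs).2 bx,
                fun q => x1 (by simpa using q)⟩
          · exact ⟨s, sM, d.le hs, by simpa using (Bs 1 s hs).2 B1, st⟩
        have := Finset.single_le_sum nn (Finset.mem_univ x)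
        rw [iz_pos (U.mul_mem c' (l xM)), show b x = 1 from if_pos xb] at this
        omega
    · rw [iz_neg c]; omega
  simp only [sy] at hw
  have bL : ∀ x, x ∉ L → b x = 0 := fun x n => if_neg fun c => n c.1
  obtain ⟨q, hq⟩ := sum_one_pt (g := fun x => (iz 1 ⊤ x - iz 1 L x) * w x)
    (fun x => mul_nonneg (by rw [iz_pos (Subgroup.mem_top _)]; linarith [iz_le 1 L x]) (w0 x)) (by
      rw [hw _ ((Sp.iz F.top 1).sub (Sp.iz hL 1)), Finset.sum_eq_zero]
      · simp [iz_one, zL]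
      · intro x _
        by_cases c : x ∈ L <;> simp [iz_one, c, bL])
  let e : G → ℤ := fun x => iz 1 L x * w x + δ 1 x - b x
  have he : ∀ f, F.Sp f → ∑ x, f x * e x = f z - f q := fun f hf => by
    have k : ∀ x, f x * e x = f x * w x - f x * δ q x + f x * δ 1 x - f x * b x := fun x => by
      have := hq x
      rw [iz_pos (Subgroup.mem_top _)] at this
      simp only [e, δ, ← this]; ring
    simp only [k, Finset.sum_sub_distrib, Finset.sum_add_distrib, sd, hw f hf]; ring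
  let S : G → ℤ := fun x => w x + δ 1 x + δ t x
  have δ0 : ∀ a x, 0 ≤ δ a x := fun a x => by simp only [δ]; split_ifs <;> simp
  have S0 : ∀ x, 0 ≤ S x := fun x => add_nonneg (add_nonneg (w0 x) (δ0 _ _)) (δ0 _ _)
  have eo : ∀ x, x ∉ L → e x = 0 := fun x n => by
    have : x ≠ 1 := fun c => n (c ▸ L.one_mem)
    simp [e, iz_one, n, δ, this, bL x n]
  have ei : ∀ x ∈ L, e x = S x - if B x then 1 else 0 := fun x n => by
    by_cases c : x = t
    · subst c; simp [e, S, iz_one, n, δ, b, Bt]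
    · by_cases c' : B x <;> simp [e, S, iz_one, n, δ, b, c, c']
  have dd : ∀ s ∈ T, ∀ x ∈ L, e x + e (x * s) = S x + S (x * s) - 1 := fun s hs x n => by
    rw [ei x n, ei _ (L.mul_mem n (d.le hs)), Bs x s hs]
    by_cases c : B x <;> simp [c] <;> ring
  have k1 : ∀ s ∈ T, ∀ U ∈ F.s, s ∈ U → ∀ g,
      ∑ x, iz g U x * (e x + e (x * s)) = 2 * (iz g U z - iz g U q) := fun s hs U u su g => by
    have : ∑ x, iz g U x * e (x * s) = ∑ x, iz g U x * e x := by
      rw [← Equiv.sum_comp (Equiv.mulRight s) fun x => iz g U x * e x]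
      refine Finset.sum_congr rfl fun x _ => ?_
      simp only [Equiv.coe_mulRight, iz, ← mul_assoc, U.mul_mem_cancel_right su]
    simp only [mul_add, Finset.sum_add_distrib, this, he _ (Sp.iz u g)]; ring
  have k2 : ∀ s ∈ T, ∀ W, F.Mem W → s ∈ W → (∀ x ∈ W, x ∈ L → x = 1 ∨ x = s) → ∀ h ∈ L,
      S h + S (h * s) - 1 = iz h W z - iz h W q := fun s hs W m sW k h n => by
    rw [← dd s hs h n, ← he _ (Sp.iz m.1 h), Finset.sum_eq_add_of_mem h (h * s) (Finset.mem_univ _)
      (Finset.mem_univ _) (fun c => d.ne hs (by simpa using c)), iz_pos (by simp),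
      iz_pos (by simpa using sW), one_mul, one_mul]
    intro x _ c
    by_cases xL : x ∈ L
    · rw [iz_neg, zero_mul]
      intro a
      rcases k _ a (L.mul_mem (L.inv_mem n) xL) with r | r
      · exact c.1 (inv_mul_eq_one.1 r).symm
      · exact c.2 (inv_mul_eq_iff_eq_mul.1 r)
    · rw [eo x xL, mul_zero]
  have S1 : 1 ≤ S 1 := by have := w0 1; have := δ0 t 1; simp only [S, δ, if_pos] at *; omega
  have St : 1 ≤ S t := by have := w0 t; have := δ0 1 t; simp only [S, δ, if_pos] at *; omega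
  have Sl : ∀ x ∈ L, S x ≤ 1 := fun x n => by
    obtain ⟨W, m, tW, k⟩ := d.exm ht
    have a := k2 t ht W m tW k 1 L.one_mem
    have a' := k2 t ht W m tW k x n
    have := iz_le 1 W z
    have := iz_nonneg 1 W q
    have := iz_nonneg x W q
    have := S0 (x * t)
    rw [one_mul] at a
    by_cases c : x⁻¹ * z ∈ W
    · rcases k x (W.inv_mem_iff.1 ((W.mul_mem_cancel_right (hz W m k)).1 c)) n with rfl | rfl <;> omega
    · rw [iz_neg c] at a'; omega
  have Sz : ∀ x ∈ L, ¬S x = 1 → S x = 0 := fun x n c => by have := Sl x n; have := S0 x; omega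
  have un : ∀ s ∈ T, ∀ W : Subgroup G, (∀ x ∈ W, x ∈ L → x = 1 ∨ x = s) → ∀ v, ∀ x ∈ L, ∀ y ∈ L,
      x⁻¹ * v ∈ W → y⁻¹ * v ∈ W → y = x ∨ y = x * s := fun s hs W k v x a y a' c c' =>
    (k (x⁻¹ * y) (by simpa [mul_assoc] using W.mul_mem c (W.inv_mem c'))
      (L.mul_mem (L.inv_mem a) a')).imp (fun r => (inv_mul_eq_one.1 r).symm) inv_mul_eq_iff_eq_mul.1
  have pu : ∀ s ∈ T, ∀ x ∈ L, ∀ y ∈ L, S x = 1 → S (x * s) = 1 → S y = 1 → S (y * s) = 1 →
      y = x ∨ y = x * s := fun s hs x a y a' p1 p2 p3 p4 => by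
    obtain ⟨W, m, sW, k⟩ := d.exm hs
    have r : ∀ x ∈ L, S x = 1 → S (x * s) = 1 → x⁻¹ * z ∈ W := fun x a p1 p2 => by
      by_contra c
      have := k2 s hs W m sW k x a
      have := iz_nonneg x W q
      rw [iz_neg c] at *; omega
    exact un s hs W k z x a y a' (r x a p1 p2) (r y a' p3 p4)
  have mu : ∀ s ∈ T, ∀ x ∈ L, ∀ y ∈ L, ¬S x = 1 → ¬S (x * s) = 1 → ¬S y = 1 → ¬S (y * s) = 1 →
      y = x ∨ y = x * s := fun s hs x a y a' p1 p2 p3 p4 => by
    obtain ⟨W, m, sW, k⟩ := d.exm hs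
    have r : ∀ x ∈ L, ¬S x = 1 → ¬S (x * s) = 1 → x⁻¹ * q ∈ W := fun x a p1 p2 => by
      by_contra c
      have := k2 s hs W m sW k x a
      have := iz_nonneg x W z
      rw [iz_neg c, Sz x a p1, Sz _ (L.mul_mem a (d.le hs)) p2] at *; omega
    exact un s hs W k q x a y a' (r x a p1 p2) (r y a' p3 p4)
  refine ⟨fun x => S x = 1, ⟨pu, mu, fun s hs p a p1 p2 => ?_, fun s hs U u su p a p1 p2 m a' m1 m2 => ?_⟩,
    le_antisymm (Sl 1 L.one_mem) S1, le_antisymm (Sl t (d.le ht)) St⟩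
  · by_contra n
    push Not at n
    have k := k1 s hs ⊤ F.top trivial 1
    simp only [iz_pos (Subgroup.mem_top _), one_mul, sub_self, mul_zero] at k
    have := (Finset.sum_eq_zero_iff_of_nonneg fun x _ => ?_).1 k p (Finset.mem_univ _)
    · rw [dd s hs p a] at this; omega
    · by_cases xL : x ∈ L
      · rw [dd s hs x xL]
        have := n x xL
        have := S0 x
        have := S0 (x * s)
        omega
      · rw [eo x xL, eo _ fun c => xL ((L.mul_mem_cancel_right (d.le hs)).1 c)]; rfl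
  · have k := k1 s hs U u su p
    have ns : ∀ x : G, x ≠ x * s := fun x c => d.ne hs (by simpa using c)
    have pw : ∀ x, e x + e (x * s) = δ p x + δ (p * s) x - δ m x - δ (m * s) x := fun x => by
      have z : ∀ a, x ≠ a → δ a x = 0 := fun a c => if_neg c
      have o : ∀ a : G, x = a ∨ x = a * s → δ a x + δ (a * s) x = 1 := by
        rintro a (rfl | rfl)
        · simp [δ, ns]
        · simp [δ, (ns a).symm]
      have f1 : ¬(S x = 1 ∧ S (x * s) = 1) → δ p x + δ (p * s) x = 0 := fun c => by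
        rw [z p, z (p * s), add_zero]
        · rintro rfl; exact c ⟨p2, (d.can hs p).symm ▸ p1⟩
        · rintro rfl; exact c ⟨p1, p2⟩
      have f2 : ¬(¬S x = 1 ∧ ¬S (x * s) = 1) → δ m x + δ (m * s) x = 0 := fun c => by
        rw [z m, z (m * s), add_zero]
        · rintro rfl; exact c ⟨m2, (d.can hs m).symm ▸ m1⟩
        · rintro rfl; exact c ⟨m1, m2⟩
      by_cases xL : x ∈ L
      · have xs := L.mul_mem xL (d.le hs)
        rw [dd s hs x xL]
        by_cases c1 : S x = 1 <;> by_cases c2 : S (x * s) = 1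
        · have := o p (pu s hs p a x xL p1 p2 c1 c2)
          have := f2 fun c => c.1 c1
          omega
        · have := f1 fun c => c2 c.2
          have := f2 fun c => c.1 c1
          have := Sz _ xs c2
          omega
        · have := f1 fun c => c1 c.1
          have := f2 fun c => c.2 c2
          have := Sz _ xL c1
          omega
        · have := o m (mu s hs m a' x xL m1 m2 c1 c2)
          have := f1 fun c => c1 c.1
          have := Sz _ xL c1
          have := Sz _ xs c2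
          omega
      · have r : ∀ a ∈ L, x ≠ a := fun a c q => xL (q ▸ c)
        rw [eo x xL, eo _ fun c => xL ((L.mul_mem_cancel_right (d.le hs)).1 c), z _ (r _ a),
          z _ (r _ a'), z _ (r _ (L.mul_mem a (d.le hs))), z _ (r _ (L.mul_mem a' (d.le hs)))]
        rfl
    simp only [pw, mul_sub, mul_add, Finset.sum_sub_distrib, Finset.sum_add_distrib, sd] at k
    by_contra n
    rw [not_or] at n
    have := iz_nonneg p U q
    rw [iz_pos (g := p) (x := p) (by simp), iz_pos (g := p) (x := p * s) (by simpa using su),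
      iz_neg n.1, iz_neg n.2, iz_neg (x := m * s) fun c => n.2 (by
        rwa [← mul_assoc, U.mul_mem_cancel_right su] at c)] at k
    omega

end Fam

end Pool.Agent.Lib.MP_3cc314_lc.Cg
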