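import Pool.Agent.Lib.MP_3cc314_lc.Dih

set_option autoImplicit false
set_option linter.unusedSectionVars false

namespace Pool.Agent.Lib.MP_3cc314_lc
open Finset Matrix Polynomial

theorem zmod_two : ∀ x y x' y' : ZMod 2, x ≠ y → x' ≠ y' → y - x = y' - x' := by decide

variable {p : ℕ} [hp : Fact p.Prime]

theorem indep {K : Type*} [Field K] [CharZero K] {ζ : K} (hζ : IsPrimitiveRoot ζ p)
    (f : ZMod p → ℚ) (h : ∑ i, (f i : K) * AddChar.zmodChar p hζ.pow_eq_one i = 0) (i j : ZMod p) :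
    f i = f j := by
  obtain ⟨n, rfl⟩ : ∃ n, p = n + 1 := ⟨p - 1, (Nat.sub_add_cancel hp.1.pos).symm⟩
  exact (hζ.sum_eq_zero_iff_forall_eq hp.1 f).1 h i j

variable {V : Type} [Fintype V] [DecidableEq V]

def circ (e : ZMod p ≃ V) (f : ZMod p → ℚ) : Matrix V V ℝ :=
  of fun x y => (f (e.symm y - e.symm x) : ℝ)

theorem circ_poly (e : ZMod p ≃ V) (a : ZMod p → ℚ) (h0 : a 0 = 0)
    (hm : ∀ m : ZMod p, m ≠ 0 → (∀ d, a (m * d) = a d) → m = 1 ∨ m = -1) :
    ∃ (P : ℚ[X]) (c : ℚ), aeval (circ e a) P =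
      circ e fun d => (if d = 1 then 1 else 0) + (if d = -1 then 1 else 0) + c := by
  let K := CyclotomicField p ℚ
  haveI : IsCyclotomicExtension {p} ℚ K := CyclotomicField.isCyclotomicExtension p ℚ
  have hζ := IsCyclotomicExtension.zeta_spec p ℚ K
  haveI := IsCyclotomicExtension.isGalois {p} ℚ K
  haveI := IsCyclotomicExtension.finiteDimensional {p} ℚ K
  set ψ := AddChar.zmodChar p hζ.pow_eq_one with hψ
  set σ : K := ∑ i, (a i : K) * ψ i with hσ
  have h1 : ∀ P : ℚ[X], ∃ f : ZMod p → ℚ, aeval (circ e a) P = circ e f ∧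
      aeval σ P = ∑ i, (f i : K) * ψ i := by
    intro P
    induction P using Polynomial.induction_on with
    | C c =>
      refine ⟨fun d => if d = 0 then c else 0, ext fun x y => ?_, by simp [apply_ite Rat.cast]⟩
      simp only [circ, of_apply, sub_eq_zero, apply_ite Rat.cast]
      simp [algebraMap_matrix_apply, eq_comm]
    | add P Q hP hQ =>
      obtain ⟨f, e1, e2⟩ := hP
      obtain ⟨g, e3, e4⟩ := hQ
      exact ⟨f + g, by rw [map_add, e1, e3]; ext; simp [circ], by
        rw [map_add, e2, e4]; simp [add_mul, sum_add_distrib]⟩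
    | monomial n c ih =>
      obtain ⟨f, e1, e2⟩ := ih
      refine ⟨fun d => ∑ j, f j * a (d - j), ?_, ?_⟩
      · rw [pow_succ, ← mul_assoc, map_mul, e1, aeval_X]
        ext x y
        simp only [circ, mul_apply, of_apply]
        push_cast
        refine Fintype.sum_equiv (e.symm.trans (Equiv.subRight (e.symm x))) _ _ fun z => ?_
        simp
      · rw [pow_succ, ← mul_assoc, map_mul, e2, aeval_X, hσ, sum_mul_sum]
        push_cast
        simp only [sum_mul]
        rw [sum_comm (f := fun d j => (f j : K) * a (d - j) * ψ d)]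
        refine sum_congr rfl fun j _ => Fintype.sum_equiv (Equiv.addRight j) _ _ fun z => ?_
        simp only [Equiv.coe_addRight, add_sub_cancel_right, AddChar.map_add_eq_mul]
        ring
  have h2 : ψ 1 + ψ (-1) ∈ IntermediateField.adjoin ℚ {σ} := by
    rw [← IsGalois.fixedField_fixingSubgroup (IntermediateField.adjoin ℚ {σ}),
      IntermediateField.mem_fixedField_iff]
    intro τ hτ
    have e0 : τ σ = σ := (IntermediateField.mem_fixingSubgroup_iff _ _).1 hτ σ
      (IntermediateField.mem_adjoin_simple_self ℚ σ)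
    obtain ⟨m, -, e1⟩ := hζ.eq_pow_of_pow_eq_one (ξ := τ (IsCyclotomicExtension.zeta p ℚ K))
      (by rw [← map_pow, hζ.pow_eq_one, map_one])
    have e2 : ∀ d, τ (ψ d) = ψ (m * d) := fun d => by
      rw [← nsmul_eq_mul, AddChar.map_nsmul_eq_pow, hψ, AddChar.zmodChar_apply, map_pow, ← e1,
        pow_right_comm]
    have e3 : (m : ZMod p) ≠ 0 := fun e => hζ.ne_one hp.1.one_lt (by
      have := e2 1
      rw [e, zero_mul, AddChar.map_zero_eq_one, map_eq_one_iff _ τ.injective, hψ,
        AddChar.zmodChar_apply, ZMod.val_one, pow_one] at this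
      exact this)
    have e4 := indep hζ (fun d => a ((m : ZMod p)⁻¹ * d) - a d) (by
      rw [hσ, map_sum] at e0
      simp only [map_mul, map_ratCast, e2] at e0
      push_cast
      simp only [sub_mul, sum_sub_distrib]
      rw [← hψ, ← e0, sub_eq_zero]
      refine (Fintype.sum_equiv (Equiv.mulLeft₀ _ e3) _ _ fun z => ?_).symm
      simp [e3])
    rw [map_add, e2, e2]
    rcases hm _ (inv_ne_zero e3) (fun d => by simpa [h0, sub_eq_zero] using e4 d 0) with e | e
    · rw [inv_eq_one.1 e, one_mul, one_mul]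
    · rw [← inv_inv (m : ZMod p), e]
      simp [add_comm]
  rw [← IntermediateField.mem_toSubalgebra, IntermediateField.adjoin_simple_toSubalgebra_of_isAlgebraic
    (Algebra.IsAlgebraic.isAlgebraic σ), Algebra.adjoin_singleton_eq_range_aeval] at h2
  obtain ⟨P, hP⟩ := h2
  obtain ⟨f, e1, e2⟩ := h1 P
  have e3 := indep hζ (fun d => f d - ((if d = 1 then 1 else 0) + if d = -1 then 1 else 0)) (by
    push_cast
    simp only [sub_mul, sum_sub_distrib, ← hψ, ← e2]
    rw [show aeval σ P = _ from hP]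
    simp [add_mul, sum_add_distrib, apply_ite Rat.cast])
  exact ⟨P, _, e1.trans (congrArg (circ e) (funext fun d => eq_add_of_sub_eq' (e3 d 0)))⟩

theorem wave (F : ZMod p → ZMod p → ℝ)
    (h : ∀ a b, F (a + 1) (b + 1) + F a b = F (a + 1) b + F a (b + 1)) (a a' b : ZMod p) :
    F a b - F a' b = F a 0 - F a' 0 := by
  have h1 : ∀ (n : ℕ) b, F n (b + 1) - F n b = F 0 (b + 1) - F 0 b := fun n b => by
    induction n with
    | zero => simp
    | succ n ih =>
      push_cast
      linarith [h n b]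
  obtain ⟨a, rfl⟩ := ZMod.natCast_zmod_surjective a
  obtain ⟨a', rfl⟩ := ZMod.natCast_zmod_surjective a'
  obtain ⟨b, rfl⟩ := ZMod.natCast_zmod_surjective b
  induction b with
  | zero => simp
  | succ b ih =>
    push_cast
    linarith [h1 a b, h1 a' b]

variable {G : SimpleGraph V} [DecidableRel G.Adj]

theorem compact_of_hull (h : ∀ X ∈ fracAut G,
    X ∈ convexHull ℝ (Set.range fun g : G ≃g G => pm g.toEquiv)) : Compact G := fun X hX i j => by
  obtain ⟨g, rfl⟩ := extremePoints_convexHull_subset (inter_extremePoints_subset_extremePoints_of_subset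
    (convexHull_min (by rintro _ ⟨g, rfl⟩; exact pm_mem g) convex_fracAut) ⟨h X hX.1, hX⟩)
  exact ⟨if g i = j then 1 else 0, by simp [pm_apply]⟩

def Triv (G : SimpleGraph V) : Prop := ∀ x y x' y', x ≠ y → x' ≠ y' → G.Adj x y → G.Adj x' y'

theorem triv_iff : Triv G ↔ G = ⊥ ∨ G = ⊤ := by
  refine ⟨fun h => or_iff_not_imp_left.2 fun n => ?_, ?_⟩
  · obtain ⟨x, y, a⟩ := SimpleGraph.ne_bot_iff_exists_adj.1 n
    ext x' y'
    exact ⟨fun a => a.ne, fun n => h x y x' y' a.ne n a⟩
  · rintro (rfl | rfl) x y x' y' _ n a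
    exacts [a, n]

theorem compact_triv (h : Triv G) : Compact G :=
  compact_of_hull fun X hX => by
    have := hX.1
    rw [← SetLike.mem_coe, doublyStochastic_eq_convexHull_permMatrix] at this
    refine convexHull_mono ?_ this
    rintro _ ⟨σ, rfl⟩
    refine ⟨⟨σ, fun {i j} => ⟨fun a => h _ _ _ _ a.ne (fun e => a.ne (congrArg σ e)) a,
      fun a => h _ _ _ _ a.ne (σ.injective.ne a.ne) a⟩⟩, ?_⟩
    ext i j
    simp [pm_apply, Equiv.toPEquiv_apply, PEquiv.toMatrix_apply]

/-- the data of a circulant graph of prime order whose multipliers are only `1` and `-1` -/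
theorem Dih.data {v : V} (h : Dih (G ≃g G) v) (nt : ¬ Triv G) :
    ∃ (p : ℕ) (_ : Fact p.Prime) (e : ZMod p ≃ V), (2 : ZMod p) ≠ 0 ∧ e 0 = v ∧ (∀ i j i' j', j - i = j' - i' ∨ j - i = i' - j' →
      (G.Adj (e i) (e j) ↔ G.Adj (e i') (e j'))) ∧
    (∀ g : G ≃g G, ∃ b, (∀ i, g • e i = e (i + b)) ∨ ∀ i, g • e i = e (b - i)) ∧
    ∃ (P : ℚ[X]) (c : ℚ), aeval (G.adjMatrix ℝ) P =
      circ e fun d => (if d = 1 then 1 else 0) + (if d = -1 then 1 else 0) + c := by
  obtain ⟨p, hp, e, r, h0, h1, h2⟩ := h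
  have h3 : ∀ i j b, G.Adj (e (i + b)) (e (j + b)) ↔ G.Adj (e i) (e j) := fun i j b => by
    obtain ⟨b, rfl⟩ := ZMod.natCast_zmod_surjective b
    induction b with
    | zero => simp
    | succ b ih =>
      rw [Nat.cast_succ, ← add_assoc, ← add_assoc, ← h1, ← h1, ← ih]
      exact r.map_adj_iff
  have h4 : ∀ i j, G.Adj (e i) (e j) ↔ G.Adj (e 0) (e (j - i)) := fun i j => by
    rw [← h3 0 _ i, zero_add, sub_add_cancel]
  refine ⟨p, inferInstance, e, fun h2 => nt fun x y x' y' n n' => ?_, h0, fun i j i' j' hh => ?_,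
    h2, ?_⟩
  · obtain rfl : p = 2 := (Nat.prime_dvd_prime_iff_eq hp.1 Nat.prime_two).1
      ((ZMod.natCast_eq_zero_iff 2 p).1 (by exact_mod_cast h2))
    obtain ⟨x, rfl⟩ := e.surjective x
    obtain ⟨y, rfl⟩ := e.surjective y
    obtain ⟨x', rfl⟩ := e.surjective x'
    obtain ⟨y', rfl⟩ := e.surjective y'
    rw [e.injective.ne_iff] at n n'
    rw [h4, zmod_two _ _ _ _ n n', ← h4]
    exact id
  · rcases hh with hh | hh
    · rw [h4, hh, ← h4]
    · rw [h4, hh, ← h4, G.adj_comm]
  have h5 : G.adjMatrix ℝ = circ e fun d => if G.Adj (e 0) (e d) then 1 else 0 := by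
    ext x y
    simp [circ, ← h4, apply_ite]
  rw [h5]
  refine circ_poly e _ (by simp) fun m hm ha => ?_
  obtain ⟨b, hb⟩ := h2 ⟨e.symm.trans ((Equiv.mulLeft₀ m hm).trans e), fun {x y} => by
    obtain ⟨x, rfl⟩ := e.surjective x
    obtain ⟨y, rfl⟩ := e.surjective y
    have := ha (y - x)
    simp only [Equiv.trans_apply, Equiv.symm_apply_apply, Equiv.mulLeft₀_apply]
    rw [h4, ← mul_sub, h4 x]
    split_ifs at this <;> simp_all⟩
  refine hb.imp (fun h => ?_) fun h => ?_ <;>
  · have a := h 0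
    have b := h 1
    simp only [RelIso.smul_def, RelIso.coe_fn_mk, Equiv.trans_apply, Equiv.symm_apply_apply,
      Equiv.mulLeft₀_apply, e.apply_eq_iff_eq] at a b
    linear_combination b - a

/-- the rotations and reflections -/
def dT (e : ZMod p ≃ V) (h1 : ∀ i j i' j', j - i = j' - i' ∨ j - i = i' - j' →
    (G.Adj (e i) (e j) ↔ G.Adj (e i') (e j'))) : ZMod p ⊕ ZMod p → G ≃g G := Sum.elim
  (fun t => ⟨e.symm.trans ((Equiv.addRight t).trans e), fun {x y} => by
    rw [← e.apply_symm_apply x, ← e.apply_symm_apply y]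
    exact h1 _ _ _ _ (.inl (by simp))⟩)
  fun t => ⟨e.symm.trans ((Equiv.subLeft t).trans e), fun {x y} => by
    rw [← e.apply_symm_apply x, ← e.apply_symm_apply y]
    exact h1 _ _ _ _ (.inr (by simp))⟩

theorem Dih.compact {v : V} (h : Dih (G ≃g G) v) : Compact G := by
  by_cases nt : Triv G
  · exact compact_triv nt
  obtain ⟨p, hp, e, h3, -, h1, -, P, c, hP⟩ := h.data nt
  refine compact_of_hull fun X hX => ?_
  have r1 := fun i => sum_row_of_mem_doublyStochastic hX.1 (e i)
  have r2 := fun i => sum_col_of_mem_doublyStochastic hX.1 (e i)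
  simp only [← e.sum_comp] at r1 r2
  have h4 : aeval (G.adjMatrix ℝ) P * X = X * aeval (G.adjMatrix ℝ) P := by
    rw [aeval_eq_sum_range]
    exact (Commute.sum_left _ _ _ fun i _ => (Commute.pow_left hX.2 i).smul_left _).eq
  have h5 : ∀ i j, X (e (i + 1)) (e j) + X (e (i - 1)) (e j) =
      X (e i) (e (j - 1)) + X (e i) (e (j + 1)) := fun i j => by
    have := congrFun (congrFun h4 (e i)) (e j)
    rw [hP] at this
    simp only [circ, mul_apply, of_apply, ← e.sum_comp, Equiv.symm_apply_apply] at this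
    push_cast at this
    simp only [add_mul, mul_add, sum_add_distrib, ← mul_sum, ← sum_mul, r1, r2, apply_ite Rat.cast,
      Rat.cast_one, Rat.cast_zero, ite_mul, mul_ite, one_mul, mul_one, zero_mul, mul_zero,
      show ∀ x, x - i = 1 ↔ x = i + 1 from fun x => sub_eq_iff_eq_add',
      show ∀ x, x - i = -1 ↔ x = i - 1 from fun x => by rw [sub_eq_iff_eq_add', sub_eq_add_neg],
      show ∀ x, j - x = 1 ↔ x = j - 1 from fun x => by rw [sub_eq_iff_comm, eq_comm],
      show ∀ x, j - x = -1 ↔ x = j + 1 from fun x => by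
        rw [sub_eq_iff_comm, eq_comm, sub_neg_eq_add], sum_ite_eq', mem_univ, if_true] at this
    linarith
  let F : ZMod p → ZMod p → ℝ := fun a b => X (e (b - a)) (e (a + b))
  have h6 := wave F fun a b => by
    have := h5 (b - a) (a + b + 1)
    simp only [F]
    ring_nf at this ⊢
    linarith
  obtain ⟨a0, h7⟩ := Finite.exists_min fun a => F a 0
  have h8 : ∀ i j, X (e i) (e j) = (F ((j - i) / 2) 0 - F a0 0) + F a0 ((i + j) / 2) := fun i j => by
    rw [← h6 _ _ ((i + j) / 2), sub_add_cancel]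
    simp only [F]
    congr 2 <;> field_simp <;> ring
  let T := dT e h1
  refine mem_convexHull_of_exists_fintype
    (Sum.elim (fun t => F (t / 2) 0 - F a0 0) fun t => F a0 (t / 2)) (fun t => pm (T t).toEquiv)
    ?_ ?_ (fun t => ⟨T t, rfl⟩) ?_
  · rintro (t | t)
    · exact sub_nonneg.2 (h7 _)
    · exact nonneg_of_mem_doublyStochastic hX.1
  · rw [← r1 0]
    simp [h8, sum_add_distrib]
  · ext x y
    obtain ⟨x, rfl⟩ := e.surjective x
    obtain ⟨y, rfl⟩ := e.surjective y
    simp [h8, T, dT, Matrix.sum_apply, pm_apply, ← eq_sub_iff_add_eq', sub_eq_iff_eq_add']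

end Pool.Agent.Lib.MP_3cc314_lc
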