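import Pool.Agent.Lib.MP_3cc314_lc.Circ

set_option autoImplicit false
set_option linter.unusedSectionVars false

namespace Pool.Agent.Lib.MP_3cc314_lc
open Finset MulAction

variable {V : Type} [Fintype V] [DecidableEq V] {G : SimpleGraph V} [DecidableRel G.Adj]
  [IsPreprimitive (G ≃g G) V]

theorem fin_aut : Finite (G ≃g G) := .of_injective _ RelIso.toEquiv_injective

theorem dih_of_rel (H : V → V → Prop) [DecidableRel H] (hs : ∀ x y, H x y → H y x)
    (hi : ∀ x, ¬ H x x) (hg : ∀ (g : G ≃g G) x y, H x y → H (g • x) (g • y)) (x y : V)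
    (hxy : H x y) (hd : #(univ.filter (H x)) ≤ 2) (v : V) : Dih (G ≃g G) v := by
  haveI : Nontrivial V := ⟨x, y, fun e => hi x (e ▸ hxy)⟩
  haveI := fin_aut (G := G)
  refine dih v (stab_two H hs hi hg ⟨x, y, hxy⟩ (fun z a b c ha hb hc => ?_) v)
  obtain ⟨g, rfl⟩ := exists_smul_eq (G ≃g G) z x
  by_contra hh
  push Not at hh
  refine absurd (two_lt_card_iff.2 ⟨g • a, g • b, g • c, ?_, ?_, ?_, ?_, ?_, ?_⟩) hd.not_gt <;>
    simp only [mem_filter, mem_univ, true_and, Ne, smul_left_cancel_iff, hg, *, not_false_iff]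

theorem Compact.dih (hG : Compact G) (nt : ¬ Triv G) (v : V) : Dih (G ≃g G) v := by
  classical
  haveI : Nontrivial V := by
    by_contra hh
    rw [not_nontrivial_iff_subsingleton] at hh
    exact nt fun x y _ _ n => absurd (Subsingleton.elim x y) n
  have h := hG.sch
  rcases h.main with a | ⟨x, y, n, a⟩
  · refine absurd (fun x y x' y' n n' b => ?_) nt
    obtain ⟨g, rfl, rfl⟩ := (h.hcol _ _ _ _).1 (a x y x' y' n n')
    exact g.map_adj_iff.2 b
  · refine dih_of_rel _ (fun a b e => (h.sym _ _).trans e) (fun z e => n ?_)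
      (fun g a b e => (h.smul g a b).trans e) x y rfl a v
    obtain ⟨g, rfl, rfl⟩ := (h.hcol _ _ _ _).1 e
    rfl

theorem compact_iff : Compact G ↔
    G = ⊥ ∨ G = ⊤ ∨ ((Fintype.card V).Prime ∧ Nat.card (G ≃g G) = 2 * Fintype.card V) := by
  rw [← or_assoc, ← triv_iff]
  refine ⟨fun hG => or_iff_not_imp_left.2 fun nt => ?_, fun h => h.elim compact_triv fun h => ?_⟩
  · obtain ⟨v, -⟩ := not_forall.1 nt
    obtain ⟨p, hp, e, h3, -, h1, h2, -⟩ := (hG.dih nt v).data nt
    have a : ∀ t i, dT e h1 (.inl t) (e i) = e (i + t) := fun t i => by simp [dT]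
    have b : ∀ t i, dT e h1 (.inr t) (e i) = e (t - i) := fun t i => by simp [dT]
    rw [← Fintype.card_congr e, ZMod.card, ← Nat.card_eq_of_bijective (dT e h1) ⟨?_, fun g => ?_⟩]
    · exact ⟨hp.1, by simp [two_mul]⟩
    · rintro (s | s) (t | t) h <;>
        have c := congrArg (· (e 0)) h <;>
        have d := congrArg (· (e 1)) h <;>
        simp only [a, b, e.apply_eq_iff_eq] at c d
      · simpa using c
      · exact absurd (by linear_combination d - c) h3
      · exact absurd (by linear_combination c - d) h3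
      · simpa using c
    · obtain ⟨t, h | h⟩ := h2 g
      · exact ⟨.inl t, RelIso.ext (e.forall_congr_right.1 fun i => (a t i).trans (h i).symm)⟩
      · exact ⟨.inr t, RelIso.ext (e.forall_congr_right.1 fun i => (b t i).trans (h i).symm)⟩
  · haveI : Nontrivial V := Fintype.one_lt_card_iff_nontrivial.1 h.1.one_lt
    haveI := fin_aut (G := G)
    obtain ⟨v⟩ : Nonempty V := inferInstance
    have a := (stabilizer (G ≃g G) v).card_mul_index
    rw [index_stabilizer_of_transitive, h.2, Nat.card_eq_fintype_card (α := V), Nat.mul_left_inj h.1.ne_zero,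
      Nat.card_eq_two_iff' 1] at a
    exact (dih v fun g g' e e' n n' => congrArg Subtype.val (a.unique (y₁ := ⟨g, e⟩) (y₂ := ⟨g', e'⟩)
      (mt Subtype.ext_iff.1 n) (mt Subtype.ext_iff.1 n'))).compact

end Pool.Agent.Lib.MP_3cc314_lc
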