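import Mathlib

set_option autoImplicit false

namespace Pool.Agent.Lib.MP_3cc314_lc

theorem num1 {k μ K l b : ℕ} (hk : 3 ≤ k) (n1 : μ * K + k = k * k) (h1 : 2 * μ ≤ k)
    (h2 : k + 1 ≤ 4 * μ) (h3 : l + b + 1 = K)
    (cs : μ * (k - 2) ^ 2 ≤ l * (k - 2 + (μ - 1) * (μ - 2)))
    (n5 : K ≤ 3 * b ∨ 2 * k * K ≤ K * b + 4 * k * b) :
    (k = 3 ∧ μ = 1) ∨ (k = 6 ∧ μ = 2) ∨ (k = 7 ∧ μ = 2) ∨ (k = 10 ∧ μ = 3) := by
  have hK : 2 * k ≤ K + 2 := by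
    refine Nat.le_of_mul_le_mul_left (c := μ) ?_ (by omega)
    obtain ⟨j, rfl⟩ : ∃ j, k = j + 1 := ⟨k - 1, by omega⟩
    nlinarith [Nat.mul_le_mul_right j h1]
  have hb : 2 * k ≤ 3 * b + 2 := by
    rcases n5 with n5 | n5
    · omega
    · by_contra hh
      nlinarith [Nat.mul_le_mul_right (K + 4 * k) (show 3 * b + 3 ≤ 2 * k by omega),
        Nat.mul_le_mul_left (4 * k + 3) hK]
  have hμ : μ ≤ 11 := by
    by_contra hh
    obtain ⟨s, rfl⟩ : ∃ s, μ = s + 2 := ⟨μ - 2, by omega⟩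
    obtain ⟨j, rfl⟩ : ∃ j, k = s + 2 + (j + 1) := ⟨k - (s + 3), by omega⟩
    subst h3
    rw [show s + 2 + (j + 1) - 2 = s + j + 1 by omega, show s + 2 - 1 = s + 1 by omega,
      Nat.add_sub_cancel] at cs
    have e1 : b * ((s + 2) * (s + j + 1 + (s + 1) * s)) ≤ (j + 1) ^ 2 * j := by
      have := Nat.mul_le_mul_left (s + 2) cs
      have e : (s + 2) * l + (s + 2) * b + (s + 2) = (s + j + 3) * (s + j + 2) := by nlinarith
      have := congrArg (HMul.hMul (s + j + 1 + (s + 1) * s)) e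
      nlinarith
    have e2 : 8 * j ≤ 9 * b := by omega
    have e3 : (s + 2) * ((s + 2) * (s + 1)) ≤ (s + 2) * (s + j + 1 + (s + 1) * s) :=
      Nat.mul_le_mul_left _ (by nlinarith [show s + 1 ≤ j by omega])
    have e4 : (j + 1) ^ 2 ≤ (3 * (s + 2)) ^ 2 := Nat.pow_le_pow_left (by omega) 2
    have e5 : j * ((s + 2) ^ 2 * (8 * (s + 1))) ≤ j * ((s + 2) ^ 2 * 81) := by
      nlinarith [Nat.mul_le_mul e2 e3, Nat.mul_le_mul_right j e4]
    have e6 := Nat.le_of_mul_le_mul_left (Nat.le_of_mul_le_mul_left e5 (by omega)) (by positivity)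
    omega
  have hk2 : k ≤ 43 := by omega
  obtain rfl : K = (k * k - k) / μ := by
    rw [← n1, Nat.add_sub_cancel, Nat.mul_div_cancel_left _ (by omega)]
  clear hK hb
  interval_cases μ <;> interval_cases k <;> first | omega | decide

theorem num {k μ K l b q a p m τ : ℕ} (hk : 3 ≤ k) (n1 : μ * K + k = k * k) (c1 : q + τ = 2 * p)
    (c2 : q * m = a * p) (t1 : 1 ≤ τ) (t2 : τ ≤ μ) (hq : k ≤ q) (ha : k ≤ a)
    (n3 : m * p + μ ≤ μ * q + m) (n4 : p * m + 2 * μ ≤ μ * a + τ + p) (h1 : 2 * μ ≤ k)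
    (h3 : l + b + 1 = K) (cs : μ * (k - 2) ^ 2 ≤ l * (k - 2 + (μ - 1) * (μ - 2)))
    (n5 : K ≤ 3 * b ∨ 2 * k * K ≤ K * b + 4 * k * b) :
    k = 3 ∧ μ = 1 ∧ q = 3 ∧ a = 3 ∧ p = 2 ∧ m = 2 := by
  have e1 : a < 2 * m := by
    refine Nat.lt_of_mul_lt_mul_left (a := q) ?_
    nlinarith [Nat.mul_le_mul_left a (show q + 1 ≤ 2 * p by omega)]
  have e2 : m ≤ 2 * μ := by
    obtain ⟨q, rfl⟩ : ∃ j, q = j + 1 := ⟨q - 1, by omega⟩
    refine Nat.le_of_mul_le_mul_left (c := q) ?_ (by omega)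
    nlinarith [Nat.mul_le_mul_left m (show q + 2 ≤ 2 * p by omega)]
  have e3 : p ≤ 2 * μ := by
    obtain ⟨a, rfl⟩ : ∃ j, a = j + 1 := ⟨a - 1, by omega⟩
    refine Nat.le_of_mul_le_mul_left (c := a) ?_ (by omega)
    nlinarith [Nat.mul_le_mul_left p (show a + 2 ≤ 2 * m by omega)]
  obtain rfl : τ = 2 * p - q := by omega
  have e4 : q < 2 * p := by omega
  rcases num1 hk n1 h1 (by omega) h3 cs n5 with ⟨rfl, rfl⟩ | ⟨rfl, rfl⟩ | ⟨rfl, rfl⟩ | ⟨rfl, rfl⟩ <;>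
    interval_cases p <;> interval_cases m <;> first | omega | decide

end Pool.Agent.Lib.MP_3cc314_lc
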