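import Pool.Agent.Lib.MP_3cc314_lc.SchB
import Pool.Agent.Lib.MP_3cc314_lc.Num

set_option autoImplicit false
set_option linter.unusedSectionVars false

namespace Pool.Agent.Lib.MP_3cc314_lc
open Finset

variable {Γ V ι : Type*} [Group Γ] [MulAction Γ V] [Fintype V] [DecidableEq V] [DecidableEq ι]
  {col : V → V → ι}

namespace Sch
variable (h : Sch Γ col)
include h

theorem index (u x : V) :
    (MulAction.stabilizer (MulAction.stabilizer Γ u) x).index = #(N col (col u x) u) := by
  rw [MulAction.index_stabilizer, ← Set.ncard_coe_finset]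
  congr 1
  ext z
  simp only [MulAction.mem_orbit_iff, mem_coe, mem_N]
  rw [eq_comm (a := col u z), h.hcol]
  exact ⟨fun ⟨g, e⟩ => ⟨g.1, g.2, e⟩, fun ⟨g, e1, e2⟩ => ⟨⟨g, e1⟩, e2⟩⟩

variable {R a : ι}

theorem cubic (m : Mn col R 3) {u c d1 d2 w : V} (hc : col u c = R) (h1 : col u d1 = R)
    (h2 : col u d2 = R) (n12 : d1 ≠ d2) (e : col w d1 = col w d2) (ec : col w c ≠ col w d1)
    (hT : N col (col w u) w ⊆ N col R d1 ∪ N col R d2) (hμ : #(N col R d1 ∩ N col R d2) = 1)
    (hq : #(N col (col w u) w) = 3) (hp : #(N col R d1 ∩ N col (col w u) w) = 2)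
    (hm : #(N col R u ∩ N col (col w d1) w) = 2) : False := by
  have u1 : u ∈ N col R d1 := by rw [mem_N, h.sym, h1]
  have u2 : u ∈ N col R d2 := by rw [mem_N, h.sym, h2]
  have uniq : ∀ g : Γ, col w (g • u) = col w u → col w (g • c) ≠ col w d1 → g • w = w := by
    intro g e1 e2
    have c1 := h.inc (col w d1) u c w
    rw [hc, m.val, h.sym u w, h.card_N _ u w, hq, inter_comm _ (N col R u), hm] at c1
    have c2 := card_sdiff_add_card_inter (N col (col w u) u) (N col (col w d1) c)
    rw [h.card_N _ u w, hq, inter_comm] at c2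
    rw [← eq_inv_smul_iff]
    refine card_le_one.1 (show #(N col (col w u) u \ N col (col w d1) c) ≤ 1 by omega) _ ?_ _ ?_
    · simp [h.sym u, h.sym c, ec]
    · simp only [mem_sdiff, mem_N]
      rw [← h.smul g, ← h.smul g c, smul_inv_smul, h.sym, h.sym _ w]
      exact ⟨e1, e2⟩
  obtain ⟨s, s1, s2⟩ := exists_mem_notMem_of_card_lt_card (s := N col R d1 ∩ N col (col w u) w)
    (t := N col R d1) (by rw [hp, m.val]; omega)
  obtain ⟨y, y1, y2⟩ := exists_mem_notMem_of_card_lt_card (s := {d1, d2}) (t := N col R s)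
    (by rw [m.val]; exact card_le_two.trans_lt (by omega))
  simp only [mem_inter, mem_N, mem_insert, mem_singleton, not_or] at s1 s2 y1 y2
  obtain ⟨g0, rfl, rfl⟩ := (h.hcol _ _ _ _).1 (hc.trans y1.symm)
  have inT : ∀ g : Γ, g • w = w → col w (g • u) = col w u := fun g e => by rw [← h.smul g w u, e]
  obtain ⟨v, hv⟩ := h.cov u (N col R d1 ∪ N col R d2) {(c, d1), (c, d2), (w, w)} (by
      intro g p hp e
      simp only [mem_insert, mem_singleton] at hp
      rcases hp with rfl | rfl | rfl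
      · exact mem_union_left _ (by rw [mem_N, ← show g • c = d1 from e, h.smul, h.sym, hc])
      · exact mem_union_right _ (by rw [mem_N, ← show g • c = d2 from e, h.smul, h.sym, hc])
      · exact hT (mem_N.2 (inT g e))) (by
      intro g p hp p' hp' e1 e2
      have k1 : g • w = w → g • c ≠ d1 := fun a b => ec (by rw [← h.smul g, a, b])
      have k2 : g • w = w → g • c ≠ d2 := fun a b => ec (by rw [← h.smul g, a, b, e])
      simp only [mem_insert, mem_singleton] at hp hp'
      rcases hp with rfl | rfl | rfl <;> rcases hp' with rfl | rfl | rfl <;>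
        first | rfl | exact absurd (e1.symm.trans e2) n12 | exact absurd (e2.symm.trans e1) n12 |
          exact absurd e1 (k1 e2) | exact absurd e1 (k2 e2) | exact absurd e2 (k1 e1) |
          exact absurd e2 (k2 e1)) g0 (mem_union_left _ (mem_N.2 s1)) (by
      intro p hp
      simp only [mem_insert, mem_singleton] at hp
      rcases hp with rfl | rfl | rfl
      exacts [y2.1, y2.2, fun e => s2 ⟨s1, inT g0 e⟩])
  simp only [mem_insert, mem_singleton, forall_eq_or_imp, forall_eq] at hv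
  have k1 : ∀ g : Γ, g • v = g0 • v → col w (g • u) = col w u → col w (g • c) = col w d1 :=
    fun g e1 e2 => by_contra fun e3 => (hv g e1).2.2.2 (uniq g e2 e3)
  have k2 : ∀ g : Γ, g • v = g0 • v → g • u ≠ u := fun g e1 e2 => by
    have : 2 < #(N col R u ∩ N col (col w d1) w) := two_lt_card_iff.2 ⟨g • c, d1, d2, by
      simp only [mem_inter, mem_N]
      exact ⟨by rw [← hc, ← h.smul g u c, e2], k1 g e1 (by rw [e2])⟩, by simp [h1],
      by simp [h2, e], (hv g e1).2.1, (hv g e1).2.2.1, n12⟩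
    omega
  have k3 : ∀ x y, col (g0 • v) y = col (g0 • v) (g0 • x) → ∃ g : Γ, g • v = g0 • v ∧ g • x = y :=
    fun x y e => (h.hcol _ _ _ _).1 (by rw [e, h.smul])
  set z := g0 • v with hz
  set T := N col (col z (g0 • u)) z with hT'
  have k4 : T ⊆ N col R d1 ∪ N col R d2 := fun t ht => by
    obtain ⟨g, e1, rfl⟩ := k3 u t (mem_N.1 ht)
    exact (hv g e1).1
  have k5 : u ∉ T := fun ht => by
    obtain ⟨g, e1, e2⟩ := k3 u u (mem_N.1 ht)
    exact k2 g e1 e2
  have k6 : ∀ d, col z (g0 • c) = col z d → ∃ g : Γ, g • v = z ∧ g • c = d := fun d e =>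
    k3 c d e.symm
  have k7 : col z (g0 • c) ≠ col z d1 := fun e => by
    obtain ⟨g, e1, e2⟩ := k6 _ e
    exact (hv g e1).2.1 e2
  have k8 : col z (g0 • c) ≠ col z d2 := fun e => by
    obtain ⟨g, e1, e2⟩ := k6 _ e
    exact (hv g e1).2.2.1 e2
  have n0 : z ≠ g0 • u := fun e => k7 (by rw [e, y1, h.sym, s1])
  have c3 := m.min _ _ n0
  have c4 : ∀ d, u ∈ N col R d → #(N col R d ∩ T) ≤ 2 := fun d hd => by
    have := card_le_card (s := N col R d ∩ T) (t := (N col R d).erase u) fun j hj =>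
      mem_erase.2 ⟨fun e => k5 (e ▸ (mem_inter.1 hj).2), (mem_inter.1 hj).1⟩
    rwa [card_erase_of_mem hd, m.val] at this
  have k9 : ∀ d d', u ∈ N col R d → u ∈ N col R d' → T ⊆ N col R d ∪ N col R d' → z ≠ d := by
    rintro d d' e1 e2 e3 rfl
    have := c4 d' e2
    rw [inter_eq_right.2 fun j hj => (mem_union.1 (e3 hj)).resolve_left fun e4 => k5 (by
      rw [hT', ← mem_N.1 hj, mem_N.1 e4]
      exact e1)] at this
    exact absurd (c3.trans this) (by omega)
  have c5 := h.cover (h.bal m n0 (k9 _ _ u1 u2 k4) (k9 _ _ u2 u1 (by rwa [union_comm])) k4 y1 k7 k8)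
    k4
  have c6 : #(N col R d1 ∩ N col R d2 ∩ T) = 0 := card_eq_zero.2 (eq_empty_of_forall_notMem
    fun j hj => k5 (card_le_one.1 hμ.le j (mem_inter.1 hj).1 u (mem_inter.2 ⟨u1, u2⟩) ▸
      (mem_inter.1 hj).2))
  have c7 := c4 d1 u1
  rw [← hT'] at c3 c5
  obtain ⟨t, t1, t2⟩ := exists_mem_ne (s := N col R d1 ∩ N col (col w u) w) (by omega) u
  have t3 : t ∈ T := by
    by_contra hh
    have := card_le_card (s := N col R d1 ∩ T) (t := ((N col R d1).erase u).erase t) fun j hj =>
      mem_erase.2 ⟨fun e => hh (e ▸ (mem_inter.1 hj).2),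
        mem_erase.2 ⟨fun e => k5 (e ▸ (mem_inter.1 hj).2), (mem_inter.1 hj).1⟩⟩
    rw [card_erase_of_mem (mem_erase.2 ⟨t2, (mem_inter.1 t1).1⟩), card_erase_of_mem u1, m.val] at this
    omega
  obtain ⟨g1, e1, rfl⟩ := k3 u t (mem_N.1 t3)
  simp only [mem_inter, mem_N] at t1
  have c8 : #((N col R (g1 • u) ∩ N col (col w d1) w).erase d1) ≤ 1 := by
    rw [card_erase_of_mem (by simp [h.sym _ d1, t1.1]),
      h.card_inter (x' := u) (y' := w) (by rw [h.sym, t1.2, h.sym]), hm]
  have k10 : ∀ g : Γ, g • v = z → g • u = g1 • u →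
      g • c ∈ (N col R (g1 • u) ∩ N col (col w d1) w).erase d1 := fun g e1 e2 => by
    simp only [mem_erase, mem_inter, mem_N]
    exact ⟨(hv g e1).2.1, by rw [← e2, h.smul, hc], k1 g e1 (by rw [e2, t1.2])⟩
  have c9 := Subgroup.index_dvd_of_le (H := MulAction.stabilizer (MulAction.stabilizer Γ u) v)
    (K := MulAction.stabilizer (MulAction.stabilizer Γ u) c) fun g hg =>
      (smul_left_cancel_iff g1).1 (card_le_one.1 c8 _ (by
        rw [← show (g1 * g.1) • c = g1 • g • c from mul_smul _ _ _]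
        exact k10 _ (by rw [mul_smul, show g.1 • v = v from hg, e1]) (by rw [mul_smul, g.2])) _
        (k10 g1 e1 rfl))
  rw [h.index, h.index, hc, m.val, h.sym u v, ← h.smul g0 v u, h.card_N _ u z, ← hT'] at c9
  omega

theorem two_trans {k : ℕ} (m : Mn col R k) (x y : V) (n : x ≠ y) : col x y = R := by
  obtain ⟨a, ha0, ha⟩ := h.mono m x
  obtain ⟨c, d1, d2, hc, h1, h2, n1, n2, n3⟩ := two_lt_card_iff.1 (show 2 < #(N col R x) by
    rw [m.val]; exact m.three)
  rw [mem_N] at hc h1 h2
  by_cases e : a = R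
  · subst e
    refine ((h.prim (fun x y => x = y ∨ col x y = a) ⟨fun _ => .inl rfl,
      fun hh => hh.imp Eq.symm fun e => by rw [h.sym, e], by
        rintro x y z (rfl | e1) e2
        · exact e2
        rcases e2 with rfl | e2
        · exact .inr e1
        exact or_iff_not_imp_left.2 (ha y x z (by rw [h.sym, e1]) e2)⟩
      (fun g x y hh => hh.imp (congrArg _) fun e => by rw [h.smul, e])).resolve_left
        (fun hh => n1 (hh _ _ (.inr (ha x c d1 hc h1 n1)))) x y).resolve_left n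
  have s : Sq col R a := ⟨ha, ha0, e⟩
  have e1 := ha x c d1 hc h1 n1
  have e2 := ha x d1 d2 h1 h2 n3
  obtain ⟨w, w1, w2, e3, hT, k1⟩ := h.exc m hc h1 n1 (e2.trans e1.symm) n2.symm
    (.inr ((ha x c d2 hc h2 n2).trans e1.symm))
  exfalso
  clear n y
  have u1 : x ∈ N col R d1 := by rw [mem_N, h.sym, h1]
  have u2 : x ∈ N col R d2 := by rw [mem_N, h.sym, h2]
  have c1 := h.cover e3 hT
  have c2 := h.inc R w x d1
  have t1 : 1 ≤ #(N col R d1 ∩ N col R d2 ∩ N col (col w x) w) :=
    card_pos.2 ⟨x, by simp only [mem_inter]; exact ⟨⟨u1, u2⟩, by simp⟩⟩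
  have t2 : #(N col R d1 ∩ N col R d2 ∩ N col (col w x) w) ≤ #(N col R d1 ∩ N col R d2) :=
    card_le_card inter_subset_left
  have cμ : ∀ x y, col x y = a → #(N col R x ∩ N col R y) = #(N col R d1 ∩ N col R d2) :=
    fun x y e => h.card_inter (e.trans e2.symm) _ _
  have hq := m.min w x w1
  have hk := m.min w d1 w2
  have clA : ∀ x y, col w x = col w d1 → col w y = col w d1 → x ≠ y → col x y = a :=
    fun _ _ => h.cl m s (u := x) (by omega)
  have clT : ∀ y z, col w y = col w x → col w z = col w x → y ≠ z → col y z = a := fun _ _ =>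
    h.cl m s (u := d1) (Nat.lt_of_mul_lt_mul_left (a := #(N col (col w x) w)) (by
      have := m.three
      nlinarith [Nat.mul_le_mul_left #(N col (col w d1) w) (show #(N col (col w x) w) + 1 ≤
        2 * #(N col R d1 ∩ N col (col w x) w) by omega)]))
  obtain ⟨z, z', z1, z2, z3, z4⟩ := h.nontr m s w
  have q1 : col w x ≠ a := fun e => z4 (clT z z' (z1.trans e.symm) (z2.trans e.symm) z3)
  have q2 : col w x ≠ R := fun e => by
    have e' := ha x w d1 (by rw [h.sym, e]) h1 w2
    exact z4 (clA z z' (z1.trans e'.symm) (z2.trans e'.symm) z3)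
  have c3 := h.inc2 (R := R) (w := w) (u := d1) (d := x)
  have c4 := h.inc2 (R := R) (w := w) (u := x) (d := d1)
  have c5 : ∑ y ∈ (N col (col w x) w).erase x, #(N col R y ∩ (N col R x ∩ N col (col w d1) w)) ≤
      (#(N col (col w x) w) - 1) * #(N col R d1 ∩ N col R d2) := by
    rw [← card_erase_of_mem (a := x) (by simp), ← smul_eq_mul]
    refine sum_le_card_nsmul _ _ _ fun y hy => ?_
    rw [mem_erase, mem_N] at hy
    rw [← cμ y x (clT _ _ hy.2 rfl hy.1), ← inter_assoc]
    exact card_le_card inter_subset_left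
  have m2 : d2 ∈ (N col (col w d1) w).erase d1 := by simp [e3, n3.symm]
  have c6 : ∑ y ∈ ((N col (col w d1) w).erase d1).erase d2,
      #(N col R y ∩ (N col R d1 ∩ N col (col w x) w)) ≤
      (#(N col (col w d1) w) - 1 - 1) * #(N col R d1 ∩ N col R d2) := by
    rw [← card_erase_of_mem (a := d1) (by simp), ← card_erase_of_mem m2, ← smul_eq_mul]
    refine sum_le_card_nsmul _ _ _ fun y hy => ?_
    rw [mem_erase, mem_erase, mem_N] at hy
    rw [← cμ y d1 (clA _ _ hy.2.2 rfl hy.2.1), ← inter_assoc]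
    exact card_le_card inter_subset_left
  rw [← add_sum_erase _ _ m2, ← inter_assoc, inter_comm (N col R d2)] at c4
  have c7 : 2 * #(N col R d1 ∩ N col R d2) ≤ k := by
    have := card_le_card (s := N col R w ∩ N col R z ∪ N col R w ∩ N col R z') (t := N col R w)
      (union_subset inter_subset_left inter_subset_left)
    rw [card_union_of_disjoint (disjoint_left.2 fun j a b => z4 (h.com m s (z := j)
      (mem_inter.2 ⟨(mem_inter.1 a).2, (mem_inter.1 b).2⟩) z3)), cμ w z z1, cμ w z' z2, m.val] at this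
    omega
  obtain ⟨b, hb⟩ : ∃ b, #(N col a w ∩ N col a z) + b + 1 = #(N col a w) := by
    have := card_lt_card (s := N col a w ∩ N col a z) (t := N col a w)
      ⟨inter_subset_left, fun hh => by simpa [ha0] using hh (mem_N.2 z1)⟩
    exact ⟨#(N col a w) - #(N col a w ∩ N col a z) - 1, by omega⟩
  have c8 := h.n1 m s z1
  have c9 := h.cs m s z1
  rw [cμ w z z1] at c8 c9
  have three := m.three
  obtain ⟨rfl, r1, r2, -, r3, r4⟩ := num three c8 c1 c2 t1 t2 hq hk (by
      obtain ⟨j, hj⟩ : ∃ j, #(N col (col w x) w) = j + 1 := ⟨_, (Nat.sub_add_cancel (by omega)).symm⟩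
      rw [hj, Nat.add_sub_cancel] at c5
      rw [hj]
      nlinarith) (by
      obtain ⟨j, hj⟩ : ∃ j, #(N col (col w d1) w) = j + 2 :=
        ⟨_, (Nat.sub_add_cancel (by omega)).symm⟩
      rw [hj, show j + 2 - 1 - 1 = j by omega] at c6
      rw [hj]
      nlinarith) c7 hb c9 (h.n5 m s z1 w1 q1 q2 hb)
  exact h.cubic m hc h1 h2 n3 e3 (fun e => ha0 c ((k1 c hc e).trans e1)) hT r1 r2 r3 r4

/-- either the action is 2-transitive or it has a non-trivial suborbit of size at most two -/
theorem main : (∀ x y x' y', x ≠ y → x' ≠ y' → col x y = col x' y') ∨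
    ∃ x y, x ≠ y ∧ #(N col (col x y) x) ≤ 2 := by
  refine or_iff_not_imp_right.2 fun hh x y x' y' n n' => ?_
  push Not at hh
  obtain ⟨p, p1, p2⟩ := exists_min_image (univ.filter fun p : V × V => p.1 ≠ p.2)
    (fun p => #(N col (col p.1 p.2) p.1)) ⟨(x, y), by simpa⟩
  rw [mem_filter] at p1
  have m : Mn col (col p.1 p.2) #(N col (col p.1 p.2) p.1) := ⟨fun x => h.card_N _ _ _,
    fun x e => p1.2 (h.eq_of e.symm), fun x y n => p2 (x, y) (by simpa), hh _ _ p1.2⟩
  rw [h.two_trans m x y n, h.two_trans m x' y' n']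

end Sch
end Pool.Agent.Lib.MP_3cc314_lc
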