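import Pool.Agent.Lib.MP_3cc314_lc.Defs
import Pool.Agent.Lib.MP_3cc314_lc.SchC

set_option autoImplicit false
set_option linter.unusedSectionVars false

namespace Pool.Agent.Lib.MP_3cc314_lc
open Finset Matrix

variable {V : Type} [Fintype V] [DecidableEq V] {G : SimpleGraph V} [DecidableRel G.Adj]

def pm (σ : V ≃ V) : Matrix V V ℝ := Matrix.of fun i j => if σ i = j then 1 else 0

theorem pm_apply (σ : V ≃ V) (i j : V) : pm σ i j = if σ i = j then 1 else 0 := rfl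

theorem pm_mul (σ : V ≃ V) (M : Matrix V V ℝ) (i j : V) : (pm σ * M) i j = M (σ i) j := by
  simp [mul_apply, pm_apply]

theorem mul_pm (σ : V ≃ V) (M : Matrix V V ℝ) (i j : V) : (M * pm σ) i (σ j) = M i j := by
  simp [mul_apply, pm_apply]

theorem comm_pm (σ : V ≃ V) (M : Matrix V V ℝ) :
    M * pm σ = pm σ * M ↔ ∀ i j, M (σ i) (σ j) = M i j := by
  refine ⟨fun h i j => by rw [← pm_mul σ M, ← h, mul_pm], fun h => ext fun i j => ?_⟩
  obtain ⟨j, rfl⟩ := σ.surjective j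
  rw [pm_mul, mul_pm, h]

theorem pm_ds (σ : V ≃ V) : pm σ ∈ doublyStochastic ℝ V :=
  mem_doublyStochastic_iff_sum.2 ⟨fun i j => by rw [pm_apply]; split_ifs <;> norm_num,
    fun i => by simp [pm_apply], fun j => by simp [pm_apply, ← σ.eq_symm_apply]⟩

theorem pm_mem (g : G ≃g G) : pm g.toEquiv ∈ fracAut G :=
  ⟨pm_ds _, (comm_pm _ _).2 fun i j => by simp [g.map_adj_iff]⟩

theorem eq_pm {X : Matrix V V ℝ} (hX : X ∈ fracAut G) (hi : ∀ i j, ∃ z : ℤ, X i j = z) :
    ∃ g : G ≃g G, X = pm g.toEquiv := by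
  have h1 : ∀ i j, X i j = 0 ∨ X i j = 1 := fun i j => by
    obtain ⟨z, hz⟩ := hi i j
    have a := nonneg_of_mem_doublyStochastic hX.1 (i := i) (j := j)
    have b := le_one_of_mem_doublyStochastic hX.1 (i := i) (j := j)
    rw [hz] at a b ⊢
    norm_cast at a b ⊢
    omega
  have h2 : X ∈ Set.extremePoints ℝ (doublyStochastic ℝ V : Set (Matrix V V ℝ)) := by
    refine ⟨hX.1, fun Y hY Z hZ ⟨a, b, ha, hb, hab, e⟩ => ext fun i j => ?_⟩
    have e1 : a * Y i j + b * Z i j = X i j := congrFun (congrFun e i) j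
    have := nonneg_of_mem_doublyStochastic hY (i := i) (j := j)
    have := le_one_of_mem_doublyStochastic hY (i := i) (j := j)
    have := nonneg_of_mem_doublyStochastic hZ (i := i) (j := j)
    have := le_one_of_mem_doublyStochastic hZ (i := i) (j := j)
    rcases h1 i j with e | e <;> rw [e] at e1 ⊢ <;> nlinarith
  rw [extremePoints_doublyStochastic] at h2
  obtain ⟨σ, hσ⟩ := h2
  have h3 : X = pm σ := by
    rw [← hσ]
    ext i j
    simp [pm_apply, Equiv.toPEquiv_apply, PEquiv.toMatrix_apply]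
  refine ⟨⟨σ, fun {i j} => ?_⟩, h3⟩
  have := (comm_pm σ _).1 (h3 ▸ hX.2) i j
  simp only [SimpleGraph.adjMatrix_apply] at this
  split_ifs at this <;> simp_all

theorem convex_fracAut : Convex ℝ (fracAut G) := fun X hX Y hY a b ha hb hab =>
  ⟨convex_doublyStochastic hX.1 hY.1 ha hb hab, by
    rw [mul_add, add_mul, mul_smul_comm, mul_smul_comm, smul_mul_assoc, smul_mul_assoc, hX.2, hY.2]⟩

theorem Compact.lin (hG : Compact G) (φ : Matrix V V ℝ →ₗ[ℝ] ℝ)
    (h : ∀ g : G ≃g G, 0 ≤ φ (pm g.toEquiv)) {X : Matrix V V ℝ} (hX : X ∈ fracAut G) : 0 ≤ φ X := by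
  haveI : LocallyConvexSpace ℝ (Matrix V V ℝ) :=
    inferInstanceAs (LocallyConvexSpace ℝ (V → V → ℝ))
  have h1 : IsCompact (fracAut G) := by
    refine IsCompact.of_isClosed_subset (isCompact_univ_pi fun _ : V => isCompact_univ_pi
      fun _ : V => isCompact_Icc (a := (0 : ℝ)) (b := 1)) ?_ fun X hX i _ j _ =>
      ⟨nonneg_of_mem_doublyStochastic hX.1, le_one_of_mem_doublyStochastic hX.1⟩
    have : fracAut G = ((⋂ i, ⋂ j, {X : Matrix V V ℝ | 0 ≤ X i j}) ∩
        ((⋂ i, {X : Matrix V V ℝ | ∑ j, X i j = 1}) ∩ ⋂ j, {X : Matrix V V ℝ | ∑ i, X i j = 1})) ∩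
        {X | G.adjMatrix ℝ * X = X * G.adjMatrix ℝ} := by
      ext X
      simp [fracAut, mem_doublyStochastic_iff_sum]
    rw [this]
    refine ((isClosed_iInter fun i => isClosed_iInter fun j => isClosed_le ?_ ?_).inter
      ((isClosed_iInter fun i => isClosed_eq ?_ ?_).inter
        (isClosed_iInter fun i => isClosed_eq ?_ ?_))).inter (isClosed_eq ?_ ?_) <;> fun_prop
  rw [← closure_convexHull_extremePoints h1 convex_fracAut] at hX
  refine closure_minimal (convexHull_min (fun Y hY => ?_) ((convex_Ici 0).linear_preimage φ))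
    (isClosed_Ici.preimage φ.continuous_of_finiteDimensional) hX
  obtain ⟨g, rfl⟩ := eq_pm hY.1 (hG Y hY)
  exact h g

theorem Compact.comm (hG : Compact G) {B : Matrix V V ℝ}
    (h : ∀ (g : G ≃g G) i j, B (g i) (g j) = B i j) {X : Matrix V V ℝ} (hX : X ∈ fracAut G) :
    B * X = X * B := by
  ext i j
  let φ := entryLinearMap ℝ ℝ i j ∘ₗ (LinearMap.mulLeft ℝ B - LinearMap.mulRight ℝ B)
  have h0 : ∀ g : G ≃g G, φ (pm g.toEquiv) = 0 := fun g => by
    simp [φ, (comm_pm g.toEquiv B).2 (h g)]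
  have h1 := hG.lin φ (fun g => (h0 g).ge) hX
  have h2 := hG.lin (-φ) (fun g => by simp [h0 g]) hX
  simp only [φ, LinearMap.neg_apply, LinearMap.comp_apply, LinearMap.sub_apply,
    LinearMap.mulLeft_apply, LinearMap.mulRight_apply, entryLinearMap_apply, Matrix.sub_apply] at h1 h2
  linarith

theorem Compact.pos (hG : Compact G) [Nontrivial V] (φ : Matrix V V ℝ →ₗ[ℝ] ℝ)
    (h : ∀ g : G ≃g G, 0 ≤ φ (pm g.toEquiv)) (g0 : G ≃g G) (h0 : 0 < φ (pm g0.toEquiv)) :
    ∃ w, ∀ g : G ≃g G, g w = g0 w → 0 < φ (pm g.toEquiv) := by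
  by_contra hh
  push Not at hh
  choose g e1 e2 using hh
  have hn : (0 : ℝ) < Fintype.card V - 1 := by
    have : (1 : ℝ) < Fintype.card V := by exact_mod_cast Fintype.one_lt_card
    linarith
  have := hG.lin φ h (X := (Fintype.card V - 1 : ℝ)⁻¹ • (∑ w, pm (g w).toEquiv - pm g0.toEquiv))
    ⟨mem_doublyStochastic_iff_sum.2 ⟨fun i j => ?_, fun i => ?_, fun i => ?_⟩, ?_⟩
  · rw [map_smul, map_sub, map_sum, smul_eq_mul] at this
    have h1 := sum_nonpos (s := univ) fun w _ => e2 w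
    nlinarith [inv_pos.2 hn, mul_pos (inv_pos.2 hn) h0]
  · simp only [Matrix.smul_apply, Matrix.sub_apply, Matrix.sum_apply, smul_eq_mul]
    refine mul_nonneg (inv_pos.2 hn).le (sub_nonneg.2 (le_trans (le_of_eq ?_)
      (single_le_sum (fun w _ => nonneg_of_mem_doublyStochastic (pm_ds _)) (mem_univ i))))
    simp [pm_apply, e1]
  · simp only [Matrix.smul_apply, Matrix.sub_apply, Matrix.sum_apply, smul_eq_mul, ← mul_sum, sum_sub_distrib]
    rw [sum_comm]
    simp [sum_row_of_mem_doublyStochastic (pm_ds _), hn.ne']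
  · simp only [Matrix.smul_apply, Matrix.sub_apply, Matrix.sum_apply, smul_eq_mul, ← mul_sum, sum_sub_distrib]
    rw [sum_comm]
    simp [sum_col_of_mem_doublyStochastic (pm_ds _), hn.ne']
  · rw [mul_smul_comm, smul_mul_assoc, mul_sub, sub_mul, mul_sum, sum_mul, (pm_mem g0).2]
    simp only [(pm_mem _).2]

theorem skew_vec {S : Matrix V V ℝ} (hS : Sᵀ = -S) {v : V → ℝ}
    (h : S * vecMulVec v v = vecMulVec v v * S) : S *ᵥ v = 0 := by
  by_cases hv : v ⬝ᵥ v = 0
  · rw [dotProduct_self_eq_zero.1 hv, mulVec_zero]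
  have h1 : v ⬝ᵥ S *ᵥ v = 0 := by
    have := dotProduct_mulVec v S v
    rw [← mulVec_transpose, hS, neg_mulVec, neg_dotProduct, dotProduct_comm _ v] at this
    linarith
  have h2 := congrArg (· *ᵥ v) h
  simp only [← mulVec_mulVec, vecMulVec_mulVec, h1, op_smul_eq_smul, zero_smul, mulVec_smul] at h2
  exact (smul_eq_zero.1 h2).resolve_left hv

theorem Compact.swap (hG : Compact G) [MulAction.IsPretransitive (G ≃g G) V] (x y : V) :
    ∃ g : G ≃g G, g x = y ∧ g y = x := by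
  classical
  haveI : Nonempty V := ⟨x⟩
  let B : Matrix V V ℝ := of fun i j => if ∃ g : G ≃g G, g x = i ∧ g y = j then 1 else 0
  have hB : ∀ (g : G ≃g G) i j, B (g i) (g j) = B i j := fun g i j => by
    simp only [B, of_apply]
    congr 1
    exact propext ⟨fun ⟨a, e1, e2⟩ => ⟨g⁻¹ * a, by simp [e1], by simp [e2]⟩,
      fun ⟨a, e1, e2⟩ => ⟨g * a, by simp [e1], by simp [e2]⟩⟩
  have hS : (B - Bᵀ)ᵀ = -(B - Bᵀ) := by simp
  have h1 : ∀ X ∈ fracAut G, (B - Bᵀ) * X = X * (B - Bᵀ) := fun X =>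
    hG.comm fun g i j => by simp [hB]
  have hn : (0 : ℝ) < Fintype.card V := by exact_mod_cast Fintype.card_pos
  have hsym : (G.adjMatrix ℝ)ᵀ = G.adjMatrix ℝ := G.transpose_adjMatrix
  have hk : G.adjMatrix ℝ *ᵥ 1 = (G.degree x : ℝ) • (1 : V → ℝ) := by
    ext i
    obtain ⟨g, rfl⟩ := MulAction.exists_smul_eq (G ≃g G) x i
    simpa using g.degree_eq x
  have cm : ∀ (v : V → ℝ) (θ : ℝ), G.adjMatrix ℝ *ᵥ v = θ • v →
      G.adjMatrix ℝ * vecMulVec v v = vecMulVec v v * G.adjMatrix ℝ := fun v θ e => by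
    rw [mul_vecMulVec, vecMulVec_mul, ← mulVec_transpose, hsym, e, smul_vecMulVec, vecMulVec_smul]
  have mem : ∀ (v : V → ℝ) (θ ε : ℝ), G.adjMatrix ℝ *ᵥ v = θ • v → ∑ i, v i = 0 →
      (∀ i j, 0 ≤ (Fintype.card V : ℝ)⁻¹ + ε * (v i * v j)) →
      (Fintype.card V : ℝ)⁻¹ • vecMulVec 1 1 + ε • vecMulVec v v ∈ fracAut G :=
    fun v θ ε e1 e2 e3 => ⟨mem_doublyStochastic_iff_sum.2 ⟨fun i j => by
      simpa [vecMulVec_apply] using e3 i j,
      fun i => by simp [vecMulVec_apply, sum_add_distrib, ← mul_sum, e2, hn.ne'],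
      fun i => by simp [vecMulVec_apply, sum_add_distrib, ← mul_sum, ← sum_mul, e2, hn.ne']⟩, by
      simp only [mul_add, add_mul, mul_smul_comm, smul_mul_assoc, cm v θ e1, cm 1 _ hk]⟩
  have h2 : (B - Bᵀ) * vecMulVec 1 1 = vecMulVec 1 1 * (B - Bᵀ) := by
    have := h1 _ (mem 0 0 0 (by simp) (by simp) (by simp))
    simp only [zero_smul, add_zero, mul_smul_comm, smul_mul_assoc] at this
    exact smul_right_injective _ (inv_pos.2 hn).ne' this
  have h3 : ∀ (v : V → ℝ) (θ : ℝ), G.adjMatrix ℝ *ᵥ v = θ • v → ∑ i, v i = 0 →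
      (B - Bᵀ) *ᵥ v = 0 := fun v θ e1 e2 => by
    have hp : 0 < 1 + v ⬝ᵥ v := by
      have : 0 ≤ v ⬝ᵥ v := sum_nonneg fun i _ => mul_self_nonneg _
      linarith
    have hb : ∀ i, v i * v i ≤ v ⬝ᵥ v := fun i =>
      single_le_sum (f := fun i => v i * v i) (fun i _ => mul_self_nonneg _) (mem_univ i)
    have := h1 _ (mem v θ ((Fintype.card V : ℝ)⁻¹ * (1 + v ⬝ᵥ v)⁻¹) e1 e2 fun i j => by
      rw [show (Fintype.card V : ℝ)⁻¹ + (Fintype.card V : ℝ)⁻¹ * (1 + v ⬝ᵥ v)⁻¹ * (v i * v j) =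
        (Fintype.card V : ℝ)⁻¹ * (1 + v ⬝ᵥ v)⁻¹ * (1 + v ⬝ᵥ v + v i * v j) by field_simp]
      have : 0 ≤ 1 + v ⬝ᵥ v + v i * v j := by nlinarith [hb i, hb j, mul_self_nonneg (v i + v j)]
      positivity)
    simp only [mul_add, add_mul, mul_smul_comm, smul_mul_assoc, h2, add_right_inj] at this
    exact skew_vec hS (smul_right_injective _ (by positivity) this)
  have hA : (G.adjMatrix ℝ).IsHermitian := by
    rw [IsHermitian, conjTranspose_eq_transpose_of_trivial, hsym]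
  have h4 : ∀ j, (B - Bᵀ) *ᵥ (hA.eigenvectorBasis j).ofLp = 0 := fun j => by
    have e1 := hA.mulVec_eigenvectorBasis j
    set v := (hA.eigenvectorBasis j).ofLp
    have e2 : (G.degree x : ℝ) * ∑ i, v i = hA.eigenvalues j * ∑ i, v i := by
      have := dotProduct_mulVec 1 (G.adjMatrix ℝ) v
      rw [← mulVec_transpose, hsym, hk, e1] at this
      simpa [dotProduct, mul_sum] using this.symm
    have e3 := h3 (v - ((Fintype.card V : ℝ)⁻¹ * ∑ i, v i) • 1) (hA.eigenvalues j) (by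
      rw [mulVec_sub, mulVec_smul, hk, e1, smul_sub, smul_smul, smul_smul]
      congr 2
      linear_combination (Fintype.card V : ℝ)⁻¹ * e2) (by simp [hn.ne'])
    rwa [mulVec_sub, mulVec_smul, skew_vec hS h2, smul_zero, sub_zero] at e3
  have h5 : (B - Bᵀ) * hA.eigenvectorUnitary.1 = 0 := by
    ext i j
    simpa [mul_apply, mulVec, dotProduct] using congrFun (h4 j) i
  have h6 : B - Bᵀ = 0 := by
    rw [← mul_one (B - Bᵀ), ← Unitary.coe_mul_star_self hA.eigenvectorUnitary, ← mul_assoc, h5,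
      zero_mul]
  have h7 := congrFun (congrFun h6 y) x
  simp only [B, Matrix.sub_apply, transpose_apply, of_apply, Matrix.zero_apply] at h7
  by_contra hh
  rw [if_neg hh, if_pos ⟨1, rfl, rfl⟩] at h7
  simp at h7

theorem prim_rel {Γ V : Type*} [Group Γ] [MulAction Γ V] [MulAction.IsPreprimitive Γ V]
    (r : V → V → Prop) (hr : Equivalence r) (hg : ∀ (g : Γ) x y, r x y → r (g • x) (g • y)) :
    (∀ x y, r x y → x = y) ∨ ∀ x y, r x y := by
  refine or_iff_not_imp_left.2 fun hh x y => ?_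
  push Not at hh
  obtain ⟨a, b, e, n⟩ := hh
  have : MulAction.IsBlock Γ {z | r a z} := MulAction.isBlock_iff_smul_eq_of_mem.2 fun g c c1 c2 => by
    ext z
    rw [Set.mem_smul_set_iff_inv_smul_mem]
    refine ⟨fun e => ?_, fun e => ?_⟩
    · simpa using hr.trans c2 (hg g _ _ (hr.trans (hr.symm c1) e))
    · simpa using hr.trans c1 (by simpa using hg g⁻¹ _ _ (hr.trans (hr.symm c2) e))
  rcases this.subsingleton_or_eq_univ with h | h
  · exact absurd (h (hr.refl a) e) n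
  · exact hr.trans (hr.symm (Set.eq_univ_iff_forall.1 h x)) (Set.eq_univ_iff_forall.1 h y)

theorem Compact.sch (hG : Compact G) [Nontrivial V] [MulAction.IsPreprimitive (G ≃g G) V] :
    Sch (G ≃g G) fun x y => Quotient.mk (MulAction.orbitRel (G ≃g G) (V × V)) (x, y) := by
  have hc : ∀ x y x' y' : V, Quotient.mk (MulAction.orbitRel (G ≃g G) (V × V)) (x, y) =
      Quotient.mk _ (x', y') ↔ ∃ g : G ≃g G, g • x = x' ∧ g • y = y' := fun x y x' y' => by
    rw [eq_comm, Quotient.eq, MulAction.orbitRel_apply, MulAction.mem_orbit_iff]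
    simp [Prod.ext_iff]
  refine ⟨hc, fun x y => (hc _ _ _ _).2 (hG.swap x y), prim_rel, fun u S P h1 h2 g0 h3 h4 => ?_⟩
  let φ : Matrix V V ℝ →ₗ[ℝ] ℝ :=
    ∑ v ∈ S, entryLinearMap ℝ ℝ u v - ∑ p ∈ P, entryLinearMap ℝ ℝ p.1 p.2
  have e : ∀ g : G ≃g G, φ (pm g.toEquiv) =
      (if g • u ∈ S then 1 else 0) - #(P.filter fun p => g • p.1 = p.2) := fun g => by
    simp only [φ, LinearMap.sub_apply, LinearMap.sum_apply, entryLinearMap_apply, pm_apply,
      sum_ite_eq, card_filter]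
    push_cast
    rfl
  have e1 : ∀ g : G ≃g G, (∃ p ∈ P, g • p.1 = p.2) → φ (pm g.toEquiv) = 0 := fun g ⟨p, a, b⟩ => by
    rw [e, if_pos (h1 g p a b), card_eq_one.2 ⟨p, eq_singleton_iff_unique_mem.2
      ⟨mem_filter.2 ⟨a, b⟩, fun q hq => h2 g q (mem_filter.1 hq).1 p a (mem_filter.1 hq).2 b⟩⟩]
    simp
  have e2 : ∀ g : G ≃g G, (∀ p ∈ P, g • p.1 ≠ p.2) →
      φ (pm g.toEquiv) = if g • u ∈ S then 1 else 0 := fun g a => by
    rw [e, filter_false_of_mem a]
    simp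
  obtain ⟨w, hw⟩ := hG.pos φ (fun g => by
    by_cases a : ∃ p ∈ P, g • p.1 = p.2
    · exact (e1 g a).ge
    · push Not at a
      rw [e2 g a]
      split_ifs <;> norm_num) g0 (by rw [e2 g0 h4, if_pos h3]; norm_num)
  refine ⟨w, fun g hg => ?_⟩
  have a : ∀ p ∈ P, g • p.1 ≠ p.2 := fun p a b => (hw g hg).ne' (e1 g ⟨p, a, b⟩)
  exact ⟨by_contra fun b => (hw g hg).ne' (by rw [e2 g a, if_neg b]), a⟩

end Pool.Agent.Lib.MP_3cc314_lc
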