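import Mathlib

set_option autoImplicit false

namespace Pool.Agent.Lib.MP_3cc314_lc

variable {V : Type} [Fintype V] [DecidableEq V]

/-- the polytope of fractional automorphisms: doubly stochastic real matrices commuting with the
adjacency matrix -/
def fracAut (G : SimpleGraph V) [DecidableRel G.Adj] : Set (Matrix V V ℝ) :=
  {X | X ∈ doublyStochastic ℝ V ∧ G.adjMatrix ℝ * X = X * G.adjMatrix ℝ}

/-- a graph is compact if all extreme points of its polytope of fractional automorphisms are
integral -/
def Compact (G : SimpleGraph V) [DecidableRel G.Adj] : Prop :=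
  ∀ X ∈ (fracAut G).extremePoints ℝ, ∀ i j, ∃ z : ℤ, X i j = z

end Pool.Agent.Lib.MP_3cc314_lc
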