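import Pool.Agent.Lib.MP_3cc314_lc.Comp

set_option autoImplicit false
set_option linter.unusedSectionVars false

namespace Pool.Agent.Lib.MP_3cc314_lc
open MulAction

variable {Γ V : Type*} [Group Γ] [MulAction Γ V] [FaithfulSMul Γ V] [IsPreprimitive Γ V]

theorem stab_two (H : V → V → Prop) (hs : ∀ x y, H x y → H y x) (hi : ∀ x, ¬ H x x)
    (hg : ∀ (g : Γ) x y, H x y → H (g • x) (g • y)) (hne : ∃ x y, H x y)
    (hd : ∀ x a b c, H x a → H x b → H x c → a = b ∨ a = c ∨ b = c) (v : V) (g g' : Γ)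
    (e : g • v = v) (e' : g' • v = v) (n : g ≠ 1) (n' : g' ≠ 1) : g = g' := by
  have con := (prim_rel (Γ := Γ) (Relation.ReflTransGen H) ⟨fun _ => .refl,
    fun h => by
      induction h with
      | refl => exact .refl
      | tail _ h ih => exact .head (hs _ _ h) ih, .trans⟩
    fun g x y h => h.lift (g • ·) (hg g)).resolve_left fun hh => by
      obtain ⟨x, y, h⟩ := hne
      exact hi x (hh x y (.single h) ▸ h)
  have key : ∀ g : Γ, g • v = v → (∀ y, H v y → g • y = y) → g = 1 := fun g e1 e2 => by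
    refine eq_of_smul_eq_smul (α := V) fun x => ?_
    have : g • x = x ∧ ∀ y, H x y → g • y = y := by
      induction con v x with
      | refl => exact ⟨e1, e2⟩
      | @tail x y _ h ih =>
        refine ⟨ih.2 y h, fun z hz => ?_⟩
        rcases hd y x z (g • z) (hs _ _ h) hz (by simpa [ih.2 y h] using hg g y z hz) with a | a | a
        · exact a ▸ ih.1
        · rw [← ih.1, smul_left_cancel_iff] at a
          exact a ▸ ih.1
        · exact a.symm
    rw [this.1, one_smul]
  have nb : ∀ g : Γ, g • v = v → ∀ y, H v y → H v (g • y) := fun g e y h => e ▸ hg g v y h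
  have mv : ∀ g : Γ, g • v = v → g ≠ 1 → ∀ y, H v y → g • y ≠ y := fun g e n y h a =>
    n (key g e fun z hz => by
      rcases hd v y z (g • z) h hz (nb g e z hz) with b | b | b
      · exact b ▸ a
      · rw [← a, smul_left_cancel_iff] at b
        exact b ▸ a
      · exact b.symm)
  rw [← inv_mul_eq_one]
  refine key _ (by rw [mul_smul, e', inv_smul_eq_iff, e]) fun y h => ?_
  rw [mul_smul, inv_smul_eq_iff]
  rcases hd v y _ _ h (nb g e y h) (nb g' e' y h) with b | b | b
  · exact absurd b.symm (mv g e n y h)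
  · exact absurd b.symm (mv g' e' n' y h)
  · exact b.symm

/-- the action is contained in the dihedral action on a prime number of points -/
def Dih (Γ : Type*) {V : Type*} [Group Γ] [MulAction Γ V] (v : V) : Prop :=
  ∃ (p : ℕ) (_ : Fact p.Prime) (e : ZMod p ≃ V) (r : Γ), e 0 = v ∧ (∀ i, r • e i = e (i + 1)) ∧
    ∀ g : Γ, ∃ b, (∀ i, g • e i = e (i + b)) ∨ ∀ i, g • e i = e (b - i)

theorem dih [Finite Γ] [Nontrivial V] (v : V)
    (hs : ∀ g g' : Γ, g • v = v → g' • v = v → g ≠ 1 → g' ≠ 1 → g = g') : Dih Γ v := by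
  have co := IsPreprimitive.isCoatom_stabilizer_of_isPreprimitive Γ v
  obtain ⟨r, hp, hr⟩ : ∃ r : Γ, (orderOf r).Prime ∧ ∀ g : Γ, g * r = r * g ∨ g * r = r⁻¹ * g := by
    have key : ∀ r0 : Γ, r0 ≠ 1 → ∃ m : ℕ, (orderOf (r0 ^ m)).Prime := fun r0 n =>
      ⟨_, by
        rw [orderOf_pow_orderOf_div (orderOf_pos r0).ne' (Nat.minFac_dvd _)]
        exact Nat.minFac_prime (mt orderOf_eq_one_iff.1 n)⟩
    obtain ⟨w, hw⟩ := exists_ne v
    obtain ⟨a, rfl⟩ := exists_smul_eq Γ v w
    by_cases h : ∀ g : Γ, g • v = v → g = 1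
    · obtain ⟨m, hm⟩ := key a fun e => hw (by rw [e, one_smul])
      refine ⟨_, hm, fun g => .inl ?_⟩
      have : Subgroup.zpowers (a ^ m) = ⊤ := co.2 _ (lt_of_le_of_ne
        (fun g hg => h g hg ▸ one_mem _) fun e => hm.ne_one (orderOf_eq_one_iff.2
          (h _ (show a ^ m ∈ stabilizer Γ v from e ▸ Subgroup.mem_zpowers _))))
      obtain ⟨k, rfl⟩ : g ∈ Subgroup.zpowers (a ^ m) := this ▸ Subgroup.mem_top g
      exact (Commute.zpow_self _ _).eq
    push Not at h
    obtain ⟨s, s1, s2⟩ := h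
    have s3 : s⁻¹ = s := hs _ _ (by rw [inv_smul_eq_iff, s1]) s1 (by simpa using s2) s2
    have t1 : (a * s * a⁻¹) • v ≠ v := fun e => by
      have e1 : a * s * a⁻¹ = s := hs _ _ e s1 (by simpa using s2) s2
      rcases prim_rel (Γ := Γ) (fun x y : V => ∀ g : Γ, g • x = x ↔ g • y = y)
        ⟨fun _ _ => .rfl, fun h g => (h g).symm, fun h h' g => (h g).trans (h' g)⟩
        (fun g x y h k => by
          simpa [mul_smul, inv_smul_eq_iff] using h (g⁻¹ * k * g)) with h | h
      · refine hw (h _ _ fun g => ⟨fun e2 => ?_, fun e2 => ?_⟩)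
        · by_contra n
          have := hs (a⁻¹ * g * a) s (by simpa [mul_smul, inv_smul_eq_iff] using e2) s1
            (fun e => n (by rw [show g = a * (a⁻¹ * g * a) * a⁻¹ by group, e]; simp)) s2
          exact n (by rw [show g = a * (a⁻¹ * g * a) * a⁻¹ by group, this, e])
        · by_cases n : g = 1
          · simp [n]
          · rw [hs g s e2 s1 n s2, ← e1]
            simp [mul_smul, s1]
      · exact s2 (eq_of_smul_eq_smul (α := V) fun x => by rw [(h v x s).1 s1, one_smul])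
    set t := a * s * a⁻¹ with ht
    have t2 : t⁻¹ = t := by rw [ht, mul_inv_rev, mul_inv_rev, inv_inv, s3, mul_assoc]
    obtain ⟨m, hm⟩ := key (s * t) fun e => t1 (by rw [eq_inv_of_mul_eq_one_right e, s3, s1])
    have inv : ∀ g : Γ, g * (s * t) = (s * t)⁻¹ * g → g * (s * t) ^ m = ((s * t) ^ m)⁻¹ * g :=
      fun g e => by rw [← inv_pow]; exact SemiconjBy.pow_right e m
    let M : Subgroup Γ :=
      { carrier := {g | g * (s * t) ^ m = (s * t) ^ m * g ∨ g * (s * t) ^ m = ((s * t) ^ m)⁻¹ * g}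
        one_mem' := .inl (by simp)
        mul_mem' := by
          rintro x y (e1 | e1) (e2 | e2)
          · exact .inl (SemiconjBy.mul_left e1 e2)
          · exact .inr (SemiconjBy.mul_left (SemiconjBy.inv_right e1) e2)
          · exact .inr (SemiconjBy.mul_left e1 e2)
          · exact .inl (by simpa using (SemiconjBy.mul_left (SemiconjBy.inv_right e1) e2).eq)
        inv_mem' := by
          rintro x (e | e)
          · exact .inl (SemiconjBy.inv_symm_left e)
          · exact .inr (by simpa using (SemiconjBy.inv_right (SemiconjBy.inv_symm_left e)).eq) }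
    have : M = ⊤ := co.2 _ (lt_of_le_of_ne (fun g hg => by
      by_cases n : g = 1
      · exact n ▸ one_mem _
      · rw [hs g s hg s1 n s2]
        refine .inr (inv s ?_)
        rw [mul_inv_rev, t2, s3, mul_assoc, ← mul_assoc s s, mul_eq_one_iff_eq_inv.2 s3.symm]
        simp) fun e => t1 (show t ∈ stabilizer Γ v from e ▸ .inr (inv t (by
          rw [mul_inv_rev, t2, s3, mul_assoc t s]))))
    exact ⟨_, hm, fun g => (this ▸ Subgroup.mem_top g : g ∈ M)⟩
  haveI := Fact.mk hp
  have r1 : ∀ k : ℤ, r ^ k ≠ 1 → ∀ x : V, r ^ k • x ≠ x := fun k n x e => by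
    refine n (eq_of_smul_eq_smul (α := V) fun y => ?_)
    obtain ⟨g, rfl⟩ := exists_smul_eq Γ x y
    rw [one_smul, ← mul_smul]
    rcases hr g with h | h
    · rw [← (SemiconjBy.zpow_right h k).eq, mul_smul, e]
    · have := (SemiconjBy.zpow_right h (-k)).eq
      rw [inv_zpow', neg_neg] at this
      rw [← this, mul_smul, zpow_neg, inv_smul_eq_iff.2 e.symm]
  have r2 : ∀ a b : ℤ, r ^ a • v = r ^ b • v ↔ (a : ZMod (orderOf r)) = b := fun a b => by
    rw [ZMod.intCast_eq_intCast_iff, ← zpow_eq_zpow_iff_modEq]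
    refine ⟨fun e => by_contra fun n => r1 (-b + a) (by rwa [zpow_add, zpow_neg, Ne, inv_mul_eq_one,
      eq_comm]) v (by rw [zpow_add, mul_smul, e, zpow_neg, inv_smul_smul]), fun e => by rw [e]⟩
  have r3 := (prim_rel (Γ := Γ) (fun x y : V => ∃ k : ℤ, r ^ k • x = y)
    ⟨fun _ => ⟨0, by simp⟩, fun ⟨k, e⟩ => ⟨-k, by rw [← e, zpow_neg, inv_smul_smul]⟩,
      fun ⟨k, e⟩ ⟨l, e'⟩ => ⟨l + k, by rw [zpow_add, mul_smul, e, e']⟩⟩
    (fun g x y ⟨k, e⟩ => by
      rcases hr g with h | h
      · exact ⟨k, by rw [← mul_smul, ← (SemiconjBy.zpow_right h k).eq, mul_smul, e]⟩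
      · exact ⟨-k, by rw [← inv_zpow', ← mul_smul, ← (SemiconjBy.zpow_right h k).eq, mul_smul,
          e]⟩)).resolve_left fun h => r1 1 (by
            rw [zpow_one]
            exact fun e => hp.ne_one (orderOf_eq_one_iff.2 e)) v (h _ _ ⟨1, rfl⟩).symm
  let e : ZMod (orderOf r) ≃ V := Equiv.ofBijective (fun i => r ^ (i.cast : ℤ) • v)
    ⟨fun i j h => by simpa using (r2 _ _).1 h, fun x => by
      obtain ⟨k, rfl⟩ := r3 v x
      exact ⟨k, (r2 _ _).2 (by simp)⟩⟩
  have he : ∀ k : ℤ, e k = r ^ k • v := fun k => (r2 _ _).2 (by simp)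
  refine ⟨orderOf r, inferInstance, e, r, by simpa using he 0, fun i => ?_, fun g => ?_⟩
  · obtain ⟨k, rfl⟩ := ZMod.intCast_surjective i
    rw [he, ← mul_smul, ← zpow_one_add, ← he]
    simp [add_comm]
  obtain ⟨b, hb⟩ := r3 v (g • v)
  refine ⟨b, (hr g).imp (fun h i => ?_) fun h i => ?_⟩ <;>
    obtain ⟨k, rfl⟩ := ZMod.intCast_surjective i <;>
    rw [he, ← mul_smul, (SemiconjBy.zpow_right h k).eq, mul_smul, ← hb, ← mul_smul]
  · rw [← zpow_add, ← he, Int.cast_add]
  · rw [inv_zpow', ← zpow_add, ← he, Int.cast_add, Int.cast_neg, neg_add_eq_sub]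

end Pool.Agent.Lib.MP_3cc314_lc
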