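import Mathlib
import Pool.Prelude.Def_H_3587d628
import Pool.Agent.Lib.MP_3cc314_lc.Main

namespace Pool.Agent.Lib.MP_3cc314_lc.OldPrimitiveP
open Pool.Agent.Lib.MP_3cc314_lc

theorem result : ∃ A : List (List Bool) → Bool, N68a2faeb.IsPolyTime A ∧
    ∀ (n : ℕ) (G : SimpleGraph (Fin n)) [DecidableRel G.Adj],
      A (List.ofFn fun i => List.ofFn fun j => decide (G.Adj i j)) = true ↔
        MulAction.IsPreprimitive (G ≃g G) (Fin n) ∧ Compact G :=
  ⟨alg, alg_poly, fun _ _ _ => alg_rows⟩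

end Pool.Agent.Lib.MP_3cc314_lc.OldPrimitiveP
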