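import Mathlib

set_option autoImplicit false
set_option linter.unusedSectionVars false

namespace Pool.Agent.Lib.MP_3cc314_lc
open Finset

/-- orbit colouring of the pairs, for a generously transitive primitive action with the covering
property that follows from compactness -/
structure Sch (Γ : Type*) {V ι : Type*} [Group Γ] [MulAction Γ V] (col : V → V → ι) : Prop where
  hcol : ∀ x y x' y', col x y = col x' y' ↔ ∃ g : Γ, g • x = x' ∧ g • y = y'
  sym : ∀ x y, col x y = col y x
  prim : ∀ r : V → V → Prop, Equivalence r → (∀ (g : Γ) x y, r x y → r (g • x) (g • y)) →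
    (∀ x y, r x y → x = y) ∨ ∀ x y, r x y
  cov : ∀ (u : V) (S : Finset V) (P : Finset (V × V)),
    (∀ g : Γ, ∀ p ∈ P, g • p.1 = p.2 → g • u ∈ S) →
    (∀ g : Γ, ∀ p ∈ P, ∀ p' ∈ P, g • p.1 = p.2 → g • p'.1 = p'.2 → p = p') →
    ∀ g0 : Γ, g0 • u ∈ S → (∀ p ∈ P, g0 • p.1 ≠ p.2) →
      ∃ w : V, ∀ g : Γ, g • w = g0 • w → g • u ∈ S ∧ ∀ p ∈ P, g • p.1 ≠ p.2

variable {Γ V ι : Type*} [Group Γ] [MulAction Γ V] [Fintype V] [DecidableEq V] [DecidableEq ι]
  {col : V → V → ι}

def N (col : V → V → ι) (ρ : ι) (x : V) : Finset V := univ.filter fun z => col x z = ρ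

@[simp] theorem mem_N {ρ : ι} {x z : V} : z ∈ N col ρ x ↔ col x z = ρ := by simp [N]

/-- `R` is a non-diagonal colour of least valency `k` -/
structure Mn (col : V → V → ι) (R : ι) (k : ℕ) : Prop where
  val : ∀ x, #(N col R x) = k
  ne : ∀ x, col x x ≠ R
  min : ∀ x y, x ≠ y → k ≤ #(N col (col x y) x)
  three : 3 ≤ k

namespace Sch
variable (h : Sch Γ col)
include h

theorem smul (g : Γ) (x y : V) : col (g • x) (g • y) = col x y :=
  ((h.hcol _ _ _ _).2 ⟨g, rfl, rfl⟩).symm

theorem eq_of {x y z : V} (e : col x y = col z z) : x = y := by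
  obtain ⟨g, h1, h2⟩ := (h.hcol _ _ _ _).1 e
  exact (smul_left_cancel_iff g).1 (h1.trans h2.symm)

theorem card_inter {x y x' y' : V} (e : col x y = col x' y') (ρ ρ' : ι) :
    #(N col ρ x ∩ N col ρ' y) = #(N col ρ x' ∩ N col ρ' y') := by
  obtain ⟨g, rfl, rfl⟩ := (h.hcol _ _ _ _).1 e
  refine card_nbij' (g • ·) (g⁻¹ • ·) (fun z hz => ?_) (fun z hz => ?_) (by simp [Set.LeftInvOn])
    (by simp [Set.RightInvOn, Set.LeftInvOn])
  · simpa [h.smul] using hz
  · simp only [coe_inter, Set.mem_inter_iff, mem_coe, mem_N] at hz ⊢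
    rw [← h.smul g, ← h.smul g y, smul_inv_smul]
    exact hz

theorem card_N (ρ : ι) (x y : V) : #(N col ρ x) = #(N col ρ y) := by
  obtain ⟨g, rfl, -⟩ := (h.hcol _ _ _ _).1 (h.sym x y)
  simpa using h.card_inter (h.smul g x x).symm ρ ρ

theorem dc (ρ : ι) (S T : Finset V) :
    ∑ s ∈ S, #(N col ρ s ∩ T) = ∑ t ∈ T, #(N col ρ t ∩ S) := by
  have e : ∀ (x : V) (T : Finset V), #(N col ρ x ∩ T) = ∑ t ∈ T, if col x t = ρ then 1 else 0 := by
    intro x T
    rw [← card_filter]
    congr 1
    ext z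
    simp [and_comm]
  simp only [e]
  rw [sum_comm]
  simp only [h.sym]

variable {R : ι} {k : ℕ} (m : Mn col R k)
include m

theorem thin {Q : ι} {w d : V} (e : N col Q w = N col R d) : w = d := by
  have inj : ∀ x y, N col R x = N col R y → x = y := by
    refine (h.prim (fun x y => N col R x = N col R y) ⟨fun _ => rfl, Eq.symm, Eq.trans⟩
      fun g x y hxy => ?_).resolve_right fun hh => ?_
    · ext z
      have := Finset.ext_iff.1 hxy (g⁻¹ • z)
      rwa [mem_N, mem_N, ← h.smul g, ← h.smul g y, smul_inv_smul, ← mem_N, ← mem_N] at this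
    · obtain ⟨y, hy⟩ := card_pos.1 (show 0 < #(N col R d) by rw [m.val]; have := m.three; omega)
      exact m.ne y (mem_N.1 (hh d y ▸ hy))
  by_contra hne
  have h1 : N col (col w d) w ⊆ {d} := by
    intro z hz
    obtain ⟨g, h2, h3⟩ := (h.hcol _ _ _ _).1 (mem_N.1 hz)
    refine mem_singleton.2 (inj _ _ ?_)
    ext y
    have := Finset.ext_iff.1 e (g • y)
    rw [← e, mem_N, mem_N, ← h.smul g, ← h.smul g w, h2, h3]
    simpa using this.symm
  have := (m.min w d hne).trans (card_le_card h1)
  have := m.three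
  simp at *
  omega

theorem bal {z d1 d2 t y : V} (h0 : z ≠ t) (h1 : z ≠ d1) (h2 : z ≠ d2)
    (hT : N col (col z t) z ⊆ N col R d1 ∪ N col R d2) (hy : col t y = R)
    (e1 : col z y ≠ col z d1) (e2 : col z y ≠ col z d2) : col z d1 = col z d2 := by
  by_contra hne
  have hd : Disjoint (N col (col z d1) z) (N col (col z d2) z) :=
    disjoint_left.2 fun x a b => hne ((mem_N.1 a).symm.trans (mem_N.1 b))
  have c1 := h.dc R (N col (col z t) z) (N col (col z d1) z ∪ N col (col z d2) z)
  have c2 : ∀ d, z ≠ d → k * #(N col R d ∩ N col (col z t) z) ≤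
      ∑ x ∈ N col (col z d) z, #(N col R x ∩ N col (col z t) z) := fun d hd => by
    rw [sum_const_nat (m := #(N col R d ∩ N col (col z t) z)) fun x hx =>
      h.card_inter (by rw [h.sym, mem_N.1 hx, h.sym]) _ _]
    exact Nat.mul_le_mul_right _ (m.min z d hd)
  have c3 : #(N col (col z t) z) ≤
      #(N col R d1 ∩ N col (col z t) z) + #(N col R d2 ∩ N col (col z t) z) := by
    refine le_trans (card_le_card ?_) (card_union_le _ _)
    rw [← union_inter_distrib_right]
    exact subset_inter hT subset_rfl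
  have c4 : ∑ s ∈ N col (col z t) z, #(N col R s ∩ (N col (col z d1) z ∪ N col (col z d2) z)) <
      ∑ s ∈ N col (col z t) z, k := by
    refine sum_lt_sum (fun s _ => m.val s ▸ card_le_card inter_subset_left) ⟨t, by simp, ?_⟩
    rw [← m.val t]
    exact card_lt_card ⟨inter_subset_left, fun hh => by simpa [e1, e2] using hh (mem_N.2 hy)⟩
  rw [sum_union hd] at c1
  rw [sum_const, smul_eq_mul] at c4
  have := c2 d1 h1
  have := c2 d2 h2
  nlinarith [Nat.mul_le_mul_left k c3]

theorem exc {u c d1 d2 : V} (hc : col u c = R) (h1 : col u d1 = R) (hcd : c ≠ d1)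
    (ha : col d1 d2 = col c d1) (h2 : d2 ≠ c) (h3 : col u d2 ≠ R ∨ col c d2 = col c d1) :
    ∃ w, w ≠ u ∧ w ≠ d1 ∧ col w d1 = col w d2 ∧ N col (col w u) w ⊆ N col R d1 ∪ N col R d2 ∧
      ∀ y, col u y = R → col w y = col w d1 → col c y = col c d1 := by
  have hcc : col c c ≠ col c d1 := fun e => hcd (h.eq_of e.symm)
  obtain ⟨w, hw⟩ := h.cov u (N col R d1 ∪ N col R d2)
    (insert (c, d2) (((N col R u).filter fun y => col c y ≠ col c d1) ×ˢ {d1})) (by
      intro g p hp e
      simp only [mem_insert, mem_product, mem_filter, mem_N, mem_singleton, mem_union] at hp ⊢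
      rcases hp with rfl | hp
      · right
        rw [← show g • c = d2 from e, h.smul, h.sym, hc]
      · left
        rw [← hp.2, ← e, h.smul, h.sym, hp.1.1]) (by
      intro g p hp p' hp' e e'
      simp only [mem_insert, mem_product, mem_filter, mem_N, mem_singleton] at hp hp'
      rcases hp with rfl | hp <;> rcases hp' with rfl | hp'
      · rfl
      · exact absurd (by rw [← h.smul g, e, e', hp'.2, h.sym, ha]) hp'.1.2
      · exact absurd (by rw [← h.smul g, e, e', hp.2, h.sym, ha]) hp.1.2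
      · exact Prod.ext ((smul_left_cancel_iff g).1 (by rw [e, e', hp.2, hp'.2]))
          (hp.2.trans hp'.2.symm)) 1 (by simp [h.sym d1, h1]) (by
      intro p hp
      simp only [mem_insert, mem_product, mem_filter, mem_N, mem_singleton] at hp
      rcases hp with rfl | hp
      · simpa using h2.symm
      · intro e
        rw [one_smul, hp.2] at e
        exact hp.1.2 (by rw [e]))
  simp only [one_smul] at hw
  have k1 : ∀ y, col u y = R → col w y = col w d1 → col c y = col c d1 := fun y hy e => by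
    by_contra hne
    obtain ⟨g, e1, e2⟩ := (h.hcol _ _ _ _).1 e
    exact (hw g e1).2 (y, d1) (by simp [hy, hne]) e2
  have k2 : col w c ≠ col w d2 := fun e => by
    obtain ⟨g, e1, e2⟩ := (h.hcol _ _ _ _).1 e
    exact (hw g e1).2 (c, d2) (by simp) e2
  have k3 : N col (col w u) w ⊆ N col R d1 ∪ N col R d2 := fun t ht => by
    obtain ⟨g, e1, rfl⟩ := (h.hcol _ _ _ _).1 (mem_N.1 ht).symm
    exact (hw g e1).1
  have k4 : col w c ≠ col w d1 := fun e => hcc (k1 c hc e)
  have n1 : w ≠ u := by
    rintro rfl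
    exact k4 (hc.trans h1.symm)
  have n2 : w ≠ d1 := by
    rintro rfl
    exact k2 (by rw [ha, h.sym])
  have n3 : w ≠ d2 := by
    rintro rfl
    rcases h3 with h3 | h3
    · refine n2 (h.thin m (Q := col w u) (eq_of_subset_of_card_le (fun t ht => ?_) ?_))
      · refine (mem_union.1 (k3 ht)).resolve_right fun ht' => h3 ?_
        rw [h.sym, ← mem_N.1 ht, mem_N.1 ht']
      · rw [m.val]
        exact m.min w u n1
    · exact k4 (by rw [h.sym, h3, ← ha, h.sym])
  exact ⟨w, n1, n2, h.bal m n1 n2 n3 k3 hc k4 k2, k3, k1⟩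

omit m in
/-- the incidence count between two suborbits of `w` -/
theorem inc (R : ι) (w u d : V) : #(N col (col w u) w) * #(N col R u ∩ N col (col w d) w) =
    #(N col (col w d) w) * #(N col R d ∩ N col (col w u) w) := by
  have := h.dc R (N col (col w u) w) (N col (col w d) w)
  rwa [sum_const_nat (m := #(N col R u ∩ N col (col w d) w)) fun x hx =>
      h.card_inter (by rw [h.sym, mem_N.1 hx, h.sym]) _ _,
    sum_const_nat (m := #(N col R d ∩ N col (col w u) w)) fun x hx =>
      h.card_inter (by rw [h.sym, mem_N.1 hx, h.sym]) _ _] at this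

omit m in
theorem cover {w u d1 d2 : V} (e : col w d1 = col w d2)
    (hT : N col (col w u) w ⊆ N col R d1 ∪ N col R d2) :
    #(N col (col w u) w) + #(N col R d1 ∩ N col R d2 ∩ N col (col w u) w) =
      2 * #(N col R d1 ∩ N col (col w u) w) := by
  have c1 := card_union_add_card_inter (N col R d1 ∩ N col (col w u) w)
    (N col R d2 ∩ N col (col w u) w)
  rw [← union_inter_distrib_right, inter_eq_right.2 hT, ← inter_inter_distrib_right,
    ← h.card_inter (x := d1) (y := w) (x' := d2) (y' := w) (by rw [h.sym, e, h.sym])] at c1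
  omega

theorem mono1 {u c d : V} (hc : col u c = R) (hd : col u d = R) (hcd : c ≠ d) :
    k ≤ 2 * #(N col R u ∩ N col (col c d) c) := by
  obtain ⟨d2, e1, e2⟩ : ∃ d2, col d d2 = col c d ∧ col u d2 ≠ R := by
    by_contra hh
    push Not at hh
    have h1 : N col (col d c) d ⊆ (N col R u).erase d := fun z hz =>
      mem_erase.2 ⟨fun e => hcd (h.eq_of (z := d) (by rw [h.sym, ← mem_N.1 hz, e])),
        mem_N.2 (hh z (by rw [mem_N.1 hz, h.sym]))⟩
    have := (m.min d c hcd.symm).trans (card_le_card h1)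
    rw [card_erase_of_mem (mem_N.2 hd), m.val] at this
    have := m.three
    omega
  obtain ⟨w, n1, n2, e, hT, k1⟩ := h.exc m hc hd hcd e1 (fun e => e2 (e ▸ hc)) (.inl e2)
  have c1 := h.cover e hT
  have c2 := h.inc R w u d
  have c3 := m.min w d n2
  have c4 : 0 < #(N col (col w u) w) := card_pos.2 ⟨u, by simp⟩
  have c5 : #(N col R u ∩ N col (col w d) w) ≤ #(N col R u ∩ N col (col c d) c) :=
    card_le_card fun y hy => by
      simp only [mem_inter, mem_N] at hy ⊢
      exact ⟨hy.1, k1 y hy.1 hy.2⟩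
  refine le_trans (Nat.le_of_mul_le_mul_left ?_ c4) (Nat.mul_le_mul_left 2 c5)
  nlinarith [Nat.mul_le_mul c3 (show #(N col (col w u) w) ≤
    2 * #(N col R d ∩ N col (col w u) w) by omega)]

theorem mono (v : V) : ∃ a : ι, (∀ x, col x x ≠ a) ∧
    ∀ u c d, col u c = R → col u d = R → c ≠ d → col c d = a := by
  have key : ∀ u c d d', col u c = R → col u d = R → col u d' = R → c ≠ d → c ≠ d' →
      col c d = col c d' := by
    intro u c d d' hc hd hd' n1 n2
    by_contra hne
    have c1 := h.mono1 m hc hd n1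
    have c2 := h.mono1 m hc hd' n2
    have c3 : #(N col R u ∩ N col (col c d) c ∪ N col R u ∩ N col (col c d') c) ≤
        #((N col R u).erase c) := card_le_card fun z hz => by
      simp only [mem_union, mem_inter, mem_N, mem_erase] at hz ⊢
      refine ⟨?_, by tauto⟩
      rintro rfl
      rcases hz with hz | hz
      · exact n1 (h.eq_of hz.2.symm)
      · exact n2 (h.eq_of hz.2.symm)
    rw [card_union_of_disjoint (disjoint_left.2 fun z a b => hne (by
      simp only [mem_inter, mem_N] at a b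
      exact a.2.symm.trans b.2)), card_erase_of_mem (mem_N.2 hc), m.val] at c3
    have := m.three
    omega
  obtain ⟨c0, h0, d0, h1, n0⟩ := one_lt_card.1 (show 1 < #(N col R v) by
    rw [m.val]; have := m.three; omega)
  rw [mem_N] at h0 h1
  refine ⟨col c0 d0, fun x e => n0 (h.eq_of e.symm), fun u c d hc hd n => ?_⟩
  obtain ⟨g, rfl, rfl⟩ := (h.hcol _ _ _ _).1 (h0.trans hc.symm)
  rw [← h.smul g c0 d0]
  exact key _ _ _ _ hc hd (by rw [h.smul, h1]) n (by simpa using n0)

end Sch
end Pool.Agent.Lib.MP_3cc314_lc
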