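import Pool.Agent.Lib.MP_3cc314_lc.SchA

set_option autoImplicit false
set_option linter.unusedSectionVars false

namespace Pool.Agent.Lib.MP_3cc314_lc
open Finset

variable {Γ V ι : Type*} [Group Γ] [MulAction Γ V] [Fintype V] [DecidableEq V] [DecidableEq ι]
  {col : V → V → ι}

/-- two points with a common `R`-neighbour have colour `a` -/
structure Sq (col : V → V → ι) (R a : ι) : Prop where
  ha : ∀ u c d, col u c = R → col u d = R → c ≠ d → col c d = a
  ne : ∀ x, col x x ≠ a
  neR : a ≠ R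

namespace Sch
variable (h : Sch Γ col) {R a : ι} {k : ℕ} (m : Mn col R k) (s : Sq col R a)
include h m s

theorem com {x y z : V} (hz : z ∈ N col R x ∩ N col R y) (n : x ≠ y) : col x y = a := by
  simp only [mem_inter, mem_N] at hz
  exact s.ha z x y (by rw [h.sym, hz.1]) (by rw [h.sym, hz.2]) n

theorem cl {w u d x y : V} (hp : #(N col (col w u) w) < 2 * #(N col R d ∩ N col (col w u) w))
    (hx : col w x = col w d) (hy : col w y = col w d) (n : x ≠ y) : col x y = a := by
  have c1 := card_union_add_card_inter (N col R x ∩ N col (col w u) w)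
    (N col R y ∩ N col (col w u) w)
  have c2 : #(N col R x ∩ N col (col w u) w ∪ N col R y ∩ N col (col w u) w) ≤
    #(N col (col w u) w) := card_le_card (union_subset inter_subset_right inter_subset_right)
  have c3 := h.card_inter (x := x) (y := w) (x' := d) (y' := w) (by rw [h.sym, hx, h.sym]) R
    (col w u)
  have c4 := h.card_inter (x := y) (y := w) (x' := d) (y' := w) (by rw [h.sym, hy, h.sym]) R
    (col w u)
  obtain ⟨z, hz⟩ := card_pos.1 (show 0 < #(N col R x ∩ N col (col w u) w ∩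
    (N col R y ∩ N col (col w u) w)) by omega)
  exact h.com m s (z := z) (by simp only [mem_inter] at hz ⊢; tauto) n

theorem nontr (w : V) : ∃ x y, col w x = a ∧ col w y = a ∧ x ≠ y ∧ col x y ≠ a := by
  by_contra hh
  push Not at hh
  obtain ⟨c, h0, d, h1, n0⟩ := one_lt_card.1 (show 1 < #(N col R w) by
    rw [m.val]; have := m.three; omega)
  rw [mem_N] at h0 h1
  rcases h.prim (fun x y => x = y ∨ col x y = a) ⟨fun _ => .inl rfl,
    fun hh => hh.imp Eq.symm fun e => by rw [h.sym, e], by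
      rintro x y z (rfl | e1) e2
      · exact e2
      rcases e2 with rfl | e2
      · exact .inr e1
      obtain ⟨g, e, -⟩ := (h.hcol _ _ _ _).1 (h.sym y w)
      refine or_iff_not_imp_left.2 fun n => ?_
      rw [← h.smul g]
      exact hh _ _ (by rw [← e, h.smul, h.sym, e1]) (by rw [← e, h.smul, e2]) (by simpa using n)⟩
    (fun g x y hh => hh.imp (congrArg _) fun e => by rw [h.smul, e]) with h2 | h2
  · exact n0 (h2 c d (.inr (s.ha w c d h0 h1 n0)))
  · rcases h2 w c with rfl | e
    · exact m.ne _ h0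
    · exact s.neR (e.symm.trans h0)

omit m s in
theorem inc2 {w u d : V} :
    ∑ x ∈ (N col (col w d) w).erase d, #(N col R x ∩ (N col R d ∩ N col (col w u) w)) +
      #(N col R d ∩ N col (col w u) w) =
      #(N col R d ∩ N col (col w u) w) * #(N col R u ∩ N col (col w d) w) := by
  rw [h.dc, card_eq_sum_ones (N col R d ∩ _), ← sum_add_distrib, sum_const_nat, card_eq_sum_ones]
  intro t ht
  simp only [mem_inter, mem_N] at ht
  rw [inter_erase, card_erase_add_one (by simp [h.sym t, ht.1])]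
  exact h.card_inter (by rw [h.sym, ht.2, h.sym]) _ _

theorem n1 {t z : V} (e : col t z = a) :
    #(N col R t ∩ N col R z) * #(N col a t) + k = k * k := by
  have c := h.dc R (N col R t) (N col a t)
  rw [sum_const_nat (m := k - 1), sum_const_nat (m := #(N col R t ∩ N col R z)), m.val] at c
  · obtain ⟨j, rfl⟩ : ∃ j, k = j + 1 := ⟨k - 1, by have := m.three; omega⟩
    rw [Nat.add_sub_cancel] at c
    nlinarith
  · intro y hy
    rw [inter_comm]
    exact h.card_inter ((mem_N.1 hy).trans e.symm) _ _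
  · intro y hy
    rw [← m.val y, ← card_erase_of_mem (a := t) (by rw [mem_N, h.sym, mem_N.1 hy])]
    congr 1
    ext x
    simp only [mem_inter, mem_N, mem_erase]
    exact ⟨fun hx => ⟨fun e => s.ne t (e ▸ hx.2), hx.1⟩,
      fun hx => ⟨hx.2, s.ha y t x (by rw [h.sym, mem_N.1 hy]) hx.2 hx.1.symm⟩⟩

theorem cs {t z : V} (e : col t z = a) :
    #(N col R t ∩ N col R z) * (k - 2) ^ 2 ≤ #(N col a t ∩ N col a z) *
      (k - 2 + (#(N col R t ∩ N col R z) - 1) * (#(N col R t ∩ N col R z) - 2)) := by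
  set B := N col R t ∩ N col R z with hB
  set Y := N col a t ∩ N col a z with hY
  have ntz : t ≠ z := fun e' => s.ne t (by rw [← e, e'])
  have c0 : ∀ x ∈ B, #(N col R x ∩ Y) = k - 2 := by
    intro x hx
    simp only [hB, mem_inter, mem_N] at hx
    rw [h.sym t, h.sym z] at hx
    have : N col R x ∩ Y = ((N col R x).erase t).erase z := by
      ext y
      simp only [hY, mem_inter, mem_N, mem_erase]
      exact ⟨fun hy => ⟨fun e => s.ne z (e ▸ hy.2.2), fun e => s.ne t (e ▸ hy.2.1), hy.1⟩,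
        fun hy => ⟨hy.2.2, s.ha x t y hx.1 hy.2.2 hy.2.1.symm, s.ha x z y hx.2 hy.2.2 hy.1.symm⟩⟩
    rw [this, card_erase_of_mem (by simp [hx.2, ntz.symm]), card_erase_of_mem (by simp [hx.1]),
      m.val]
    omega
  have c1 : ∑ y ∈ Y, #(N col R y ∩ B) = #B * (k - 2) := by rw [h.dc, sum_const_nat c0]
  have c2 : ∑ y ∈ Y, #(N col R y ∩ B) ^ 2 ≤ #B * (k - 2 + (#B - 1) * (#B - 2)) := by
    have e1 : ∀ y, #(N col R y ∩ B) ^ 2 =
        ∑ x ∈ B, if col x y = R then #(N col R y ∩ B) else 0 := by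
      intro y
      rw [← sum_filter, sum_const, smul_eq_mul, sq]
      congr 2
      ext x
      simp [h.sym y x, and_comm]
    simp only [e1]
    rw [sum_comm, ← smul_eq_mul]
    refine sum_le_card_nsmul _ _ _ fun x hx => ?_
    rw [← sum_filter, show Y.filter (fun y => col x y = R) = N col R x ∩ Y by
      ext y; simp [and_comm], h.dc, ← add_sum_erase _ _ hx, ← inter_assoc, inter_self, c0 x hx,
      ← card_erase_of_mem hx, ← smul_eq_mul]
    refine Nat.add_le_add_left (sum_le_card_nsmul _ _ _ fun y hy => ?_) _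
    rw [mem_erase] at hy
    have e2 : col y x = a := h.com m s (z := t) (by
      have := hy.2
      simp only [hB, mem_inter, mem_N] at hx this ⊢
      exact ⟨by rw [h.sym, this.1], by rw [h.sym, hx.1]⟩) hy.1
    have e3 : t ∈ N col R y ∩ N col R x ∧ z ∈ N col R y ∩ N col R x := by
      have := hy.2
      simp only [hB, mem_inter, mem_N] at hx this ⊢
      rw [h.sym y, h.sym y, h.sym x, h.sym x]
      tauto
    refine (card_le_card (t := ((N col R y ∩ N col R x).erase t).erase z) fun v hv => ?_).trans ?_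
    · simp only [hY, mem_inter, mem_N, mem_erase] at hv ⊢
      exact ⟨fun e => s.ne z (e ▸ hv.2.2.2), fun e => s.ne t (e ▸ hv.2.2.1), hv.1, hv.2.1⟩
    · rw [card_erase_of_mem (mem_erase.2 ⟨ntz.symm, e3.2⟩), card_erase_of_mem e3.1,
        h.card_inter (e2.trans e.symm)]
      exact le_of_eq (Nat.sub_sub _ _ _)
  have c3 := sq_sum_le_card_mul_sum_sq (s := Y) (f := fun y => #(N col R y ∩ B))
  rw [c1] at c3
  rcases Nat.eq_zero_or_pos #B with h0 | h0
  · simp [h0]
  refine Nat.le_of_mul_le_mul_left ?_ h0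
  nlinarith [Nat.mul_le_mul_left #Y c2]

theorem n5 {t z w u : V} (e : col t z = a) (n : w ≠ u) (q1 : col w u ≠ a) (q2 : col w u ≠ R)
    {b : ℕ} (hb : #(N col a t ∩ N col a z) + b + 1 = #(N col a t)) :
    #(N col a t) ≤ 3 * b ∨ 2 * k * #(N col a t) ≤ #(N col a t) * b + 4 * k * b := by
  set K := #(N col a t) with hK
  set l := #(N col a t ∩ N col a z) with hl
  have cK : ∀ x, #(N col a x) = K := fun x => h.card_N _ _ _
  have cl : ∀ x y, col x y = a → #(N col a x ∩ N col a y) = l := fun x y e' =>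
    h.card_inter (e'.trans e.symm) _ _
  have cb : ∀ x y, col x y = a → #((N col a x).erase y \ N col a y) = b := fun x y e' => by
    have := card_sdiff_add_card_inter ((N col a x).erase y) (N col a y)
    rw [erase_inter, erase_eq_of_notMem (s := N col a x ∩ N col a y) (by simp [s.ne]), cl x y e',
      card_erase_of_mem (mem_N.2 e'), cK] at this
    omega
  refine or_iff_not_imp_left.2 fun hh => ?_
  have clo : ∀ x y v, (x = y ∨ col x y = a ∨ ∃ r, col x r = a ∧ col r y = a) → col y v = a →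
      (x = v ∨ col x v = a ∨ ∃ r, col x r = a ∧ col r v = a) := by
    rintro x y v (rfl | e1 | ⟨r, e1, e2⟩) e3
    · exact .inr (.inl e3)
    · exact .inr (.inr ⟨y, e1, e3⟩)
    by_contra hc
    push Not at hc
    have n1 : col x y ≠ a := fun e => hc.2.2 y e e3
    have n2 : x ≠ y := fun e => hc.2.1 (e ▸ e3)
    have c1 : #(N col a r ∩ N col a y) ≤ #((((N col a r).erase x \ N col a x).erase y) ∪
        ((N col a y).erase v \ N col a v)) := card_le_card fun j hj => by
      simp only [mem_inter, mem_N, mem_union, mem_erase, mem_sdiff] at hj ⊢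
      by_cases e4 : col x j = a
      · exact .inr ⟨⟨fun e => hc.2.2 r e1 (e ▸ hj.1), hj.2⟩, fun e => hc.2.2 j e4 (by rw [h.sym, e])⟩
      · exact .inl ⟨fun e => s.ne y (e ▸ hj.2), ⟨fun e => n1 (by rw [h.sym, ← e, hj.2]), hj.1⟩, e4⟩
    have c2 := c1.trans (card_union_le _ _)
    have c3 := card_erase_add_one (s := (N col a r).erase x \ N col a x) (a := y)
      (by simp [e2, n1, n2.symm])
    rw [cb r x (by rw [h.sym, e1])] at c3
    rw [cl r y e2, cb y v e3] at c2
    omega
  have un := (h.prim (fun x y => x = y ∨ col x y = a ∨ ∃ r, col x r = a ∧ col r y = a)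
    ⟨fun _ => .inl rfl, fun hh => hh.imp Eq.symm (Or.imp (fun e => by rw [h.sym, e])
      fun ⟨r, e1, e2⟩ => ⟨r, by rw [h.sym, e2], by rw [h.sym, e1]⟩), by
      rintro x y v e1 (rfl | e2 | ⟨r, e2, e3⟩)
      · exact e1
      · exact clo _ _ _ e1 e2
      · exact clo _ _ _ (clo _ _ _ e1 e2) e3⟩
    (fun g x y hh => hh.imp (congrArg _) (Or.imp (fun e => by rw [h.smul, e])
      fun ⟨r, e1, e2⟩ => ⟨g • r, by rw [h.smul, e1], by rw [h.smul, e2]⟩))).resolve_left
    fun h2 => s.ne z (h2 t z (.inr (.inl e)) ▸ e)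
  set Z := N col R w ∪ N col (col w u) w with hZ
  have zp : ∀ y ∈ Z, w ≠ y ∧ col w y ≠ a := fun y hy => by
    simp only [hZ, mem_union, mem_N] at hy
    rcases hy with hy | hy
    · exact ⟨fun e => m.ne w (e ▸ hy), hy ▸ s.neR.symm⟩
    · exact ⟨fun e => n (h.eq_of (z := w) (by rw [← hy, ← e])), hy ▸ q1⟩
  have c1 : 2 * k ≤ #Z := by
    rw [hZ, card_union_of_disjoint (disjoint_left.2 fun x e1 e2 =>
      q2 ((mem_N.1 e2).symm.trans (mem_N.1 e1))), m.val]
    have := m.min w u n
    omega
  have c2 := h.dc a (N col a w) Z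
  have c3 : ∑ x ∈ N col a w, #(N col a x ∩ Z) ≤ K * b := by
    rw [← cK w, ← smul_eq_mul]
    refine sum_le_card_nsmul _ _ _ fun x hx => ?_
    rw [← cb x w (by rw [h.sym, mem_N.1 hx])]
    refine card_le_card fun y hy => ?_
    have := zp y (mem_inter.1 hy).2
    simp only [mem_inter, mem_N, mem_erase, mem_sdiff] at hy ⊢
    exact ⟨⟨this.1.symm, hy.1⟩, this.2⟩
  have c4 : #Z * (K - 2 * b) ≤ ∑ y ∈ Z, #(N col a y ∩ N col a w) := by
    rw [← smul_eq_mul]
    refine card_nsmul_le_sum _ _ _ fun y hy => ?_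
    obtain ⟨n1, n2⟩ := zp y hy
    obtain ⟨r, e1, e2⟩ := ((un w y).resolve_left n1).resolve_left n2
    rw [h.sym] at e1
    have d1 := card_union_add_card_inter (N col a r ∩ N col a y) (N col a r ∩ N col a w)
    have d2 : #(N col a r ∩ N col a y ∪ N col a r ∩ N col a w) ≤
        #(((N col a r).erase w).erase y) := card_le_card fun j hj => by
      simp only [mem_inter, mem_N, mem_union, mem_erase] at hj ⊢
      rcases hj with hj | hj
      · exact ⟨fun e => s.ne y (e ▸ hj.2), fun e => n2 (by rw [h.sym, ← e, hj.2]), hj.1⟩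
      · exact ⟨fun e => n2 (e ▸ hj.2), fun e => s.ne w (e ▸ hj.2), hj.1⟩
    have d3 : #(N col a r ∩ N col a y ∩ (N col a r ∩ N col a w)) ≤ #(N col a y ∩ N col a w) :=
      card_le_card (inter_subset_inter inter_subset_right inter_subset_right)
    rw [card_erase_of_mem (by simp [e2, n1.symm]), card_erase_of_mem (mem_N.2 e1), cK] at d2
    have d4 : 1 < #(N col a r) := one_lt_card.2 ⟨w, mem_N.2 e1, y, mem_N.2 e2, n1⟩
    rw [cl r y e2, cl r w e1] at d1
    rw [cK] at d4
    omega
  obtain ⟨j, hj⟩ : ∃ j, K = 2 * b + j := ⟨K - 2 * b, by omega⟩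
  rw [hj, Nat.add_sub_cancel_left] at c4
  rw [hj] at c3 ⊢
  nlinarith [Nat.mul_le_mul_right j c1]

end Sch
end Pool.Agent.Lib.MP_3cc314_lc
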